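import Pool.Agent.HGP.Val

/-!
# Eigenfunctions

1. `eig_mul`: multiplication of all coordinates by roots of unity `ζ j i`.
2. `eq_of_prod`: `E` depends only on the powers `w_i ^ M_i` and on the products of the `w_i` over the
points.
3. `zero_of`: `E` vanishes if a coordinate is `0` or infinity.
-/

set_option autoImplicit false
set_option linter.unusedSectionVars false

noncomputable section

namespace Pool.Agent.HGP

open Pool.Agent.ZCyc Pool.Agent.Dess Pool.Agent.TInc Pool.Agent.HGF
open scoped Classical

variable {k : Type} [Field k] {L : Type} [Field L] [Algebra k L] {κ : Type} [Fintype κ] {m : κ → ℕ}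
  {Q : Type} [Fintype Q] {N : ℕ} {W : Type}
  [AddCommGroup W] [Module k W] {E : (Fin N → Place k L) → (Fin N → Q → Option k) → W}
  {M b : Q → ℕ}

private theorem Eig_finset (hE : IsEig M b E) (s : Fin N → Place k L)
    (u : Fin N → Q → Option k) {ζ : Fin N → Q → k} (hζ : ∀ j i, ζ j i ^ M i = 1)
    (T : Finset (Fin N × Q)) :
    E s (fun j i => if (j, i) ∈ T then (u j i).map fun w => ζ j i * w else u j i) =
      (∏ p ∈ T, ζ p.1 p.2 ^ b p.2) • E s u := by
  induction T using Finset.induction_on with
  | empty => simp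
  | insert p T hp ih =>
    have h1 : (fun j i => if (j, i) ∈ insert p T then (u j i).map fun w => ζ j i * w
        else u j i) = rot p.1 p.2 (ζ p.1 p.2)
          (fun j i => if (j, i) ∈ T then (u j i).map fun w => ζ j i * w else u j i) := by
      funext j i
      unfold rot
      by_cases hj : j = p.1
      · subst hj
        rw [Function.update_self]
        by_cases hi : i = p.2
        · subst hi
          rw [Function.update_self, if_pos (Finset.mem_insert_self _ _)]
          beta_reduce
          rw [if_neg hp]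
        · rw [Function.update_of_ne hi]
          have h2 : ((p.1, i) ∈ insert p T) ↔ (p.1, i) ∈ T := by
            rw [Finset.mem_insert]
            constructor
            · rintro (h3 | h3)
              · exact absurd (congrArg Prod.snd h3) hi
              · exact h3
            · exact Or.inr
          beta_reduce
          by_cases h3 : (p.1, i) ∈ T
          · rw [if_pos (h2.2 h3), if_pos h3]
          · rw [if_neg (fun h4 => h3 (h2.1 h4)), if_neg h3]
      · rw [Function.update_of_ne hj]
        have h2 : ((j, i) ∈ insert p T) ↔ (j, i) ∈ T := by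
          rw [Finset.mem_insert]
          constructor
          · rintro (h3 | h3)
            · exact absurd (congrArg Prod.fst h3) hj
            · exact h3
          · exact Or.inr
        by_cases h3 : (j, i) ∈ T
        · rw [if_pos (h2.2 h3), if_pos h3]
        · rw [if_neg (fun h4 => h3 (h2.1 h4)), if_neg h3]
    rw [h1, hE _ _ _ _ _ (hζ _ _), ih, Finset.prod_insert hp, smul_smul]

theorem eig_mul (hE : IsEig M b E) (s : Fin N → Place k L) (u : Fin N → Q → Option k)
    {ζ : Fin N → Q → k} (hζ : ∀ j i, ζ j i ^ M i = 1) :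
    E s (fun j i => (u j i).map fun w => ζ j i * w) = (∏ i, (∏ j, ζ j i) ^ b i) • E s u := by
  have h1 := Eig_finset hE s u hζ Finset.univ
  simp only [Finset.mem_univ, if_true] at h1
  rw [h1, Fintype.prod_prod_type, Finset.prod_comm]
  congr 1
  apply Finset.prod_congr rfl
  intro i _
  rw [← Finset.prod_pow]

/-- `E` depends only on the powers `w_i ^ M` and on the products of the `w_i` over the points -/
theorem eq_of_prod (hE : IsEig M b E) {s : Fin N → Place k L} {w w' : Fin N → Q → k}
    (h0 : ∀ j i, w j i ≠ 0) (h : ∀ j i, w j i ^ M i = w' j i ^ M i)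
    (hp : ∀ i, ∏ j, w j i = ∏ j, w' j i) :
    E s (fun j i => some (w' j i)) = E s (fun j i => some (w j i)) := by
  have hζ : ∀ j i, (w' j i / w j i) ^ M i = 1 := by
    intro j i
    rw [div_pow, ← h j i, div_self (pow_ne_zero _ (h0 j i))]
  have h1 := eig_mul hE s (fun j i => some (w j i)) hζ
  have h2 : (fun j i => (some (w j i)).map fun x => w' j i / w j i * x) =
      fun j i => some (w' j i) := by
    funext j i
    rw [Option.map_some, div_mul_cancel₀ _ (h0 j i)]
  have h3 : ∏ i, (∏ j, w' j i / w j i) ^ b i = 1 := by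
    apply Finset.prod_eq_one
    intro i _
    rw [Finset.prod_div_distrib, ← hp i,
      div_self (Finset.prod_ne_zero_iff.2 fun j _ => h0 j i), one_pow]
  rw [h2, h3, one_smul] at h1
  exact h1

/-- `E` vanishes if a coordinate is `0` or infinity -/
theorem zero_of [IsAlgClosed k] [CharZero k] (hE : IsEig M b E) (hb : ∀ i, 0 < b i ∧ b i < M i)
    {s : Fin N → Place k L} {u : Fin N → Q → Option k} {j : Fin N} {i : Q}
    (h : u j i = none ∨ u j i = some 0) : E s u = 0 := by
  have hM : M i ≠ 0 := by
    have := hb i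
    omega
  have : NeZero (M i : k) := ⟨Nat.cast_ne_zero.2 hM⟩
  obtain ⟨ζ, hζ⟩ := HasEnoughRootsOfUnity.exists_primitiveRoot k (M i)
  have h1 : rot j i ζ u = u := by
    unfold rot
    have h2 : ((u j i).map fun w => ζ * w) = u j i := by
      rcases h with h | h
      · rw [h]
        rfl
      · rw [h, Option.map_some, mul_zero]
    rw [h2, Function.update_eq_self, Function.update_eq_self]
  have h3 := hE s u j i ζ hζ.pow_eq_one
  rw [h1] at h3
  have h4 : (ζ ^ b i - 1) • E s u = 0 := by
    rw [sub_smul, one_smul, ← h3, sub_self]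
  rcases smul_eq_zero.1 h4 with h5 | h5
  · exfalso
    have h6 := (hζ.pow_eq_one_iff_dvd (b i)).1 (sub_eq_zero.1 h5)
    have h7 := Nat.le_of_dvd (hb i).1 h6
    have h8 := (hb i).2
    omega
  · exact h5

/-- the permuted function is a class function and an eigenfunction -/
theorem isEig_perm (hE : IsEig M b E) (π : Equiv.Perm (Fin N)) :
    IsEig M b fun s u => E (fun j => s (π j)) fun j => u (π j) := by
  intro s u j i ζ hζ
  have h1 : (fun j' => rot j i ζ u (π j')) = rot (π.symm j) i ζ (fun j' => u (π j')) := by
    unfold rot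
    have h2 := Function.update_comp_equiv u π j
      (Function.update (u j) i ((u j i).map fun w => ζ * w))
    have h3 : u (π (π.symm j)) = u j := by rw [Equiv.apply_symm_apply]
    beta_reduce
    rw [h3]
    exact h2
  show E (fun j' => s (π j')) (fun j' => rot j i ζ u (π j')) = _
  rw [h1]
  exact hE _ _ _ _ _ hζ

theorem isCF_perm [IsAlgClosed k] [CharZero k] [Fact (IsCurve k L)] {F : ∀ r, Fam k L (m r)}
    {E : (Fin N → Place k L) → (Fin N → Ix m → Option k) → W} (hE : IsCF F E)
    (π : Equiv.Perm (Fin N)) : IsCF F fun s u => E (fun j => s (π j)) fun j => u (π j) := by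
  intro K _ _ hK s u f hf h
  exact hE K hK (fun j => s (π j)) (fun j => u (π j)) f hf fun j => h (π j)

/-- `AE` is a class function and an eigenfunction -/
theorem isEig_AE (hE : IsEig M b E) : IsEig M b (AE m E) := by
  intro s u j i ζ hζ
  unfold AE
  rw [Finset.smul_sum]
  apply Finset.sum_congr rfl
  intro π _
  have h1 := isEig_perm hE π s u j i ζ hζ
  beta_reduce at h1
  rw [h1]
  exact smul_comm _ _ _

theorem isCF_AE [IsAlgClosed k] [CharZero k] [Fact (IsCurve k L)] {F : ∀ r, Fam k L (m r)}
    {E : (Fin N → Place k L) → (Fin N → Ix m → Option k) → W} (hE : IsCF F E) : IsCF F (AE m E) := by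
  intro K _ _ hK s u f hf h
  unfold AE Finsupp.sum
  simp only [Finset.smul_sum]
  rw [Finset.sum_comm]
  apply Finset.sum_eq_zero
  intro π _
  have h1 := isCF_perm hE π K hK s u f hf h
  unfold Finsupp.sum at h1
  have h2 := congrArg (fun x => ((Equiv.Perm.sign π : ℤ) ^ (∑ r, (m r + 1))) • x) h1
  simp only [smul_zero, Finset.smul_sum] at h2
  rw [← h2]
  apply Finset.sum_congr rfl
  intro v _
  exact smul_comm _ _ _

/-- the sum over the permutations: reindexing -/
theorem AE_perm (s : Fin N → Place k L) (u : Fin N → Q → Option k)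
    (π : Equiv.Perm (Fin N)) : AE m E (fun j => s (π j)) (fun j => u (π j)) =
      ((Equiv.Perm.sign π : ℤ) ^ (∑ r, (m r + 1))) • AE m E s u := by
  unfold AE
  have h0 := Equiv.sum_comp (Equiv.mulLeft π) fun τ : Equiv.Perm (Fin N) =>
    ((Equiv.Perm.sign π : ℤ) ^ (∑ r, (m r + 1))) • (((Equiv.Perm.sign τ : ℤ) ^ (∑ r, (m r + 1))) •
      E (fun j => s (τ j)) fun j => u (τ j))
  rw [Finset.smul_sum, ← h0]
  apply Finset.sum_congr rfl
  intro σ _
  rw [smul_smul]
  congr 1
  show _ = (Equiv.Perm.sign π : ℤ) ^ (∑ r, (m r + 1)) * (Equiv.Perm.sign (π * σ) : ℤ) ^ (∑ r, (m r + 1))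
  rw [Equiv.Perm.sign_mul, Units.val_mul, mul_pow, ← mul_assoc, ← mul_pow]
  have h1 : (Equiv.Perm.sign π : ℤ) * (Equiv.Perm.sign π : ℤ) = 1 := by
    rw [← Units.val_mul, Int.units_mul_self, Units.val_one]
  rw [h1, one_pow, one_mul]

/-! ### Functions of the coordinates only -/

omit [Fintype Q] in
theorem IsEigs.isEig {E : (Fin N → Q → Option k) → W} (hE : IsEigs M b E) :
    IsEig M b fun (_ : Fin N → Place k L) u => E u := fun _ u j q ζ hζ => hE u j q ζ hζ

/-- `E` depends only on the powers `w_i ^ M` and on the products of the `w_i` over the points -/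
theorem eq_of_prods (s : Fin N → Place k L) {E : (Fin N → Q → Option k) → W}
    (hE : IsEigs M b E) {w w' : Fin N → Q → k}
    (h0 : ∀ j i, w j i ≠ 0) (h : ∀ j i, w j i ^ M i = w' j i ^ M i)
    (hp : ∀ i, ∏ j, w j i = ∏ j, w' j i) :
    E (fun j i => some (w' j i)) = E (fun j i => some (w j i)) :=
  eq_of_prod (L := L) hE.isEig (s := s) h0 h hp

/-- `E` vanishes if a coordinate is `0` or infinity -/
theorem zero_ofs [IsAlgClosed k] [CharZero k] (s : Fin N → Place k L)
    {E : (Fin N → Q → Option k) → W}
    (hE : IsEigs M b E) (hb : ∀ i, 0 < b i ∧ b i < M i)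
    {u : Fin N → Q → Option k} {j : Fin N} {i : Q} (h : u j i = none ∨ u j i = some 0) :
    E u = 0 := zero_of (L := L) hE.isEig hb (s := s) h

end Pool.Agent.HGP
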