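import Pool.Agent.HGP.Mov
import Pool.Agent.HGP.Eig

/-!
# Package HGP-Bdry: the class function vanishes at the degenerate points

Port of `Pool/Agent/HGFC/Bdry.lean` to fibre products. `line`: the same proof, with `OnX` (and
`onX_const`) instead of `OnY`, and the index type `Ix m` instead of `Fin m` (`vlo_upd` for any index
type). `zero_of_C`, `zero_of_A`: the coordinate `q = ⟨r, i⟩` is free: for the components `r' ≠ r` the
coordinates `cmp (Function.update .. ⟨r, i⟩ ..) r'` do not change, and for the component `r` it is the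
computation in `HGFC.zero_of_C`, `HGFC.zero_of_A` (please make them lemmas about one component; useful:
`cmp (Function.update u ⟨r, i⟩ a) r = Function.update (cmp u r) i a`).
-/

set_option autoImplicit false
set_option linter.unusedSectionVars false

noncomputable section

namespace Pool.Agent.HGP

open Pool.Agent.ZCyc Pool.Agent.Dess Pool.Agent.GT Pool.Agent.TInc Pool.Agent.HGF
open Pool.Agent.VFP (Om tt)
open Pool.Agent.EFC (unif genus sections)
open scoped Classical

variable {k : Type} [Field k] [IsAlgClosed k] [CharZero k] {L : Type} [Field L] [Algebra k L]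
  [hL : Fact (IsCurve k L)] {κ : Type} [Fintype κ] {m : κ → ℕ} {F : ∀ r, Fam k L (m r)} {N : ℕ}
  {W : Type} [AddCommGroup W] [Module k W]
  {E : (Fin N → Place k L) → (Fin N → Ix m → Option k) → W} {b : Ix m → ℕ}

private theorem vlo_upd {Q : Type} [DecidableEq Q] {v : Place k (Om k)} {a : k} (ha : v.At (tt k) a)
    (u : Fin N → Q → Option k) (j : Fin N) (i : Q) (j' : Fin N) (i' : Q) :
    vlo v (Function.update (fun j l => (u j l).map (algebraMap k (Om k))) j
        (Function.update (fun l => (u j l).map (algebraMap k (Om k))) i (some (tt k))) j' i') =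
      Function.update u j (Function.update (u j) i (some a)) j' i' := by
  by_cases hj : j' = j
  · subst hj
    rw [Function.update_self, Function.update_self]
    by_cases hi : i' = i
    · subst hi
      rw [Function.update_self, Function.update_self]
      exact vlo_at ha
    · rw [Function.update_of_ne hi, Function.update_of_ne hi]
      exact vlo_const v _
  · rw [Function.update_of_ne hj, Function.update_of_ne hj]
    exact vlo_const v _

theorem line (hb : ∀ q, 0 < b q ∧ b q < MX F q) (hE : IsCF F E) (hEig : IsEig (MX F) b E)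
    {s : Fin N → Place k L} {u : Fin N → Ix m → Option k}
    (h : ∀ j, OnX F (Sum.inr (s j) : Bp k L k) (u j)) {j : Fin N} {q : Ix m}
    (hf : OnX F (Sum.inr (s j) : Bp k L (Om k))
      (Function.update (fun l => (u j l).map (algebraMap k (Om k))) q (some (tt k)))) :
    E s u = 0 := by
  rcases hu : u j q with _ | c
  · exact zero_of hEig hb (Or.inl hu)
  have hw : ∀ j', OnX F ((fun j => (Sum.inr (s j) : Bp k L (Om k))) j')
      (Function.update (fun j l => (u j l).map (algebraMap k (Om k))) j
        (Function.update (fun l => (u j l).map (algebraMap k (Om k))) q (some (tt k))) j') := by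
    intro j'
    by_cases hj : j' = j
    · subst hj
      rw [Function.update_self]
      exact hf
    · rw [Function.update_of_ne hj]
      exact (onX_const (K := Om k) (s j') (u j')).2 (h j')
  have key : ∀ (v : Place k (Om k)) (a : k), v.At (tt k) a →
      E (fun j' => vb v ((fun j => (Sum.inr (s j) : Bp k L (Om k))) j'))
        (fun j' i' => vlo v (Function.update (fun j l => (u j l).map (algebraMap k (Om k))) j
          (Function.update (fun l => (u j l).map (algebraMap k (Om k))) q (some (tt k)))
          j' i')) =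
      E s (Function.update u j (Function.update (u j) q (some a))) := by
    intro v a ha
    congr 1
    funext j' i'
    exact vlo_upd ha u j q j' i'
  have h0 := bridge hE hw (fun v hv => key v c hv) (fun v hv => key v 0 hv)
  have h1 : Function.update u j (Function.update (u j) q (some c)) = u := by
    rw [← hu, Function.update_eq_self, Function.update_eq_self]
  rw [h1] at h0
  rw [h0]
  refine zero_of hEig hb (j := j) (i := q) (Or.inr ?_)
  rw [Function.update_self, Function.update_self]

private theorem cmp_upd {α : Type} (u : Ix m → α) (r : κ) (i : Fin (m r)) (a : α) :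
    cmp (Function.update u ⟨r, i⟩ a) r = Function.update (cmp u r) i a := by
  funext l
  show Function.update u ⟨r, i⟩ a ⟨r, l⟩ = Function.update (cmp u r) i a l
  by_cases hl : l = i
  · subst hl
    rw [Function.update_self, Function.update_self]
  · rw [Function.update_of_ne hl, Function.update_of_ne]
    intro h0
    apply hl
    simpa using h0

private theorem cmp_upd_ne {α : Type} (u : Ix m → α) {r r' : κ} (hr : r' ≠ r) (i : Fin (m r))
    (a : α) : cmp (Function.update u ⟨r, i⟩ a) r' = cmp u r' := by
  funext l
  show Function.update u ⟨r, i⟩ a ⟨r', l⟩ = u ⟨r', l⟩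
  rw [Function.update_of_ne]
  intro h0
  exact hr (congrArg Sigma.fst h0)

/-- it is enough to know the component with the free coordinate -/
private theorem onX_upd {c : Place k L} {u : Ix m → Option k}
    (h : OnX F (Sum.inr c : Bp k L k) u) {r : κ} {i : Fin (m r)}
    (hr : OnY (F r) (Sum.inr c : Bp k L (Om k))
      (Function.update (fun l => (cmp u r l).map (algebraMap k (Om k))) i (some (tt k)))) :
    OnX F (Sum.inr c : Bp k L (Om k))
      (Function.update (fun l => (u l).map (algebraMap k (Om k))) ⟨r, i⟩ (some (tt k))) := by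
  intro r'
  by_cases hr' : r' = r
  · subst hr'
    rw [cmp_upd]
    exact hr
  · rw [cmp_upd_ne _ hr']
    exact (onY_const (K := Om k) c (cmp u r')).2 (h r')

private theorem sv_om {D : Place k L →₀ ℤ} {f : L} {c : Place k L}
    (h : sv D f (Sum.inr c : Bp k L k) = 0) : sv D f (Sum.inr c : Bp k L (Om k)) = 0 := by
  rw [sv_inr, h, map_zero]

private theorem onY_C {n : ℕ} {G : Fam k L n} {c : Place k L} {u : Fin n → Option k}
    (h : OnY G (Sum.inr c : Bp k L k) u) {i : Fin n} {e : k} (hu : u i = some e)
    (hC : sv (G.E i) (G.C i) (Sum.inr c : Bp k L k) = 0) :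
    OnY G (Sum.inr c : Bp k L (Om k))
      (Function.update (fun l => (u l).map (algebraMap k (Om k))) i (some (tt k))) := by
  have h1 := (onY_const (K := Om k) c u).2 h
  have hC' := sv_om hC
  unfold OnY at h1 ⊢
  have e1 : ∀ l, snd (Function.update (fun l => (u l).map (algebraMap k (Om k))) i
      (some (tt k)) l) = snd ((u l).map (algebraMap k (Om k))) := by
    intro l
    by_cases hl : l = i
    · subst hl
      rw [Function.update_self, hu]
      rfl
    · rw [Function.update_of_ne hl]
  have e2 : ∀ l, sv (G.E l) (G.C l) (Sum.inr c : Bp k L (Om k)) *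
      fst (Function.update (fun l => (u l).map (algebraMap k (Om k))) i
        (some (tt k)) l) ^ G.M l = sv (G.E l) (G.C l) (Sum.inr c : Bp k L (Om k)) *
      fst ((u l).map (algebraMap k (Om k))) ^ G.M l := by
    intro l
    by_cases hl : l = i
    · subst hl
      rw [hC', zero_mul, zero_mul]
    · rw [Function.update_of_ne hl]
  simp only [e1, e2]
  exact h1

private theorem onY_A {n : ℕ} {G : Fam k L n} {c : Place k L} {u : Fin n → Option k}
    (h : OnY G (Sum.inr c : Bp k L k) u) (hn : 2 ≤ n)
    (hA : sv G.S G.A (Sum.inr c : Bp k L k) = 0) :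
    ∃ i : Fin n, OnY G (Sum.inr c : Bp k L (Om k))
      (Function.update (fun l => (u l).map (algebraMap k (Om k))) i (some (tt k))) := by
  have h1 := (onY_const (K := Om k) c u).2 h
  have hA' := sv_om hA
  unfold OnY at h1
  rw [hA', zero_mul, Finset.prod_eq_zero_iff] at h1
  obtain ⟨i', _, hi'⟩ := h1
  obtain ⟨i, hi⟩ : ∃ i : Fin n, i ≠ i' := by
    have : Nontrivial (Fin n) := Fin.nontrivial_iff_two_le.2 hn
    exact exists_ne i'
  refine ⟨i, ?_⟩
  unfold OnY
  rw [hA', zero_mul]
  refine Finset.prod_eq_zero (Finset.mem_univ i') ?_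
  rw [Function.update_of_ne hi.symm]
  exact hi'

theorem zero_of_C (hb : ∀ q, 0 < b q ∧ b q < MX F q) (hE : IsCF F E)
    (hEig : IsEig (MX F) b E) {s : Fin N → Place k L} {u : Fin N → Ix m → Option k}
    (h : ∀ j, OnX F (Sum.inr (s j) : Bp k L k) (u j)) {j : Fin N} {r : κ} {i : Fin (m r)}
    (hC : sv ((F r).E i) ((F r).C i) (Sum.inr (s j) : Bp k L k) = 0) : E s u = 0 := by
  rcases hu : u j ⟨r, i⟩ with _ | c
  · exact zero_of hEig hb (Or.inl hu)
  exact line hb hE hEig h (j := j) (q := ⟨r, i⟩) (onX_upd (h j) (onY_C (h j r) hu hC))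

theorem zero_of_A (hb : ∀ q, 0 < b q ∧ b q < MX F q) (hE : IsCF F E)
    (hEig : IsEig (MX F) b E) {s : Fin N → Place k L} {u : Fin N → Ix m → Option k}
    (h : ∀ j, OnX F (Sum.inr (s j) : Bp k L k) (u j)) {j : Fin N} {r : κ} (hm : 2 ≤ m r)
    (hA : sv (F r).S (F r).A (Sum.inr (s j) : Bp k L k) = 0) : E s u = 0 := by
  obtain ⟨i, hi⟩ := onY_A (h j r) hm hA
  exact line hb hE hEig h (j := j) (q := ⟨r, i⟩) (onX_upd (h j) hi)

/-- the value of a section is zero if and only if the section vanishes -/
theorem sv_eq_zero_iff (hL : IsCurve k L) {D : Place k L →₀ ℤ} {f : L} (hf : f ≠ 0)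
    (hs : f ∈ sections D) (c : Place k L) :
    sv D f (Sum.inr c : Bp k L k) = 0 ↔ 0 < ord c f + D c := by
  have hu := EFC.unif_ne hL c
  have h0 : f * unif c ^ D c ≠ 0 := mul_ne_zero hf (zpow_ne_zero _ hu)
  have h1 : c.At (f * unif c ^ D c) (val c (f * unif c ^ D c)) := TInc.at_val hL (hs c)
  have h2 : ord c (f * unif c ^ D c) = ord c f + D c := by
    rw [ord_mul hL c hf (zpow_ne_zero _ hu), ord_zpow hL, EFC.ord_unif' hL, mul_one]
  show algebraMap k k (val c (f * unif c ^ D c)) = 0 ↔ _
  rw [← h2, ← vanishes_iff_ord hL h0]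
  constructor
  · intro h3
    have h4 : val c (f * unif c ^ D c) = 0 := h3
    rw [h4] at h1
    exact Place.at_zero_iff.1 h1
  · intro h3
    exact h1.unique (Place.at_zero_iff.2 h3)

/-- a zero of the section `C_i` -/
theorem zero_of_o (hF : ∀ r, (F r).Adm) (hb : ∀ q, 0 < b q ∧ b q < MX F q) (hE : IsCF F E)
    (hEig : IsEig (MX F) b E) {s : Fin N → Place k L} {u : Fin N → Ix m → Option k}
    (h : ∀ j, OnX F (Sum.inr (s j) : Bp k L k) (u j)) {r : κ} {i : Fin (m r)} {o : Place k L}
    (ho : 0 < ord o ((F r).C i) + (F r).E i o) {j : Fin N} (hs : s j = o) : E s u = 0 := by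
  refine zero_of_C hb hE hEig h (j := j) (r := r) (i := i) ?_
  rw [hs]
  exact (sv_eq_zero_iff hL.out ((hF r).C0 i) ((hF r).secC i) o).2 ho

end Pool.Agent.HGP
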