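import Pool.Agent.HGP.Ind

/-!
# Transposition of two equal coordinates

One component, fixed points `s j` of the curve. If the data of the coordinates `i ≠ i'` are equal
and the exponents `b i = b i'` are equal, then the exchange of these coordinates of one point
changes the sign of `E` (the form `∏ u_l ^ (a_l - 1) du_l / dΦ` changes the sign).

Proof. If a coordinate of `u j` is `none` or `some 0` both sides are zero (`zero_ofs`). If a
coordinate `l` of the point `j` is free both sides are zero (`lines`: compare with the point with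
`u_l = 0`). This is the case if the section `C_l` or the section `A` vanishes at `s j` (`zero_Cs`,
`zero_As`). In the other cases `u j l = some (w l)` with `w l ≠ 0`, and the equation is
`(β - γ w_i ^ M) (β - γ w_i' ^ M) = μ`, `γ ≠ 0`, `μ ≠ 0`.
(1) `β = 0` (`case1`): the points with `u_i = t`, `u_i' = w_i w_i' / t` lie on the fibre, and for
`t = 0` a coordinate is zero. So both sides are zero.
(2) `β ≠ 0` (`case2`): `E⁺ u = E u + E (u with i, i' exchanged)` is a class function (`isCFs_sw`).
Let `U = w_i w_i' t`, `S = (β ^ 2 + γ ^ 2 U ^ M - μ) / (β γ)`, `x` a root of `X ^ 2 - S X + U ^ M`,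
`V ^ M = x` (`exists_V`). The points with `u_i = V`, `u_i' = U / V` lie on the fibre. Above `t = 0`
one of the two coordinates is zero, so `E⁺ = 0` there. Above `t = 1` the values of the coordinates
are `(ζ w_i, ζ⁻¹ w_i')` or `(ζ w_i', ζ⁻¹ w_i)`, `ζ ^ M = 1`, and `E⁺` has the value `E⁺ u` there.
-/

set_option autoImplicit false
set_option linter.unusedSectionVars false

noncomputable section

namespace Pool.Agent.HGP

open Pool.Agent.ZCyc Pool.Agent.Dess Pool.Agent.GT Pool.Agent.TInc Pool.Agent.HGF
open Pool.Agent.VFP (Om tt)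
open scoped Classical

variable {k : Type} [Field k] [IsAlgClosed k] [CharZero k] {L : Type} [Field L] [Algebra k L]
  [hL : Fact (IsCurve k L)] {m : ℕ} {F : Fam k L m} {N : ℕ} {W : Type} [AddCommGroup W]
  [Module k W] {s : Fin N → Place k L} {E : (Fin N → Fin m → Option k) → W} {b : Fin m → ℕ}

/-! ### Two coordinates of a point -/

private theorem uself {α β : Type} {_ : DecidableEq α} (f : α → β) (a : α) (v : β) :
    Function.update f a v a = v := Function.update_self _ _ _

private theorem uof {α β : Type} {_ : DecidableEq α} (f : α → β) {a a' : α} (h : a' ≠ a)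
    (v : β) : Function.update f a v a' = f a' := Function.update_of_ne h _ _

private theorem prod_two {R : Type} [CommMonoid R] {i i' : Fin m} (hi : i ≠ i') (f : Fin m → R) :
    ∏ l, f l = f i * (f i' * ∏ l ∈ (Finset.univ.erase i).erase i', f l) := by
  rw [← Finset.mul_prod_erase _ f (Finset.mem_univ i),
    ← Finset.mul_prod_erase _ f (Finset.mem_erase.2 ⟨hi.symm, Finset.mem_univ i'⟩)]

/-- the point with the new coordinates `y`, `y'` -/
private def up2 {K : Type} (x : Fin m → Option K) (i i' : Fin m) (y y' : Option K) :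
    Fin m → Option K := Function.update (Function.update x i y) i' y'

private theorem up2_fst {K : Type} {x : Fin m → Option K} {i i' : Fin m} (hi : i ≠ i')
    (y y' : Option K) : up2 x i i' y y' i = y := by
  unfold up2
  rw [Function.update_of_ne hi, Function.update_self]

private theorem up2_snd {K : Type} {x : Fin m → Option K} {i i' : Fin m}
    (y y' : Option K) : up2 x i i' y y' i' = y' := by
  unfold up2
  rw [Function.update_self]

private theorem up2_of {K : Type} {x : Fin m → Option K} {i i' l : Fin m} (h : l ≠ i)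
    (h' : l ≠ i') (y y' : Option K) : up2 x i i' y y' l = x l := by
  unfold up2
  rw [Function.update_of_ne h', Function.update_of_ne h]

private theorem up2_self {K : Type} (x : Fin m → Option K) {i i' : Fin m} :
    up2 x i i' (x i) (x i') = x := by
  unfold up2
  rw [Function.update_eq_self, Function.update_eq_self]

private theorem up2_swap {K : Type} (x : Fin m → Option K) {i i' : Fin m} (hi : i ≠ i')
    (y y' : Option K) :
    (fun l => up2 x i i' y y' (Equiv.swap i i' l)) = up2 x i i' y' y := by
  funext l
  by_cases h : l = i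
  · subst h
    rw [Equiv.swap_apply_left, up2_snd, up2_fst hi]
  by_cases h' : l = i'
  · subst h'
    rw [Equiv.swap_apply_right, up2_snd, up2_fst hi]
  · rw [Equiv.swap_apply_of_ne_of_ne h h', up2_of h h', up2_of h h']

/-- the product over the other coordinates -/
private def oth (F : Fam k L m) (i i' : Fin m) (c : Place k L) (w : Fin m → k) : k :=
  ∏ l ∈ (Finset.univ.erase i).erase i', (sv (F.E l) (F.B l) (Sum.inr c : Bp k L k) -
    sv (F.E l) (F.C l) (Sum.inr c : Bp k L k) * w l ^ F.M l)

/-- the equation for finite coordinates -/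
private theorem onY_up2 {K : Type} [Field K] [Algebra k K] {i i' : Fin m} (hi : i ≠ i')
    (c : Place k L) (w : Fin m → k) (V V' : K) :
    OnY F (Sum.inr c : Bp k L K)
      (up2 (fun l => some (algebraMap k K (w l))) i i' (some V) (some V')) ↔
    (algebraMap k K (sv (F.E i) (F.B i) (Sum.inr c : Bp k L k)) -
      algebraMap k K (sv (F.E i) (F.C i) (Sum.inr c : Bp k L k)) * V ^ F.M i) *
    ((algebraMap k K (sv (F.E i') (F.B i') (Sum.inr c : Bp k L k)) -
      algebraMap k K (sv (F.E i') (F.C i') (Sum.inr c : Bp k L k)) * V' ^ F.M i') *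
      algebraMap k K (oth F i i' c w)) =
    algebraMap k K (sv F.S F.A (Sum.inr c : Bp k L k)) := by
  have e1 : ∀ l, snd (up2 (fun l => some (algebraMap k K (w l))) i i' (some V) (some V') l) =
      (1 : K) := by
    intro l
    by_cases h : l = i
    · subst h
      rw [up2_fst hi, snd_some]
    by_cases h' : l = i'
    · subst h'
      rw [up2_snd, snd_some]
    · rw [up2_of h h', snd_some]
  have e2 : ∏ l ∈ (Finset.univ.erase i).erase i', (sv (F.E l) (F.B l) (Sum.inr c : Bp k L K) -
      sv (F.E l) (F.C l) (Sum.inr c : Bp k L K) *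
        fst (up2 (fun l => some (algebraMap k K (w l))) i i' (some V) (some V') l) ^ F.M l) =
      algebraMap k K (oth F i i' c w) := by
    unfold oth
    rw [map_prod]
    refine Finset.prod_congr rfl fun l hl => ?_
    have h' : l ≠ i' := Finset.ne_of_mem_erase hl
    have h : l ≠ i := Finset.ne_of_mem_erase (Finset.mem_of_mem_erase hl)
    rw [up2_of h h', fst_some, sv_inr, sv_inr (F.E l) (F.C l), map_sub, map_mul, map_pow]
  unfold OnY
  simp only [e1, one_pow, mul_one, Finset.prod_const_one]
  rw [prod_two hi, e2, up2_fst hi, up2_snd, fst_some, fst_some, sv_inr (F.E i) (F.B i),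
    sv_inr (F.E i) (F.C i), sv_inr (F.E i') (F.B i'), sv_inr (F.E i') (F.C i'), sv_inr F.S F.A]

/-! ### Free coordinates -/

private theorem vlo_upds {v : Place k (Om k)} {a : k} (ha : v.At (tt k) a)
    (u : Fin N → Fin m → Option k) (j : Fin N) (i : Fin m) (j' : Fin N) (i' : Fin m) :
    vlo v (Function.update (fun j l => (u j l).map (algebraMap k (Om k))) j
        (Function.update (fun l => (u j l).map (algebraMap k (Om k))) i (some (tt k))) j' i') =
      Function.update u j (Function.update (u j) i (some a)) j' i' := by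
  by_cases hj : j' = j
  · subst hj
    rw [Function.update_self, Function.update_self]
    by_cases hi : i' = i
    · subst hi
      rw [Function.update_self, Function.update_self]
      exact vlo_at ha
    · rw [Function.update_of_ne hi, Function.update_of_ne hi]
      exact vlo_const v _
  · rw [Function.update_of_ne hj, Function.update_of_ne hj]
    exact vlo_const v _

private theorem lines (hb : ∀ i, 0 < b i ∧ b i < F.M i) (hE : IsCFs F s E)
    (hEig : IsEigs F.M b E) {u : Fin N → Fin m → Option k}
    (h : ∀ j, OnY F (Sum.inr (s j) : Bp k L k) (u j)) {j : Fin N} {i : Fin m}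
    (hf : OnY F (Sum.inr (s j) : Bp k L (Om k))
      (Function.update (fun l => (u j l).map (algebraMap k (Om k))) i (some (tt k)))) :
    E u = 0 := by
  rcases hu : u j i with _ | c
  · exact zero_ofs s hEig hb (Or.inl hu)
  have hw : ∀ j', OnY F (Sum.inr (s j') : Bp k L (Om k))
      (Function.update (fun j l => (u j l).map (algebraMap k (Om k))) j
        (Function.update (fun l => (u j l).map (algebraMap k (Om k))) i (some (tt k))) j') := by
    intro j'
    by_cases hj : j' = j
    · subst hj
      rw [Function.update_self]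
      exact hf
    · rw [Function.update_of_ne hj]
      exact (onY_const (K := Om k) (s j') (u j')).2 (h j')
  have key : ∀ (v : Place k (Om k)) (a : k), v.At (tt k) a →
      E (fun j' i' => vlo v (Function.update (fun j l => (u j l).map (algebraMap k (Om k))) j
          (Function.update (fun l => (u j l).map (algebraMap k (Om k))) i (some (tt k)))
          j' i')) =
      E (Function.update u j (Function.update (u j) i (some a))) := by
    intro v a ha
    congr 1
    funext j' i'
    exact vlo_upds ha u j i j' i'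
  have h0 := bridges hE hw (fun v hv => key v c hv) (fun v hv => key v 0 hv)
  have h1 : Function.update u j (Function.update (u j) i (some c)) = u := by
    rw [← hu, Function.update_eq_self, Function.update_eq_self]
  rw [h1] at h0
  rw [h0]
  refine zero_ofs s hEig hb (j := j) (i := i) (Or.inr ?_)
  rw [Function.update_self, Function.update_self]

private theorem zero_Cs (hb : ∀ i, 0 < b i ∧ b i < F.M i) (hE : IsCFs F s E)
    (hEig : IsEigs F.M b E) {u : Fin N → Fin m → Option k}
    (h : ∀ j, OnY F (Sum.inr (s j) : Bp k L k) (u j)) {j : Fin N} {i : Fin m}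
    (hC : sv (F.E i) (F.C i) (Sum.inr (s j) : Bp k L k) = 0) : E u = 0 := by
  rcases hu : u j i with _ | c
  · exact zero_ofs s hEig hb (Or.inl hu)
  refine lines hb hE hEig h (j := j) (i := i) ?_
  have h1 := (onY_const (K := Om k) (s j) (u j)).2 (h j)
  have hC' : sv (F.E i) (F.C i) (Sum.inr (s j) : Bp k L (Om k)) = 0 := by
    rw [sv_inr, hC, map_zero]
  unfold OnY at h1 ⊢
  have e1 : ∀ l, snd (Function.update (fun l => (u j l).map (algebraMap k (Om k))) i
      (some (tt k)) l) = snd ((u j l).map (algebraMap k (Om k))) := by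
    intro l
    by_cases hl : l = i
    · subst hl
      rw [Function.update_self, hu]
      rfl
    · rw [Function.update_of_ne hl]
  have e2 : ∀ l, sv (F.E l) (F.C l) (Sum.inr (s j) : Bp k L (Om k)) *
      fst (Function.update (fun l => (u j l).map (algebraMap k (Om k))) i
        (some (tt k)) l) ^ F.M l = sv (F.E l) (F.C l) (Sum.inr (s j) : Bp k L (Om k)) *
      fst ((u j l).map (algebraMap k (Om k))) ^ F.M l := by
    intro l
    by_cases hl : l = i
    · subst hl
      rw [hC', zero_mul, zero_mul]
    · rw [Function.update_of_ne hl]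
  simp only [e1, e2]
  exact h1

private theorem zero_As (hb : ∀ i, 0 < b i ∧ b i < F.M i) (hE : IsCFs F s E)
    (hEig : IsEigs F.M b E) {u : Fin N → Fin m → Option k}
    (h : ∀ j, OnY F (Sum.inr (s j) : Bp k L k) (u j)) {j : Fin N} {a a' : Fin m} (ha : a ≠ a')
    (hA : sv F.S F.A (Sum.inr (s j) : Bp k L k) = 0) : E u = 0 := by
  have h1 := (onY_const (K := Om k) (s j) (u j)).2 (h j)
  have hA' : sv F.S F.A (Sum.inr (s j) : Bp k L (Om k)) = 0 := by
    rw [sv_inr, hA, map_zero]
  unfold OnY at h1
  rw [hA', zero_mul, Finset.prod_eq_zero_iff] at h1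
  obtain ⟨i', _, hi'⟩ := h1
  obtain ⟨i, hi⟩ : ∃ i : Fin m, i ≠ i' := by
    by_cases h2 : a = i'
    · exact ⟨a', fun h3 => ha (h2.trans h3.symm)⟩
    · exact ⟨a, h2⟩
  refine lines hb hE hEig h (j := j) (i := i) ?_
  unfold OnY
  rw [hA', zero_mul]
  refine Finset.prod_eq_zero (Finset.mem_univ i') ?_
  rw [Function.update_of_ne hi.symm]
  exact hi'

/-! ### The exchange of the coordinates -/

private theorem onY_swap {K : Type} [Field K] [Algebra k K] {i i' : Fin m}
    (hdE : F.E i = F.E i') (hdB : F.B i = F.B i') (hdC : F.C i = F.C i') (hdM : F.M i = F.M i')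
    {c : Bp k L K} {x : Fin m → Option K} (h : OnY F c x) :
    OnY F c fun l => x (Equiv.swap i i' l) := by
  have key : ∀ {R : Type} (g : Fin m → R), g i = g i' → ∀ l, g (Equiv.swap i i' l) = g l := by
    intro R g hg l
    by_cases h1 : l = i
    · subst h1
      rw [Equiv.swap_apply_left, hg]
    by_cases h2 : l = i'
    · subst h2
      rw [Equiv.swap_apply_right, hg]
    · rw [Equiv.swap_apply_of_ne_of_ne h1 h2]
  unfold OnY at h ⊢
  have e1 := Equiv.prod_comp (Equiv.swap i i') fun l =>
    (sv (F.E l) (F.B l) c * snd (x l) ^ F.M l - sv (F.E l) (F.C l) c * fst (x l) ^ F.M l)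
  have e2 := Equiv.prod_comp (Equiv.swap i i') fun l => snd (x l) ^ F.M l
  simp only [key F.E hdE, key F.B hdB, key F.C hdC, key F.M hdM] at e1 e2
  rw [e1, e2]
  exact h

/-- the exchange of two coordinates of the point `j` -/
private def sw {K : Type} (j : Fin N) (i i' : Fin m) (u : Fin N → Fin m → Option K) :
    Fin N → Fin m → Option K := Function.update u j fun l => u j (Equiv.swap i i' l)

private theorem onY_sw {K : Type} [Field K] [Algebra k K] {i i' : Fin m}
    (hdE : F.E i = F.E i') (hdB : F.B i = F.B i') (hdC : F.C i = F.C i') (hdM : F.M i = F.M i')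
    {c : Fin N → Bp k L K} {u : Fin N → Fin m → Option K} (h : ∀ l, OnY F (c l) (u l))
    (j : Fin N) : ∀ l, OnY F (c l) (sw j i i' u l) := by
  intro l
  unfold sw
  by_cases hl : l = j
  · subst hl
    rw [Function.update_self]
    exact onY_swap hdE hdB hdC hdM (h l)
  · rw [Function.update_of_ne hl]
    exact h l

private theorem isCFs_sw (hE : IsCFs F s E) {i i' : Fin m}
    (hdE : F.E i = F.E i') (hdB : F.B i = F.B i') (hdC : F.C i = F.C i') (hdM : F.M i = F.M i')
    (j : Fin N) : IsCFs F s fun u => E u + E (sw j i i' u) := by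
  intro K _ _ hK u f hf h
  have h1 := hE K hK u f hf h
  have h2 := hE K hK (sw j i i' u) f hf (onY_sw hdE hdB hdC hdM h j)
  have h3 : ∀ v : Place k K, (fun j' i'' => vlo v (sw j i i' u j' i'')) =
      sw j i i' fun j' i'' => vlo v (u j' i'') := by
    intro v
    funext j' l
    unfold sw
    by_cases hj : j' = j
    · subst hj
      rw [Function.update_self, Function.update_self]
    · rw [Function.update_of_ne hj, Function.update_of_ne hj]
  simp only [h3] at h2
  unfold Finsupp.sum at h1 h2 ⊢
  simp only [smul_add, Finset.sum_add_distrib]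
  rw [h1, h2, add_zero]

/-! ### The value of `E` as a function of two coordinates -/

/-- the value of `E` at the point with the new coordinates of the point `j` -/
private def GG (E : (Fin N → Fin m → Option k) → W) (w : Fin N → Fin m → k) (j : Fin N)
    (i i' : Fin m) (y y' : Option k) : W :=
  E (Function.update (fun j' l => some (w j' l)) j (up2 (fun l => some (w j l)) i i' y y'))

variable {w : Fin N → Fin m → k} {j : Fin N} {i i' : Fin m}

private theorem GG_zero (s : Fin N → Place k L) (hEig : IsEigs F.M b E)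
    (hb : ∀ i, 0 < b i ∧ b i < F.M i) (hi : i ≠ i') {y y' : Option k}
    (h : (y = none ∨ y = some 0) ∨ (y' = none ∨ y' = some 0)) : GG E w j i i' y y' = 0 := by
  rcases h with h | h
  · refine zero_ofs s hEig hb (j := j) (i := i) ?_
    rw [Function.update_self, up2_fst hi]
    exact h
  · refine zero_ofs s hEig hb (j := j) (i := i') ?_
    rw [Function.update_self, up2_snd]
    exact h

private theorem GG_rot (hEig : IsEigs F.M b E) (hi : i ≠ i') (hM : F.M i = F.M i')
    (hbb : b i = b i') {ζ : k} (hζ : ζ ^ F.M i = 1) (hζ0 : ζ ≠ 0) (a a' : k) :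
    GG E w j i i' (some (ζ * a)) (some (ζ⁻¹ * a')) = GG E w j i i' (some a) (some a') := by
  have e1 : rot j i ζ (Function.update (fun j' l => some (w j' l)) j
      (up2 (fun l => some (w j l)) i i' (some a) (some a'))) =
      Function.update (fun j' l => some (w j' l)) j
        (up2 (fun l => some (w j l)) i i' (some (ζ * a)) (some a')) := by
    unfold rot
    rw [Function.update_self, Function.update_idem, up2_fst hi]
    congr 1
    funext l
    by_cases h : l = i
    · subst h
      rw [uself, up2_fst hi]
      rfl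
    rw [uof _ h]
    by_cases h' : l = i'
    · subst h'
      rw [up2_snd, up2_snd]
    · rw [up2_of h h', up2_of h h']
  have e2 : rot j i' ζ⁻¹ (Function.update (fun j' l => some (w j' l)) j
      (up2 (fun l => some (w j l)) i i' (some (ζ * a)) (some a'))) =
      Function.update (fun j' l => some (w j' l)) j
        (up2 (fun l => some (w j l)) i i' (some (ζ * a)) (some (ζ⁻¹ * a'))) := by
    unfold rot
    rw [Function.update_self, Function.update_idem, up2_snd]
    congr 1
    funext l
    by_cases h' : l = i'
    · subst h'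
      rw [uself, up2_snd]
      rfl
    rw [uof _ h']
    by_cases h : l = i
    · subst h
      rw [up2_fst hi, up2_fst hi]
    · rw [up2_of h h', up2_of h h']
  unfold GG
  rw [← e2, hEig _ _ _ _ (by rw [inv_pow, ← hM, hζ, inv_one]), ← e1, hEig _ _ _ _ hζ, smul_smul,
    hbb, inv_pow, inv_mul_cancel₀ (pow_ne_zero _ hζ0), one_smul]

private theorem GG_sw (hi : i ≠ i') (y y' : Option k) :
    GG (fun u => E u + E (sw j i i' u)) w j i i' y y' =
      GG E w j i i' y y' + GG E w j i i' y' y := by
  unfold GG sw
  beta_reduce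
  rw [Function.update_self, Function.update_idem, up2_swap _ hi]

private theorem bridgeG (hE : IsCFs F s E)
    (h : ∀ l, OnY F (Sum.inr (s l) : Bp k L k) fun i => some (w l i)) {V V' : Om k}
    (hV : OnY F (Sum.inr (s j) : Bp k L (Om k))
      (up2 (fun l => some (algebraMap k (Om k) (w j l))) i i' (some V) (some V')))
    {c₀ c₁ : k} {C₀ C₁ : W}
    (h₀ : ∀ v : Place k (Om k), v.At (tt k) c₀ →
      GG E w j i i' (vlo v (some V)) (vlo v (some V')) = C₀)
    (h₁ : ∀ v : Place k (Om k), v.At (tt k) c₁ →
      GG E w j i i' (vlo v (some V)) (vlo v (some V')) = C₁) : C₀ = C₁ := by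
  have key : ∀ v : Place k (Om k), E (fun j' l => vlo v (Function.update
      (fun j' l => some (algebraMap k (Om k) (w j' l))) j
        (up2 (fun l => some (algebraMap k (Om k) (w j l))) i i' (some V) (some V')) j' l)) =
      GG E w j i i' (vlo v (some V)) (vlo v (some V')) := by
    intro v
    unfold GG
    congr 1
    funext j' l
    by_cases hj : j' = j
    · subst hj
      rw [Function.update_self, Function.update_self]
      by_cases hl' : l = i'
      · subst hl'
        rw [up2_snd, up2_snd]
      by_cases hl : l = i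
      · subst hl
        rw [up2_fst hl', up2_fst hl']
      · rw [up2_of hl hl', up2_of hl hl']
        exact vlo_const v (some (w j' l))
    · rw [Function.update_of_ne hj, Function.update_of_ne hj]
      exact vlo_const v (some (w j' l))
  refine bridges hE (u := Function.update (fun j' l => some (algebraMap k (Om k) (w j' l))) j
    (up2 (fun l => some (algebraMap k (Om k) (w j l))) i i' (some V) (some V'))) (fun l => ?_)
    (c₀ := c₀) (c₁ := c₁) (fun v hv => ?_) fun v hv => ?_
  · by_cases hl : l = j
    · subst hl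
      rw [Function.update_self]
      exact hV
    · rw [Function.update_of_ne hl]
      exact (onY_const (K := Om k) (s l) fun i => some (w l i)).2 (h l)
  · rw [key]
    exact h₀ v hv
  · rw [key]
    exact h₁ v hv

/-- the case `β = 0` -/
private theorem case1 (hE : IsCFs F s E) (hEig : IsEigs F.M b E)
    (hb : ∀ i, 0 < b i ∧ b i < F.M i)
    (h : ∀ l, OnY F (Sum.inr (s l) : Bp k L k) fun i => some (w l i)) (hi : i ≠ i')
    (hdE : F.E i = F.E i') (hdB : F.B i = F.B i') (hdC : F.C i = F.C i') (hdM : F.M i = F.M i')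
    (hB : sv (F.E i) (F.B i) (Sum.inr (s j) : Bp k L k) = 0) {a a' : k} (ha : a ≠ 0)
    (hon : OnY F (Sum.inr (s j) : Bp k L k)
      (up2 (fun l => some (w j l)) i i' (some a) (some a'))) :
    GG E w j i i' (some a) (some a') = 0 := by
  have hon' := (onY_up2 hi (s j) (w j) a a').1 hon
  rw [← hdE, ← hdB, ← hdC, ← hdM, hB] at hon'
  simp only [Algebra.algebraMap_self, RingHom.id_apply] at hon'
  have htt : tt k ≠ 0 := fun h0 => VFP.tt_transc (k := k) (by rw [h0]; exact isAlgebraic_zero)
  have h1 := congrArg (algebraMap k (Om k)) hon'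
  refine bridgeG (j := j) (i := i) (i' := i') hE h (V := tt k)
    (V' := algebraMap k (Om k) (a * a') / tt k) ?_ (c₀ := a) (c₁ := 0) (fun v hv => ?_)
    fun v hv => ?_
  · rw [onY_up2 hi, ← hdE, ← hdB, ← hdC, ← hdM, hB, map_zero, ← h1]
    simp only [map_mul, map_sub, map_pow, map_zero]
    have htM : tt k ^ F.M i ≠ 0 := pow_ne_zero _ htt
    rw [div_pow, mul_pow]
    field_simp
    ring
  · have h2 : v.At (algebraMap k (Om k) (a * a') / tt k) (a * a' / a) :=
      (Place.at_const _).div hv ha
    rw [mul_div_cancel_left₀ _ ha] at h2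
    rw [vlo_at hv, vlo_at h2]
  · rw [vlo_at hv]
    exact GG_zero s hEig hb hi (Or.inl (Or.inr rfl))

/-- the points of the curve through the point with the coordinates `a`, `a'` -/
private theorem exists_V {β γ μ a a' : k} (hβ : β ≠ 0) (hγ : γ ≠ 0) (ha : a ≠ 0) (ha' : a' ≠ 0)
    {M : ℕ} (hM : 0 < M) (hμ : (β - γ * a ^ M) * (β - γ * a' ^ M) = μ) :
    ∃ V : Om k, V ≠ 0 ∧
      (algebraMap k (Om k) β - algebraMap k (Om k) γ * V ^ M) *
        (algebraMap k (Om k) β - algebraMap k (Om k) γ *
          (algebraMap k (Om k) (a * a') * tt k / V) ^ M) = algebraMap k (Om k) μ ∧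
      ∀ v : Place k (Om k), v.At (tt k) 1 →
        ∃ r : k, v.At V r ∧ (r ^ M = a ^ M ∨ r ^ M = a' ^ M) := by
  have htt : tt k ≠ 0 := fun h0 => VFP.tt_transc (k := k) (by rw [h0]; exact isAlgebraic_zero)
  set φ := algebraMap k (Om k) with hφ
  have hβ' : φ β ≠ 0 := (map_ne_zero φ).2 hβ
  have hγ' : φ γ ≠ 0 := (map_ne_zero φ).2 hγ
  set U : Om k := φ (a * a') * tt k with hU
  have hU0 : U ≠ 0 := mul_ne_zero ((map_ne_zero φ).2 (mul_ne_zero ha ha')) htt
  set S : Om k := (φ β ^ 2 + φ γ ^ 2 * U ^ M - φ μ) / (φ β * φ γ) with hS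
  obtain ⟨d, hd⟩ := IsAlgClosed.exists_pow_nat_eq (S ^ 2 - 4 * U ^ M) (n := 2) two_pos
  set x : Om k := (S + d) / 2 with hx
  have hx1 : x ^ 2 - S * x + U ^ M = 0 := by
    have h2 : (2 : Om k) ≠ 0 := two_ne_zero
    rw [hx]
    field_simp
    linear_combination hd
  have hx0 : x ≠ 0 := by
    intro h0
    rw [h0] at hx1
    apply pow_ne_zero M hU0
    linear_combination hx1
  obtain ⟨V, hV⟩ := IsAlgClosed.exists_pow_nat_eq x hM
  have hV0 : V ≠ 0 := by
    rintro rfl
    rw [zero_pow hM.ne'] at hV
    exact hx0 hV.symm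
  refine ⟨V, hV0, ?_, fun v hv => ?_⟩
  · rw [div_pow, hV]
    have h3 : U ^ M / x = S - x := by
      rw [div_eq_iff hx0]
      linear_combination hx1
    have h4 : φ β * φ γ * S = φ β ^ 2 + φ γ ^ 2 * U ^ M - φ μ := by
      rw [hS, mul_div_cancel₀ _ (mul_ne_zero hβ' hγ')]
    rw [h3]
    linear_combination -h4 - φ γ ^ 2 * hx1
  · have hUv : v.At U (a * a') := by
      have := (Place.at_const (v := v) (a * a')).mul hv
      rwa [mul_one] at this
    have hSv : v.At S (a ^ M + a' ^ M) := by
      have h4 := ((((Place.at_const (v := v) β).pow 2).add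
        (((Place.at_const (v := v) γ).pow 2).mul (hUv.pow M))).sub (Place.at_const μ)).div
          ((Place.at_const (v := v) β).mul (Place.at_const γ)) (mul_ne_zero hβ hγ)
      have h5 : (β ^ 2 + γ ^ 2 * (a * a') ^ M - μ) / (β * γ) = a ^ M + a' ^ M := by
        rw [div_eq_iff (mul_ne_zero hβ hγ), ← hμ, mul_pow]
        ring
      rw [h5] at h4
      exact h4
    have hxr : x ∈ v.ring := by
      by_contra hcon
      have h6 : v.At x⁻¹ 0 := by
        rw [Place.at_zero_iff, Place.vanishes_iff_or, inv_inv]
        exact Or.inr hcon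
      have h7 : v.At (S * x⁻¹ - U ^ M * x⁻¹ ^ 2)
          ((a ^ M + a' ^ M) * 0 - (a * a') ^ M * 0 ^ 2) :=
        (hSv.mul h6).sub ((hUv.pow M).mul (h6.pow 2))
      have h8 : S * x⁻¹ - U ^ M * x⁻¹ ^ 2 = 1 := by
        field_simp
        linear_combination -hx1
      rw [h8] at h7
      have h9 := Place.at_const (v := v) (1 : k)
      rw [map_one] at h9
      have h10 := h7.unique h9
      apply zero_ne_one (α := k)
      rw [← h10]
      ring
    obtain ⟨ξ, hξ⟩ := HasRes.res v x hxr
    have h11 : (ξ - a ^ M) * (ξ - a' ^ M) = 0 := by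
      have h12 := ((hξ.pow 2).sub (hSv.mul hξ)).add (hUv.pow M)
      rw [hx1] at h12
      have h13 := h12.unique (Place.at_zero_iff.2 v.vanishes_zero)
      rw [mul_pow] at h13
      linear_combination h13
    rw [← hV] at hξ
    obtain ⟨r, hr, hr'⟩ := HYG.at_root hM hξ
    refine ⟨r, hr', ?_⟩
    rw [hr]
    rcases mul_eq_zero.1 h11 with h | h
    · exact Or.inl (sub_eq_zero.1 h)
    · exact Or.inr (sub_eq_zero.1 h)

/-- the case `β ≠ 0` -/
private theorem case2 (hE : IsCFs F s E) (hEig : IsEigs F.M b E)
    (hb : ∀ i, 0 < b i ∧ b i < F.M i)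
    (h : ∀ l, OnY F (Sum.inr (s l) : Bp k L k) fun i => some (w l i)) (hi : i ≠ i')
    (hdE : F.E i = F.E i') (hdB : F.B i = F.B i') (hdC : F.C i = F.C i') (hdM : F.M i = F.M i')
    (hdb : b i = b i') (hB : sv (F.E i) (F.B i) (Sum.inr (s j) : Bp k L k) ≠ 0)
    (hC : sv (F.E i) (F.C i) (Sum.inr (s j) : Bp k L k) ≠ 0)
    (hA : sv F.S F.A (Sum.inr (s j) : Bp k L k) ≠ 0) {a a' : k} (ha : a ≠ 0) (ha' : a' ≠ 0)
    (hon : OnY F (Sum.inr (s j) : Bp k L k)
      (up2 (fun l => some (w j l)) i i' (some a) (some a'))) :
    GG E w j i i' (some a) (some a') + GG E w j i i' (some a') (some a) = 0 := by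
  have hM : 0 < F.M i := lt_trans (hb i).1 (hb i).2
  have hon' := (onY_up2 hi (s j) (w j) a a').1 hon
  rw [← hdE, ← hdB, ← hdC, ← hdM] at hon'
  simp only [Algebra.algebraMap_self, RingHom.id_apply] at hon'
  set β := sv (F.E i) (F.B i) (Sum.inr (s j) : Bp k L k) with hβ
  set γ := sv (F.E i) (F.C i) (Sum.inr (s j) : Bp k L k) with hγ
  set A := sv F.S F.A (Sum.inr (s j) : Bp k L k) with hAd
  set P := oth F i i' (s j) (w j) with hP
  have hP0 : P ≠ 0 := by
    intro h0
    rw [h0, mul_zero, mul_zero] at hon'
    exact hA hon'.symm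
  obtain ⟨V, hV0, hV1, hV2⟩ := exists_V hB hC ha ha' hM (μ := A / P) (by
    rw [eq_div_iff hP0, ← hon']
    ring)
  have hVV : V * (algebraMap k (Om k) (a * a') * tt k / V) =
      algebraMap k (Om k) (a * a') * tt k := mul_div_cancel₀ _ hV0
  rw [← GG_sw hi]
  refine (bridgeG (j := j) (i := i) (i' := i') (isCFs_sw hE hdE hdB hdC hdM j) h (V := V)
    (V' := algebraMap k (Om k) (a * a') * tt k / V) ?_ (c₀ := 0) (c₁ := 1) (C₀ := 0)
    (fun v hv => ?_) fun v hv => ?_).symm
  · rw [onY_up2 hi, ← hdE, ← hdB, ← hdC, ← hdM, ← mul_assoc]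
    rw [hV1, ← map_mul, div_mul_cancel₀ _ hP0]
  · rw [GG_sw hi]
    have h2 : (vlo v (some V) = none ∨ vlo v (some V) = some 0) ∨
        (vlo v (some (algebraMap k (Om k) (a * a') * tt k / V)) = none ∨
          vlo v (some (algebraMap k (Om k) (a * a') * tt k / V)) = some 0) := by
      by_cases h3 : V ∈ v.ring
      · obtain ⟨c, hc⟩ := HasRes.res v V h3
        by_cases hc0 : c = 0
        · subst hc0
          exact Or.inl (Or.inr (vlo_at hc))
        · refine Or.inr (Or.inr (vlo_at ?_))
          have h4 := ((Place.at_const (v := v) (a * a')).mul hv).div hc hc0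
          rwa [mul_zero, zero_div] at h4
      · exact Or.inl (Or.inl (HYG.vl_none_om.2 h3))
    rw [GG_zero s hEig hb hi h2, GG_zero s hEig hb hi h2.symm, add_zero]
  · rw [GG_sw hi, GG_sw hi]
    obtain ⟨r, hr, hr'⟩ := hV2 v hv
    have key : ∀ {a a' : k}, a ≠ 0 → r ^ F.M i = a ^ F.M i → v.At V r →
        v.At (algebraMap k (Om k) (a * a') * tt k / V) (a * a' / r) →
        GG E w j i i' (vlo v (some V))
          (vlo v (some (algebraMap k (Om k) (a * a') * tt k / V))) +
        GG E w j i i' (vlo v (some (algebraMap k (Om k) (a * a') * tt k / V)))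
          (vlo v (some V)) =
        GG E w j i i' (some a) (some a') + GG E w j i i' (some a') (some a) := by
      intro a a' ha hra hr h5
      have hr0 : r ≠ 0 := by
        rintro rfl
        rw [zero_pow hM.ne'] at hra
        exact pow_ne_zero _ ha hra.symm
      have h6 : r = r / a * a := (div_mul_cancel₀ r ha).symm
      have h7 : a * a' / r = (r / a)⁻¹ * a' := by
        rw [inv_div]
        ring
      have hζ : (r / a) ^ F.M i = 1 := by
        rw [div_pow, hra, div_self (pow_ne_zero _ ha)]
      have hζ0 : r / a ≠ 0 := div_ne_zero hr0 ha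
      rw [vlo_at hr, vlo_at h5, h7]
      conv_lhs => rw [h6]
      rw [mul_div_cancel_right₀ _ ha]
      congr 1
      · exact GG_rot hEig hi hdM hdb hζ hζ0 a a'
      · have h8 := GG_rot (w := w) (j := j) hEig hi hdM hdb (ζ := (r / a)⁻¹)
          (by rw [inv_pow, hζ, inv_one]) (inv_ne_zero hζ0) a' a
        rwa [inv_inv] at h8
    have hr0 : r ≠ 0 := by
      rintro rfl
      rw [zero_pow hM.ne'] at hr'
      rcases hr' with h | h
      · exact pow_ne_zero _ ha h.symm
      · exact pow_ne_zero _ ha' h.symm
    have h5 : v.At (algebraMap k (Om k) (a * a') * tt k / V) (a * a' / r) := by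
      have h4 := ((Place.at_const (v := v) (a * a')).mul hv).div hr hr0
      rwa [mul_one] at h4
    rcases hr' with h6 | h6
    · exact key ha h6 hr h5
    · have h7 := key (a := a') (a' := a) ha' h6 hr (by rwa [mul_comm a' a])
      rw [mul_comm a' a] at h7
      rw [h7, add_comm]

/-- **Transposition of two equal coordinates.** -/
theorem transp (hF : F.Adm) (hb : ∀ i, 0 < b i ∧ b i < F.M i) (hE : IsCFs F s E)
    (hEig : IsEigs F.M b E) {u : Fin N → Fin m → Option k}
    (h : ∀ l, OnY F (Sum.inr (s l) : Bp k L k) (u l)) {j : Fin N} {i i' : Fin m} (hi : i ≠ i')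
    (hdE : F.E i = F.E i') (hdB : F.B i = F.B i') (hdC : F.C i = F.C i') (hdM : F.M i = F.M i')
    (hdb : b i = b i') :
    E (Function.update u j fun l => u j (Equiv.swap i i' l)) = - E u := by
  have hs := onY_sw (i := i) (i' := i') hdE hdB hdC hdM h j
  have hzero : ∀ {u : Fin N → Fin m → Option k} {j' : Fin N} {l : Fin m},
      (u j' l = none ∨ u j' l = some 0) → E u = 0 := fun h1 => zero_ofs s hEig hb h1
  change E (sw j i i' u) = - E u
  by_cases h1 : ∀ j' l, ∃ c, u j' l = some c
  swap
  · push Not at h1
    obtain ⟨j', l, h2⟩ := h1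
    have h3 : u j' l = none := by
      cases h4 : u j' l with
      | none => rfl
      | some c => exact absurd h4 (h2 c)
    have h4 : ∃ l', sw j i i' u j' l' = none := by
      unfold sw
      by_cases hj : j' = j
      · subst hj
        refine ⟨Equiv.swap i i' l, ?_⟩
        rw [Function.update_self, Equiv.swap_apply_self]
        exact h3
      · refine ⟨l, ?_⟩
        rw [Function.update_of_ne hj]
        exact h3
    obtain ⟨l', h4⟩ := h4
    rw [hzero (Or.inl h3), hzero (Or.inl h4), neg_zero]
  choose w hw using h1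
  obtain rfl : u = fun j l => some (w j l) := funext fun j => funext fun l => hw j l
  have hsw : sw j i i' (fun j l => some (w j l)) =
      Function.update (fun j l => some (w j l)) j
        (up2 (fun l => some (w j l)) i i' (some (w j i')) (some (w j i))) := by
    unfold sw
    congr 1
    have h2 := up2_swap (fun l => some (w j l)) hi (some (w j i)) (some (w j i'))
    rw [← h2]
    funext l
    rw [up2_self (fun l => some (w j l))]
  have hu : E (fun j l => some (w j l)) = GG E w j i i' (some (w j i)) (some (w j i')) := by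
    unfold GG
    rw [up2_self (fun l => some (w j l)), Function.update_eq_self]
  have hu' : E (sw j i i' fun j l => some (w j l)) =
      GG E w j i i' (some (w j i')) (some (w j i)) := by
    rw [hsw]
    rfl
  by_cases hA : sv F.S F.A (Sum.inr (s j) : Bp k L k) = 0
  · rw [zero_As hb hE hEig h hi hA, zero_As hb hE hEig hs hi hA, neg_zero]
  by_cases hC : sv (F.E i) (F.C i) (Sum.inr (s j) : Bp k L k) = 0
  · rw [zero_Cs hb hE hEig h hC, zero_Cs hb hE hEig hs hC, neg_zero]
  have hon : OnY F (Sum.inr (s j) : Bp k L k)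
      (up2 (fun l => some (w j l)) i i' (some (w j i)) (some (w j i'))) := by
    rw [up2_self (fun l => some (w j l))]
    exact h j
  have hon' : OnY F (Sum.inr (s j) : Bp k L k)
      (up2 (fun l => some (w j l)) i i' (some (w j i')) (some (w j i))) := by
    have h2 := hs j
    rw [hsw, Function.update_self] at h2
    exact h2
  by_cases h2 : w j i = 0
  · have h4 : some (w j i) = some 0 := by rw [h2]
    rw [hu, hu', GG_zero s hEig hb hi (Or.inl (Or.inr h4)),
      GG_zero s hEig hb hi (Or.inr (Or.inr h4)), neg_zero]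
  by_cases h3 : w j i' = 0
  · have h4 : some (w j i') = some 0 := by rw [h3]
    rw [hu, hu', GG_zero s hEig hb hi (Or.inl (Or.inr h4)),
      GG_zero s hEig hb hi (Or.inr (Or.inr h4)), neg_zero]
  by_cases hB : sv (F.E i) (F.B i) (Sum.inr (s j) : Bp k L k) = 0
  · rw [hu, hu', case1 hE hEig hb h hi hdE hdB hdC hdM hB h2 hon,
      case1 hE hEig hb h hi hdE hdB hdC hdM hB h3 hon', neg_zero]
  · rw [hu, hu', eq_neg_iff_add_eq_zero, add_comm]
    exact case2 hE hEig hb h hi hdE hdB hdC hdM hdb hB hC hA h2 h3 hon

end Pool.Agent.HGP
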