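import Pool.Agent.HGP.Sam
import Pool.Agent.HGP.Trp

/-!
# Package HGP-Blk: permutations of the components and of the coordinates

A permutation `h` of the coordinates which maps components to components (by `g`) and preserves the
data and the exponents multiplies `E` by `sign h * sign g`.

Proof. (a) `g = 1`: `h` maps every component to itself. Induction over the number of the points
which are not fixed: if `h q ≠ q` then `h q` is in the same component with the same data and
exponents, and `swap q (h q) * h` fixes `q` and all fixed points of `h`; `transp` (`HGP/Trp.lean`) is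
used for the function `v ↦ E s (upc r v u)` (`isCFs_rst`, `isEigs_rst`, `N = 1`).
(b) `g ≠ 1`: induction over the number of the components which are not fixed: if `g r ≠ r` let `h₁` be
the involution which exchanges `⟨r, i⟩` and `h ⟨r, i⟩` (a bijection of the component `r` with the
component `g r`) and fixes the coordinates of the other components; it satisfies the assumptions of
`swap_cmp` for `r1 = r`, `r2 = g r`. It is the product of the `m r` disjoint transpositions of `⟨r, i⟩`
and `h ⟨r, i⟩`, so its sign is `(-1) ^ (m r)`; the sign of `swap r (g r)` is `-1`. The product `h₁ * h`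
satisfies `IsSym` with `swap r (g r) * g`, which fixes `r`.
-/

set_option autoImplicit false
set_option linter.unusedSectionVars false

noncomputable section

namespace Pool.Agent.HGP

open Finset Pool.Agent.ZCyc Pool.Agent.Dess Pool.Agent.GT Pool.Agent.TInc Pool.Agent.HGF
open scoped Classical

variable {k : Type} [Field k] {L : Type} [Field L] [Algebra k L] {κ : Type} [Fintype κ]
  {m : κ → ℕ}

private theorem isSym_mul {F : ∀ r, Fam k L (m r)} {b : Ix m → ℕ} {h h' : Equiv.Perm (Ix m)}
    {g g' : Equiv.Perm κ} (hs : IsSym F b h g) (hs' : IsSym F b h' g') :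
    IsSym F b (h * h') (g * g') where
  fst q := by
    rw [Equiv.Perm.mul_apply, hs.fst, hs'.fst, Equiv.Perm.mul_apply]
  E q := (hs.E (h' q)).trans (hs'.E q)
  B q := (hs.B (h' q)).trans (hs'.B q)
  C q := (hs.C (h' q)).trans (hs'.C q)
  M q := (hs.M (h' q)).trans (hs'.M q)
  A r := (hs.A (g' r)).trans (hs'.A r)
  b q := (hs.b (h' q)).trans (hs'.b q)

/-- the assertion of the package for one permutation and all points -/
private def Asn (F : ∀ r, Fam k L (m r)) {W : Type} [AddCommGroup W]
    (E : (Fin 1 → Place k L) → (Fin 1 → Ix m → Option k) → W) (s : Fin 1 → Place k L)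
    (h : Equiv.Perm (Ix m)) (g : Equiv.Perm κ) : Prop :=
  ∀ u : Fin 1 → Ix m → Option k, (∀ j, OnX F (Sum.inr (s j) : Bp k L k) (u j)) →
    E s (fun j q => u j (h q)) = ((Equiv.Perm.sign h : ℤ) * (Equiv.Perm.sign g : ℤ)) • E s u

private theorem asn_mul {F : ∀ r, Fam k L (m r)} {W : Type} [AddCommGroup W]
    {E : (Fin 1 → Place k L) → (Fin 1 → Ix m → Option k) → W} {s : Fin 1 → Place k L}
    {b : Ix m → ℕ} {h h' : Equiv.Perm (Ix m)} {g g' : Equiv.Perm κ} (hs : IsSym F b h g)
    (hA : Asn F E s h g) (hA' : Asn F E s h' g') : Asn F E s (h * h') (g * g') := by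
  intro u hu
  have h1 := hA u hu
  have h2 := hA' (fun j q => u j (h q)) fun j => hs.onX (hu j)
  rw [h1, smul_smul] at h2
  refine Eq.trans h2 ?_
  rw [Equiv.Perm.sign_mul, Equiv.Perm.sign_mul]
  congr 1
  push_cast
  ring

private theorem asn_one {F : ∀ r, Fam k L (m r)} {W : Type} [AddCommGroup W]
    {E : (Fin 1 → Place k L) → (Fin 1 → Ix m → Option k) → W} {s : Fin 1 → Place k L} :
    Asn F E s 1 1 := by
  intro u hu
  simp

/-! ### Permutations of the coordinates of one component -/

/-- one transposition of equal coordinates of the same component -/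
private theorem asn_swap [IsAlgClosed k] [CharZero k] [hL : Fact (IsCurve k L)] {W : Type}
    [AddCommGroup W] [Module k W] {F : ∀ r, Fam k L (m r)} (hF : ∀ r, (F r).Adm)
    {b : Ix m → ℕ} (hb : ∀ q, 0 < b q ∧ b q < MX F q)
    {E : (Fin 1 → Place k L) → (Fin 1 → Ix m → Option k) → W} (hE : IsCF F E)
    (hEig : IsEig (MX F) b E) {s : Fin 1 → Place k L} {r : κ} {i i' : Fin (m r)} (hi : i ≠ i')
    (hdE : (F r).E i = (F r).E i') (hdB : (F r).B i = (F r).B i') (hdC : (F r).C i = (F r).C i')
    (hdM : (F r).M i = (F r).M i') (hdb : b ⟨r, i⟩ = b ⟨r, i'⟩) :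
    Asn F E s (Equiv.swap ⟨r, i⟩ ⟨r, i'⟩) 1 := by
  intro u hu
  have key := transp (F := F r) (s := s) (E := fun v => E s (upc r v u)) (hF r)
    (fun i => hb ⟨r, i⟩) (isCFs_rst hE r s u fun r' _ j => hu j r') (isEigs_rst hEig r s u)
    (u := fun j => cmp (u j) r) (fun j => hu j r) (j := 0) hi hdE hdB hdC hdM hdb
  have e1 : upc r (fun j => cmp (u j) r) u = u := by
    funext j q
    by_cases h : q.1 = r
    · obtain ⟨r', l⟩ := q
      have h' : r' = r := h
      subst h'
      rw [upc_self]
    · rw [upc_of_ne _ _ _ h]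
  have e2 : upc r (Function.update (fun j => cmp (u j) r) 0 fun l =>
      cmp (u 0) r (Equiv.swap i i' l)) u =
      fun j q => u j (Equiv.swap (⟨r, i⟩ : Ix m) ⟨r, i'⟩ q) := by
    funext j q
    have hj : j = 0 := Subsingleton.elim _ _
    subst hj
    by_cases h : q.1 = r
    · obtain ⟨r', l⟩ := q
      have h' : r' = r := h
      subst h'
      rw [upc_self, Function.update_self]
      have e3 : Equiv.swap (⟨r', i⟩ : Ix m) ⟨r', i'⟩ ⟨r', l⟩ = ⟨r', Equiv.swap i i' l⟩ := by
        by_cases hl : l = i
        · subst hl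
          rw [Equiv.swap_apply_left, Equiv.swap_apply_left]
        · by_cases hl' : l = i'
          · subst hl'
            rw [Equiv.swap_apply_right, Equiv.swap_apply_right]
          · rw [Equiv.swap_apply_of_ne_of_ne hl hl', Equiv.swap_apply_of_ne_of_ne]
            · intro h2
              exact hl (by simpa using h2)
            · intro h2
              exact hl' (by simpa using h2)
      rw [e3]
    · rw [upc_of_ne _ _ _ h, Equiv.swap_apply_of_ne_of_ne]
      · intro h2
        exact h (by rw [h2])
      · intro h2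
        exact h (by rw [h2])
  have key' : E s (upc r (Function.update (fun j => cmp (u j) r) 0 fun l =>
      cmp (u 0) r (Equiv.swap i i' l)) u) = - E s (upc r (fun j => cmp (u j) r) u) := key
  rw [e1, e2] at key'
  rw [key', Equiv.Perm.sign_swap]
  · simp
  · intro h2
    exact hi (by simpa using h2)

private theorem asn_fix [IsAlgClosed k] [CharZero k] [hL : Fact (IsCurve k L)] {W : Type}
    [AddCommGroup W] [Module k W] {F : ∀ r, Fam k L (m r)} (hF : ∀ r, (F r).Adm)
    {b : Ix m → ℕ} (hb : ∀ q, 0 < b q ∧ b q < MX F q)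
    {E : (Fin 1 → Place k L) → (Fin 1 → Ix m → Option k) → W} (hE : IsCF F E)
    (hEig : IsEig (MX F) b E) {s : Fin 1 → Place k L} : ∀ (n : ℕ) {h : Equiv.Perm (Ix m)},
      h.support.card = n → IsSym F b h 1 → Asn F E s h 1 := by
  intro n
  induction n using Nat.strong_induction_on with
  | _ n ih =>
    intro h hn hs
    by_cases h1 : ∃ q, h q ≠ q
    swap
    · push Not at h1
      have e1 : h = 1 := Equiv.ext h1
      rw [e1]
      exact asn_one
    obtain ⟨q, hq⟩ := h1
    have h2 : (h q).1 = q.1 := by
      have := hs.fst q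
      simpa using this
    have h3 : ∃ i', h q = ⟨q.1, i'⟩ := by
      refine ⟨h2 ▸ (h q).2, ?_⟩
      generalize h q = p at h2
      obtain ⟨a, b⟩ := p
      have h2' : a = q.1 := h2
      subst h2'
      rfl
    obtain ⟨i', h3⟩ := h3
    have h4 : q = ⟨q.1, q.2⟩ := rfl
    have hi : q.2 ≠ i' := by
      intro h5
      exact hq (by rw [h3, ← h5])
    have hsE := hs.E q
    have hsB := hs.B q
    have hsC := hs.C q
    have hsM := hs.M q
    have hsb := hs.b q
    unfold MX at hsM
    rw [h3] at hsE hsB hsC hsM hsb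
    have hA1 : Asn F E s (Equiv.swap q (h q)) 1 := by
      rw [h3]
      exact asn_swap hF hb hE hEig hi hsE.symm hsB.symm hsC.symm hsM.symm hsb.symm
    have hS1 : IsSym F b (Equiv.swap q (h q)) 1 := by
      have aux : ∀ (P : Ix m → Prop), P q → P (h q) → (∀ p, p ≠ q → p ≠ h q → P p) → ∀ p, P p := by
        intro P hP1 hP2 hP3 p
        by_cases hp : p = q
        · rw [hp]
          exact hP1
        · by_cases hp' : p = h q
          · rw [hp']
            exact hP2
          · exact hP3 p hp hp'
      refine ⟨?_, ?_, ?_, ?_, ?_, fun _ => rfl, ?_⟩ <;> refine aux _ ?_ ?_ ?_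
      · rw [Equiv.swap_apply_left]
        exact hs.fst q
      · rw [Equiv.swap_apply_right]
        exact h2.symm
      · intro p hp hp'
        rw [Equiv.swap_apply_of_ne_of_ne hp hp']
        rfl
      · rw [Equiv.swap_apply_left]
        exact hs.E q
      · rw [Equiv.swap_apply_right]
        exact (hs.E q).symm
      · intro p hp hp'
        rw [Equiv.swap_apply_of_ne_of_ne hp hp']
      · rw [Equiv.swap_apply_left]
        exact hs.B q
      · rw [Equiv.swap_apply_right]
        exact (hs.B q).symm
      · intro p hp hp'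
        rw [Equiv.swap_apply_of_ne_of_ne hp hp']
      · rw [Equiv.swap_apply_left]
        exact hs.C q
      · rw [Equiv.swap_apply_right]
        exact (hs.C q).symm
      · intro p hp hp'
        rw [Equiv.swap_apply_of_ne_of_ne hp hp']
      · rw [Equiv.swap_apply_left]
        exact hs.M q
      · rw [Equiv.swap_apply_right]
        exact (hs.M q).symm
      · intro p hp hp'
        rw [Equiv.swap_apply_of_ne_of_ne hp hp']
      · rw [Equiv.swap_apply_left]
        exact hs.b q
      · rw [Equiv.swap_apply_right]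
        exact (hs.b q).symm
      · intro p hp hp'
        rw [Equiv.swap_apply_of_ne_of_ne hp hp']
    have hS2 : IsSym F b (Equiv.swap q (h q) * h) 1 := by
      have := isSym_mul hS1 hs
      rwa [one_mul] at this
    have hlt : (Equiv.swap q (h q) * h).support.card < n := by
      rw [← hn]
      exact Equiv.Perm.card_support_swap_mul hq
    have hA2 := ih _ hlt rfl hS2
    have hA3 := asn_mul hS1 hA1 hA2
    rw [← mul_assoc, Equiv.swap_mul_self, one_mul, one_mul] at hA3
    exact hA3

/-! ### Permutations of the components -/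

/-- the product of the transpositions of `⟨r, i⟩` and `h ⟨r, i⟩` -/
private def pr (h : Equiv.Perm (Ix m)) (r : κ) (l : List (Fin (m r))) : Equiv.Perm (Ix m) :=
  (l.map fun i => Equiv.swap (⟨r, i⟩ : Ix m) (h ⟨r, i⟩)).prod

private theorem pr_cons (h : Equiv.Perm (Ix m)) (r : κ) (a : Fin (m r)) (l : List (Fin (m r))) :
    pr h r (a :: l) = Equiv.swap (⟨r, a⟩ : Ix m) (h ⟨r, a⟩) * pr h r l := by
  unfold pr
  rw [List.map_cons, List.prod_cons]

private theorem pr_spec {h : Equiv.Perm (Ix m)} {r : κ} (hr : ∀ i : Fin (m r), (h ⟨r, i⟩).1 ≠ r)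
    (l : List (Fin (m r))) (hl : l.Nodup) :
    (∀ i ∈ l, pr h r l ⟨r, i⟩ = h ⟨r, i⟩) ∧ (∀ i ∈ l, pr h r l (h ⟨r, i⟩) = ⟨r, i⟩) ∧
      ∀ q : Ix m, (∀ i ∈ l, q ≠ ⟨r, i⟩ ∧ q ≠ h ⟨r, i⟩) → pr h r l q = q := by
  induction l with
  | nil =>
    refine ⟨fun i hi => ?_, fun i hi => ?_, fun q _ => rfl⟩
    · simp at hi
    · simp at hi
  | cons a l ih =>
    rw [List.nodup_cons] at hl
    obtain ⟨ha, hl⟩ := hl
    obtain ⟨h1, h2, h3⟩ := ih hl
    have hne : ∀ i : Fin (m r), i ≠ a → (⟨r, i⟩ : Ix m) ≠ ⟨r, a⟩ := by
      intro i hi h4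
      exact hi (by simpa using h4)
    have hne' : ∀ i j : Fin (m r), h ⟨r, i⟩ ≠ (⟨r, j⟩ : Ix m) := by
      intro i j h4
      exact hr i (by rw [h4])
    have hfix : ∀ i ∈ l, i ≠ a := by
      intro i hi h4
      rw [h4] at hi
      exact ha hi
    refine ⟨fun i hi => ?_, fun i hi => ?_, fun q hq => ?_⟩
    · rw [pr_cons, Equiv.Perm.mul_apply]
      rcases List.mem_cons.1 hi with h4 | h4
      · subst h4
        rw [h3, Equiv.swap_apply_left]
        intro j hj
        exact ⟨fun h5 => hne j (hfix j hj) h5.symm, fun h5 => hne' j i h5.symm⟩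
      · rw [h1 i h4, Equiv.swap_apply_of_ne_of_ne (hne' i a)]
        intro h5
        exact hne i (hfix i h4) (h.injective h5)
    · rw [pr_cons, Equiv.Perm.mul_apply]
      rcases List.mem_cons.1 hi with h4 | h4
      · subst h4
        rw [h3, Equiv.swap_apply_right]
        intro j hj
        exact ⟨hne' i j, fun h5 => hne j (hfix j hj) (h.injective h5).symm⟩
      · rw [h2 i h4, Equiv.swap_apply_of_ne_of_ne (hne i (hfix i h4)) fun h5 => hne' a i h5.symm]
    · rw [pr_cons, Equiv.Perm.mul_apply, h3 q fun i hi => hq i (List.mem_cons_of_mem _ hi),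
        Equiv.swap_apply_of_ne_of_ne (hq a List.mem_cons_self).1 (hq a List.mem_cons_self).2]

private theorem pr_sign {h : Equiv.Perm (Ix m)} {r : κ} (hr : ∀ i : Fin (m r), (h ⟨r, i⟩).1 ≠ r)
    (l : List (Fin (m r))) : Equiv.Perm.sign (pr h r l) = (-1) ^ l.length := by
  induction l with
  | nil =>
    unfold pr
    simp
  | cons a l ih =>
    rw [pr_cons, Equiv.Perm.sign_mul, ih, Equiv.Perm.sign_swap, List.length_cons, pow_succ,
      mul_comm]
    intro h4
    exact hr a (by rw [← h4])

/-- **Permutations of the components and of the coordinates.** -/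
theorem blk [IsAlgClosed k] [CharZero k] [hL : Fact (IsCurve k L)] {W : Type}
    [AddCommGroup W] [Module k W] {F : ∀ r, Fam k L (m r)} (hF : ∀ r, (F r).Adm)
    {b : Ix m → ℕ} (hb : ∀ q, 0 < b q ∧ b q < MX F q)
    {E : (Fin 1 → Place k L) → (Fin 1 → Ix m → Option k) → W} (hE : IsCF F E)
    (hEig : IsEig (MX F) b E) {h : Equiv.Perm (Ix m)} {g : Equiv.Perm κ} (hs : IsSym F b h g)
    {s : Fin 1 → Place k L} {u : Fin 1 → Ix m → Option k}
    (hu : ∀ j, OnX F (Sum.inr (s j) : Bp k L k) (u j)) :
    E s (fun j q => u j (h q)) =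
      ((Equiv.Perm.sign h : ℤ) * (Equiv.Perm.sign g : ℤ)) • E s u := by
  suffices hmain : ∀ (n : ℕ) {h : Equiv.Perm (Ix m)} {g : Equiv.Perm κ},
      g.support.card = n → IsSym F b h g → Asn F E s h g from hmain _ rfl hs u hu
  clear hu u hs
  clear h g
  intro n
  induction n using Nat.strong_induction_on with
  | _ n ih =>
    intro h g hn hs
    by_cases h1 : ∃ r, g r ≠ r
    swap
    · push Not at h1
      have e1 : g = 1 := Equiv.ext h1
      subst e1
      exact asn_fix hF hb hE hEig _ rfl hs
    obtain ⟨r, hr⟩ := h1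
    have hr' : ∀ i : Fin (m r), (h ⟨r, i⟩).1 ≠ r := by
      intro i
      rw [hs.fst]
      exact hr
    obtain ⟨p1, p2, p3⟩ := pr_spec hr' (List.finRange (m r)) (List.nodup_finRange _)
    have psgn := pr_sign hr' (List.finRange (m r))
    rw [List.length_finRange] at psgn
    generalize pr h r (List.finRange (m r)) = h₁ at p1 p2 p3 psgn
    -- the cases
    have cases' : ∀ q : Ix m, (∃ i, q = ⟨r, i⟩) ∨ (∃ i : Fin (m r), q = h ⟨r, i⟩) ∨
        (q.1 ≠ r ∧ q.1 ≠ g r) := by
      intro q
      by_cases hq : q.1 = r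
      · left
        obtain ⟨a, c⟩ := q
        have hq' : a = r := hq
        subst hq'
        exact ⟨c, rfl⟩
      · by_cases hq' : q.1 = g r
        · right; left
          have h5 : (h.symm q).1 = r := by
            apply g.injective
            rw [← hs.fst, Equiv.apply_symm_apply, hq']
          have h6 : q = h (h.symm q) := (Equiv.apply_symm_apply _ _).symm
          generalize h.symm q = p at h5 h6
          obtain ⟨a, c⟩ := p
          have h5' : a = r := h5
          subst h5'
          exact ⟨c, h6⟩
        · exact Or.inr (Or.inr ⟨hq, hq'⟩)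
    have q1 : ∀ i : Fin (m r), h₁ ⟨r, i⟩ = h ⟨r, i⟩ := fun i => p1 i (List.mem_finRange i)
    have q2 : ∀ i : Fin (m r), h₁ (h ⟨r, i⟩) = ⟨r, i⟩ := fun i => p2 i (List.mem_finRange i)
    have q3 : ∀ q : Ix m, q.1 ≠ r → q.1 ≠ g r → h₁ q = q := by
      intro q hq hq'
      refine p3 q fun i _ => ⟨fun h5 => hq (by rw [h5]), fun h5 => hq' ?_⟩
      rw [h5, hs.fst]
    clear p1 p2 p3
    have hinv : ∀ q, h₁ (h₁ q) = q := by
      intro q
      rcases cases' q with ⟨i, hq⟩ | ⟨i, hq⟩ | ⟨hq, hq'⟩
      · rw [hq, q1, q2]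
      · rw [hq, q2, q1]
      · rw [q3 q hq hq', q3 q hq hq']
    have hS1 : IsSym F b h₁ (Equiv.swap r (g r)) := by
      have aux : ∀ (P : Ix m → Prop), (∀ i, P ⟨r, i⟩) → (∀ i : Fin (m r), P (h ⟨r, i⟩)) →
          (∀ p : Ix m, p.1 ≠ r → p.1 ≠ g r → P p) → ∀ p, P p := by
        intro P hP1 hP2 hP3 p
        rcases cases' p with ⟨i, hp⟩ | ⟨i, hp⟩ | ⟨hp, hp'⟩
        · rw [hp]
          exact hP1 i
        · rw [hp]
          exact hP2 i
        · exact hP3 p hp hp'
      refine ⟨?_, ?_, ?_, ?_, ?_, ?_, ?_⟩
      · refine aux _ ?_ ?_ ?_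
        · intro i
          rw [q1, hs.fst]
          exact (Equiv.swap_apply_left _ _).symm
        · intro i
          rw [q2, hs.fst, Equiv.swap_apply_right]
        · intro p hp hp'
          rw [q3 p hp hp', Equiv.swap_apply_of_ne_of_ne hp hp']
      · refine aux _ ?_ ?_ ?_
        · intro i
          rw [q1]
          exact hs.E _
        · intro i
          rw [q2]
          exact (hs.E _).symm
        · intro p hp hp'
          rw [q3 p hp hp']
      · refine aux _ ?_ ?_ ?_
        · intro i
          rw [q1]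
          exact hs.B _
        · intro i
          rw [q2]
          exact (hs.B _).symm
        · intro p hp hp'
          rw [q3 p hp hp']
      · refine aux _ ?_ ?_ ?_
        · intro i
          rw [q1]
          exact hs.C _
        · intro i
          rw [q2]
          exact (hs.C _).symm
        · intro p hp hp'
          rw [q3 p hp hp']
      · refine aux _ ?_ ?_ ?_
        · intro i
          rw [q1]
          exact hs.M _
        · intro i
          rw [q2]
          exact (hs.M _).symm
        · intro p hp hp'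
          rw [q3 p hp hp']
      · intro a
        by_cases ha : a = r
        · subst ha
          rw [Equiv.swap_apply_left]
          exact hs.A a
        · by_cases ha' : a = g r
          · rw [ha', Equiv.swap_apply_right]
            exact (hs.A r).symm
          · rw [Equiv.swap_apply_of_ne_of_ne ha ha']
      · refine aux _ ?_ ?_ ?_
        · intro i
          rw [q1]
          exact hs.b _
        · intro i
          rw [q2]
          exact (hs.b _).symm
        · intro p hp hp'
          rw [q3 p hp hp']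
    have hA1 : Asn F E s h₁ (Equiv.swap r (g r)) := by
      intro u hu
      rw [swap_cmp hF hb hE hEig (Ne.symm hr) hS1 hinv q3 hu, psgn,
        Equiv.Perm.sign_swap (Ne.symm hr), pow_succ]
      congr 1
    have hS2 : IsSym F b (h₁ * h) (Equiv.swap r (g r) * g) := isSym_mul hS1 hs
    have hlt : (Equiv.swap r (g r) * g).support.card < n := by
      rw [← hn]
      exact Equiv.Perm.card_support_swap_mul hr
    have hA2 := ih _ hlt rfl hS2
    have hA3 := asn_mul hS1 hA1 hA2
    have e1 : h₁ * (h₁ * h) = h := by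
      rw [← mul_assoc]
      have : h₁ * h₁ = 1 := Equiv.ext hinv
      rw [this, one_mul]
    rw [e1, ← mul_assoc, Equiv.swap_mul_self, one_mul] at hA3
    exact hA3

end Pool.Agent.HGP
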