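import Pool.Agent.HGP.Eig
import Pool.Agent.HGF.StA

/-!
# States: the rows of the interior points

`row F hm s w` is the periodic sequence of the coordinates `x_i` of the point `(s, w)`. Conversely the
point is determined by `s` and the row, up to the choice of `M_i`-th roots; the products of the
coordinates `w_i` of several points can be prescribed (`exists_ws1`).
-/

set_option autoImplicit false
set_option linter.unusedSectionVars false

noncomputable section

namespace Pool.Agent.HGP

open Finset Pool.Agent.ZCyc Pool.Agent.Dess Pool.Agent.TInc Pool.Agent.HGF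

variable {k : Type} [Field k] [IsAlgClosed k] [CharZero k] {L : Type} [Field L] [Algebra k L]
  [hL : Fact (IsCurve k L)] {m N : ℕ} {F : Fam k L m} {K : Type} [Field K] [Algebra k K]

/-- the sequence of the coordinates `x_i` of the point `(s, w)` -/
def row (F : Fam k L m) (hm : 0 < m) (s : Bp k L K) (w : Fin m → K) : ℕ → K := per (xx F s w) hm

lemma Int.un (hF : F.Adm) {s : Bp k L K} {w : Fin m → K} (h : Int F s w) : Un F s :=
  h.base.un hL.out hF

lemma xx_eq {s : Bp k L K} {w : Fin m → K} (hB : ∀ i, ev (F.B i) s ≠ 0) (i : Fin m) :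
    xx F s w i = (ev (F.B i) s - ev (F.C i) s * w i ^ F.M i) / ev (F.B i) s := by
  unfold xx
  rw [sub_div, div_self (hB i)]

lemma one_sub_xx (s : Bp k L K) (w : Fin m → K) (i : Fin m) :
    1 - xx F s w i = ev (F.C i) s * w i ^ F.M i / ev (F.B i) s := by
  unfold xx
  ring

/-- the `M_i`-th power of `w_i` -/
lemma pow_eq {s : Bp k L K} {w : Fin m → K} (h : Un F s) (i : Fin m) :
    w i ^ F.M i = ev (F.B i) s / ev (F.C i) s * (1 - xx F s w i) := by
  rw [one_sub_xx]
  have h1 := h.B i
  have h2 := h.C i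
  field_simp

lemma Int.good (hF : F.Adm) {s : Bp k L K} {w : Fin m → K} (hm : 0 < m) (h : Int F s w) :
    Good m (row F hm s w) where
  per := per_per _ hm
  ne0 := fun i => by
    show xx F s w _ ≠ 0
    rw [xx_eq (h.un hF).B]
    refine div_ne_zero (fun h1 => (h.un hF).A ?_) ((h.un hF).B _)
    rw [← h.onY]
    exact prod_eq_zero (mem_univ _) h1
  ne1 := fun i => by
    show xx F s w _ ≠ 1
    intro h1
    have h2 := one_sub_xx (F := F) s w ⟨i % m, Nat.mod_lt i hm⟩
    rw [h1, sub_self] at h2
    exact div_ne_zero (mul_ne_zero ((h.un hF).C _) (pow_ne_zero _ (h.w _))) ((h.un hF).B _)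
      h2.symm

lemma Int.mu (hF : F.Adm) {s : Bp k L K} {w : Fin m → K} (hm : 0 < m) (h : Int F s w) :
    mu m (row F hm s w) = lam F s := by
  unfold row lam
  rw [mu_per, ← h.onY, ← prod_div_distrib]
  exact prod_congr rfl fun i _ => xx_eq (h.un hF).B i

/-- a point is interior if its row is good and has the right multiplier -/
lemma int_of_row (hF : F.Adm) {s : Bp k L K} {w : Fin m → K} (hm : 0 < m) (hb : Base F s)
    (hg : Good m (row F hm s w)) (hmu : HGF.mu m (row F hm s w) = lam F s) : Int F s w where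
  onY := by
    have hs := hb.un hL.out hF
    unfold row lam at hmu
    rw [mu_per, eq_div_iff (prod_ne_zero_iff.2 fun i _ => hs.B i), ← prod_mul_distrib] at hmu
    rw [← hmu]
    refine prod_congr rfl fun i _ => ?_
    rw [xx_eq hs.B, div_mul_cancel₀ _ (hs.B i)]
  base := hb
  w := fun i hi => by
    have h1 := hg.ne1 i
    apply h1
    show per (xx F s w) hm i = 1
    rw [per_fin]
    unfold xx
    rw [hi, zero_pow (hF.M0 i).ne', mul_zero, zero_div, sub_zero]

lemma row_of_pow {s : Bp k L K} {w : Fin m → K} (hm : 0 < m) (hs : Un F s) {X : ℕ → K}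
    (hX : Per m X)
    (h : ∀ i : Fin m, w i ^ F.M i = ev (F.B i) s / ev (F.C i) s * (1 - X i)) :
    row F hm s w = X := by
  refine per_ext hm (per_per _ hm) hX fun i => ?_
  show per (xx F s w) hm i = X i
  rw [per_fin]
  unfold xx
  rw [h i]
  have h1 := hs.B i
  have h2 := hs.C i
  field_simp
  ring

lemma pow_of_row {s : Bp k L K} {w : Fin m → K} (hm : 0 < m) (hs : Un F s) {X : ℕ → K}
    (h : row F hm s w = X) (i : Fin m) :
    w i ^ F.M i = ev (F.B i) s / ev (F.C i) s * (1 - X i) := by
  rw [pow_eq hs, ← h]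
  show _ = _ * (1 - per (xx F s w) hm i)
  rw [per_fin]

/-- The points `(s_j, w_j)` are interior, their rows are `X j` and the products of the coordinates
are `p`. -/
structure IsSt1 (F : Fam k L m) (hm : 0 < m) (s : Fin N → Bp k L K) (X : Fin N → ℕ → K)
    (p : Fin m → K) (w : Fin N → Fin m → K) : Prop where
  int : ∀ j, Int F (s j) (w j)
  row : ∀ j, row F hm (s j) (w j) = X j
  prod : ∀ i, ∏ j, w j i = p i

/-- the condition for the product of the coordinates -/
def PCond (F : Fam k L m) (s : Fin N → Bp k L K) (X : Fin N → ℕ → K) (p : Fin m → K) : Prop :=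
  ∀ i : Fin m, p i ^ F.M i =
    (∏ j, (ev (F.B i) (s j) / ev (F.C i) (s j))) * ∏ j, (1 - X j i)

lemma IsSt1.pcond (hF : F.Adm) {hm : 0 < m} {s : Fin N → Bp k L K} {X : Fin N → ℕ → K} {p : Fin m → K}
    {w : Fin N → Fin m → K} (h : IsSt1 F hm s X p w) : PCond F s X p := by
  intro i
  rw [← h.prod, ← prod_pow, ← prod_mul_distrib]
  exact prod_congr rfl fun j _ => pow_of_row hm ((h.int j).un hF) (h.row j) i

/-- points with given rows and products -/
theorem exists_ws1 [IsAlgClosed K] (hF : F.Adm) (hm : 0 < m) (hN : 0 < N)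
    {s : Fin N → Bp k L K} (hb : ∀ j, Base F (s j)) {X : Fin N → ℕ → K} (hX : ∀ j, Good m (X j))
    (hmu : ∀ j, mu m (X j) = lam F (s j)) {p : Fin m → K} (hp : PCond F s X p) :
    ∃ w, IsSt1 F hm s X p w := by
  have hs := fun j => (hb j).un hL.out hF
  have h0 : ∀ (j : Fin N) (i : Fin m), ∃ r : K,
      r ^ F.M i = ev (F.B i) (s j) / ev (F.C i) (s j) * (1 - X j i) := fun j i =>
    IsAlgClosed.exists_pow_nat_eq _ (hF.M0 i)
  choose r hr using h0
  have hr0 : ∀ j i, r j i ≠ 0 := by
    intro j i h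
    have h1 := hr j i
    rw [h, zero_pow (hF.M0 i).ne'] at h1
    exact mul_ne_zero (div_ne_zero ((hs j).B i) ((hs j).C i))
      (sub_ne_zero.2 ((hX j).ne1 i).symm) h1.symm
  set j0 : Fin N := ⟨0, hN⟩ with hj0
  set P : Fin m → K := fun i => ∏ j, r j i with hP
  have hP0 : ∀ i, P i ≠ 0 := fun i => prod_ne_zero_iff.2 fun j _ => hr0 j i
  have hPM : ∀ i, P i ^ F.M i = p i ^ F.M i := by
    intro i
    rw [hp i, hP, ← prod_pow, ← prod_mul_distrib]
    exact prod_congr rfl fun j _ => hr j i
  set w : Fin N → Fin m → K := fun j i => if j = j0 then r j i * (p i / P i) else r j i with hw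
  have hwM : ∀ j i, w j i ^ F.M i =
      ev (F.B i) (s j) / ev (F.C i) (s j) * (1 - X j i) := by
    intro j i
    rw [← hr j i, hw]
    show (if j = j0 then r j i * (p i / P i) else r j i) ^ F.M i = r j i ^ F.M i
    split_ifs with h
    · rw [mul_pow, div_pow, hPM, div_self, mul_one]
      rw [← hPM]
      exact pow_ne_zero _ (hP0 i)
    · rfl
  have hrow : ∀ j, row F hm (s j) (w j) = X j := fun j =>
    row_of_pow hm (hs j) (hX j).per (hwM j)
  refine ⟨w, fun j => ?_, hrow, fun i => ?_⟩
  · refine int_of_row hF hm (hb j) ?_ ?_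
    · rw [hrow j]
      exact hX j
    · rw [hrow j, hmu j]
  · have h1 : ∀ j, w j i = r j i * (if j = j0 then p i / P i else 1) := by
      intro j
      show (if j = j0 then r j i * (p i / P i) else r j i) = _
      split_ifs <;> simp
    rw [prod_congr rfl fun j _ => h1 j, prod_mul_distrib, prod_ite_eq' univ j0,
      if_pos (mem_univ _)]
    exact mul_div_cancel₀ _ (hP0 i)

/-- the condition for the product is the same for all factorisations -/
lemma PCond.perm {s : Fin N → Bp k L K} {X Y : Fin N → ℕ → K} {p : Fin m → K} (hp : PCond F s X p)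
    (σ : Equiv.Perm (Fin N)) (h : opr Y = opr X) : PCond F (fun j => s (σ j)) Y p := by
  intro i
  rw [hp i, prod_one_sub h]
  congr 1
  exact (Equiv.prod_comp σ fun j => ev (F.B i) (s j) / ev (F.C i) (s j)).symm

/-! ### States of the fibre product -/

section multi

variable {κ : Type} {m : κ → ℕ} {F : ∀ r, Fam k L (m r)}

/-- the points of the curve over `k` -/
abbrev cb (s : Fin N → Place k L) : Fin N → Bp k L k := fun j => Sum.inr (s j)

/-- The points `(s_j, w_j)` of the fibre product are interior, the rows of the component `r` are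
`X r j` and the products of the coordinates are `p`. -/
def IsSt (F : ∀ r, Fam k L (m r)) (hm : ∀ r, 0 < m r) (s : Fin N → Bp k L K)
    (X : ∀ _ : κ, Fin N → ℕ → K) (p : Ix m → K) (w : Fin N → Ix m → K) : Prop :=
  ∀ r, IsSt1 (F r) (hm r) s (X r) (cmp p r) fun j => cmp (w j) r

omit hL in
lemma IsSt.int {hm : ∀ r, 0 < m r} {s : Fin N → Bp k L K} {X : ∀ _ : κ, Fin N → ℕ → K}
    {p : Ix m → K} {w : Fin N → Ix m → K} (h : IsSt F hm s X p w) (r : κ) (j : Fin N) :
    Int (F r) (s j) (cmp (w j) r) := (h r).int j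

omit hL in
lemma IsSt.onX {hm : ∀ r, 0 < m r} {s : Fin N → Bp k L K} {X : ∀ _ : κ, Fin N → ℕ → K}
    {p : Ix m → K} {w : Fin N → Ix m → K} (h : IsSt F hm s X p w) (j : Fin N) :
    OnX F (s j) (fun q => some (w j q)) := fun r => (h.int r j).onY_some

/-- points with given rows and products -/
theorem exists_ws [IsAlgClosed K] (hF : ∀ r, (F r).Adm) (hm : ∀ r, 0 < m r) (hN : 0 < N)
    {s : Fin N → Bp k L K} (hb : ∀ r j, Base (F r) (s j)) {X : ∀ _ : κ, Fin N → ℕ → K}
    (hX : ∀ r j, Good (m r) (X r j)) (hmu : ∀ r j, mu (m r) (X r j) = lam (F r) (s j))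
    {p : Ix m → K} (hp : ∀ r, PCond (F r) s (X r) (cmp p r)) : ∃ w, IsSt F hm s X p w := by
  choose w hw using fun r => exists_ws1 (hF r) (hm r) hN (hb r) (hX r) (hmu r) (hp r)
  exact ⟨fun j q => w q.1 j q.2, fun r => hw r⟩

end multi

end Pool.Agent.HGP
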