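import Pool.Agent.HGF.Mat
import Pool.Agent.ZIso.Krull

/-!
# Package HGP-Krl: the deformations of products of difference operators: the equations

Port of `Pool/Agent/HGFC/Krl.lean` to several components: the unknowns are `z : Fin ρ → k` (the function
`φ` of the pencil), a number `g`, and for every component `r` the coefficients of the polynomials
`τ r j i` in `t`, `1 ≤ j ≤ N`, of degree at most `d r i`. The polynomials `PB r i`, `PC r i`, `PA r l` are
given, with the degrees in `t` at most `d r i`, `d r i` (`d r i - 1` for `(r, i) = q0`), and `∑ i, d r i`. The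
equations are, for every component `r`, `det = PA r l` for `N` values `θ r l` of the multiplier, and the
sum of the row `i` is `κ r i * PC r i`, up to the factor `1 + g t` for `(r, i) = q0`. There are
`ρ + 1 + N D` unknowns and `N D + D` equations, where `D = ∑ r, ∑ i, d r i`, and so there is a nonzero
solution if `D ≤ ρ`. All lemmas of `HGFC/Krl.lean` about one component (`tx`, `EA`, `GA`, their degrees
and their values at zero) can be used for the component `r` with a map of the unknowns; the simplest way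
is to copy the file with the unknowns `Unk` below and the index `r` fixed. (`nv`, `IsNm`, `nv_eval`,
`nv_map`, `nv_deg`, `nv_zero` are unchanged.)
-/

set_option autoImplicit false
set_option linter.unusedSectionVars false

noncomputable section

namespace Pool.Agent.HGP

open Finset Polynomial Pool.Agent.HGF

/-- the unknowns -/
abbrev Unk {κ : Type} (ρ N : ℕ) {m : κ → ℕ} (d : ∀ r, Fin (m r) → ℕ) : Type :=
  Fin ρ ⊕ (Unit ⊕ (Fin N × Σ q : (Σ r, Fin (m r)), Fin (d q.1 q.2)))

/-- the equations -/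
abbrev Eqs {κ : Type} (N : ℕ) {m : κ → ℕ} (d : ∀ r, Fin (m r) → ℕ) : Type :=
  (Σ r, Fin N × Fin (∑ i, d r i)) ⊕ (Σ q : (Σ r, Fin (m r)), Fin (d q.1 q.2))

/-- `P` is a polynomial in `ρ` variables and in `t`, of degree at most `δ` in `t`, which is equal to
`c` if all variables are zero, and if `t = 0`. -/
structure IsNm {k : Type} [Field k] {ρ : ℕ} (P : MvPolynomial (Fin ρ) k[X]) (δ : ℕ) (c : k) :
    Prop where
  deg : ∀ z, (P.coeff z).natDegree ≤ δ
  zero : P.eval 0 = C c
  ev0 : ∀ z : Fin ρ → k, (P.eval fun n => C (z n)).eval 0 = c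

/-- the unknowns of one component -/
abbrev Unk1 (ρ N : ℕ) {m : ℕ} (d : Fin m → ℕ) : Type :=
  Fin ρ ⊕ (Unit ⊕ (Fin N × Σ i : Fin m, Fin (d i)))

section universal

variable {k : Type} [Field k] {S S' : Type} [CommRing S] [Algebra k S] [CommRing S']
  [Algebra k S'] {ρ m N : ℕ}

/-- the polynomial in `t` with the values `x` of the variables -/
def nv (P : MvPolynomial (Fin ρ) k[X]) (x : Fin ρ → S) : S[X] :=
  P.eval₂ (mapRingHom (algebraMap k S)) fun n => C (x n)

lemma nv_eval (P : MvPolynomial (Fin ρ) k[X]) (z : Fin ρ → k) :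
    nv P z = P.eval fun n => C (z n) := by
  unfold nv
  have h : mapRingHom (algebraMap k k) = RingHom.id k[X] := by
    rw [Algebra.algebraMap_self, mapRingHom_id]
  rw [h]
  rfl

lemma nv_map (φ : S →ₐ[k] S') (P : MvPolynomial (Fin ρ) k[X]) (x : Fin ρ → S) :
    (nv P x).map (φ : S →+* S') = nv P fun n => φ (x n) := by
  unfold nv
  rw [← coe_mapRingHom, MvPolynomial.hom_eval₂]
  congr 1
  · ext r
    · simp
    · simp
  · funext n
    simp

lemma nv_deg {P : MvPolynomial (Fin ρ) k[X]} {δ : ℕ} (hP : ∀ z, (P.coeff z).natDegree ≤ δ)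
    (x : Fin ρ → S) : (nv P x).natDegree ≤ δ := by
  unfold nv
  rw [MvPolynomial.eval₂_eq]
  refine natDegree_sum_le_of_forall_le _ _ fun z _ => ?_
  have h1 : ∏ n ∈ z.support, (C (x n) : S[X]) ^ z n = C (∏ n ∈ z.support, x n ^ z n) := by
    rw [map_prod]
    exact prod_congr rfl fun n _ => (C_pow).symm
  rw [h1]
  refine (natDegree_mul_C_le _ _).trans ?_
  rw [coe_mapRingHom]
  exact (natDegree_map_le).trans (hP z)

lemma nv_zero {P : MvPolynomial (Fin ρ) k[X]} {δ : ℕ} {c : k} (hP : IsNm P δ c) :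
    nv P (0 : Fin ρ → S) = C (algebraMap k S c) := by
  have h1 := congrArg (mapRingHom (algebraMap k S)) hP.zero
  rw [coe_mapRingHom, Polynomial.map_C] at h1
  rw [← h1, ← coe_mapRingHom]
  unfold nv
  have h2 : (fun n => C ((0 : Fin ρ → S) n)) = fun n : Fin ρ =>
      mapRingHom (algebraMap k S) ((0 : Fin ρ → k[X]) n) := by
    funext n
    simp
  rw [h2]
  exact (MvPolynomial.hom_eval₂ P (RingHom.id k[X]) (mapRingHom (algebraMap k S)) 0).symm

variable (d : Fin m → ℕ) (i0 : Fin m → Prop) [DecidablePred i0]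
  (PB PC : Fin m → MvPolynomial (Fin ρ) k[X])
  (PA : Fin N → MvPolynomial (Fin ρ) k[X]) (T : ℕ → ℕ → k) (κ : Fin m → k)

/-- the row polynomials, `T j i` are the values at `t = 0` -/
def tx (x : Unk1 ρ N d → S) (j i : ℕ) : S[X] :=
  if hi : i < m then
    if j = 0 then nv (PB ⟨i, hi⟩) fun n => x (Sum.inl n)
    else if hj : j - 1 < N then C (algebraMap k S (T j i)) + ∑ r : Fin (d ⟨i, hi⟩),
      C (x (Sum.inr (Sum.inr (⟨j - 1, hj⟩, ⟨⟨i, hi⟩, r⟩)))) * X ^ ((r : ℕ) + 1)
    else 0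
  else 0

/-- the equation for the determinant at `θ` -/
def EA (x : Unk1 ρ N d → S) (θ : k) (P : MvPolynomial (Fin ρ) k[X]) : S[X] :=
  (dm m N (tx d PB T x) (C (algebraMap k S θ))).det - nv P fun n => x (Sum.inl n)

/-- the equation for the sum of the row -/
def GA (x : Unk1 ρ N d → S) (i : Fin m) : S[X] :=
  ∑ j ∈ range (N + 1), tx d PB T x j i - C (algebraMap k S (κ i)) *
    nv (PC i) (fun n => x (Sum.inl n)) *
    (if i0 i then 1 + C (x (Sum.inr (Sum.inl ()))) * X else 1)

variable (φ : S →ₐ[k] S') (x : Unk1 ρ N d → S)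

private lemma tx_map (j i : ℕ) : (tx d PB T x j i).map (φ : S →+* S') =
    tx d PB T (fun e => φ (x e)) j i := by
  unfold tx
  split_ifs with h1 h2 h3
  · exact nv_map φ _ _
  · simp [Polynomial.map_sum]
  · simp
  · simp

private lemma EA_map (θ : k) (P : MvPolynomial (Fin ρ) k[X]) :
    (EA d PB T x θ P).map (φ : S →+* S') = EA d PB T (fun e => φ (x e)) θ P := by
  unfold EA
  rw [Polynomial.map_sub, nv_map]
  congr 1
  have h := det_dm_map (m := m) (N := N) (mapRingHom (φ : S →+* S')) (tx d PB T x)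
    (C (algebraMap k S θ))
  rw [coe_mapRingHom] at h
  rw [h]
  congr 2
  · funext j i
    exact tx_map d PB T φ x j i
  · simp

private lemma GA_map (i : Fin m) : (GA d i0 PB PC T κ x i).map (φ : S →+* S') =
    GA d i0 PB PC T κ (fun e => φ (x e)) i := by
  unfold GA
  rw [Polynomial.map_sub, Polynomial.map_mul, Polynomial.map_mul, nv_map, Polynomial.map_sum]
  congr 1
  · exact sum_congr rfl fun j _ => tx_map d PB T φ x j i
  · congr 1
    · congr 1
      simp
    · split_ifs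
      · simp
      · simp

/-! ### Degrees -/

private lemma tx_deg {cB : Fin m → k} (hB : ∀ i, IsNm (PB i) (d i) (cB i)) (j : ℕ)
    (i : Fin m) : (tx d PB T x j i).natDegree ≤ d i := by
  unfold tx
  rw [dif_pos i.isLt]
  split_ifs with h2 h3
  · exact nv_deg (hB i).deg _
  · refine (natDegree_add_le _ _).trans (max_le (by rw [natDegree_C]; exact Nat.zero_le _) ?_)
    refine natDegree_sum_le_of_forall_le _ _ fun r _ => ?_
    exact (natDegree_C_mul_X_pow_le _ _).trans r.isLt
  · simp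

private lemma EA_deg {cB : Fin m → k} (hB : ∀ i, IsNm (PB i) (d i) (cB i)) (θ : k)
    {P : MvPolynomial (Fin ρ) k[X]} {c : k} (hP : IsNm P (∑ i, d i) c) :
    (EA d PB T x θ P).natDegree ≤ ∑ i, d i := by
  unfold EA
  refine (natDegree_sub_le _ _).trans (max_le ?_ (nv_deg hP.deg _))
  exact natDegree_det_dm (fun j _ i => tx_deg d PB T x hB j i) _

private lemma GA_deg {cB cC : Fin m → k} (hB : ∀ i, IsNm (PB i) (d i) (cB i))
    (hC : ∀ i, IsNm (PC i) (if i0 i then d i - 1 else d i) (cC i)) (h0 : ∀ i, i0 i → 0 < d i)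
    (i : Fin m) : (GA d i0 PB PC T κ x i).natDegree ≤ d i := by
  unfold GA
  refine (natDegree_sub_le _ _).trans (max_le ?_ ?_)
  · exact natDegree_sum_le_of_forall_le _ _ fun j _ => tx_deg d PB T x hB j i
  · have h1 : (C (algebraMap k S (κ i)) * nv (PC i) fun n => x (Sum.inl n)).natDegree ≤
        if i0 i then d i - 1 else d i := (natDegree_C_mul_le _ _).trans (nv_deg (hC i).deg _)
    split_ifs with hi
    · rw [if_pos hi] at h1
      have h00 := h0 i hi
      refine natDegree_mul_le.trans ?_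
      have h2 : (1 + C (x (Sum.inr (Sum.inl ()))) * X : S[X]).natDegree ≤ 1 := by
        refine (natDegree_add_le _ _).trans (max_le (by rw [natDegree_one]; exact Nat.zero_le _) ?_)
        exact (natDegree_C_mul_le _ _).trans natDegree_X_le
      omega
    · rw [mul_one]
      rw [if_neg hi] at h1
      exact h1

/-! ### The trivial solution -/

private lemma tx_zero {cB : Fin m → k} (hB : ∀ i, IsNm (PB i) (d i) (cB i)) (j i : ℕ) :
    ∃ c : S, tx d PB T (0 : Unk1 ρ N d → S) j i = C c := by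
  unfold tx
  split_ifs with h1 h2 h3
  · exact ⟨_, nv_zero (hB _)⟩
  · exact ⟨algebraMap k S (T j i), by simp⟩
  · exact ⟨0, by simp⟩
  · exact ⟨0, by simp⟩

private lemma EA_zero {cB : Fin m → k} (hB : ∀ i, IsNm (PB i) (d i) (cB i)) (θ : k)
    {P : MvPolynomial (Fin ρ) k[X]} {c' : k} (hP : IsNm P (∑ i, d i) c') :
    ∃ c : S, EA d PB T (0 : Unk1 ρ N d → S) θ P = C c := by
  choose c hc using tx_zero (S := S) d (N := N) PB T hB
  have h1 : tx d PB T (0 : Unk1 ρ N d → S) = fun j i => C (c j i) := by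
    funext j i
    exact hc j i
  have h2 : (nv P fun n => (0 : Unk1 ρ N d → S) (Sum.inl n)) = C (algebraMap k S c') := nv_zero hP
  unfold EA
  rw [h1, ← det_dm_map (C : S →+* S[X]), h2, ← C_sub]
  exact ⟨_, rfl⟩

private lemma GA_zero {cB cC : Fin m → k} (hB : ∀ i, IsNm (PB i) (d i) (cB i))
    (hC : ∀ i, IsNm (PC i) (if i0 i then d i - 1 else d i) (cC i)) (i : Fin m) :
    ∃ c : S, GA d i0 PB PC T κ (0 : Unk1 ρ N d → S) i = C c := by
  choose c hc using tx_zero (S := S) d (N := N) PB T hB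
  have h3 : (nv (PC i) fun n => (0 : Unk1 ρ N d → S) (Sum.inl n)) =
      C (algebraMap k S (cC i)) := nv_zero (hC i)
  unfold GA
  rw [sum_congr rfl fun j _ => hc j i, ← map_sum, h3]
  have h2 : (if i0 i then 1 + C ((0 : Unk1 ρ N d → S) (Sum.inr (Sum.inl ()))) * X else 1 : S[X]) =
      1 := by
    split_ifs
    · simp
    · rfl
  rw [h2, mul_one, ← C_mul, ← C_sub]
  exact ⟨_, rfl⟩

/-- a polynomial with vanishing coefficients -/
private lemma poly_zero {P : S[X]} {n : ℕ} (hd : P.natDegree ≤ n)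
    (hc : ∀ r < n, P.coeff (r + 1) = 0) (h0 : P.eval 0 = 0) : P = 0 := by
  ext r
  rw [coeff_zero]
  rcases Nat.eq_zero_or_pos r with rfl | hr
  · rw [coeff_zero_eq_eval_zero, h0]
  · by_cases hrn : r ≤ n
    · have h := hc (r - 1) (by omega)
      rwa [Nat.sub_add_cancel hr] at h
    · exact coeff_eq_zero_of_natDegree_lt (by omega)

end universal

variable {k : Type} [Field k] {κ : Type} [Fintype κ] [DecidableEq κ] {m : κ → ℕ} {ρ N : ℕ}

/-- the unknowns of the component `r` -/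
def unkEmb {m : κ → ℕ} (ρ N : ℕ) (d : ∀ r, Fin (m r) → ℕ) (r : κ) : Unk1 ρ N (d r) → Unk ρ N d
  | Sum.inl n => Sum.inl n
  | Sum.inr (Sum.inl u) => Sum.inr (Sum.inl u)
  | Sum.inr (Sum.inr (j, ⟨i, s⟩)) => Sum.inr (Sum.inr (j, ⟨⟨r, i⟩, s⟩))

/-- the deformation given by a solution of the equations -/
structure IsDf (q0 : Σ r, Fin (m r)) (PB PC : ∀ r, Fin (m r) → MvPolynomial (Fin ρ) k[X])
    (PA : κ → Fin N → MvPolynomial (Fin ρ) k[X]) (θ : κ → Fin N → k) (T : κ → ℕ → ℕ → k)
    (c : ∀ r, Fin (m r) → k) (z : Fin ρ → k) (g : k) (τ : κ → ℕ → ℕ → k[X]) : Prop where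
  ne : z ≠ 0 ∨ g ≠ 0 ∨ ∃ r, ∃ j ≤ N, ∃ i < m r, 0 < (τ r j i).natDegree
  ev : ∀ r, ∀ j ≤ N, ∀ i < m r, (τ r j i).eval 0 = T r j i
  row0 : ∀ r (i : Fin (m r)), τ r 0 i = (PB r i).eval fun n => C (z n)
  sum : ∀ r (i : Fin (m r)), ∑ j ∈ range (N + 1), τ r j i =
    C (c r i) * ((PC r i).eval fun n => C (z n)) *
      (if (⟨r, i⟩ : Σ r, Fin (m r)) = q0 then 1 + C g * X else 1)
  det : ∀ r (l : Fin N), (dm (m r) N (τ r) (C (θ r l))).det = (PA r l).eval fun n => C (z n)

/-- **There is a nontrivial deformation.** -/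
theorem exists_isDf [IsAlgClosed k] {d : ∀ r, Fin (m r) → ℕ} {q0 : Σ r, Fin (m r)}
    (h0 : 0 < d q0.1 q0.2) {PB PC : ∀ r, Fin (m r) → MvPolynomial (Fin ρ) k[X]}
    {PA : κ → Fin N → MvPolynomial (Fin ρ) k[X]}
    {cB cC : ∀ r, Fin (m r) → k} {cA : κ → Fin N → k} (hB : ∀ r i, IsNm (PB r i) (d r i) (cB r i))
    (hC : ∀ r i, IsNm (PC r i)
      (if (⟨r, i⟩ : Σ r, Fin (m r)) = q0 then d r i - 1 else d r i) (cC r i))
    (hA : ∀ r l, IsNm (PA r l) (∑ i, d r i) (cA r l)) (hρ : ∑ r, ∑ i, d r i ≤ ρ)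
    {θ : κ → Fin N → k} {T : κ → ℕ → ℕ → k} {c : ∀ r, Fin (m r) → k}
    (hT0 : ∀ r (i : Fin (m r)), T r 0 i = cB r i)
    (hTs : ∀ r (i : Fin (m r)), ∑ j ∈ range (N + 1), T r j i = c r i * cC r i)
    (hTd : ∀ r l, (dm (m r) N (T r) (θ r l)).det = cA r l) :
    ∃ (z : Fin ρ → k) (g : k) (τ : κ → ℕ → ℕ → k[X]), IsDf q0 PB PC PA θ T c z g τ := by
  classical
  -- the equations
  let y : Unk ρ N d → MvPolynomial (Unk ρ N d) k := MvPolynomial.X
  let I : ∀ r, Fin (m r) → Prop := fun r i => (⟨r, i⟩ : Σ r, Fin (m r)) = q0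
  have hI : ∀ r i, I r i → 0 < d r i := by
    intro r i h
    have h1 : (⟨r, i⟩ : Σ r, Fin (m r)) = q0 := h
    rw [← h1] at h0
    exact h0
  let f : Eqs N d → MvPolynomial (Unk ρ N d) k := fun e => match e with
    | Sum.inl ⟨r, (l, s)⟩ =>
      (EA (d r) (PB r) (T r) (fun e => y (unkEmb ρ N d r e)) (θ r l) (PA r l)).coeff (s + 1)
    | Sum.inr ⟨⟨r, i⟩, s⟩ =>
      (GA (d r) (I r) (PB r) (PC r) (T r) (c r) (fun e => y (unkEmb ρ N d r e)) i).coeff (s + 1)
  have hy : ∀ (x : Unk ρ N d → k) (r : κ),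
      (fun e => (MvPolynomial.aeval x : MvPolynomial (Unk ρ N d) k →ₐ[k] k)
        (y (unkEmb ρ N d r e))) = fun e => x (unkEmb ρ N d r e) := by
    intro x r
    funext e
    exact MvPolynomial.aeval_X x _
  have hf1 : ∀ (x : Unk ρ N d → k) (r : κ) (l : Fin N) (s : Fin (∑ i, d r i)),
      MvPolynomial.eval x (f (Sum.inl ⟨r, (l, s)⟩)) =
        (EA (d r) (PB r) (T r) (fun e => x (unkEmb ρ N d r e)) (θ r l) (PA r l)).coeff (s + 1) := by
    intro x r l s
    have h1 := EA_map (d r) (PB r) (T r)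
      (MvPolynomial.aeval x : MvPolynomial (Unk ρ N d) k →ₐ[k] k) (fun e => y (unkEmb ρ N d r e))
      (θ r l) (PA r l)
    rw [hy] at h1
    rw [← h1, coeff_map, ← MvPolynomial.coe_aeval_eq_eval]
  have hf2 : ∀ (x : Unk ρ N d → k) (r : κ) (i : Fin (m r)) (s : Fin (d r i)),
      MvPolynomial.eval x (f (Sum.inr ⟨⟨r, i⟩, s⟩)) =
        (GA (d r) (I r) (PB r) (PC r) (T r) (c r) (fun e => x (unkEmb ρ N d r e)) i).coeff
          (s + 1) := by
    intro x r i s
    have h1 := GA_map (d r) (I r) (PB r) (PC r) (T r) (c r)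
      (MvPolynomial.aeval x : MvPolynomial (Unk ρ N d) k →ₐ[k] k) (fun e => y (unkEmb ρ N d r e)) i
    rw [hy] at h1
    rw [← h1, coeff_map, ← MvPolynomial.coe_aeval_eq_eval]
  have hcard : Fintype.card (Eqs N d) < Fintype.card (Unk ρ N d) := by
    simp only [Fintype.card_sum, Fintype.card_prod, Fintype.card_sigma, Fintype.card_fin,
      Fintype.card_unit, Fintype.sum_sigma, ← mul_sum]
    omega
  obtain ⟨x, hx0, hx1⟩ := ZIso.exists_ne_zero (ι := Unk ρ N d) (κ := Eqs N d) hcard f (by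
    rintro (⟨r, l, s⟩ | ⟨⟨r, i⟩, s⟩)
    · obtain ⟨c, hc⟩ := EA_zero (S := k) (d r) (N := N) (PB r) (T r) (hB r) (θ r l) (hA r l)
      rw [hf1]
      have h1 : (fun e => (0 : Unk ρ N d → k) (unkEmb ρ N d r e)) = 0 := rfl
      rw [h1, hc, coeff_C_succ]
    · obtain ⟨c, hc⟩ := GA_zero (S := k) (d r) (I r) (N := N) (PB r) (PC r) (T r) (c r) (hB r)
        (hC r) i
      rw [hf2]
      have h1 : (fun e => (0 : Unk ρ N d → k) (unkEmb ρ N d r e)) = 0 := rfl
      rw [h1, hc, coeff_C_succ])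
  set z : Fin ρ → k := fun n => x (Sum.inl n) with hz
  have hnv : ∀ (r : κ) (P : MvPolynomial (Fin ρ) k[X]),
      (nv P fun n => (fun e => x (unkEmb ρ N d r e)) (Sum.inl n)) =
      P.eval fun n => C (z n) := fun r P => nv_eval P z
  -- values at `t = 0`
  have hev : ∀ r, ∀ j ≤ N, ∀ i < m r,
      (tx (d r) (PB r) (T r) (fun e => x (unkEmb ρ N d r e)) j i).eval 0 = T r j i := by
    intro r j hj i hi
    unfold tx
    rw [dif_pos hi]
    split_ifs with h1 h2
    · subst h1
      rw [hnv, (hB r ⟨i, hi⟩).ev0]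
      exact (hT0 r ⟨i, hi⟩).symm
    · rw [eval_add, eval_C, eval_finsetSum]
      have h3 : ∑ s : Fin (d r ⟨i, hi⟩),
          (C ((fun e => x (unkEmb ρ N d r e)) (Sum.inr (Sum.inr (⟨j - 1, h2⟩, ⟨⟨i, hi⟩, s⟩)))) *
          Polynomial.X ^ ((s : ℕ) + 1)).eval 0 = 0 := sum_eq_zero fun r _ => by simp
      rw [h3, add_zero]
      rfl
    · exact absurd (by omega) h2
  refine ⟨z, x (Sum.inr (Sum.inl ())), fun r => tx (d r) (PB r) (T r)
    (fun e => x (unkEmb ρ N d r e)), ?_, hev, ?_, ?_, ?_⟩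
  · by_contra hcon
    push Not at hcon
    obtain ⟨h1, h2, h3⟩ := hcon
    apply hx0
    funext e
    rcases e with n | ⟨⟩ | ⟨j, ⟨r, i⟩, s⟩
    · exact congrFun h1 n
    · exact h2
    · have h4 := h3 r (j + 1) (by omega) i i.isLt
      have h5 : (tx (d r) (PB r) (T r) (fun e => x (unkEmb ρ N d r e)) (j + 1) i).coeff (s + 1) =
          x (Sum.inr (Sum.inr (j, ⟨⟨r, i⟩, s⟩))) := by
        unfold tx
        rw [dif_pos i.isLt, if_neg (Nat.succ_ne_zero _), dif_pos (show (j : ℕ) + 1 - 1 < N by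
          have := j.isLt
          omega), coeff_add, coeff_C_succ, zero_add, finsetSum_coeff, sum_eq_single s]
        · simp [unkEmb]
        · intro l _ hl
          rw [coeff_C_mul, coeff_X_pow, if_neg, mul_zero]
          intro h5
          exact hl (Fin.ext (by omega))
        · intro h5
          exact absurd (mem_univ _) h5
      rw [coeff_eq_zero_of_natDegree_lt (by omega)] at h5
      exact h5.symm
  · intro r i
    show tx (d r) (PB r) (T r) (fun e => x (unkEmb ρ N d r e)) 0 i = _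
    unfold tx
    rw [dif_pos i.isLt, if_pos rfl, hnv]
  · intro r i
    have h1 : GA (d r) (I r) (PB r) (PC r) (T r) (c r) (fun e => x (unkEmb ρ N d r e)) i = 0 := by
      refine poly_zero (GA_deg (d r) (I r) (PB r) (PC r) (T r) (c r) _ (hB r) (hC r) (hI r) i)
        (fun s hs => ?_) ?_
      · have h2 := hx1 (Sum.inr ⟨⟨r, i⟩, ⟨s, hs⟩⟩)
        rw [hf2] at h2
        exact h2
      · unfold GA
        rw [eval_sub, eval_finsetSum, sum_congr rfl fun j hj => hev r j
          (by have := mem_range.1 hj; omega) i i.isLt, hTs, eval_mul, eval_mul, hnv,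
          (hC r i).ev0]
        have h2 : (if I r i then 1 + C ((fun e => x (unkEmb ρ N d r e)) (Sum.inr (Sum.inl ()))) *
            Polynomial.X else 1 : k[X]).eval 0 = 1 := by
          split_ifs <;> simp
        rw [h2, mul_one, Algebra.algebraMap_self, RingHom.id_apply, eval_C, sub_self]
    have h2 := sub_eq_zero.1 h1
    rw [h2, hnv]
    rfl
  · intro r l
    have h1 : EA (d r) (PB r) (T r) (fun e => x (unkEmb ρ N d r e)) (θ r l) (PA r l) = 0 := by
      refine poly_zero (EA_deg (d r) (PB r) (T r) _ (hB r) _ (hA r l)) (fun s hs => ?_) ?_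
      · have h2 := hx1 (Sum.inl ⟨r, (l, ⟨s, hs⟩)⟩)
        rw [hf1] at h2
        exact h2
      · unfold EA
        rw [eval_sub, hnv, (hA r l).ev0]
        have h2 := det_dm_map (m := m r) (N := N) (evalRingHom (0 : k))
          (tx (d r) (PB r) (T r) (fun e => x (unkEmb ρ N d r e)))
          (C (algebraMap k k (θ r l)))
        rw [coe_evalRingHom] at h2
        rw [h2, eval_C, dm_congr (hev r), Algebra.algebraMap_self, RingHom.id_apply, hTd r l,
          sub_self]
    have h2 := sub_eq_zero.1 h1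
    rw [hnv] at h2
    exact h2

end Pool.Agent.HGP
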