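import Pool.Agent.TInc.Points
import Pool.Agent.TInc.Lin
import Pool.Agent.TInc.Nm
import Pool.Agent.HGP.Krl
import Pool.Agent.HGP.Val

/-!
# The pencil of divisors through `N` points of a curve, and the norms of sections

`L` is the function field of a curve. A point of the curve over `K` is an embedding `L → K` or a
(constant) place: `ev f s` is the value of the function `f` at the point `s`, `Ovr v s c` means that
the point `s` has the value `c` at the place `v` of `K`. For `N` different places `c j` and `ρ` functions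
`φ m` with simple poles there, and for a section `f` of the line bundle of the divisor `D` (a function
with `div f + D ≥ 0`) the norm `nmf hL φ c D f` is the product of the `1 + t φ(q)` over the zeros `q` of
the section, `φ = ∑ z_m φ_m`, times the product of the `f(c j)`: a polynomial in the `z` and in `t`, of
degree `deg D` in `t`.
-/

set_option autoImplicit false

noncomputable section

namespace Pool.Agent.HGP

open Pool.Agent.ZCyc Pool.Agent.Dess Pool.Agent.TInc Module Polynomial
open Pool.Agent.VFP (Om tt)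
open scoped Classical


variable {k L : Type} [Field k] [IsAlgClosed k] [CharZero k] [Field L] [Algebra k L] {N ρ : ℕ}

omit [IsAlgClosed k] [CharZero k] in
private theorem deg_add' (A B : Place k L →₀ ℤ) : deg (A + B) = deg A + deg B := by
  unfold deg
  exact Finsupp.sum_add_index' (fun _ => rfl) (fun _ _ _ => rfl)

/-- the norm of the section `f` of the line bundle of `D` -/
def nmf (hL : IsCurve k L) (φ : Fin ρ → L) (c : Fin N → Place k L) (D : Place k L →₀ ℤ) (f : L) :
    MvPolynomial (Fin ρ) k[X] :=
  nmP (dv hL f + D).support (fun q m => val q (φ m)) (fun q => (ord q f + D q).toNat)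
    (∏ j, val (c j) f)

/-- the number of the zeros of a section -/
theorem nmf_sum (hL : IsCurve k L) {D : Place k L →₀ ℤ} {f : L}
    (h : ∀ q, 0 ≤ ord q f + D q) {e : ℕ} (hD : deg D = e) :
    ∑ q ∈ (dv hL f + D).support, (ord q f + D q).toNat = e := by
  have h1 : ((∑ q ∈ (dv hL f + D).support, (ord q f + D q).toNat : ℕ) : ℤ) =
      deg (dv hL f + D) := by
    unfold deg Finsupp.sum
    rw [Nat.cast_sum]
    refine Finset.sum_congr rfl fun q _ => ?_
    rw [Int.toNat_of_nonneg (h q), Finsupp.add_apply, dv_apply]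
  rw [deg_add', deg_dv, hD, zero_add] at h1
  exact_mod_cast h1

/-- the norm is a polynomial of degree `deg D` in `t` -/
theorem nmf_isNm (hL : IsCurve k L) (φ : Fin ρ → L) (c : Fin N → Place k L)
    {D : Place k L →₀ ℤ} {f : L} (h : ∀ q, 0 ≤ ord q f + D q) {e : ℕ} (hD : deg D = e) :
    IsNm (nmf hL φ c D f) e (∏ j, val (c j) f) where
  deg z := (nmP_natDegree _ _ _ _ z).trans (le_of_eq (nmf_sum hL h hD))
  zero := nmP_zero _ _ _ _
  ev0 z := nmP_eval_zero _ _ _ _ z

/-- the degree is smaller if all `φ m` vanish at a zero of the section -/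
theorem nmf_isNm' (hL : IsCurve k L) {φ : Fin ρ → L} (c : Fin N → Place k L)
    {D : Place k L →₀ ℤ} {f : L} (h : ∀ q, 0 ≤ ord q f + D q) {e : ℕ} (hD : deg D = e)
    {o : Place k L} (ho : 0 < ord o f + D o) (hφ : ∀ m, val o (φ m) = 0) :
    IsNm (nmf hL φ c D f) (e - 1) (∏ j, val (c j) f) where
  deg z := by
    have hmem : o ∈ (dv hL f + D).support := by
      rw [Finsupp.mem_support_iff, Finsupp.add_apply, dv_apply]
      exact ho.ne'
    have h1 : nmf hL φ c D f = nmP ((dv hL f + D).support.erase o) (fun q m => val q (φ m))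
        (fun q => (ord q f + D q).toNat) (∏ j, val (c j) f) := by
      unfold nmf nmP
      rw [← Finset.mul_prod_erase _ _ hmem]
      have h2 : lin (fun m => val o (φ m)) = (1 : MvPolynomial (Fin ρ) k[X]) := by
        unfold lin
        simp [hφ]
      rw [h2, one_pow, one_mul]
    rw [h1]
    refine (nmP_natDegree _ _ _ _ z).trans ?_
    have h3 := nmf_sum hL h hD
    rw [← Finset.add_sum_erase _ _ hmem] at h3
    have h4 : 0 < (ord o f + D o).toNat := by omega
    omega
  zero := nmP_zero _ _ _ _
  ev0 z := nmP_eval_zero _ _ _ _ z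

private theorem pen_ord_sum (hL : IsCurve k L) (φ : Fin ρ → L) (z : Fin ρ → k)
    {q : Place k L} (hq : ∀ m, φ m ≠ 0 → -1 ≤ ord q (φ m)) (t : Finset (Fin ρ)) :
    ∑ m ∈ t, algebraMap k L (z m) * φ m ≠ 0 →
      -1 ≤ ord q (∑ m ∈ t, algebraMap k L (z m) * φ m) := by
  induction t using Finset.induction_on with
  | empty =>
    intro h
    exact absurd Finset.sum_empty h
  | insert a t ha ih =>
    rw [Finset.sum_insert ha]
    intro h
    refine le_ord_add hL h (fun h1 => ?_) ih
    have h2 := left_ne_zero_of_mul h1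
    have h3 := right_ne_zero_of_mul h1
    rw [ord_mul hL q h2 h3, ord_const hL, zero_add]
    exact hq a h3

omit [IsAlgClosed k] in
private theorem pen_ne {τ : Om k} (hτ : Transcendental k τ) (a : k) :
    1 + τ * algebraMap k (Om k) a ≠ 0 := by
  intro h
  by_cases ha : a = 0
  · rw [ha, map_zero, mul_zero, add_zero] at h
    exact one_ne_zero h
  · apply hτ
    have ha' : algebraMap k (Om k) a ≠ 0 := (_root_.map_ne_zero _).2 ha
    have h1 : τ = algebraMap k (Om k) (-a⁻¹) := by
      rw [map_neg, map_inv₀]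
      field_simp
      linear_combination h
    rw [h1]
    exact isAlgebraic_algebraMap _

/-- **The pencil.** `c j` are `N` different places, `o` another place, `ρ + g ≤ N`. There are `ρ`
functions `φ m` with `φ m (o) = 0` such that for all `z : Fin ρ → k` and for every transcendental
parameter `t` there is an `N`-tuple `S` of points of the curve over `Om k` (the divisor
`div (1 + t φ) + ∑ c j`, `φ = ∑ z_m φ_m`), and a factor `γ D` for all divisors `D` with support in `T`,
multiplicative in `D`, such that
1. `γ D * ∏ f(S j)` is the norm of `f`, for all sections `f` of the line bundle of `D` which are units at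
the places `c j`;
2. where `t` has the value `0` the points `S j` tend to the places `c j`, up to a permutation;
3. where `t` has a pole some point `S j` tends to `o`, if `z ≠ 0`; for `z = 0` the points are constant. -/
theorem exists_pen (hL : IsCurve k L) {g : ℕ} (hg : Riemann hL g) (hρ : ρ + g ≤ N)
    {c : Fin N → Place k L} (hc : Function.Injective c) {o : Place k L} (ho : ∀ j, c j ≠ o)
    (T : Finset (Place k L)) (hT : ∀ j, c j ∉ T) :
    ∃ φ : Fin ρ → L, (∀ m, val o (φ m) = 0) ∧
      ∀ (z : Fin ρ → k) (t : Om k), Transcendental k t →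
        ∃ (S : Fin N → Bp k L (Om k)) (γ : (Place k L →₀ ℤ) → Om k),
          (∀ D, γ D ≠ 0) ∧ γ 0 = 1 ∧ (∀ D D', γ (D + D') = γ D * γ D') ∧
          (∀ (D : Place k L →₀ ℤ) (f : L), (∀ q, D q ≠ 0 → q ∈ T) → f ≠ 0 →
            (∀ j, ord (c j) f = 0) → (∀ q, 0 ≤ ord q f + D q) →
            γ D * ∏ j, ev f (S j) = aeval t ((nmf hL φ c D f).eval fun m => C (z m))) ∧
          (∀ v : Place k (Om k), v.At t 0 → ∃ π : Equiv.Perm (Fin N), ∀ j,
            Ovr v (S j) (c (π j))) ∧
          (z ≠ 0 → ∀ v : Place k (Om k), t ∉ v.ring → ∃ j, Ovr v (S j) o) ∧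
          (z = 0 → ∀ j, S j = Sum.inr (c j)) := by
  obtain ⟨ψ, hreg, hpole, hind⟩ := exists_phi hg hρ c hc
  -- the normalisation
  have hψo : ∀ m, o.At (ψ m) (val o (ψ m)) := fun m => at_val hL (hreg m o ho)
  set φ : Fin ρ → L := fun m => ψ m - algebraMap k L (val o (ψ m)) with hφdef
  have hreg' : ∀ m v, (∀ j, c j ≠ v) → φ m ∈ v.ring := fun m v hv =>
    sub_mem (hreg m v hv) (v.const_mem _)
  have hφo : ∀ m, o.At (φ m) 0 := by
    intro m
    have h1 := (hψo m).sub (Place.at_const (v := o) (val o (ψ m)))
    rwa [sub_self] at h1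
  have hpole' : ∀ m j, φ m ≠ 0 → -1 ≤ ord (c j) (φ m) := by
    intro m j h0
    have h1 : φ m = ψ m + algebraMap k L (-val o (ψ m)) := by
      rw [map_neg, ← sub_eq_add_neg]
    rw [h1] at h0 ⊢
    refine le_ord_add hL h0 (hpole m j) fun h2 => ?_
    rw [ord_const hL]
    norm_num
  have hind' : ∀ z : Fin ρ → k, z ≠ 0 → ∀ a : k,
      ∑ m, algebraMap k L (z m) * φ m ≠ algebraMap k L a := by
    intro z hz a h
    apply hind z hz (a + ∑ m, z m * val o (ψ m))
    rw [map_add, ← h, map_sum, ← Finset.sum_add_distrib]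
    refine Finset.sum_congr rfl fun m _ => ?_
    rw [map_mul]
    simp only [hφdef]
    ring
  refine ⟨φ, fun m => val_eq (hφo m), fun z t ht => ?_⟩
  -- the values of `∑ z m * φ m`
  have hat : ∀ q : Place k L, (∀ j, c j ≠ q) →
      q.At (∑ m, algebraMap k L (z m) * φ m) (∑ m, z m * val q (φ m)) := fun q hq =>
    Place.At.sum fun m _ => (Place.at_const _).mul (at_val hL (hreg' m q hq))
  by_cases hz : z = 0
  · -- the constant tuple
    subst hz
    refine ⟨fun j => Sum.inr (c j), fun _ => 1, fun _ => one_ne_zero, rfl,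
      fun _ _ => (one_mul _).symm, fun D f _ _ _ _ => ?_, fun v _ => ⟨1, fun j => rfl⟩,
      fun h => absurd rfl h, fun _ _ => rfl⟩
    unfold nmf
    rw [nmP_aeval, one_mul]
    have h1 : ∏ q ∈ (dv hL f + D).support, (1 + t * algebraMap k (Om k)
        (∑ m, (0 : Fin ρ → k) m * val q (φ m))) ^ (ord q f + D q).toNat = 1 :=
      Finset.prod_eq_one fun q _ => by simp
    rw [h1, mul_one, map_prod]
    rfl
  set Φ : L := ∑ m, algebraMap k L (z m) * φ m with hΦ
  have hΦc : ∀ a : k, Φ ≠ algebraMap k L a := hind' z hz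
  have hΦ0 : Φ ≠ 0 := fun h => hΦc 0 (by rw [h, map_zero])
  let c' : Fin N → (Set.univ : Set (Place k L)) := fun j => ⟨c j, Set.mem_univ _⟩
  have hc' : Function.Injective c' := fun i j h => hc (congrArg Subtype.val h)
  obtain ⟨S, -, h1, h2, h3⟩ := exists_points hL c' hc' hΦc
    (fun v hv => sum_mem fun m _ => mul_mem (v.const_mem _) (hreg' m v hv))
    (fun j => pen_ord_sum hL φ z (fun m hm => hpole' m j hm) _ hΦ0) T hT ht
  have hev : ∀ j (f : L), ev f ((S j).map id Subtype.val) = evO (S j) f := by
    intro j f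
    cases S j with
    | inl σ => rfl
    | inr q => rfl
  have hov : ∀ (v : Place k (Om k)) j (q : Place k L), Over v (S j) q →
      Ovr v ((S j).map id Subtype.val) q := by
    intro v j q h
    cases hS : S j with
    | inl σ =>
      rw [hS] at h
      exact h
    | inr q' =>
      rw [hS] at h
      exact h
  refine ⟨fun j => (S j).map id Subtype.val,
    fun D => ∏ q ∈ T, (1 + t * algebraMap k (Om k) (val q Φ)) ^ (D q),
    fun D => Finset.prod_ne_zero_iff.2 fun q _ => zpow_ne_zero _ (pen_ne ht _), ?_,
    fun D D' => ?_, fun D f hDT hf hu hD => ?_, fun v hv => ?_, fun _ v hv => ?_,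
    fun h => absurd h hz⟩
  · exact Finset.prod_eq_one fun q _ => zpow_zero _
  · rw [← Finset.prod_mul_distrib]
    refine Finset.prod_congr rfl fun q _ => ?_
    rw [Finsupp.add_apply, zpow_add₀ (pen_ne ht _)]
  · have hcS : ∀ j, c j ∉ (dv hL f + D).support := by
      intro j
      rw [Finsupp.notMem_support_iff, Finsupp.add_apply, dv_apply, hu, zero_add]
      by_contra h
      exact hT j (hDT _ h)
    have h4 := h1 1 D f hf hu (fun q => by
      rw [Nat.cast_one, one_mul]
      exact hD q) hDT (dv hL f + D).support (fun q hq => by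
      rw [Finsupp.mem_support_iff, Finsupp.add_apply, dv_apply]
      rwa [Nat.cast_one, one_mul] at hq) hcS
    rw [pow_one] at h4
    rw [Finset.prod_congr rfl fun j _ => hev j f, h4]
    unfold nmf
    rw [nmP_aeval]
    congr 1
    refine Finset.prod_congr rfl fun q hq => ?_
    rw [Nat.cast_one, one_mul, val_eq (hat q fun j hj => hcS j (hj ▸ hq))]
  · obtain ⟨π, hπ⟩ := h2 v hv
    exact ⟨π, fun j => hov v j _ (hπ j)⟩
  · have h4 : v.At (-t⁻¹) 0 := by
      have h5 : v.At t⁻¹ 0 := by
        rw [Place.at_zero_iff, Place.vanishes_iff_or, inv_inv]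
        exact Or.inr hv
      have h6 := h5.neg
      rwa [neg_zero] at h6
    have h5 : o.At Φ 0 := by
      have h6 := hat o ho
      have h7 : ∑ m, z m * val o (φ m) = 0 := Finset.sum_eq_zero fun m _ => by
        rw [val_eq (hφo m), mul_zero]
      rwa [h7] at h6
    obtain ⟨j, hj⟩ := h3 v 0 o h4 h5
    exact ⟨j, hov v j _ hj⟩

omit [IsAlgClosed k] [CharZero k] in
/-- the factor for a sum of divisors -/
theorem gauge_sum {ι : Type*} {γ : (Place k L →₀ ℤ) → Om k} (h0 : γ 0 = 1)
    (h : ∀ D D', γ (D + D') = γ D * γ D') (s : Finset ι) (D : ι → Place k L →₀ ℤ) :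
    γ (∑ i ∈ s, D i) = ∏ i ∈ s, γ (D i) := by
  induction s using Finset.induction_on with
  | empty => rw [Finset.sum_empty, Finset.prod_empty, h0]
  | insert a s ha ih => rw [Finset.sum_insert ha, Finset.prod_insert ha, h, ih]

end Pool.Agent.HGP
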