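import Pool.Agent.HGF.Curve
import Pool.Agent.HGP.Pen

/-!
# Package HGP-Crv: the rational curve through a state of the fibre product

Port of `Pool/Agent/HGFC/Crv.lean` to several components. The definitions and lemmas about one
component (`Fam.Reg`, `lamc`, `Wr`, `Wr_fin`, `det_st`, `deg_sum`, `evp_ne`, `evp_sub`, `per_mod`, `IsPt`, `T0`,
`W0`, `Wn_ne`, `evt_at`, `rs_at`, `rs_ne`, `row0_t`, `det_t`, `tn`, `tn_per`, `tn_at`, `exists_fact`,
`exists_theta`) can be copied; they use of the deformation only the fields `ev`, `row0`, `sum`, `det` for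
one component (so use a structure `IsD1` with these four fields, `sum` with a factor
`e i : k[X]`, and `IsD1` for the component `r` from `IsDf`). The points `S` and the permutations `σ` of the
values at the zeros of `t` come from the pencil (`IsPt.zero`): in `exists_fact` please return for every
`σ` with `∀ j, Ovr v (S j) (s (σ j))` that `v.At (Z j i) (O σ j i)` (`v.At t 0`), so that one gets the same
`σ` for all components (the multipliers `lamc F (s j)` are different, so `σ` is determined by the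
values). `exists_curve`: as before, one pencil (`ρ = ∑ r, ∑ i, d r i`, `T` = the union of the supports of
all `E r i`), `exists_isDf` of `HGP/Krl.lean`; the last part (`z = 0`, `g = 0`, some `τ r j i` not constant)
for the component `r`.
-/

set_option autoImplicit false
set_option linter.unusedSectionVars false

noncomputable section

namespace Pool.Agent.HGP

open Finset Polynomial Pool.Agent.ZCyc Pool.Agent.Dess Pool.Agent.TInc Pool.Agent.HGF
open Pool.Agent.VFP (Om tt)

section defs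

variable {k L : Type} [Field k] [Field L] [Algebra k L] {m N : ℕ}

/-- the assumptions: the sections are regular and different from zero, `A` is not a multiple of the
product of the `B_i` -/
structure Fam.Reg (F : Fam k L m) (d : Fin m → ℕ) : Prop where
  B0 : ∀ i, F.B i ≠ 0
  C0 : ∀ i, F.C i ≠ 0
  A0 : F.A ≠ 0
  B : ∀ i q, 0 ≤ ord q (F.B i) + F.E i q
  C : ∀ i q, 0 ≤ ord q (F.C i) + F.E i q
  A : ∀ q, 0 ≤ ord q F.A + (∑ i, F.E i) q
  deg : ∀ i, TInc.deg (F.E i) = d i
  indep : ∀ c : k, F.A ≠ algebraMap k L c * ∏ i, F.B i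

/-- the parameter at a place -/
def lamc (F : Fam k L m) (c : Place k L) : k := val c F.A / ∏ i, val c (F.B i)

/-- the factor of the row -/
def Wr (b : Fin N → Fin m → k) (X : Fin N → ℕ → k) (i : ℕ) : k :=
  ∏ j, ((if hi : i < m then b j ⟨i, hi⟩ else 1) * (1 - X j i))

lemma Wr_fin (b : Fin N → Fin m → k) (X : Fin N → ℕ → k) (i : Fin m) :
    Wr b X i = ∏ j, (b j i * (1 - X j i)) := by
  unfold Wr
  refine prod_congr rfl fun j _ => ?_
  rw [dif_pos i.isLt]

/-- the determinant of the product -/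
theorem det_st (hm : 0 < m) {X : Fin N → ℕ → k} {b : Fin N → Fin m → k} {a : Fin N → k}
    (hg : ∀ j, Good m (X j)) (hb : ∀ j i, b j i ≠ 0) (ha : ∀ j, a j ≠ 0)
    (hmul : ∀ j, mu m (X j) * ∏ i, b j i = a j)
    (hinj : Function.Injective fun j => mu m (X j)) (θ : k) :
    (dm m N (fun j i => Wr b X i * cor X j i) θ).det = ∏ j, (∏ i, b j i - θ * a j) := by
  have hP : ∀ j, ∏ i, b j i ≠ 0 := fun j => prod_ne_zero_iff.2 fun i _ => hb j i
  have hq : ∀ j, (∏ i, b j i) / a j = (mu m (X j))⁻¹ := by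
    intro j
    rw [← hmul j, mul_comm (mu m (X j)), ← div_div, div_self (hP j), one_div]
  refine det_eq_prod ha hP ?_ ?_ ?_ θ
  · intro j l hjl
    have hjl' : (mu m (X j))⁻¹ = (mu m (X l))⁻¹ := by
      rw [← hq, ← hq]
      exact hjl
    exact hinj (inv_injective hjl')
  · rw [prod_comm]
    refine prod_congr rfl fun i _ => ?_
    rw [cor_zero, Wr_fin, ← prod_mul_distrib]
    refine prod_congr rfl fun j _ => ?_
    rw [mul_assoc, mul_inv_cancel₀ (sub_ne_zero.2 ((hg j).ne1 i).symm), mul_one]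
  · intro j
    rw [det_dm_mul, hq j]
    obtain ⟨ψ, h1, h2, h3⟩ := exists_ker hg hinj j
    rw [det_of_ker hm h1 h2 (by
      funext i
      rw [← opr_eq, h3]), mul_zero]

private lemma deg_sum (s : Finset (Fin m)) (D : Fin m → Place k L →₀ ℤ) :
    TInc.deg (∑ i ∈ s, D i) = ∑ i ∈ s, TInc.deg (D i) := by
  classical
  induction s using Finset.induction_on with
  | empty =>
    rw [Finset.sum_empty, Finset.sum_empty]
    rfl
  | insert a s ha ih =>
    rw [Finset.sum_insert ha, Finset.sum_insert ha, ← ih]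
    unfold TInc.deg
    exact Finsupp.sum_add_index' (fun _ => rfl) (fun _ _ _ => rfl)

end defs

section one

variable {k L : Type} [Field k] [IsAlgClosed k] [CharZero k] [Field L] [Algebra k L] {m N : ℕ}

private lemma evp_ne (hL : IsCurve k L) {v : Place k (Om k)} {S : Bp k L (Om k)}
    {c : Place k L} (h : Ovr v S c) {f : L} (hf : f ≠ 0) (h0 : ord c f = 0) : ev f S ≠ 0 := by
  obtain ⟨h1, h2⟩ := val_unit hL hf h0
  intro h3
  have h4 := ev_at hL h h1.mem
  rw [h3] at h4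
  exact h2 (h4.unique (at_zero v))

private lemma evp_sub (hL : IsCurve k L) {F : Fam k L m} {d : Fin m → ℕ} (hF : F.Reg d)
    {v : Place k (Om k)} {S : Bp k L (Om k)} {c : Place k L} (h : Ovr v S c)
    (hc : Bas F c) (θ : k) : ev (∏ i, F.B i - algebraMap k L θ * F.A) S =
      ∏ i, ev (F.B i) S - algebraMap k (Om k) θ * ev F.A S := by
  cases S with
  | inl σ =>
    show σ (∏ i, F.B i - algebraMap k L θ * F.A) =
      ∏ i, σ (F.B i) - algebraMap k (Om k) θ * σ F.A
    rw [map_sub, map_prod, map_mul, AlgHom.commutes]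
  | inr c' =>
    have h1 : c' = c := h
    subst h1
    have h2 : c'.At (∏ i, F.B i - algebraMap k L θ * F.A)
        (∏ i, val c' (F.B i) - θ * val c' F.A) :=
      (Place.At.prod fun i _ => (val_unit hL (hF.B0 i) (hc.B i)).1).sub
        ((Place.at_const θ).mul (val_unit hL hF.A0 hc.A).1)
    show algebraMap k (Om k) (val c' (∏ i, F.B i - algebraMap k L θ * F.A)) =
      ∏ i, algebraMap k (Om k) (val c' (F.B i)) - algebraMap k (Om k) θ *
        algebraMap k (Om k) (val c' F.A)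
    rw [val_eq h2, map_sub, map_prod, map_mul]

private lemma per_mod {α : Type} {x : ℕ → α} (hx : Per m x) (i : ℕ) : x (i % m) = x i := by
  have h1 : ∀ (q i : ℕ), x (i + m * q) = x i := by
    intro q
    induction q with
    | zero => intro i; simp
    | succ q ih =>
      intro i
      rw [Nat.mul_succ, ← add_assoc, hx, ih]
  conv_rhs => rw [← Nat.mod_add_div i m]
  rw [h1]

/-- a deformation for one component -/
private structure IsD1 {m : ℕ} (pB : Fin m → k[X]) (pA : Fin N → k[X]) (θ : Fin N → k)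
    (T : ℕ → ℕ → k) (τ : ℕ → ℕ → k[X]) : Prop where
  ev : ∀ j ≤ N, ∀ i < m, (τ j i).eval 0 = T j i
  row0 : ∀ i : Fin m, τ 0 i = pB i
  det : ∀ l : Fin N, (dm m N τ (C (θ l))).det = pA l

/-- the points `S` over `Om k` and the norms: `pB i`, `pC i`, `pA l` are the norms of `B i`, `C i`,
`∏ B i - θ l A`, as polynomials in `t` -/
private structure IsPt (F : Fam k L m) (s : Fin N → Place k L) (pB pC : Fin m → k[X])
    (pA : Fin N → k[X]) (θ : Fin N → k) (t : Om k) (S : Fin N → Bp k L (Om k))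
    (γ : Fin m → Om k) : Prop where
  ne : ∀ i, γ i ≠ 0
  B : ∀ i, aeval t (pB i) = γ i * ∏ j, ev (F.B i) (S j)
  C : ∀ i, aeval t (pC i) = γ i * ∏ j, ev (F.C i) (S j)
  A : ∀ l, aeval t (pA l) = (∏ i, γ i) *
    ∏ j, (∏ i, ev (F.B i) (S j) - algebraMap k (Om k) (θ l) * ev F.A (S j))
  zero : ∀ v : Place k (Om k), v.At t 0 → ∃ π : Equiv.Perm (Fin N), ∀ j, Ovr v (S j) (s (π j))

section

variable {F : Fam k L m} {s : Fin N → Place k L} {X : Fin N → ℕ → k}
  {pB pC : Fin m → k[X]} {pA : Fin N → k[X]}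
  {θ : Fin N → k} {τ : ℕ → ℕ → k[X]} {t : Om k}
  {S : Fin N → Bp k L (Om k)} {γ : Fin m → Om k} {d : Fin m → ℕ}

/-- the coefficients at `t = 0` -/
private def T0 (F : Fam k L m) (s : Fin N → Place k L) (X : Fin N → ℕ → k) (j i : ℕ) : k :=
  Wr (fun j i => val (s j) (F.B i)) X i * cor X j i

private abbrev W0 (F : Fam k L m) (s : Fin N → Place k L) (X : Fin N → ℕ → k) (i : ℕ) : k :=
  Wr (fun j i => val (s j) (F.B i)) X i

private lemma Wn_ne (hL : IsCurve k L) (hF : F.Reg d) (hX : ∀ j, Good m (X j))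
    (hs : ∀ j, Bas F (s j)) (i : ℕ) : W0 F s X i ≠ 0 := by
  refine prod_ne_zero_iff.2 fun j _ => mul_ne_zero ?_ (sub_ne_zero.2 ((hX j).ne1 i).symm)
  split_ifs with hi
  · exact (val_unit hL (hF.B0 _) ((hs j).B _)).2
  · exact one_ne_zero

private lemma evt_at (hD : IsD1 pB pA θ (T0 F s X) τ) {v : Place k (Om k)}
    (hv : v.At t 0) {j : ℕ} (hj : j ≤ N) {i : ℕ} (hi : i < m) :
    v.At (evt τ t j i) (W0 F s X i * cor X j i) := by
  have h1 := VFP.at_evalc hv (τ j i)
  rw [coe_aeval_eq_eval, hD.ev j hj i hi] at h1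
  exact h1

private lemma rs_at (hX : ∀ j, Good m (X j)) (hD : IsD1 pB pA θ (T0 F s X) τ)
    {v : Place k (Om k)} (hv : v.At t 0) {i : ℕ} (hi : i < m) :
    v.At (rs N τ t i) (W0 F s X i) := by
  have h1 : v.At (rs N τ t i) (∑ j ∈ range (N + 1), W0 F s X i * cor X j i) :=
    Place.At.sum fun j hj => evt_at hD hv (by have := mem_range.1 hj; omega) hi
  rwa [← mul_sum, cor_sum fun j => (hX j).ne1, mul_one] at h1

private lemma rs_ne (hL : IsCurve k L) (hF : F.Reg d) (hX : ∀ j, Good m (X j))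
    (hs : ∀ j, Bas F (s j)) (hD : IsD1 pB pA θ (T0 F s X) τ)
    (ht : ∃ v : Place k (Om k), v.At t 0) {i : ℕ} (hi : i < m) : rs N τ t i ≠ 0 := by
  obtain ⟨v, hv⟩ := ht
  intro h0
  have h1 := rs_at hX hD hv hi
  rw [h0] at h1
  exact Wn_ne hL hF hX hs i (h1.unique (at_zero v))

private lemma row0_t (hD : IsD1 pB pA θ (T0 F s X) τ)
    (hP : IsPt F s pB pC pA θ t S γ)
    (i : Fin m) : evt τ t 0 i = γ i * ∏ j, ev (F.B i) (S j) := by
  unfold evt
  rw [hD.row0 i]
  exact hP.B i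

private lemma det_t (hθ : Function.Injective θ) (hθ0 : ∀ l, θ l ≠ 0)
    (hD : IsD1 pB pA θ (T0 F s X) τ)
    (hP : IsPt F s pB pC pA θ t S γ)
    (x : Om k) : (dm m N (evt τ t) x).det = (∏ i, γ i) *
      ∏ j, (∏ i, ev (F.B i) (S j) - x * ev F.A (S j)) := by
  have h1 : dp m N (evt τ t) = C (∏ i, γ i) *
      ∏ j, (C (∏ i, ev (F.B i) (S j)) - Polynomial.X * C (ev F.A (S j))) := by
    refine eq_of_points (z := fun l : Fin N => algebraMap k (Om k) (θ l))
      (natDegree_dp _) ((natDegree_C_mul_le _ _).trans (natDegree_lin _ _)) ?_ ?_ ?_ ?_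
    · intro l l' hl
      exact hθ ((algebraMap k (Om k)).injective hl)
    · intro l
      rw [_root_.map_ne_zero]
      exact hθ0 l
    · rw [eval_dp, det_dm_zero, prod_congr rfl fun i _ => row0_t hD hP i, prod_mul_distrib,
        prod_comm, eval_mul, eval_C, eval_prod]
      congr 1
      refine prod_congr rfl fun j _ => ?_
      rw [eval_sub, eval_C, eval_mul, eval_X, eval_C, zero_mul, sub_zero]
    · intro l
      rw [eval_dp]
      have h2 := congrArg (aeval t : k[X] →ₐ[k] Om k) (hD.det l)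
      have h3 := det_dm_map (m := m) (N := N) ((aeval t : k[X] →ₐ[k] Om k) : k[X] →+* Om k) τ
        (C (θ l))
      have h4 : ((aeval t : k[X] →ₐ[k] Om k) : k[X] →+* Om k) (C (θ l)) =
          algebraMap k (Om k) (θ l) := aeval_C t _
      rw [h4] at h3
      have h5 : (dm m N (evt τ t) (algebraMap k (Om k) (θ l))).det =
          aeval t (dm m N τ (C (θ l))).det := h3.symm
      rw [h5, h2, eval_mul, eval_C, eval_prod]
      refine (hP.A l).trans ?_
      congr 1
      refine prod_congr rfl fun j _ => ?_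
      rw [eval_sub, eval_C, eval_mul, eval_X, eval_C]
  rw [← eval_dp, h1, eval_mul, eval_C, eval_prod]
  congr 1
  refine prod_congr rfl fun j _ => ?_
  rw [eval_sub, eval_C, eval_mul, eval_X, eval_C]

/-- the coefficients of the product over `Om k` -/
private def tn (m N : ℕ) (τ : ℕ → ℕ → k[X]) (t : Om k) (j i : ℕ) : Om k :=
  evt τ t j (i % m) / rs N τ t (i % m)

private lemma tn_per (j : ℕ) : Per m (tn m N τ t j) := by
  intro i
  unfold tn
  rw [Nat.add_mod_right]

private lemma tn_at (hL : IsCurve k L) (hF : F.Reg d) (hm : 0 < m) (hX : ∀ j, Good m (X j))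
    (hs : ∀ j, Bas F (s j)) (hD : IsD1 pB pA θ (T0 F s X) τ) {v : Place k (Om k)}
    (hv : v.At t 0) {j : ℕ} (hj : j ≤ N) (i : ℕ) : v.At (tn m N τ t j i) (cor X j i) := by
  have hi := Nat.mod_lt i hm
  have h1 := (evt_at hD hv hj hi).div (rs_at hX hD hv hi) (Wn_ne hL hF hX hs _)
  rw [mul_div_cancel_left₀ _ (Wn_ne hL hF hX hs _),
    per_mod (cor_per (fun j => (hX j).per) j)] at h1
  exact h1

/-- **The factorisation over `Om k`.** -/
private theorem exists_fact (hL : IsCurve k L) (hF : F.Reg d) (hθ : Function.Injective θ)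
    (hθ0 : ∀ l, θ l ≠ 0) (hm : 0 < m) (hs : ∀ j, Bas F (s j))
    (hinj : Function.Injective fun j => lamc F (s j)) (hX : ∀ j, Good m (X j))
    (hmu : ∀ j, mu m (X j) = lamc F (s j)) {O : Equiv.Perm (Fin N) → Fin N → ℕ → k}
    (hO : Ords m X O) (hD : IsD1 pB pA θ (T0 F s X) τ)
    (hP : IsPt F s pB pC pA θ t S γ)
    (ht : ∃ v : Place k (Om k), v.At t 0) :
    (∀ j, (∀ i, ev (F.B i) (S j) ≠ 0 ∧ ev (F.C i) (S j) ≠ 0) ∧ ev F.A (S j) ≠ 0) ∧
      ∃ Z : Fin N → ℕ → Om k, (∀ j, Good m (Z j)) ∧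
      (∀ j, mu m (Z j) = lam F (S j)) ∧
      (∀ j ≤ N, ∀ i < m, cor Z j i * rs N τ t i = evt τ t j i) ∧
      ∀ v : Place k (Om k), v.At t 0 → ∀ σ : Equiv.Perm (Fin N),
        (∀ j, Ovr v (S j) (s (σ j))) → ∀ j i, v.At (Z j i) (O σ j i) := by
  have hroot := hP.zero
  have hB : ∀ j, (∀ i, ev (F.B i) (S j) ≠ 0 ∧ ev (F.C i) (S j) ≠ 0) ∧ ev F.A (S j) ≠ 0 := by
    intro j
    obtain ⟨v, hv⟩ := ht
    obtain ⟨σ, hσ⟩ := hroot v hv
    exact ⟨fun i => ⟨evp_ne hL (hσ j) (hF.B0 i) ((hs _).B i),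
      evp_ne hL (hσ j) (hF.C0 i) ((hs _).C i)⟩, evp_ne hL (hσ j) hF.A0 (hs _).A⟩
  refine ⟨hB, ?_⟩
  have hPr : ∀ j, ∏ i, ev (F.B i) (S j) ≠ 0 := fun j =>
    prod_ne_zero_iff.2 fun i _ => ((hB j).1 i).1
  have hlc : ∀ j, lamc F (s j) ≠ 0 := fun j => div_ne_zero (val_unit hL hF.A0 (hs j).A).2
    (prod_ne_zero_iff.2 fun i _ => (val_unit hL (hF.B0 i) ((hs j).B i)).2)
  have hlp : ∀ j, lam F (S j) ≠ 0 := fun j => div_ne_zero (hB j).2 (hPr j)
  -- kernel vectors
  have hker : ∀ j, ∃ ψ, ψ ≠ 0 ∧ QP m (lam F (S j))⁻¹ ψ ∧ ap N (tn m N τ t) ψ = 0 := by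
    intro j
    refine exists_of_det hm (fun j => tn_per j) ?_
    have h1 : (dm m N (tn m N τ t) (lam F (S j))⁻¹).det =
        (dm m N (fun j i => (rs N τ t i)⁻¹ * evt τ t j i) (lam F (S j))⁻¹).det := by
      rw [dm_congr fun j _ i hi => ?_]
      unfold tn
      rw [Nat.mod_eq_of_lt hi, div_eq_inv_mul]
    have h2 : ∏ i, ev (F.B i) (S j) - (lam F (S j))⁻¹ * ev F.A (S j) = 0 := by
      unfold lam
      rw [inv_div, div_mul_cancel₀ _ (hB j).2, sub_self]
    have h3 : ∏ j', (∏ i, ev (F.B i) (S j') - (lam F (S j))⁻¹ * ev F.A (S j')) = 0 :=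
      prod_eq_zero (mem_univ j) h2
    rw [h1, det_dm_mul (fun i => (rs N τ t i)⁻¹), det_t hθ hθ0 hD hP, h3, mul_zero, mul_zero]
  have hsum : ∀ i, ∑ j ∈ range (N + 1), tn m N τ t j i = 1 := by
    intro i
    unfold tn
    rw [← sum_div]
    exact div_self (rs_ne hL hF hX hs hD ht (Nat.mod_lt i hm))
  -- values of the multipliers
  have hlam : ∀ (v : Place k (Om k)) (σ : Equiv.Perm (Fin N)), (∀ j, Ovr v (S j) (s (σ j))) →
      ∀ j, v.At (lam F (S j)) (lamc F (s (σ j))) := by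
    intro v σ hσ j
    unfold lam lamc
    exact (ev_at hL (hσ j) (val_unit hL hF.A0 (hs _).A).1.mem).div
      (Place.At.prod fun i _ => ev_at hL (hσ j) (val_unit hL (hF.B0 i) ((hs _).B i)).1.mem)
      (prod_ne_zero_iff.2 fun i _ => (val_unit hL (hF.B0 i) ((hs _).B i)).2)
  have hlift : ∀ v : Place k (Om k), v.At t 0 → ∀ σ : Equiv.Perm (Fin N),
      (∀ j, Ovr v (S j) (s (σ j))) → ∃ Z : Fin N → ℕ → Om k, (∀ j, Good m (Z j)) ∧
      (∀ j, mu m (Z j) = lam F (S j)) ∧ (∀ ψ, opr Z ψ = ap N (tn m N τ t) ψ) ∧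
      ∀ j i, v.At (Z j i) (O σ j i) := by
    intro v hv σ hσ
    obtain ⟨Z, h1, h2, h3, h4⟩ := exists_lift v hm (t := tn m N τ t) (t' := cor X)
      (fun j => tn_per j) hsum (fun j hj i => tn_at hL hF hm hX hs hD hv hj i)
      (μ := fun j => (lam F (S j))⁻¹) (μ' := fun j => (lamc F (s (σ j)))⁻¹)
      (fun j => (hlam v σ hσ j).inv (hlc _))
      (fun i j hij => σ.injective (hinj (inv_injective hij))) hker (X' := O σ) (hO.good σ)
      (fun j => by rw [hO.mu σ j, hmu, inv_mul_cancel₀ (hlc _)])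
      (fun ψ => by
        rw [hO.opr σ]
        funext i
        exact opr_eq X ψ i)
    refine ⟨Z, h1, fun j => ?_, h3, h4⟩
    have h5 := h2 j
    rwa [inv_mul_eq_one₀ (hlp j), eq_comm] at h5
  obtain ⟨v₀, hv₀⟩ := ht
  obtain ⟨σ₀, h1⟩ := hroot v₀ hv₀
  obtain ⟨Z, h2, h3, h4, h5⟩ := hlift v₀ hv₀ σ₀ h1
  have hinjS : Function.Injective fun j => mu m (Z j) := by
    intro i j hij
    have hij' : lam F (S i) = lam F (S j) := by
      rw [← h3, ← h3]
      exact hij
    have h6 := hlam v₀ σ₀ h1 i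
    rw [hij'] at h6
    exact σ₀.injective (hinj (h6.unique (hlam v₀ σ₀ h1 j)))
  refine ⟨Z, h2, h3, fun j hj i hi => ?_, fun v hv σ hσ => ?_⟩
  · have h6 : cor Z j i = tn m N τ t j i := by
      refine ap_inj (N := N) (fun ψ => ?_) hj i
      rw [← h4 ψ]
      funext i
      exact (opr_eq Z ψ i).symm
    rw [h6]
    unfold tn
    rw [Nat.mod_eq_of_lt hi]
    exact div_mul_cancel₀ _ (rs_ne hL hF hX hs hD ⟨v₀, hv₀⟩ hi)
  · obtain ⟨Z', h7, h8, h9, h10⟩ := hlift v hv σ hσ
    have h11 : Z = Z' := by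
      refine opr_inj h2 h7 (fun j => by rw [h3, h8]) hinjS ?_
      funext ψ
      rw [h4, h9]
    subst h11
    exact h10

end

private lemma exists_theta (F : Fam k L m) (s : Fin N → Place k L) (hA : ∀ j, val (s j) F.A ≠ 0) :
    ∃ θ : Fin N → k, Function.Injective θ ∧ (∀ l, θ l ≠ 0) ∧
      ∀ j l, ∏ i, val (s j) (F.B i) - θ l * val (s j) F.A ≠ 0 := by
  have hinf : Infinite k := IsAlgClosed.instInfinite
  let Bd : Set k := insert 0 (Set.range fun j : Fin N =>
    (∏ i, val (s j) (F.B i)) / val (s j) F.A)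
  have hBd : Bd.Finite := (Set.finite_range _).insert 0
  have hinf : Bdᶜ.Infinite := hBd.infinite_compl
  let e := hinf.natEmbedding
  refine ⟨fun j => (e j).1, fun i j h => ?_, fun j h => ?_, fun j l h => ?_⟩
  · exact Fin.ext (e.injective (Subtype.ext h))
  · apply (e j).2
    have h' : (e j).1 = 0 := h
    rw [h']
    exact Set.mem_insert _ _
  · apply (e l).2
    right
    refine ⟨j, ?_⟩
    simp only
    rw [div_eq_iff (hA j)]
    linear_combination h

private lemma exists_param {M : ℕ} (hM : 0 < M) (g : k) : ∃ η t : Om k, η ≠ 0 ∧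
    Transcendental k t ∧ η ^ M = 1 + algebraMap k (Om k) g * t ∧
    (∀ v : Place k (Om k), v.At (tt k) 0 → v.At η 1 ∧ v.At t 0) ∧
    (∀ v : Place k (Om k), v.At (tt k)⁻¹ 0 → v.At η⁻¹ 0 ∨ (g = 0 ∧ t ∉ v.ring)) := by
  by_cases hg : g = 0
  · refine ⟨1, tt k, one_ne_zero, VFP.tt_transc, by rw [hg]; simp, fun v hv => ⟨at_one v, hv⟩,
      fun v hv => ?_⟩
    refine Or.inr ⟨hg, ?_⟩
    have h1 : tt k ≠ 0 := by simpa using VFP.tt_ne (0 : k)
    have h2 := VFP.inv_not_mem hv (inv_ne_zero h1)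
    rwa [inv_inv] at h2
  · have hg' : algebraMap k (Om k) g ≠ 0 := (_root_.map_ne_zero _).2 hg
    have h1 : (1 : Om k) + tt k ≠ 0 := by
      intro h1
      apply VFP.tt_ne (-1 : k)
      rw [map_neg, map_one]
      exact (neg_eq_of_add_eq_zero_right h1).symm
    refine ⟨1 + tt k, ((1 + tt k) ^ M - 1) / algebraMap k (Om k) g, h1, ?_, ?_, fun v hv => ?_,
      fun v hv => Or.inl ?_⟩
    · intro hal
      apply VFP.tt_transc (k := k)
      have h2 : IsAlgebraic k ((1 + tt k) ^ M) := by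
        have h3 : (1 + tt k) ^ M = ((1 + tt k) ^ M - 1) / algebraMap k (Om k) g *
            algebraMap k (Om k) g + 1 := by
          rw [div_mul_cancel₀ _ hg']
          ring
        rw [h3]
        exact (hal.mul (isAlgebraic_algebraMap g)).add isAlgebraic_one
      have h4 : IsAlgebraic k (1 + tt k) := h2.of_pow hM
      have h5 : tt k = (1 + tt k) - 1 := by ring
      rw [h5]
      exact h4.sub isAlgebraic_one
    · field_simp
      ring
    · have h2 : v.At (1 + tt k) (1 : k) := by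
        have h3 := (at_one v).add hv
        rwa [add_zero] at h3
      refine ⟨h2, ?_⟩
      have h3 := ((h2.pow M).sub (at_one v)).div (Place.at_const (v := v) g) hg
      rwa [one_pow, sub_self, zero_div] at h3
    · have h0 : tt k ≠ 0 := by simpa using VFP.tt_ne (0 : k)
      have h2 := VFP.inv_not_mem hv (inv_ne_zero h0)
      rw [inv_inv] at h2
      refine VFP.inv_at_of_not_mem fun h3 => h2 ?_
      have h4 : tt k = 1 + tt k - 1 := by ring
      rw [h4]
      exact sub_mem h3 (one_mem _)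

end one

variable {k L : Type} [Field k] [IsAlgClosed k] [CharZero k] [Field L] [Algebra k L]
  {κ : Type} [Fintype κ] [DecidableEq κ] {m : κ → ℕ} {N : ℕ}

/-- **The rational curve through a state.** For `τ = 0` it is the given state with the points in any
order. For `τ = ∞` some point has the value `o`, or the coordinate `p_q0` has the value `0` or `∞`, or
some factor of a point with a good value has the value `1`. -/
theorem exists_curve (hL : IsCurve k L) {g' : ℕ} (hg' : Riemann hL g') {F : ∀ r, Fam k L (m r)}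
    {d : ∀ r, Fin (m r) → ℕ} (hF : ∀ r, (F r).Reg (d r)) {q0 : Ix m}
    (hM : 0 < (F q0.1).M q0.2) {o : Place k L}
    (ho : 0 < ord o ((F q0.1).C q0.2) + (F q0.1).E q0.2 o) (hm : ∀ r, 0 < m r)
    (hN : ∑ r, ∑ i, d r i + g' ≤ N)
    {s : Fin N → Place k L} (hs : ∀ r j, Bas (F r) (s j))
    (hinj : ∀ r, Function.Injective fun j => lamc (F r) (s j)) {X : κ → Fin N → ℕ → k}
    {O : κ → Equiv.Perm (Fin N) → Fin N → ℕ → k} (hX : ∀ r j, Good (m r) (X r j))
    (hmu : ∀ r j, mu (m r) (X r j) = lamc (F r) (s j)) (hO : ∀ r, Ords (m r) (X r) (O r))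
    {p : Ix m → k}
    (hp : ∀ r (i : Fin (m r)), p ⟨r, i⟩ ^ (F r).M i =
      (∏ j, (val (s j) ((F r).B i) / val (s j) ((F r).C i))) * ∏ j, (1 - X r j i)) :
    ∃ (τ η : Om k) (S : Fin N → Bp k L (Om k)) (Z : κ → Fin N → ℕ → Om k),
      Transcendental k τ ∧ η ≠ 0 ∧
      (∀ r j, (∀ i, ev ((F r).B i) (S j) ≠ 0 ∧ ev ((F r).C i) (S j) ≠ 0) ∧
        ev (F r).A (S j) ≠ 0) ∧
      (∀ r j, Good (m r) (Z r j)) ∧ (∀ r j, mu (m r) (Z r j) = lam (F r) (S j)) ∧
      (∀ r (i : Fin (m r)), (algebraMap k (Om k) (p ⟨r, i⟩) *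
          if (⟨r, i⟩ : Ix m) = q0 then η else 1) ^ (F r).M i =
        (∏ j, (ev ((F r).B i) (S j) / ev ((F r).C i) (S j))) * ∏ j, (1 - Z r j i)) ∧
      (∀ v : Place k (Om k), v.At τ 0 → v.At η 1 ∧ ∃ σ : Equiv.Perm (Fin N),
        (∀ j, Ovr v (S j) (s (σ j))) ∧ ∀ r j i, v.At (Z r j i) (O r σ j i)) ∧
      (∀ v : Place k (Om k), v.At τ⁻¹ 0 → (∃ j, Ovr v (S j) o) ∨ v.At η 0 ∨ v.At η⁻¹ 0 ∨
        ∃ (r : κ) (j : Fin N) (i : ℕ) (c : Place k L),
          Ovr v (S j) c ∧ Bas (F r) c ∧ v.At (Z r j i) 1) := by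
  classical
  have hBv : ∀ r j i, (s j).At ((F r).B i) (val (s j) ((F r).B i)) ∧
      val (s j) ((F r).B i) ≠ 0 := fun r j i => val_unit hL ((hF r).B0 i) ((hs r j).B i)
  have hCv : ∀ r j i, (s j).At ((F r).C i) (val (s j) ((F r).C i)) ∧
      val (s j) ((F r).C i) ≠ 0 := fun r j i => val_unit hL ((hF r).C0 i) ((hs r j).C i)
  have hAv : ∀ r j, (s j).At (F r).A (val (s j) (F r).A) ∧ val (s j) (F r).A ≠ 0 := fun r j =>
    val_unit hL (hF r).A0 (hs r j).A
  have hPv : ∀ r j, ∏ i, val (s j) ((F r).B i) ≠ 0 := fun r j =>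
    prod_ne_zero_iff.2 fun i _ => (hBv r j i).2
  have hsinj : Function.Injective s := fun i j hij =>
    hinj q0.1 (congrArg (lamc (F q0.1)) hij)
  have hso : ∀ j, s j ≠ o := by
    intro j hj
    rw [← hj, (hs q0.1 j).C, (hs q0.1 j).E] at ho
    exact lt_irrefl _ ho
  -- the degrees
  have hd0 : 0 < d q0.1 q0.2 := by
    have h1 := nmf_sum hL ((hF q0.1).C q0.2) ((hF q0.1).deg q0.2)
    have hmem : o ∈ (dv hL ((F q0.1).C q0.2) + (F q0.1).E q0.2).support := by
      rw [Finsupp.mem_support_iff, Finsupp.add_apply, dv_apply]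
      exact ho.ne'
    rw [← Finset.add_sum_erase _ _ hmem] at h1
    have h2 : 0 < (ord o ((F q0.1).C q0.2) + (F q0.1).E q0.2 o).toNat := by omega
    omega
  choose θ hθ hθ0 hθP using fun r => exists_theta (F r) s fun j => (hAv r j).2
  -- the pencil
  let T : Finset (Place k L) := univ.biUnion fun r => univ.biUnion fun i => ((F r).E i).support
  have hT : ∀ r i q, (F r).E i q ≠ 0 → q ∈ T := fun r i q hq =>
    mem_biUnion.2 ⟨r, mem_univ r, mem_biUnion.2 ⟨i, mem_univ i, Finsupp.mem_support_iff.2 hq⟩⟩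
  have hTs : ∀ j, s j ∉ T := by
    intro j hj
    obtain ⟨r, _, hr⟩ := mem_biUnion.1 hj
    obtain ⟨i, _, hi⟩ := mem_biUnion.1 hr
    exact Finsupp.mem_support_iff.1 hi ((hs r j).E i)
  have hTS : ∀ r q, (∑ i, (F r).E i) q ≠ 0 → q ∈ T := by
    intro r q hq
    rw [Finsupp.finsetSum_apply] at hq
    obtain ⟨i, _, hi⟩ := exists_ne_zero_of_sum_ne_zero hq
    exact hT r i q hi
  obtain ⟨φ, hφo, hpen⟩ := exists_pen hL hg' (ρ := ∑ r, ∑ i, d r i) hN hsinj hso T hTs
  -- the sections `∏ B i - θ A`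
  let Q : κ → Fin N → L := fun r l => ∏ i, (F r).B i - algebraMap k L (θ r l) * (F r).A
  have hQat : ∀ r j l, (s j).At (Q r l)
      (∏ i, val (s j) ((F r).B i) - θ r l * val (s j) (F r).A) := fun r j l =>
    (Place.At.prod fun i _ => (hBv r j i).1).sub ((Place.at_const _).mul (hAv r j).1)
  have hQ0 : ∀ r l, Q r l ≠ 0 := by
    intro r l h
    apply (hF r).indep (θ r l)⁻¹
    have h1 : ∏ i, (F r).B i = algebraMap k L (θ r l) * (F r).A := sub_eq_zero.1 h
    rw [h1, map_inv₀, inv_mul_cancel_left₀ ((_root_.map_ne_zero _).2 (hθ0 r l))]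
  have hQo : ∀ r j l, ord (s j) (Q r l) = 0 := fun r j l =>
    ord_of_at hL (hQat r j l) (hθP r j l)
  have hQr : ∀ r l q, 0 ≤ ord q (Q r l) + (∑ i, (F r).E i) q := by
    intro r l q
    have h2 : Q r l = ∏ i, (F r).B i + algebraMap k L (-θ r l) * (F r).A := by
      rw [map_neg, neg_mul, ← sub_eq_add_neg]
    have h1 : -((∑ i, (F r).E i) q) ≤ ord q (Q r l) := by
      rw [h2]
      refine le_ord_add hL (h2 ▸ hQ0 r l) (fun _ => ?_) fun _ => ?_
      · rw [ord_prod hL q univ (F r).B fun i _ => (hF r).B0 i, Finsupp.finsetSum_apply,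
          ← sum_neg_distrib]
        exact sum_le_sum fun i _ => by have := (hF r).B i q; omega
      · rw [ord_mul hL q ((_root_.map_ne_zero _).2 (neg_ne_zero.2 (hθ0 r l))) (hF r).A0,
          ord_const hL, zero_add]
        have := (hF r).A q
        omega
    omega
  have hdS : ∀ r, TInc.deg (∑ i, (F r).E i) = ((∑ i, d r i : ℕ) : ℤ) := by
    intro r
    rw [deg_sum, sum_congr rfl fun i _ => (hF r).deg i]
    push_cast
    rfl
  -- the norms
  let PB : ∀ r, Fin (m r) → MvPolynomial (Fin (∑ r, ∑ i, d r i)) k[X] := fun r i =>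
    nmf hL φ s ((F r).E i) ((F r).B i)
  let PC : ∀ r, Fin (m r) → MvPolynomial (Fin (∑ r, ∑ i, d r i)) k[X] := fun r i =>
    nmf hL φ s ((F r).E i) ((F r).C i)
  let PA : κ → Fin N → MvPolynomial (Fin (∑ r, ∑ i, d r i)) k[X] := fun r l =>
    nmf hL φ s (∑ i, (F r).E i) (Q r l)
  let c0 : ∀ r, Fin (m r) → k := fun r i => W0 (F r) s (X r) i / ∏ j, val (s j) ((F r).C i)
  have hCs : ∀ r i, ∏ j, val (s j) ((F r).C i) ≠ 0 := fun r i =>
    prod_ne_zero_iff.2 fun j _ => (hCv r j i).2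
  have hmul : ∀ r j, mu (m r) (X r j) * ∏ i, val (s j) ((F r).B i) = val (s j) (F r).A := by
    intro r j
    rw [hmu]
    exact div_mul_cancel₀ _ (hPv r j)
  have hinjX : ∀ r, Function.Injective fun j => mu (m r) (X r j) := by
    intro r i j hij
    apply hinj r
    show lamc (F r) (s i) = lamc (F r) (s j)
    rw [← hmu, ← hmu]
    exact hij
  obtain ⟨z, g, τ, hD⟩ := exists_isDf (N := N) (q0 := q0) hd0 (PB := PB) (PC := PC) (PA := PA)
    (fun r i => nmf_isNm hL φ s ((hF r).B i) ((hF r).deg i))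
    (cC := fun r i => ∏ j, val (s j) ((F r).C i)) (fun r i => by
      split_ifs with hi
      · subst hi
        exact nmf_isNm' hL s ((hF r).C i) ((hF r).deg i) ho hφo
      · exact nmf_isNm hL φ s ((hF r).C i) ((hF r).deg i))
    (fun r l => nmf_isNm hL φ s (hQr r l) (hdS r)) le_rfl (θ := θ)
    (T := fun r => T0 (F r) s (X r)) (c := c0)
    (fun r i => by
      show Wr (fun j i => val (s j) ((F r).B i)) (X r) i * cor (X r) 0 i = _
      rw [cor_zero, Wr_fin, ← prod_mul_distrib]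
      refine prod_congr rfl fun j _ => ?_
      rw [mul_assoc, mul_inv_cancel₀ (sub_ne_zero.2 ((hX r j).ne1 i).symm), mul_one])
    (fun r i => by
      have h1 : ∑ j ∈ range (N + 1), T0 (F r) s (X r) j i = W0 (F r) s (X r) i := by
        show ∑ j ∈ range (N + 1), W0 (F r) s (X r) i * cor (X r) j i = W0 (F r) s (X r) i
        rw [← mul_sum, cor_sum fun j => (hX r j).ne1, mul_one]
      rw [h1]
      exact (div_mul_cancel₀ _ (hCs r i)).symm)
    (fun r l => by
      have h1 := det_st (hm r) (b := fun j i => val (s j) ((F r).B i))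
        (a := fun j => val (s j) (F r).A) (hX r)
        (fun j i => (hBv r j i).2) (fun j => (hAv r j).2) (hmul r) (hinjX r) (θ r l)
      refine Eq.trans h1 ?_
      exact prod_congr rfl fun j _ => (val_eq (hQat r j l)).symm)
  obtain ⟨η, t, hη, htt, hηt, ht0, htp⟩ := exists_param hM g
  obtain ⟨v₀, hv₀⟩ := ZCyc.exists_place (VFP.tt_transc (k := k)) (0 : k)
  obtain ⟨S, γ, hγ, hγ0, hγa, hnorm, hzero, hpole, hconst⟩ := hpen z t htt
  have hex : ∃ v : Place k (Om k), v.At t 0 := ⟨v₀, (ht0 v₀ hv₀).2⟩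
  obtain ⟨π₀, hπ₀⟩ := hzero v₀ (ht0 v₀ hv₀).2
  have hP : ∀ r, IsPt (F r) s (fun i => (PB r i).eval fun n => C (z n))
      (fun i => (PC r i).eval fun n => C (z n)) (fun l => (PA r l).eval fun n => C (z n))
      (θ r) t S (fun i => γ ((F r).E i)) := by
    intro r
    refine ⟨fun i => hγ _, fun i => ?_, fun i => ?_, fun l => ?_, hzero⟩
    · exact (hnorm ((F r).E i) ((F r).B i) (hT r i) ((hF r).B0 i)
        (fun j => (hs r j).B i) ((hF r).B i)).symm
    · exact (hnorm ((F r).E i) ((F r).C i) (hT r i) ((hF r).C0 i)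
        (fun j => (hs r j).C i) ((hF r).C i)).symm
    · have h1 := hnorm (∑ i, (F r).E i) (Q r l) (hTS r) (hQ0 r l) (fun j => hQo r j l)
        (hQr r l)
      rw [gauge_sum hγ0 hγa] at h1
      rw [← prod_congr rfl fun j _ => evp_sub hL (hF r) (hπ₀ j) (hs r _) (θ r l)]
      exact h1.symm
  have hD1 : ∀ r, IsD1 (fun i => (PB r i).eval fun n => C (z n))
      (fun l => (PA r l).eval fun n => C (z n)) (θ r) (T0 (F r) s (X r)) (τ r) := fun r =>
    ⟨hD.ev r, hD.row0 r, hD.det r⟩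
  choose hB Z h1 h2 h3 h4 using fun r => exists_fact hL (hF r) (hθ r) (hθ0 r) (hm r) (hs r)
    (hinj r) (hX r) (hmu r) (hO r) (hD1 r) (hP r) hex
  -- the sum of a row
  have hrs : ∀ r (i : Fin (m r)), rs N (τ r) t i = algebraMap k (Om k) (c0 r i) *
      (γ ((F r).E i) * ∏ j, ev ((F r).C i) (S j)) *
        (if (⟨r, i⟩ : Ix m) = q0 then η ^ (F q0.1).M q0.2 else 1) := by
    intro r i
    have h5 := congrArg (aeval t : k[X] →ₐ[k] Om k) (hD.sum r i)
    rw [map_sum, map_mul, map_mul, aeval_C] at h5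
    have h6 : rs N (τ r) t i = ∑ j ∈ range (N + 1), aeval t (τ r j i) := rfl
    rw [h6, h5]
    have h7 : aeval t ((PC r i).eval fun n => C (z n)) =
        γ ((F r).E i) * ∏ j, ev ((F r).C i) (S j) := (hP r).C i
    rw [h7]
    congr 1
    split_ifs with h8
    · rw [hηt]
      simp
    · simp
  refine ⟨tt k, η, S, Z, VFP.tt_transc, hη, hB, h1, h2, fun r i => ?_, fun v hv => ?_,
    fun v hv => ?_⟩
  · -- the products
    have h6 := h3 r 0 (Nat.zero_le _) i i.isLt
    rw [cor_zero, row0_t (hD1 r) (hP r) i, prod_inv_distrib] at h6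
    have h7 : ∏ j, (1 - Z r j i) ≠ 0 := prod_ne_zero_iff.2 fun j _ =>
      sub_ne_zero.2 ((h1 r j).ne1 i).symm
    have h8 : γ ((F r).E i) * ((∏ j, ev ((F r).B i) (S j)) * ∏ j, (1 - Z r j i)) =
        rs N (τ r) t i := by
      have h6' : (∏ j, (1 - Z r j i))⁻¹ * rs N (τ r) t i =
          γ ((F r).E i) * ∏ j, ev ((F r).B i) (S j) := h6
      rw [← mul_assoc, ← h6', mul_right_comm, inv_mul_cancel₀ h7, one_mul]
    have h9 : ∏ j, ev ((F r).C i) (S j) ≠ 0 :=
      prod_ne_zero_iff.2 fun j _ => ((hB r j).1 i).2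
    have h11 : p ⟨r, i⟩ ^ (F r).M i = c0 r i := by
      rw [hp r i]
      show _ = Wr (fun j i => val (s j) ((F r).B i)) (X r) i / _
      rw [prod_div_distrib, Wr_fin, prod_mul_distrib, div_mul_eq_mul_div]
    rw [hrs r i] at h8
    rw [prod_div_distrib, div_mul_eq_mul_div, eq_div_iff h9, mul_pow, ← map_pow, h11]
    have h12 : (if (⟨r, i⟩ : Ix m) = q0 then η ^ (F q0.1).M q0.2 else 1 : Om k) =
        (if (⟨r, i⟩ : Ix m) = q0 then η else 1) ^ (F r).M i := by
      split_ifs with h13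
      · rw [← h13]
      · exact (one_pow _).symm
    rw [h12] at h8
    refine mul_left_cancel₀ (hγ ((F r).E i)) ?_
    rw [h8]
    ring
  · obtain ⟨σ, hσ⟩ := hzero v (ht0 v hv).2
    exact ⟨(ht0 v hv).1, σ, hσ, fun r => h4 r v (ht0 v hv).2 σ hσ⟩
  · rcases htp v hv with h5 | ⟨hg, h5⟩
    · exact Or.inr (Or.inr (Or.inl h5))
    by_cases hh0 : z = 0
    swap
    · exact Or.inl (hpole hh0 v h5)
    refine Or.inr (Or.inr (Or.inr ?_))
    obtain ⟨r, j, hj, i, hi', hτ⟩ := (hD.ne.resolve_left fun h6 => h6 hh0).resolve_left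
      fun h6 => h6 hg
    -- the sums of the rows are constant
    have h6 : rs N (τ r) t i ∈ v.ring := by
      have h7 : rs N (τ r) t i = aeval t (∑ j ∈ range (N + 1), τ r j i) := by
        rw [map_sum]
        rfl
      have h8 := hD.sum r ⟨i, hi'⟩
      have h9 : (if (⟨r, ⟨i, hi'⟩⟩ : Σ r, Fin (m r)) = q0 then 1 + C g * Polynomial.X else 1 :
          k[X]) = 1 := by
        rw [hg, map_zero, zero_mul, add_zero, ite_self]
      have h10 : ((PC r ⟨i, hi'⟩).eval fun n => C (z n)) =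
          C (∏ j, val (s j) ((F r).C ⟨i, hi'⟩)) := by
        have h11 : (fun n : Fin (∑ r, ∑ i, d r i) => (C (z n) : k[X])) = 0 := by
          funext n
          rw [hh0]
          simp
        rw [h11]
        exact (nmf_isNm hL φ s ((hF r).C _) ((hF r).deg _)).zero
      rw [h9, mul_one, h10, ← C_mul] at h8
      have h12 : ∑ j ∈ range (N + 1), τ r j i =
          C (c0 r ⟨i, hi'⟩ * ∏ j, val (s j) ((F r).C ⟨i, hi'⟩)) := h8
      rw [h7, h12, aeval_C]
      exact (Place.at_const (v := v) _).mem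
    have h7 : evt (τ r) t j i ∉ v.ring := by
      refine VFP.aeval_not_mem h5 fun h8 => ?_
      rw [h8, natDegree_C] at hτ
      exact lt_irrefl 0 hτ
    have h8 : cor (Z r) j i ∉ v.ring := by
      intro h9
      apply h7
      rw [← h3 r j hj i hi']
      exact mul_mem h9 h6
    obtain ⟨l, i', h9⟩ : ∃ l i', (1 - Z r l i')⁻¹ ∉ v.ring := by
      by_contra hcon
      push Not at hcon
      exact h8 (cor_mem (fun j => (h1 r j).ne1) hcon j i)
    have h10 := VFP.inv_at_of_not_mem h9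
    rw [inv_inv] at h10
    have h11 : v.At (Z r l i') 1 := by
      have h12 := (at_one v).sub h10
      rwa [sub_sub_cancel, sub_zero] at h12
    refine ⟨r, l, i', s l, ?_, hs r l, h11⟩
    rw [hconst hh0 l]
    rfl

end Pool.Agent.HGP
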