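import Pool.Agent.HGF.Val
import Pool.Agent.EFC.Util

/-!
# Zero-cycles on fibre products over a curve of hypersurfaces `∏ (B_i(s) - C_i(s) u_i ^ M_i) = A(s)`

`k` is an algebraically closed field of characteristic zero, and `L` is the function field of a smooth
projective curve `C` over `k`. The points of `C` are the places of `L`. A point of the projective line
over a field `K` is an element of `Option K` (`none` is the point at infinity, see `HGF.fst`, `HGF.snd`).
A component is a hypersurface `Y_r` in the product of `C` and of `m r` projective lines with the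
coordinates `u_(r, i)`; `X` is the fibre product over `C` of the components. For `m r = 1` the component
is a cyclic covering of `C`.

1. `Bp k L K`: the points of `C` over an extension field `K` of `k`. `vb v s`: the value of a point of
`C` over `K` at a place `v` of `K`.
2. `sv E f s`: the value of the section `f` of the line bundle `O(E)` at the point `s`.
3. `OnY F s u`: the point `(s, u)` lies on the hypersurface. `OnX F s u`: it lies on the fibre product.
4. Class functions `E s u` of `N` points `(s_j, u_j)` of `X` (`IsCF`), which are eigenfunctions for the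
multiplication of the coordinates `u_(r, i)` by roots of unity (`IsEig`).
-/

set_option autoImplicit false

noncomputable section

namespace Pool.Agent.HGP

open Pool.Agent.ZCyc Pool.Agent.Dess Pool.Agent.GT Pool.Agent.TInc Pool.Agent.HGF
open Pool.Agent.EFC (unif genus sections)
open scoped Classical

section Curves

variable {k : Type} [Field k]

instance {L : Type} [Field L] [Algebra k L] [h : Fact (IsCurve k L)] : Nonempty (Place k L) := by
  obtain ⟨t, ht, -⟩ := h.out
  exact ⟨(exists_place ht 0).choose⟩

variable {L : Type} [Field L] [Algebra k L]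

/-- The points over `K` of the curve with the function field `L`: the generic point is given by an
embedding of `L` into `K`, and the constant points are the points over `k`. -/
abbrev Bp (k L K : Type) [Field k] [Field L] [Algebra k L] [Field K] [Algebra k K] : Type :=
  (L →ₐ[k] K) ⊕ Place k L

/-- the constant points -/
abbrev cp {k L : Type} [Field k] [Field L] [Algebra k L] (K : Type) [Field K] [Algebra k K]
    (c : Place k L) : Bp k L K := Sum.inr c

/-- The value at the place `v` of a point over `K` of the curve: for an embedding this is the place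
of `L` below `v`. -/
def vb [Fact (IsCurve k L)] {K : Type} [Field K] [Algebra k K] (v : Place k K) (s : Bp k L K) :
    Place k L :=
  s.elim (fun σ => Classical.epsilon fun c : Place k L => c.ring = v.ring.comap σ.toRingHom) id

/-- The value of the section `f` of the line bundle `O(E)` at the point `s`. In a neighbourhood of the
point `c` of the curve the function `f` is multiplied by `π ^ E(c)`, where `π` is a uniformizer at
`c`. -/
def sv (E : Place k L →₀ ℤ) (f : L) {K : Type} [Field K] [Algebra k K] (s : Bp k L K) : K :=
  s.elim (fun σ => σ f) fun c => algebraMap k K (val c (f * unif c ^ E c))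

/-- the data of a hypersurface `∏ (B_i(s) - C_i(s) u_i ^ M_i) = A(s)` over the curve -/
structure Fam (k L : Type) [Field k] [Field L] [Algebra k L] (m : ℕ) where
  /-- the divisors of the line bundles `O(E_i)` -/
  E : Fin m → Place k L →₀ ℤ
  /-- the sections `B_i` of `O(E_i)` -/
  B : Fin m → L
  /-- the sections `C_i` of `O(E_i)` -/
  C : Fin m → L
  /-- the section `A` of `O(∑ E_i)` -/
  A : L
  /-- the exponents -/
  M : Fin m → ℕ

variable {m : ℕ}

/-- the divisor `∑ E_i` -/
def Fam.S (F : Fam k L m) : Place k L →₀ ℤ := ∑ i, F.E i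

/-- the assumptions: the functions are sections of the line bundles, all of them are different from
zero and `A` is not a multiple of `∏ B_i` -/
structure Fam.Adm (F : Fam k L m) : Prop where
  one : 0 < m
  M0 : ∀ i, 0 < F.M i
  secB : ∀ i, F.B i ∈ sections (F.E i)
  secC : ∀ i, F.C i ∈ sections (F.E i)
  secA : F.A ∈ sections F.S
  B0 : ∀ i, F.B i ≠ 0
  C0 : ∀ i, F.C i ≠ 0
  A0 : F.A ≠ 0
  indep : ∀ c : k, F.A ≠ c • ∏ i, F.B i

/-- the points of the hypersurface over an extension field -/
def OnY (F : Fam k L m) {K : Type} [Field K] [Algebra k K] (s : Bp k L K)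
    (u : Fin m → Option K) : Prop :=
  ∏ i, (sv (F.E i) (F.B i) s * snd (u i) ^ F.M i - sv (F.E i) (F.C i) s * fst (u i) ^ F.M i) =
    sv F.S F.A s * ∏ i, snd (u i) ^ F.M i

end Curves

/-! ### Fibre products -/

section Products

variable {k : Type} [Field k] {L : Type} [Field L] [Algebra k L] {κ : Type} [Fintype κ] {m : κ → ℕ}

/-- the index set of the coordinates `u_(r, i)` -/
abbrev Ix {κ : Type} (m : κ → ℕ) : Type := Σ r, Fin (m r)

/-- the coordinates of one component -/
abbrev cmp {α : Type} (u : Ix m → α) (r : κ) : Fin (m r) → α := fun i => u ⟨r, i⟩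

/-- the points of the fibre product over an extension field -/
def OnX (F : ∀ r, Fam k L (m r)) {K : Type} [Field K] [Algebra k K] (s : Bp k L K)
    (u : Ix m → Option K) : Prop := ∀ r, OnY (F r) s (cmp u r)

/-- the exponents -/
def MX (F : ∀ r, Fam k L (m r)) (q : Ix m) : ℕ := (F q.1).M q.2

/-- the degree of the sum of all `E_(r, i)` -/
def degX [Fintype κ] (F : ∀ r, Fam k L (m r)) : ℤ := ∑ r, TInc.deg (F r).S

/-- the coordinate `q` of the point `j` is multiplied by `ζ` -/
def rot {N : ℕ} {Q : Type} (j : Fin N) (q : Q) (ζ : k) (u : Fin N → Q → Option k) :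
    Fin N → Q → Option k :=
  Function.update u j (Function.update (u j) q ((u j q).map fun w => ζ * w))

/-- `E` is a class function of `N` points of the fibre product -/
def IsCF [IsAlgClosed k] [CharZero k] [Fact (IsCurve k L)] (F : ∀ r, Fam k L (m r)) {N : ℕ}
    {W : Type} [AddCommGroup W] (E : (Fin N → Place k L) → (Fin N → Ix m → Option k) → W) : Prop :=
  ∀ (K : Type) [Field K] [Algebra k K] (hK : IsCurve k K) (s : Fin N → Bp k L K)
    (u : Fin N → Ix m → Option K) (f : K), f ≠ 0 → (∀ j, OnX F (s j) (u j)) →
    ((TInc.dv hK f).sum fun v a => a • E (fun j => vb v (s j)) (fun j q => vlo v (u j q))) = 0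

/-- `E` is a class function of the coordinates of `N` points of one component, for fixed points `s j`
of the curve -/
def IsCFs [IsAlgClosed k] [CharZero k] {m : ℕ} (F : Fam k L m) {N : ℕ} (s : Fin N → Place k L)
    {W : Type} [AddCommGroup W] (E : (Fin N → Fin m → Option k) → W) : Prop :=
  ∀ (K : Type) [Field K] [Algebra k K] (hK : IsCurve k K)
    (u : Fin N → Fin m → Option K) (f : K), f ≠ 0 → (∀ j, OnY F (Sum.inr (s j) : Bp k L K) (u j)) →
    ((TInc.dv hK f).sum fun v a => a • E (fun j i => vlo v (u j i))) = 0

/-- `E` is an eigenfunction: the factor is `ζ ^ b_q` if a coordinate `u_q` is multiplied by `ζ` -/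
def IsEig {L : Type} [Field L] [Algebra k L] {Q : Type} (M b : Q → ℕ) {N : ℕ} {W : Type}
    [AddCommGroup W] [Module k W]
    (E : (Fin N → Place k L) → (Fin N → Q → Option k) → W) : Prop :=
  ∀ s u j q (ζ : k), ζ ^ M q = 1 → E s (rot j q ζ u) = ζ ^ b q • E s u

/-- the same for a function of the coordinates -/
def IsEigs {Q : Type} (M b : Q → ℕ) {N : ℕ} {W : Type} [AddCommGroup W] [Module k W]
    (E : (Fin N → Q → Option k) → W) : Prop :=
  ∀ u j q (ζ : k), ζ ^ M q = 1 → E (rot j q ζ u) = ζ ^ b q • E u

/-- The alternating or the symmetric sum over the permutations of the points: the sign is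
`sgn ^ (n + 1)`, where `n = 1 + ∑ (m r - 1)` is the dimension. -/
def AE {L : Type} [Field L] [Algebra k L] (m : κ → ℕ) {Q : Type} {N : ℕ} {W : Type}
    [AddCommGroup W] (E : (Fin N → Place k L) → (Fin N → Q → Option k) → W)
    (s : Fin N → Place k L) (u : Fin N → Q → Option k) : W :=
  ∑ π : Equiv.Perm (Fin N), ((Equiv.Perm.sign π : ℤ) ^ (∑ r, (m r + 1))) •
    E (fun j => s (π j)) fun j => u (π j)

/-- **Vanishing theorem** for `N = ∑ deg E_(r, i) + g` points. -/
def Vanish [IsAlgClosed k] [CharZero k] [Fact (IsCurve k L)] (F : ∀ r, Fam k L (m r)) : Prop :=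
  ∀ (N : ℕ), (N : ℤ) = degX F + genus k L →
    ∀ (W : Type) [AddCommGroup W] [Module k W] (b : Ix m → ℕ)
    (E : (Fin N → Place k L) → (Fin N → Ix m → Option k) → W),
    (∀ q, 0 < b q ∧ b q < MX F q) → IsCF F E → IsEig (MX F) b E →
    ∀ s u, (∀ j, OnX F (Sum.inr (s j) : Bp k L k) (u j)) → AE m E s u = 0

end Products

/-! ### Interior points -/

section Interior

variable {k : Type} [Field k] {L : Type} [Field L] [Algebra k L] {m : ℕ}

/-- the value of a function at a point of the curve -/
def ev (f : L) {K : Type} [Field K] [Algebra k K] (s : Bp k L K) : K :=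
  s.elim (fun σ => σ f) fun c => algebraMap k K (val c f)

/-- the good points of the curve: the `B_i`, `C_i` and `A` are different from zero, and the divisors
are zero -/
structure Bas (F : Fam k L m) (c : Place k L) : Prop where
  E : ∀ i, F.E i c = 0
  B : ∀ i, ord c (F.B i) = 0
  C : ∀ i, ord c (F.C i) = 0
  A : ord c F.A = 0

/-- the good points of the curve over an extension field -/
def Base (F : Fam k L m) {K : Type} [Field K] [Algebra k K] (s : Bp k L K) : Prop :=
  ∀ c, s = Sum.inr c → Bas F c

/-- the interior points of `Y`: the points with a good point of the curve and finite `u_i` different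
from zero -/
structure Int (F : Fam k L m) {K : Type} [Field K] [Algebra k K] (s : Bp k L K) (w : Fin m → K) :
    Prop where
  onY : ∏ i, (ev (F.B i) s - ev (F.C i) s * w i ^ F.M i) = ev F.A s
  base : Base F s
  w : ∀ i, w i ≠ 0

/-- the coordinates `x_i = 1 - C_i(s) u_i ^ M_i / B_i(s)` -/
def xx (F : Fam k L m) {K : Type} [Field K] [Algebra k K] (s : Bp k L K) (w : Fin m → K)
    (i : Fin m) : K :=
  1 - ev (F.C i) s * w i ^ F.M i / ev (F.B i) s

/-- the parameter `A(s) / ∏ B_i(s)` -/
def lam (F : Fam k L m) {K : Type} [Field K] [Algebra k K] (s : Bp k L K) : K :=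
  ev F.A s / ∏ i, ev (F.B i) s

end Interior

end Pool.Agent.HGP
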