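import Pool.Agent.HGP.KTwo

/-!
# The filtration has the properties of a Bloch-Beilinson filtration
-/

set_option autoImplicit false

noncomputable section

namespace Pool.Agent.HGP

open Pool.Agent.ZCyc Pool.Agent.Dess Pool.Agent.GT Pool.Agent.TInc Pool.Agent.HGF
open scoped Classical

variable {k : Type} [Field k] [IsAlgClosed k] [CharZero k] {ι : Type}

theorem isBB_fil (C : ι → Crv k) : IsBB C (fun _ X ν => Fil X ν) where
  rat := fun _ _ ν hX => ratP_fil hX ν
  anti := fun _ _ ν _ => fil_anti ν
  zero := fun _ _ _ _ => fil_zero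
  top := fun _ _ hX => fil_top hX
  map := fun _ _ _ _ ν γ hX hY => by
    rintro _ ⟨z, hz, rfl⟩
    exact fil_map hX hY γ hz
  grad := fun _ _ _ _ ν γ hX hY hγ => by
    rintro _ ⟨z, hz, rfl⟩
    exact fil_grad hX hY hγ hz
  one := fun _ _ _ hX => fil_one hX
  two := fun _ _ _ hX => fil_two hX

end Pool.Agent.HGP
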