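import Pool.Agent.HGP.Mov
import Pool.Agent.HGP.Eig

/-!
# Functions which are invariant under the rotations of one coordinate

Port of `Pool/Agent/HGFC/Ind.lean` to class functions `E u` of the coordinates of one component for
fixed points `s j` of the curve (`IsCFs F s E`).

1. `bridges`: comparison of two values of the parameter, as `bridge` in `HGP/Mov.lean`.
2. `ind_coord`: two points which differ only in the coordinate `u_i`. The equation of the component is
`α * snd (u_i) ^ M_i = β * fst (u_i) ^ M_i`, where `α`, `β` do not depend on `u_i`. If they are not both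
zero then the coordinates agree up to a rotation, otherwise all values are allowed: use a path.
3. `ind`: for `l ≠ i` take paths in the projective line from the coordinates of the first point to those
of the second point, and solve the equation for `u_i`.
-/

set_option autoImplicit false
set_option linter.unusedSectionVars false

noncomputable section

namespace Pool.Agent.HGP

open Pool.Agent.ZCyc Pool.Agent.Dess Pool.Agent.GT Pool.Agent.TInc Pool.Agent.HGF
open Pool.Agent.VFP (Om tt)
open scoped Classical

variable {k : Type} [Field k] [IsAlgClosed k] [CharZero k] {L : Type} [Field L] [Algebra k L]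
  [hL : Fact (IsCurve k L)] {m : ℕ} {F : Fam k L m} {N : ℕ} {W : Type} [AddCommGroup W]
  [Module k W] {s : Fin N → Place k L} {E : (Fin N → Fin m → Option k) → W}

/-! ### Comparison of two values of the parameter -/

omit [IsAlgClosed k] [CharZero k] in
private theorem mov_vanishes {K : IntermediateField k (Om k)} {V : Place k (Om k)}
    {c : Place k K} (h : V.ring.comap (K.val : K →+* Om k) = c.ring) (f : K) :
    V.Vanishes (f : Om k) ↔ c.Vanishes f := by
  rw [Place.vanishes_iff_or, Place.vanishes_iff_or, ← h, ValuationSubring.mem_comap]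
  constructor
  · rintro (h1 | h1)
    · left
      exact Subtype.ext h1
    · right
      exact h1
  · rintro (h1 | h1)
    · left
      rw [h1]
      rfl
    · right
      exact h1

/-- comparison of two values of the parameter for functions on the set of places -/
private theorem bridge_core {K : IntermediateField k (Om k)} (hK : IsCurve k K) (htt : tt k ∈ K)
    (Lm : Place k (Om k) → W) (Λ : Place k K → W)
    (hlim : ∀ (V : Place k (Om k)) (c : Place k K),
      V.ring.comap (K.val : K →+* Om k) = c.ring → Lm V = Λ c)
    (hrel : ∀ f : K, f ≠ 0 → ((TInc.dv hK f).sum fun v a => a • Λ v) = 0) {c₀ c₁ : k}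
    {C₀ C₁ : W} (h₀ : ∀ v : Place k (Om k), v.At (tt k) c₀ → Lm v = C₀)
    (h₁ : ∀ v : Place k (Om k), v.At (tt k) c₁ → Lm v = C₁) : C₀ = C₁ := by
  have : HasRes k K := hasRes_of_isCurve hK
  set τ : K := ⟨tt k, htt⟩ with hτ
  have hτt : Transcendental k τ := by
    intro h
    apply Pool.Agent.VFP.tt_transc (k := k)
    have h1 := (isAlgebraic_algHom_iff K.val (K.val : K →+* Om k).injective).2 h
    exact h1
  -- the two functions
  let f : k → K := fun c => τ - algebraMap k K c
  have hft : ∀ c, Transcendental k (f c) := by
    intro c h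
    apply hτt
    have h1 : τ = f c + algebraMap k K c := by
      change τ = τ - algebraMap k K c + algebraMap k K c
      ring
    rw [h1]
    exact h.add (isAlgebraic_algebraMap c)
  have hf0 : ∀ c, f c ≠ 0 := by
    intro c h
    apply hft c
    rw [h]
    exact isAlgebraic_zero
  have hadj : ∀ c, IntermediateField.adjoin k {f c} = IntermediateField.adjoin k {τ} := by
    intro c
    apply le_antisymm
    · rw [IntermediateField.adjoin_simple_le_iff]
      exact sub_mem (IntermediateField.mem_adjoin_simple_self k τ)
        (IntermediateField.algebraMap_mem _ c)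
    · rw [IntermediateField.adjoin_simple_le_iff]
      have h1 : τ = f c + algebraMap k K c := by
        change τ = τ - algebraMap k K c + algebraMap k K c
        ring
      have h2 : f c + algebraMap k K c ∈ IntermediateField.adjoin k {f c} :=
        add_mem (IntermediateField.mem_adjoin_simple_self k (f c))
          (IntermediateField.algebraMap_mem _ c)
      rw [← h1] at h2
      exact h2
  set d : ℕ := Module.finrank (IntermediateField.adjoin k {τ}) K with hd
  have hdpos : 0 < d := by
    have := fin_adjoin hK hτt
    exact Module.finrank_pos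
  let S : k → Finset (Place k K) := fun c =>
    (finite_ord hK (f c)).toFinset.filter fun v => v.Vanishes (f c)
  have hS : ∀ c v, v ∈ S c ↔ v.Vanishes (f c) := by
    intro c v
    rw [Finset.mem_filter, Set.Finite.mem_toFinset]
    constructor
    · exact fun h => h.2
    · intro h
      have h1 := (vanishes_iff_ord hK (hf0 c)).1 h
      exact ⟨ne_of_gt h1, h⟩
  have hdeg : ∀ c, ∑ v ∈ S c, ord v (f c) = d := by
    intro c
    rw [deg_zeros' hK (hft c) (S c) (hS c), hadj c]
  -- the limits at the zeros
  have hlimS : ∀ (c : k) (C : W), (∀ v : Place k (Om k), v.At (tt k) c → Lm v = C) →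
      ∀ v, v.Vanishes (f c) → Λ v = C := by
    intro c C hC v hv
    obtain ⟨V, hV⟩ := exists_above hK v K.val
    rw [← hlim V v hV]
    apply hC
    have h1 := (mov_vanishes hV (f c)).2 hv
    exact h1
  -- the orders at the poles agree
  have hpole : ∀ (a b : k) (v : Place k K), ord v (f a) < 0 → ord v (f b) = ord v (f a) := by
    intro a b v hv
    have h1 : f b = f a + algebraMap k K (a - b) := by
      change τ - algebraMap k K b = τ - algebraMap k K a + algebraMap k K (a - b)
      rw [map_sub]
      ring
    rw [h1]
    refine (ord_add_eq hK (hf0 a) fun _ => ?_).2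
    rw [ord_const hK]
    exact hv
  let D : k → (Place k K →₀ ℤ) := fun c => TInc.dv hK (f c)
  let T : Finset (Place k K) := (D c₀).support ∪ (D c₁).support
  have hsum : ∀ c, (D c).support ⊆ T → ∑ v ∈ T, ord v (f c) • Λ v = 0 := by
    intro c hc
    have h1 := hrel (f c) (hf0 c)
    rw [Finsupp.sum_of_support_subset _ hc] at h1
    · exact h1
    · intro v _
      simp
  have hmax : ∀ c, (D c).support ⊆ T → ∑ v ∈ T, max (ord v (f c)) 0 = d := by
    intro c hc
    rw [← hdeg c]
    symm
    have hsub : S c ⊆ T := by
      intro v hv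
      apply hc
      rw [Finsupp.mem_support_iff]
      have h1 := (vanishes_iff_ord hK (hf0 c)).1 ((hS c v).1 hv)
      exact ne_of_gt h1
    rw [← Finset.sum_subset hsub]
    · refine Finset.sum_congr rfl fun v hv => ?_
      have h1 := (vanishes_iff_ord hK (hf0 c)).1 ((hS c v).1 hv)
      exact (max_eq_left h1.le).symm
    · intro v _ hv
      rw [hS, vanishes_iff_ord hK (hf0 c)] at hv
      exact max_eq_right (not_lt.1 hv)
  have hs0 := hsum c₀ Finset.subset_union_left
  have hs1 := hsum c₁ Finset.subset_union_right
  have hm0 := hmax c₀ Finset.subset_union_left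
  have hm1 := hmax c₁ Finset.subset_union_right
  have hterm : ∀ v, ord v (f c₀) • Λ v - ord v (f c₁) • Λ v =
      max (ord v (f c₀)) 0 • C₀ - max (ord v (f c₁)) 0 • C₁ := by
    intro v
    have e : ∀ (c : k) (C : W), (∀ v : Place k (Om k), v.At (tt k) c → Lm v = C) →
        max (ord v (f c)) 0 • C = max (ord v (f c)) 0 • Λ v := by
      intro c C hC
      by_cases hv : v.Vanishes (f c)
      · rw [hlimS c C hC v hv]
      · rw [vanishes_iff_ord hK (hf0 c)] at hv
        rw [max_eq_right (not_lt.1 hv), zero_smul, zero_smul]
    rw [e c₀ C₀ h₀, e c₁ C₁ h₁, ← sub_smul, ← sub_smul]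
    congr 1
    have h1 := hpole c₀ c₁ v
    have h2 := hpole c₁ c₀ v
    rcases lt_or_ge (ord v (f c₀)) 0 with h | h
    · rw [h1 h]
      simp
    · rcases lt_or_ge (ord v (f c₁)) 0 with h' | h'
      · rw [h2 h'] at h
        omega
      · rw [max_eq_left h, max_eq_left h']
  have hfin : (d : ℤ) • C₀ - (d : ℤ) • C₁ = 0 := by
    have h1 : ∑ v ∈ T, (ord v (f c₀) • Λ v - ord v (f c₁) • Λ v) = 0 := by
      rw [Finset.sum_sub_distrib, hs0, hs1, sub_zero]
    rw [Finset.sum_congr rfl fun v _ => hterm v, Finset.sum_sub_distrib, ← Finset.sum_smul,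
      ← Finset.sum_smul, hm0, hm1] at h1
    exact h1
  rw [← smul_sub, ← Int.cast_smul_eq_zsmul k] at hfin
  rcases smul_eq_zero.1 hfin with h | h
  · exfalso
    have : d = 0 := by exact_mod_cast h
    omega
  · exact sub_eq_zero.1 h

theorem bridges (hE : IsCFs F s E) {u : Fin N → Fin m → Option (Om k)}
    (hw : ∀ j, OnY F (Sum.inr (s j) : Bp k L (Om k)) (u j)) {c₀ c₁ : k} {C₀ C₁ : W}
    (h₀ : ∀ v : Place k (Om k), v.At (tt k) c₀ → E (fun j i => vlo v (u j i)) = C₀)
    (h₁ : ∀ v : Place k (Om k), v.At (tt k) c₁ → E (fun j i => vlo v (u j i)) = C₁) :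
    C₀ = C₁ := by
  obtain ⟨K, s', u', hK, -, htt, hon, hs', hu'⟩ := exists_def (κ := Unit) (m := fun _ => m)
    (F := fun _ => F) (fun j => (Sum.inr (s j) : Bp k L (Om k))) (fun j q => u j q.2)
    (fun j _ => hw j) ∅
  have hs : ∀ j, s' j = Sum.inr (s j) := by
    intro j
    have h1 := hs' j
    cases h2 : s' j with
    | inl σ =>
      rw [h2] at h1
      exact absurd h1 (by simp [bmap])
    | inr c =>
      rw [h2] at h1
      have h3 : (Sum.inr c : Bp k L (Om k)) = Sum.inr (s j) := h1
      rw [Sum.inr.inj h3]
  refine bridge_core hK htt (fun v => E (fun j i => vlo v (u j i)))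
    (fun v => E (fun j i => vlo v (u' j ⟨(), i⟩))) ?_ (fun f hf => ?_) h₀ h₁
  · intro V c hV
    have h2 : (fun j i => vlo V (u j i)) = fun j i => vlo c (u' j ⟨(), i⟩) := by
      funext j i
      have h3 := hu' j ⟨(), i⟩
      dsimp only at h3
      rw [← h3, vlo_alg hV]
    show E (fun j i => vlo V (u j i)) = _
    rw [h2]
  · refine hE K hK (fun j i => u' j ⟨(), i⟩) f hf fun j => ?_
    have h1 := hon j ()
    rw [hs] at h1
    exact h1

/-! ### The equation for one coordinate -/

/-- the product over the other coordinates -/
def gI (F : Fam k L m) {K : Type} [Field K] [Algebra k K] (i : Fin m) (s : Bp k L K)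
    (u : Fin m → Option K) : K :=
  ∏ l ∈ Finset.univ.erase i, (sv (F.E l) (F.B l) s * snd (u l) ^ F.M l -
    sv (F.E l) (F.C l) s * fst (u l) ^ F.M l)

/-- the coefficient `α` -/
def alI (F : Fam k L m) {K : Type} [Field K] [Algebra k K] (i : Fin m) (s : Bp k L K)
    (u : Fin m → Option K) : K :=
  sv (F.E i) (F.B i) s * gI F i s u -
    sv F.S F.A s * ∏ l ∈ Finset.univ.erase i, snd (u l) ^ F.M l

/-- the coefficient `β` -/
def beI (F : Fam k L m) {K : Type} [Field K] [Algebra k K] (i : Fin m) (s : Bp k L K)
    (u : Fin m → Option K) : K :=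
  sv (F.E i) (F.C i) s * gI F i s u

theorem onY_upd {K : Type} [Field K] [Algebra k K] (i : Fin m) (s : Bp k L K)
    (u : Fin m → Option K) (y : Option K) : OnY F s (Function.update u i y) ↔
      alI F i s u * snd y ^ F.M i = beI F i s u * fst y ^ F.M i := by
  have h1 : ∏ l ∈ Finset.univ.erase i, (sv (F.E l) (F.B l) s *
      snd (Function.update u i y l) ^ F.M l - sv (F.E l) (F.C l) s *
      fst (Function.update u i y l) ^ F.M l) = gI F i s u :=
    Finset.prod_congr rfl fun l hl => by
      rw [Function.update_of_ne (Finset.ne_of_mem_erase hl)]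
  have h2 : ∏ l ∈ Finset.univ.erase i, snd (Function.update u i y l) ^ F.M l =
      ∏ l ∈ Finset.univ.erase i, snd (u l) ^ F.M l :=
    Finset.prod_congr rfl fun l hl => by
      rw [Function.update_of_ne (Finset.ne_of_mem_erase hl)]
  unfold OnY alI beI
  rw [← Finset.mul_prod_erase Finset.univ _ (Finset.mem_univ i),
    ← Finset.mul_prod_erase Finset.univ (fun l => snd (Function.update u i y l) ^ F.M l)
      (Finset.mem_univ i), h1, h2, Function.update_self]
  constructor <;> intro h <;> linear_combination h

/-- over an algebraically closed field there is a point with given other coordinates -/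
theorem exists_onY {K : Type} [Field K] [Algebra k K] [IsAlgClosed K] (hM : ∀ i, 0 < F.M i)
    (i : Fin m) (s : Bp k L K) (u : Fin m → Option K) :
    ∃ y : Option K, OnY F s (Function.update u i y) := by
  by_cases hb : beI F i s u = 0
  · refine ⟨none, ?_⟩
    rw [onY_upd, hb, snd_none, zero_pow (hM i).ne', mul_zero, zero_mul]
  · obtain ⟨r, hr⟩ := IsAlgClosed.exists_pow_nat_eq (alI F i s u / beI F i s u) (hM i)
    refine ⟨some r, ?_⟩
    rw [onY_upd, snd_some, fst_some, one_pow, mul_one, hr, mul_div_cancel₀ _ hb]

private lemma al_om (i : Fin m) (s : Place k L) (u : Fin m → Option k) :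
    alI F i (Sum.inr s : Bp k L (Om k)) (fun l => (u l).map (algebraMap k (Om k))) =
      algebraMap k (Om k) (alI F i (Sum.inr s : Bp k L k) u) := by
  have h1 : ∀ x : Option k, fst (x.map (algebraMap k (Om k))) = algebraMap k (Om k) (fst x) :=
    fun x => fst_map (Algebra.ofId k (Om k)) x
  have h2 : ∀ x : Option k, snd (x.map (algebraMap k (Om k))) = algebraMap k (Om k) (snd x) :=
    fun x => snd_map (Algebra.ofId k (Om k)) x
  have h3 : ∀ (D : Place k L →₀ ℤ) (f : L), sv D f (Sum.inr s : Bp k L (Om k)) =
    algebraMap k (Om k) (sv D f (Sum.inr s : Bp k L k)) := fun D f => rfl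
  unfold alI gI
  simp only [h3, h1, h2, map_sub, map_mul, map_prod, map_pow]

private lemma be_om (i : Fin m) (s : Place k L) (u : Fin m → Option k) :
    beI F i (Sum.inr s : Bp k L (Om k)) (fun l => (u l).map (algebraMap k (Om k))) =
      algebraMap k (Om k) (beI F i (Sum.inr s : Bp k L k) u) := by
  have h1 : ∀ x : Option k, fst (x.map (algebraMap k (Om k))) = algebraMap k (Om k) (fst x) :=
    fun x => fst_map (Algebra.ofId k (Om k)) x
  have h2 : ∀ x : Option k, snd (x.map (algebraMap k (Om k))) = algebraMap k (Om k) (snd x) :=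
    fun x => snd_map (Algebra.ofId k (Om k)) x
  have h3 : ∀ (D : Place k L →₀ ℤ) (f : L), sv D f (Sum.inr s : Bp k L (Om k)) =
    algebraMap k (Om k) (sv D f (Sum.inr s : Bp k L k)) := fun D f => rfl
  unfold beI gI
  simp only [h3, h1, h2, map_sub, map_mul, map_prod, map_pow]

/-! ### Paths -/

/-- comparison of two values of a path in a fibre of `Y`, the other points are constant -/
private lemma path_fib (hE : IsCFs F s E) {u : Fin N → Fin m → Option k}
    (h : ∀ l, OnY F (Sum.inr (s l) : Bp k L k) (u l)) (j : Fin N) {U : Fin m → Option (Om k)}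
    (hSU : OnY F (Sum.inr (s j) : Bp k L (Om k)) U) {c₀ c₁ : k} {C₀ C₁ : W}
    (h₀ : ∀ v : Place k (Om k), v.At (tt k) c₀ →
      E (Function.update u j fun i => vlo v (U i)) = C₀)
    (h₁ : ∀ v : Place k (Om k), v.At (tt k) c₁ →
      E (Function.update u j fun i => vlo v (U i)) = C₁) :
    C₀ = C₁ := by
  have key : ∀ v : Place k (Om k),
      E (fun l i => vlo v (Function.update
          (fun l i => (u l i).map (algebraMap k (Om k))) j U l i)) =
      E (Function.update u j fun i => vlo v (U i)) := by
    intro v
    congr 1
    funext l i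
    by_cases hl : l = j
    · subst hl
      rw [Function.update_self, Function.update_self]
    · rw [Function.update_of_ne hl, Function.update_of_ne hl]
      exact vlo_const v _
  refine bridges hE
    (u := Function.update (fun l i => (u l i).map (algebraMap k (Om k))) j U)
    (c₀ := c₀) (c₁ := c₁) ?_ (fun v hv => ?_) (fun v hv => ?_)
  · intro l
    by_cases hl : l = j
    · subst hl
      rw [Function.update_self]
      exact hSU
    · rw [Function.update_of_ne hl]
      exact (onY_const (s l) (u l)).2 (h l)
  · rw [key]
    exact h₀ v hv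
  · rw [key]
    exact h₁ v hv

omit [IsAlgClosed k] [CharZero k] hL in
private lemma one_at' (v : Place k (Om k)) : v.At (1 : Om k) (1 : k) := by
  have h1 := Place.at_const (v := v) (1 : k)
  rwa [map_one] at h1

omit hL in
private lemma tt_ne' (c : k) : tt k - algebraMap k (Om k) c ≠ 0 := by
  intro h0
  obtain ⟨v', hv'⟩ := HYG.exists_place_tt (k := k) (c + 1)
  have h1 := hv'.sub (Place.at_const (v := v') c)
  rw [h0, add_sub_cancel_left] at h1
  have h2 : v'.At (0 : Om k) 0 := Place.at_zero_iff.2 v'.vanishes_zero
  exact one_ne_zero (h1.unique h2)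

omit hL in
private lemma pole_at {v : Place k (Om k)} {f g : Om k} {a : k} (hf : v.At f a) (ha : a ≠ 0)
    (hg : v.At g 0) (hg0 : g ≠ 0) (c : k) : vlo v (some (algebraMap k (Om k) c + f / g)) = none := by
  rw [vlo_some, HYG.vl_none_om]
  intro h2
  have h3 : f / g ∉ v.ring := HYG.none_ratio hf ha (Place.at_zero_iff.1 hg) hg0
  apply h3
  have h4 := sub_mem h2 (v.const_mem c)
  rwa [add_sub_cancel_left] at h4

omit hL in
/-- a path in the projective line -/
theorem exists_path (x x' : Option k) : ∃ y : Option (Om k),
    (∀ v : Place k (Om k), v.At (tt k) 0 → vlo v y = x) ∧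
    ∀ v : Place k (Om k), v.At (tt k) 1 → vlo v y = x' := by
  have h10 : ∀ v : Place k (Om k), v.At (tt k) 0 → v.At (1 - tt k) 1 := fun v hv => by
    have h2 := (one_at' v).sub hv
    rwa [sub_zero] at h2
  have h11 : ∀ v : Place k (Om k), v.At (tt k) 1 → v.At (1 - tt k) 0 := fun v hv => by
    have h2 := (one_at' v).sub hv
    rwa [sub_self] at h2
  have ht0 : tt k ≠ 0 := by simpa using tt_ne' (0 : k)
  have ht1 : 1 - tt k ≠ 0 := by
    intro h
    apply tt_ne' (1 : k)
    rw [map_one]
    linear_combination -h
  rcases x with _ | a <;> rcases x' with _ | c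
  · exact ⟨none, fun v _ => rfl, fun v _ => rfl⟩
  · refine ⟨some (algebraMap k (Om k) c + (1 - tt k) / tt k), fun v hv => ?_, fun v hv => ?_⟩
    · exact pole_at (h10 v hv) one_ne_zero hv ht0 c
    · apply vlo_at
      have h2 := (Place.at_const (v := v) c).add ((h11 v hv).div hv one_ne_zero)
      rwa [zero_div, add_zero] at h2
  · refine ⟨some (algebraMap k (Om k) a + tt k / (1 - tt k)), fun v hv => ?_, fun v hv => ?_⟩
    · apply vlo_at
      have h2 := (Place.at_const (v := v) a).add (hv.div (h10 v hv) one_ne_zero)
      rwa [zero_div, add_zero] at h2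
    · exact pole_at hv one_ne_zero (h11 v hv) ht1 a
  · refine ⟨some ((1 - tt k) * algebraMap k (Om k) a + tt k * algebraMap k (Om k) c),
      fun v hv => ?_, fun v hv => ?_⟩
    · apply vlo_at
      have h2 := ((h10 v hv).mul (Place.at_const (v := v) a)).add
        (hv.mul (Place.at_const (v := v) c))
      rwa [one_mul, zero_mul, add_zero] at h2
    · apply vlo_at
      have h2 := ((h11 v hv).mul (Place.at_const (v := v) a)).add
        (hv.mul (Place.at_const (v := v) c))
      rwa [one_mul, zero_mul, zero_add] at h2

/-! ### The theorems -/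

theorem ind_coord (hF : F.Adm) (hE : IsCFs F s E) {j : Fin N} {i : Fin m}
    (hinv : ∀ u (ζ : k), ζ ^ F.M i = 1 → E (rot j i ζ u) = E u)
    {u u' : Fin N → Fin m → Option k} (h : ∀ l, OnY F (Sum.inr (s l) : Bp k L k) (u l))
    (h' : ∀ l, OnY F (Sum.inr (s l) : Bp k L k) (u' l))
    (heq : ∀ l i', ¬(l = j ∧ i' = i) → u l i' = u' l i') :
    E u = E u' := by
  obtain ⟨x', hx'⟩ : ∃ x', u' j i = x' := ⟨_, rfl⟩
  have hu' : u' = Function.update u j (Function.update (u j) i x') := by
    funext l i'
    by_cases hl : l = j
    · subst hl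
      rw [Function.update_self]
      by_cases hi : i' = i
      · subst hi
        rw [Function.update_self, hx']
      · rw [Function.update_of_ne hi]
        exact (heq l i' fun hc => hi hc.2).symm
    · rw [Function.update_of_ne hl]
      exact (heq l i' fun hc => hl hc.1).symm
  have hu : u = Function.update u j (Function.update (u j) i (u j i)) := by
    rw [Function.update_eq_self, Function.update_eq_self]
  have e1 : alI F i (Sum.inr (s j) : Bp k L k) (u j) * snd (u j i) ^ F.M i =
      beI F i (Sum.inr (s j) : Bp k L k) (u j) * fst (u j i) ^ F.M i := by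
    rw [← onY_upd, Function.update_eq_self]
    exact h j
  have e2 : alI F i (Sum.inr (s j) : Bp k L k) (u j) * snd x' ^ F.M i =
      beI F i (Sum.inr (s j) : Bp k L k) (u j) * fst x' ^ F.M i := by
    rw [← onY_upd]
    have h1 := h' j
    rw [hu', Function.update_self] at h1
    exact h1
  by_cases hb : beI F i (Sum.inr (s j) : Bp k L k) (u j) = 0
  · by_cases ha : alI F i (Sum.inr (s j) : Bp k L k) (u j) = 0
    · have hall : ∀ y : Option (Om k), OnY F (Sum.inr (s j) : Bp k L (Om k))
          (Function.update (fun l => (u j l).map (algebraMap k (Om k))) i y) := by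
        intro y
        rw [onY_upd, al_om, be_om, ha, hb, map_zero, zero_mul, zero_mul]
      obtain ⟨y, hy0, hy1⟩ := exists_path (u j i) x'
      have hval : ∀ v : Place k (Om k), (fun l => vlo v
          (Function.update (fun l => (u j l).map (algebraMap k (Om k))) i y l)) =
          Function.update (u j) i (vlo v y) := by
        intro v
        funext l
        by_cases hl : l = i
        · subst hl
          rw [Function.update_self, Function.update_self]
        · rw [Function.update_of_ne hl, Function.update_of_ne hl]
          exact vlo_const v _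
      refine path_fib hE h j (hall y) (c₀ := 0) (c₁ := 1) (fun v hv => ?_) (fun v hv => ?_)
      · rw [hval, hy0 v hv, ← hu]
      · rw [hval, hy1 v hv, ← hu']
    · have hn : ∀ x : Option k, alI F i (Sum.inr (s j) : Bp k L k) (u j) * snd x ^ F.M i =
          beI F i (Sum.inr (s j) : Bp k L k) (u j) * fst x ^ F.M i → x = none := by
        intro x hx
        rw [hb, zero_mul] at hx
        cases x with
        | none => rfl
        | some w =>
          rw [snd_some, one_pow, mul_one] at hx
          exact absurd hx ha
      have h1 : u' = u := by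
        rw [hu', hn x' e2, ← hn _ e1, Function.update_eq_self, Function.update_eq_self]
      rw [h1]
  · have hsm : ∀ x : Option k, alI F i (Sum.inr (s j) : Bp k L k) (u j) * snd x ^ F.M i =
        beI F i (Sum.inr (s j) : Bp k L k) (u j) * fst x ^ F.M i →
        ∃ w, x = some w ∧ alI F i (Sum.inr (s j) : Bp k L k) (u j) =
          beI F i (Sum.inr (s j) : Bp k L k) (u j) * w ^ F.M i := by
      intro x hx
      cases x with
      | none =>
        rw [snd_none, fst_none, zero_pow (hF.M0 i).ne', mul_zero, one_pow, mul_one] at hx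
        exact absurd hx.symm hb
      | some w =>
        refine ⟨w, rfl, ?_⟩
        rwa [snd_some, fst_some, one_pow, mul_one] at hx
    obtain ⟨w, hw, h1⟩ := hsm _ e1
    obtain ⟨w', hw', h2⟩ := hsm _ e2
    have h3 : w ^ F.M i = w' ^ F.M i := mul_left_cancel₀ hb (h1.symm.trans h2)
    by_cases hw0 : w = 0
    · have hw0' : w' = 0 := by
        rw [hw0, zero_pow (hF.M0 i).ne'] at h3
        exact eq_zero_of_pow_eq_zero h3.symm
      have h4 : u' = u := by
        rw [hu', hw', hw0', ← hw0, ← hw, Function.update_eq_self, Function.update_eq_self]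
      rw [h4]
    · have hr : u' = rot j i (w' / w) u := by
        unfold rot
        rw [hu', hw', hw, Option.map_some, div_mul_cancel₀ _ hw0]
        funext l i'
        by_cases hl : l = j
        · subst hl
          simp only [Function.update_self]
          by_cases hi : i' = i
          · subst hi
            simp only [Function.update_self]
          · simp only [ne_eq, hi, not_false_eq_true, Function.update_of_ne]
        · simp only [ne_eq, hl, not_false_eq_true, Function.update_of_ne]
      rw [hr]
      refine (hinv u _ ?_).symm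
      rw [div_pow, ← h3, div_self (pow_ne_zero _ hw0)]

/-- `E` does not depend on the coordinates of the point `j` -/
theorem ind (hF : F.Adm) (hE : IsCFs F s E) {j : Fin N} {i : Fin m}
    (hinv : ∀ u (ζ : k), ζ ^ F.M i = 1 → E (rot j i ζ u) = E u)
    {u u' : Fin N → Fin m → Option k} (h : ∀ l, OnY F (Sum.inr (s l) : Bp k L k) (u l))
    (h' : ∀ l, OnY F (Sum.inr (s l) : Bp k L k) (u' l)) (hu : ∀ l, l ≠ j → u l = u' l) :
    E u = E u' := by
  choose y hy0 hy1 using fun l => exists_path (u j l) (u' j l)
  obtain ⟨z, hz⟩ := exists_onY hF.M0 i (Sum.inr (s j) : Bp k L (Om k)) y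
  have hoth : ∀ w : Fin m → Option k, OnY F (Sum.inr (s j) : Bp k L k) w → ∀ l,
      OnY F (Sum.inr (s l) : Bp k L k) (Function.update u j w l) := by
    intro w hw l
    by_cases hl : l = j
    · subst hl
      rw [Function.update_self]
      exact hw
    · rw [Function.update_of_ne hl]
      exact h l
  have hval : ∀ v : Place k (Om k), OnY F (Sum.inr (s j) : Bp k L k)
      (fun l => vlo v (Function.update y i z l)) := by
    intro v
    have h1 := onY_vlo hF v hz
    rw [vb_inr] at h1
    exact h1
  refine path_fib hE h j hz (c₀ := 0) (c₁ := 1) (fun v hv => ?_) (fun v hv => ?_)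
  · refine (ind_coord hF hE hinv h (hoth _ (hval v)) fun l i' hli => ?_).symm
    by_cases hl : l = j
    · subst hl
      rw [Function.update_self, Function.update_of_ne fun hc => hli ⟨rfl, hc⟩]
      exact (hy0 i' v hv).symm
    · rw [Function.update_of_ne hl]
  · refine ind_coord hF hE hinv (hoth _ (hval v)) h' fun l i' hli => ?_
    by_cases hl : l = j
    · subst hl
      rw [Function.update_self, Function.update_of_ne fun hc => hli ⟨rfl, hc⟩]
      exact hy1 i' v hv
    · rw [Function.update_of_ne hl, hu l hl]

end Pool.Agent.HGP
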