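import Pool.Agent.HGP.PathB
import Pool.Agent.HGP.Crv
import Pool.Agent.HGF.VanD
import Pool.Agent.TInc.Riem

/-!
# Package HGP-Van: the vanishing theorem for fibre products

Port of `Pool/Agent/HGFC/Van.lean`. `N = ∑ r, deg ∑ E_(r, i) + g` points. The good states are the ones
through which there is a curve (`exists_curve`, with a zero `o` of a section `C_q0`, `deg E_q0 > 0`;
`exists_zero` for any component `r0`, there is one because `κ` is not empty; the degree of `∑ i, E_(r, i)` is
positive for every `r`), and all points are connected with good states, or a coordinate is free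
(`zero_of`, `zero_of_C`, `zero_of_A` for `m r ≥ 2`). The lemmas about one component (`ord_section`,
`Fam.Adm.reg`, `deg_S`, `deg_S_pos`, `exists_zero`) can be copied.
-/

set_option autoImplicit false
set_option linter.unusedSectionVars false

noncomputable section

namespace Pool.Agent.HGP

open Finset Pool.Agent.ZCyc Pool.Agent.Dess Pool.Agent.GT Pool.Agent.TInc Pool.Agent.HGF
open Pool.Agent.VFP (Om tt)
open Pool.Agent.EFC (unif genus sections)
open scoped Classical

variable {k : Type} [Field k] [IsAlgClosed k] [CharZero k] {L : Type} [Field L] [Algebra k L]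
  [hL : Fact (IsCurve k L)]

/-! ### One component -/

section One

variable {m : ℕ} {F : Fam k L m}

omit hL in
private theorem deg_add' (A B : Place k L →₀ ℤ) : TInc.deg (A + B) = TInc.deg A + TInc.deg B := by
  unfold TInc.deg
  exact Finsupp.sum_add_index' (fun _ => rfl) (fun _ _ _ => rfl)

omit hL in
private theorem deg_sum' (D : Fin m → Place k L →₀ ℤ) :
    TInc.deg (∑ i, D i) = ∑ i, TInc.deg (D i) := by
  have key : ∀ s : Finset (Fin m), TInc.deg (∑ i ∈ s, D i) = ∑ i ∈ s, TInc.deg (D i) := by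
    intro s
    induction s using Finset.induction_on with
    | empty => rfl
    | insert a s ha ih => rw [sum_insert ha, sum_insert ha, deg_add', ih]
  exact key _

omit hL in
/-- the order of a section -/
theorem ord_section (hL : IsCurve k L) {D : Place k L →₀ ℤ} {f : L} (hf : f ≠ 0)
    (hs : f ∈ sections D) (c : Place k L) : 0 ≤ ord c f + D c :=
  (EFC.mem_unif_iff hL c f (D c)).1 (hs c) hf

omit hL in
/-- the degree of a line bundle with a section -/
private theorem deg_nonneg' (hL : IsCurve k L) {D : Place k L →₀ ℤ} {f : L}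
    (h : ∀ q, 0 ≤ ord q f + D q) : 0 ≤ TInc.deg D := by
  have h1 : TInc.deg (dv hL f + D) = TInc.deg D := by rw [deg_add', deg_dv, zero_add]
  rw [← h1]
  unfold TInc.deg Finsupp.sum
  refine sum_nonneg fun q _ => ?_
  rw [Finsupp.add_apply, dv_apply]
  exact h q

omit hL in
/-- a section of a line bundle of degree zero has no zeros -/
private theorem ord_of_deg_zero (hL : IsCurve k L) {D : Place k L →₀ ℤ} {f : L}
    (h : ∀ q, 0 ≤ ord q f + D q) (h0 : TInc.deg D = 0) (q : Place k L) : ord q f + D q = 0 := by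
  have h1 : TInc.deg (dv hL f + D) = 0 := by rw [deg_add', deg_dv, zero_add, h0]
  unfold TInc.deg Finsupp.sum at h1
  have h2 : ∀ p : Place k L, (dv hL f + D) p = ord p f + D p := fun p => by
    rw [Finsupp.add_apply, dv_apply]
  rw [sum_eq_zero_iff_of_nonneg fun p _ => by rw [h2]; exact h p] at h1
  by_cases hq : q ∈ (dv hL f + D).support
  · rw [← h2]
    exact h1 q hq
  · rw [← h2]
    exact Finsupp.notMem_support_iff.1 hq

theorem Fam.Adm.reg (hF : F.Adm) : F.Reg fun i => (TInc.deg (F.E i)).toNat where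
  B0 := hF.B0
  C0 := hF.C0
  A0 := hF.A0
  B := fun i => ord_section hL.out (hF.B0 i) (hF.secB i)
  C := fun i => ord_section hL.out (hF.C0 i) (hF.secC i)
  A := ord_section hL.out hF.A0 hF.secA
  deg := fun i => by
    rw [Int.toNat_of_nonneg (deg_nonneg' hL.out (ord_section hL.out (hF.B0 i) (hF.secB i)))]
  indep := fun c h => hF.indep c (by rw [Algebra.smul_def]; exact h)

theorem deg_S (hF : F.Adm) : TInc.deg F.S = ((∑ i, (TInc.deg (F.E i)).toNat : ℕ) : ℤ) := by
  unfold Fam.S
  rw [deg_sum', Nat.cast_sum]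
  exact sum_congr rfl fun i _ => hF.reg.deg i

/-- the degree of the sum of the line bundles of a component is positive -/
theorem deg_S_pos {m : ℕ} {F : Fam k L m} (hF : F.Adm) : 0 < TInc.deg F.S := by
  have hA := ord_section hL.out hF.A0 hF.secA
  refine lt_of_le_of_ne (deg_nonneg' hL.out hA) fun h0 => ?_
  have hP0 : ∏ i, F.B i ≠ 0 := prod_ne_zero_iff.2 fun i _ => hF.B0 i
  have hP : ∀ q, 0 ≤ ord q (∏ i, F.B i) + F.S q := by
    intro q
    rw [ord_prod hL.out q univ F.B fun i _ => hF.B0 i]
    unfold Fam.S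
    rw [Finsupp.finsetSum_apply, ← sum_add_distrib]
    exact sum_nonneg fun i _ => hF.reg.B i q
  have h1 : ∀ q : Place k L, F.A / ∏ i, F.B i ∈ q.ring := by
    intro q
    rw [mem_iff_ord hL.out (div_ne_zero hF.A0 hP0), div_eq_mul_inv,
      ord_mul hL.out q hF.A0 (inv_ne_zero hP0), ord_inv hL.out]
    have h2 := ord_of_deg_zero hL.out hA h0.symm q
    have h3 := ord_of_deg_zero hL.out hP h0.symm q
    omega
  obtain ⟨c, hc⟩ := const_of_regular hL.out h1
  refine hF.indep c ?_
  rw [Algebra.smul_def, ← hc, div_mul_cancel₀ _ hP0]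

/-- a zero of some section `C_i` -/
theorem exists_zero (hF : F.Adm) : ∃ (i0 : Fin m) (o : Place k L),
    0 < ord o (F.C i0) + F.E i0 o := by
  by_contra hcon
  push Not at hcon
  have h1 : ∀ i, TInc.deg (F.E i) = 0 := by
    intro i
    have h2 : TInc.deg (dv hL.out (F.C i) + F.E i) = TInc.deg (F.E i) := by
      rw [deg_add', deg_dv, zero_add]
    rw [← h2]
    unfold TInc.deg Finsupp.sum
    refine sum_eq_zero fun q _ => ?_
    rw [Finsupp.add_apply, dv_apply]
    exact le_antisymm (hcon i q) (hF.reg.C i q)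
  have h2 := deg_S_pos hF
  unfold Fam.S at h2
  rw [deg_sum', sum_eq_zero fun i _ => h1 i] at h2
  exact lt_irrefl _ h2

end One

/-! ### Fibre products -/

variable {κ : Type} [Fintype κ] {m : κ → ℕ} {F : ∀ r, Fam k L (m r)} {N : ℕ}

/-- the curve through a state -/
theorem curveOut (hF : ∀ r, (F r).Adm) (hN : (N : ℤ) = degX F + genus k L)
    {q0 : Ix m} {o : Place k L} (ho : 0 < ord o ((F q0.1).C q0.2) + (F q0.1).E q0.2 o)
    {s : Fin N → Place k L} (hs : ∀ r j, Bas (F r) (s j))
    (hinj : ∀ r, Function.Injective fun j => lam (F r) (cb s j))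
    {X : ∀ _ : κ, Fin N → ℕ → k} {O : ∀ _ : κ, Equiv.Perm (Fin N) → Fin N → ℕ → k}
    {p : Ix m → k} (hX : ∀ r j, Good (m r) (X r j))
    (hmu : ∀ r j, mu (m r) (X r j) = lam (F r) (cb s j)) (hO : ∀ r, Ords (m r) (X r) (O r))
    (hp : ∀ r, PCond (F r) (cb s) (X r) fun i => p ⟨r, i⟩) : CurveOut F q0 o s O p := by
  have hN' : ∑ r, ∑ i, (TInc.deg ((F r).E i)).toNat + genus k L ≤ N := by
    have h1 : degX F = ((∑ r, ∑ i, (TInc.deg ((F r).E i)).toNat : ℕ) : ℤ) := by
      unfold degX
      rw [Nat.cast_sum]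
      exact sum_congr rfl fun r _ => deg_S (hF r)
    omega
  obtain ⟨τ, η, S, Z, h1, h2, -, h4, h5, h6, h7, h8⟩ :=
    exists_curve hL.out (EFC.riemann_genus hL.out (exists_genus hL.out)) (fun r => (hF r).reg)
      ((hF q0.1).M0 q0.2) ho (fun r => (hF r).one) hN' hs (hinj := hinj) hX (hmu := hmu) hO
      (p := p) hp
  refine ⟨τ, η, S, Z, h1, h2, fun r j => ?_, h4, h5, fun r i => ?_, h7, fun v hv => ?_⟩
  · obtain ⟨v, hv⟩ := ZCyc.exists_place h1 (0 : k)
    obtain ⟨-, σ, hσ, -⟩ := h7 v hv
    exact (hs r (σ j)).base (hσ j)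
  · convert h6 r i
  · rcases h8 v hv with h9 | h9 | h9 | ⟨r, j, i, c, hc, hcB, h9⟩
    · exact Or.inl h9
    · exact Or.inr (Or.inl h9)
    · exact Or.inr (Or.inr (Or.inl h9))
    · have hm := (hF r).one
      refine Or.inr (Or.inr (Or.inr ⟨j, ⟨r, ⟨i % m r, Nat.mod_lt i hm⟩⟩, c, hc, hcB, ?_⟩))
      have h10 := congrFun (per_eq (h4 r j).per hm) i
      have h11 : Z r j ((⟨i % m r, Nat.mod_lt i hm⟩ : Fin (m r)) : ℕ) = Z r j i := h10
      show v.At (Z r j ((⟨i % m r, Nat.mod_lt i hm⟩ : Fin (m r)) : ℕ)) 1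
      rw [h11]
      exact h9

/-- **The vanishing theorem.** -/
theorem vanish [Nonempty κ] (hF : ∀ r, (F r).Adm) : Vanish F := by
  intro N hN W _ _ b E hb hE hEig s u hon
  have hm : ∀ r, 0 < m r := fun r => (hF r).one
  obtain ⟨r0⟩ := ‹Nonempty κ›
  obtain ⟨i0, o, ho⟩ := exists_zero (hF r0)
  have hN0 : 0 < N := by
    have h1 : 0 < degX F := by
      unfold degX
      exact sum_pos (fun r _ => deg_S_pos (hF r)) ⟨r0, mem_univ r0⟩
    omega
  have hgood : GoodZero F hm E := by
    intro s X O p w hw hinj hO hgen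
    have hX : ∀ r j, Good (m r) (X r j) := fun r j => by
      rw [← (hw r).row]
      exact (hw.int r j).good (hF r) (hm r)
    have hmu : ∀ r j, mu (m r) (X r j) = lam (F r) (cb s j) := fun r j => by
      rw [← (hw r).row]
      exact (hw.int r j).mu (hF r) (hm r)
    exact ae_good hF hm hN0 hb hE hEig (q0 := ⟨r0, i0⟩) ho hw hinj hO hgen
      (curveOut hF hN ho (fun r j => base_inr.1 (hw.int r j).base) hinj hX hmu hO
        fun r => (hw r).pcond (hF r))
  have hEA := isCF_AE hE
  have hEigA := isEig_AE (m := m) hEig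
  by_cases h2 : ∀ j q, ∃ c, u j q = some c
  · choose w hw using h2
    have hu : u = som w := by
      funext j q
      exact hw j q
    subst hu
    by_cases h3 : ∀ j r i, sv ((F r).E i) ((F r).C i) (Sum.inr (s j) : Bp k L k) ≠ 0
    · by_cases h4 : ∀ j r, 2 ≤ m r → sv (F r).S (F r).A (Sum.inr (s j) : Bp k L k) ≠ 0
      · exact vanish_int hF hm hgood hE hon h3 h4
      · push Not at h4
        obtain ⟨j, r, hr, hj⟩ := h4
        exact zero_of_A hb hEA hEigA hon (j := j) hr hj
    · push Not at h3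
      obtain ⟨j, r, i, hj⟩ := h3
      exact zero_of_C hb hEA hEigA hon (j := j) (r := r) (i := i) hj
  · push Not at h2
    obtain ⟨j, q, hj⟩ := h2
    refine zero_of hEigA hb (j := j) (i := q) (Or.inl ?_)
    cases h : u j q with
    | none => rfl
    | some c => exact absurd h (hj c)

end Pool.Agent.HGP
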