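import Pool.Agent.HGP.KAut
import Pool.Agent.HGP.Van
import Pool.Agent.HGF.KAlt

/-!
# Package HGP-KAlt: the relation for the permutations of isomorphic factors, several components

As `Pool/Agent/HGFC/KAlt.lean` (`altP`, `alt_top` there). `T` depends only on the projections of the
levels. The factors `oJ b`, `b < l`, have the levels `some (S b)`; for the `b ∈ J` their components in the
level are isomorphic to the components in `S0 ≠ ∅` of `Z` (`Iso`), with nontrivial exponents `e0`. The points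
`q i` for the `i = τ b`, `b ∈ J`, lie on `Z.res S0`. If the number of the elements of `J` is
`∑ deg ∑ E_(q, i) + g` then the alternating or symmetric sum over the permutations which fix the
complement of `J` is zero.

**Proof.** `altP`: `vanish` (`HGP/Van.lean`) for `F = fun q : S0 => (Z.D q).F` and the function `gls`
(`isCF_gls`, `isEig_gls`); the exponent in `AE` is `∑ (m q + 1)`, congruent to `Z.dm S0 + 1` modulo 2
(`dm = 1 + ∑ (m q - 1)`, `m q ≥ 1`). `alt_top` as in `HGFC/KAlt.lean`: `π ∈ fixing J` corresponds to a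
permutation of `Fin N` by an enumeration of `J`, all degrees in `J` are equal to `Z.dm S0` (`Iso.dm_eq`), and
`kos (τ * π) = kos τ * sign π ^ dm` (see `HGF/KAlt.lean`, `alt_fix`).
-/

set_option autoImplicit false
set_option linter.unusedSectionVars false

noncomputable section

namespace Pool.Agent.HGP

open Pool.Agent.ZCyc Pool.Agent.Dess Pool.Agent.GT Pool.Agent.TInc Pool.Agent.HGF
open Pool.Agent.ZIso (fixing)
open Pool.Agent.EFC (genus)
open scoped Classical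

variable {k : Type} [Field k] [IsAlgClosed k] [CharZero k] {ι : Type} {C : ι → Crv k} {r : ℕ}
  {X : Fin r → Hyp C} {W : Type} [AddCommGroup W] [Module k W] {T : (Fin r → Pt C) → W}
  {κ : Fin r → Option (Finset ℕ)} {β : Fin r → ℕ → ℕ → ℕ}

private theorem sgn_pow_KAlt {N : ℕ} (p : Equiv.Perm (Fin N)) {a b : ℕ} (h : a % 2 = b % 2) :
    (Equiv.Perm.sign p : ℤ) ^ a = (Equiv.Perm.sign p : ℤ) ^ b := by
  rw [← Units.val_pow_eq_pow_val, ← Units.val_pow_eq_pow_val,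
    Int.units_pow_eq_pow_mod_two _ a, Int.units_pow_eq_pow_mod_two _ b, h]

private theorem exp_mod_KAlt {Z : Hyp C} {S0 : Finset ℕ} (h1 : ∀ q ∈ S0, 0 < Z.m q) :
    (Z.dm S0 + 1) % 2 = (∑ q : S0, (Z.m q + 1)) % 2 := by
  have h2 : ∑ q : S0, (Z.m q + 1) = ∑ q ∈ S0, (Z.m q - 1) + 2 * S0.card := by
    rw [Finset.sum_coe_sort S0 fun q => Z.m q + 1, mul_comm, ← smul_eq_mul, ← Finset.sum_const,
      ← Finset.sum_add_distrib]
    refine Finset.sum_congr rfl fun q hq => ?_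
    have := h1 q hq
    omega
  rw [h2]
  unfold Hyp.dm
  omega

theorem altP (hX : ∀ a, (X a).Adm) (hT : IsCFP X T) (hd : DepOn X κ T) (hβ : IsEigL X κ β T)
    {Z : Hyp C} {S0 : Finset ℕ} (hS0 : S0.Nonempty) (hZ : ∀ q ∈ S0, (Z.D q).F.Adm)
    {e0 : ℕ → ℕ → ℕ} (he0 : ∀ q ∈ S0, ∀ j < Z.m q, 0 < e0 q j ∧ e0 q j < Z.M q j) {N : ℕ}
    (hN : (N : ℤ) = ∑ q ∈ S0, TInc.deg (Z.D q).F.S + genus k (C Z.i).L) {e : Fin N → Fin r}
    (he : Function.Injective e) {S : Fin N → Finset ℕ} (hκ : ∀ j, κ (e j) = some (S j))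
    {π : Fin N → ℕ → ℕ} {ρ : Fin N → ℕ → Equiv.Perm ℕ}
    (hiso : ∀ j, Iso Z (X (e j)) S0 (S j) e0 (β (e j)) (π j) (ρ j)) {x0 : Fin r → Pt C}
    (h0 : OnP X x0) {q : Fin N → Pt C} (hq : ∀ j, (Z.res (S0 : Set ℕ)).On (q j)) :
    ∑ p : Equiv.Perm (Fin N), ((Equiv.Perm.sign p : ℤ) ^ (Z.dm S0 + 1)) •
      T (glue e x0 fun j => plc (X (e j)) (S j) (π j) (ρ j) (q (p j))) = 0 := by
  have : Nonempty S0 := hS0.coe_sort
  choose s hs hs' using fun j => ptT_of_on (hq j)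
  have hV : Vanish fun q : S0 => (Z.D q).F := vanish fun q => hZ q q.2
  have hdeg : degX (fun q : S0 => (Z.D q).F) = ∑ q ∈ S0, TInc.deg (Z.D q).F.S :=
    Finset.sum_coe_sort S0 fun q => TInc.deg (Z.D q).F.S
  have h1 := hV N (by rw [hdeg]; exact hN) W
    (fun x : Ix (fun q : S0 => Z.m q) => e0 x.1 x.2) (gls X T Z S0 e S π ρ x0)
    (fun x => by
      have h2 := he0 x.1 x.1.2 x.2 x.2.2
      rw [Hyp.M_eq x.2.2] at h2
      exact h2)
    (isCF_gls hX hT hd hZ he hκ hiso h0) (isEig_gls hX hd hβ hZ he hκ hiso h0) s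
    (fun j (x : Ix fun q : S0 => Z.m q) => (q j).2 x.1 x.2) hs'
  unfold AE at h1
  rw [← h1]
  refine Finset.sum_congr rfl fun p _ => ?_
  rw [sgn_pow_KAlt p (exp_mod_KAlt fun q hq => (hZ q hq).one)]
  congr 1
  unfold gls
  rw [if_pos fun j => hs' (p j)]
  congr 2
  funext j
  rw [← hs (p j)]

/-- the relation in the form of the second fundamental theorem -/
theorem alt_top (hX : ∀ a, (X a).Adm) (hT : IsCFP X T) (hd : DepOn X κ T)
    (hβ : IsEigL X κ β T) {l : ℕ} {oJ : Fin l → Fin r} (hoJ : Function.Injective oJ)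
    {S : Fin l → Finset ℕ} (hκ : ∀ b, κ (oJ b) = some (S b)) {π : Fin l → ℕ → ℕ}
    {ρ : Fin l → ℕ → Equiv.Perm ℕ} {q : Fin l → Pt C} {w : Fin r → Pt C}
    (τ : Equiv.Perm (Fin l))
    (hw : OnP X (glue oJ w fun b => plc (X (oJ b)) (S b) (π b) (ρ b) (q (τ b))))
    {Z : Hyp C} {S0 : Finset ℕ} (hS0 : S0.Nonempty) (hZ : ∀ q ∈ S0, (Z.D q).F.Adm)
    {e0 : ℕ → ℕ → ℕ} (he0 : ∀ q ∈ S0, ∀ j < Z.m q, 0 < e0 q j ∧ e0 q j < Z.M q j)
    {J : Finset (Fin l)}
    (hJ : ∀ b ∈ J, Iso Z (X (oJ b)) S0 (S b) e0 (β (oJ b)) (π b) (ρ b) ∧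
      (Z.res (S0 : Set ℕ)).On (q (τ b)))
    (hc : (J.card : ℤ) = ∑ q ∈ S0, TInc.deg (Z.D q).F.S + genus k (C Z.i).L) :
    ∑ p ∈ fixing J, (((Equiv.Perm.sign p : ℤ) : k) *
      (EFP.kos (fun b => (X (oJ b)).dm (S b)) (τ * p) : k)) •
        T (glue oJ w fun b => plc (X (oJ b)) (S b) (π b) (ρ b) (q ((τ * p) b))) = 0 := by
  set ν : Fin J.card ↪ Fin l := (J.orderEmbOfFin rfl).toEmbedding with hν
  have hνJ : ∀ i, i ∈ J ↔ i ∈ Set.range ν := by
    intro i
    have h1 := J.range_orderEmbOfFin rfl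
    rw [← Finset.mem_coe, ← h1]
    rfl
  have hmem : ∀ a, ν a ∈ J := fun a => (hνJ _).2 ⟨a, rfl⟩
  rw [sum_fixing ν hνJ]
  have hinj : Function.Injective fun a => oJ (ν a) := hoJ.comp ν.injective
  have h1 := altP (X := X) hX hT hd hβ hS0 hZ he0 (N := J.card) hc (e := fun a => oJ (ν a)) hinj
    (S := fun a => S (ν a)) (fun a => hκ (ν a)) (π := fun a => π (ν a)) (ρ := fun a => ρ (ν a))
    (fun a => (hJ _ (hmem a)).1) hw (q := fun a => q (τ (ν a))) fun a => (hJ _ (hmem a)).2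
  have h2 := congrArg (fun z => ((EFP.kos (fun b => (X (oJ b)).dm (S b)) τ : ℤ) : k) • z) h1
  beta_reduce at h2
  rw [smul_zero, Finset.smul_sum] at h2
  rw [← h2]
  refine Finset.sum_congr rfl fun p _ => ?_
  have hfix : p.viaEmbedding ν ∈ fixing J := by
    rw [mem_fixing_K]
    intro i hi
    rw [hνJ] at hi
    exact Equiv.Perm.viaEmbedding_apply_of_notMem _ _ _ hi
  have hkos := EFP.kos_mul (fun b => (X (oJ b)).dm (S b)) τ (J := J) (e := Z.dm S0)
    (fun i hi => (hJ i hi).1.dm_eq.symm) hfix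
  rw [hkos, sign_via, ← Int.cast_smul_eq_zsmul k, smul_smul]
  have h3 : glue oJ w (fun b => plc (X (oJ b)) (S b) (π b) (ρ b)
      (q ((τ * p.viaEmbedding ν) b))) =
      glue (fun a => oJ (ν a))
        (glue oJ w fun b => plc (X (oJ b)) (S b) (π b) (ρ b) (q (τ b)))
        fun a => plc (X (oJ (ν a))) (S (ν a)) (π (ν a)) (ρ (ν a)) (q (τ (ν (p a)))) := by
    funext a
    by_cases ha : ∃ b, oJ b = a
    · obtain ⟨b, rfl⟩ := ha
      rw [glue_apply hoJ]
      by_cases hb : b ∈ Set.range ν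
      · obtain ⟨c, rfl⟩ := hb
        rw [glue_apply (e := fun a => oJ (ν a)) hinj, Equiv.Perm.mul_apply,
          Equiv.Perm.viaEmbedding_apply]
      · rw [glue_of (e := fun a => oJ (ν a)) _ _ fun c hc => hb ⟨c, hoJ hc⟩, glue_apply hoJ,
          Equiv.Perm.mul_apply, Equiv.Perm.viaEmbedding_apply_of_notMem _ _ _ hb]
    · push Not at ha
      rw [glue_of _ _ ha, glue_of (e := fun a => oJ (ν a)) _ _ fun c => ha _, glue_of _ _ ha]
  rw [h3]
  congr 1
  push_cast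
  ring

end Pool.Agent.HGP
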