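import Pool.Agent.HGP.KSgn

/-!
# Package HGP-KIso: isomorphisms of fibre products

`Iso`: identity, composition, inverse, the difference of two isomorphisms (an automorphism), and its
consequences. Hint: from `h.sel : Z'.sel T π = Z.res T` one gets `Z'.i = Z.i`; destruct `Z = ⟨i,
D⟩`, `Z' = ⟨i', D'⟩`, unfold `Hyp.sel`, `Hyp.res`, `Hyp.mk.injEq`, `subst`, `eq_of_heq`, `congrFun`
to get `D' (π q) = D q` for `q ∈ T`. -/

set_option autoImplicit false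
set_option linter.unusedSectionVars false

noncomputable section

namespace Pool.Agent.HGP

open Pool.Agent.ZCyc Pool.Agent.Dess Pool.Agent.GT Pool.Agent.TInc Pool.Agent.HGF
open Pool.Agent.EFC (genus)
open scoped Classical

variable {k : Type} [Field k] {ι : Type} {C : ι → Crv k} {r : ℕ} {X : Fin r → Hyp C}

/-! ### Isomorphisms -/

theorem tr_res {T : Set ℕ} {π : ℕ → ℕ} {ρ : ℕ → Equiv.Perm ℕ} (p : Pt C) {T' : Set ℕ}
    (h : ∀ q ∈ T, π q ∈ T') : tr T π ρ (p.res T') = (tr T π ρ p : Pt C) := by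
  refine Prod.ext rfl (funext fun q => funext fun j => ?_)
  change (if q ∈ T then (if π q ∈ T' then p.2 (π q) (ρ q j) else none) else none) =
    if q ∈ T then p.2 (π q) (ρ q j) else none
  by_cases hq : q ∈ T
  · rw [if_pos hq, if_pos hq, if_pos (h q hq)]
  · rw [if_neg hq, if_neg hq]

theorem res_tr {T : Set ℕ} {π : ℕ → ℕ} {ρ : ℕ → Equiv.Perm ℕ} (p : Pt C) :
    Pt.res (tr T π ρ p) T = (tr T π ρ p : Pt C) := by
  refine Prod.ext rfl (funext fun q => funext fun j => ?_)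
  change (if q ∈ T then (if q ∈ T then p.2 (π q) (ρ q j) else none) else none) =
    if q ∈ T then p.2 (π q) (ρ q j) else none
  by_cases hq : q ∈ T
  · rw [if_pos hq, if_pos hq]
  · rw [if_neg hq, if_neg hq]

theorem tr_tr {T T' : Set ℕ} {π π' : ℕ → ℕ} {ρ ρ' : ℕ → Equiv.Perm ℕ} (p : Pt C)
    (h : ∀ q ∈ T, π' q ∈ T') : tr T π' ρ' (tr T' π ρ p) =
      (tr T (fun q => π (π' q)) (fun q => (ρ' q).trans (ρ (π' q))) p : Pt C) := by
  refine Prod.ext rfl (funext fun q => funext fun j => ?_)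
  change (if q ∈ T then (if π' q ∈ T' then p.2 (π (π' q)) (ρ (π' q) (ρ' q j)) else none)
    else none) = if q ∈ T then p.2 (π (π' q)) (ρ (π' q) (ρ' q j)) else none
  by_cases hq : q ∈ T
  · rw [if_pos hq, if_pos hq, if_pos (h q hq)]
  · rw [if_neg hq, if_neg hq]

theorem tr_congr {T : Set ℕ} {π π' : ℕ → ℕ} {ρ ρ' : ℕ → Equiv.Perm ℕ} (p : Pt C)
    (hπ : ∀ q ∈ T, π q = π' q) (hρ : ∀ q ∈ T, ρ q = ρ' q) :
    (tr T π ρ p : Pt C) = tr T π' ρ' p := by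
  refine Prod.ext rfl (funext fun q => funext fun j => ?_)
  change (if q ∈ T then p.2 (π q) (ρ q j) else none) =
    if q ∈ T then p.2 (π' q) (ρ' q j) else none
  by_cases hq : q ∈ T
  · rw [if_pos hq, if_pos hq, hπ q hq, hρ q hq]
  · rw [if_neg hq, if_neg hq]

/-- the selected components -/
private theorem KIso_sel {Z Z' : Hyp C} {T : Set ℕ} {π : ℕ → ℕ} (h : Z'.sel T π = Z.res T) :
    ∃ D' : ℕ → Cmp k (C Z.i).L, Z' = ⟨Z.i, D'⟩ ∧ ∀ q ∈ T, D' (π q) = Z.D q := by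
  obtain ⟨i, D⟩ := Z
  obtain ⟨i', D'⟩ := Z'
  have h1 : (⟨i', fun r => if r ∈ T then D' (π r) else .triv⟩ : Hyp C) =
      ⟨i, fun r => if r ∈ T then D r else .triv⟩ := h
  injection h1 with h2 h3
  subst h2
  have h4 := eq_of_heq h3
  refine ⟨D', rfl, fun q hq => ?_⟩
  have h5 := congrFun h4 q
  simp only [if_pos hq] at h5
  exact h5

/-- conversely -/
private theorem KIso_mk {i : ι} {D D' : ℕ → Cmp k (C i).L} {T : Set ℕ} {π : ℕ → ℕ}
    (h : ∀ q ∈ T, D' (π q) = D q) :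
    (⟨i, D'⟩ : Hyp C).sel T π = (⟨i, D⟩ : Hyp C).res T := by
  have h1 : (fun r => if r ∈ T then D' (π r) else .triv) =
      fun r => if r ∈ T then D r else .triv := by
    funext r
    by_cases hr : r ∈ T
    · rw [if_pos hr, if_pos hr, h r hr]
    · rw [if_neg hr, if_neg hr]
  change (⟨i, fun r => if r ∈ T then D' (π r) else .triv⟩ : Hyp C) =
    ⟨i, fun r => if r ∈ T then D r else .triv⟩
  rw [h1]

section

variable {Z Z' Z'' : Hyp C} {T T' T'' : Finset ℕ} {e e' e'' : ℕ → ℕ → ℕ} {π π' : ℕ → ℕ}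
  {ρ ρ' : ℕ → Equiv.Perm ℕ}

private theorem KIso_mem (h : Iso Z' Z T' T e' e π ρ) {q : ℕ} (hq : q ∈ T) : π q ∈ T' := by
  rw [h.img]
  exact Finset.mem_image_of_mem π hq

private theorem KIso_exists (h : Iso Z' Z T' T e' e π ρ) {p : ℕ} (hp : p ∈ T') :
    ∃ q ∈ T, π q = p := by
  rw [h.img] at hp
  exact Finset.mem_image.1 hp

theorem Iso.refl (Z : Hyp C) (T : Finset ℕ) (e : ℕ → ℕ → ℕ) :
    Iso Z Z T T e e id fun _ => 1 := by
  exact ⟨rfl, Function.injective_id.injOn, Finset.image_id.symm,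
    fun q _ => Cmp.Sym.one _, fun q _ j => rfl⟩

/-- first `π`, `ρ` (from `Z''` to `Z'`), then `π'`, `ρ'` (from `Z'` to `Z`) -/
theorem Iso.trans (h : Iso Z'' Z' T'' T' e'' e' π ρ) (h' : Iso Z' Z T' T e' e π' ρ') :
    Iso Z'' Z T'' T e'' e (fun q => π (π' q)) fun q => (ρ' q).trans (ρ (π' q)) := by
  obtain ⟨i, D⟩ := Z
  obtain ⟨D', rfl, hD'⟩ := KIso_sel h'.sel
  obtain ⟨D'', rfl, hD''⟩ := KIso_sel h.sel
  refine ⟨?_, ?_, ?_, ?_, ?_⟩
  · refine KIso_mk fun q hq => ?_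
    have h1 := hD'' (π' q) (KIso_mem h' hq)
    exact h1.trans (hD' q hq)
  · intro q hq q' hq' hqq
    exact h'.inj hq hq' (h.inj (KIso_mem h' hq) (KIso_mem h' hq') hqq)
  · rw [h.img, h'.img, Finset.image_image]
    rfl
  · intro q hq
    have h1 := h.sym (π' q) (KIso_mem h' hq)
    have h2 : (D' (π' q)).Sym (ρ (π' q)) := h1
    rw [hD' q hq] at h2
    exact (h'.sym q hq).trans h2
  · intro q hq j
    have h1 := h.exp (π' q) (KIso_mem h' hq) (ρ' q j)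
    exact h1.trans (h'.exp q hq j)

theorem Iso.symm (h : Iso Z' Z T' T e' e π ρ) : ∃ (π' : ℕ → ℕ) (ρ' : ℕ → Equiv.Perm ℕ),
    Iso Z Z' T T' e e' π' ρ' ∧ ∀ q ∈ T, π' (π q) = q ∧ ρ' (π q) = (ρ q).symm := by
  obtain ⟨i, D⟩ := Z
  obtain ⟨D', rfl, hD'⟩ := KIso_sel h.sel
  have h0 : ∀ q ∈ T, Function.invFunOn π (T : Set ℕ) (π q) = q := fun q hq =>
    h.inj.leftInvOn_invFunOn hq
  refine ⟨Function.invFunOn π (T : Set ℕ), fun p => (ρ (Function.invFunOn π (T : Set ℕ) p)).symm,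
    ⟨?_, ?_, ?_, ?_, ?_⟩, fun q hq => ⟨h0 q hq, by
      dsimp only
      rw [h0 q hq]⟩⟩
  · refine KIso_mk fun p hp => ?_
    obtain ⟨q, hq, rfl⟩ := KIso_exists h hp
    rw [h0 q hq]
    exact (hD' q hq).symm
  · intro p hp p' hp' hpp
    obtain ⟨q, hq, rfl⟩ := KIso_exists h hp
    obtain ⟨q', hq', rfl⟩ := KIso_exists h hp'
    rw [h0 q hq, h0 q' hq'] at hpp
    rw [hpp]
  · rw [h.img, Finset.image_image]
    symm
    refine (Finset.image_congr (g := id) fun q hq => ?_).trans Finset.image_id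
    exact h0 q hq
  · intro p hp
    obtain ⟨q, hq, rfl⟩ := KIso_exists h hp
    dsimp only
    rw [h0 q hq, hD' q hq]
    exact (h.sym q hq).symm
  · intro p hp j
    obtain ⟨q, hq, rfl⟩ := KIso_exists h hp
    rw [h0 q hq]
    have h1 := h.exp q hq ((ρ q).symm j)
    rw [Equiv.apply_symm_apply] at h1
    exact h1.symm

/-- two isomorphisms differ by an automorphism of `Z` -/
theorem Iso.exists_aut (h : Iso Z' Z T' T e' e π ρ) (h' : Iso Z' Z T' T e' e π' ρ') :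
    ∃ (α : ℕ → ℕ) (σ : ℕ → Equiv.Perm ℕ), Iso Z Z T T e e α σ ∧
      (∀ q ∈ T, π q = π' (α q)) ∧ ∀ q ∈ T, ρ q = (σ q).trans (ρ' (α q)) := by
  obtain ⟨π'', ρ'', h2, h3⟩ := h'.symm
  refine ⟨fun q => π'' (π q), fun q => (ρ q).trans (ρ'' (π q)), h2.trans h, fun q hq => ?_,
    fun q hq => ?_⟩
  · obtain ⟨q1, hq1, h4⟩ := KIso_exists h' (KIso_mem h hq)
    dsimp only
    rw [← h4, (h3 q1 hq1).1]
  · obtain ⟨q1, hq1, h4⟩ := KIso_exists h' (KIso_mem h hq)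
    dsimp only
    rw [← h4, (h3 q1 hq1).1, (h3 q1 hq1).2]
    ext j
    simp

theorem Iso.i_eq (h : Iso Z' Z T' T e' e π ρ) : Z'.i = Z.i := by
  exact Hyp.sel_i h.sel

theorem Iso.mem (h : Iso Z' Z T' T e' e π ρ) {q : ℕ} (hq : q ∈ T) : π q ∈ T' := by
  exact KIso_mem h hq

theorem Iso.m_eq (h : Iso Z' Z T' T e' e π ρ) {q : ℕ} (hq : q ∈ T) : Z'.m (π q) = Z.m q := by
  exact Hyp.sel_m h.sel hq

theorem Iso.M_eq (h : Iso Z' Z T' T e' e π ρ) {q : ℕ} (hq : q ∈ T) (j : ℕ) :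
    Z'.M (π q) (ρ q j) = Z.M q j := by
  exact Hyp.sel_M h.sel hq (h.sym q hq) j

theorem Iso.rho_le (h : Iso Z' Z T' T e' e π ρ) {q : ℕ} (hq : q ∈ T) {j : ℕ}
    (hj : Z.m q ≤ j) : ρ q j = j := by
  exact (h.sym q hq).1 j hj

theorem Iso.dm_eq (h : Iso Z' Z T' T e' e π ρ) : Z'.dm T' = Z.dm T := by
  unfold Hyp.dm
  rw [h.img, Finset.sum_image fun x hx y hy hxy => h.inj hx hy hxy]
  congr 1
  refine Finset.sum_congr rfl fun q hq => ?_
  rw [Hyp.sel_m h.sel hq]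

theorem Iso.deg_eq (h : Iso Z' Z T' T e' e π ρ) :
    ∑ q ∈ T', TInc.deg (Z'.D q).F.S = ∑ q ∈ T, TInc.deg (Z.D q).F.S := by
  obtain ⟨i, D⟩ := Z
  obtain ⟨D', rfl, hD'⟩ := KIso_sel h.sel
  rw [h.img, Finset.sum_image fun x hx y hy hxy => h.inj hx hy hxy]
  refine Finset.sum_congr rfl fun q hq => ?_
  change TInc.deg (D' (π q)).F.S = TInc.deg (D q).F.S
  rw [hD' q hq]

theorem Iso.genus_eq (h : Iso Z' Z T' T e' e π ρ) :
    genus k (C Z'.i).L = genus k (C Z.i).L := by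
  obtain ⟨D', rfl, hD'⟩ := KIso_sel h.sel
  rfl

/-- admissible components -/
theorem Iso.adm (h : Iso Z' Z T' T e' e π ρ) (hZ : ∀ q ∈ T, (Z.D q).F.Adm) :
    ∀ q ∈ T', (Z'.D q).F.Adm := by
  obtain ⟨i, D⟩ := Z
  obtain ⟨D', rfl, hD'⟩ := KIso_sel h.sel
  intro p hp
  obtain ⟨q, hq, rfl⟩ := KIso_exists h hp
  change (D' (π q)).F.Adm
  rw [hD' q hq]
  exact hZ q hq

/-- the exponents are nontrivial -/
theorem Iso.exp_pos (h : Iso Z' Z T' T e' e π ρ)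
    (he : ∀ q ∈ T, ∀ j < Z.m q, 0 < e q j ∧ e q j < Z.M q j) :
    ∀ q ∈ T', ∀ j < Z'.m q, 0 < e' q j ∧ e' q j < Z'.M q j := by
  intro p hp j hj
  obtain ⟨q, hq, rfl⟩ := KIso_exists h hp
  rw [Hyp.sel_m h.sel hq] at hj
  obtain ⟨l, rfl⟩ := (ρ q).surjective j
  have hl : l < Z.m q := (h.sym q hq).lt.1 hj
  rw [h.exp q hq, Hyp.sel_M h.sel hq (h.sym q hq)]
  exact he q hq l hl

/-- the selected components of a point -/
theorem Iso.on_tr (h : Iso Z' Z T' T e' e π ρ) {p : Pt C} (hp : (Z'.res (T' : Set ℕ)).On p) :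
    (Z.res (T : Set ℕ)).On (tr (T : Set ℕ) π ρ p) := by
  have h1 : (Z'.res (T' : Set ℕ)).sel (T : Set ℕ) π = Z.res (T : Set ℕ) := by
    rw [← h.sel]
    obtain ⟨i', D'⟩ := Z'
    refine KIso_mk (D := fun q => D' (π q)) (T := (T : Set ℕ)) (π := π) fun q hq => ?_
    exact if_pos (Finset.mem_coe.2 (KIso_mem h hq))
  exact Pool.Agent.HGP.on_tr h1 h.sym hp

/-- the sign of a composition -/
theorem Iso.sg_trans (h : Iso Z'' Z' T'' T' e'' e' π ρ) (h' : Iso Z' Z T' T e' e π' ρ') :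
    sg Z.m T (fun q => π (π' q)) (fun q => (ρ' q).trans (ρ (π' q))) =
      sg Z.m T π' ρ' * sg Z'.m T' π ρ := by
  have h1 := sg_comp (m := Z.m) (m' := Z'.m) (T := T) (π := π) (π' := π') (ρ := ρ) (ρ' := ρ')
    h'.inj (by
      rw [← Finset.coe_image, ← h'.img]
      exact h.inj) (fun q hq => Hyp.sel_m h'.sel hq) (fun q hq j hj => (h'.sym q hq).1 j hj)
    fun q hq j hj => (h.sym (π' q) (KIso_mem h' hq)).1 j (by
      change Z'.m (π' q) ≤ j
      rw [Hyp.sel_m h'.sel hq]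
      exact hj)
  rw [h1, ← h'.img]

end

end Pool.Agent.HGP
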