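import Pool.Agent.HGP.Mov
import Pool.Agent.EFC.Pencil
import Pool.Agent.TInc.Riem

/-!
# Project HGP: class functions of points of the curve

`bridge` for points of the curve (field of definition from `exists_fld` and `exists_gens`), and the
relation for `g + 1` points of the curve.
-/

set_option autoImplicit false
set_option linter.unusedSectionVars false

noncomputable section

namespace Pool.Agent.HGP

open Polynomial Pool.Agent.ZCyc Pool.Agent.Dess Pool.Agent.GT Pool.Agent.TInc Pool.Agent.HGF
open Pool.Agent.VFP (Om tt)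
open scoped Classical

variable {k : Type} [Field k] [IsAlgClosed k] [CharZero k] {L : Type} [Field L] [Algebra k L]
  [Fact (IsCurve k L)] {N : ℕ} {W : Type} [AddCommGroup W] [Module k W]

/-! ### Class functions of points of the curve -/

/-- class functions of `N` points of the curve -/
def IsCFC (L : Type) [Field L] [Algebra k L] [Fact (IsCurve k L)] {N : ℕ} {W : Type}
    [AddCommGroup W] (T : (Fin N → Place k L) → W) : Prop :=
  ∀ (K : Type) [Field K] [Algebra k K] (hK : IsCurve k K) (s : Fin N → Bp k L K) (f : K),
    f ≠ 0 → ((TInc.dv hK f).sum fun v a => a • T fun j => vb v (s j)) = 0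

private theorem vb_base_MovC {v : Place k (Om k)} {s : Bp k L (Om k)} {c : Place k L}
    (h : EFC.BaseValue v s c) : vb v s = c := by
  apply vb_eq
  cases s with
  | inl σ => exact (show c.ring = v.ring.comap σ.toRingHom from h).symm
  | inr d => exact h

/-- `bridge` for points of the curve -/
theorem bridgeC {T : (Fin N → Place k L) → W} (hT : IsCFC L T) (s : Fin N → Bp k L (Om k))
    {c₀ c₁ : k} {C₀ C₁ : W} (h₀ : ∀ v : Place k (Om k), v.At (tt k) c₀ → T (fun j => vb v (s j)) = C₀)
    (h₁ : ∀ v : Place k (Om k), v.At (tt k) c₁ → T (fun j => vb v (s j)) = C₁) : C₀ = C₁ := by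
  let F : ∀ r : Empty, Fam k L ((fun r => r.elim : Empty → ℕ) r) := fun r => r.elim
  have hE : IsCF F (fun (s : Fin N → Place k L) (_ : Fin N → Ix _ → Option k) => T s) :=
    fun K _ _ hK s u f hf _ => hT K hK s f hf
  exact bridge (F := F) hE (u := fun _ i => i.1.elim) (fun j r => r.elim) h₀ h₁

/-- **The relation for `g + 1` points of the curve**: the symmetric sum of a class function which is
zero if one of the points is the base point. Use `EFC.exists_pencil` (`TInc.exists_genus`; if
`s j = o` for some `j` all terms are zero) and `bridgeC` for the symmetric sum. -/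
theorem sum_sym_zero {T : (Fin (EFC.genus k L + 1) → Place k L) → W} (hT : IsCFC L T)
    {o : Place k L} (ho : ∀ s, (∃ j, s j = o) → T s = 0)
    (s : Fin (EFC.genus k L + 1) → Place k L) :
    ∑ π : Equiv.Perm (Fin (EFC.genus k L + 1)), T (fun j => s (π j)) = 0 := by
  by_cases h : ∃ j, s j = o
  · obtain ⟨j, hj⟩ := h
    refine Finset.sum_eq_zero fun π _ => ho _ ⟨π.symm j, ?_⟩
    show s (π (π.symm j)) = o
    rw [Equiv.apply_symm_apply, hj]
  · push Not at h
    have hLc : IsCurve k L := Fact.out
    obtain ⟨S, hS0, hS1⟩ := EFC.exists_pencil hLc (exists_genus _) s o h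
    have hT' : IsCFC L (fun x : Fin (EFC.genus k L + 1) → Place k L =>
        ∑ π : Equiv.Perm (Fin (EFC.genus k L + 1)), T (fun j => x (π j))) := by
      intro K _ _ hK x f hf
      simp only [Finset.smul_sum]
      rw [Finsupp.sum, Finset.sum_comm]
      exact Finset.sum_eq_zero fun π _ => hT K hK (fun j => x (π j)) f hf
    refine bridgeC hT' S (c₀ := 0) (c₁ := 1) (C₁ := 0) ?_ ?_
    · intro v hv
      obtain ⟨π0, hπ0⟩ := hS0 v hv
      have h2 : ∀ j, vb v (S j) = s (π0 j) := fun j => vb_base_MovC (hπ0 j)
      simp only [h2]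
      exact Equiv.sum_comp (Equiv.mulLeft π0) (fun π => T (fun j => s (π j)))
    · intro v hv
      obtain ⟨j, hj⟩ := hS1 v hv
      have h2 : vb v (S j) = o := vb_base_MovC hj
      refine Finset.sum_eq_zero fun π _ => ho _ ⟨π.symm j, ?_⟩
      show vb v (S (π (π.symm j))) = o
      rw [Equiv.apply_symm_apply, h2]

end Pool.Agent.HGP
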