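import Pool.Agent.HGP.KGlue
import Pool.Agent.HGP.KIso
import Pool.Agent.HGP.MovC
import Pool.Agent.HGF.KAlt

/-!
# Package HGP-KAltB: the relation for the permutations of factors of level `some ∅`

Port of `Pool/Agent/HGFC/KAltB.lean`: `g + 1` factors over the same curve of level `some ∅`, and a function
which is zero over the base points. The function of `g + 1` points of the curve is `isCF_gls` with
`Z = crv C i`, `S0 = ∅` (and `Iso` with empty sets, `π = id`, `ρ = 1`; `tr ∅ π ρ p` does not depend on `π`, `ρ`), or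
copy `isCFC_glueP` from `HGFC/KLiftC.lean`; then `sum_sym_zero` (`HGP/MovC.lean`). The degrees `dm ∅` are `1`.
-/

set_option autoImplicit false
set_option linter.unusedSectionVars false

noncomputable section

namespace Pool.Agent.HGP

open Pool.Agent.ZCyc Pool.Agent.Dess Pool.Agent.GT Pool.Agent.TInc Pool.Agent.HGF
open Pool.Agent.ZIso (fixing)
open Pool.Agent.EFC (genus)
open scoped Classical

variable {k : Type} [Field k] [IsAlgClosed k] [CharZero k] {ι : Type} {C : ι → Crv k} {r : ℕ}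
  {X : Fin r → Hyp C} {W : Type} [AddCommGroup W] [Module k W] {T : (Fin r → Pt C) → W}
  {κ : Fin r → Option (Finset ℕ)}

private theorem ex_place_KAltB {i : ι} {p : Σ i, Place k (C i).L} (h : p.1 = i) :
    ∃ s : Place k (C i).L, p = ⟨i, s⟩ := by
  obtain ⟨j, c⟩ := p
  obtain rfl : j = i := h
  exact ⟨c, rfl⟩

private theorem ex_cast_KAltB {K : Type} [Field K] [Algebra k K] {i i' : ι} (h : i' = i)
    (t : Bp k (C i).L K) : ∃ t' : Bp k (C i').L K, (⟨i', t'⟩ : Σ i, Bp k (C i).L K) = ⟨i, t⟩ := by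
  subst h
  exact ⟨t, rfl⟩

private theorem tr_empty_KAltB {A B : Type} (π : ℕ → ℕ) (ρ : ℕ → Equiv.Perm ℕ)
    (p : A × (ℕ → ℕ → Option B)) : tr (∅ : Set ℕ) π ρ p = (p.1, fun _ _ => none) :=
  Prod.ext rfl (funext fun q => funext fun _ => if_neg (Set.notMem_empty q))

private theorem on_pt_KAltB {Z : Hyp C} {i : ι} (h : Z.i = i) (s : Place k (C i).L) :
    (Z.res (∅ : Set ℕ)).On ((⟨i, s⟩, fun _ _ => none) : Pt C) :=
  on_res_empty.2 ⟨h.symm, fun _ _ => rfl⟩

/-- class functions of points of one curve -/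
private theorem isCFC_glueP_KAltB (hX : ∀ a, (X a).Adm) (hE : IsCFP X T) (hd : DepOn X κ T)
    {N : ℕ} {e : Fin N → Fin r} (he : Function.Injective e) (hκ : ∀ j, κ (e j) = some ∅) {i : ι}
    (hi : ∀ j, (X (e j)).i = i) {x0 : Fin r → Pt C} (h0 : OnP X x0) :
    IsCFC (C i).L fun s : Fin N → Place k (C i).L =>
      T (glue e x0 fun j => abv (X (e j)) (∅ : Set ℕ) (⟨i, s j⟩, fun _ _ => none)) := by
  intro K _ _ hK s f hf
  choose s' hs' using fun j => ex_cast_KAltB (C := C) (K := K) (hi j) (s j)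
  obtain ⟨K', _, _, hK', φ, u, hu⟩ := exists_above_K hK (X := fun j => X (e j))
    (fun j => hX (e j)) (T := fun _ => (∅ : Set ℕ))
    (y := fun j => ((⟨(X (e j)).i, s' j⟩, fun _ _ => none) : PtK C K))
    fun j => onK_res.2 ⟨⟨s' j, rfl, fun q hq => absurd hq (Set.notMem_empty q)⟩, fun _ _ _ => rfl⟩
  have := hasRes_of_isCurve hK
  have := hasBelow_of_isCurve hK
  have := hasRes_of_isCurve hK'
  have := hasBelow_of_isCurve hK'
  have hon : OnPK X (glue e (fun a => (x0 a).cst K') u) := by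
    intro a
    by_cases h : ∃ j, e j = a
    · obtain ⟨j, rfl⟩ := h
      rw [glue_apply he]
      exact (hu j).1
    · rw [glue_of _ _ fun j hj => h ⟨j, hj⟩]
      exact onK_cst (h0 a) K'
  have hf' : φ f ≠ 0 := fun h => hf ((map_eq_zero φ).1 h)
  have key := hE K' hK' _ (φ f) hf' hon
  refine HGFC.cf_ext hK hK' φ (G := fun v =>
    T (glue e x0 fun j => abv (X (e j)) (∅ : Set ℕ) (⟨i, vb v (s j)⟩, fun _ _ => none)))
    ?_ hf key
  intro V v hV
  refine hd _ _ (onP_vlc hX V hon) ?_ ?_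
  · intro a
    by_cases h : ∃ j, e j = a
    · obtain ⟨j, rfl⟩ := h
      rw [glue_apply he]
      exact abv_on (hX (e j)) (on_pt_KAltB (hi j) _)
    · rw [glue_of _ _ fun j hj => h ⟨j, hj⟩]
      exact h0 a
  · intro a S hS
    by_cases h : ∃ j, e j = a
    · obtain ⟨j, rfl⟩ := h
      obtain rfl : ∅ = S := Option.some.inj ((hκ j).symm.trans hS)
      rw [glue_apply he, glue_apply he, Finset.coe_empty,
        abv_res (hX (e j)) (on_pt_KAltB (hi j) _)]
      refine Prod.ext ?_ (funext fun q => funext fun _ => if_neg (Set.notMem_empty q))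
      have h1 := congrArg (fun p : Σ i, Bp k (C i).L K' =>
        (⟨p.1, vb V p.2⟩ : Σ i, Place k (C i).L)) (hu j).2.1
      have h2 := congrArg (fun p : Σ i, Bp k (C i).L K =>
        (⟨p.1, vb v p.2⟩ : Σ i, Place k (C i).L)) (hs' j)
      refine Eq.trans h1 (Eq.trans ?_ h2)
      show (⟨(X (e j)).i, vb V (bmap φ (s' j))⟩ : Σ i, Place k (C i).L) =
        ⟨(X (e j)).i, vb v (s' j)⟩
      rw [vb_bmap hV]
    · have h' : ∀ j, e j ≠ a := fun j hj => h ⟨j, hj⟩
      rw [glue_of _ _ h', glue_of _ _ h', vlc_cst]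

theorem alt_base (hX : ∀ a, (X a).Adm) (hT : IsCFP X T) (hd : DepOn X κ T) {w0 : Fin r → Pt C}
    (h0 : ∀ x, OnP X x → (∃ a, κ a = some ∅ ∧ (x a).1 = (w0 a).1) → T x = 0)
    (hw0 : ∀ a b, (X a).i = (X b).i → (w0 a).1 = (w0 b).1) (hw0' : OnP X w0) {l : ℕ}
    {oJ : Fin l → Fin r} (hoJ : Function.Injective oJ) {S : Fin l → Finset ℕ}
    (hκ : ∀ b, κ (oJ b) = some (S b)) {π : Fin l → ℕ → ℕ} {ρ : Fin l → ℕ → Equiv.Perm ℕ}
    {q : Fin l → Pt C} {w : Fin r → Pt C} (τ : Equiv.Perm (Fin l))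
    (hw : OnP X (glue oJ w fun b => plc (X (oJ b)) (S b) (π b) (ρ b) (q (τ b)))) {i : ι}
    {J : Finset (Fin l)} (hJ : ∀ b ∈ J, S b = ∅ ∧ (X (oJ b)).i = i ∧ (q (τ b)).1.1 = i)
    (hc : J.card = genus k (C i).L + 1) :
    ∑ p ∈ fixing J, (((Equiv.Perm.sign p : ℤ) : k) *
      (EFP.kos (fun b => (X (oJ b)).dm (S b)) (τ * p) : k)) •
        T (glue oJ w fun b => plc (X (oJ b)) (S b) (π b) (ρ b) (q ((τ * p) b))) = 0 := by
  set em : Fin (genus k (C i).L + 1) ↪ Fin l := (J.orderEmbOfFin hc).toEmbedding with hem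
  have hemJ : ∀ x, x ∈ J ↔ x ∈ Set.range em := by
    intro x
    have h1 := J.range_orderEmbOfFin hc
    rw [← Finset.mem_coe, ← h1]
    rfl
  have hmem : ∀ a, em a ∈ J := fun a => (hemJ _).2 ⟨a, rfl⟩
  rw [sum_fixing em hemJ]
  have hinj : Function.Injective fun a => oJ (em a) := hoJ.comp em.injective
  have hS1 : ∀ a, S (em a) = ∅ := fun a => (hJ _ (hmem a)).1
  have hκ1 : ∀ a, κ (oJ (em a)) = some ∅ := fun a => (hκ _).trans (congrArg some (hS1 a))
  have hi1 : ∀ a, (X (oJ (em a))).i = i := fun a => (hJ _ (hmem a)).2.1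
  -- the points of the curve
  have hs : ∀ a, ∃ s : Place k (C i).L, (q (τ (em a))).1 = ⟨i, s⟩ := fun a =>
    ex_place_KAltB (hJ _ (hmem a)).2.2
  choose s hs using hs
  obtain ⟨o, ho⟩ : ∃ o : Place k (C i).L, (w0 (oJ (em 0))).1 = ⟨i, o⟩ :=
    ex_place_KAltB ((On.fst (hw0' (oJ (em 0)))).trans (hi1 0))
  have ho' : ∀ a, (w0 (oJ (em a))).1 = ⟨i, o⟩ := fun a => by
    rw [← ho]
    exact hw0 _ _ ((hi1 a).trans (hi1 0).symm)
  set x0 : Fin r → Pt C := glue oJ w fun b => plc (X (oJ b)) (S b) (π b) (ρ b) (q (τ b)) with hx0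
  have hcf := isCFC_glueP_KAltB hX hT hd (e := fun a => oJ (em a)) hinj hκ1 hi1 hw
  have h1 := sum_sym_zero hcf (o := o) (by
    rintro t ⟨j, hj⟩
    refine h0 _ ?_ ⟨oJ (em j), hκ1 j, ?_⟩
    · intro a
      by_cases h : ∃ b, oJ (em b) = a
      · obtain ⟨b, rfl⟩ := h
        rw [glue_apply (e := fun a => oJ (em a)) hinj]
        exact abv_on (hX _) (on_pt_KAltB (hi1 b) _)
      · rw [glue_of (e := fun a => oJ (em a)) _ _ fun b hb => h ⟨b, hb⟩]
        exact hw a
    · rw [glue_apply (e := fun a => oJ (em a)) hinj, abv_fst (hX _) (on_pt_KAltB (hi1 j) _),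
        ho' j, hj]) s
  have h2 := congrArg (fun z => ((EFP.kos (fun b => (X (oJ b)).dm (S b)) τ : ℤ) : k) • z) h1
  beta_reduce at h2
  rw [smul_zero, Finset.smul_sum] at h2
  rw [← h2]
  refine Finset.sum_congr rfl fun p _ => ?_
  have hfix : p.viaEmbedding em ∈ fixing J := by
    rw [mem_fixing_K]
    intro x hx
    rw [hemJ] at hx
    exact Equiv.Perm.viaEmbedding_apply_of_notMem _ _ _ hx
  have hkos := EFP.kos_mul (fun b => (X (oJ b)).dm (S b)) τ (J := J) (e := 1)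
    (fun x hx => by
      unfold Hyp.dm
      rw [(hJ x hx).1, Finset.sum_empty, add_zero]) hfix
  rw [hkos, sign_via]
  have h3 : glue oJ w (fun b => plc (X (oJ b)) (S b) (π b) (ρ b)
      (q ((τ * p.viaEmbedding em) b))) =
      glue (fun a => oJ (em a)) x0 fun a =>
        abv (X (oJ (em a))) (∅ : Set ℕ) (⟨i, s (p a)⟩, fun _ _ => none) := by
    funext a
    by_cases ha : ∃ b, oJ b = a
    · obtain ⟨b, rfl⟩ := ha
      rw [glue_apply hoJ]
      by_cases hb : b ∈ Set.range em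
      · obtain ⟨c, rfl⟩ := hb
        rw [glue_apply (e := fun a => oJ (em a)) hinj, Equiv.Perm.mul_apply,
          Equiv.Perm.viaEmbedding_apply]
        unfold plc
        rw [hS1 c, Finset.coe_empty, tr_empty_KAltB, hs]
      · rw [glue_of (e := fun a => oJ (em a)) _ _ fun c hc => hb ⟨c, hoJ hc⟩, hx0,
          glue_apply hoJ, Equiv.Perm.mul_apply, Equiv.Perm.viaEmbedding_apply_of_notMem _ _ _ hb]
    · push Not at ha
      rw [glue_of _ _ ha, glue_of (e := fun a => oJ (em a)) _ _ fun c => ha _, hx0,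
        glue_of _ _ ha]
  rw [h3]
  congr 1
  rcases Int.units_eq_one_or (Equiv.Perm.sign p) with h | h <;> rw [h] <;> simp

end Pool.Agent.HGP
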