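import Pool.Agent.HGP.KLift
import Pool.Agent.HGFC.KExtC

/-!
# Package HGP-KGlue: class functions of points of one fibre product

As `Pool/Agent/HGFC/KGlue.lean` (`isCF_glueP`, `isEig_glueP` there) and `Pool/Agent/HGFC/KLiftC.lean`. `T` is a
class function on the product of the `X a` which depends only on the projections of the levels `κ`. For
different factors `e j` whose components in the level `κ (e j) = some (S j)` are isomorphic to the
components in `S0` of a variety `Z` (`Iso`), the function `T` is a class function of points of the fibre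
product of the components in `S0` of `Z` (the other factors are constant).

**Proof** of `isCF_gls`. Let `s j`, `u j` be points over `K`. The point
`tr (S j) (π j) (ρ j) (crdT Z S0 (s j) (u j))` lies on `(X (e j)).res (S j)` (`onK_tr`). Take an extension
`φ : K → K'` and points of `X (e j)` above them (`exists_above_K` for the family `X ∘ e`). Let `x'` be the
point of the product over `K'` which is `glue e (fun a => (x0 a).cst K')` of these points (`onK_cst`). The
relation for `T` and `x'` and the function `φ f` holds, and the value of `T` at the value of `x'` at the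
place `V` is the value of `T` at `glue e x0 fun j => plc …` for the place `v` below `V` (`DepOn`; `vb_bmap`,
`vlc_cst`, `vlc_crdT`). So `HGFC.cf_ext` gives the relation for `K` and `f`.

`isEig_gls`: the rotation of the coordinate `x : Ix` of the point `j` is the rotation of the coordinate
`(q, i)` of the factor `e j` with `π j q = x.1`, `ρ j q i = x.2` (up to components which are not in the
level: `DepOn`); the roots of unity: `Hyp.sel_M`; the exponents: `Iso.exp`. Only points on the product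
can be compared, therefore `gls` is zero outside of the fibre product (`OnX` is invariant under rotations,
`onY_mul`).
-/

set_option autoImplicit false
set_option linter.unusedSectionVars false

noncomputable section

namespace Pool.Agent.HGP

open Pool.Agent.ZCyc Pool.Agent.Dess Pool.Agent.GT Pool.Agent.TInc Pool.Agent.HGF
open scoped Classical

variable {k : Type} [Field k] [IsAlgClosed k] [CharZero k] {ι : Type} {C : ι → Crv k} {r : ℕ}
  {X : Fin r → Hyp C} {W : Type} [AddCommGroup W] [Module k W] {T : (Fin r → Pt C) → W}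
  {κ : Fin r → Option (Finset ℕ)} {β : Fin r → ℕ → ℕ → ℕ}

/-- the point of `Z` above the point of the fibre product of the components in `S` which is given by
the point `p` of an isomorphic fibre product -/
def plc (Z : Hyp C) (S : Finset ℕ) (π : ℕ → ℕ) (ρ : ℕ → Equiv.Perm ℕ) (p : Pt C) : Pt C :=
  abv Z (S : Set ℕ) (tr (S : Set ℕ) π ρ p)

/-- The function `T` at the point `x0`, with the factors `e j` replaced by the points with the
coordinates `s j`, `u j` of the isomorphic fibre product (zero outside of the fibre product). -/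
def gls (X : Fin r → Hyp C) (T : (Fin r → Pt C) → W) {N : ℕ} (Z : Hyp C) (S0 : Finset ℕ)
    (e : Fin N → Fin r) (S : Fin N → Finset ℕ) (π : Fin N → ℕ → ℕ)
    (ρ : Fin N → ℕ → Equiv.Perm ℕ) (x0 : Fin r → Pt C) (s : Fin N → Place k (C Z.i).L)
    (u : Fin N → Ix (fun q : S0 => Z.m q) → Option k) : W :=
  if ∀ j, OnX (fun q : S0 => (Z.D q).F) (cp k (s j)) (u j) then
    T (glue e x0 fun j => plc (X (e j)) (S j) (π j) (ρ j) (ptT Z S0 (s j) (u j))) else 0

/-! ### The isomorphic fibre product -/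

private theorem res_sel_KGlue (Z : Hyp C) {T0 T : Set ℕ} {π : ℕ → ℕ}
    (h : ∀ q ∈ T, π q ∈ T0) : (Z.res T0).sel T π = Z.sel T π := by
  have h1 : (fun q => if q ∈ T then (if π q ∈ T0 then Z.D (π q) else .triv) else .triv) =
      fun q => if q ∈ T then Z.D (π q) else .triv := by
    funext q
    by_cases hq : q ∈ T
    · rw [if_pos hq, if_pos hq, if_pos (h q hq)]
    · rw [if_neg hq, if_neg hq]
  change (⟨Z.i, fun q => if q ∈ T then (if π q ∈ T0 then Z.D (π q) else .triv) else .triv⟩ :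
    Hyp C) = ⟨Z.i, fun q => if q ∈ T then Z.D (π q) else .triv⟩
  rw [h1]

private theorem sel_KGlue {Z Z' : Hyp C} {S0 S : Finset ℕ} {e0 b : ℕ → ℕ → ℕ} {π : ℕ → ℕ}
    {ρ : ℕ → Equiv.Perm ℕ} (h : Iso Z Z' S0 S e0 b π ρ) :
    (Z.res (S0 : Set ℕ)).sel (S : Set ℕ) π = Z'.res (S : Set ℕ) := by
  rw [← h.sel]
  refine res_sel_KGlue Z fun q hq => ?_
  rw [h.img]
  exact Finset.mem_coe.2 (Finset.mem_image_of_mem π (Finset.mem_coe.1 hq))

private theorem res_of_KGlue (p : Pt C) {T : Set ℕ} {q : ℕ} (hq : q ∈ T) (i : ℕ) :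
    (p.res T).2 q i = p.2 q i := if_pos hq

private theorem res_none_KGlue (p : Pt C) {T : Set ℕ} {q : ℕ} (hq : q ∉ T) (i : ℕ) :
    (p.res T).2 q i = none := if_neg hq

private theorem tr_of_KGlue {A B : Type} (p : A × (ℕ → ℕ → Option B)) {T : Set ℕ} (π : ℕ → ℕ)
    (ρ : ℕ → Equiv.Perm ℕ) {q : ℕ} (hq : q ∈ T) (i : ℕ) :
    (tr T π ρ p).2 q i = p.2 (π q) (ρ q i) := if_pos hq

private theorem tr_none_KGlue {A B : Type} (p : A × (ℕ → ℕ → Option B)) {T : Set ℕ} (π : ℕ → ℕ)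
    (ρ : ℕ → Equiv.Perm ℕ) {q : ℕ} (hq : q ∉ T) (i : ℕ) :
    (tr T π ρ p).2 q i = none := if_neg hq

private theorem onK_tr_KGlue {Z Z' : Hyp C} {S0 S : Finset ℕ} {e0 b : ℕ → ℕ → ℕ} {π : ℕ → ℕ}
    {ρ : ℕ → Equiv.Perm ℕ} (h : Iso Z Z' S0 S e0 b π ρ) {K : Type} [Field K] [Algebra k K]
    {p : PtK C K} (hp : (Z.res (S0 : Set ℕ)).OnK p) :
    (Z'.res (S : Set ℕ)).OnK (tr (S : Set ℕ) π ρ p) :=
  onK_tr (sel_KGlue h) (fun q hq => h.sym q (Finset.mem_coe.1 hq)) hp

private theorem on_tr_KGlue {Z Z' : Hyp C} {S0 S : Finset ℕ} {e0 b : ℕ → ℕ → ℕ} {π : ℕ → ℕ}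
    {ρ : ℕ → Equiv.Perm ℕ} (h : Iso Z Z' S0 S e0 b π ρ) {p : Pt C}
    (hp : (Z.res (S0 : Set ℕ)).On p) : (Z'.res (S : Set ℕ)).On (tr (S : Set ℕ) π ρ p) :=
  on_tr (sel_KGlue h) (fun q hq => h.sym q (Finset.mem_coe.1 hq)) hp

/-- the points lie on the product -/
theorem onP_gls (hX : ∀ a, (X a).Adm) {N : ℕ} {Z : Hyp C} {S0 : Finset ℕ}
    {e0 : ℕ → ℕ → ℕ} {e : Fin N → Fin r} (he : Function.Injective e) {S : Fin N → Finset ℕ}
    {π : Fin N → ℕ → ℕ} {ρ : Fin N → ℕ → Equiv.Perm ℕ}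
    (hiso : ∀ j, Iso Z (X (e j)) S0 (S j) e0 (β (e j)) (π j) (ρ j)) {x0 : Fin r → Pt C}
    (h0 : OnP X x0) {q : Fin N → Pt C} (hq : ∀ j, (Z.res (S0 : Set ℕ)).On (q j)) :
    OnP X (glue e x0 fun j => plc (X (e j)) (S j) (π j) (ρ j) (q j)) :=
  onP_glue he h0 fun j => abv_on (hX (e j)) (on_tr_KGlue (hiso j) (hq j))

private theorem plc_res_KGlue {Z Z' : Hyp C} (hZ' : Z'.Adm) {S0 S : Finset ℕ}
    {e0 b : ℕ → ℕ → ℕ} {π : ℕ → ℕ} {ρ : ℕ → Equiv.Perm ℕ} (h : Iso Z Z' S0 S e0 b π ρ)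
    {p : Pt C} (hp : (Z.res (S0 : Set ℕ)).On p) :
    (plc Z' S π ρ p).res (S : Set ℕ) = tr (S : Set ℕ) π ρ p :=
  abv_res hZ' (on_tr_KGlue h hp)

/-- class functions of `N` points of one fibre product -/
theorem isCF_gls (hX : ∀ a, (X a).Adm) (hT : IsCFP X T) (hd : DepOn X κ T) {N : ℕ} {Z : Hyp C}
    {S0 : Finset ℕ} (hZ : ∀ q ∈ S0, (Z.D q).F.Adm) {e0 : ℕ → ℕ → ℕ} {e : Fin N → Fin r}
    (he : Function.Injective e) {S : Fin N → Finset ℕ} (hκ : ∀ j, κ (e j) = some (S j))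
    {π : Fin N → ℕ → ℕ} {ρ : Fin N → ℕ → Equiv.Perm ℕ}
    (hiso : ∀ j, Iso Z (X (e j)) S0 (S j) e0 (β (e j)) (π j) (ρ j)) {x0 : Fin r → Pt C}
    (h0 : OnP X x0) :
    IsCF (fun q : S0 => (Z.D q).F) (gls X T Z S0 e S π ρ x0) := by
  intro K _ _ hK s u f hf hs
  obtain ⟨K', _, _, hK', φ, x, hx⟩ := exists_above_K hK (X := fun j => X (e j))
    (fun j => hX (e j)) (T := fun j => (S j : Set ℕ))
    (y := fun j => tr (S j : Set ℕ) (π j) (ρ j) (crdT Z S0 (s j) (u j)))
    fun j => onK_tr_KGlue (hiso j) ((on_crdT Z S0).2 (hs j))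
  have := hasRes_of_isCurve hK
  have := hasBelow_of_isCurve hK
  have := hasRes_of_isCurve hK'
  have := hasBelow_of_isCurve hK'
  have hon : OnPK X (glue e (fun a => (x0 a).cst K') x) := by
    intro a
    by_cases h : ∃ j, e j = a
    · obtain ⟨j, rfl⟩ := h
      rw [glue_apply he]
      exact (hx j).1
    · rw [glue_of _ _ fun j hj => h ⟨j, hj⟩]
      exact onK_cst (h0 a) K'
  have hf' : φ f ≠ 0 := fun h => hf ((map_eq_zero φ).1 h)
  have key := hT K' hK' _ (φ f) hf' hon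
  refine HGFC.cf_ext hK hK' φ (G := fun v => gls X T Z S0 e S π ρ x0 (fun j => vb v (s j))
    (fun j q => vlo v (u j q))) ?_ hf key
  intro V v hV
  have hv : ∀ j, OnX (fun q : S0 => (Z.D q).F) (cp k (vb v (s j))) fun q => vlo v (u j q) :=
    fun j => onX_vlo (fun q => hZ q.1 q.2) v (hs j)
  have hpt : ∀ j, (Z.res (S0 : Set ℕ)).On (ptT Z S0 (vb v (s j)) fun q => vlo v (u j q)) :=
    fun j => (on_ptT Z S0).2 (hv j)
  unfold gls
  rw [if_pos hv]
  refine hd _ _ (onP_vlc hX V hon) (onP_gls hX he hiso h0 hpt) ?_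
  intro a T' hT'
  by_cases h : ∃ j, e j = a
  · obtain ⟨j, rfl⟩ := h
    rw [hκ j] at hT'
    obtain rfl := Option.some.inj hT'
    rw [glue_apply he, glue_apply he, plc_res_KGlue (hX (e j)) (hiso j) (hpt j), ← vlc_crdT,
      ← vlc_map hV (crdT Z S0 (s j) (u j))]
    refine Prod.ext ?_ (funext fun q => funext fun i => ?_)
    · change (vlc V (x j)).1 = (vlc V ((crdT Z S0 (s j) (u j)).map φ)).1
      change (⟨(x j).1.1, vb V (x j).1.2⟩ : Σ i, Place k (C i).L) = _
      rw [(hx j).2.1]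
      rfl
    · by_cases hq : q ∈ (S j : Set ℕ)
      · have h2 := (hx j).2.2 q hq i
        change (x j).2 q i = ((tr (S j : Set ℕ) (π j) (ρ j) (crdT Z S0 (s j) (u j))).2 q i).map φ
          at h2
        rw [tr_of_KGlue _ _ _ hq] at h2
        rw [res_of_KGlue _ hq, tr_of_KGlue _ _ _ hq]
        change vlo V ((x j).2 q i) =
          vlo V (((crdT Z S0 (s j) (u j)).2 (π j q) (ρ j q i)).map φ)
        rw [h2]
      · rw [res_none_KGlue _ hq, tr_none_KGlue _ _ _ hq]
  · have h' : ∀ j, e j ≠ a := fun j hj => h ⟨j, hj⟩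
    rw [glue_of _ _ h', glue_of _ _ h', vlc_cst]

/-! ### Rotations -/

private theorem uself_KGlue {α : Type} {β : α → Type} {_ : DecidableEq α} (f : ∀ a, β a) (a : α)
    (v : β a) : Function.update f a v a = v := Function.update_self _ _ _

private theorem uof_KGlue {α : Type} {β : α → Type} {_ : DecidableEq α} (f : ∀ a, β a) {a a' : α}
    (h : a' ≠ a) (v : β a) : Function.update f a v a' = f a' := Function.update_of_ne h _ _

private theorem onX_rot_KGlue {L : Type} [Field L] [Algebra k L] {κ : Type} {m : κ → ℕ}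
    {F : ∀ r, Fam k L (m r)} {N : ℕ} {s : Fin N → Bp k L k} {u : Fin N → Ix m → Option k}
    (h : ∀ j, OnX F (s j) (u j)) {j : Fin N} {q : Ix m} {ζ : k} (hζ : ζ ^ MX F q = 1) :
    ∀ j', OnX F (s j') (rot j q ζ u j') := by
  intro j'
  unfold rot
  by_cases hj : j' = j
  · subst hj
    rw [uself_KGlue]
    intro p
    by_cases hp : p = q.1
    · subst hp
      have h1 := onY_mul (F := F q.1) (i := q.2) (ζ := ζ) hζ (h j' q.1)
      convert h1 using 1
      funext i
      by_cases hi : i = q.2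
      · subst hi
        rw [uself_KGlue]
        exact uself_KGlue _ _ _
      · rw [uof_KGlue _ hi]
        refine uof_KGlue _ (fun h2 => hi ?_) _
        obtain ⟨q1, q2⟩ := q
        exact eq_of_heq (Sigma.mk.inj h2).2
    · have h2 := h j' p
      convert h2 using 1
      funext i
      exact uof_KGlue _ (fun h2 => hp (congrArg Sigma.fst h2)) _
  · rw [uof_KGlue _ hj]
    exact h j'

private theorem rot_inv_KGlue {N : ℕ} {Q : Type} {j : Fin N} {q : Q} {ζ : k} (hζ : ζ ≠ 0)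
    (u : Fin N → Q → Option k) : rot j q ζ⁻¹ (rot j q ζ u) = u := by
  unfold rot
  rw [Function.update_idem, Function.update_self, Function.update_self, Function.update_idem]
  have h1 : ((u j q).map fun w => ζ * w).map (fun w => ζ⁻¹ * w) = u j q := by
    cases u j q with
    | none => rfl
    | some t =>
      change some (ζ⁻¹ * (ζ * t)) = some t
      rw [inv_mul_cancel_left₀ hζ]
  rw [h1, Function.update_eq_self, Function.update_eq_self]

theorem isEig_gls (hX : ∀ a, (X a).Adm) (hd : DepOn X κ T) (hβ : IsEigL X κ β T) {N : ℕ}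
    {Z : Hyp C} {S0 : Finset ℕ} (hZ : ∀ q ∈ S0, (Z.D q).F.Adm) {e0 : ℕ → ℕ → ℕ}
    {e : Fin N → Fin r} (he : Function.Injective e) {S : Fin N → Finset ℕ}
    (hκ : ∀ j, κ (e j) = some (S j)) {π : Fin N → ℕ → ℕ} {ρ : Fin N → ℕ → Equiv.Perm ℕ}
    (hiso : ∀ j, Iso Z (X (e j)) S0 (S j) e0 (β (e j)) (π j) (ρ j)) {x0 : Fin r → Pt C}
    (h0 : OnP X x0) :
    IsEig (MX fun q : S0 => (Z.D q).F) (fun x : Ix (fun q : S0 => Z.m q) => e0 x.1 x.2)
      (gls X T Z S0 e S π ρ x0) := by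
  intro s u j q ζ hζ
  have hM : 0 < MX (fun q : S0 => (Z.D q).F) q := (hZ q.1.1 q.1.2).M0 q.2
  have hζ0 : ζ ≠ 0 := by
    rintro rfl
    rw [zero_pow hM.ne'] at hζ
    exact zero_ne_one hζ
  unfold gls
  by_cases hu : ∀ j, OnX (fun q : S0 => (Z.D q).F) (cp k (s j)) (u j)
  swap
  · rw [if_neg hu, smul_zero, if_neg]
    intro hu'
    apply hu
    have h1 := onX_rot_KGlue hu' (j := j) (q := q) (ζ := ζ⁻¹) (by rw [inv_pow, hζ, inv_one])
    rwa [rot_inv_KGlue hζ0] at h1
  have hu' := onX_rot_KGlue hu (j := j) (q := q) (ζ := ζ) hζ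
  rw [if_pos hu, if_pos hu']
  obtain ⟨⟨q0, hq0⟩, ⟨i0, hi0⟩⟩ := q
  have hpt : ∀ j, (Z.res (S0 : Set ℕ)).On (ptT Z S0 (s j) (u j)) :=
    fun j => (on_ptT Z S0).2 (hu j)
  have hpt' : ∀ j', (Z.res (S0 : Set ℕ)).On
      (ptT Z S0 (s j') (rot j ⟨⟨q0, hq0⟩, ⟨i0, hi0⟩⟩ ζ u j')) := fun j' => (on_ptT Z S0).2 (hu' j')
  have hI := hiso j
  -- the component and the coordinate of the factor `e j`
  obtain ⟨q1, hq1, hπ⟩ : ∃ q1 ∈ S j, π j q1 = q0 := by
    have h1 := hq0
    rw [hI.img, Finset.mem_image] at h1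
    exact h1
  have hsym := hI.sym q1 hq1
  have hm : Z.m q0 = (X (e j)).m q1 := by
    rw [← hπ]
    exact Hyp.sel_m hI.sel (Finset.mem_coe.2 hq1)
  obtain ⟨i1, hi1⟩ : ∃ i1, ρ j q1 i1 = i0 := ⟨(ρ j q1).symm i0, Equiv.apply_symm_apply _ _⟩
  have hi1' : i1 < (X (e j)).m q1 := by
    have h1 : ρ j q1 i1 < ((X (e j)).D q1).m := by
      rw [hi1]
      change i0 < (X (e j)).m q1
      rw [← hm]
      exact hi0
    exact hsym.lt.1 h1
  have hMe : (X (e j)).M q1 i1 = Z.M q0 i0 := by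
    rw [← hπ, ← hi1]
    exact (Hyp.sel_M hI.sel (Finset.mem_coe.2 hq1) hsym i1).symm
  have hζ' : ζ ^ (X (e j)).M q1 i1 = 1 := by
    rw [hMe, Hyp.M_eq hi0]
    exact hζ
  have hexp : e0 q0 i0 = β (e j) q1 i1 := by
    rw [← hπ, ← hi1]
    exact hI.exp q1 hq1 i1
  have h1 := hβ (e j) (S j) q1 i1 (hκ j) hq1 hi1'
    (glue e x0 fun j => plc (X (e j)) (S j) (π j) (ρ j) (ptT Z S0 (s j) (u j))) ζ hζ'
  change _ = ζ ^ e0 q0 i0 • _
  rw [hexp, ← h1]
  have hP := onP_gls hX he hiso h0 hpt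
  refine hd _ _ (onP_gls hX he hiso h0 hpt') ?_ ?_
  · intro b
    unfold rotc
    by_cases hb : b = e j
    · subst hb
      rw [Function.update_self]
      exact on_rot hi1' hζ' (hP (e j))
    · rw [Function.update_of_ne hb]
      exact hP b
  intro a T' hT'
  by_cases h : ∃ j', e j' = a
  swap
  · have h' : ∀ j, e j ≠ a := fun j hj => h ⟨j, hj⟩
    unfold rotc
    rw [Function.update_of_ne (fun h2 => h' j h2.symm), glue_of _ _ h', glue_of _ _ h']
  obtain ⟨j', rfl⟩ := h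
  rw [hκ j'] at hT'
  obtain rfl := Option.some.inj hT'
  rw [glue_apply he, plc_res_KGlue (hX (e j')) (hiso j') (hpt' j')]
  unfold rotc
  by_cases hj : j' = j
  swap
  · rw [Function.update_of_ne (fun h2 => hj (he h2)), glue_apply he,
      plc_res_KGlue (hX (e j')) (hiso j') (hpt j')]
    unfold rot
    rw [Function.update_of_ne hj]
  subst hj
  rw [Function.update_self, glue_apply he]
  have hres := plc_res_KGlue (hX (e j')) (hiso j') (hpt j')
  have hres1 := congrArg Prod.fst hres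
  refine Prod.ext hres1.symm (funext fun q' => funext fun i' => ?_)
  by_cases hq' : q' ∈ (S j' : Set ℕ)
  swap
  · rw [tr_none_KGlue _ _ _ hq', res_none_KGlue _ hq']
  rw [tr_of_KGlue _ _ _ hq', res_of_KGlue _ hq']
  have hval : ∀ i, (plc (X (e j')) (S j') (π j') (ρ j') (ptT Z S0 (s j') (u j'))).2 q' i =
      (ptT Z S0 (s j') (u j')).2 (π j' q') (ρ j' q' i) := by
    intro i
    have h2 := congrFun (congrFun (congrArg Prod.snd hres) q') i
    rw [tr_of_KGlue _ _ _ hq', res_of_KGlue _ hq'] at h2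
    exact h2
  change _ = Function.update (plc (X (e j')) (S j') (π j') (ρ j')
    (ptT Z S0 (s j') (u j'))).2 q1 _ q' i'
  by_cases hqq : q' = q1
  · subst hqq
    rw [Function.update_self]
    by_cases hii : i' = i1
    · subst hii
      rw [Function.update_self, hval, hπ, hi1]
      have e1 := ptT_snd Z S0 (s j') (rot j' ⟨⟨q0, hq0⟩, ⟨i0, hi0⟩⟩ ζ u j') ⟨⟨q0, hq0⟩, ⟨i0, hi0⟩⟩
      have e2 := ptT_snd Z S0 (s j') (u j') ⟨⟨q0, hq0⟩, ⟨i0, hi0⟩⟩
      refine e1.trans ?_
      refine Eq.trans ?_ (congrArg (Option.map fun t => ζ * t) e2.symm)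
      unfold rot
      rw [uself_KGlue, uself_KGlue]
    · rw [Function.update_of_ne hii, hval, hπ]
      have hne : ρ j' q' i' ≠ i0 := by
        rw [← hi1]
        exact fun h2 => hii ((ρ j' q').injective h2)
      by_cases hlt : ρ j' q' i' < Z.m q0
      · have e1 := ptT_snd Z S0 (s j') (rot j' ⟨⟨q0, hq0⟩, ⟨i0, hi0⟩⟩ ζ u j')
          ⟨⟨q0, hq0⟩, ⟨ρ j' q' i', hlt⟩⟩
        have e2 := ptT_snd Z S0 (s j') (u j') ⟨⟨q0, hq0⟩, ⟨ρ j' q' i', hlt⟩⟩
        refine e1.trans (Eq.trans ?_ e2.symm)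
        unfold rot
        rw [uself_KGlue]
        refine uof_KGlue _ (fun h2 => hne ?_) _
        exact congrArg Fin.val (eq_of_heq (Sigma.mk.inj h2).2)
      · rw [ptT_none Z S0 _ _ fun _ => not_lt.1 hlt, ptT_none Z S0 _ _ fun _ => not_lt.1 hlt]
  · rw [Function.update_of_ne hqq, hval]
    have hne : π j' q' ≠ q0 := by
      rw [← hπ]
      exact fun h2 => hqq (hI.inj hq' (Finset.mem_coe.2 hq1) h2)
    by_cases hlt : π j' q' ∈ S0 ∧ ρ j' q' i' < Z.m (π j' q')
    · have e1 := ptT_snd Z S0 (s j') (rot j' ⟨⟨q0, hq0⟩, ⟨i0, hi0⟩⟩ ζ u j')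
        ⟨⟨π j' q', hlt.1⟩, ⟨ρ j' q' i', hlt.2⟩⟩
      have e2 := ptT_snd Z S0 (s j') (u j') ⟨⟨π j' q', hlt.1⟩, ⟨ρ j' q' i', hlt.2⟩⟩
      refine e1.trans (Eq.trans ?_ e2.symm)
      unfold rot
      rw [uself_KGlue]
      refine uof_KGlue _ (fun h2 => hne ?_) _
      exact congrArg Subtype.val (congrArg Sigma.fst h2)
    · have h3 : π j' q' ∈ S0 → Z.m (π j' q') ≤ ρ j' q' i' :=
        fun h4 => not_lt.1 fun h5 => hlt ⟨h4, h5⟩
      rw [ptT_none Z S0 _ _ h3, ptT_none Z S0 _ _ h3]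

end Pool.Agent.HGP
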