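import Pool.Agent.HGP.KIso
import Pool.Agent.HGP.KGlue
import Pool.Agent.HGP.Blk

/-!
# Automorphisms act by signs

`aut`: the permutations `α`, `σ` of the components in the level and of their coordinates, which preserve
the equations and the exponents, multiply a class function which is an eigenfunction with nontrivial
exponents by `sg`. **Proof.** Apply `blk` (`HGP/Blk.lean`) to the function `gls` of one point (`N = 1`,
`e = fun _ => b`, `Z = X b`, `S0 = S`, the identity isomorphism `Iso.refl`; `isCF_gls`, `isEig_gls`), to the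
permutation `h ⟨q, i⟩ = ⟨α q, σ q i⟩` of `Ix` and `g q = α q` of `S` (`Cmp.Sym.lt`, `Iso.m_eq`; `IsSym` from
`Iso`), and `sg_aut`. The points: `x` has the same projections as `glue` of `ptT` of the coordinates of `x b`
(`DepOn`, `abv_res`), and `x'` the same as that of the permuted coordinates.

`auts`: the same for all factors at the same time (induction over the set of the factors which are
changed; intermediate points: `y` for the factors in the set, `x` for the others).
-/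

set_option autoImplicit false
set_option linter.unusedSectionVars false

noncomputable section

namespace Pool.Agent.HGP

open Pool.Agent.ZCyc Pool.Agent.Dess Pool.Agent.GT Pool.Agent.TInc Pool.Agent.HGF
open scoped Classical

variable {k : Type} [Field k] [IsAlgClosed k] [CharZero k] {ι : Type} {C : ι → Crv k} {r : ℕ}
  {X : Fin r → Hyp C} {W : Type} [AddCommGroup W] [Module k W] {T : (Fin r → Pt C) → W}
  {κ : Fin r → Option (Finset ℕ)} {β : Fin r → ℕ → ℕ → ℕ}

/-- the exponents are nontrivial for the components in the levels -/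
def Ntr (X : Fin r → Hyp C) (κ : Fin r → Option (Finset ℕ)) (β : Fin r → ℕ → ℕ → ℕ) : Prop :=
  ∀ b S, κ b = some S → ∀ q ∈ S, ((X b).D q).F.Adm ∧
    ∀ j < (X b).m q, 0 < β b q j ∧ β b q j < (X b).M q j

/-! ### The permutation of the coordinates -/

omit [IsAlgClosed k] [CharZero k] in
private theorem sel_D_KAut {Z : Hyp C} {T : Set ℕ} {π : ℕ → ℕ} (h : Z.sel T π = Z.res T) {q : ℕ}
    (hq : q ∈ T) : Z.D (π q) = Z.D q := by
  obtain ⟨i, D⟩ := Z
  have h2 : (⟨i, fun r => if r ∈ T then D (π r) else .triv⟩ : Hyp C) =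
      ⟨i, fun r => if r ∈ T then D r else .triv⟩ := h
  injection h2 with h3 h4
  have h5 := congrFun h4 q
  simp only [if_pos hq] at h5
  exact h5

omit [IsAlgClosed k] [CharZero k] in
private theorem cmp_eq_KAut {Z : Hyp C} {S : Finset ℕ} {e : ℕ → ℕ → ℕ} {α : ℕ → ℕ}
    {σ : ℕ → Equiv.Perm ℕ} (hiso : Iso Z Z S S e e α σ) {q : ℕ} (hq : q ∈ S) :
    Z.D (α q) = Z.D q := sel_D_KAut hiso.sel hq

omit [IsAlgClosed k] [CharZero k] in
private theorem fam_eq_KAut {L : Type} [Field L] [Algebra k L] {D D' : Cmp k L} (h : D' = D)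
    {j : Fin D'.m} {j' : Fin D.m} (hj : (j : ℕ) = j') :
    D'.F.E j = D.F.E j' ∧ D'.F.B j = D.F.B j' ∧ D'.F.C j = D.F.C j' ∧ D'.F.M j = D.F.M j' ∧
      D'.F.A = D.F.A := by
  subst h
  obtain rfl := Fin.ext hj
  exact ⟨rfl, rfl, rfl, rfl, rfl⟩

omit [IsAlgClosed k] [CharZero k] in
private theorem famA_eq_KAut {L : Type} [Field L] [Algebra k L] {D D' : Cmp k L} (h : D' = D) :
    D'.F.A = D.F.A := by
  subst h
  rfl

omit [IsAlgClosed k] [CharZero k] in
private theorem exists_perm_KAut {Z : Hyp C} {S : Finset ℕ} {e : ℕ → ℕ → ℕ} {α : ℕ → ℕ}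
    {σ : ℕ → Equiv.Perm ℕ} (hiso : Iso Z Z S S e e α σ) :
    ∃ (h : Equiv.Perm (Ix fun q : S => Z.m q)) (g : Equiv.Perm S),
      (∀ q, (g q : ℕ) = α q) ∧ (∀ x, ((h x).1 : ℕ) = α x.1) ∧
        (∀ x, ((h x).2 : ℕ) = σ x.1 x.2) ∧ ∀ x, (h x).1 = g x.1 := by
  have hmem : ∀ q : S, α q ∈ S := fun q => hiso.mem q.2
  let g0 : S → S := fun q => ⟨α q, hmem q⟩
  have hg0 : Function.Injective g0 := by
    intro q q' h
    exact Subtype.ext (hiso.inj q.2 q'.2 (congrArg Subtype.val h))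
  let g : Equiv.Perm S := Equiv.ofBijective g0 (Finite.injective_iff_bijective.1 hg0)
  have hlt : ∀ x : Ix (fun q : S => Z.m q), σ x.1 x.2 < Z.m (g0 x.1 : ℕ) := by
    intro x
    have h1 : Z.m (g0 x.1 : ℕ) = Z.m x.1 := congrArg Cmp.m (cmp_eq_KAut hiso x.1.2)
    rw [h1]
    exact (hiso.sym x.1 x.1.2).lt.2 x.2.2
  let h0 : Ix (fun q : S => Z.m q) → Ix (fun q : S => Z.m q) := fun x => ⟨g0 x.1, ⟨_, hlt x⟩⟩
  have hh0 : Function.Injective h0 := by
    rintro ⟨q, i⟩ ⟨q', i'⟩ h
    have h1 : g0 q = g0 q' := congrArg Sigma.fst h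
    obtain rfl := hg0 h1
    have h2 : σ q i = σ q i' := by
      have := congrArg (fun x : Ix (fun q : S => Z.m q) => (x.2 : ℕ)) h
      exact this
    have h3 : i = i' := Fin.ext ((σ q).injective h2)
    rw [h3]
  exact ⟨Equiv.ofBijective h0 (Finite.injective_iff_bijective.1 hh0), g, fun q => rfl,
    fun x => rfl, fun x => rfl, fun x => rfl⟩

omit [IsAlgClosed k] [CharZero k] in
private theorem isSym_KAut {Z : Hyp C} {S : Finset ℕ} {e : ℕ → ℕ → ℕ} {α : ℕ → ℕ}
    {σ : ℕ → Equiv.Perm ℕ} (hiso : Iso Z Z S S e e α σ)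
    {h : Equiv.Perm (Ix fun q : S => Z.m q)} {g : Equiv.Perm S} (hg : ∀ q, (g q : ℕ) = α q)
    (h1 : ∀ x, ((h x).1 : ℕ) = α x.1) (h2 : ∀ x, ((h x).2 : ℕ) = σ x.1 x.2)
    (h3 : ∀ x, (h x).1 = g x.1) :
    IsSym (fun q : S => (Z.D q).F) (fun x : Ix (fun q : S => Z.m q) => e x.1 x.2) h g := by
  have key : ∀ x : Ix (fun q : S => Z.m q),
      (Z.D (h x).1).F.E (h x).2 = (Z.D x.1).F.E x.2 ∧
      (Z.D (h x).1).F.B (h x).2 = (Z.D x.1).F.B x.2 ∧
      (Z.D (h x).1).F.C (h x).2 = (Z.D x.1).F.C x.2 ∧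
      (Z.D (h x).1).F.M (h x).2 = (Z.D x.1).F.M x.2 := by
    intro x
    have hD : Z.D (h x).1 = Z.D x.1 := by
      rw [h1 x]
      exact cmp_eq_KAut hiso x.1.2
    have hs := hiso.sym x.1 x.1.2
    obtain ⟨a, b, c, d, -⟩ := fam_eq_KAut hD (j := (h x).2)
      (j' := ⟨σ x.1 x.2, hs.lt.2 x.2.2⟩) (h2 x)
    obtain ⟨a', b', c', d'⟩ := hs.2 x.2 ⟨σ x.1 x.2, hs.lt.2 x.2.2⟩ rfl
    exact ⟨a.trans a'.symm, b.trans b'.symm, c.trans c'.symm, d.trans d'.symm⟩
  refine ⟨h3, fun x => (key x).1, fun x => (key x).2.1, fun x => (key x).2.2.1,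
    fun x => (key x).2.2.2, fun q => ?_, fun x => ?_⟩
  · refine famA_eq_KAut ?_
    rw [hg q]
    exact cmp_eq_KAut hiso q.2
  · show e (h x).1 (h x).2 = e x.1 x.2
    rw [h1, h2]
    exact hiso.exp x.1 x.1.2 x.2

omit [IsAlgClosed k] [CharZero k] in
private theorem tr_pos_KAut {T : Set ℕ} {π : ℕ → ℕ} {ρ : ℕ → Equiv.Perm ℕ} {p : Pt C} {q j : ℕ}
    (h : q ∈ T) : (tr T π ρ p).2 q j = p.2 (π q) (ρ q j) := if_pos h

omit [IsAlgClosed k] [CharZero k] in
private theorem tr_neg_KAut {T : Set ℕ} {π : ℕ → ℕ} {ρ : ℕ → Equiv.Perm ℕ} {p : Pt C} {q j : ℕ}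
    (h : q ∉ T) : (tr T π ρ p).2 q j = none := if_neg h

omit [IsAlgClosed k] [CharZero k] in
private theorem res_pos_KAut {T : Set ℕ} {p : Pt C} {q j : ℕ} (h : q ∈ T) :
    (p.res T).2 q j = p.2 q j := if_pos h

omit [IsAlgClosed k] [CharZero k] in
private theorem tr_id_KAut (S : Finset ℕ) (p : Pt C) :
    (tr (S : Set ℕ) id (fun _ => 1) p : Pt C) = p.res (S : Set ℕ) := rfl

private theorem glue_dep_KAut (hX : ∀ a, (X a).Adm) (hd : DepOn X κ T) {b : Fin r}
    {S : Finset ℕ} (hκ : κ b = some S) {x y : Fin r → Pt C} (hx : OnP X x) (hy : OnP X y)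
    (h : ∀ c, c ≠ b → x c = y c) :
    T (glue (fun _ : Fin 1 => b) x fun _ =>
      plc (X b) S id (fun _ => 1) ((y b).res (S : Set ℕ))) = T y := by
  have hon : ((X b).res (S : Set ℕ)).On ((y b).res (S : Set ℕ)) := On.res (hy b) _
  have hpl : plc (X b) S id (fun _ => 1) ((y b).res (S : Set ℕ)) =
      abv (X b) (S : Set ℕ) ((y b).res (S : Set ℕ)) := by
    unfold plc
    rw [tr_id_KAut, On.res_self hon]
  rw [hpl]
  have he : Function.Injective fun _ : Fin 1 => b := fun i j _ => Subsingleton.elim i j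
  have hb : glue (fun _ : Fin 1 => b) x (fun _ =>
      abv (X b) (S : Set ℕ) ((y b).res (S : Set ℕ))) b =
      abv (X b) (S : Set ℕ) ((y b).res (S : Set ℕ)) :=
    glue_apply he x (fun _ => abv (X b) (S : Set ℕ) ((y b).res (S : Set ℕ))) 0
  have hc : ∀ c, c ≠ b → glue (fun _ : Fin 1 => b) x (fun _ =>
      abv (X b) (S : Set ℕ) ((y b).res (S : Set ℕ))) c = x c := fun c hc =>
    glue_of x _ fun _ h1 => hc h1.symm
  refine hd _ _ (fun c => ?_) hy fun c T' hT' => ?_
  · by_cases hcb : c = b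
    · subst hcb
      rw [hb]
      exact abv_on (hX _) hon
    · rw [hc c hcb]
      exact hx c
  · by_cases hcb : c = b
    · subst hcb
      rw [hκ] at hT'
      obtain rfl := Option.some.inj hT'
      rw [hb]
      exact abv_res (hX _) hon
    · rw [hc c hcb, h c hcb]

private theorem sign_inst_KAut {α : Type} (i₁ i₂ : DecidableEq α) (j₁ j₂ : Fintype α)
    (e : Equiv.Perm α) : @Equiv.Perm.sign α i₁ j₁ e = @Equiv.Perm.sign α i₂ j₂ e := by
  rw [Subsingleton.elim i₁ i₂, Subsingleton.elim j₁ j₂]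

theorem aut (hX : ∀ a, (X a).Adm) (hT : IsCFP X T) (hd : DepOn X κ T) (hβ : IsEigL X κ β T)
    (hn : Ntr X κ β) {b : Fin r} {S : Finset ℕ} (hκ : κ b = some S) {α : ℕ → ℕ}
    {σ : ℕ → Equiv.Perm ℕ} (hiso : Iso (X b) (X b) S S (β b) (β b) α σ) {x x' : Fin r → Pt C}
    (hx : OnP X x) (hx' : OnP X x') (h : ∀ c, c ≠ b → x c = x' c)
    (hb : (x' b).res (S : Set ℕ) = tr (S : Set ℕ) α σ (x b)) :
    T x' = sg (X b).m S α σ • T x := by
  have hZ : ∀ q ∈ S, ((X b).D q).F.Adm := fun q hq => (hn b S hκ q hq).1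
  have he : Function.Injective fun _ : Fin 1 => b := fun i j _ => Subsingleton.elim i j
  have hid : ∀ _ : Fin 1, Iso (X b) (X b) S S (β b) (β b) id fun _ => 1 := fun _ =>
    Iso.refl _ _ _
  have hcf := isCF_gls hX hT hd (Z := X b) (S0 := S) hZ (e0 := β b) (e := fun _ : Fin 1 => b) he
    (S := fun _ => S) (fun _ => hκ) (π := fun _ => id) (ρ := fun _ _ => 1) hid hx
  have heig := isEig_gls hX hd hβ (Z := X b) (S0 := S) hZ (e0 := β b)
    (e := fun _ : Fin 1 => b) he (S := fun _ => S) (fun _ => hκ) (π := fun _ => id)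
    (ρ := fun _ _ => 1) hid hx
  obtain ⟨hp, g, hg, h1, h2, h3⟩ := exists_perm_KAut hiso
  have hs := isSym_KAut hiso hg h1 h2 h3
  have hon : ((X b).res (S : Set ℕ)).On ((x b).res (S : Set ℕ)) := On.res (hx b) _
  obtain ⟨s, hsp, hsX⟩ := ptT_of_on hon
  have hbk : ∀ q : Ix (fun q : S => (X b).m q), 0 < β b q.1 q.2 ∧
      β b q.1 q.2 < MX (fun q : S => ((X b).D q).F) q := by
    intro q
    have h4 := (hn b S hκ q.1 q.1.2).2 q.2 q.2.2
    rw [Hyp.M_eq q.2.2] at h4
    exact h4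
  have key := blk (F := fun q : S => ((X b).D q).F) (fun q => hZ q q.2) hbk hcf heig hs
    (s := fun _ => s) (u := fun _ q => ((x b).res (S : Set ℕ)).2 q.1 q.2) fun _ => hsX
  have hsg := sg_aut hg (fun q hq => hiso.m_eq hq) h1 h2 (fun q hq j hj => hiso.rho_le hq hj)
    fun q hq => (hZ q hq).one
  have hsX' := hs.onX hsX
  have hpt : ptT (X b) S s (fun q => ((x b).res (S : Set ℕ)).2 (hp q).1 (hp q).2) =
      (x' b).res (S : Set ℕ) := by
    rw [hb]
    refine Prod.ext ?_ (funext fun q => funext fun j => ?_)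
    · have h4 := congrArg Prod.fst hsp
      exact h4.symm
    · by_cases hq : q ∈ S
      · rw [tr_pos_KAut (show q ∈ (S : Set ℕ) from hq)]
        by_cases hj : j < (X b).m q
        · have h4 := ptT_snd (X b) S s
            (fun q => ((x b).res (S : Set ℕ)).2 (hp q).1 (hp q).2) ⟨⟨q, hq⟩, ⟨j, hj⟩⟩
          refine h4.trans ?_
          rw [h1, h2]
          exact res_pos_KAut (show α q ∈ (S : Set ℕ) from hiso.mem hq)
        · rw [ptT_none _ _ _ _ fun _ => not_lt.1 hj, hiso.rho_le hq (not_lt.1 hj)]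
          refine (On.none (hx b) ?_).symm
          rw [hiso.m_eq hq]
          exact not_lt.1 hj
      · rw [ptT_none _ _ _ _ fun h4 => absurd h4 hq,
          tr_neg_KAut (show q ∉ (S : Set ℕ) from hq)]
  have e1 : gls X T (X b) S (fun _ : Fin 1 => b) (fun _ => S) (fun _ => id) (fun _ _ => 1) x
      (fun _ => s) (fun _ q => ((x b).res (S : Set ℕ)).2 q.1 q.2) = T x := by
    unfold gls
    rw [if_pos fun _ => hsX]
    beta_reduce
    rw [← hsp]
    exact glue_dep_KAut hX hd hκ hx hx fun _ _ => rfl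
  have e2 : gls X T (X b) S (fun _ : Fin 1 => b) (fun _ => S) (fun _ => id) (fun _ _ => 1) x
      (fun _ => s) (fun _ q => ((x b).res (S : Set ℕ)).2 (hp q).1 (hp q).2) = T x' := by
    unfold gls
    rw [if_pos fun _ => hsX']
    beta_reduce
    rw [hpt]
    exact glue_dep_KAut hX hd hκ hx hx' h
  refine (e2.symm.trans key).trans ?_
  rw [e1, hsg]
  exact congrArg₂ (fun a b : ℤˣ => ((a : ℤ) * (b : ℤ)) • T x) (sign_inst_KAut _ _ _ _ hp)
    (sign_inst_KAut _ _ _ _ g)

theorem auts (hX : ∀ a, (X a).Adm) (hT : IsCFP X T) (hd : DepOn X κ T) (hβ : IsEigL X κ β T)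
    (hn : Ntr X κ β) {α : Fin r → ℕ → ℕ} {σ : Fin r → ℕ → Equiv.Perm ℕ}
    (hiso : ∀ b S, κ b = some S → Iso (X b) (X b) S S (β b) (β b) (α b) (σ b))
    {x y : Fin r → Pt C} (hx : OnP X x) (hy : OnP X y)
    (h : ∀ b S, κ b = some S → (y b).res (S : Set ℕ) = tr (S : Set ℕ) (α b) (σ b) (x b)) :
    T y = (∏ b, (κ b).elim 1 fun S => sg (X b).m S (α b) (σ b)) • T x := by
  have key : ∀ B : Finset (Fin r), T (fun a => if a ∈ B then y a else x a) =
      (∏ b ∈ B, (κ b).elim 1 fun S => sg (X b).m S (α b) (σ b)) • T x := by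
    intro B
    induction B using Finset.induction_on with
    | empty => simp
    | insert b B hb ih =>
      have hon : ∀ B : Finset (Fin r), OnP X fun a => if a ∈ B then y a else x a := by
        intro B a
        dsimp only
        split_ifs
        · exact hy a
        · exact hx a
      have hne : ∀ c, c ≠ b → (if c ∈ B then y c else x c) =
          if c ∈ insert b B then y c else x c := by
        intro c hc
        by_cases hcB : c ∈ B
        · rw [if_pos hcB, if_pos (Finset.mem_insert_of_mem hcB)]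
        · rw [if_neg hcB, if_neg fun h1 => (Finset.mem_insert.1 h1).elim hc hcB]
      rw [Finset.prod_insert hb, mul_smul, ← ih]
      rcases hκ : κ b with _ | S
      · rw [Option.elim_none, one_smul]
        refine hd _ _ (hon _) (hon _) fun c T' hT' => ?_
        have hc : c ≠ b := by
          rintro rfl
          rw [hκ] at hT'
          exact absurd hT' (by simp)
        rw [hne c hc]
      · rw [Option.elim_some]
        refine aut hX hT hd hβ hn hκ (hiso b S hκ) (hon _) (hon _) hne ?_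
        rw [if_pos (Finset.mem_insert_self b B), if_neg hb]
        exact h b S hκ
  have h1 := key Finset.univ
  simpa using h1

end Pool.Agent.HGP
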