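import Pool.Agent.HGP.KCf

/-!
# Package HGP-KBas: reduction to functions which are zero over the base points

Port of `Pool/Agent/HGFC/KBas.lean`; the level `1` (the point of the curve) is now `some ∅`.
-/

set_option autoImplicit false
set_option linter.unusedSectionVars false

noncomputable section

namespace Pool.Agent.HGP

open Pool.Agent.ZCyc Pool.Agent.Dess Pool.Agent.GT Pool.Agent.TInc Pool.Agent.HGF
open scoped Classical

variable {k : Type} [Field k] [IsAlgClosed k] [CharZero k] {ι : Type} {C : ι → Crv k} {r : ℕ}
  {X : Fin r → Hyp C} {W : Type} [AddCommGroup W] [Module k W]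

/-- the points with the component `b` equal to a given point -/
private theorem onP_upd_KBas {x w : Fin r → Pt C} (hx : OnP X x) (hw : OnP X w) (b : Fin r) :
    OnP X (Function.update x b (w b)) := by
  intro a
  by_cases h : a = b
  · subst h
    rw [Function.update_self]
    exact hw a
  · rw [Function.update_of_ne h]
    exact hx a

private theorem isCFP_upd_KBas {T : (Fin r → Pt C) → W} (hT : IsCFP X T) {w : Fin r → Pt C}
    (hw : OnP X w) (b : Fin r) : IsCFP X fun x => T (Function.update x b (w b)) := by
  intro K _ _ hK x f hf hx
  have h1 : OnPK X (Function.update x b ((w b).cst K)) := by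
    intro a
    by_cases h : a = b
    · subst h
      rw [Function.update_self]
      exact onK_cst (hw a) K
    · rw [Function.update_of_ne h]
      exact hx a
  have h2 := hT K hK _ f hf h1
  have h3 : ∀ v : Place k K, (fun j => vlc v (Function.update x b ((w b).cst K) j)) =
      Function.update (fun j => vlc v (x j)) b (w b) := by
    intro v
    funext j
    by_cases h : j = b
    · subst h
      rw [Function.update_self, Function.update_self, vlc_cst]
    · rw [Function.update_of_ne h, Function.update_of_ne h]
  simp only [h3] at h2
  exact h2

private theorem isCFP_sub_KBas {T T' : (Fin r → Pt C) → W} (hT : IsCFP X T)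
    (hT' : IsCFP X T') : IsCFP X fun x => T x - T' x := by
  intro K _ _ hK x f hf hx
  have h1 := hT K hK x f hf hx
  have h2 := hT' K hK x f hf hx
  unfold Finsupp.sum at h1 h2 ⊢
  simp only [smul_sub, Finset.sum_sub_distrib]
  rw [h1, h2, sub_zero]

private theorem rotc_upd_KBas {a b : Fin r} (h : a ≠ b) (q j : ℕ) (ζ : k) (x : Fin r → Pt C)
    (p : Pt C) : Function.update (rotc a q j ζ x) b p = rotc a q j ζ (Function.update x b p) := by
  unfold rotc
  rw [Function.update_of_ne h, Function.update_comm h.symm]

private theorem res_empty_KBas {p p' : Pt C} (h : p.1 = p'.1) :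
    p.res ((∅ : Finset ℕ) : Set ℕ) = p'.res ((∅ : Finset ℕ) : Set ℕ) := by
  unfold Pt.res
  rw [h]
  congr 1
  funext i j
  rw [if_neg (by simp), if_neg (by simp)]

private theorem step_KBas {Φ : ((Fin r → Pt C) → W) → Prop}
    (hadd : ∀ E E', Φ E → Φ E' → Φ fun x => E x + E' x) {κ : Fin r → Option (Finset ℕ)}
    {β : Fin r → ℕ → ℕ → ℕ} {w0 : Fin r → Pt C} (hw0 : OnP X w0)
    (hlow : ∀ (T : (Fin r → Pt C) → W) (b : Fin r), κ b = some ∅ → IsCFP X T →
      DepOn X (Function.update κ b none) T → Φ T)
    (hzero : ∀ T : (Fin r → Pt C) → W, IsCFP X T → DepOn X κ T → IsEigL X κ β T →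
      (∀ x, OnP X x → (∃ a, κ a = some ∅ ∧ (x a).1 = (w0 a).1) → T x = 0) → Φ T)
    (S : Finset (Fin r)) : ∀ T : (Fin r → Pt C) → W, IsCFP X T → DepOn X κ T → IsEigL X κ β T →
      (∀ x, OnP X x → ∀ a, a ∉ S → κ a = some ∅ → (x a).1 = (w0 a).1 → T x = 0) → Φ T := by
  induction S using Finset.induction_on with
  | empty =>
    intro T hT hd hβ h
    refine hzero T hT hd hβ fun x hx ⟨a, ha, ha'⟩ => h x hx a (Finset.notMem_empty a) ha ha'
  | insert b S hb ih =>
    intro T hT hd hβ h
    by_cases hκ : κ b = some ∅
    · have hT1 := isCFP_upd_KBas hT hw0 b
      have h1 : Φ fun x => T x - T (Function.update x b (w0 b)) := by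
        refine ih _ (isCFP_sub_KBas hT hT1) ?_ ?_ ?_
        · intro x x' hx hx' h2
          have e1 : T x = T x' := hd x x' hx hx' h2
          have e2 : T (Function.update x b (w0 b)) = T (Function.update x' b (w0 b)) := by
            refine hd _ _ (onP_upd_KBas hx hw0 b) (onP_upd_KBas hx' hw0 b) ?_
            intro a A ha
            by_cases hab : a = b
            · subst hab
              rw [Function.update_self, Function.update_self]
            · rw [Function.update_of_ne hab, Function.update_of_ne hab]
              exact h2 a A ha
          show T x - T (Function.update x b (w0 b)) = T x' - T (Function.update x' b (w0 b))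
          rw [e1, e2]
        · intro a A q j ha hq hj x ζ hζ
          have hab : a ≠ b := by
            rintro rfl
            rw [hκ, Option.some.injEq] at ha
            subst ha
            exact absurd hq (Finset.notMem_empty q)
          show T (rotc a q j ζ x) - T (Function.update (rotc a q j ζ x) b (w0 b)) =
            ζ ^ β a q j • (T x - T (Function.update x b (w0 b)))
          rw [rotc_upd_KBas hab, hβ a A q j ha hq hj x ζ hζ, hβ a A q j ha hq hj _ ζ hζ,
            smul_sub]
        · intro x hx a ha hκa hxa
          show T x - T (Function.update x b (w0 b)) = 0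
          by_cases hab : a = b
          · subst hab
            have e1 : T x = T (Function.update x a (w0 a)) := by
              refine hd _ _ hx (onP_upd_KBas hx hw0 a) ?_
              intro c A hc
              by_cases hca : c = a
              · subst hca
                rw [Function.update_self]
                rw [hκ, Option.some.injEq] at hc
                subst hc
                exact res_empty_KBas hxa
              · rw [Function.update_of_ne hca]
            rw [← e1, sub_self]
          · have ha' : a ∉ insert b S := by
              rw [Finset.mem_insert]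
              rintro (h2 | h2)
              · exact hab h2
              · exact ha h2
            have e1 := h x hx a ha' hκa hxa
            have e2 := h _ (onP_upd_KBas hx hw0 b) a ha' hκa (by
              rw [Function.update_of_ne hab]
              exact hxa)
            rw [e1, e2, sub_zero]
      have h2 : Φ fun x => T (Function.update x b (w0 b)) := by
        refine hlow _ b hκ hT1 ?_
        intro x x' hx hx' h2
        refine hd _ _ (onP_upd_KBas hx hw0 b) (onP_upd_KBas hx' hw0 b) ?_
        intro a A ha
        by_cases hab : a = b
        · subst hab
          rw [Function.update_self, Function.update_self]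
        · rw [Function.update_of_ne hab, Function.update_of_ne hab]
          refine h2 a A ?_
          rw [Function.update_of_ne hab]
          exact ha
      have h3 := hadd _ _ h1 h2
      have h4 : (fun x => T x - T (Function.update x b (w0 b)) +
          T (Function.update x b (w0 b))) = T := by
        funext x
        rw [sub_add_cancel]
      rw [h4] at h3
      exact h3
    · refine ih T hT hd hβ fun x hx a ha hκa hxa => h x hx a ?_ hκa hxa
      rw [Finset.mem_insert]
      rintro (h2 | h2)
      · exact hκ (h2 ▸ hκa)
      · exact ha h2

/-- Reduction to functions which are zero over the base points `w0`. Let `Φ` be closed under sums,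
and true for the functions which do not depend on one of the factors of level `some ∅`. Then it is
enough to consider functions which are zero if one of the points of the curves of the factors of
level `some ∅` is the base point. **Proof.** Induction over the set of the factors `b` of level
`some ∅` for which this is not yet known: `T = (T - T_b) + T_b`, `T_b x = T (update x b (w0 b))`. Both are
class functions, `DepOn κ` (`T_b` even for `update κ b none`), eigenfunctions for the components in the
levels, and if `T` is zero over the base point of the factor `b'` then also `T_b` and `T - T_b`. (`T` at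
two points with the same point of the curve of the factor `b` of level `some ∅` and equal other
factors is equal, `DepOn`.) -/
theorem base_induction (hX : ∀ a, (X a).Adm) {Φ : ((Fin r → Pt C) → W) → Prop}
    (hadd : ∀ E E', Φ E → Φ E' → Φ fun x => E x + E' x) {κ : Fin r → Option (Finset ℕ)}
    {β : Fin r → ℕ → ℕ → ℕ} {w0 : Fin r → Pt C} (hw0 : OnP X w0)
    (hlow : ∀ (T : (Fin r → Pt C) → W) (b : Fin r), κ b = some ∅ → IsCFP X T →
      DepOn X (Function.update κ b none) T → Φ T)
    (hzero : ∀ T : (Fin r → Pt C) → W, IsCFP X T → DepOn X κ T → IsEigL X κ β T →
      (∀ x, OnP X x → (∃ a, κ a = some ∅ ∧ (x a).1 = (w0 a).1) → T x = 0) → Φ T)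
    {T : (Fin r → Pt C) → W} (hT : IsCFP X T) (hd : DepOn X κ T) (hβ : IsEigL X κ β T) :
    Φ T := by
  exact step_KBas hadd hw0 hlow hzero Finset.univ T hT hd hβ
    fun _ _ a ha => absurd (Finset.mem_univ a) ha

end Pool.Agent.HGP
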