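import Pool.Agent.HGP.KMor

/-!
# Class functions on products, isomorphisms of fibre products

1. `IsCFP X E`: class functions of the points of a product. `EigAt X a q j e E`: eigenfunctions for the
rotations of the coordinate `u_(q, j)` of the factor `a`. `DepOn X κ E`: `E` depends only on the
projections of the levels `κ`.
2. `Iso Z' Z T' T e' e π ρ`: the components in `T` of `Z` with the exponents `e` are the components in `T'` of
`Z'` with the exponents `e'`: the component `q ∈ T` of `Z` is the component `π q` of `Z'`, and the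
coordinate `j` is the coordinate `ρ q j`. The map from `Z'` to `Z.res T` is `tr T π ρ`.
3. `sg m T π ρ`: the sign of an isomorphism (the sign in `Comp.sgn`).
-/

set_option autoImplicit false

noncomputable section

namespace Pool.Agent.HGP

open Pool.Agent.ZCyc Pool.Agent.Dess Pool.Agent.GT Pool.Agent.TInc Pool.Agent.HGF
open scoped Classical

variable {k : Type} [Field k] {ι : Type} {C : ι → Crv k} {r r' : ℕ}

/-! ### Class functions -/

/-- `E` is a class function of the points of the product -/
def IsCFP [IsAlgClosed k] [CharZero k] (X : Fin r → Hyp C) {W : Type} [AddCommGroup W]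
    (E : (Fin r → Pt C) → W) : Prop :=
  ∀ (K : Type) [Field K] [Algebra k K] (hK : IsCurve k K) (x : Fin r → PtK C K) (f : K),
    f ≠ 0 → OnPK X x → ((TInc.dv hK f).sum fun v a => a • E fun j => vlc v (x j)) = 0

/-- the coordinate `u_(q, j)` of the factor `a` is multiplied by `ζ` -/
def rotc (a : Fin r) (q j : ℕ) (ζ : k) (x : Fin r → Pt C) : Fin r → Pt C :=
  Function.update x a ((x a).1, Function.update (x a).2 q
    (Function.update ((x a).2 q) j (((x a).2 q j).map fun t => ζ * t)))

/-- `E` is an eigenfunction for the rotations of the coordinate `u_(q, j)` of the factor `a` -/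
def EigAt (X : Fin r → Hyp C) {W : Type} [AddCommGroup W] [Module k W] (a : Fin r) (q j e : ℕ)
    (E : (Fin r → Pt C) → W) : Prop :=
  ∀ x (ζ : k), ζ ^ (X a).M q j = 1 → E (rotc a q j ζ x) = ζ ^ e • E x

/-- `E` is an eigenfunction with the exponents `β` -/
def IsEigP (X : Fin r → Hyp C) {W : Type} [AddCommGroup W] [Module k W]
    (β : Fin r → ℕ → ℕ → ℕ) (E : (Fin r → Pt C) → W) : Prop :=
  ∀ a q j, j < (X a).m q → EigAt X a q j (β a q j) E

/-- `E` is an eigenfunction with the exponents `β` for the components in the levels `κ` -/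
def IsEigL (X : Fin r → Hyp C) {W : Type} [AddCommGroup W] [Module k W]
    (κ : Fin r → Option (Finset ℕ)) (β : Fin r → ℕ → ℕ → ℕ) (E : (Fin r → Pt C) → W) : Prop :=
  ∀ a T q j, κ a = some T → q ∈ T → j < (X a).m q → EigAt X a q j (β a q j) E

/-- `E` depends only on the projections of the levels `κ` -/
def DepOn (X : Fin r → Hyp C) {W : Type} (κ : Fin r → Option (Finset ℕ))
    (E : (Fin r → Pt C) → W) : Prop :=
  ∀ x x', OnP X x → OnP X x' →
    (∀ a T, κ a = some T → (x a).res (T : Set ℕ) = (x' a).res (T : Set ℕ)) → E x = E x'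

/-! ### Isomorphisms of fibre products -/

/-- the components in `T` of `Z` with the exponents `e` are the components in `T'` of `Z'` with the
exponents `e'` -/
structure Iso (Z' Z : Hyp C) (T' T : Finset ℕ) (e' e : ℕ → ℕ → ℕ) (π : ℕ → ℕ)
    (ρ : ℕ → Equiv.Perm ℕ) : Prop where
  sel : Z'.sel (T : Set ℕ) π = Z.res (T : Set ℕ)
  inj : Set.InjOn π (T : Set ℕ)
  img : T' = T.image π
  sym : ∀ q ∈ T, (Z.D q).Sym (ρ q)
  exp : ∀ q ∈ T, ∀ j, e' (π q) (ρ q j) = e q j

/-- the sign -/
def sg (m : ℕ → ℕ) (T : Finset ℕ) (π : ℕ → ℕ) (ρ : ℕ → Equiv.Perm ℕ) : ℤ :=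
  (∏ q ∈ T, ∏ q' ∈ T with q < q' ∧ π q' < π q, (-1) ^ ((m q - 1) * (m q' - 1))) *
    ∏ q ∈ T, ∏ j ∈ Finset.range (m q),
      ∏ j' ∈ Finset.range (m q) with j < j' ∧ ρ q j' < ρ q j, (-1)

end Pool.Agent.HGP
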