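import Pool.Agent.HGP.KIso

/-!
# Package HGP-KCmp: the components of morphisms

The data `f.A`, `f.pi`, `f.rho`, `f.zet` of a component `f` of a morphism; `f.Inj S`: the components in `S` are
different components of the source. The connection of `Comp.Pulls`, `Comp.sgn`, `Comp.fct` with `Iso`, `sg`
(most statements: `cases f`, then the definitions).
-/

set_option autoImplicit false
set_option linter.unusedSectionVars false

noncomputable section

namespace Pool.Agent.HGP

open Pool.Agent.ZCyc Pool.Agent.Dess Pool.Agent.GT Pool.Agent.TInc Pool.Agent.HGF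
open scoped Classical

variable {k : Type} [Field k] {ι : Type} {C : ι → Crv k} {r : ℕ} {X : Fin r → Hyp C}

section

variable {Z : Hyp C}

/-- the components of `Z` which are components of the source -/
def Comp.A : Comp X Z → Set ℕ
  | .const _ _ => ∅
  | .map _ A _ _ _ _ _ _ _ _ _ => A

def Comp.pi : Comp X Z → ℕ → ℕ
  | .const _ _ => id
  | .map _ _ π _ _ _ _ _ _ _ _ => π

def Comp.rho : Comp X Z → ℕ → Equiv.Perm ℕ
  | .const _ _ => fun _ => 1
  | .map _ _ _ ρ _ _ _ _ _ _ _ => ρ

def Comp.zet : Comp X Z → ℕ → ℕ → k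
  | .const _ _ => fun _ _ => 1
  | .map _ _ _ _ ζ _ _ _ _ _ _ => ζ

/-- the components in `S` are different components of the source -/
def Comp.Inj (f : Comp X Z) (S : Finset ℕ) : Prop :=
  (S : Set ℕ) ⊆ f.A ∧ Set.InjOn f.pi (S : Set ℕ)

theorem Comp.sel_eq {f : Comp X Z} {a : Fin r} (h : f.src = some a) :
    (X a).sel f.A f.pi = Z.res f.A := by
  cases f with
  | const w hw => cases h
  | map a' A π ρ ζ t hX hA hρ hζ ht =>
    obtain rfl : a' = a := Option.some.inj h
    exact hX

theorem Comp.A_one {f : Comp X Z} {a : Fin r} (h : f.src = some a) {q : ℕ} (hq : Z.m q = 1) :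
    q ∈ f.A ∧ ∀ q' ∈ f.A, f.pi q' = f.pi q → q' = q := by
  cases f with
  | const w hw => cases h
  | map a' A π ρ ζ t hX hA hρ hζ ht => exact hA q hq

theorem Comp.rho_sym (f : Comp X Z) (q : ℕ) : (Z.D q).Sym (f.rho q) := by
  cases f with
  | const w hw => exact Cmp.Sym.one _
  | map a' A π ρ ζ t hX hA hρ hζ ht => exact hρ q

theorem Comp.zet_pow (f : Comp X Z) (q j : ℕ) : f.zet q j ^ Z.M q j = 1 := by
  cases f with
  | const w hw => exact one_pow _
  | map a' A π ρ ζ t hX hA hρ hζ ht => exact hζ q j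

/-- the image of a point for the components in `S ⊆ A` -/
theorem Comp.app_res {f : Comp X Z} {a : Fin r} (h : f.src = some a) {S : Set ℕ}
    (hS : S ⊆ f.A) (x : Fin r → Pt C) :
    (f.app x).res S = Pt.res (mulc f.zet (tr S f.pi f.rho (x a))) S := by
  cases f with
  | const w hw => cases h
  | map a' A π ρ ζ t hX hA hρ hζ ht =>
    obtain rfl : a' = a := Option.some.inj h
    refine Prod.ext rfl (funext fun q => funext fun j => ?_)
    change (if q ∈ S then (if q ∈ A then ((x a').2 (π q) (ρ q j)).map (fun w => ζ q j * w)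
        else evp (x a').1 Z.i (t q j)) else none) =
      if q ∈ S then ((if q ∈ S then (x a').2 (π q) (ρ q j) else none).map fun w => ζ q j * w)
        else none
    by_cases hq : q ∈ S
    · have hqA : q ∈ A := hS hq
      rw [if_pos hq, if_pos hq, if_pos hq, if_pos hqA]
    · rw [if_neg hq, if_neg hq]

/-- the image of a point for the components in `S`: it depends only on the projection of the point to
the components `π q`, `q ∈ S ∩ A` -/
theorem Comp.app_res_eq {f : Comp X Z} {a : Fin r} (h : f.src = some a) {S S' : Set ℕ}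
    (hS : ∀ q ∈ S, q ∈ f.A → f.pi q ∈ S') {x x' : Fin r → Pt C}
    (hx : (x a).res S' = (x' a).res S') : (f.app x).res S = (f.app x').res S := by
  cases f with
  | const w hw => rfl
  | map a' A π ρ ζ t hX hA hρ hζ ht =>
    obtain rfl : a' = a := Option.some.inj h
    have h1 : (x a').1 = (x' a').1 := by
      have h3 : ((x a').res S').1 = ((x' a').res S').1 := by rw [hx]
      exact h3
    have h2 : ∀ q ∈ S', ∀ j, (x a').2 q j = (x' a').2 q j := by
      intro q hq j
      have h3 := congrFun (congrFun (congrArg (fun p : Pt C => p.2) hx) q) j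
      change (if q ∈ S' then (x a').2 q j else none) =
        if q ∈ S' then (x' a').2 q j else none at h3
      rwa [if_pos hq, if_pos hq] at h3
    refine Prod.ext h1 (funext fun q => funext fun j => ?_)
    change (if q ∈ S then (if q ∈ A then ((x a').2 (π q) (ρ q j)).map (fun w => ζ q j * w)
        else evp (x a').1 Z.i (t q j)) else none) =
      if q ∈ S then (if q ∈ A then ((x' a').2 (π q) (ρ q j)).map (fun w => ζ q j * w)
        else evp (x' a').1 Z.i (t q j)) else none
    by_cases hq : q ∈ S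
    · rw [if_pos hq, if_pos hq]
      by_cases hqA : q ∈ A
      · rw [if_pos hqA, if_pos hqA, h2 (π q) (hS q hq hqA)]
      · rw [if_neg hqA, if_neg hqA, h1]
    · rw [if_neg hq, if_neg hq]

theorem Comp.sgn_form {f : Comp X Z} {a : Fin r} (h : f.src = some a) (S : Finset ℕ) (j : ℕ)
    (e : ℕ → ℕ → ℕ) : f.sgn (.form S j e) = sg Z.m S f.pi f.rho := by
  cases f with
  | const w hw => cases h
  | map a' A π ρ ζ t hX hA hρ hζ ht => rfl

theorem Comp.sgn_zero (f : Comp X Z) : f.sgn .zero = 1 := by
  cases f <;> rfl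

theorem Comp.fct_form (f : Comp X Z) (S : Finset ℕ) (j : ℕ) (e : ℕ → ℕ → ℕ) :
    f.fct (.form S j e) = ∏ q ∈ S, ∏ l ∈ Finset.range (Z.m q), f.zet q l ^ e q l := by
  cases f with
  | const w hw =>
    change (1 : k) = ∏ q ∈ S, ∏ l ∈ Finset.range (Z.m q), (1 : k) ^ e q l
    simp
  | map a' A π ρ ζ t hX hA hρ hζ ht => rfl

theorem Comp.fct_zero (f : Comp X Z) : f.fct .zero = 1 := by
  cases f <;> rfl

theorem Comp.not_pulls_zero {f : Comp X Z} {c : Lab} {a : Fin r} : ¬ f.Pulls c a .zero := by
  cases f <;> cases c <;> exact id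

/-- the pull-back of a form -/
theorem Comp.pulls_iff {f : Comp X Z} {S S' : Finset ℕ} {j j' : ℕ} {e e' : ℕ → ℕ → ℕ}
    {a : Fin r} : f.Pulls (.form S j e) a (.form S' j' e') ↔
      f.src = some a ∧ j' = j ∧ f.Inj S ∧ Iso (X a) Z S' S e' e f.pi f.rho ∧
        ∀ q, q ∉ S' → ∀ l, e' q l = 0 := by
  cases f with
  | const w hw =>
    constructor
    · intro h
      exact h.elim
    · rintro ⟨h, -⟩
      cases h
  | map a' A π ρ ζ t hX hA hρ hζ ht =>
    constructor
    · rintro ⟨rfl, h1, h2, h3, h4, h5, h6⟩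
      exact ⟨rfl, h4, ⟨h1, h2⟩, ⟨Hyp.sel_mono hX h1, h2, h3, fun q _ => hρ q, h5⟩, h6⟩
    · rintro ⟨h0, h4, ⟨h1, h2⟩, h3, h6⟩
      exact ⟨Option.some.inj h0, h1, h2, h3.img, h4, h3.exp, h6⟩

/-- if the components in `S` are different components of the source then there is a form on the
source (`e' (π q) (ρ q l) = e q l`) -/
theorem Comp.Inj.exists_form {f : Comp X Z} {S : Finset ℕ} (h : f.Inj S) {a : Fin r}
    (ha : f.src = some a) (e : ℕ → ℕ → ℕ) :
    ∃ e', f.Pulls (.form S 0 e) a (.form (S.image f.pi) 0 e') := by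
  have h0 : ∀ q ∈ S, Function.invFunOn f.pi (S : Set ℕ) (f.pi q) = q := fun q hq =>
    h.2.leftInvOn_invFunOn hq
  refine ⟨fun p l => if p ∈ S.image f.pi then
    e (Function.invFunOn f.pi (S : Set ℕ) p)
      ((f.rho (Function.invFunOn f.pi (S : Set ℕ) p)).symm l) else 0, ?_⟩
  rw [Comp.pulls_iff]
  refine ⟨ha, rfl, h, ⟨Hyp.sel_mono (Comp.sel_eq ha) h.1, h.2, rfl, fun q _ => f.rho_sym q,
    fun q hq j => ?_⟩, fun q hq l => if_neg hq⟩
  rw [if_pos (Finset.mem_image_of_mem f.pi hq), h0 q hq, Equiv.symm_apply_apply]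

end

end Pool.Agent.HGP
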