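import Pool.Agent.HGP.KPatB
import Pool.Agent.HGP.KAut

/-!
# Package HGP-KCoef: the coefficients

A combination of morphisms which kills the forms of degree `dimS Y κ`, for the labels given by words `w`,
`w'`. **Proof.** `KillsForms` for `c = labY κ β v'`, `c' = labX φ v` with `v' (oJ b) = w' b`, `v (oI a) = w a` (and
`0` elsewhere): `admLab_labY`, `degL_labY`; `IsPull f c c'` is equivalent to `Pat f κ β φ ∧ w ∘ per f = w'`
(`isPull_iff`); `sgnF_eq`, `fct_eq`; `dcol_col`.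
-/

set_option autoImplicit false
set_option linter.unusedSectionVars false

noncomputable section

namespace Pool.Agent.HGP

open Pool.Agent.ZCyc Pool.Agent.Dess Pool.Agent.GT Pool.Agent.TInc Pool.Agent.HGF
open Pool.Agent.EFP (kos)
open scoped Classical

variable {k : Type} [Field k] [IsAlgClosed k] [CharZero k] {ι : Type} {C : ι → Crv k} {r r' : ℕ}
  {X : Fin r → Hyp C} {Y : Fin r' → Hyp C} {κ : Fin r' → Option (Finset ℕ)}
  {β : Fin r' → ℕ → ℕ → ℕ} {φ : Fin r → Option (Finset ℕ × (ℕ → ℕ → ℕ))}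

theorem coef_pat (hn : Ntr Y κ β)
    (hβ2 : ∀ b S, κ b = some S → ∀ q j, ¬ (q ∈ S ∧ j < (Y b).m q) → β b q j = 0)
    {γ : Mor X Y →₀ ℚ} (hγ : KillsForms γ (dimS Y κ)) {l : ℕ} {oI : Fin l → Fin r}
    {oJ : Fin l → Fin r'} (hoI : StrictMono oI) (hoJ : StrictMono oJ)
    (hI : ∀ a, φ a ≠ none ↔ ∃ i, oI i = a) (hJ : ∀ b, κ b ≠ none ↔ ∃ i, oJ i = b)
    {S : Fin l → Finset ℕ} (hS : ∀ b, κ (oJ b) = some (S b)) {per : Mor X Y → Equiv.Perm (Fin l)}
    (hper : ∀ f, Pat f κ β φ → ∀ b, (f (oJ b)).src = some (oI (per f b))) {w w' : Fin l → ℕ}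
    (hw' : ∀ b, w' b < dcol (col (Y (oJ b), S b, β (oJ b)))) :
    ∑ f ∈ γ.support.filter (fun f => Pat f κ β φ ∧ w ∘ per f = w'),
      (γ f : k) * (((∏ b, sg (Y (oJ b)).m (S b) (f (oJ b)).pi (f (oJ b)).rho) *
        kos (fun b => (Y (oJ b)).dm (S b)) (per f) : ℤ) : k) *
          rtS Y κ β (fun b => (f b).zet) = 0 := by
  set v' : Fin r' → ℕ := Function.extend oJ w' 0 with hv'
  set v : Fin r → ℕ := Function.extend oI w 0 with hv
  have hv'1 : ∀ b, v' (oJ b) = w' b := fun b => hoJ.injective.extend_apply w' 0 b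
  have hv1 : ∀ a, v (oI a) = w a := fun a => hoI.injective.extend_apply w 0 a
  have hadm : ∀ b, AdmLab (Y b) (labY κ β v' b) := by
    refine fun b => admLab_labY (fun b S hb q hq => ?_) hβ2 (fun b S' hb => ?_) b
    · exact ⟨(hn b S hb q hq).1.one, (hn b S hb q hq).2⟩
    · obtain ⟨i, rfl⟩ := (hJ b).1 (by rw [hb]; simp)
      rw [hS i, Option.some.injEq] at hb
      subst hb
      rw [hv'1, ← dcol_col]
      exact hw' i
  have hk := hγ (labY κ β v') hadm (degL_labY κ β v') (labX φ v)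
  rw [← hk]
  refine Finset.sum_congr (Finset.filter_congr fun f _ => ?_) fun f hf => ?_
  · rw [isPull_iff]
    refine and_congr_right fun hp => ⟨fun h b a hb ha => ?_, fun h => ?_⟩
    · obtain ⟨i, rfl⟩ := (hJ b).1 hb
      rw [hper f hp i, Option.some.injEq] at ha
      rw [← ha, hv1, hv'1, ← h]
      rfl
    · funext i
      have h1 := h (oJ i) (oI (per f i)) ((hJ _).2 ⟨i, rfl⟩) (hper f hp i)
      rw [hv1, hv'1] at h1
      exact h1
  · have hp : Pat f κ β φ := (isPull_iff.1 (Finset.mem_filter.1 hf).2).1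
    rw [sgnF_eq hoI hoJ (fun j hj => (hJ j).1 hj) hS v' (hper f hp), fct_eq]

end Pool.Agent.HGP
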