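import Pool.Agent.HGP.KIso

/-!
# Colours

The colour of the triple `p = (Z, S, e)` (a variety with a finite set of components and exponents) is its
isomorphism class, as a set of triples. `rf p`: the representative of the colour of `p`; `dt p`: the number
of the forms with the exponents `e` (`g` for `S = ∅`, otherwise `deg + g - 1`); `dcol c`: the same for a
colour.
-/

set_option autoImplicit false
set_option linter.unusedSectionVars false

noncomputable section

namespace Pool.Agent.HGP

open Pool.Agent.ZCyc Pool.Agent.Dess Pool.Agent.GT Pool.Agent.TInc Pool.Agent.HGF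
open Pool.Agent.EFC (genus)
open scoped Classical

variable {k : Type} [Field k] {ι : Type} {C : ι → Crv k}

/-- a variety with a finite set of components and exponents -/
abbrev Tri (C : ι → Crv k) : Type := Hyp C × Finset ℕ × (ℕ → ℕ → ℕ)

/-- isomorphic triples -/
def IsoR (p q : Tri C) : Prop := ∃ π ρ, Iso p.1 q.1 p.2.1 q.2.1 p.2.2 q.2.2 π ρ

theorem IsoR.refl (p : Tri C) : IsoR p p := ⟨_, _, Iso.refl _ _ _⟩

theorem IsoR.symm {p q : Tri C} (h : IsoR p q) : IsoR q p := by
  obtain ⟨π, ρ, h⟩ := h
  obtain ⟨π', ρ', h', -⟩ := h.symm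
  exact ⟨π', ρ', h'⟩

theorem IsoR.trans {p q s : Tri C} (h : IsoR p q) (h' : IsoR q s) : IsoR p s := by
  obtain ⟨π, ρ, h⟩ := h
  obtain ⟨π', ρ', h'⟩ := h'
  exact ⟨_, _, h.trans h'⟩

/-- the colour of a triple -/
def col (p : Tri C) : Set (Tri C) := {q | IsoR q p}

theorem col_eq {p q : Tri C} : col p = col q ↔ IsoR p q := by
  constructor
  · intro h
    have h1 : p ∈ col p := IsoR.refl p
    rw [h] at h1
    exact h1
  · intro h
    ext x
    exact ⟨fun h1 => IsoR.trans h1 h, fun h1 => IsoR.trans h1 h.symm⟩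

theorem col_nonempty (p : Tri C) : (col p).Nonempty := ⟨p, IsoR.refl p⟩

/-- the representative of the colour -/
def rf (p : Tri C) : Tri C := (col_nonempty p).some

theorem rf_iso (p : Tri C) : IsoR (rf p) p := (col_nonempty p).some_mem

theorem rf_eq {p q : Tri C} (h : col p = col q) : rf p = rf q := by
  have key : ∀ (s t : Set (Tri C)) (hs : s.Nonempty) (ht : t.Nonempty), s = t →
      hs.some = ht.some := by
    rintro s t hs ht rfl
    rfl
  exact key _ _ _ _ h

/-- the number of the forms -/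
def dt (p : Tri C) : ℕ :=
  if p.2.1 = ∅ then genus k (C p.1.i).L
  else (∑ q ∈ p.2.1, TInc.deg (p.1.D q).F.S + genus k (C p.1.i).L - 1).toNat

private theorem empty_of_KCol {p q : Tri C} (h : IsoR p q) (hp : p.2.1 = ∅) : q.2.1 = ∅ := by
  obtain ⟨π, ρ, h⟩ := h
  refine Finset.eq_empty_of_forall_notMem fun x hx => ?_
  have h1 := h.mem hx
  rw [hp] at h1
  exact Finset.notMem_empty _ h1

theorem dt_eq {p q : Tri C} (h : IsoR p q) : dt p = dt q := by
  have h1 : p.2.1 = ∅ ↔ q.2.1 = ∅ := ⟨empty_of_KCol h, empty_of_KCol h.symm⟩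
  obtain ⟨π, ρ, h⟩ := h
  unfold dt
  rw [h.genus_eq, h.deg_eq]
  by_cases h2 : q.2.1 = ∅
  · rw [if_pos h2, if_pos (h1.2 h2)]
  · rw [if_neg h2, if_neg fun h3 => h2 (h1.1 h3)]

/-- the number of the forms for a colour -/
def dcol (c : Set (Tri C)) : ℕ := if h : c.Nonempty then dt h.some else 0

theorem dcol_col (p : Tri C) : dcol (col p) = dt p := by
  unfold dcol
  rw [dif_pos (col_nonempty p)]
  exact dt_eq (col_nonempty p).some_mem

end Pool.Agent.HGP
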