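import Pool.Agent.HGP.KCf

/-!
# Package HGP-KComA: the images of points over a field

Port of `Pool/Agent/HGFC/KComA.lean`. For a point `x` of the product over `K` there is a point `y` of `Z`
over `K` such that its values are the images of the values of `x`. Constants: `w.cst K`. For
`map a A π ρ ζ t …`: for `q ∈ A` the coordinates `(x a).2 (π q) (ρ q j)` multiplied by the constants
`algebraMap k K (ζ q j)` (`vlo_mul`), for `q ∉ A` the images `(t q j).map σ` if the point of the curve of
`x a` is `Sum.inl σ`, and the constant values if it is `Sum.inr c` (`vlo_vb`, `on_evp`). The point `y`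
lies on `Z`: `onK_tr`, `onK_mulc`, `onY_map`.
-/

set_option autoImplicit false
set_option linter.unusedSectionVars false

noncomputable section

namespace Pool.Agent.HGP

open Pool.Agent.ZCyc Pool.Agent.Dess Pool.Agent.GT Pool.Agent.TInc Pool.Agent.HGF
open scoped Classical

variable {k : Type} [Field k] {ι : Type} {C : ι → Crv k} {r r' : ℕ} {X : Fin r → Hyp C}
  {Y : Fin r' → Hyp C} {W : Type} [AddCommGroup W]

private theorem root_ne_KComA {Z : Hyp C} (hZ : Z.Adm) {ζ : ℕ → ℕ → k}
    (hζ : ∀ q j, ζ q j ^ Z.M q j = 1) (q j : ℕ) : ζ q j ≠ 0 := by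
  intro h
  have h1 := hζ q j
  rw [h, zero_pow (Hyp.M_pos hZ q j).ne'] at h1
  exact zero_ne_one h1

/-- the sections over a point of the curve over a field -/
private theorem sec_KComA [IsAlgClosed k] [CharZero k] {Z : Hyp C} (hZ : Z.Adm) {T : Set ℕ}
    {t : ℕ → ℕ → Option (C Z.i).L}
    (ht : (Z.res T).OnK (K := (C Z.i).L) (⟨Z.i, Sum.inl (AlgHom.id k _)⟩, t))
    {K : Type} [Field K] [Algebra k K] [HasBelow k K] (s : Bp k (C Z.i).L K) :
    ∃ w : ℕ → ℕ → Option K, (Z.res T).OnK ((⟨Z.i, s⟩, w) : PtK C K) ∧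
      ∀ (v : Place k K) (q j : ℕ), vlo v (w q j) = vlo (vb v s) (t q j) := by
  rcases s with σ | c
  · refine ⟨fun q j => (t q j).map σ, onK_map σ ht, fun v q j => ?_⟩
    have h3 : v.ring.comap (σ : (C Z.i).L →+* K) = (vb v (Sum.inl σ : Bp k (C Z.i).L K)).ring :=
      ovr_vb v (Sum.inl σ : Bp k (C Z.i).L K)
    exact vlo_alg h3 (t q j)
  · have h1 := onK_cst (on_evp hZ ht (s := ⟨Z.i, c⟩) rfl) K
    refine ⟨_, h1, fun v q j => ?_⟩
    refine (vlo_const v _).trans ?_
    exact dif_pos rfl

/-- the points over a field -/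
theorem Comp.exists_appK [IsAlgClosed k] [CharZero k] {Z : Hyp C} (hZ : Z.Adm) (f : Comp X Z)
    {K : Type} [Field K] [Algebra k K] (hK : IsCurve k K) {x : Fin r → PtK C K}
    (hx : OnPK X x) : ∃ y : PtK C K, Z.OnK y ∧
      ∀ v : Place k K, vlc v y = f.app fun a => vlc v (x a) := by
  have := hasRes_of_isCurve hK
  have := hasBelow_of_isCurve hK
  cases f with
  | const w hw => exact ⟨w.cst K, onK_cst hw K, fun v => vlc_cst v w⟩
  | map a A π ρ ζ t hX hA hρ hζ ht =>
    obtain ⟨⟨s, hs, hY⟩, hn⟩ := onK_res.1 (onK_tr hX (fun q _ => hρ q) (hx a))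
    have hs' : (x a).1 = ⟨Z.i, s⟩ := hs
    obtain ⟨w, hw, hv⟩ := sec_KComA hZ ht s
    obtain ⟨⟨s', hs1, hwY⟩, hwn⟩ := onK_res.1 hw
    have hss : s' = s := by
      have h4 : (⟨Z.i, s⟩ : Σ i, Bp k (C i).L K) = ⟨Z.i, s'⟩ := hs1
      exact (eq_of_heq (Sigma.mk.inj h4).2).symm
    subst hss
    refine ⟨(⟨Z.i, s'⟩, fun q j => if q ∈ A then
      ((x a).2 (π q) (ρ q j)).map fun u => algebraMap k K (ζ q j) * u else w q j),
      ⟨⟨s', rfl, fun q => ?_⟩, fun q j hj => ?_⟩, fun v => ?_⟩
    · by_cases hq : q ∈ A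
      · have h5 := onY_mulc (D := Z.D q) (ζ := fun j => algebraMap k K (ζ q j)) (fun j => by
          have h6 := hζ q j
          rw [Hyp.M_eq j.isLt] at h6
          change algebraMap k K (ζ q j) ^ _ = 1
          rw [← map_pow]
          exact (congrArg (algebraMap k K) h6).trans (map_one _)) (hY q hq)
        change OnY (Z.D q).F s' fun j => if q ∈ A then
          ((x a).2 (π q) (ρ q j)).map fun u => algebraMap k K (ζ q j) * u else w q j
        simp only [if_pos hq]
        have h7 : ∀ j, (tr A π ρ (x a)).2 q j = (x a).2 (π q) (ρ q j) := fun j => if_pos hq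
        simp only [h7] at h5
        exact h5
      · change OnY (Z.D q).F s' fun j => if q ∈ A then
          ((x a).2 (π q) (ρ q j)).map fun u => algebraMap k K (ζ q j) * u else w q j
        simp only [if_neg hq]
        exact hwY q hq
    · change (if q ∈ A then ((x a).2 (π q) (ρ q j)).map fun u => algebraMap k K (ζ q j) * u
        else w q j) = none
      by_cases hq : q ∈ A
      · rw [if_pos hq]
        have h5 := hn q j fun _ => hj
        change (if q ∈ A then (x a).2 (π q) (ρ q j) else none) = none at h5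
        rw [if_pos hq] at h5
        rw [h5]
        rfl
      · rw [if_neg hq]
        exact hwn q j fun _ => hj
    · have h1 : (vlc v (x a)).1 = (⟨Z.i, vb v s'⟩ : Σ i, Place k (C i).L) := by
        change (⟨(x a).1.1, vb v (x a).1.2⟩ : Σ i, Place k (C i).L) = _
        rw [hs']
      refine Prod.ext h1.symm (funext fun q => funext fun j => ?_)
      change vlo v (if q ∈ A then ((x a).2 (π q) (ρ q j)).map fun u =>
          algebraMap k K (ζ q j) * u else w q j) =
        if q ∈ A then (vlo v ((x a).2 (π q) (ρ q j))).map fun u => ζ q j * u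
          else evp (vlc v (x a)).1 Z.i (t q j)
      by_cases hq : q ∈ A
      · rw [if_pos hq, if_pos hq]
        exact vlo_mul v (root_ne_KComA hZ hζ q j) _
      · rw [if_neg hq, if_neg hq, hv, h1]
        symm
        exact dif_pos rfl

/-- the composition with a morphism is a class function -/
theorem isCFP_comp [IsAlgClosed k] [CharZero k] {E : (Fin r' → Pt C) → W}
    (hY : ∀ b, (Y b).Adm) (hE : IsCFP Y E) (f : Mor X Y) : IsCFP X fun x => E (f.app x) := by
  intro K _ _ hK x g hg hx
  choose y hy1 hy2 using fun b => Comp.exists_appK (hY b) (f b) hK hx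
  have h := hE K hK y g hg hy1
  have h1 : ∀ v : Place k K, (fun j => vlc v (y j)) = f.app fun a => vlc v (x a) := by
    intro v
    funext b
    exact hy2 b v
  simp only [h1] at h
  exact h

end Pool.Agent.HGP
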