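import Pool.Agent.HGP.Defs

/-!
# Products of fibre products over curves: morphisms, the filtration, holomorphic forms

`C i`, `i : ι`, are smooth projective curves over `k`, given by their function fields. A variety
`Z : Hyp C` of the class is the fibre product over the curve `C i` of finitely many components `Z.D r`,
the hypersurfaces `∏ (B_j(s) - C_j(s) u_(r, j) ^ M_j) = A(s)` in the product of the curve `C i` and of
`m ≥ 1` projective lines with the coordinates `u_(r, j)`, `j < m`. For the other `r` the component is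
trivial (`m = 0`, the equation is `1 = 1`); without components `Z` is the curve `C i`. In order to
compare the points of different varieties, the coordinates `u_(r, j)` are indexed by natural numbers,
and `u_(r, j) = none` for `j ≥ m`.

1. `RatP X R`: the zero-cycles on the product of the varieties `X a` which are rationally equivalent
to zero.
2. `Mor X Y`: morphisms of products. Every factor of `Y` is mapped constantly, or it is the image of a
factor `X a` over the same curve: the component `r ∈ A` is the component `π r` of `X a`, with permuted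
coordinates multiplied by roots of unity of order `M_j`; the components `r ∉ A` are sections over the
curve. The components with `m = 1` belong to `A`, and they are images of different components.
3. `Fil X ν`: the cycles which are killed by all projections of dimension `< ν` to products of fibre
products of some of the components of the factors.
4. Holomorphic forms on `Z`: for every finite set `T` of components (also `∅`) there are forms of
degree `1 + ∑_(r ∈ T) (m r - 1)`, the residues
`ω_(j, a) = ω_j ∏_(r ∈ T) (∏_l u_(r, l) ^ (a_(r, l) - 1) du_(r, 0) ... du_(r, m r - 1) / dΦ_r)`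
where the `ω_j` are a basis of the sections of `K + ∑_(r ∈ T) ∑_l E_(r, l)` (`K` is a canonical divisor
of the curve; `deg + g - 1` sections if `T ≠ ∅`, `g` for `T = ∅`), and `0 < a_(r, l) < M_(r, l)`. The forms on a
product are the exterior products of these forms for some of the factors.
-/

set_option autoImplicit false

noncomputable section

namespace Pool.Agent.HGP

open Pool.Agent.ZCyc Pool.Agent.Dess Pool.Agent.GT Pool.Agent.TInc Pool.Agent.HGF
open Pool.Agent.EFC (genus)
open scoped Classical

/-- a smooth projective curve over `k`, given by its function field -/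
structure Crv (k : Type) [Field k] : Type 1 where
  /-- the function field -/
  L : Type
  [field : Field L]
  [algebra : Algebra k L]
  curve : IsCurve k L

attribute [instance] Crv.field Crv.algebra

instance {k : Type} [Field k] (C : Crv k) : Fact (IsCurve k C.L) := ⟨C.curve⟩

/-- a component: the number `m` of the coordinates and the equation -/
structure Cmp (k L : Type) [Field k] [Field L] [Algebra k L] where
  m : ℕ
  F : Fam k L m

/-- the trivial component: no coordinates, the equation is `1 = 1` -/
abbrev Cmp.triv {k L : Type} [Field k] [Field L] [Algebra k L] : Cmp k L :=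
  ⟨0, fun j => j.elim0, fun j => j.elim0, fun j => j.elim0, 1, fun j => j.elim0⟩

/-- a permutation of the coordinates of a component which preserves the equation -/
def Cmp.Sym {k L : Type} [Field k] [Field L] [Algebra k L] (D : Cmp k L) (ρ : Equiv.Perm ℕ) :
    Prop :=
  (∀ j, D.m ≤ j → ρ j = j) ∧ ∀ j j' : Fin D.m, ρ j = j' →
    D.F.E j = D.F.E j' ∧ D.F.B j = D.F.B j' ∧ D.F.C j = D.F.C j' ∧ D.F.M j = D.F.M j'

variable {k : Type} [Field k] {ι : Type}

/-- a fibre product over the curve `C i` -/
structure Hyp (C : ι → Crv k) where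
  /-- the curve -/
  i : ι
  /-- the components -/
  D : ℕ → Cmp k (C i).L

variable {C : ι → Crv k}

/-- the curve `C i` -/
abbrev crv (C : ι → Crv k) (i : ι) : Hyp C := ⟨i, fun _ => .triv⟩

/-- the assumptions: finitely many components, with the assumptions `Fam.Adm` -/
def Hyp.Adm (Z : Hyp C) : Prop :=
  (∃ R, ∀ r, R ≤ r → Z.D r = .triv) ∧ ∀ r, Z.D r = .triv ∨ (Z.D r).F.Adm

/-- the number of the coordinates of a component -/
abbrev Hyp.m (Z : Hyp C) (r : ℕ) : ℕ := (Z.D r).m

/-- the exponent of the coordinate `u_(r, j)` (`1` for `j ≥ m`) -/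
def Hyp.M (Z : Hyp C) (r j : ℕ) : ℕ := if h : j < Z.m r then (Z.D r).F.M ⟨j, h⟩ else 1

/-- the fibre product of the components in `T` -/
def Hyp.res (Z : Hyp C) (T : Set ℕ) : Hyp C := ⟨Z.i, fun r => if r ∈ T then Z.D r else .triv⟩

/-- the fibre product of the components `π r`, `r ∈ A` -/
def Hyp.sel (Z : Hyp C) (A : Set ℕ) (π : ℕ → ℕ) : Hyp C :=
  ⟨Z.i, fun r => if r ∈ A then Z.D (π r) else .triv⟩

/-- the dimension of the fibre product of the components in `T` -/
def Hyp.dm (Z : Hyp C) (T : Finset ℕ) : ℕ := 1 + ∑ r ∈ T, (Z.m r - 1)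

/-- the dimension -/
def Hyp.dim (Z : Hyp C) : ℕ := 1 + ∑ᶠ r, (Z.m r - 1)

/-- a point `s` of one of the curves and coordinates `u_(r, j)`, `r, j : ℕ` -/
abbrev Pt (C : ι → Crv k) : Type := (Σ i, Place k (C i).L) × (ℕ → ℕ → Option k)

/-- points over an extension field -/
abbrev PtK (C : ι → Crv k) (K : Type) [Field K] [Algebra k K] : Type :=
  (Σ i, Bp k (C i).L K) × (ℕ → ℕ → Option K)

/-- the point `p` lies on the variety `Z`, `u_(r, j) = none` for `j ≥ m` -/
def Hyp.OnK (Z : Hyp C) {K : Type} [Field K] [Algebra k K] (p : PtK C K) : Prop :=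
  (∃ s : Bp k (C Z.i).L K, p.1 = ⟨Z.i, s⟩ ∧ ∀ r, OnY (Z.D r).F s fun j => p.2 r j) ∧
    ∀ r j, Z.m r ≤ j → p.2 r j = none

/-- the constant point -/
def Pt.cst (p : Pt C) (K : Type) [Field K] [Algebra k K] : PtK C K :=
  (⟨p.1.1, Sum.inr p.1.2⟩, fun r j => (p.2 r j).map (algebraMap k K))

/-- the point `p` lies on the variety `Z` -/
def Hyp.On (Z : Hyp C) (p : Pt C) : Prop := Z.OnK (p.cst k)

/-- the value of a point at a place -/
def vlc {K : Type} [Field K] [Algebra k K] (v : Place k K) (p : PtK C K) : Pt C :=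
  (⟨p.1.1, vb v p.1.2⟩, fun r j => vlo v (p.2 r j))

/-- the projection to the fibre product of the components in `T` -/
def Pt.res (p : Pt C) (T : Set ℕ) : Pt C := (p.1, fun r j => if r ∈ T then p.2 r j else none)

section Products

variable {r r' : ℕ}

/-- the points of the product of the varieties `X a` -/
def OnP (X : Fin r → Hyp C) (x : Fin r → Pt C) : Prop := ∀ a, (X a).On (x a)

/-- the points of the product of the varieties `X a` over an extension field -/
def OnPK (X : Fin r → Hyp C) {K : Type} [Field K] [Algebra k K] (x : Fin r → PtK C K) : Prop :=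
  ∀ a, (X a).OnK (x a)

/-- The zero-cycles on the product, with coefficients in `R`, which are rationally equivalent to
zero: the span of the push-forwards of the divisors `D` of all rational functions `f` on all smooth
projective curves (with the function field `K`) by all maps `x` to the product. -/
def RatP [IsAlgClosed k] [CharZero k] (X : Fin r → Hyp C) (R : Type) [Field R] :
    Submodule R ((Fin r → Pt C) →₀ R) :=
  Submodule.span R {z | ∃ (K : Type) (_ : Field K) (_ : Algebra k K) (_ : IsCurve k K)
    (x : Fin r → PtK C K) (f : K) (D : Place k K →₀ ℤ),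
    f ≠ 0 ∧ OnPK X x ∧ (∀ v, HasOrd v f (D v)) ∧
    z = D.sum fun v a => Finsupp.single (fun j => vlc v (x j)) (a : R)}

/-- the value of the rational function `t` on the curve `C i` at the point `s` -/
def evp (s : Σ i, Place k (C i).L) (i : ι) (t : Option (C i).L) : Option k :=
  if h : s.1 = i then vlo (h ▸ s.2) t else none

/-- a component of a morphism from the product of the `X a` to `Z` -/
inductive Comp (X : Fin r → Hyp C) (Z : Hyp C)
  /-- a constant map -/
  | const (w : Pt C) (hw : Z.On w)
  /-- A map from the factor `X a` to `Z` over the curve. The component `r ∈ A` of the image is the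
  component `π r` of the point of `X a`, with the coordinates permuted by `ρ r` and multiplied by the
  `ζ r j`. The components `r ∉ A` are sections over the curve: `t` is a point of the fibre product of
  these components over the function field of the curve. -/
  | map (a : Fin r) (A : Set ℕ) (π : ℕ → ℕ) (ρ : ℕ → Equiv.Perm ℕ) (ζ : ℕ → ℕ → k)
    (t : ℕ → ℕ → Option (C Z.i).L) (hX : (X a).sel A π = Z.res A)
    (hA : ∀ r, Z.m r = 1 → r ∈ A ∧ ∀ r' ∈ A, π r' = π r → r' = r)
    (hρ : ∀ r, (Z.D r).Sym (ρ r)) (hζ : ∀ r j, ζ r j ^ Z.M r j = 1)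
    (ht : (Z.res Aᶜ).OnK (K := (C Z.i).L) (⟨Z.i, Sum.inl (AlgHom.id k _)⟩, t))

/-- the component of the image of a point -/
def Comp.app {X : Fin r → Hyp C} {Z : Hyp C} : Comp X Z → (Fin r → Pt C) → Pt C
  | .const w _, _ => w
  | .map a A π ρ ζ t _ _ _ _ _, x => ((x a).1, fun r j =>
      if r ∈ A then ((x a).2 (π r) (ρ r j)).map fun w => ζ r j * w
      else evp (x a).1 Z.i (t r j))

/-- the factor of `X` -/
def Comp.src {X : Fin r → Hyp C} {Z : Hyp C} : Comp X Z → Option (Fin r)
  | .const _ _ => none
  | .map a _ _ _ _ _ _ _ _ _ _ => some a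

/-- morphisms of products -/
def Mor (X : Fin r → Hyp C) (Y : Fin r' → Hyp C) : Type := ∀ b, Comp X (Y b)

/-- the image of a point -/
def Mor.app {X : Fin r → Hyp C} {Y : Fin r' → Hyp C} (f : Mor X Y) (x : Fin r → Pt C) :
    Fin r' → Pt C := fun b => (f b).app x

/-- the push-forward of cycles by a combination of morphisms -/
def pushM {X : Fin r → Hyp C} {Y : Fin r' → Hyp C} (γ : Mor X Y →₀ ℚ) :
    ((Fin r → Pt C) →₀ ℚ) →ₗ[ℚ] ((Fin r' → Pt C) →₀ ℚ) :=
  γ.sum fun f c => c • Finsupp.lmapDomain ℚ ℚ f.app

/-! ### The filtration -/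

/-- The varieties with the levels `κ`: the factors with the level `T` are replaced by the fibre product
of their components in `T`. -/
def red (κ : Fin r → Option (Finset ℕ)) (X : Fin r → Hyp C) : Fin r → Hyp C :=
  fun a => (κ a).elim (X a) fun T => (X a).res T

/-- The projection: constant on the factors of level `none`, the projection to the fibre product of the
components in `T` on the factors of level `T`. -/
def prj (κ : Fin r → Option (Finset ℕ)) (w x : Fin r → Pt C) : Fin r → Pt C :=
  fun a => (κ a).elim (w a) fun T => (x a).res T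

/-- the dimension of the image of the projection -/
def dimS (X : Fin r → Hyp C) (κ : Fin r → Option (Finset ℕ)) : ℕ :=
  ∑ a, (κ a).elim 0 (X a).dm

/-- The filtration: the cycles which are killed by all projections with an image of dimension `< ν`.
(The image is embedded into the product with fixed coordinates `w a` for the factors of level
`none`.) -/
def Fil [IsAlgClosed k] [CharZero k] (X : Fin r → Hyp C) (ν : ℕ) :
    Submodule ℚ ((Fin r → Pt C) →₀ ℚ) where
  carrier := {z | (∀ x ∈ z.support, OnP X x) ∧ ∀ κ, dimS X κ < ν → ∀ w, OnP X w →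
    Finsupp.mapDomain (prj κ w) z ∈ RatP (red κ X) ℚ}
  zero_mem' := ⟨by simp, fun κ _ w _ => by rw [Finsupp.mapDomain_zero]; exact zero_mem _⟩
  add_mem' := fun {z z'} h h' => ⟨fun x hx => by
    rcases Finset.mem_union.1 (Finsupp.support_add hx) with h1 | h1
    · exact h.1 x h1
    · exact h'.1 x h1, fun κ hκ w hw => by
    rw [Finsupp.mapDomain_add]
    exact add_mem (h.2 κ hκ w hw) (h'.2 κ hκ w hw)⟩
  smul_mem' := fun c z h => ⟨fun x hx => h.1 x (Finsupp.support_smul hx), fun κ hκ w hw => by
    rw [Finsupp.mapDomain_smul]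
    exact Submodule.smul_mem _ _ (h.2 κ hκ w hw)⟩

/-- the components with `m = 1` -/
def Hyp.T1 (Z : Hyp C) : Set ℕ := {r | Z.m r = 1}

/-- the image of a zero-cycle in the curve of the factor with the number `a`: the fibre product of its
components with `m = 1` -/
def toCrv (X : Fin r → Hyp C) (a : Fin r) :
    ((Fin r → Pt C) →₀ ℚ) →ₗ[ℚ] ((Fin 1 → Pt C) →₀ ℚ) :=
  Finsupp.lmapDomain ℚ ℚ fun x _ => (x a).res (X a).T1

/-! ### Forms -/

/-- The labels of the forms on a variety: the constant function `1`, the form `ω_(j, a)` for a finite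
set `T` of components. -/
inductive Lab
  | zero
  | form (T : Finset ℕ) (j : ℕ) (a : ℕ → ℕ → ℕ)

/-- the degree of the form -/
def Lab.deg (Z : Hyp C) : Lab → ℕ
  | .zero => 0
  | .form T _ _ => Z.dm T

/-- The label of a form on `Z`: nontrivial components, `j < g` for `T = ∅`,
`j < deg (∑ E_(r, l)) + g - 1` for `T ≠ ∅`, and `0 < a_(r, l) < M_(r, l)` for `r ∈ T`, `l < m r`. -/
def AdmLab (Z : Hyp C) : Lab → Prop
  | .zero => True
  | .form T j a => (∀ r ∈ T, 0 < Z.m r) ∧ (T = ∅ → j < genus k (C Z.i).L) ∧
      (T.Nonempty → (j : ℤ) + 1 < ∑ r ∈ T, TInc.deg (Z.D r).F.S + genus k (C Z.i).L) ∧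
      ∀ r l, (r ∈ T ∧ l < Z.m r → 0 < a r l ∧ a r l < Z.M r l) ∧
        (¬(r ∈ T ∧ l < Z.m r) → a r l = 0)

/-- the degree of the form on the product -/
def degL (X : Fin r → Hyp C) (c : Fin r → Lab) : ℕ := ∑ a, (c a).deg (X a)

/-- The pull-back of the form with the label `c` on `Z` is a multiple of the form with the label `c'` on
the factor with the number `a`. The pull-back is zero if a component in `T` is mapped by a section, or
if two components in `T` are images of the same component. -/
def Comp.Pulls {X : Fin r → Hyp C} {Z : Hyp C} (f : Comp X Z) (c : Lab) (a : Fin r) (c' : Lab) :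
    Prop :=
  match f, c, c' with
  | .map a' A π ρ _ _ _ _ _ _ _, .form T j e, .form T' j' e' =>
    a' = a ∧ ↑T ⊆ A ∧ Set.InjOn π T ∧ T' = T.image π ∧ j' = j ∧
      (∀ r ∈ T, ∀ l, e' (π r) (ρ r l) = e r l) ∧ ∀ r ∉ T', ∀ l, e' r l = 0
  | _, _, _ => False

/-- The sign of the permutation of the components and of the coordinates: the component `r` gives a
form of degree `m r - 1`. -/
def Comp.sgn {X : Fin r → Hyp C} {Z : Hyp C} (f : Comp X Z) (c : Lab) : ℤ :=
  match f, c with
  | .map _ _ π ρ _ _ _ _ _ _ _, .form T _ _ =>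
    (∏ r ∈ T, ∏ r' ∈ T with r < r' ∧ π r' < π r, (-1) ^ ((Z.m r - 1) * (Z.m r' - 1))) *
      ∏ r ∈ T, ∏ j ∈ Finset.range (Z.m r),
        ∏ j' ∈ Finset.range (Z.m r) with j < j' ∧ ρ r j' < ρ r j, (-1)
  | _, _ => 1

/-- the factor `∏ ζ_(r, l) ^ a_(r, l)` -/
def Comp.fct {X : Fin r → Hyp C} {Z : Hyp C} (f : Comp X Z) (c : Lab) : k :=
  match f, c with
  | .map _ _ _ _ ζ _ _ _ _ _ _, .form T _ e =>
    ∏ r ∈ T, ∏ l ∈ Finset.range (Z.m r), ζ r l ^ e r l
  | _, _ => 1

variable {X : Fin r → Hyp C} {Y : Fin r' → Hyp C}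

/-- The pull-back of the form with the labels `c` by `f` is a multiple of the form with the labels
`c'`. (In the other cases the pull-back is zero: if it is zero on a factor of `Y` with a form, or if two
factors of `Y` with forms are images of the same factor of `X`; the forms on a fibre product over a
curve are multiples of forms on the curve.) -/
def IsPull (f : Mor X Y) (c : Fin r' → Lab) (c' : Fin r → Lab) : Prop :=
  (∀ b, c b ≠ .zero → ∃ a, (f b).Pulls (c b) a (c' a)) ∧
    ∀ a, c' a ≠ .zero → ∃! b, c b ≠ .zero ∧ (f b).src = some a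

/-- the sign of the permutation of the forms -/
def sgnF (f : Mor X Y) (c : Fin r' → Lab) : ℤ :=
  (∏ b, (f b).sgn (c b)) * ∏ b, ∏ b' with b < b' ∧ c b ≠ .zero ∧ c b' ≠ .zero ∧
    (∃ a a', (f b).src = some a ∧ (f b').src = some a' ∧ a' < a),
      (-1) ^ ((c b).deg (Y b) * (c b').deg (Y b'))

/-- the factor from the roots of unity -/
def fct (f : Mor X Y) (c : Fin r' → Lab) : k := ∏ b, (f b).fct (c b)

/-- the combination `γ` of morphisms kills the holomorphic forms of degree `ν` -/
def KillsForms (γ : Mor X Y →₀ ℚ) (ν : ℕ) : Prop :=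
  ∀ c : Fin r' → Lab, (∀ b, AdmLab (Y b) (c b)) → degL Y c = ν → ∀ c' : Fin r → Lab,
    ∑ f ∈ γ.support.filter (fun f => IsPull f c c'), (γ f : k) * (sgnF f c : k) * fct f c = 0

/-- The properties 1-4 of a Bloch-Beilinson filtration, without the description of `F¹` and `F²`, for a
family of filtrations `Φ` of the zero-cycles on all products. -/
structure Conds [IsAlgClosed k] [CharZero k] (C : ι → Crv k)
    (Φ : ∀ r : ℕ, (Fin r → Hyp C) → ℕ → Submodule ℚ ((Fin r → Pt C) →₀ ℚ)) : Prop where
  /-- a filtration of the zero-cycles modulo rational equivalence (`RatP X ℚ` contains only cycles on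
  the product, by `zero` and `anti`) -/
  rat : ∀ (r : ℕ) (X : Fin r → Hyp C) (ν : ℕ), (∀ a, (X a).Adm) → RatP X ℚ ≤ Φ r X ν
  /-- decreasing -/
  anti : ∀ (r : ℕ) (X : Fin r → Hyp C) (ν : ℕ), (∀ a, (X a).Adm) → Φ r X (ν + 1) ≤ Φ r X ν
  /-- 1: `F⁰` is everything: all cycles on the product -/
  zero : ∀ (r : ℕ) (X : Fin r → Hyp C) (z : (Fin r → Pt C) →₀ ℚ), (∀ a, (X a).Adm) →
    (z ∈ Φ r X 0 ↔ ∀ x ∈ z.support, OnP X x)
  /-- 2: `F^(dim + 1) = 0` -/
  top : ∀ (r : ℕ) (X : Fin r → Hyp C), (∀ a, (X a).Adm) →
    Φ r X ((∑ a, (X a).dim) + 1) = RatP X ℚ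
  /-- 3: correspondences respect the filtration -/
  map : ∀ (r r' : ℕ) (X : Fin r → Hyp C) (Y : Fin r' → Hyp C) (ν : ℕ) (γ : Mor X Y →₀ ℚ),
    (∀ a, (X a).Adm) → (∀ b, (Y b).Adm) → (Φ r X ν).map (pushM γ) ≤ Φ r' Y ν
  /-- 4: a correspondence which is zero on the holomorphic `ν`-forms is zero on `gr^ν` -/
  grad : ∀ (r r' : ℕ) (X : Fin r → Hyp C) (Y : Fin r' → Hyp C) (ν : ℕ) (γ : Mor X Y →₀ ℚ),
    (∀ a, (X a).Adm) → (∀ b, (Y b).Adm) → KillsForms γ ν →
      (Φ r X ν).map (pushM γ) ≤ Φ r' Y (ν + 1)

/-- The properties 1-4 of a Bloch-Beilinson filtration. -/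
structure IsBB [IsAlgClosed k] [CharZero k] (C : ι → Crv k)
    (Φ : ∀ r : ℕ, (Fin r → Hyp C) → ℕ → Submodule ℚ ((Fin r → Pt C) →₀ ℚ)) : Prop
    extends Conds C Φ where
  /-- 1: `F¹` is the part of degree zero -/
  one : ∀ (r : ℕ) (X : Fin r → Hyp C) (z : (Fin r → Pt C) →₀ ℚ), (∀ a, (X a).Adm) →
    (z ∈ Φ r X 1 ↔ (∀ x ∈ z.support, OnP X x) ∧ (z.sum fun _ c => c) = 0)
  /-- 1: `F²` is the kernel of the Albanese map: the cycles of degree zero whose images in the curves
  are rationally equivalent to zero -/
  two : ∀ (r : ℕ) (X : Fin r → Hyp C) (z : (Fin r → Pt C) →₀ ℚ), (∀ a, (X a).Adm) →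
    (z ∈ Φ r X 2 ↔ z ∈ Φ r X 1 ∧ ∀ a, toCrv X a z ∈ RatP (fun _ : Fin 1 => (X a).res (X a).T1) ℚ)

end Products

end Pool.Agent.HGP
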