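import Pool.Agent.HGP.KCf

/-!
# Package HGP-KEig: class functions on products are sums of eigenfunctions (1)

Port of `Pool/Agent/HGFC/KEig.lean`: the coordinate `u_i` of the factor `a` becomes the coordinate
`u_(q, i)`. `part X a q i ω c E` is the eigenfunction with the exponent `c` in `E`, for the rotations of the
coordinate `u_(q, i)` of the factor `a`.
-/

set_option autoImplicit false
set_option linter.unusedSectionVars false

noncomputable section

namespace Pool.Agent.HGP

open Pool.Agent.ZCyc Pool.Agent.Dess Pool.Agent.GT Pool.Agent.TInc Pool.Agent.HGF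
open scoped Classical

variable {k : Type} [Field k] {ι : Type} {C : ι → Crv k} {r : ℕ} {X : Fin r → Hyp C} {W : Type}
  [AddCommGroup W] [Module k W] {E : (Fin r → Pt C) → W}

/-- the eigenfunction with the exponent `c` in `E` -/
def part (X : Fin r → Hyp C) (a : Fin r) (q i : ℕ) (ω : k) (c : ℕ) (E : (Fin r → Pt C) → W)
    (x : Fin r → Pt C) : W :=
  (((X a).M q i : k)⁻¹) • ∑ t ∈ Finset.range ((X a).M q i),
    ((ω⁻¹) ^ (c * t)) • E (rotc a q i (ω ^ t) x)

theorem rotc_fst (a : Fin r) (q i : ℕ) (ζ : k) (x : Fin r → Pt C) (b : Fin r) :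
    (rotc a q i ζ x b).1 = (x b).1 := by
  unfold rotc
  by_cases hb : b = a
  · subst hb
    rw [Function.update_self]
  · rw [Function.update_of_ne hb]

theorem rotc_snd (a : Fin r) (q i : ℕ) (ζ : k) (x : Fin r → Pt C) (b : Fin r) (p l : ℕ) :
    (rotc a q i ζ x b).2 p l =
      if b = a ∧ p = q ∧ l = i then ((x b).2 p l).map fun t => ζ * t else (x b).2 p l := by
  unfold rotc
  by_cases hb : b = a
  · subst hb
    rw [Function.update_self]
    show Function.update (x b).2 q
      (Function.update ((x b).2 q) i (((x b).2 q i).map fun t => ζ * t)) p l = _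
    by_cases hp : p = q
    · subst hp
      rw [Function.update_self]
      by_cases hl : l = i
      · subst hl
        rw [if_pos ⟨rfl, rfl, rfl⟩]
        exact Function.update_self _ _ _
      · rw [if_neg fun h => hl h.2.2]
        exact Function.update_of_ne hl _ _
    · rw [Function.update_of_ne hp, if_neg fun h => hp h.2.1]
  · rw [Function.update_of_ne hb, if_neg fun h => hb h.1]

private theorem ext_KEig {x y : Fin r → Pt C} (h1 : ∀ b, (x b).1 = (y b).1)
    (h2 : ∀ b p l, (x b).2 p l = (y b).2 p l) : x = y := by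
  funext b
  exact Prod.ext (h1 b) (funext fun p => funext fun l => h2 b p l)

theorem rotc_one (a : Fin r) (q i : ℕ) (x : Fin r → Pt C) : rotc a q i 1 x = x := by
  refine ext_KEig (fun b => rotc_fst _ _ _ _ _ _) fun b p l => ?_
  rw [rotc_snd]
  split_ifs with h
  · cases (x b).2 p l with
    | none => rfl
    | some w => rw [Option.map_some, one_mul]
  · rfl

theorem rotc_rotc (a : Fin r) (q i : ℕ) (ζ ζ' : k) (x : Fin r → Pt C) :
    rotc a q i ζ (rotc a q i ζ' x) = rotc a q i (ζ * ζ') x := by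
  refine ext_KEig (fun b => ?_) fun b p l => ?_
  · rw [rotc_fst, rotc_fst, rotc_fst]
  · rw [rotc_snd, rotc_snd, rotc_snd]
    split_ifs with h
    · cases (x b).2 p l with
      | none => rfl
      | some w => rw [Option.map_some, Option.map_some, Option.map_some, mul_assoc]
    · rfl

theorem rotc_comm {a a' : Fin r} {q q' i i' : ℕ} (h : a = a' → q = q' → i ≠ i') (ζ ζ' : k)
    (x : Fin r → Pt C) :
    rotc a q i ζ (rotc a' q' i' ζ' x) = rotc a' q' i' ζ' (rotc a q i ζ x) := by
  refine ext_KEig (fun b => ?_) fun b p l => ?_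
  · rw [rotc_fst, rotc_fst, rotc_fst, rotc_fst]
  · rw [rotc_snd, rotc_snd, rotc_snd, rotc_snd]
    by_cases h1 : b = a ∧ p = q ∧ l = i
    · have h2 : ¬ (b = a' ∧ p = q' ∧ l = i') := fun h2 =>
        h (h1.1.symm.trans h2.1) (h1.2.1.symm.trans h2.2.1) (h1.2.2.symm.trans h2.2.2)
      rw [if_pos h1, if_neg h2, if_neg h2]
      rw [if_pos h1]
    · rw [if_neg h1]
      by_cases h2 : b = a' ∧ p = q' ∧ l = i'
      · rw [if_pos h2, if_pos h2, if_neg h1]
      · rw [if_neg h2, if_neg h2, if_neg h1]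

theorem onP_rotc {a : Fin r} {q i : ℕ} (hi : i < (X a).m q) {ζ : k} (hζ : ζ ^ (X a).M q i = 1)
    {x : Fin r → Pt C} (h : OnP X x) : OnP X (rotc a q i ζ x) := by
  intro b
  unfold rotc
  by_cases hb : b = a
  · subst hb
    rw [Function.update_self]
    exact on_rot hi hζ (h b)
  · rw [Function.update_of_ne hb]
    exact h b

private theorem geom_KEig {M : ℕ} {ω : k} (hω : IsPrimitiveRoot ω M) {t : ℕ} (ht : t < M) :
    ∑ c ∈ Finset.range M, (ω⁻¹) ^ (c * t) = if t = 0 then (M : k) else 0 := by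
  have h1 : ∀ c : ℕ, (ω⁻¹) ^ (c * t) = ((ω⁻¹) ^ t) ^ c := by
    intro c
    rw [mul_comm, pow_mul]
  rw [Finset.sum_congr rfl fun (c : ℕ) _ => h1 c]
  split_ifs with hx
  · rw [hx]
    simp
  · obtain ⟨y, hy⟩ : ∃ y, y = (ω⁻¹) ^ t := ⟨_, rfl⟩
    rw [← hy]
    have hy1 : y - 1 ≠ 0 := by
      intro h
      have h2 : (ω⁻¹) ^ t = 1 := hy ▸ sub_eq_zero.1 h
      rw [hω.inv.pow_eq_one_iff_dvd] at h2
      have h3 := Nat.le_of_dvd (Nat.pos_of_ne_zero hx) h2
      omega
    have hyM : y ^ M = 1 := by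
      rw [hy, ← pow_mul, mul_comm, pow_mul, hω.inv.pow_eq_one, one_pow]
    have h2 := geom_sum_mul y M
    rw [hyM, sub_self] at h2
    exact (mul_eq_zero.1 h2).resolve_right hy1

theorem sum_part [CharZero k] {a : Fin r} (q i : ℕ) (hM : 0 < (X a).M q i) {ω : k}
    (hω : IsPrimitiveRoot ω ((X a).M q i)) (x : Fin r → Pt C) :
    ∑ c ∈ Finset.range ((X a).M q i), part X a q i ω c E x = E x := by
  unfold part
  rw [← Finset.smul_sum, Finset.sum_comm]
  have h1 : ∀ t ∈ Finset.range ((X a).M q i), ∑ c ∈ Finset.range ((X a).M q i),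
      ((ω⁻¹) ^ (c * t)) • E (rotc a q i (ω ^ t) x) =
      (if t = 0 then ((X a).M q i : k) else 0) • E (rotc a q i (ω ^ t) x) := by
    intro t ht
    rw [← Finset.sum_smul, geom_KEig hω (Finset.mem_range.1 ht)]
  rw [Finset.sum_congr rfl h1, Finset.sum_eq_single 0]
  · rw [if_pos rfl, pow_zero, rotc_one, smul_smul, inv_mul_cancel₀ (Nat.cast_ne_zero.2 hM.ne'),
      one_smul]
  · intro t _ ht
    rw [if_neg ht, zero_smul]
  · intro h
    exact absurd (Finset.mem_range.2 hM) h

private theorem shift_KEig {V : Type} [AddCommGroup V] {g : ℕ → V} {M : ℕ}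
    (hg : ∀ t, g (t + M) = g t) (t₀ : ℕ) :
    ∑ t ∈ Finset.range M, g (t + t₀) = ∑ t ∈ Finset.range M, g t := by
  induction t₀ with
  | zero => rfl
  | succ n ih =>
    rw [← ih]
    have h1 := Finset.sum_range_succ (fun t => g (t + n)) M
    have h2 := Finset.sum_range_succ' (fun t => g (t + n)) M
    rw [h1] at h2
    have h3 : g (M + n) = g (0 + n) := by
      rw [Nat.add_comm M n, hg, Nat.zero_add]
    rw [h3] at h2
    have h4 := add_right_cancel h2
    rw [h4]
    refine Finset.sum_congr rfl fun t _ => ?_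
    congr 1
    omega

theorem eigAt_part {a : Fin r} (q i : ℕ) (hM : 0 < (X a).M q i) {ω : k}
    (hω : IsPrimitiveRoot ω ((X a).M q i)) (c : ℕ) : EigAt X a q i c (part X a q i ω c E) := by
  have hne : NeZero ((X a).M q i) := ⟨hM.ne'⟩
  intro x ζ hζ
  obtain ⟨t₀, ht₀, rfl⟩ := hω.eq_pow_of_pow_eq_one hζ
  unfold part
  rw [smul_comm]
  congr 1
  rw [Finset.smul_sum]
  rw [← shift_KEig (g := fun t => (ω ^ t₀) ^ c • (ω⁻¹) ^ (c * t) • E (rotc a q i (ω ^ t) x)) ?_ t₀]
  · refine Finset.sum_congr rfl fun t _ => ?_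
    rw [rotc_rotc, ← pow_add, smul_smul]
    congr 1
    have hω0 : ω ≠ 0 := hω.ne_zero hM.ne'
    rw [← pow_mul, mul_add, pow_add, mul_left_comm, mul_comm t₀ c, ← mul_pow,
      mul_inv_cancel₀ hω0, one_pow, mul_one]
  · intro t
    have h1 : ω ^ (t + (X a).M q i) = ω ^ t := by
      rw [pow_add, hω.pow_eq_one, mul_one]
    have h2 : (ω⁻¹) ^ (c * (t + (X a).M q i)) = (ω⁻¹) ^ (c * t) := by
      rw [mul_add, pow_add, mul_comm c ((X a).M q i), pow_mul _ ((X a).M q i), hω.inv.pow_eq_one,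
        one_pow, mul_one]
    simp only [h1, h2]

theorem eigAt_part_of {a a' : Fin r} {q q' i i' e : ℕ} (h : a = a' → q = q' → i ≠ i') {ω : k}
    (c : ℕ)
    (hE : EigAt X a' q' i' e E) : EigAt X a' q' i' e (part X a q i ω c E) := by
  intro x ζ hζ
  unfold part
  rw [smul_comm]
  congr 1
  rw [Finset.smul_sum]
  refine Finset.sum_congr rfl fun t _ => ?_
  rw [rotc_comm h, hE _ ζ hζ, smul_comm]

end Pool.Agent.HGP
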