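import Pool.Agent.HGP.KEig

/-!
# Package HGP-KEigB: class functions on products are sums of eigenfunctions (2)

Port of `Pool/Agent/HGFC/KEigB.lean`. In `eig_induction` the induction runs over a finite set which
contains all triples `(a, q, i)` with `i < (X a).m q`; `hfin` says that there are only finitely many.
-/

set_option autoImplicit false
set_option linter.unusedSectionVars false

noncomputable section

namespace Pool.Agent.HGP

open Pool.Agent.ZCyc Pool.Agent.Dess Pool.Agent.GT Pool.Agent.TInc Pool.Agent.HGF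
open scoped Classical

variable {k : Type} [Field k] {ι : Type} {C : ι → Crv k} {r : ℕ} {X : Fin r → Hyp C} {W : Type}
  [AddCommGroup W] [Module k W] {E : (Fin r → Pt C) → W}

private theorem keigb_pow {M : ℕ} {ω : k} (hω : ω ^ M = 1) (t : ℕ) : (ω ^ t) ^ M = 1 := by
  rw [← pow_mul, mul_comm, pow_mul, hω, one_pow]

private theorem keigb_onP {K : Type} [Field K] [Algebra k K] {a : Fin r} {q i : ℕ}
    (hi : i < (X a).m q) {η : K} (hη : η ^ (X a).M q i = 1) {x : Fin r → PtK C K}
    (h : OnPK X x) :
    OnPK X (Function.update x a ((x a).1, Function.update (x a).2 q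
      (Function.update ((x a).2 q) i (((x a).2 q i).map fun w => η * w)))) := by
  intro j
  by_cases hj : j = a
  · subst hj
    rw [Function.update_self]
    exact onK_rot hi hη (h j)
  · rw [Function.update_of_ne hj]
    exact h j

private theorem keigb_val {K : Type} [Field K] [Algebra k K] (v : Place k K) {a : Fin r}
    {q i : ℕ} {ζ : k} (hζ : ζ ≠ 0) (x : Fin r → PtK C K) :
    (fun j => vlc v (Function.update x a ((x a).1, Function.update (x a).2 q
      (Function.update ((x a).2 q) i (((x a).2 q i).map fun w => algebraMap k K ζ * w))) j)) =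
      rotc a q i ζ fun j => vlc v (x j) := by
  funext j
  unfold rotc
  by_cases hj : j = a
  · subst hj
    rw [Function.update_self, Function.update_self]
    unfold vlc
    refine Prod.ext rfl ?_
    funext q' i'
    show vlo v (Function.update (x j).2 q _ q' i') =
      Function.update (fun q i => vlo v ((x j).2 q i)) q _ q' i'
    by_cases hq : q' = q
    · subst hq
      rw [Function.update_self, Function.update_self]
      by_cases hi : i' = i
      · subst hi
        rw [Function.update_self, Function.update_self, vlo_mul v hζ]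
      · rw [Function.update_of_ne hi, Function.update_of_ne hi]
    · rw [Function.update_of_ne hq, Function.update_of_ne hq]
  · rw [Function.update_of_ne hj, Function.update_of_ne hj]

theorem isCFP_part [IsAlgClosed k] [CharZero k] {a : Fin r} {q i : ℕ} (hi : i < (X a).m q)
    {ω : k} (hω : ω ^ (X a).M q i = 1) (c : ℕ) (hE : IsCFP X E) :
    IsCFP X (part X a q i ω c E) := by
  intro K _ _ hK x f hf hx
  rcases Nat.eq_zero_or_pos ((X a).M q i) with hM | hM
  · unfold part Finsupp.sum
    rw [hM]
    simp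
  have hω0 : ω ≠ 0 := by
    rintro rfl
    rw [zero_pow hM.ne'] at hω
    exact zero_ne_one hω
  have hterm : ∀ t : ℕ, ((TInc.dv hK f).sum fun v e => e • E (rotc a q i (ω ^ t)
      fun j => vlc v (x j))) = 0 := by
    intro t
    have hη : (algebraMap k K (ω ^ t)) ^ (X a).M q i = 1 := by
      rw [← map_pow, keigb_pow hω, map_one]
    have h1 := hE K hK _ f hf (keigb_onP hi hη hx)
    simp only [keigb_val _ (pow_ne_zero t hω0)] at h1
    exact h1
  unfold part
  unfold Finsupp.sum at hterm ⊢
  have h5 : ∀ v ∈ (TInc.dv hK f).support, (TInc.dv hK f) v •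
      ((((X a).M q i : k)⁻¹) • ∑ t ∈ Finset.range ((X a).M q i),
        ((ω⁻¹) ^ (c * t)) • E (rotc a q i (ω ^ t) fun j => vlc v (x j))) =
      (((X a).M q i : k)⁻¹) • ∑ t ∈ Finset.range ((X a).M q i),
        ((ω⁻¹) ^ (c * t)) • ((TInc.dv hK f) v •
          E (rotc a q i (ω ^ t) fun j => vlc v (x j))) := by
    intro v _
    rw [smul_comm, Finset.smul_sum]
    congr 1
    refine Finset.sum_congr rfl fun t _ => ?_
    rw [smul_comm]
  rw [Finset.sum_congr rfl h5, ← Finset.smul_sum, Finset.sum_comm]
  rw [Finset.sum_eq_zero fun t _ => ?_, smul_zero]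
  rw [← Finset.smul_sum, hterm t, smul_zero]

theorem depOn_part {κ : Fin r → Option (Finset ℕ)} {a : Fin r} {q i : ℕ} (hi : i < (X a).m q)
    {ω : k} (hω : ω ^ (X a).M q i = 1) (c : ℕ) (hE : DepOn X κ E) :
    DepOn X κ (part X a q i ω c E) := by
  intro x x' hx hx' h
  unfold part
  congr 1
  refine Finset.sum_congr rfl fun t _ => ?_
  congr 1
  refine hE _ _ (onP_rotc hi (keigb_pow hω t) hx) (onP_rotc hi (keigb_pow hω t) hx')
    fun b T hb => ?_
  have h1 := h b T hb
  have h2 : (x b).1 = (x' b).1 := by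
    have h3 := congrArg Prod.fst h1
    exact h3
  refine Prod.ext ?_ ?_
  · rw [Pt.res_fst, Pt.res_fst, rotc_fst, rotc_fst]
    exact h2
  · funext p l
    have h3 := congrFun (congrFun (congrArg Prod.snd h1) p) l
    simp only [Pt.res] at h3 ⊢
    by_cases hp : p ∈ (T : Set ℕ)
    · rw [if_pos hp, if_pos hp] at h3
      rw [if_pos hp, if_pos hp, rotc_snd, rotc_snd, h3]
    · rw [if_neg hp, if_neg hp]

private theorem keigb_sum {Φ : ((Fin r → Pt C) → W) → Prop} (h0 : Φ fun _ => 0)
    (hadd : ∀ E E', Φ E → Φ E' → Φ fun x => E x + E' x) (G : ℕ → (Fin r → Pt C) → W)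
    (T : Finset ℕ) (h : ∀ c ∈ T, Φ (G c)) : Φ fun x => ∑ c ∈ T, G c x := by
  induction T using Finset.induction_on with
  | empty => simpa using h0
  | insert c T hc ih =>
    have h1 : (fun x => ∑ c ∈ insert c T, G c x) = fun x => G c x + ∑ c ∈ T, G c x := by
      funext x
      rw [Finset.sum_insert hc]
    rw [h1]
    exact hadd _ _ (h c (Finset.mem_insert_self c T))
      (ih fun c' hc' => h c' (Finset.mem_insert_of_mem hc'))

/-- the coordinates of the factors are finitely many -/
theorem exists_bound (hX : ∀ a, (X a).Adm) : ∃ R, ∀ a q, R ≤ q → (X a).m q = 0 := by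
  have h1 : ∀ a, ∃ R, ∀ q, R ≤ q → (X a).D q = .triv := fun a => (hX a).1
  choose R hR using h1
  refine ⟨Finset.univ.sup R, fun a q hq => ?_⟩
  have h2 := hR a q ((Finset.le_sup (Finset.mem_univ a)).trans hq)
  show ((X a).D q).m = 0
  rw [h2]

private theorem keigb_step [IsAlgClosed k] [CharZero k] (hX : ∀ a q i, 0 < (X a).M q i)
    {Φ : ((Fin r → Pt C) → W) → Prop} (h0 : Φ fun _ => 0)
    (hadd : ∀ E E', Φ E → Φ E' → Φ fun x => E x + E' x) {κ : Fin r → Option (Finset ℕ)}
    (heig : ∀ (β : Fin r → ℕ → ℕ → ℕ) (T : (Fin r → Pt C) → W),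
      (∀ a q i, i < (X a).m q → β a q i < (X a).M q i) →
      IsCFP X T → DepOn X κ T → IsEigP X β T → Φ T) (S : Finset (Fin r × ℕ × ℕ)) :
    (∀ p ∈ S, p.2.2 < (X p.1).m p.2.1) → ∀ E : (Fin r → Pt C) → W, IsCFP X E → DepOn X κ E →
      (∀ a q i, i < (X a).m q → (a, q, i) ∉ S → ∃ e < (X a).M q i, EigAt X a q i e E) →
      Φ E := by
  induction S using Finset.induction_on with
  | empty =>
    intro _ E hE hU h
    have h1 : ∀ (a : Fin r) (q i : ℕ), ∃ e : ℕ, i < (X a).m q → e < (X a).M q i ∧
        EigAt X a q i e E := by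
      intro a q i
      by_cases hi : i < (X a).m q
      · obtain ⟨e, he, hE'⟩ := h a q i hi (by simp)
        exact ⟨e, fun _ => ⟨he, hE'⟩⟩
      · exact ⟨0, fun h2 => absurd h2 hi⟩
    choose β hβ using h1
    exact heig β E (fun a q i hi => (hβ a q i hi).1) hE hU fun a q i hi => (hβ a q i hi).2
  | insert p S hp ih =>
    intro hS E hE hU h
    obtain ⟨a, q, i⟩ := p
    have hi : i < (X a).m q := hS (a, q, i) (Finset.mem_insert_self _ _)
    have : NeZero ((X a).M q i : k) := ⟨Nat.cast_ne_zero.2 (hX a q i).ne'⟩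
    obtain ⟨ω, hω⟩ := HasEnoughRootsOfUnity.exists_primitiveRoot k ((X a).M q i)
    have h1 : ∀ c ∈ Finset.range ((X a).M q i), Φ (part X a q i ω c E) := by
      intro c hc
      refine ih (fun p hp' => hS p (Finset.mem_insert_of_mem hp')) _
        (isCFP_part hi hω.pow_eq_one c hE) (depOn_part hi hω.pow_eq_one c hU) ?_
      intro a' q' i' hi' hn
      by_cases he : a = a' ∧ q = q' ∧ i = i'
      · obtain ⟨rfl, rfl, rfl⟩ := he
        exact ⟨c, Finset.mem_range.1 hc, eigAt_part q i (hX a q i) hω c⟩
      · obtain ⟨e, he', hE'⟩ := h a' q' i' hi' (by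
          rw [Finset.mem_insert]
          rintro (h2 | h2)
          · exact he ⟨(congrArg Prod.fst h2).symm, (congrArg (fun p => p.2.1) h2).symm,
              (congrArg (fun p => p.2.2) h2).symm⟩
          · exact hn h2)
        exact ⟨e, he', eigAt_part_of (fun h2 h3 h4 => he ⟨h2, h3, h4⟩) c hE'⟩
    have h2 := keigb_sum h0 hadd (fun c => part X a q i ω c E) _ h1
    have h3 : (fun x => ∑ c ∈ Finset.range ((X a).M q i), part X a q i ω c E x) = E := by
      funext x
      exact sum_part q i (hX a q i) hω x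
    rw [h3] at h2
    exact h2

/-- a property which is closed under sums and true for all eigenfunctions is true for all class
functions -/
theorem eig_induction [IsAlgClosed k] [CharZero k] (hX : ∀ a, (X a).Adm)
    {Φ : ((Fin r → Pt C) → W) → Prop} (h0 : Φ fun _ => 0)
    (hadd : ∀ E E', Φ E → Φ E' → Φ fun x => E x + E' x) {κ : Fin r → Option (Finset ℕ)}
    (heig : ∀ (β : Fin r → ℕ → ℕ → ℕ) (T : (Fin r → Pt C) → W),
      (∀ a q i, i < (X a).m q → β a q i < (X a).M q i) →
      IsCFP X T → DepOn X κ T → IsEigP X β T → Φ T)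
    (hE : IsCFP X E) (hU : DepOn X κ E) : Φ E := by
  obtain ⟨R, hR⟩ := exists_bound hX
  refine keigb_step (fun a q i => Hyp.M_pos (hX a) q i) h0 hadd heig
    (Finset.univ.biUnion fun a : Fin r => (Finset.range R).biUnion fun q =>
      (Finset.range ((X a).m q)).image fun i => (a, q, i)) ?_ E hE hU ?_
  · intro p hp
    simp only [Finset.mem_biUnion, Finset.mem_univ, true_and, Finset.mem_image,
      Finset.mem_range] at hp
    obtain ⟨a, q, _, i, hi, rfl⟩ := hp
    exact hi
  · intro a q i hi hn
    exfalso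
    apply hn
    simp only [Finset.mem_biUnion, Finset.mem_univ, true_and, Finset.mem_image,
      Finset.mem_range]
    refine ⟨a, q, ?_, i, hi, rfl⟩
    by_contra hq
    rw [hR a q (by omega)] at hi
    omega

end Pool.Agent.HGP
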