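import Pool.Agent.HGP.KCf

/-!
# Package HGP-KEigL: eigenfunctions at points with multiplied coordinates

Port of `Pool/Agent/HGFC/KEigL.lean`. All coordinates of the factors `b` of level `κ b = some T`, of the
components `q ∈ T`, are multiplied by roots of unity.
-/

set_option autoImplicit false
set_option linter.unusedSectionVars false

noncomputable section

namespace Pool.Agent.HGP

open Pool.Agent.ZCyc Pool.Agent.Dess Pool.Agent.GT Pool.Agent.TInc Pool.Agent.HGF
open scoped Classical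

variable {k : Type} [Field k] {ι : Type} {C : ι → Crv k} {r' : ℕ} {Y : Fin r' → Hyp C} {W : Type}
  [AddCommGroup W] [Module k W] {T : (Fin r' → Pt C) → W}

/-- the product of the powers of the roots of unity -/
def rtS (Y : Fin r' → Hyp C) (κ : Fin r' → Option (Finset ℕ)) (β : Fin r' → ℕ → ℕ → ℕ)
    (ζ : Fin r' → ℕ → ℕ → k) : k :=
  ∏ b, ∏ q ∈ (κ b).getD ∅, ∏ i ∈ Finset.range ((Y b).m q), ζ b q i ^ β b q i

/-- the coordinates with the numbers in `P` are multiplied -/
private def mulS_KEigL (P : Finset (Σ _ : Fin r', Σ _ : ℕ, ℕ)) (ζ : Fin r' → ℕ → ℕ → k)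
    (x : Fin r' → Pt C) : Fin r' → Pt C := fun b => ((x b).1, fun q i =>
  if (⟨b, ⟨q, i⟩⟩ : Σ _ : Fin r', Σ _ : ℕ, ℕ) ∈ P then ((x b).2 q i).map fun t => ζ b q i * t
  else (x b).2 q i)

private lemma mem_insert_KEigL {P : Finset (Σ _ : Fin r', Σ _ : ℕ, ℕ)} {b b' : Fin r'}
    {q q' i i' : ℕ} (h : ¬(b' = b ∧ q' = q ∧ i' = i)) :
    (⟨b', ⟨q', i'⟩⟩ : Σ _ : Fin r', Σ _ : ℕ, ℕ) ∈ insert ⟨b, ⟨q, i⟩⟩ P ↔
      (⟨b', ⟨q', i'⟩⟩ : Σ _ : Fin r', Σ _ : ℕ, ℕ) ∈ P := by
  rw [Finset.mem_insert]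
  constructor
  · rintro (h2 | h2)
    · simp only [Sigma.mk.injEq, heq_eq_eq] at h2
      exact absurd h2 h
    · exact h2
  · exact Or.inr

private lemma mulS_insert_KEigL {P : Finset (Σ _ : Fin r', Σ _ : ℕ, ℕ)}
    {ζ : Fin r' → ℕ → ℕ → k} {x : Fin r' → Pt C} {b : Fin r'} {q i : ℕ}
    (h : (⟨b, ⟨q, i⟩⟩ : Σ _ : Fin r', Σ _ : ℕ, ℕ) ∉ P) :
    mulS_KEigL (insert ⟨b, ⟨q, i⟩⟩ P) ζ x = rotc b q i (ζ b q i) (mulS_KEigL P ζ x) := by
  funext b'
  unfold rotc
  by_cases hb : b' = b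
  · subst hb
    rw [Function.update_self]
    refine Prod.ext rfl ?_
    funext q' i'
    show _ = Function.update (mulS_KEigL P ζ x b').2 q _ q' i'
    by_cases hq : q' = q
    · subst hq
      rw [Function.update_self]
      by_cases hi : i' = i
      · subst hi
        rw [Function.update_self]
        unfold mulS_KEigL
        dsimp only
        rw [if_pos (Finset.mem_insert_self _ _), if_neg h]
      · rw [Function.update_of_ne hi]
        unfold mulS_KEigL
        dsimp only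
        simp only [mem_insert_KEigL (P := P) (fun h => hi h.2.2 :
          ¬(b' = b' ∧ q' = q' ∧ i' = i))]
    · rw [Function.update_of_ne hq]
      unfold mulS_KEigL
      dsimp only
      simp only [mem_insert_KEigL (P := P) (fun h => hq h.2.1 :
        ¬(b' = b' ∧ q' = q ∧ i' = i))]
  · rw [Function.update_of_ne hb]
    refine Prod.ext rfl ?_
    funext q' i'
    unfold mulS_KEigL
    dsimp only
    simp only [mem_insert_KEigL (P := P) (fun h => hb h.1 : ¬(b' = b ∧ q' = q ∧ i' = i))]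

private lemma onP_rotc_KEigL {x : Fin r' → Pt C} (hx : OnP Y x) {b : Fin r'} {q i : ℕ}
    (hi : i < (Y b).m q) {η : k} (hη : η ^ (Y b).M q i = 1) : OnP Y (rotc b q i η x) := by
  intro b'
  unfold rotc
  by_cases hb : b' = b
  · subst hb
    rw [Function.update_self]
    exact on_rot hi hη (hx b')
  · rw [Function.update_of_ne hb]
    exact hx b'

private lemma mulS_empty_KEigL (ζ : Fin r' → ℕ → ℕ → k) (x : Fin r' → Pt C) :
    mulS_KEigL ∅ ζ x = x := rfl

private lemma onP_mulS_KEigL {ζ : Fin r' → ℕ → ℕ → k}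
    (hζ : ∀ b q i, ζ b q i ^ (Y b).M q i = 1) {x : Fin r' → Pt C} (hx : OnP Y x)
    (P : Finset (Σ _ : Fin r', Σ _ : ℕ, ℕ)) (hP : ∀ p ∈ P, p.2.2 < (Y p.1).m p.2.1) :
    OnP Y (mulS_KEigL P ζ x) := by
  induction P using Finset.induction_on with
  | empty => exact hx
  | insert p P hp ih =>
    obtain ⟨b, q, i⟩ := p
    rw [mulS_insert_KEigL hp]
    exact onP_rotc_KEigL (ih fun p hp => hP p (Finset.mem_insert_of_mem hp))
      (hP _ (Finset.mem_insert_self _ _)) (hζ b q i)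

private lemma eig_mulS_KEigL {κ : Fin r' → Option (Finset ℕ)} {β : Fin r' → ℕ → ℕ → ℕ}
    (hT : IsEigL Y κ β T) {ζ : Fin r' → ℕ → ℕ → k}
    (hζ : ∀ b q i, ζ b q i ^ (Y b).M q i = 1) (x : Fin r' → Pt C)
    (P : Finset (Σ _ : Fin r', Σ _ : ℕ, ℕ))
    (hP : ∀ p ∈ P, p.2.1 ∈ (κ p.1).getD ∅ ∧ p.2.2 < (Y p.1).m p.2.1) :
    T (mulS_KEigL P ζ x) = (∏ p ∈ P, ζ p.1 p.2.1 p.2.2 ^ β p.1 p.2.1 p.2.2) • T x := by
  induction P using Finset.induction_on with
  | empty =>
    rw [Finset.prod_empty, one_smul, mulS_empty_KEigL]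
  | insert p P hp ih =>
    obtain ⟨b, q, i⟩ := p
    obtain ⟨h1, h2⟩ := hP _ (Finset.mem_insert_self _ _)
    dsimp only at h1 h2
    have h3 : ∃ S, κ b = some S ∧ q ∈ S := by
      cases hk : κ b with
      | none =>
        rw [hk] at h1
        exact absurd h1 (Finset.notMem_empty q)
      | some S =>
        rw [hk] at h1
        exact ⟨S, rfl, h1⟩
    obtain ⟨S, h4, h5⟩ := h3
    rw [mulS_insert_KEigL hp, hT b S q i h4 h5 h2 _ _ (hζ b q i),
      ih fun p hp => hP p (Finset.mem_insert_of_mem hp), Finset.prod_insert hp, mul_smul]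

/-- `T` depends only on the components in the levels; if the coordinates of these components are
multiplied by the roots of unity `ζ` then `T` is multiplied by the product of the powers. (Induction
over the triples `(b, q, i)`, `q ∈ T`, `i < m`, as in `HGFC/KEigL.lean`: first for the point
whose coordinates `(b, q, i)` in the finite set are multiplied; the point `y` has the same projections
as the point with all these coordinates multiplied, `DepOn`.) -/
theorem eigL_mul {κ : Fin r' → Option (Finset ℕ)} {β : Fin r' → ℕ → ℕ → ℕ}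
    (hT : IsEigL Y κ β T) (hd : DepOn Y κ T) {ζ : Fin r' → ℕ → ℕ → k}
    (hζ : ∀ b q i, ζ b q i ^ (Y b).M q i = 1) {x y : Fin r' → Pt C} (hx : OnP Y x)
    (hy : OnP Y y) (hxy : ∀ b S, κ b = some S →
      (y b).res (S : Set ℕ) = Pt.res (mulc (ζ b) (x b)) (S : Set ℕ)) :
    T y = rtS Y κ β ζ • T x := by
  have hmem : ∀ b q i, (⟨b, ⟨q, i⟩⟩ : Σ _ : Fin r', Σ _ : ℕ, ℕ) ∈
      Finset.univ.sigma (fun b : Fin r' => ((κ b).getD ∅).sigma fun q =>
        Finset.range ((Y b).m q)) ↔ q ∈ (κ b).getD ∅ ∧ i < (Y b).m q := by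
    intro b q i
    rw [Finset.mem_sigma, Finset.mem_sigma, Finset.mem_range]
    exact ⟨fun h => h.2, fun h => ⟨Finset.mem_univ _, h⟩⟩
  have h1 := eig_mulS_KEigL hT hζ x (Finset.univ.sigma (fun b : Fin r' =>
    ((κ b).getD ∅).sigma fun q => Finset.range ((Y b).m q)))
    (fun p hp => (hmem p.1 p.2.1 p.2.2).1 hp)
  rw [Finset.prod_sigma] at h1
  simp only [Finset.prod_sigma] at h1
  have h2 : OnP Y (mulS_KEigL (Finset.univ.sigma (fun b : Fin r' =>
      ((κ b).getD ∅).sigma fun q => Finset.range ((Y b).m q))) ζ x) :=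
    onP_mulS_KEigL hζ hx _ fun p hp => ((hmem p.1 p.2.1 p.2.2).1 hp).2
  unfold rtS
  rw [← h1]
  refine hd _ _ hy h2 fun b S hS => ?_
  rw [hxy b S hS]
  unfold Pt.res mulc mulS_KEigL
  refine Prod.ext rfl ?_
  funext q i
  dsimp only
  by_cases hq : q ∈ (S : Set ℕ)
  · rw [if_pos hq, if_pos hq]
    have h3 : q ∈ (κ b).getD ∅ := by
      rw [hS]
      exact Finset.mem_coe.1 hq
    by_cases hi : i < (Y b).m q
    · rw [if_pos ((hmem b q i).2 ⟨h3, hi⟩)]
    · rw [if_neg fun h => hi ((hmem b q i).1 h).2, On.none (hx b) (not_lt.1 hi)]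
      rfl
  · rw [if_neg hq, if_neg hq]

end Pool.Agent.HGP
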