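import Pool.Agent.HGP.KLiftB
import Pool.Agent.HGF.KFil

/-!
# Project HGP, block K: class functions on the filtration

`evl E z` (from `HGF/KFil.lean`, with its lemmas) is the value of a class function on a cycle. Class
functions are zero on the cycles which are rationally equivalent to zero. `evl_fil`: a class function
which depends only on the projections of the levels `κ` is zero on `Fil X ν` if `dimS X κ < ν`.
-/

set_option autoImplicit false
set_option linter.unusedSectionVars false

noncomputable section

namespace Pool.Agent.HGP

open Pool.Agent.ZCyc Pool.Agent.Dess Pool.Agent.GT Pool.Agent.TInc Pool.Agent.HGF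
open scoped Classical

variable {k : Type} [Field k] [IsAlgClosed k] [CharZero k] {ι : Type} {C : ι → Crv k} {r : ℕ}
  {X : Fin r → Hyp C} {W : Type} [AddCommGroup W] [Module k W]

/-- class functions are zero on the cycles which are rationally equivalent to zero -/
theorem evl_ratP {E : (Fin r → Pt C) → W} (hE : IsCFP X E) {z : (Fin r → Pt C) →₀ ℚ}
    (hz : z ∈ RatP X ℚ) : evl (k := k) E z = 0 := by
  unfold RatP at hz
  induction hz using Submodule.span_induction with
  | mem z hz =>
    obtain ⟨K, i1, i2, hK, x, f, D, hf, hx, hD, rfl⟩ := hz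
    have h1 : D = TInc.dv hK f := by
      ext v
      exact Dess4.hasOrd_unique hK hf (hD v) (ord_hasOrd hK v hf)
    have h2 := hE K hK x f hf hx
    rw [← h1] at h2
    rw [← h2, map_finsuppSum]
    refine Finsupp.sum_congr fun v _ => ?_
    rw [evl_single, Rat.cast_intCast, Int.cast_smul_eq_zsmul]
  | zero => exact map_zero _
  | add x y _ _ hx hy => rw [map_add, hx, hy, add_zero]
  | smul a x _ hx => rw [evl_smul, hx, smul_zero]

/-- class functions which depend on the projections of the levels `κ` are zero on the filtration:
`evl_ratP` for the class function `isCFP_lift` on the reduced product and the projection of `z`,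
`dep_prj` -/
theorem evl_fil (hX : ∀ a, (X a).Adm) {E : (Fin r → Pt C) → W} (hE : IsCFP X E)
    {κ : Fin r → Option (Finset ℕ)} (hd : DepOn X κ E) {ν : ℕ} (hν : dimS X κ < ν)
    {z : (Fin r → Pt C) →₀ ℚ} (hz : z ∈ Fil X ν) : evl (k := k) E z = 0 := by
  by_cases h0 : z.support = ∅
  · rw [Finsupp.support_eq_empty.1 h0, map_zero]
  obtain ⟨w, hw⟩ := Finset.nonempty_iff_ne_empty.2 h0
  have hwP := hz.1 w hw
  have h1 := evl_ratP (k := k) (isCFP_lift hX hE hd) (hz.2 κ hν w hwP)
  rw [evl_map] at h1
  rw [← h1]
  refine evl_congr fun x hx => ?_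
  exact (dep_prj hX hd hwP (hz.1 x hx)).symm

end Pool.Agent.HGP
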