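import Pool.Agent.HGP.KPt
import Pool.Agent.HGP.Ind
import Pool.Agent.HYG.Roots

/-!
# Package HGP-KExtB: points above points of fibre products of some components

Port of `Pool/Agent/HGFC/KExtB.lean`. The components can be considered one by one. Over `k`: every
component has a point above every point of the curve (`exists_onY` in `HGP/Ind.lean`; no coordinates for
trivial components). Over `K` the coordinates `u_l = none` for `l ≠ 0` are taken, and the equation is
`α * snd (u_0) ^ M_0 = β * fst (u_0) ^ M_0` (`onY_upd`): for `β = 0` take `u_0 = none`, otherwise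
`u_0 = some w` with `w ^ M_0 = φ (α / β)`, from `HYG.exists_roots` (one extension for all components of
all factors). The components in `T` keep the given coordinates.
-/

set_option autoImplicit false
set_option linter.unusedSectionVars false

noncomputable section

namespace Pool.Agent.HGP

open Polynomial Pool.Agent.ZCyc Pool.Agent.Dess Pool.Agent.GT Pool.Agent.TInc Pool.Agent.HGF
open scoped Classical

variable {k : Type} [Field k] [IsAlgClosed k] [CharZero k] {ι : Type} {C : ι → Crv k}

/-! ### One component -/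

omit [IsAlgClosed k] [CharZero k] in
private theorem val_one_KExtB {L : Type} [Field L] [Algebra k L] (c : Place k L) :
    val c (1 : L) = 1 := by
  refine val_eq ?_
  have h := Place.at_const (v := c) (1 : k)
  rwa [map_one] at h

omit [IsAlgClosed k] [CharZero k] in
private theorem triv_KExtB {L : Type} [Field L] [Algebra k L] {D : Cmp k L} (hD : D = .triv)
    {K : Type} [Field K] [Algebra k K] (s : Bp k L K) (u : Fin D.m → Option K) :
    OnY D.F s u := by
  subst hD
  have h1 : sv (Cmp.triv : Cmp k L).F.S (Cmp.triv : Cmp k L).F.A s = 1 := by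
    have hS : (Cmp.triv : Cmp k L).F.S = 0 := rfl
    rw [hS]
    cases s with
    | inl σ => exact map_one σ
    | inr c =>
      show algebraMap k K (val c ((1 : L) * EFC.unif c ^ ((0 : Place k L →₀ ℤ) c))) = 1
      rw [Finsupp.coe_zero, Pi.zero_apply, zpow_zero, mul_one, val_one_KExtB, map_one]
  unfold OnY
  rw [h1, one_mul]
  rfl

/-- a point of a component over `k` -/
private theorem cmp_k_KExtB {L : Type} [Field L] [Algebra k L] [Fact (IsCurve k L)] {D : Cmp k L}
    (hD : D = .triv ∨ D.F.Adm) (s : Place k L) :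
    ∃ u : Fin D.m → Option k, OnY D.F (cp k s) u := by
  rcases hD with hD | hD
  · exact ⟨fun _ => none, triv_KExtB hD _ _⟩
  · obtain ⟨y, hy⟩ := exists_onY hD.M0 ⟨0, hD.one⟩ (cp k s) fun _ => none
    exact ⟨_, hy⟩

omit [IsAlgClosed k] [CharZero k] in
private theorem gI_map_KExtB {L : Type} [Field L] [Algebra k L] {m : ℕ} {F : Fam k L m}
    {K K' : Type} [Field K] [Algebra k K] [Field K'] [Algebra k K'] (φ : K →ₐ[k] K') (i : Fin m)
    (s : Bp k L K) (u : Fin m → Option K) :
    gI F i (bmap φ s) (fun l => (u l).map φ) = φ (gI F i s u) := by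
  unfold gI
  simp only [sv_bmap, fst_map, snd_map, map_prod, map_sub, map_mul, map_pow]

omit [IsAlgClosed k] [CharZero k] in
private theorem alI_map_KExtB {L : Type} [Field L] [Algebra k L] {m : ℕ} {F : Fam k L m}
    {K K' : Type} [Field K] [Algebra k K] [Field K'] [Algebra k K'] (φ : K →ₐ[k] K') (i : Fin m)
    (s : Bp k L K) (u : Fin m → Option K) :
    alI F i (bmap φ s) (fun l => (u l).map φ) = φ (alI F i s u) := by
  unfold alI
  rw [gI_map_KExtB]
  simp only [sv_bmap, snd_map, map_prod, map_sub, map_mul, map_pow]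

omit [IsAlgClosed k] [CharZero k] in
private theorem beI_map_KExtB {L : Type} [Field L] [Algebra k L] {m : ℕ} {F : Fam k L m}
    {K K' : Type} [Field K] [Algebra k K] [Field K'] [Algebra k K'] (φ : K →ₐ[k] K') (i : Fin m)
    (s : Bp k L K) (u : Fin m → Option K) :
    beI F i (bmap φ s) (fun l => (u l).map φ) = φ (beI F i s u) := by
  unfold beI
  rw [gI_map_KExtB, sv_bmap, map_mul]

/-- a point of a component over an extension of `K` with one root -/
private theorem cmp_K_KExtB {L : Type} [Field L] [Algebra k L] [Fact (IsCurve k L)] {D : Cmp k L}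
    (hD : D = .triv ∨ D.F.Adm) {K : Type} [Field K] [Algebra k K] (s : Bp k L K) :
    ∃ (M : ℕ) (t : K), 0 < M ∧ ∀ (K' : Type) [Field K'] [Algebra k K']
      (φ : K →ₐ[k] K') (w : K'), w ^ M = φ t →
        ∃ u : Fin D.m → Option K', OnY D.F (bmap φ s) u := by
  rcases hD with hD | hD
  · exact ⟨1, 0, Nat.one_pos, fun K' _ _ φ w _ => ⟨fun _ => none, triv_KExtB hD _ _⟩⟩
  · let i : Fin D.m := ⟨0, hD.one⟩
    by_cases hb : beI D.F i s (fun _ => none) = 0
    · refine ⟨1, 0, Nat.one_pos, fun K' _ _ φ w _ =>
        ⟨Function.update (fun l => ((none : Option K).map φ)) i none, ?_⟩⟩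
      rw [onY_upd, beI_map_KExtB φ i s fun _ => none, hb, snd_none, zero_pow (hD.M0 i).ne',
        mul_zero, map_zero, zero_mul]
    · refine ⟨D.F.M i, alI D.F i s (fun _ => none) / beI D.F i s (fun _ => none), hD.M0 i,
        fun K' _ _ φ w hw =>
          ⟨Function.update (fun l => ((none : Option K).map φ)) i (some w), ?_⟩⟩
      have hb' : φ (beI D.F i s fun _ => none) ≠ 0 := (_root_.map_ne_zero φ).2 hb
      rw [onY_upd, beI_map_KExtB φ i s fun _ => none, alI_map_KExtB φ i s fun _ => none,
        snd_some, fst_some, one_pow, mul_one, hw, map_div₀, mul_div_cancel₀ _ hb']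

/-- a point above a point of the fibre product of the components in `T` -/
theorem exists_above_k {Z : Hyp C} (hZ : Z.Adm) {T : Set ℕ} {p : Pt C} (hp : (Z.res T).On p) :
    ∃ q : Pt C, Z.On q ∧ q.res T = p := by
  obtain ⟨⟨s, hs, h1⟩, h2⟩ := on_res.1 hp
  choose y hy using fun q => cmp_k_KExtB (hZ.2 q) s
  refine ⟨(p.1, fun q j => if q ∈ T then p.2 q j else if h : j < Z.m q then y q ⟨j, h⟩ else none),
    on_iff.2 ⟨⟨s, hs, fun q => ?_⟩, fun q j hj => ?_⟩, ?_⟩
  · by_cases hq : q ∈ T
    · simp only [if_pos hq]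
      exact h1 q hq
    · simp only [if_neg hq, Fin.is_lt, dite_true, Fin.eta]
      exact hy q
  · by_cases hq : q ∈ T
    · simp only [if_pos hq]
      exact h2 q j fun _ => hj
    · simp only [if_neg hq]
      exact dif_neg (not_lt.2 hj)
  · refine Prod.ext rfl (funext fun q => funext fun j => ?_)
    show (if q ∈ T then (if q ∈ T then p.2 q j else _) else none) = p.2 q j
    by_cases hq : q ∈ T
    · rw [if_pos hq, if_pos hq]
    · rw [if_neg hq]
      exact (h2 q j fun h => absurd h hq).symm

/-- Points above finitely many points over `K` of fibre products of some of the components, in a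
finite extension of `K`. -/
theorem exists_above_K {K : Type} [Field K] [Algebra k K] (hK : IsCurve k K) {r : ℕ}
    {X : Fin r → Hyp C} (hX : ∀ a, (X a).Adm) {T : Fin r → Set ℕ} {y : Fin r → PtK C K}
    (hy : ∀ a, ((X a).res (T a)).OnK (y a)) :
    ∃ (K' : Type) (_ : Field K') (_ : Algebra k K') (_ : IsCurve k K') (φ : K →ₐ[k] K')
      (x : Fin r → PtK C K'), ∀ a, (X a).OnK (x a) ∧ (x a).1 = ((y a).map φ).1 ∧
        ∀ q ∈ T a, ∀ j, (x a).2 q j = ((y a).map φ).2 q j := by
  choose s hs using fun a => (onK_res.1 (hy a)).1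
  have hnone := fun a => (onK_res.1 (hy a)).2
  choose R hR using fun a => (hX a).1
  let Q : ℕ := ∑ a, R a
  have hQ : ∀ a, R a ≤ Q := fun a => Finset.single_le_sum (fun _ _ => Nat.zero_le _)
    (Finset.mem_univ a)
  choose M t hM ht using fun (a : Fin r) (q : ℕ) => cmp_K_KExtB ((hX a).2 q) (s a)
  let e : Fin r × Fin Q ≃ Fin (r * Q) := finProdFinEquiv
  obtain ⟨K', _, _, hK', φ, w, hw⟩ := HYG.exists_roots hK
    (M := fun l => M (e.symm l).1 (e.symm l).2) (fun l => hM _ _)
    fun l => t (e.symm l).1 (e.symm l).2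
  have h1 : ∀ (a : Fin r) (q : ℕ), ∃ u : Fin ((X a).D q).m → Option K',
      OnY ((X a).D q).F (bmap φ (s a)) u := by
    intro a q
    by_cases hq : q < Q
    · refine ht a q K' φ (w (e (a, ⟨q, hq⟩))) ?_
      have h2 := hw (e (a, ⟨q, hq⟩))
      simp only [Equiv.symm_apply_apply] at h2
      exact h2
    · exact ⟨fun _ => none, triv_KExtB (hR a q ((hQ a).trans (not_lt.1 hq))) _ _⟩
  choose u hu using h1
  refine ⟨K', inferInstance, inferInstance, hK', φ, fun a => (((y a).map φ).1, fun q j =>
    if q ∈ T a then ((y a).map φ).2 q j else if h : j < (X a).m q then u a q ⟨j, h⟩ else none),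
    fun a => ⟨⟨⟨bmap φ (s a), ?_, fun q => ?_⟩, fun q j hj => ?_⟩, rfl, fun q hq j => if_pos hq⟩⟩
  · show (⟨(y a).1.1, bmap φ (y a).1.2⟩ : Σ i, Bp k (C i).L K') = _
    rw [(hs a).1]
  · by_cases hq : q ∈ T a
    · simp only [if_pos hq]
      exact (onY_map φ (s a) fun j => (y a).2 q j).2 ((hs a).2 q hq)
    · simp only [if_neg hq, Fin.is_lt, dite_true, Fin.eta]
      exact hu a q
  · by_cases hq : q ∈ T a
    · simp only [if_pos hq]
      show ((y a).2 q j).map φ = none
      rw [hnone a q j fun _ => hj]
      rfl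
    · simp only [if_neg hq]
      exact dif_neg (not_lt.2 hj)

end Pool.Agent.HGP
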