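import Pool.Agent.HGP.KCf
import Pool.Agent.HGP.Ind

/-!
# Package HGP-KInd: functions which are invariant under the rotations of one coordinate

As `indP` in `Pool/Agent/HGFC/KGlue.lean`, with `ind` from `HGP/Ind.lean`. A class function which is
invariant under the rotations of a coordinate of the component `q` of the factor `a` does not depend on
this component (for fixed point of the curve and fixed other components): for the fixed point
`s = (x a).1.2` and `N = 1` the function `u ↦ T (x with the component q of the factor a equal to u)` is a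
class function `IsCFs` of the component (the other coordinates are constants, `onK_cst`, `vlc_cst`).

`exists_levels`: so all components which are trivial or have an exponent zero can be removed from the
levels (induction over the number of these pairs `(b, q)`). For `depOn_erase`: let `x`, `x'` have the same
projections of the new levels; let `y` be `x` with the component `q` of the factor `a` replaced by that of
`x'` (a point of the product); `T x = T y` by `indP` and `T y = T x'` by `DepOn`. For a trivial component
all coordinates are `none`.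
-/

set_option autoImplicit false
set_option linter.unusedSectionVars false

noncomputable section

namespace Pool.Agent.HGP

open Pool.Agent.ZCyc Pool.Agent.Dess Pool.Agent.GT Pool.Agent.TInc Pool.Agent.HGF
open scoped Classical

variable {k : Type} [Field k] [IsAlgClosed k] [CharZero k] {ι : Type} {C : ι → Crv k} {r : ℕ}
  {X : Fin r → Hyp C} {W : Type} [AddCommGroup W] [Module k W] {T : (Fin r → Pt C) → W}
  {κ : Fin r → Option (Finset ℕ)}

/-- the component `q` of the factor `a` is replaced by `u` -/
private def stq_KInd (x : Fin r → Pt C) (a : Fin r) (q : ℕ) {m : ℕ} (u : Fin m → Option k) :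
    Fin r → Pt C :=
  Function.update x a ((x a).1, Function.update (x a).2 q
    (fun j => if h : j < m then u ⟨j, h⟩ else none))

omit [IsAlgClosed k] [CharZero k] in
private theorem stq_fst_KInd (x : Fin r → Pt C) (a : Fin r) (q : ℕ) {m : ℕ}
    (u : Fin m → Option k) : (stq_KInd x a q u a).1 = (x a).1 := by
  unfold stq_KInd
  rw [Function.update_self]

omit [IsAlgClosed k] [CharZero k] in
private theorem stq_ne_KInd (x : Fin r → Pt C) {a b : Fin r} (q : ℕ) {m : ℕ}
    (u : Fin m → Option k) (h : b ≠ a) : stq_KInd x a q u b = x b := by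
  unfold stq_KInd
  rw [Function.update_of_ne h]

omit [IsAlgClosed k] [CharZero k] in
private theorem stq_q_KInd (x : Fin r → Pt C) (a : Fin r) (q : ℕ) {m : ℕ}
    (u : Fin m → Option k) (j : ℕ) :
    (stq_KInd x a q u a).2 q j = if h : j < m then u ⟨j, h⟩ else none := by
  unfold stq_KInd
  rw [Function.update_self]
  dsimp only
  rw [Function.update_self]

omit [IsAlgClosed k] [CharZero k] in
private theorem stq_p_KInd (x : Fin r → Pt C) (a : Fin r) {q p : ℕ} {m : ℕ}
    (u : Fin m → Option k) (h : p ≠ q) : (stq_KInd x a q u a).2 p = (x a).2 p := by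
  unfold stq_KInd
  rw [Function.update_self]
  dsimp only
  rw [Function.update_of_ne h]

private theorem res_pos_KInd (p : Pt C) {S : Set ℕ} {q : ℕ} (h : q ∈ S) (j : ℕ) :
    (p.res S).2 q j = p.2 q j := if_pos h

private theorem res_neg_KInd (p : Pt C) {S : Set ℕ} {q : ℕ} (h : q ∉ S) (j : ℕ) :
    (p.res S).2 q j = none := if_neg h

omit [IsAlgClosed k] [CharZero k] in
private theorem pt_ext_KInd {x x' : Fin r → Pt C} {a : Fin r} (h : ∀ b, b ≠ a → x b = x' b)
    (h1 : (x a).1 = (x' a).1) (h2 : ∀ p j, (x a).2 p j = (x' a).2 p j) : x = x' := by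
  funext b
  by_cases hb : b = a
  · subst hb
    exact Prod.ext h1 (funext fun p => funext fun j => h2 p j)
  · exact h b hb

omit [IsAlgClosed k] [CharZero k] in
private theorem stq_eq_KInd {x x' : Fin r → Pt C} {a : Fin r} {q : ℕ} (hx' : OnP X x')
    (h : ∀ b, b ≠ a → x b = x' b) (h1 : (x a).1 = (x' a).1)
    (h2 : ∀ p, p ≠ q → (x a).2 p = (x' a).2 p) :
    stq_KInd x a q (fun j : Fin ((X a).m q) => (x' a).2 q j) = x' := by
  refine pt_ext_KInd (a := a) (fun b hb => ?_) ?_ fun p j => ?_
  · rw [stq_ne_KInd _ _ _ hb, h b hb]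
  · rw [stq_fst_KInd, h1]
  · by_cases hp : p = q
    · subst hp
      rw [stq_q_KInd]
      split_ifs with hj
      · rfl
      · exact (On.none (hx' a) (not_lt.1 hj)).symm
    · rw [stq_p_KInd _ _ _ hp, h2 p hp]

omit [IsAlgClosed k] [CharZero k] in
private theorem stq_rot_KInd (x : Fin r → Pt C) (a : Fin r) (q : ℕ) {m : ℕ}
    (u : Fin m → Option k) (i : Fin m) (ζ : k) :
    stq_KInd x a q (Function.update u i ((u i).map fun w => ζ * w)) =
      rotc a q i ζ (stq_KInd x a q u) := by
  have e0 : ∀ y : Fin r → Pt C, (rotc a q (i : ℕ) ζ y a).1 = (y a).1 := fun y => by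
    unfold rotc
    rw [Function.update_self]
  have e1 : ∀ (y : Fin r → Pt C) (p : ℕ), p ≠ q → (rotc a q (i : ℕ) ζ y a).2 p = (y a).2 p :=
    fun y p hp => by
      unfold rotc
      rw [Function.update_self]
      dsimp only
      rw [Function.update_of_ne hp]
  have e2 : ∀ (y : Fin r → Pt C), (rotc a q (i : ℕ) ζ y a).2 q =
      Function.update ((y a).2 q) (i : ℕ) (((y a).2 q i).map fun t => ζ * t) := fun y => by
    unfold rotc
    rw [Function.update_self]
    dsimp only
    rw [Function.update_self]
  have e3 : ∀ (y : Fin r → Pt C) (b : Fin r), b ≠ a → rotc a q (i : ℕ) ζ y b = y b :=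
    fun y b hb => by
      unfold rotc
      rw [Function.update_of_ne hb]
  refine pt_ext_KInd (a := a) (fun b hb => ?_) ?_ fun p j => ?_
  · rw [e3 _ _ hb, stq_ne_KInd _ _ _ hb, stq_ne_KInd _ _ _ hb]
  · rw [e0, stq_fst_KInd, stq_fst_KInd]
  · by_cases hp : p = q
    · subst hp
      rw [e2, stq_q_KInd]
      by_cases hj : j = (i : ℕ)
      · subst hj
        rw [Function.update_self, stq_q_KInd, dif_pos i.2, dif_pos i.2]
        have h1 : (⟨(i : ℕ), i.2⟩ : Fin m) = i := rfl
        rw [h1, Function.update_self]
      · rw [Function.update_of_ne hj, stq_q_KInd]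
        split_ifs with h
        · rw [Function.update_of_ne fun hc => hj (congrArg Fin.val hc)]
        · rfl
    · rw [e1 _ _ hp, stq_p_KInd _ _ _ hp, stq_p_KInd _ _ _ hp]

private theorem cfs_KInd (hT : IsCFP X T) {x : Fin r → Pt C} (hx : OnP X x) (a : Fin r) (q : ℕ)
    {s : Place k (C (X a).i).L} (hs : (x a).1 = ⟨(X a).i, s⟩) :
    IsCFs ((X a).D q).F (fun _ : Fin 1 => s)
      fun u => T (stq_KInd x a q (u 0)) := by
  intro K _ _ hK u f hf hu
  have key := hT K hK (Function.update (fun b => (x b).cst K) a
    (⟨(X a).i, cp K s⟩, Function.update ((x a).cst K).2 q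
      (fun j => if h : j < (X a).m q then u 0 ⟨j, h⟩ else none))) f hf ?_
  · have e1 : ∀ v : Place k K, (fun b => vlc v (Function.update (fun b => (x b).cst K) a
        ((⟨(X a).i, cp K s⟩ : Σ i, Bp k (C i).L K), Function.update ((x a).cst K).2 q
        (fun j => if h : j < (X a).m q then u 0 ⟨j, h⟩ else none)) b)) =
          stq_KInd x a q (fun i => vlo v (u 0 i)) := by
      intro v
      refine pt_ext_KInd (a := a) (fun b hb => ?_) ?_ fun p j => ?_
      · rw [Function.update_of_ne hb, stq_ne_KInd _ _ _ hb]
        exact vlc_cst v (x b)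
      · rw [Function.update_self, stq_fst_KInd, hs]
        rfl
      · rw [Function.update_self]
        change vlo v (Function.update ((x a).cst K).2 q
          (fun j => if h : j < (X a).m q then u 0 ⟨j, h⟩ else none) p j) = _
        by_cases hp : p = q
        · subst hp
          rw [Function.update_self, stq_q_KInd]
          split_ifs with h
          · rfl
          · exact vlo_none v
        · rw [Function.update_of_ne hp, stq_p_KInd _ _ _ hp]
          exact vlo_const v ((x a).2 p j)
    simp only [e1] at key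
    exact key
  · intro b
    by_cases hb : b = a
    · subst hb
      rw [Function.update_self]
      obtain ⟨⟨s', h1, h2⟩, h3⟩ := onK_cst (hx b) K
      have h4 : (⟨(X b).i, cp K s⟩ : Σ i, Bp k (C i).L K) = ⟨(X b).i, s'⟩ := by
        rw [← h1]
        change _ = (⟨(x b).1.1, Sum.inr (x b).1.2⟩ : Σ i, Bp k (C i).L K)
        rw [hs]
      have h5 : cp K s = s' := eq_of_heq (Sigma.mk.inj h4).2
      refine ⟨⟨cp K s, rfl, fun p => ?_⟩, fun p j hj => ?_⟩
      · by_cases hp : p = q
        · subst hp
          have h6 : (fun j : Fin ((X b).D p).m => (Function.update ((x b).cst K).2 p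
              (fun j => if h : j < (X b).m p then u 0 ⟨j, h⟩ else none)) p j) =
              fun j : Fin ((X b).D p).m => u 0 j := by
            funext j
            rw [Function.update_self, dif_pos j.2]
          change OnY ((X b).D p).F (cp K s) (fun j : Fin ((X b).D p).m =>
            (Function.update ((x b).cst K).2 p
              (fun j => if h : j < (X b).m p then u 0 ⟨j, h⟩ else none)) p j)
          rw [h6]
          exact hu 0
        · have h6 := h2 p
          rw [← h5] at h6
          change OnY ((X b).D p).F (cp K s) (fun j : Fin ((X b).D p).m =>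
            (Function.update ((x b).cst K).2 q
              (fun j => if h : j < (X b).m q then u 0 ⟨j, h⟩ else none)) p j)
          rw [Function.update_of_ne hp]
          exact h6
      · change (Function.update ((x b).cst K).2 q
          (fun j => if h : j < (X b).m q then u 0 ⟨j, h⟩ else none)) p j = none
        by_cases hp : p = q
        · subst hp
          rw [Function.update_self, dif_neg (not_lt.2 hj)]
        · rw [Function.update_of_ne hp]
          exact h3 p j hj
    · rw [Function.update_of_ne hb]
      exact onK_cst (hx b) K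

theorem indP (hX : ∀ a, (X a).Adm) (hT : IsCFP X T) {a : Fin r} {q i : ℕ}
    (hi : i < (X a).m q) (hβ : EigAt X a q i 0 T) {x x' : Fin r → Pt C} (hx : OnP X x)
    (hx' : OnP X x') (h : ∀ b, b ≠ a → x b = x' b) (h1 : (x a).1 = (x' a).1)
    (h2 : ∀ p, p ≠ q → (x a).2 p = (x' a).2 p) : T x = T x' := by
  obtain ⟨⟨s, hs, hy⟩, -⟩ := on_iff.1 (hx a)
  obtain ⟨⟨s', hs', hy'⟩, -⟩ := on_iff.1 (hx' a)
  have hss : s = s' := by
    have h3 : (⟨(X a).i, s⟩ : Σ i, Place k (C i).L) = ⟨(X a).i, s'⟩ := by
      rw [← hs, ← hs', h1]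
    exact eq_of_heq (Sigma.mk.inj h3).2
  subst hss
  have h4 := ind (Hyp.adm_of_pos (hX a) (by omega)) (cfs_KInd hT hx a q hs) (j := 0)
    (i := ⟨i, hi⟩) (fun u ζ hζ => ?_) (u := fun _ j => (x a).2 q j)
    (u' := fun _ j => (x' a).2 q j) (fun _ => hy q) (fun _ => hy' q)
    (fun l hl => absurd (Subsingleton.elim l 0) hl)
  · beta_reduce at h4
    rw [stq_eq_KInd hx (fun _ _ => rfl) rfl (fun _ _ => rfl), stq_eq_KInd hx' h h1 h2] at h4
    exact h4
  · have h5 : rot (0 : Fin 1) (⟨i, hi⟩ : Fin ((X a).D q).m) ζ u 0 =
        Function.update (u 0) ⟨i, hi⟩ ((u 0 ⟨i, hi⟩).map fun w => ζ * w) := by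
      unfold rot
      rw [Function.update_self]
      funext i'
      by_cases hi' : i' = ⟨i, hi⟩
      · subst hi'
        simp only [Function.update_self]
      · simp only [ne_eq, hi', not_false_eq_true, Function.update_of_ne]
    rw [h5, stq_rot_KInd]
    have h6 := hβ (stq_KInd x a q (u 0)) ζ (by rw [Hyp.M_eq hi]; exact hζ)
    rw [pow_zero, one_smul] at h6
    exact h6

theorem depOn_erase (hX : ∀ a, (X a).Adm) (hT : IsCFP X T) (hd : DepOn X κ T) {a : Fin r}
    {S : Finset ℕ} (ha : κ a = some S) {q : ℕ}
    (hq : (X a).m q = 0 ∨ ∃ i < (X a).m q, EigAt X a q i 0 T) :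
    DepOn X (Function.update κ a (some (S.erase q))) T := by
  intro x x' hx hx' h
  have h0 : (x a).res ((S.erase q : Finset ℕ) : Set ℕ) =
      (x' a).res ((S.erase q : Finset ℕ) : Set ℕ) := h a _ (Function.update_self _ _ _)
  have h1 : (x a).1 = (x' a).1 := by
    have h2 := congrArg Prod.fst h0
    exact h2
  obtain ⟨⟨s, hs, hy⟩, hn⟩ := on_iff.1 (hx a)
  obtain ⟨⟨s', hs', hy'⟩, hn'⟩ := on_iff.1 (hx' a)
  have hss : s = s' := by
    have h3 : (⟨(X a).i, s⟩ : Σ i, Place k (C i).L) = ⟨(X a).i, s'⟩ := by
      rw [← hs, ← hs', h1]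
    exact eq_of_heq (Sigma.mk.inj h3).2
  subst hss
  have hyon : OnP X (stq_KInd x a q fun j : Fin ((X a).m q) => (x' a).2 q j) := by
    intro b
    by_cases hb : b = a
    · subst hb
      refine on_iff.2 ⟨⟨s, ?_, fun p => ?_⟩, fun p j hj => ?_⟩
      · rw [stq_fst_KInd, hs]
      · by_cases hp : p = q
        · subst hp
          have h6 : (fun j : Fin ((X b).D p).m => (stq_KInd x b p
              (fun j : Fin ((X b).m p) => (x' b).2 p j) b).2 p j) =
              fun j : Fin ((X b).D p).m => (x' b).2 p j := by
            funext j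
            rw [stq_q_KInd, dif_pos j.2]
          rw [h6]
          exact hy' p
        · rw [stq_p_KInd _ _ _ hp]
          exact hy p
      · by_cases hp : p = q
        · subst hp
          rw [stq_q_KInd, dif_neg (not_lt.2 hj)]
        · rw [stq_p_KInd _ _ _ hp]
          exact hn p j hj
    · rw [stq_ne_KInd _ _ _ hb]
      exact hx b
  have e1 : T x = T (stq_KInd x a q fun j : Fin ((X a).m q) => (x' a).2 q j) := by
    rcases hq with hq | ⟨i, hi, hβ⟩
    · congr 1
      refine pt_ext_KInd (a := a) (fun b hb => (stq_ne_KInd _ _ _ hb).symm)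
        (stq_fst_KInd _ _ _ _).symm fun p j => ?_
      by_cases hp : p = q
      · subst hp
        rw [stq_q_KInd, dif_neg (by rw [hq]; exact Nat.not_lt_zero j)]
        exact hn p j (by rw [hq]; exact Nat.zero_le j)
      · rw [stq_p_KInd _ _ _ hp]
    · exact indP hX hT hi hβ hx hyon (fun b hb => (stq_ne_KInd _ _ _ hb).symm)
        (stq_fst_KInd _ _ _ _).symm fun p hp => (stq_p_KInd _ _ _ hp).symm
  rw [e1]
  refine hd _ _ hyon hx' fun b S' hb => ?_
  by_cases hba : b = a
  · subst hba
    have hS : S' = S := Option.some.inj (hb.symm.trans ha)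
    subst hS
    refine Prod.ext ?_ (funext fun p => funext fun j => ?_)
    · change (stq_KInd x b q (fun j : Fin ((X b).m q) => (x' b).2 q j) b).1 = (x' b).1
      rw [stq_fst_KInd, h1]
    · by_cases hp : p ∈ (S' : Set ℕ)
      · rw [res_pos_KInd _ hp, res_pos_KInd _ hp]
        by_cases hpq : p = q
        · subst hpq
          rw [stq_q_KInd]
          split_ifs with hj
          · rfl
          · exact (hn' p j (not_lt.1 hj)).symm
        · rw [stq_p_KInd _ _ _ hpq]
          have h7 := congrFun (congrFun (congrArg Prod.snd h0) p) j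
          have h8 : p ∈ ((S'.erase q : Finset ℕ) : Set ℕ) := by
            rw [Finset.coe_erase]
            exact ⟨hp, hpq⟩
          rw [res_pos_KInd _ h8, res_pos_KInd _ h8] at h7
          exact h7
      · rw [res_neg_KInd _ hp, res_neg_KInd _ hp]
  · rw [stq_ne_KInd _ _ _ hba]
    exact h b S' (by rw [Function.update_of_ne hba]; exact hb)

private theorem levels_KInd (hX : ∀ a, (X a).Adm) (hT : IsCFP X T) {β : Fin r → ℕ → ℕ → ℕ}
    (hβ : IsEigP X β T) (n : ℕ) : ∀ κ : Fin r → Option (Finset ℕ), DepOn X κ T →
      ∑ a, (κ a).elim 0 Finset.card = n → ∃ κ' : Fin r → Option (Finset ℕ),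
      DepOn X κ' T ∧ dimS X κ' ≤ dimS X κ ∧
        ∀ b S, κ' b = some S → ∀ q ∈ S, 0 < (X b).m q ∧ ∀ i < (X b).m q, 0 < β b q i := by
  induction n using Nat.strong_induction_on with
  | _ n ih =>
    intro κ hd hn
    by_cases hgood : ∀ b S, κ b = some S → ∀ q ∈ S, 0 < (X b).m q ∧
        ∀ i < (X b).m q, 0 < β b q i
    · exact ⟨κ, hd, le_rfl, hgood⟩
    · push Not at hgood
      obtain ⟨b, S, hb, q, hq, hbad⟩ := hgood
      have hq' : (X b).m q = 0 ∨ ∃ i < (X b).m q, EigAt X b q i 0 T := by
        rcases Nat.eq_zero_or_pos ((X b).m q) with h | h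
        · exact Or.inl h
        · obtain ⟨i, hi, h1⟩ := hbad h
          have h2 : β b q i = 0 := by omega
          refine Or.inr ⟨i, hi, ?_⟩
          have h3 := hβ b q i hi
          rwa [h2] at h3
      have hd1 := depOn_erase hX hT hd hb hq'
      have hlt : ∑ a, ((Function.update κ b (some (S.erase q))) a).elim 0 Finset.card < n := by
        rw [← hn]
        refine Finset.sum_lt_sum (fun a _ => ?_) ⟨b, Finset.mem_univ b, ?_⟩
        · by_cases ha : a = b
          · subst ha
            rw [Function.update_self, hb]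
            exact Finset.card_le_card (Finset.erase_subset q S)
          · rw [Function.update_of_ne ha]
        · rw [Function.update_self, hb]
          exact Finset.card_erase_lt_of_mem hq
      obtain ⟨κ', h1, h2, h3⟩ := ih _ hlt _ hd1 rfl
      refine ⟨κ', h1, h2.trans ?_, h3⟩
      unfold dimS
      refine Finset.sum_le_sum fun a _ => ?_
      by_cases ha : a = b
      · subst ha
        rw [Function.update_self, hb]
        change 1 + ∑ r ∈ S.erase q, ((X a).m r - 1) ≤ 1 + ∑ r ∈ S, ((X a).m r - 1)
        exact Nat.add_le_add_left (Finset.sum_le_sum_of_subset (Finset.erase_subset q S)) 1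
      · rw [Function.update_of_ne ha]

/-- the components which are trivial or have an exponent zero can be removed from the levels -/
theorem exists_levels (hX : ∀ a, (X a).Adm) (hT : IsCFP X T) {β : Fin r → ℕ → ℕ → ℕ}
    (hβ : IsEigP X β T) (hd : DepOn X κ T) : ∃ κ' : Fin r → Option (Finset ℕ),
      DepOn X κ' T ∧ dimS X κ' ≤ dimS X κ ∧
        ∀ b S, κ' b = some S → ∀ q ∈ S, 0 < (X b).m q ∧ ∀ i < (X b).m q, 0 < β b q i :=
  levels_KInd hX hT hβ _ κ hd rfl

end Pool.Agent.HGP
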