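import Pool.Agent.HGP.KSumC
import Pool.Agent.HGP.KEigB
import Pool.Agent.HGP.KComA
import Pool.Agent.HGP.KEvl
import Pool.Agent.HGP.KBas
import Pool.Agent.HGP.KInd

/-!
# Package HGP-KFil: the filtration and class functions

As `Pool/Agent/HGFC/KFil.lean`. `evl_top`: first `eig_induction`; for an eigenfunction `T` with the exponents
`β` replace the levels by `κ'` from `exists_levels` (nontrivial components and exponents `> 0`). If
`dimS Y κ' < dimS Y κ` then `evl_low` and `dim_lv`. Otherwise put `β' b q j = β b q j` if `κ' b = some S`,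
`q ∈ S`, `j < m q` and `0` otherwise, and apply `base_induction` (base points `w0 a = abv (Y a) ∅ ⟨…⟩` over
one point for every curve), the morphisms in `InjL` by `sum_inj`, the others by `evl_low` with
`dim_lv_lt`; the functions which do not depend on a factor by `evl_low`, `dim_lv`, `dim_update_none`.
-/

set_option autoImplicit false
set_option linter.unusedSectionVars false

noncomputable section

namespace Pool.Agent.HGP

open Pool.Agent.ZCyc Pool.Agent.Dess Pool.Agent.GT Pool.Agent.TInc Pool.Agent.HGF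
open scoped Classical

variable {k : Type} [Field k] [IsAlgClosed k] [CharZero k] {ι : Type} {C : ι → Crv k} {r r' : ℕ}
  {X : Fin r → Hyp C} {Y : Fin r' → Hyp C} {W : Type} [AddCommGroup W] [Module k W]

/-- class functions on `Y` which depend on few data, at the images of cycles in the filtration -/
theorem evl_low (hX : ∀ a, (X a).Adm) (hY : ∀ b, (Y b).Adm) {E : (Fin r' → Pt C) → W}
    (hE : IsCFP Y E) (f : Mor X Y) {κ : Fin r' → Option (Finset ℕ)} (hd : DepOn Y κ E) {ν : ℕ}
    (hν : dimS X (lv f κ) < ν) {z : (Fin r → Pt C) →₀ ℚ} (hz : z ∈ Fil X ν) :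
    evl (k := k) (fun x => E (f.app x)) z = 0 := by
  exact evl_fil hX (isCFP_comp hY hE f) (depOn_comp hY hd f) hν hz

/-- **A combination of morphisms which kills the holomorphic forms of degree `ν`.** -/
theorem evl_top (hX : ∀ a, (X a).Adm) (hY : ∀ b, (Y b).Adm) {E : (Fin r' → Pt C) → W}
    (hE : IsCFP Y E) {κ : Fin r' → Option (Finset ℕ)} (hd : DepOn Y κ E) {γ : Mor X Y →₀ ℚ}
    (hγ : KillsForms γ (dimS Y κ)) {z : (Fin r → Pt C) →₀ ℚ} (hz : z ∈ Fil X (dimS Y κ)) :
    ∑ f ∈ γ.support, (γ f : k) • evl (k := k) (fun x => E (f.app x)) z = 0 := by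
  have h00 : ∑ f ∈ γ.support, (γ f : k) • evl (k := k) (fun _ => (0 : W)) z = 0 := by
    refine Finset.sum_eq_zero fun f _ => ?_
    rw [evl_zero, smul_zero]
  have hadd : ∀ E E' : (Fin r' → Pt C) → W,
      ∑ f ∈ γ.support, (γ f : k) • evl (k := k) (fun x => E (f.app x)) z = 0 →
      ∑ f ∈ γ.support, (γ f : k) • evl (k := k) (fun x => E' (f.app x)) z = 0 →
      ∑ f ∈ γ.support, (γ f : k) • evl (k := k) (fun x => E (f.app x) + E' (f.app x)) z = 0 := by
    intro E E' h h'
    rw [← add_zero (0 : W)]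
    nth_rewrite 1 [← h]
    rw [← h', ← Finset.sum_add_distrib]
    refine Finset.sum_congr rfl fun f _ => ?_
    rw [evl_add, smul_add]
  refine eig_induction (X := Y) hY (Φ := fun E =>
    ∑ f ∈ γ.support, (γ f : k) • evl (k := k) (fun x => E (f.app x)) z = 0) h00 hadd (κ := κ)
    ?_ hE hd
  intro β T hβM hT hdT hβT
  obtain ⟨κ', hdep, hdim, hκ⟩ := exists_levels hY hT hβT hdT
  by_cases hlt : dimS Y κ' < dimS Y κ
  · refine Finset.sum_eq_zero fun f _ => ?_
    rw [evl_low hX hY hT f hdep (lt_of_le_of_lt (dim_lv f _) hlt) hz, smul_zero]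
  rw [← le_antisymm hdim (not_lt.1 hlt)] at hγ hz
  -- the exponents for the components in the levels
  obtain ⟨β', hβ'⟩ : ∃ β' : Fin r' → ℕ → ℕ → ℕ, β' = fun b q j =>
      if ∃ S, κ' b = some S ∧ q ∈ S ∧ j < (Y b).m q then β b q j else 0 := ⟨_, rfl⟩
  have hβ1 : ∀ b S, κ' b = some S → ∀ q ∈ S, ∀ j < (Y b).m q, β' b q j = β b q j := by
    intro b S hS q hq j hj
    rw [hβ']
    exact if_pos ⟨S, hS, hq, hj⟩
  have hβ2 : ∀ b S, κ' b = some S → ∀ q j, ¬ (q ∈ S ∧ j < (Y b).m q) → β' b q j = 0 := by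
    intro b S hS q j hn
    rw [hβ']
    refine if_neg ?_
    rintro ⟨S', hS', h1⟩
    rw [hS, Option.some.injEq] at hS'
    exact hn (hS' ▸ h1)
  have hEig : IsEigL Y κ' β' T := by
    intro b S q j hS hq hj
    rw [hβ1 b S hS q hq j hj]
    exact hβT b q j hj
  have hn : Ntr Y κ' β' := by
    intro b S hS q hq
    obtain ⟨h1, h2⟩ := hκ b S hS q hq
    refine ⟨Hyp.adm_of_pos (hY b) h1, fun j hj => ?_⟩
    rw [hβ1 b S hS q hq j hj]
    exact ⟨h2 j hj, hβM b q j hj⟩
  -- the base points
  have hp : ∀ a, ((Y a).res (∅ : Set ℕ)).On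
      ((⟨(Y a).i, Classical.arbitrary (Place k (C (Y a).i).L)⟩, fun _ _ => none) : Pt C) :=
    fun a => on_res_empty.2 ⟨rfl, fun _ _ => rfl⟩
  have hon : OnP Y fun a => abv (Y a) ∅
      ((⟨(Y a).i, Classical.arbitrary (Place k (C (Y a).i).L)⟩, fun _ _ => none) : Pt C) :=
    fun a => abv_on (hY a) (hp a)
  have hsame : ∀ a b, (Y a).i = (Y b).i →
      (abv (Y a) ∅ ((⟨(Y a).i, Classical.arbitrary (Place k (C (Y a).i).L)⟩,
        fun _ _ => none) : Pt C)).1 =
      (abv (Y b) ∅ ((⟨(Y b).i, Classical.arbitrary (Place k (C (Y b).i).L)⟩,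
        fun _ _ => none) : Pt C)).1 := by
    intro a b h
    rw [abv_fst (hY a) (hp a), abv_fst (hY b) (hp b)]
    exact congrArg (fun i => (⟨i, Classical.arbitrary (Place k (C i).L)⟩ :
      Σ i, Place k (C i).L)) h
  refine base_induction (X := Y) hY (Φ := fun E =>
    ∑ f ∈ γ.support, (γ f : k) • evl (k := k) (fun x => E (f.app x)) z = 0) hadd (κ := κ')
    (β := β') hon ?_ ?_ hT hdep hEig
  · intro T b hb hT hdT
    refine Finset.sum_eq_zero fun f _ => ?_
    have h1 : κ' b ≠ none := by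
      rw [hb]
      exact Option.some_ne_none _
    rw [evl_low hX hY hT f hdT (lt_of_le_of_lt (dim_lv f _) (dim_update_none h1)) hz, smul_zero]
  · intro T hT hdT hβT h0
    rw [← Finset.sum_filter_add_sum_filter_not _ (fun f => InjL f κ')]
    have h1 : ∑ f ∈ γ.support.filter (fun f => ¬ InjL f κ'),
        (γ f : k) • evl (k := k) (fun x => T (f.app x)) z = 0 := by
      refine Finset.sum_eq_zero fun f hf => ?_
      rw [evl_low hX hY hT f hdT (dim_lv_lt (fun b S hS q hq => (hκ b S hS q hq).1)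
        (Finset.mem_filter.1 hf).2) hz, smul_zero]
    have h2 : ∑ f ∈ γ.support.filter (fun f => InjL f κ'),
        (γ f : k) • evl (k := k) (fun x => T (f.app x)) z = 0 := by
      simp only [evl_apply, Finset.smul_sum]
      rw [Finset.sum_comm]
      refine Finset.sum_eq_zero fun x hx => ?_
      have h3 := sum_inj hX hY hT hdT hβT hn hβ2 h0 hsame hon hγ (hz.1 x hx)
      have h4 : ∑ f ∈ γ.support.filter (fun f => InjL f κ'), (γ f : k) • (z x : k) •
          T (f.app x) = (z x : k) • ∑ f ∈ γ.support.filter (fun f => InjL f κ'),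
            (γ f : k) • T (f.app x) := by
        rw [Finset.smul_sum]
        exact Finset.sum_congr rfl fun f _ => smul_comm _ _ _
      rw [h4, h3, smul_zero]
    rw [h1, h2, add_zero]

end Pool.Agent.HGP
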