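import Pool.Agent.HGP.KExtB
import Pool.Agent.HGP.KCf

/-!
# Package HGP-KLift: points above the projections

Port of `Pool/Agent/HGFC/KLift.lean`. `abv Z T p` is a point of `Z` whose projection to the fibre
product of the components in `T` is `p` (`exists_above_k`). `lft X κ y`: points above `y a` for the
factors of level `some T`.
-/

set_option autoImplicit false
set_option linter.unusedSectionVars false

noncomputable section

namespace Pool.Agent.HGP

open Pool.Agent.ZCyc Pool.Agent.Dess Pool.Agent.GT Pool.Agent.TInc Pool.Agent.HGF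
open scoped Classical

variable {k : Type} [Field k] [IsAlgClosed k] [CharZero k] {ι : Type} {C : ι → Crv k} {r : ℕ}
  {X : Fin r → Hyp C} {W : Type} [AddCommGroup W] [Module k W] {E : (Fin r → Pt C) → W}
  {κ : Fin r → Option (Finset ℕ)}

/-- a point of `Z` above the point `p` of the fibre product of the components in `T` -/
def abv (Z : Hyp C) (T : Set ℕ) (p : Pt C) : Pt C :=
  if h : ∃ q : Pt C, Z.On q ∧ q.res T = p then h.choose else p

theorem abv_on {Z : Hyp C} (hZ : Z.Adm) {T : Set ℕ} {p : Pt C} (hp : (Z.res T).On p) :
    Z.On (abv Z T p) := by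
  have h := exists_above_k hZ hp
  unfold abv
  rw [dif_pos h]
  exact h.choose_spec.1

theorem abv_res {Z : Hyp C} (hZ : Z.Adm) {T : Set ℕ} {p : Pt C} (hp : (Z.res T).On p) :
    (abv Z T p).res T = p := by
  have h := exists_above_k hZ hp
  unfold abv
  rw [dif_pos h]
  exact h.choose_spec.2

theorem abv_fst {Z : Hyp C} (hZ : Z.Adm) {T : Set ℕ} {p : Pt C} (hp : (Z.res T).On p) :
    (abv Z T p).1 = p.1 := by
  have h : ((abv Z T p).res T).1 = p.1 := congrArg Prod.fst (abv_res hZ hp)
  exact h

/-- the points of the `X a` above the projections -/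
def lft (X : Fin r → Hyp C) (κ : Fin r → Option (Finset ℕ)) (y : Fin r → Pt C) : Fin r → Pt C :=
  fun a => (κ a).elim (y a) fun T => abv (X a) (T : Set ℕ) (y a)

theorem lft_on (hX : ∀ a, (X a).Adm) {y : Fin r → Pt C} (hy : OnP (red κ X) y) :
    OnP X (lft X κ y) := by
  intro a
  have h := hy a
  unfold red at h
  unfold lft
  cases ha : κ a with
  | none =>
    rw [ha] at h
    exact h
  | some T =>
    rw [ha] at h
    exact abv_on (hX a) h

/-- the projection of a point of the product lies on the reduced product -/
theorem prj_on {w x : Fin r → Pt C} (hw : OnP X w) (hx : OnP X x) :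
    OnP (red κ X) (prj κ w x) := by
  intro a
  unfold red prj
  cases ha : κ a with
  | none => exact hw a
  | some T => exact On.res (hx a) _

/-- `E` at the projection of a point -/
theorem dep_prj (hX : ∀ a, (X a).Adm) (hd : DepOn X κ E) {w x : Fin r → Pt C}
    (hw : OnP X w) (hx : OnP X x) : E (lft X κ (prj κ w x)) = E x := by
  refine hd _ _ (lft_on hX (prj_on hw hx)) hx (fun a T ha => ?_)
  unfold lft prj
  rw [ha]
  exact abv_res (hX a) (On.res (hx a) _)

/-- the varieties of the reduced product are admissible -/
theorem red_adm (hX : ∀ a, (X a).Adm) (a : Fin r) : (red κ X a).Adm := by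
  unfold red
  cases ha : κ a with
  | none => exact hX a
  | some T => exact Hyp.res_adm (hX a) _

end Pool.Agent.HGP
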