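import Pool.Agent.HGP.KLift
import Pool.Agent.HGFC.KExtC

/-!
# Package HGP-KLiftB: the class function on the reduced product

Port of `Pool/Agent/HGFC/KLiftB.lean` (same proof: `exists_above_K` from `HGP/KExtB.lean` for the levels
`some T`, the images `PtK.map φ (y a)` for the level `none`; `HGFC.cf_ext`).
-/

set_option autoImplicit false
set_option linter.unusedSectionVars false

noncomputable section

namespace Pool.Agent.HGP

open Pool.Agent.ZCyc Pool.Agent.Dess Pool.Agent.GT Pool.Agent.TInc Pool.Agent.HGF
open scoped Classical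

variable {k : Type} [Field k] [IsAlgClosed k] [CharZero k] {ι : Type} {C : ι → Crv k} {r : ℕ}
  {X : Fin r → Hyp C} {W : Type} [AddCommGroup W] [Module k W] {E : (Fin r → Pt C) → W}
  {κ : Fin r → Option (Finset ℕ)}

/-- **the class function on the reduced product** -/
theorem isCFP_lift (hX : ∀ a, (X a).Adm) (hE : IsCFP X E) (hd : DepOn X κ E) :
    IsCFP (red κ X) fun y => E (lft X κ y) := by
  intro K _ _ hK y f hf hy
  have hadm : ∀ a, (red κ X a).Adm := red_adm hX
  have hyT : ∀ a, ((X a).res ((κ a).elim Set.univ fun T => (T : Set ℕ))).OnK (y a) := by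
    intro a
    have h := hy a
    unfold red at h
    cases hκ : κ a with
    | none =>
      rw [hκ] at h
      have e : (X a).res Set.univ = X a := Hyp.res_eq (hX a) fun q _ => Set.mem_univ q
      show ((X a).res Set.univ).OnK (y a)
      rw [e]
      exact h
    | some T =>
      rw [hκ] at h
      exact h
  obtain ⟨K', i1, i2, hK', φ, x, hx⟩ := exists_above_K hK hX hyT
  have hr : HasRes k K := hasRes_of_isCurve hK
  have hr' : HasRes k K' := hasRes_of_isCurve hK'
  have hb : HasBelow k K := hasBelow_of_isCurve hK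
  have hb' : HasBelow k K' := hasBelow_of_isCurve hK'
  have hx' : OnPK X x := fun a => (hx a).1
  have hφf : φ f ≠ 0 := fun h => hf (φ.toRingHom.injective (by
    rw [map_zero]
    exact h))
  have h2 := hE K' hK' x (φ f) hφf hx'
  refine HGFC.cf_ext hK hK' φ (G := fun v => E (lft X κ fun j => vlc v (y j))) ?_ hf h2
  intro V v hV
  have hony := onP_vlc hadm v hy
  refine hd _ _ (onP_vlc hX V hx') (lft_on hX hony) fun a T hκ => ?_
  have h3 : ((X a).res (T : Set ℕ)).On (vlc v (y a)) := by
    have h := hony a
    unfold red at h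
    rw [hκ] at h
    exact h
  have h4 : lft X κ (fun j => vlc v (y j)) a = abv (X a) (T : Set ℕ) (vlc v (y a)) := by
    unfold lft
    rw [hκ]
    rfl
  rw [h4, abv_res (hX a) h3, ← vlc_map hV (y a)]
  have h5 := hyT a
  rw [hκ] at h5
  obtain ⟨-, h6, h7⟩ := hx a
  rw [hκ] at h7
  refine Prod.ext ?_ (funext fun q => funext fun j => ?_)
  · show (⟨(x a).1.1, vb V (x a).1.2⟩ : Σ i, Place k (C i).L) =
      ⟨((y a).map φ).1.1, vb V ((y a).map φ).1.2⟩
    rw [h6]
  · by_cases hq : q ∈ (T : Set ℕ)
    · have h8 : ((vlc V (x a)).res (T : Set ℕ)).2 q j = vlo V ((x a).2 q j) := if_pos hq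
      rw [h8, h7 q hq j]
      rfl
    · have h8 : ((vlc V (x a)).res (T : Set ℕ)).2 q j = none := if_neg hq
      have h9 : (y a).2 q j = none := (onK_res.1 h5).2 q j fun h => absurd h hq
      rw [h8]
      show none = vlo V (((y a).2 q j).map φ)
      rw [h9]
      exact (vlo_none V).symm

end Pool.Agent.HGP
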