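import Pool.Agent.HGP.KCmp

/-!
# Package HGP-KLv: the levels of a composition

`lv f κ`: the levels on `X` of the composition of a function with the levels `κ` on `Y` and a
morphism
`f`: `none` if the factor `a` is not the source of a factor `b` with `κ b ≠ none`; otherwise `some`
of the
set of all `π q`, `q ∈ S ∩ A`, for the factors `b` with the source `a` and `κ b = some S`.

`dim_lv`: the dimension is at most `dimS Y κ`: for every `a` of level `≠ none` choose a `b` with
the source
`a`; `∑_(p in the union) (m p - 1) ≤ ∑_b ∑_(q ∈ S_b ∩ A_b) (m (π q) - 1)` (`Finset.sum_biUnion_le`,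
`Finset.sum_image_le…`, or `Finset.sum_le_sum_of_…`), `m (π q) = m q` (`Comp.sel_eq`, `Hyp.sel_m`).
`dim_lv_lt`: less if the morphism is not in `InjL` (and the components in the levels are
nontrivial):
(i) a constant component `b` with `κ b ≠ none`: its contribution `≥ 1` to `dimS Y κ` is not needed;
(ii) `q ∈ S_b`, `q ∉ A_b`: then `m q ≠ 1` (`Comp.A_one`), so `m q ≥ 2`, and the contribution
`m q - 1 ≥ 1` is not
needed; (iii) `q ≠ q'` in `S_b ∩ A_b` with `π q = π q'`: then `m q = m q'` is not `1`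
(`Comp.A_one`), and the
contribution of one of them is not needed; (iv) two factors `b ≠ b'` with the same source: the `1`
of one
of them is not needed.
-/

set_option autoImplicit false
set_option linter.unusedSectionVars false

noncomputable section

namespace Pool.Agent.HGP

open Pool.Agent.ZCyc Pool.Agent.Dess Pool.Agent.GT Pool.Agent.TInc Pool.Agent.HGF
open scoped Classical

variable {k : Type} [Field k] {ι : Type} {C : ι → Crv k} {r r' : ℕ} {X : Fin r → Hyp C}
  {Y : Fin r' → Hyp C} {W : Type}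

/-- the factors of level `≠ none` come from different factors of `X`, and the components in the levels
are different components of these factors -/
def InjL (f : Mor X Y) (κ : Fin r' → Option (Finset ℕ)) : Prop :=
  (∀ b S, κ b = some S → ∃ a, (f b).src = some a) ∧
    (∀ b S, κ b = some S → (f b).Inj S) ∧
      ∀ b b', κ b ≠ none → κ b' ≠ none → (f b).src = (f b').src → b = b'

/-- the components of the source -/
def Comp.im {Z : Hyp C} (f : Comp X Z) (S : Finset ℕ) : Finset ℕ :=
  (S.filter (· ∈ f.A)).image f.pi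

/-- the levels of a composition -/
def lv (f : Mor X Y) (κ : Fin r' → Option (Finset ℕ)) (a : Fin r) : Option (Finset ℕ) :=
  if ∃ b, κ b ≠ none ∧ (f b).src = some a then
    some (Finset.univ.biUnion fun b =>
      if κ b ≠ none ∧ (f b).src = some a then (f b).im ((κ b).getD ∅) else ∅)
  else none

private theorem sum_biUnion_KLv {α : Type} (s : Finset α) (t : α → Finset ℕ) (g : ℕ → ℕ) :
    ∑ p ∈ s.biUnion t, g p ≤ ∑ b ∈ s, ∑ p ∈ t b, g p := by
  induction s using Finset.induction_on with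
  | empty => simp
  | insert a s ha ih =>
    rw [Finset.biUnion_insert, Finset.sum_insert ha]
    have h1 := Finset.sum_union_inter (s₁ := t a) (s₂ := s.biUnion t) (f := g)
    omega

private theorem sum_image_KLv {α : Type} (s : Finset α) (φ : α → ℕ) (g : ℕ → ℕ) :
    ∑ p ∈ s.image φ, g p ≤ ∑ q ∈ s, g (φ q) := by
  rw [← Finset.biUnion_singleton]
  refine (sum_biUnion_KLv s _ g).trans (le_of_eq ?_)
  exact Finset.sum_congr rfl fun q _ => Finset.sum_singleton _ _

section

variable {Z : Hyp C}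

private theorem m_pi_KLv {f : Comp X Z} {a : Fin r} (h : f.src = some a) {q : ℕ} (hq : q ∈ f.A) :
    (X a).m (f.pi q) = Z.m q := Hyp.sel_m (Comp.sel_eq h) hq

private theorem im_le_KLv {f : Comp X Z} {a : Fin r} (h : f.src = some a) (S : Finset ℕ) :
    (X a).dm (f.im S) ≤ Z.dm S := by
  have h1 : ∑ p ∈ f.im S, ((X a).m p - 1) ≤ ∑ q ∈ S, (Z.m q - 1) := by
    refine (sum_image_KLv (S.filter (· ∈ f.A)) f.pi fun p => (X a).m p - 1).trans ?_
    have h2 : ∑ q ∈ S.filter (· ∈ f.A), ((X a).m (f.pi q) - 1) =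
        ∑ q ∈ S.filter (· ∈ f.A), (Z.m q - 1) :=
      Finset.sum_congr rfl fun q hq => by rw [m_pi_KLv h (Finset.mem_filter.1 hq).2]
    rw [h2]
    exact Finset.sum_le_sum_of_subset (Finset.filter_subset _ _)
  exact Nat.add_le_add_left h1 1

private theorem im_lt_KLv {f : Comp X Z} {a : Fin r} (h : f.src = some a) {S : Finset ℕ}
    (hS : ∀ q ∈ S, 0 < Z.m q) (hn : ¬ f.Inj S) : (X a).dm (f.im S) < Z.dm S := by
  have key : ∃ q ∈ S, 2 ≤ Z.m q ∧ f.im S ⊆ ((S.erase q).filter (· ∈ f.A)).image f.pi := by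
    by_cases hA : (S : Set ℕ) ⊆ f.A
    · have h1 : ¬ Set.InjOn f.pi (S : Set ℕ) := fun h1 => hn ⟨hA, h1⟩
      unfold Set.InjOn at h1
      push Not at h1
      obtain ⟨q, hq, q', hq', he, hne⟩ := h1
      have hq1 : q ∈ S := hq
      have hq1' : q' ∈ S := hq'
      refine ⟨q, hq1, ?_, ?_⟩
      · have h2 := hS q hq1
        have h3 : Z.m q ≠ 1 := fun h3 =>
          hne (((Comp.A_one h h3).2 q' (hA hq') he.symm).symm)
        omega
      · intro p hp
        obtain ⟨u, hu, rfl⟩ := Finset.mem_image.1 hp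
        obtain ⟨hu1, hu2⟩ := Finset.mem_filter.1 hu
        by_cases huq : u = q
        · subst huq
          exact Finset.mem_image.2 ⟨q', Finset.mem_filter.2
            ⟨Finset.mem_erase.2 ⟨Ne.symm hne, hq1'⟩, hA hq'⟩, he.symm⟩
        · exact Finset.mem_image.2 ⟨u, Finset.mem_filter.2
            ⟨Finset.mem_erase.2 ⟨huq, hu1⟩, hu2⟩, rfl⟩
    · obtain ⟨q, hq, hqA⟩ := Set.not_subset.1 hA
      have hq1 : q ∈ S := hq
      refine ⟨q, hq1, ?_, ?_⟩
      · have h2 := hS q hq1
        have h3 : Z.m q ≠ 1 := fun h3 => hqA (Comp.A_one h h3).1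
        omega
      · intro p hp
        obtain ⟨u, hu, rfl⟩ := Finset.mem_image.1 hp
        obtain ⟨hu1, hu2⟩ := Finset.mem_filter.1 hu
        refine Finset.mem_image.2 ⟨u, Finset.mem_filter.2
          ⟨Finset.mem_erase.2 ⟨?_, hu1⟩, hu2⟩, rfl⟩
        rintro rfl
        exact hqA hu2
  obtain ⟨q, hq, h2, hsub⟩ := key
  have h1 : ∑ p ∈ f.im S, ((X a).m p - 1) ≤ ∑ u ∈ S.erase q, (Z.m u - 1) := by
    refine (Finset.sum_le_sum_of_subset hsub).trans ?_
    refine (sum_image_KLv ((S.erase q).filter (· ∈ f.A)) f.pi fun p => (X a).m p - 1).trans ?_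
    have h3 : ∑ u ∈ (S.erase q).filter (· ∈ f.A), ((X a).m (f.pi u) - 1) =
        ∑ u ∈ (S.erase q).filter (· ∈ f.A), (Z.m u - 1) :=
      Finset.sum_congr rfl fun u hu => by rw [m_pi_KLv h (Finset.mem_filter.1 hu).2]
    rw [h3]
    exact Finset.sum_le_sum_of_subset (Finset.filter_subset _ _)
  have h4 := Finset.add_sum_erase S (fun u => Z.m u - 1) hq
  change 1 + ∑ p ∈ f.im S, ((X a).m p - 1) < 1 + ∑ q ∈ S, (Z.m q - 1)
  omega

end

/-- the dimension of the image of the factor `b` -/
private def cc (f : Mor X Y) (κ : Fin r' → Option (Finset ℕ)) (b : Fin r') : ℕ :=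
  (f b).src.elim 0 fun a => (κ b).elim 0 fun S => (X a).dm ((f b).im S)

private theorem cc_le_KLv (f : Mor X Y) (κ : Fin r' → Option (Finset ℕ)) (b : Fin r') :
    cc f κ b ≤ (κ b).elim 0 (Y b).dm := by
  unfold cc
  cases hs : (f b).src with
  | none => exact Nat.zero_le _
  | some a =>
    cases hb : κ b with
    | none => exact Nat.zero_le _
    | some S => exact im_le_KLv hs S

private theorem lv_some_KLv {f : Mor X Y} {κ : Fin r' → Option (Finset ℕ)} {a : Fin r}
    (h : ∃ b, κ b ≠ none ∧ (f b).src = some a) : lv f κ a =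
    some (Finset.univ.biUnion fun b =>
      if κ b ≠ none ∧ (f b).src = some a then (f b).im ((κ b).getD ∅) else ∅) := if_pos h

private theorem cc_pos_KLv {f : Mor X Y} {κ : Fin r' → Option (Finset ℕ)} {a : Fin r} {b : Fin r'}
    (h : κ b ≠ none ∧ (f b).src = some a) :
    cc f κ b = 1 + ∑ p ∈ (f b).im ((κ b).getD ∅), ((X a).m p - 1) := by
  obtain ⟨S, hS⟩ := Option.ne_none_iff_exists'.1 h.1
  unfold cc
  rw [h.2, hS]
  rfl

private theorem sum_src_KLv (f : Mor X Y) (κ : Fin r' → Option (Finset ℕ)) (a : Fin r) :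
    (∑ b, if (f b).src = some a then cc f κ b else 0) =
      (Finset.univ.filter fun b => κ b ≠ none ∧ (f b).src = some a).card +
        ∑ b ∈ Finset.univ.filter fun b => κ b ≠ none ∧ (f b).src = some a,
          ∑ p ∈ (f b).im ((κ b).getD ∅), ((X a).m p - 1) := by
  have h1 : (∑ b, if (f b).src = some a then cc f κ b else 0) =
      ∑ b, if κ b ≠ none ∧ (f b).src = some a then cc f κ b else 0 := by
    refine Finset.sum_congr rfl fun b _ => ?_
    by_cases hs : (f b).src = some a
    · rw [if_pos hs]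
      by_cases hb : κ b = none
      · rw [if_neg (fun h => h.1 hb)]
        unfold cc
        rw [hs, hb]
        rfl
      · rw [if_pos ⟨hb, hs⟩]
    · rw [if_neg hs, if_neg fun h => hs h.2]
  rw [h1, ← Finset.sum_filter, Finset.card_eq_sum_ones, ← Finset.sum_add_distrib]
  exact Finset.sum_congr rfl fun b hb => cc_pos_KLv (Finset.mem_filter.1 hb).2

private theorem dm_lv_KLv {f : Mor X Y} {κ : Fin r' → Option (Finset ℕ)} {a : Fin r}
    (h : ∃ b, κ b ≠ none ∧ (f b).src = some a) : (lv f κ a).elim 0 (X a).dm ≤ 1 +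
      ∑ b ∈ Finset.univ.filter fun b => κ b ≠ none ∧ (f b).src = some a,
        ∑ p ∈ (f b).im ((κ b).getD ∅), ((X a).m p - 1) := by
  rw [lv_some_KLv h]
  refine Nat.add_le_add_left ?_ 1
  refine (sum_biUnion_KLv _ _ _).trans (le_of_eq ?_)
  rw [Finset.sum_filter]
  refine Finset.sum_congr rfl fun b _ => ?_
  by_cases hb : κ b ≠ none ∧ (f b).src = some a
  · rw [if_pos hb, if_pos hb]
  · rw [if_neg hb, if_neg hb, Finset.sum_empty]

private theorem lv_le_KLv (f : Mor X Y) (κ : Fin r' → Option (Finset ℕ)) (a : Fin r) :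
    (lv f κ a).elim 0 (X a).dm ≤ ∑ b, if (f b).src = some a then cc f κ b else 0 := by
  by_cases h : ∃ b, κ b ≠ none ∧ (f b).src = some a
  · refine (dm_lv_KLv h).trans ?_
    rw [sum_src_KLv]
    obtain ⟨b, hb⟩ := h
    have h1 : 0 < (Finset.univ.filter fun b => κ b ≠ none ∧ (f b).src = some a).card :=
      Finset.card_pos.2 ⟨b, Finset.mem_filter.2 ⟨Finset.mem_univ _, hb⟩⟩
    omega
  · have h1 : lv f κ a = none := if_neg h
    rw [h1]
    exact Nat.zero_le _

private theorem lv_lt_KLv {f : Mor X Y} {κ : Fin r' → Option (Finset ℕ)} {a : Fin r}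
    {b b' : Fin r'} (hb : κ b ≠ none ∧ (f b).src = some a)
    (hb' : κ b' ≠ none ∧ (f b').src = some a) (hne : b ≠ b') :
    (lv f κ a).elim 0 (X a).dm < ∑ b, if (f b).src = some a then cc f κ b else 0 := by
  refine (dm_lv_KLv ⟨b, hb⟩).trans_lt ?_
  rw [sum_src_KLv]
  have h1 : 1 < (Finset.univ.filter fun b => κ b ≠ none ∧ (f b).src = some a).card :=
    Finset.one_lt_card.2 ⟨b, Finset.mem_filter.2 ⟨Finset.mem_univ _, hb⟩, b',
      Finset.mem_filter.2 ⟨Finset.mem_univ _, hb'⟩, hne⟩
  omega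

private theorem sum_cc_KLv (f : Mor X Y) (κ : Fin r' → Option (Finset ℕ)) :
    (∑ a, ∑ b, if (f b).src = some a then cc f κ b else 0) = ∑ b, cc f κ b := by
  rw [Finset.sum_comm]
  refine Finset.sum_congr rfl fun b _ => ?_
  rcases hs : (f b).src with _ | a
  · simp [cc, hs]
  · rw [Finset.sum_eq_single a]
    · rw [if_pos rfl]
    · intro a' _ hne
      rw [if_neg]
      intro h
      exact hne (Option.some.inj h).symm
    · intro h
      exact absurd (Finset.mem_univ a) h

theorem dim_lv (f : Mor X Y) (κ : Fin r' → Option (Finset ℕ)) :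
    dimS X (lv f κ) ≤ dimS Y κ := by
  unfold dimS
  refine (Finset.sum_le_sum fun a _ => lv_le_KLv f κ a).trans ?_
  rw [sum_cc_KLv]
  exact Finset.sum_le_sum fun b _ => cc_le_KLv f κ b

theorem dim_lv_lt {f : Mor X Y} {κ : Fin r' → Option (Finset ℕ)}
    (hκ : ∀ b S, κ b = some S → ∀ q ∈ S, 0 < (Y b).m q) (h : ¬ InjL f κ) :
    dimS X (lv f κ) < dimS Y κ := by
  unfold dimS
  have key : ∀ b S, κ b = some S → cc f κ b < (Y b).dm S →
      ∑ a, (lv f κ a).elim 0 (X a).dm < ∑ b, (κ b).elim 0 (Y b).dm := by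
    intro b S hb hlt
    refine (Finset.sum_le_sum fun a _ => lv_le_KLv f κ a).trans_lt ?_
    rw [sum_cc_KLv]
    refine Finset.sum_lt_sum (fun b _ => cc_le_KLv f κ b) ⟨b, Finset.mem_univ b, ?_⟩
    rw [hb]
    exact hlt
  by_cases hi : ∀ b S, κ b = some S → ∃ a, (f b).src = some a
  · by_cases hii : ∀ b S, κ b = some S → (f b).Inj S
    · have hiii : ∃ b b', κ b ≠ none ∧ κ b' ≠ none ∧ (f b).src = (f b').src ∧ b ≠ b' := by
        by_contra hcon
        push Not at hcon
        exact h ⟨hi, hii, hcon⟩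
      obtain ⟨b, b', hb, hb', hs, hne⟩ := hiii
      obtain ⟨S, hS⟩ := Option.ne_none_iff_exists'.1 hb
      obtain ⟨a, ha⟩ := hi b S hS
      have h1 : ∑ a, (lv f κ a).elim 0 (X a).dm <
          ∑ a, ∑ b, if (f b).src = some a then cc f κ b else 0 :=
        Finset.sum_lt_sum (fun a _ => lv_le_KLv f κ a)
          ⟨a, Finset.mem_univ a, lv_lt_KLv ⟨hb, ha⟩ ⟨hb', hs ▸ ha⟩ hne⟩
      refine h1.trans_le ?_
      rw [sum_cc_KLv]
      exact Finset.sum_le_sum fun b _ => cc_le_KLv f κ b
    · push Not at hii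
      obtain ⟨b, S, hS, hn⟩ := hii
      obtain ⟨a, ha⟩ := hi b S hS
      refine key b S hS ?_
      unfold cc
      rw [ha, hS]
      exact im_lt_KLv ha (hκ b S hS) hn
  · push Not at hi
    obtain ⟨b, S, hS, hn⟩ := hi
    refine key b S hS ?_
    have h1 : (f b).src = none := by
      rcases hs : (f b).src with _ | a
      · rfl
      · exact absurd hs (hn a)
    unfold cc
    rw [h1]
    exact Nat.lt_of_lt_of_le Nat.zero_lt_one (Nat.le_add_right 1 _)

theorem dim_update_none {κ : Fin r' → Option (Finset ℕ)} {b : Fin r'} (hb : κ b ≠ none) :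
    dimS Y (Function.update κ b none) < dimS Y κ := by
  unfold dimS
  refine Finset.sum_lt_sum (fun a _ => ?_) ⟨b, Finset.mem_univ b, ?_⟩
  · by_cases hab : a = b
    · subst hab
      rw [Function.update_self]
      exact Nat.zero_le _
    · rw [Function.update_of_ne hab]
  · rw [Function.update_self]
    obtain ⟨S, hS⟩ := Option.ne_none_iff_exists'.1 hb
    rw [hS]
    exact Nat.lt_of_lt_of_le Nat.zero_lt_one (Nat.le_add_right 1 _)

/-- the composition depends only on the levels `lv f κ` (`Comp.app_res_eq`, `Comp.app_of_none`) -/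
theorem depOn_comp [IsAlgClosed k] [CharZero k] (hY : ∀ b, (Y b).Adm)
    {E : (Fin r' → Pt C) → W} {κ : Fin r' → Option (Finset ℕ)} (hd : DepOn Y κ E)
    (f : Mor X Y) : DepOn X (lv f κ) fun x => E (f.app x) := by
  intro x x' hx hx' h1
  refine hd _ _ (f.app_on hY hx) (f.app_on hY hx') fun b T hb => ?_
  change ((f b).app x).res (T : Set ℕ) = ((f b).app x').res (T : Set ℕ)
  rcases hs : (f b).src with _ | a
  · rw [Comp.app_of_none hs x x']
  · have hb' : κ b ≠ none := by
      rw [hb]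
      exact Option.some_ne_none T
    refine Comp.app_res_eq hs (fun q hq hqA => ?_) (h1 a _ (lv_some_KLv ⟨b, hb', hs⟩))
    refine Finset.mem_coe.2 (Finset.mem_biUnion.2 ⟨b, Finset.mem_univ b, ?_⟩)
    rw [if_pos ⟨hb', hs⟩, hb]
    exact Finset.mem_image.2 ⟨q, Finset.mem_filter.2 ⟨hq, hqA⟩, rfl⟩

end Pool.Agent.HGP
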