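import Pool.Agent.HGP.KPt

/-!
# Package HGP-KMor: morphisms of products

Port of `Pool/Agent/HGFC/KMor.lean`. The component `map a A π ρ ζ t …` is the map `tr A π ρ`
(selection of the components and permutation of the coordinates) followed by the multiplication of
the coordinates by `ζ`, and the sections for the components `q ∉ A`.
-/

set_option autoImplicit false
set_option linter.unusedSectionVars false

noncomputable section

namespace Pool.Agent.HGP

open Pool.Agent.ZCyc Pool.Agent.Dess Pool.Agent.GT Pool.Agent.TInc Pool.Agent.HGF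
open scoped Classical

variable {k : Type} [Field k] {ι : Type} {C : ι → Crv k} {r r' : ℕ} {X : Fin r → Hyp C}
  {Y : Fin r' → Hyp C}

/-! ### Selection of components -/

/-- the components `π q`, `q ∈ T`, with permuted coordinates -/
def tr {A B : Type} (T : Set ℕ) (π : ℕ → ℕ) (ρ : ℕ → Equiv.Perm ℕ)
    (p : A × (ℕ → ℕ → Option B)) : A × (ℕ → ℕ → Option B) :=
  (p.1, fun q j => if q ∈ T then p.2 (π q) (ρ q j) else none)

/-- the selected components -/
private theorem KMor_sel {Z Z' : Hyp C} {T : Set ℕ} {π : ℕ → ℕ} (h : Z'.sel T π = Z.res T) :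
    ∃ D' : ℕ → Cmp k (C Z.i).L, Z' = ⟨Z.i, D'⟩ ∧ ∀ q ∈ T, D' (π q) = Z.D q := by
  obtain ⟨i, D⟩ := Z
  obtain ⟨i', D'⟩ := Z'
  have h1 : (⟨i', fun r => if r ∈ T then D' (π r) else .triv⟩ : Hyp C) =
      ⟨i, fun r => if r ∈ T then D r else .triv⟩ := h
  injection h1 with h2 h3
  subst h2
  have h4 := eq_of_heq h3
  refine ⟨D', rfl, fun q hq => ?_⟩
  have h5 := congrFun h4 q
  simp only [if_pos hq] at h5
  exact h5

theorem Hyp.sel_i {Z Z' : Hyp C} {T : Set ℕ} {π : ℕ → ℕ} (h : Z'.sel T π = Z.res T) :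
    Z'.i = Z.i := by
  have h1 : (Z'.sel T π).i = (Z.res T).i := congrArg Hyp.i h
  exact h1

theorem Hyp.sel_m {Z Z' : Hyp C} {T : Set ℕ} {π : ℕ → ℕ} (h : Z'.sel T π = Z.res T) {q : ℕ}
    (hq : q ∈ T) : Z'.m (π q) = Z.m q := by
  obtain ⟨D', rfl, hD⟩ := KMor_sel h
  exact congrArg Cmp.m (hD q hq)

/-- a symmetry maps `j < m` to `ρ j < m` -/
theorem Cmp.Sym.lt {L : Type} [Field L] [Algebra k L] {D : Cmp k L} {ρ : Equiv.Perm ℕ}
    (h : D.Sym ρ) {j : ℕ} : ρ j < D.m ↔ j < D.m := by
  constructor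
  · intro h1
    by_contra h2
    rw [h.1 j (not_lt.1 h2)] at h1
    exact h2 h1
  · intro h1
    by_contra h2
    have h3 := h.1 (ρ j) (not_lt.1 h2)
    rw [ρ.injective h3] at h2
    exact h2 h1

/-- the exponents of a component -/
def Cmp.M {L : Type} [Field L] [Algebra k L] (D : Cmp k L) (j : ℕ) : ℕ :=
  if h : j < D.m then D.F.M ⟨j, h⟩ else 1

theorem Cmp.Sym.M {L : Type} [Field L] [Algebra k L] {D : Cmp k L} {ρ : Equiv.Perm ℕ}
    (h : D.Sym ρ) (j : ℕ) : D.M (ρ j) = D.M j := by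
  unfold Cmp.M
  by_cases hj : j < D.m
  · rw [dif_pos hj, dif_pos (h.lt.2 hj)]
    exact (h.2 ⟨j, hj⟩ ⟨ρ j, h.lt.2 hj⟩ rfl).2.2.2.symm
  · rw [h.1 j (not_lt.1 hj)]

/-- the exponents; `hρ` is a symmetry of the component `q` -/
theorem Hyp.sel_M {Z Z' : Hyp C} {T : Set ℕ} {π : ℕ → ℕ} (h : Z'.sel T π = Z.res T) {q : ℕ}
    (hq : q ∈ T) {ρ : Equiv.Perm ℕ} (hρ : (Z.D q).Sym ρ) (j : ℕ) :
    Z'.M (π q) (ρ j) = Z.M q j := by
  obtain ⟨D', rfl, hD⟩ := KMor_sel h
  change (D' (π q)).M (ρ j) = (Z.D q).M j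
  rw [hD q hq, hρ.M]

theorem Hyp.sel_mono {Z Z' : Hyp C} {A T : Set ℕ} {π : ℕ → ℕ} (h : Z'.sel A π = Z.res A)
    (hT : T ⊆ A) : Z'.sel T π = Z.res T := by
  obtain ⟨D', rfl, hD⟩ := KMor_sel h
  have h1 : (fun r => if r ∈ T then D' (π r) else .triv) =
      fun r => if r ∈ T then Z.D r else .triv := by
    funext r
    by_cases hr : r ∈ T
    · rw [if_pos hr, if_pos hr, hD r (hT hr)]
    · rw [if_neg hr, if_neg hr]
  change (⟨Z.i, fun r => if r ∈ T then D' (π r) else .triv⟩ : Hyp C) =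
    ⟨Z.i, fun r => if r ∈ T then Z.D r else .triv⟩
  rw [h1]

theorem Cmp.Sym.one {L : Type} [Field L] [Algebra k L] (D : Cmp k L) : D.Sym 1 := by
  refine ⟨fun j _ => rfl, fun j j' h => ?_⟩
  have h1 : j = j' := Fin.ext h
  subst h1
  exact ⟨rfl, rfl, rfl, rfl⟩

theorem Cmp.Sym.trans {L : Type} [Field L] [Algebra k L] {D : Cmp k L} {ρ ρ' : Equiv.Perm ℕ}
    (h : D.Sym ρ) (h' : D.Sym ρ') : D.Sym (ρ.trans ρ') := by
  refine ⟨fun j hj => ?_, fun j j' hj => ?_⟩
  · rw [Equiv.trans_apply, h.1 j hj, h'.1 j hj]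
  · obtain ⟨a, b, c, d⟩ := h.2 j ⟨ρ j, h.lt.2 j.2⟩ rfl
    obtain ⟨a', b', c', d'⟩ := h'.2 ⟨ρ j, h.lt.2 j.2⟩ j' hj
    exact ⟨a.trans a', b.trans b', c.trans c', d.trans d'⟩

theorem Cmp.Sym.symm {L : Type} [Field L] [Algebra k L] {D : Cmp k L} {ρ : Equiv.Perm ℕ}
    (h : D.Sym ρ) : D.Sym ρ.symm := by
  refine ⟨fun j hj => ?_, fun j j' hj => ?_⟩
  · rw [Equiv.symm_apply_eq, h.1 j hj]
  · obtain ⟨a, b, c, d⟩ := h.2 j' j (by rw [← hj, Equiv.apply_symm_apply])
    exact ⟨a.symm, b.symm, c.symm, d.symm⟩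

/-- points with permuted coordinates (`Fintype.prod_equiv` with the permutation of `Fin D.m`) -/
theorem Cmp.Sym.onY {L : Type} [Field L] [Algebra k L] {D : Cmp k L} {ρ : Equiv.Perm ℕ}
    (h : D.Sym ρ) {K : Type} [Field K] [Algebra k K] {s : Bp k L K} {w : ℕ → Option K}
    (hw : OnY D.F s fun j => w j) : OnY D.F s fun j => w (ρ j) := by
  let σ : Equiv.Perm (Fin D.m) :=
    { toFun := fun j => ⟨ρ j, h.lt.2 j.2⟩
      invFun := fun j => ⟨ρ.symm j, h.symm.lt.2 j.2⟩
      left_inv := fun j => Fin.ext (ρ.symm_apply_apply j)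
      right_inv := fun j => Fin.ext (ρ.apply_symm_apply j) }
  have hσ : ∀ j, D.F.E j = D.F.E (σ j) ∧ D.F.B j = D.F.B (σ j) ∧ D.F.C j = D.F.C (σ j) ∧
      D.F.M j = D.F.M (σ j) := fun j => h.2 j (σ j) rfl
  unfold OnY at hw ⊢
  have h1 : ∏ i : Fin D.m, (sv (D.F.E i) (D.F.B i) s * snd (w (ρ i)) ^ D.F.M i -
      sv (D.F.E i) (D.F.C i) s * fst (w (ρ i)) ^ D.F.M i) =
      ∏ i : Fin D.m, (sv (D.F.E i) (D.F.B i) s * snd (w i) ^ D.F.M i -
        sv (D.F.E i) (D.F.C i) s * fst (w i) ^ D.F.M i) := by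
    refine Fintype.prod_equiv σ _ _ fun i => ?_
    obtain ⟨a, b, c, d⟩ := hσ i
    rw [a, b, c, d]
    rfl
  have h2 : ∏ i : Fin D.m, snd (w (ρ i)) ^ D.F.M i = ∏ i : Fin D.m, snd (w i) ^ D.F.M i := by
    refine Fintype.prod_equiv σ _ _ fun i => ?_
    rw [(hσ i).2.2.2]
    rfl
  rw [h1, h2]
  exact hw

/-- points with coordinates multiplied by roots of unity -/
theorem onY_mulc {L : Type} [Field L] [Algebra k L] {D : Cmp k L} {K : Type} [Field K]
    [Algebra k K] {s : Bp k L K} {w : ℕ → Option K} {ζ : ℕ → K}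
    (hζ : ∀ j : Fin D.m, ζ j ^ D.F.M j = 1) (hw : OnY D.F s fun j => w j) :
    OnY D.F s fun j => (w j).map fun t => ζ j * t := by
  have h4 : ∀ j : Fin D.m, snd ((w j).map fun t => ζ j * t) = snd (w j) := by
    intro j
    cases w j with
    | none => rfl
    | some t => rfl
  have h5 : ∀ j : Fin D.m, fst ((w j).map fun t => ζ j * t) ^ D.F.M j =
      fst (w j) ^ D.F.M j := by
    intro j
    cases w j with
    | none => rfl
    | some t =>
      change (ζ j * t) ^ D.F.M j = t ^ D.F.M j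
      rw [mul_pow, hζ j, one_mul]
  unfold OnY at hw ⊢
  simp only [h4, h5]
  exact hw

/-- the selected components of a point over a field are a point -/
theorem onK_tr {Z Z' : Hyp C} {T : Set ℕ} {π : ℕ → ℕ} {ρ : ℕ → Equiv.Perm ℕ}
    (h : Z'.sel T π = Z.res T) (hρ : ∀ q ∈ T, (Z.D q).Sym (ρ q)) {K : Type} [Field K]
    [Algebra k K] {p : PtK C K} (hp : Z'.OnK p) : (Z.res T).OnK (tr T π ρ p) := by
  obtain ⟨D', rfl, hD⟩ := KMor_sel h
  obtain ⟨⟨s, h1, h2⟩, h3⟩ := hp
  refine onK_res.2 ⟨⟨s, h1, fun q hq => ?_⟩, fun q j hqj => ?_⟩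
  · have h4 : OnY (Z.D q).F s fun j => p.2 (π q) j := hD q hq ▸ h2 (π q)
    have h5 := (hρ q hq).onY (w := p.2 (π q)) h4
    change OnY (Z.D q).F s fun j => if q ∈ T then p.2 (π q) (ρ q j) else none
    simp only [if_pos hq]
    exact h5
  · change (if q ∈ T then p.2 (π q) (ρ q j) else none) = none
    split_ifs with hq
    · rw [(hρ q hq).1 j (hqj hq)]
      refine h3 (π q) j ?_
      change (D' (π q)).m ≤ j
      rw [hD q hq]
      exact hqj hq
    · rfl

theorem on_tr {Z Z' : Hyp C} {T : Set ℕ} {π : ℕ → ℕ} {ρ : ℕ → Equiv.Perm ℕ}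
    (h : Z'.sel T π = Z.res T) (hρ : ∀ q ∈ T, (Z.D q).Sym (ρ q)) {p : Pt C} (hp : Z'.On p) :
    (Z.res T).On (tr T π ρ p) := by
  have h1 := onK_tr h hρ hp
  have h2 : tr T π ρ (p.cst k) = Pt.cst (tr T π ρ p) k := by
    refine Prod.ext rfl (funext fun q => funext fun j => ?_)
    change (if q ∈ T then (p.2 (π q) (ρ q j)).map (algebraMap k k) else none) =
      (if q ∈ T then p.2 (π q) (ρ q j) else none).map (algebraMap k k)
    split_ifs <;> rfl
  rw [h2] at h1
  exact h1

/-! ### Roots of unity -/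

/-- the coordinates are multiplied by `ζ q j` -/
def mulc {A K : Type} [Field K] (ζ : ℕ → ℕ → K) (p : A × (ℕ → ℕ → Option K)) :
    A × (ℕ → ℕ → Option K) :=
  (p.1, fun q j => (p.2 q j).map fun t => ζ q j * t)

theorem mulc_one {A K : Type} [Field K] (p : A × (ℕ → ℕ → Option K)) :
    mulc (fun _ _ => 1) p = p := by
  refine Prod.ext rfl (funext fun q => funext fun j => ?_)
  change (p.2 q j).map (fun t => 1 * t) = p.2 q j
  cases p.2 q j with
  | none => rfl
  | some t => simp

/-- multiplication of one coordinate by a root of unity -/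
theorem onK_rot {Z : Hyp C} {K : Type} [Field K] [Algebra k K] {q i : ℕ} (hi : i < Z.m q) {η : K}
    (hη : η ^ Z.M q i = 1) {p : PtK C K} (h : Z.OnK p) :
    Z.OnK (p.1, Function.update p.2 q
      (Function.update (p.2 q) i ((p.2 q i).map fun w => η * w))) := by
  obtain ⟨⟨s, h1, h2⟩, h3⟩ := h
  refine ⟨⟨s, h1, fun r => ?_⟩, fun r j hj => ?_⟩
  · by_cases hr : r = q
    · subst hr
      rw [Hyp.M_eq hi] at hη
      have h4 := onY_mul hη (h2 r)
      convert h4 using 1
      funext j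
      change Function.update p.2 r (Function.update (p.2 r) i ((p.2 r i).map fun w => η * w)) r j =
        _
      rw [Function.update_self]
      by_cases hj : j = ⟨i, hi⟩
      · subst hj
        rw [Function.update_self, Function.update_self]
      · rw [Function.update_of_ne hj]
        exact Function.update_of_ne (fun h5 => hj (Fin.ext h5)) _ (p.2 r)
    · change OnY (Z.D r).F s fun j => Function.update p.2 q
        (Function.update (p.2 q) i ((p.2 q i).map fun w => η * w)) r j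
      rw [Function.update_of_ne hr]
      exact h2 r
  · change Function.update p.2 q
      (Function.update (p.2 q) i ((p.2 q i).map fun w => η * w)) r j = none
    by_cases hr : r = q
    · subst hr
      rw [Function.update_self, Function.update_of_ne (by omega)]
      exact h3 r j hj
    · rw [Function.update_of_ne hr]
      exact h3 r j hj

theorem on_rot {Z : Hyp C} {q i : ℕ} (hi : i < Z.m q) {η : k} (hη : η ^ Z.M q i = 1) {p : Pt C}
    (h : Z.On p) : Z.On (p.1, Function.update p.2 q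
      (Function.update (p.2 q) i ((p.2 q i).map fun w => η * w))) := by
  have h1 := onK_rot hi hη h
  have h2 : ((p.cst k).1, Function.update (p.cst k).2 q
      (Function.update ((p.cst k).2 q) i (((p.cst k).2 q i).map fun w => η * w))) =
      Pt.cst (p.1, Function.update p.2 q
        (Function.update (p.2 q) i ((p.2 q i).map fun w => η * w))) k := by
    refine Prod.ext rfl (funext fun r => funext fun j => ?_)
    change Function.update (p.cst k).2 q (Function.update ((p.cst k).2 q) i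
        (((p.cst k).2 q i).map fun w => η * w)) r j =
      (Function.update p.2 q (Function.update (p.2 q) i
        ((p.2 q i).map fun w => η * w)) r j).map (algebraMap k k)
    by_cases hr : r = q
    · subst hr
      rw [Function.update_self, Function.update_self]
      by_cases hj : j = i
      · subst hj
        rw [Function.update_self, Function.update_self]
        change ((p.2 r j).map (algebraMap k k)).map _ = _
        rw [map_id_KMor, map_id_KMor]
      · rw [Function.update_of_ne hj, Function.update_of_ne hj]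
        rfl
    · rw [Function.update_of_ne hr, Function.update_of_ne hr]
      rfl
  rw [h2] at h1
  exact h1

/-- multiplication by roots of unity -/
theorem onK_mulc {Z : Hyp C} {K : Type} [Field K] [Algebra k K] {ζ : ℕ → ℕ → K}
    (hζ : ∀ q j, ζ q j ^ Z.M q j = 1) {p : PtK C K} (h : Z.OnK p) : Z.OnK (mulc ζ p) := by
  obtain ⟨⟨s, h1, h2⟩, h3⟩ := h
  refine ⟨⟨s, h1, fun r => ?_⟩, fun r j hj => ?_⟩
  · refine onY_mulc (w := p.2 r) (fun j => ?_) (h2 r)
    have h4 := hζ r j
    rwa [Hyp.M_eq j.isLt] at h4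
  · change ((p.2 r j).map fun t => ζ r j * t) = none
    rw [h3 r j hj]
    rfl

theorem on_mulc {Z : Hyp C} {ζ : ℕ → ℕ → k} (hζ : ∀ q j, ζ q j ^ Z.M q j = 1) {p : Pt C}
    (h : Z.On p) : Z.On (mulc ζ p) := by
  have h1 := onK_mulc hζ h
  have h2 : mulc ζ (p.cst k) = Pt.cst (mulc ζ p) k := by
    refine Prod.ext rfl (funext fun q => funext fun j => ?_)
    change ((p.2 q j).map (algebraMap k k)).map _ = ((p.2 q j).map _).map (algebraMap k k)
    rw [map_id_KMor, map_id_KMor]
  rw [h2] at h1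
  exact h1

/-! ### Components of morphisms -/

theorem Comp.app_of_none {Z : Hyp C} {f : Comp X Z} (h : f.src = none) (x x' : Fin r → Pt C) :
    f.app x = f.app x' := by
  cases f with
  | const w hw => rfl
  | map a A π ρ ζ t hX hA hρ hζ ht => simp [Comp.src] at h

theorem Comp.app_fst {Z : Hyp C} {f : Comp X Z} {a : Fin r} (h : f.src = some a)
    (x : Fin r → Pt C) : (f.app x).1 = (x a).1 := by
  cases f with
  | const w hw => simp [Comp.src] at h
  | map a' A π ρ ζ t hX hA hρ hζ ht =>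
    simp only [Comp.src, Option.some.injEq] at h
    subst h
    rfl

/-- the value of a section at a point of the curve lies on the fibre product of the components in
`Aᶜ`: `ht` is a point over the function field of the curve; take its value at the place (`on_vlc`,
`hasBelow_of_isCurve`, `hasRes_of_isCurve`), or for a point of another curve there is nothing to
show (`h.1` is the curve `C Z.i`) -/
theorem on_evp [IsAlgClosed k] [CharZero k] {Z : Hyp C} (hZ : Z.Adm) {T : Set ℕ}
    {t : ℕ → ℕ → Option (C Z.i).L}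
    (ht : (Z.res T).OnK (K := (C Z.i).L) (⟨Z.i, Sum.inl (AlgHom.id k _)⟩, t))
    {s : Σ i, Place k (C i).L} (hs : s.1 = Z.i) :
    (Z.res T).On (s, fun q j => evp s Z.i (t q j)) := by
  obtain ⟨i, c⟩ := s
  simp only at hs
  subst hs
  have := hasRes_of_isCurve (C Z.i).curve
  have := hasBelow_of_isCurve (C Z.i).curve
  have h3 := on_vlc (Hyp.res_adm hZ T) c ht
  have h4 : vb c (Sum.inl (AlgHom.id k _) : Bp k (C Z.i).L (C Z.i).L) = c := vb_eq rfl
  have h5 : vlc c ((⟨Z.i, Sum.inl (AlgHom.id k _)⟩, t) : PtK C (C Z.i).L) =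
      ((⟨Z.i, c⟩, fun q j => vlo c (t q j)) : Pt C) := by
    refine Prod.ext ?_ rfl
    change (⟨Z.i, vb c (Sum.inl (AlgHom.id k _))⟩ : Σ i, Place k (C i).L) = ⟨Z.i, c⟩
    rw [h4]
  rw [h5] at h3
  have h6 : ∀ q j, evp (⟨Z.i, c⟩ : Σ i, Place k (C i).L) Z.i (t q j) = vlo c (t q j) :=
    fun q j => dif_pos rfl
  simp only [h6]
  exact h3

/-- the image of a point lies on `Z` -/
theorem Comp.app_on [IsAlgClosed k] [CharZero k] {Z : Hyp C} (hZ : Z.Adm) (f : Comp X Z)
    {x : Fin r → Pt C} (hx : OnP X x) : Z.On (f.app x) := by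
  cases f with
  | const w hw => exact hw
  | map a A π ρ ζ t hX hA hρ hζ ht =>
    obtain ⟨⟨s, h1, h2⟩, h3⟩ := on_res.1 (on_tr hX (fun q _ => hρ q) (hx a))
    have hi : (x a).1.1 = Z.i := (On.fst (hx a)).trans (Hyp.sel_i hX)
    obtain ⟨⟨s', h1', h2'⟩, h3'⟩ := on_res.1 (on_evp hZ ht hi)
    have hs : s' = s := by
      have h4 : (⟨Z.i, s'⟩ : Σ i, Place k (C i).L) = ⟨Z.i, s⟩ := h1'.symm.trans h1
      exact eq_of_heq (Sigma.mk.inj h4).2
    subst hs
    refine on_iff.2 ⟨⟨s', h1, fun q => ?_⟩, fun q j hj => ?_⟩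
    · by_cases hq : q ∈ A
      · have h5 := onY_mulc (D := Z.D q) (ζ := ζ q) (fun j => by
          have h6 := hζ q j
          rwa [Hyp.M_eq j.isLt] at h6) (h2 q hq)
        change OnY (Z.D q).F (cp k s') fun j => if q ∈ A then
          ((x a).2 (π q) (ρ q j)).map fun w => ζ q j * w else evp (x a).1 Z.i (t q j)
        simp only [if_pos hq]
        have h7 : ∀ j, (tr A π ρ (x a)).2 q j = (x a).2 (π q) (ρ q j) := fun j => if_pos hq
        simp only [h7] at h5
        exact h5
      · change OnY (Z.D q).F (cp k s') fun j => if q ∈ A then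
          ((x a).2 (π q) (ρ q j)).map fun w => ζ q j * w else evp (x a).1 Z.i (t q j)
        simp only [if_neg hq]
        exact h2' q hq
    · change (if q ∈ A then ((x a).2 (π q) (ρ q j)).map fun w => ζ q j * w else
        evp (x a).1 Z.i (t q j)) = none
      by_cases hq : q ∈ A
      · rw [if_pos hq]
        have h5 := h3 q j fun _ => hj
        change (if q ∈ A then (x a).2 (π q) (ρ q j) else none) = none at h5
        rw [if_pos hq] at h5
        rw [h5]
        rfl
      · rw [if_neg hq]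
        exact h3' q j fun _ => hj

theorem Mor.app_on [IsAlgClosed k] [CharZero k] (hY : ∀ b, (Y b).Adm) (f : Mor X Y)
    {x : Fin r → Pt C} (hx : OnP X x) : OnP Y (f.app x) :=
  fun b => (f b).app_on (hY b) hx

end Pool.Agent.HGP
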