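import Pool.Agent.HGP.KLv
import Pool.Agent.HGP.KCol

/-!
# Package HGP-KPat: patterns of morphisms

As `Pool/Agent/HGFC/KSumA.lean`. `κ` are levels on the product of the `Y b`, `β` exponents.

1. `Pat f κ β φ`: the pattern `φ a = some (S', e')` or `none` of a morphism `f`: the factors `b` with
`κ b = some S` come from different factors `a`, and the pull-back of the form `(S, β b)` is the form
`(S', e')`, `φ a = some (S', e')`.
2. `labY κ β w`, `labX φ w'`: the labels of the forms for words `w`, `w'` of numbers.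
-/

set_option autoImplicit false
set_option linter.unusedSectionVars false

noncomputable section

namespace Pool.Agent.HGP

open Pool.Agent.ZCyc Pool.Agent.Dess Pool.Agent.GT Pool.Agent.TInc Pool.Agent.HGF
open Pool.Agent.EFC (genus)
open scoped Classical

variable {k : Type} [Field k] {ι : Type} {C : ι → Crv k} {r r' : ℕ} {X : Fin r → Hyp C}
  {Y : Fin r' → Hyp C}

/-- the pattern of a morphism -/
def Pat (f : Mor X Y) (κ : Fin r' → Option (Finset ℕ)) (β : Fin r' → ℕ → ℕ → ℕ)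
    (φ : Fin r → Option (Finset ℕ × (ℕ → ℕ → ℕ))) : Prop :=
  (∀ b S, κ b = some S → ∃ a S' e', (f b).Pulls (.form S 0 (β b)) a (.form S' 0 e') ∧
    φ a = some (S', e')) ∧
  ∀ a, φ a ≠ none → ∃! b, κ b ≠ none ∧ (f b).src = some a

/-- the labels on `Y` for a word -/
def labY (κ : Fin r' → Option (Finset ℕ)) (β : Fin r' → ℕ → ℕ → ℕ) (w : Fin r' → ℕ)
    (b : Fin r') : Lab := (κ b).elim .zero fun S => .form S (w b) (β b)

/-- the labels on `X` for a word -/
def labX (φ : Fin r → Option (Finset ℕ × (ℕ → ℕ → ℕ))) (w : Fin r → ℕ) (a : Fin r) : Lab :=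
  (φ a).elim .zero fun p => .form p.1 (w a) p.2

private theorem labY_none_KPat {κ : Fin r' → Option (Finset ℕ)} {β : Fin r' → ℕ → ℕ → ℕ}
    {w : Fin r' → ℕ} {b : Fin r'} (h : κ b = none) : labY κ β w b = .zero := by
  unfold labY
  rw [h]
  rfl

private theorem labY_some_KPat {κ : Fin r' → Option (Finset ℕ)} {β : Fin r' → ℕ → ℕ → ℕ}
    {w : Fin r' → ℕ} {b : Fin r'} {S : Finset ℕ} (h : κ b = some S) :
    labY κ β w b = .form S (w b) (β b) := by
  unfold labY
  rw [h]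
  rfl

private theorem labX_none_KPat {φ : Fin r → Option (Finset ℕ × (ℕ → ℕ → ℕ))} {w : Fin r → ℕ}
    {a : Fin r} (h : φ a = none) : labX φ w a = .zero := by
  unfold labX
  rw [h]
  rfl

private theorem labX_some_KPat {φ : Fin r → Option (Finset ℕ × (ℕ → ℕ → ℕ))} {w : Fin r → ℕ}
    {a : Fin r} {p : Finset ℕ × (ℕ → ℕ → ℕ)} (h : φ a = some p) :
    labX φ w a = .form p.1 (w a) p.2 := by
  unfold labX
  rw [h]
  rfl

private theorem labY_ne_KPat {κ : Fin r' → Option (Finset ℕ)} {β : Fin r' → ℕ → ℕ → ℕ}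
    {w : Fin r' → ℕ} {b : Fin r'} : labY κ β w b ≠ .zero ↔ κ b ≠ none := by
  rcases h : κ b with _ | S
  · rw [labY_none_KPat h]
    simp
  · rw [labY_some_KPat h]
    exact ⟨fun _ => Option.some_ne_none _, fun _ h1 => nomatch h1⟩

private theorem labX_ne_KPat {φ : Fin r → Option (Finset ℕ × (ℕ → ℕ → ℕ))} {w : Fin r → ℕ}
    {a : Fin r} : labX φ w a ≠ .zero ↔ φ a ≠ none := by
  rcases h : φ a with _ | p
  · rw [labX_none_KPat h]
    simp
  · rw [labX_some_KPat h]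
    exact ⟨fun _ => Option.some_ne_none _, fun _ h1 => nomatch h1⟩

theorem degL_labY (κ : Fin r' → Option (Finset ℕ)) (β : Fin r' → ℕ → ℕ → ℕ)
    (w : Fin r' → ℕ) : degL Y (labY κ β w) = dimS Y κ := by
  unfold degL dimS
  refine Finset.sum_congr rfl fun b _ => ?_
  rcases h : κ b with _ | S
  · rw [labY_none_KPat h]
    rfl
  · rw [labY_some_KPat h]
    rfl

theorem isPull_iff {f : Mor X Y} {κ : Fin r' → Option (Finset ℕ)} {β : Fin r' → ℕ → ℕ → ℕ}
    {φ : Fin r → Option (Finset ℕ × (ℕ → ℕ → ℕ))} {w : Fin r' → ℕ} {w' : Fin r → ℕ} :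
    IsPull f (labY κ β w) (labX φ w') ↔
      Pat f κ β φ ∧ ∀ b a, κ b ≠ none → (f b).src = some a → w' a = w b := by
  constructor
  · rintro ⟨h1, h2⟩
    have h3 : ∀ b S, κ b = some S → ∃ a S' e', (f b).src = some a ∧ w' a = w b ∧
        (f b).Pulls (.form S 0 (β b)) a (.form S' 0 e') ∧ φ a = some (S', e') := by
      intro b S hb
      obtain ⟨a, ha⟩ := h1 b (labY_ne_KPat.2 (by rw [hb]; exact Option.some_ne_none _))
      rcases hφ : φ a with _ | p
      · rw [labX_none_KPat hφ] at ha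
        exact absurd ha Comp.not_pulls_zero
      · rw [labX_some_KPat hφ, labY_some_KPat hb, Comp.pulls_iff] at ha
        obtain ⟨h4, h5, h6, h7, h8⟩ := ha
        exact ⟨a, p.1, p.2, h4, h5, Comp.pulls_iff.2 ⟨h4, rfl, h6, h7, h8⟩, hφ⟩
    refine ⟨⟨fun b S hb => ?_, fun a ha => ?_⟩, fun b a hb ha => ?_⟩
    · obtain ⟨a, S', e', -, -, h4, h5⟩ := h3 b S hb
      exact ⟨a, S', e', h4, h5⟩
    · obtain ⟨b, ⟨hb, hb'⟩, hu⟩ := h2 a (labX_ne_KPat.2 ha)
      exact ⟨b, ⟨labY_ne_KPat.1 hb, hb'⟩, fun b' h4 => hu b' ⟨labY_ne_KPat.2 h4.1, h4.2⟩⟩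
    · obtain ⟨S, hS⟩ := Option.ne_none_iff_exists'.1 hb
      obtain ⟨a', S', e', h4, h5, -⟩ := h3 b S hS
      rw [ha, Option.some.injEq] at h4
      subst h4
      exact h5
  · rintro ⟨⟨h1, h2⟩, h3⟩
    refine ⟨fun b hb => ?_, fun a ha => ?_⟩
    · have hb' := labY_ne_KPat.1 hb
      obtain ⟨S, hS⟩ := Option.ne_none_iff_exists'.1 hb'
      obtain ⟨a, S', e', h4, h5⟩ := h1 b S hS
      obtain ⟨h6, -, h7, h8, h9⟩ := Comp.pulls_iff.1 h4
      refine ⟨a, ?_⟩
      rw [labX_some_KPat h5, labY_some_KPat hS]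
      exact Comp.pulls_iff.2 ⟨h6, h3 b a hb' h6, h7, h8, h9⟩
    · obtain ⟨b, ⟨hb, hb'⟩, hu⟩ := h2 a (labX_ne_KPat.1 ha)
      exact ⟨b, ⟨labY_ne_KPat.2 hb, hb'⟩, fun b' h4 => hu b' ⟨labY_ne_KPat.1 h4.1, h4.2⟩⟩

/-- the labels are admissible if the numbers are less than `dt` and the exponents are nontrivial and
zero outside of the levels -/
theorem admLab_labY {κ : Fin r' → Option (Finset ℕ)} {β : Fin r' → ℕ → ℕ → ℕ}
    (h1 : ∀ b S, κ b = some S → ∀ q ∈ S, 0 < (Y b).m q ∧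
      ∀ j < (Y b).m q, 0 < β b q j ∧ β b q j < (Y b).M q j)
    (h2 : ∀ b S, κ b = some S → ∀ q j, ¬ (q ∈ S ∧ j < (Y b).m q) → β b q j = 0)
    {w : Fin r' → ℕ} (hw : ∀ b S, κ b = some S → w b < dt (Y b, S, β b)) (b : Fin r') :
    AdmLab (Y b) (labY κ β w b) := by
  rcases h : κ b with _ | S
  · rw [labY_none_KPat h]
    exact trivial
  · rw [labY_some_KPat h]
    have h3 := hw b S h
    unfold dt at h3
    refine ⟨fun q hq => (h1 b S h q hq).1, fun hS => ?_, fun hS => ?_,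
      fun q l => ⟨fun hq => (h1 b S h q hq.1).2 l hq.2, fun hq => h2 b S h q l hq⟩⟩
    · rw [if_pos hS] at h3
      exact h3
    · rw [if_neg hS.ne_empty] at h3
      have h4 := Int.lt_toNat.1 h3
      have h5 : ((w b : ℤ)) < ∑ q ∈ S, TInc.deg ((Y b).D q).F.S +
        genus k (C (Y b).i).L - 1 := h4
      linarith

private theorem pulls_unique_KPat {Z : Hyp C} {g : Comp X Z} {S S1 S2 : Finset ℕ}
    {e e1 e2 : ℕ → ℕ → ℕ} {a : Fin r} (h1 : g.Pulls (.form S 0 e) a (.form S1 0 e1))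
    (h2 : g.Pulls (.form S 0 e) a (.form S2 0 e2)) : S1 = S2 ∧ e1 = e2 := by
  obtain ⟨-, -, -, h3, h4⟩ := Comp.pulls_iff.1 h1
  obtain ⟨-, -, -, h5, h6⟩ := Comp.pulls_iff.1 h2
  have h7 : S1 = S2 := h3.img.trans h5.img.symm
  refine ⟨h7, funext fun q => funext fun l => ?_⟩
  by_cases hq : q ∈ S1
  · rw [h3.img, Finset.mem_image] at hq
    obtain ⟨p, hp, rfl⟩ := hq
    have h8 := h3.exp p hp ((g.rho p).symm l)
    have h9 := h5.exp p hp ((g.rho p).symm l)
    rw [Equiv.apply_symm_apply] at h8 h9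
    rw [h8, h9]
  · rw [h4 q hq l, h6 q (h7 ▸ hq) l]

/-- a morphism in `InjL` has exactly one pattern (`Comp.Inj.exists_form`; `Comp.pulls_iff` determines
`S'` and `e'`) -/
theorem InjL.exists_pat {f : Mor X Y} {κ : Fin r' → Option (Finset ℕ)} (h : InjL f κ)
    (β : Fin r' → ℕ → ℕ → ℕ) : ∃ φ, Pat f κ β φ ∧ ∀ φ', Pat f κ β φ' → φ' = φ := by
  obtain ⟨h1, h2, h3⟩ := h
  let Q : Fin r → Finset ℕ × (ℕ → ℕ → ℕ) → Prop := fun a p =>
    ∃ b S, κ b = some S ∧ (f b).Pulls (.form S 0 (β b)) a (.form p.1 0 p.2)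
  have hsrc : ∀ {b : Fin r'} {S : Finset ℕ} {a : Fin r} {p : Finset ℕ × (ℕ → ℕ → ℕ)},
      (f b).Pulls (.form S 0 (β b)) a (.form p.1 0 p.2) → (f b).src = some a :=
    fun h4 => (Comp.pulls_iff.1 h4).1
  have hu : ∀ a p p', Q a p → Q a p' → p = p' := by
    rintro a p p' ⟨b, S, hb, hp⟩ ⟨b', S', hb', hp'⟩
    have h4 : b = b' := h3 b b' (by rw [hb]; exact Option.some_ne_none _)
      (by rw [hb']; exact Option.some_ne_none _) ((hsrc hp).trans (hsrc hp').symm)
    subst h4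
    rw [hb, Option.some.injEq] at hb'
    subst hb'
    obtain ⟨h5, h6⟩ := pulls_unique_KPat hp hp'
    exact Prod.ext h5 h6
  let φ : Fin r → Option (Finset ℕ × (ℕ → ℕ → ℕ)) := fun a =>
    if h : ∃ p, Q a p then some h.choose else none
  have hφ : ∀ a p, φ a = some p ↔ Q a p := by
    intro a p
    constructor
    · intro h4
      by_cases h5 : ∃ p, Q a p
      · have h6 : φ a = some h5.choose := dif_pos h5
        rw [h6, Option.some.injEq] at h4
        rw [← h4]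
        exact h5.choose_spec
      · have h6 : φ a = none := dif_neg h5
        rw [h6] at h4
        exact absurd h4 (by simp)
    · intro h4
      have h5 : ∃ p, Q a p := ⟨p, h4⟩
      have h6 : φ a = some h5.choose := dif_pos h5
      rw [h6, hu a _ _ h5.choose_spec h4]
  refine ⟨φ, ⟨fun b S hb => ?_, fun a ha => ?_⟩, fun φ' h' => funext fun a => ?_⟩
  · obtain ⟨a, ha⟩ := h1 b S hb
    obtain ⟨e', he'⟩ := (h2 b S hb).exists_form ha (β b)
    exact ⟨a, S.image (f b).pi, e', he', (hφ a (S.image (f b).pi, e')).2 ⟨b, S, hb, he'⟩⟩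
  · obtain ⟨p, hp⟩ := Option.ne_none_iff_exists'.1 ha
    obtain ⟨b, S, hb, hp'⟩ := (hφ a p).1 hp
    refine ⟨b, ⟨by rw [hb]; exact Option.some_ne_none _, hsrc hp'⟩, fun b' hb' => ?_⟩
    exact h3 b' b hb'.1 (by rw [hb]; exact Option.some_ne_none _) (hb'.2.trans (hsrc hp').symm)
  · have h4 : ∀ p, φ' a = some p ↔ Q a p := by
      intro p
      constructor
      · intro h5
        obtain ⟨b, ⟨hb, hb'⟩, -⟩ := h'.2 a (by rw [h5]; exact Option.some_ne_none _)
        obtain ⟨S, hS⟩ := Option.ne_none_iff_exists'.1 hb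
        obtain ⟨a', S', e', h6, h7⟩ := h'.1 b S hS
        have h8 := (Comp.pulls_iff.1 h6).1
        rw [hb', Option.some.injEq] at h8
        subst h8
        rw [h5, Option.some.injEq] at h7
        subst h7
        exact ⟨b, S, hS, h6⟩
      · rintro ⟨b, S, hb, hp⟩
        obtain ⟨a', S', e', h6, h7⟩ := h'.1 b S hb
        have h8 := (Comp.pulls_iff.1 h6).1
        rw [hsrc hp, Option.some.injEq] at h8
        subst h8
        obtain ⟨h9, h10⟩ := pulls_unique_KPat h6 hp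
        rw [h7, h9, h10]
    rcases h5 : φ a with _ | p
    · rcases h6 : φ' a with _ | p'
      · rfl
      · have h7 := (hφ a p').2 ((h4 p').1 h6)
        rw [h5] at h7
        exact absurd h7 (by simp)
    · exact (h4 p).2 ((hφ a p).1 h5)

theorem Pat.injL {f : Mor X Y} {κ : Fin r' → Option (Finset ℕ)} {β : Fin r' → ℕ → ℕ → ℕ}
    {φ : Fin r → Option (Finset ℕ × (ℕ → ℕ → ℕ))} (h : Pat f κ β φ) : InjL f κ := by
  refine ⟨fun b S hb => ?_, fun b S hb => ?_, fun b b' hb hb' hs => ?_⟩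
  · obtain ⟨a, S', e', h1, -⟩ := h.1 b S hb
    exact ⟨a, (Comp.pulls_iff.1 h1).1⟩
  · obtain ⟨a, S', e', h1, -⟩ := h.1 b S hb
    exact (Comp.pulls_iff.1 h1).2.2.1
  · obtain ⟨S, hS⟩ := Option.ne_none_iff_exists'.1 hb
    obtain ⟨a, S', e', h1, h2⟩ := h.1 b S hS
    have h3 := (Comp.pulls_iff.1 h1).1
    obtain ⟨c, -, hc⟩ := h.2 a (by rw [h2]; exact Option.some_ne_none _)
    exact (hc b ⟨hb, h3⟩).trans (hc b' ⟨hb', hs ▸ h3⟩).symm

end Pool.Agent.HGP
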