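import Pool.Agent.HGP.KPat
import Pool.Agent.HGP.KEigL
import Pool.Agent.HGF.KAlt
import Pool.Agent.EFP.SFT

/-!
# Package HGP-KPatB: the permutation, the sign and the factor of a morphism with a pattern

As `per_KSum`, `sgn_KSum`, `fct_KSum` in `Pool/Agent/HGFC/KSumA.lean`. The sign of a morphism is the product
of the signs `sg` of the factors and of the sign `kos` of the permutation.
-/

set_option autoImplicit false
set_option linter.unusedSectionVars false

noncomputable section

namespace Pool.Agent.HGP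

open Pool.Agent.ZCyc Pool.Agent.Dess Pool.Agent.GT Pool.Agent.TInc Pool.Agent.HGF
open Pool.Agent.EFP (kos)
open scoped Classical

variable {k : Type} [Field k] {ι : Type} {C : ι → Crv k} {r r' : ℕ} {X : Fin r → Hyp C}
  {Y : Fin r' → Hyp C}

private lemma src_KPatB {κ : Fin r' → Option (Finset ℕ)} {β : Fin r' → ℕ → ℕ → ℕ}
    {φ : Fin r → Option (Finset ℕ × (ℕ → ℕ → ℕ))} {f : Mor X Y} (hf : Pat f κ β φ) {b : Fin r'}
    (hb : κ b ≠ none) : ∃ i, (f b).src = some i ∧ φ i ≠ none := by
  obtain ⟨S, hS⟩ := Option.ne_none_iff_exists'.1 hb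
  obtain ⟨a, S', e', h1, h2⟩ := hf.1 b S hS
  exact ⟨a, (Comp.pulls_iff.1 h1).1, by rw [h2]; exact Option.some_ne_none _⟩

/-- the permutation given by a morphism, for enumerations `oI` of the `a` with `φ a ≠ none` and `oJ` of
the `b` with `κ b ≠ none` (as `per_KSum` in `HGFC/KSumA.lean`) -/
theorem exists_per {l : ℕ} {κ : Fin r' → Option (Finset ℕ)} {β : Fin r' → ℕ → ℕ → ℕ}
    {φ : Fin r → Option (Finset ℕ × (ℕ → ℕ → ℕ))} {oI : Fin l → Fin r} {oJ : Fin l → Fin r'}
    (hoJ : Function.Injective oJ) (hI : ∀ i, φ i ≠ none → ∃ a, oI a = i)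
    (hJ : ∀ a, κ (oJ a) ≠ none) {f : Mor X Y} (hf : Pat f κ β φ) :
    ∃ τ : Equiv.Perm (Fin l), ∀ a, (f (oJ a)).src = some (oI (τ a)) := by
  have h0 : ∀ a, ∃ i, (f (oJ a)).src = some i ∧ φ i ≠ none := fun a => src_KPatB hf (hJ a)
  have h1 : ∀ a, ∃ b, (f (oJ a)).src = some (oI b) := by
    intro a
    obtain ⟨i, h2, h3⟩ := h0 a
    obtain ⟨b, rfl⟩ := hI i h3
    exact ⟨b, h2⟩
  choose t ht using h1
  have hti : Function.Injective t := by
    intro a b hab
    obtain ⟨i, h2, h3⟩ := h0 a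
    obtain ⟨j, -, hj⟩ := hf.2 i h3
    apply hoJ
    rw [hj (oJ a) ⟨hJ a, h2⟩, hj (oJ b) ⟨hJ b, ?_⟩]
    rw [ht b, ← hab, ← ht a, h2]
  exact ⟨Equiv.ofBijective t (Finite.injective_iff_bijective.1 hti), ht⟩

/-- enumerations of the factors (`Finset.orderEmbOfFin`; the numbers are equal because the pattern
gives a bijection) -/
theorem Pat.exists_enum {κ : Fin r' → Option (Finset ℕ)} {β : Fin r' → ℕ → ℕ → ℕ}
    {φ : Fin r → Option (Finset ℕ × (ℕ → ℕ → ℕ))} {f : Mor X Y} (hf : Pat f κ β φ) :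
    ∃ (l : ℕ) (oI : Fin l → Fin r) (oJ : Fin l → Fin r'), StrictMono oI ∧ StrictMono oJ ∧
      (∀ a, φ a ≠ none ↔ ∃ i, oI i = a) ∧ ∀ b, κ b ≠ none ↔ ∃ i, oJ i = b := by
  have hcard : (Finset.univ.filter fun b : Fin r' => κ b ≠ none).card =
      (Finset.univ.filter fun a : Fin r => φ a ≠ none).card := by
    refine Finset.card_bij
      (fun b hb => (src_KPatB hf (Finset.mem_filter.1 hb).2).choose) ?_ ?_ ?_
    · intro b hb
      exact Finset.mem_filter.2 ⟨Finset.mem_univ _,
        (src_KPatB hf (Finset.mem_filter.1 hb).2).choose_spec.2⟩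
    · intro b hb b' hb' h
      have h1 := (src_KPatB hf (Finset.mem_filter.1 hb).2).choose_spec
      have h2 := (src_KPatB hf (Finset.mem_filter.1 hb').2).choose_spec
      rw [← h] at h2
      obtain ⟨j, -, hj⟩ := hf.2 _ h1.2
      rw [hj b ⟨(Finset.mem_filter.1 hb).2, h1.1⟩, hj b' ⟨(Finset.mem_filter.1 hb').2, h2.1⟩]
    · intro a ha
      obtain ⟨b, hb, -⟩ := hf.2 a (Finset.mem_filter.1 ha).2
      have hb' : b ∈ Finset.univ.filter fun b : Fin r' => κ b ≠ none :=
        Finset.mem_filter.2 ⟨Finset.mem_univ _, hb.1⟩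
      refine ⟨b, hb', ?_⟩
      have h1 := (src_KPatB hf (Finset.mem_filter.1 hb').2).choose_spec.1
      exact Option.some.inj (h1.symm.trans hb.2)
  refine ⟨(Finset.univ.filter fun b : Fin r' => κ b ≠ none).card,
    (Finset.univ.filter fun a : Fin r => φ a ≠ none).orderEmbOfFin hcard.symm,
    (Finset.univ.filter fun b : Fin r' => κ b ≠ none).orderEmbOfFin rfl,
    OrderEmbedding.strictMono _, OrderEmbedding.strictMono _, ?_, ?_⟩
  · intro a
    have h1 : a ∈ Set.range ((Finset.univ.filter fun a : Fin r => φ a ≠ none).orderEmbOfFin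
        hcard.symm) ↔ φ a ≠ none := by
      rw [Finset.range_orderEmbOfFin, Finset.mem_coe, Finset.mem_filter]
      exact ⟨fun h => h.2, fun h => ⟨Finset.mem_univ _, h⟩⟩
    exact h1.symm
  · intro b
    have h1 : b ∈ Set.range ((Finset.univ.filter fun b : Fin r' => κ b ≠ none).orderEmbOfFin
        rfl) ↔ κ b ≠ none := by
      rw [Finset.range_orderEmbOfFin, Finset.mem_coe, Finset.mem_filter]
      exact ⟨fun h => h.2, fun h => ⟨Finset.mem_univ _, h⟩⟩
    exact h1.symm

/-- the sign (as `sgn_KSum`) -/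
theorem sgnF_eq {l : ℕ} {κ : Fin r' → Option (Finset ℕ)} {β : Fin r' → ℕ → ℕ → ℕ}
    {oI : Fin l → Fin r} (hoI : StrictMono oI) {oJ : Fin l → Fin r'} (hoJ : StrictMono oJ)
    (hJ' : ∀ j, κ j ≠ none → ∃ a, oJ a = j) {S : Fin l → Finset ℕ}
    (hS : ∀ a, κ (oJ a) = some (S a)) (w : Fin r' → ℕ) {f : Mor X Y} {τ : Equiv.Perm (Fin l)}
    (hτ : ∀ a, (f (oJ a)).src = some (oI (τ a))) :
    sgnF f (labY κ β w) = (∏ a, sg (Y (oJ a)).m (S a) (f (oJ a)).pi (f (oJ a)).rho) *
      kos (fun a => (Y (oJ a)).dm (S a)) τ := by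
  have hlab : ∀ a, labY κ β w (oJ a) = .form (S a) (w (oJ a)) (β (oJ a)) := by
    intro a
    unfold labY
    rw [hS a]
    rfl
  have hz : ∀ j, labY κ β w j ≠ .zero → ∃ a, oJ a = j := by
    intro j hj
    apply hJ' j
    intro h0
    apply hj
    unfold labY
    rw [h0]
    rfl
  have hnz : ∀ a, labY κ β w (oJ a) ≠ .zero := by
    intro a
    rw [hlab a]
    exact Lab.noConfusion
  unfold sgnF kos
  congr 1
  · symm
    refine Fintype.prod_of_injective oJ hoJ.injective _ _ ?_ ?_
    · intro j hj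
      have h0 : labY κ β w j = .zero := by
        by_contra h
        exact hj (hz j h)
      rw [h0]
      exact Comp.sgn_zero _
    · intro a
      rw [hlab a]
      exact (Comp.sgn_form (hτ a) _ _ _).symm
  · symm
    refine Fintype.prod_of_injective oJ hoJ.injective _ _ ?_ ?_
    · intro j hj
      apply Finset.prod_eq_one
      intro j' hj'
      exfalso
      simp only [Finset.mem_filter, Finset.mem_univ, true_and] at hj'
      exact hj (hz j hj'.2.1)
    · intro a
      rw [Finset.prod_filter, Finset.prod_filter]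
      refine Fintype.prod_of_injective oJ hoJ.injective _ _ ?_ ?_
      · intro j' hj'
        rw [if_neg]
        rintro ⟨-, -, h, -⟩
        exact hj' (hz j' h)
      · intro b
        have hc1 : (a < b ∧ τ b < τ a) ↔ (oJ a < oJ b ∧ labY κ β w (oJ a) ≠ .zero ∧
            labY κ β w (oJ b) ≠ .zero ∧
            ∃ i i', (f (oJ a)).src = some i ∧ (f (oJ b)).src = some i' ∧ i' < i) := by
          constructor
          · rintro ⟨h1, h2⟩
            exact ⟨hoJ h1, hnz a, hnz b, _, _, hτ a, hτ b, hoI h2⟩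
          · rintro ⟨h1, -, -, i, i', h2, h3, h4⟩
            rw [hτ a, Option.some.injEq] at h2
            rw [hτ b, Option.some.injEq] at h3
            subst h2 h3
            exact ⟨hoJ.lt_iff_lt.1 h1, hoI.lt_iff_lt.1 h4⟩
        have hd : ∀ a, (labY κ β w (oJ a)).deg (Y (oJ a)) = (Y (oJ a)).dm (S a) := by
          intro a
          rw [hlab a]
          rfl
        rw [hd a, hd b]
        exact if_congr hc1 rfl rfl

/-- the factor of the pull-back (as `fct_KSum`) -/
theorem fct_eq (κ : Fin r' → Option (Finset ℕ)) (β : Fin r' → ℕ → ℕ → ℕ) (w : Fin r' → ℕ)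
    (f : Mor X Y) : fct f (labY κ β w) = rtS Y κ β fun b => (f b).zet := by
  unfold fct rtS
  refine Finset.prod_congr rfl fun b _ => ?_
  cases h : κ b with
  | none =>
    have h0 : labY κ β w b = .zero := by
      unfold labY
      rw [h]
      rfl
    rw [h0, Comp.fct_zero]
    rfl
  | some S =>
    have h0 : labY κ β w b = .form S (w b) (β b) := by
      unfold labY
      rw [h]
      rfl
    rw [h0, Comp.fct_form]
    rfl

end Pool.Agent.HGP
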