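import Pool.Agent.HGP.Val
import Pool.Agent.HGF.Slot

/-!
# Project HGP: restriction of class functions to a subset of the points

`glue e s0 s`: the function on `Fin N` which is `s` on the image of the injective map `e` and `s0`
elsewhere. The values of `glue e (constants) (s over K)` are `glue e s0 (values)`.
-/

set_option autoImplicit false
set_option linter.unusedSectionVars false
set_option linter.unusedTactic false

noncomputable section

namespace Pool.Agent.HGP

open Polynomial Pool.Agent.ZCyc Pool.Agent.Dess Pool.Agent.GT Pool.Agent.TInc Pool.Agent.HGF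
open scoped Classical

variable {k : Type} [Field k] {L : Type} [Field L] [Algebra k L] {κ : Type} [Fintype κ] {m : κ → ℕ}
  {F : ∀ r, Fam k L (m r)} {Q : Type} {n N : ℕ} {W : Type} [AddCommGroup W]

/-- In `IsCF F E` take the constant points `s0`, `u0` (`Option.map (algebraMap k K)`) outside of the
image of `e`; use `vlo_const`, `onX_const`. -/
theorem isCF_glue [IsAlgClosed k] [CharZero k] [Fact (IsCurve k L)]
    {E : (Fin N → Place k L) → (Fin N → Ix m → Option k) → W} (hE : IsCF F E)
    {e : Fin n → Fin N} (he : Function.Injective e) {s0 : Fin N → Place k L}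
    {u0 : Fin N → Ix m → Option k} (h0 : ∀ j, OnX F (cp k (s0 j)) (u0 j)) :
    IsCF F fun (s : Fin n → Place k L) (u : Fin n → Ix m → Option k) =>
      E (glue e s0 s) (glue e u0 u) := by
  intro K _ _ hK s u f hf hs
  have key := hE K hK (glue e (fun j => cp K (s0 j)) s)
    (glue e (fun j i => (u0 j i).map (algebraMap k K)) u) f hf ?_
  · have e1 : ∀ v : Place k K,
        (fun j => vb v (glue e (fun j => cp K (s0 j)) s j)) =
          glue e s0 fun a => vb v (s a) := by
      intro v
      funext j
      by_cases h : ∃ a, e a = j
      · obtain ⟨a, rfl⟩ := h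
        rw [glue_apply he, glue_apply he]
      · have h' : ∀ a, e a ≠ j := fun a ha => h ⟨a, ha⟩
        rw [glue_of _ _ h', glue_of _ _ h']
        rfl
    have e2 : ∀ v : Place k K,
        (fun j i => vlo v (glue e (fun j i => (u0 j i).map (algebraMap k K)) u j i)) =
          glue e u0 fun a i => vlo v (u a i) := by
      intro v
      funext j
      by_cases h : ∃ a, e a = j
      · obtain ⟨a, rfl⟩ := h
        rw [glue_apply he, glue_apply he]
      · have h' : ∀ a, e a ≠ j := fun a ha => h ⟨a, ha⟩
        rw [glue_of _ _ h', glue_of _ _ h']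
        funext i
        rw [vlo_const]
    simp only [e1, e2] at key
    exact key
  · intro j
    by_cases h : ∃ a, e a = j
    · obtain ⟨a, rfl⟩ := h
      rw [glue_apply he, glue_apply he]
      exact hs a
    · have h' : ∀ a, e a ≠ j := fun a ha => h ⟨a, ha⟩
      rw [glue_of _ _ h', glue_of _ _ h']
      exact (onX_const _ _).2 (h0 j)

theorem isEig_glue [Module k W] {E : (Fin N → Place k L) → (Fin N → Q → Option k) → W}
    {M b : Q → ℕ} (hE : IsEig M b E) {e : Fin n → Fin N}
    (he : Function.Injective e) (s0 : Fin N → Place k L) (u0 : Fin N → Q → Option k) :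
    IsEig M b fun (s : Fin n → Place k L) (u : Fin n → Q → Option k) =>
      E (glue e s0 s) (glue e u0 u) := by
  intro s u j i ζ hζ
  have key := hE (glue e s0 s) (glue e u0 u) (e j) i ζ hζ
  have e1 : rot (e j) i ζ (glue e u0 u) = glue e u0 (rot j i ζ u) := by
    funext l
    by_cases h : ∃ a, e a = l
    · obtain ⟨a, rfl⟩ := h
      rw [glue_apply he]
      unfold rot
      by_cases haj : a = j
      · subst haj
        rw [Function.update_self, Function.update_self, glue_apply he]
      · rw [Function.update_of_ne haj, Function.update_of_ne fun h => haj (he h),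
          glue_apply he]
    · have h' : ∀ a, e a ≠ l := fun a ha => h ⟨a, ha⟩
      rw [glue_of _ _ h']
      unfold rot
      rw [Function.update_of_ne fun h => h' j h.symm, glue_of _ _ h']
  rw [e1] at key
  exact key

/-- linear combinations and compositions -/
theorem isCF_sub [IsAlgClosed k] [CharZero k] [Fact (IsCurve k L)]
    {E E' : (Fin N → Place k L) → (Fin N → Ix m → Option k) → W} (hE : IsCF F E)
    (hE' : IsCF F E') : IsCF F fun s u => E s u - E' s u := by
  intro K _ _ hK s u f hf hs
  have h1 := hE K hK s u f hf hs
  have h2 := hE' K hK s u f hf hs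
  simp only [Finsupp.sum, smul_sub, Finset.sum_sub_distrib] at h1 h2 ⊢
  rw [h1, h2, sub_zero]

end Pool.Agent.HGP
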