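import Pool.Agent.HGP.KDefs
import Pool.Agent.HGP.Val
import Pool.Agent.HGP.Slot

/-!
# Package HGP-KPt: points

Port of `Pool/Agent/HGFC/KPt.lean` to fibre products: the coordinates are indexed by `r, j : ℕ`. Points
with coordinates, restrictions to the components in `T`, values of points, and the images of points
under homomorphisms of the fields.
-/

set_option autoImplicit false
set_option linter.unusedSectionVars false

noncomputable section

namespace Pool.Agent.HGP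

open Pool.Agent.ZCyc Pool.Agent.Dess Pool.Agent.GT Pool.Agent.TInc Pool.Agent.HGF
open Pool.Agent.EFC (unif)
open scoped Classical

variable {k : Type} [Field k] {ι : Type} {C : ι → Crv k} {r : ℕ} {X : Fin r → Hyp C}

/-! ### Restrictions -/

private theorem map_id_KPt (t : Option k) : t.map (algebraMap k k) = t := by
  cases t <;> rfl

private theorem cst_self_KPt (p : Pt C) : p.cst k = (⟨p.1.1, Sum.inr p.1.2⟩, p.2) :=
  Prod.ext rfl (funext fun _ => funext fun _ => map_id_KPt _)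

private theorem fst_KPt {i : ι} {p : Σ i, Place k (C i).L} {Q : Bp k (C i).L k → Prop} :
    (∃ s : Bp k (C i).L k, (⟨p.1, Sum.inr p.2⟩ : Σ i, Bp k (C i).L k) = ⟨i, s⟩ ∧ Q s) ↔
      ∃ s : Place k (C i).L, p = ⟨i, s⟩ ∧ Q (cp k s) := by
  constructor
  · rintro ⟨s, h1, h2⟩
    obtain ⟨i', c⟩ := p
    obtain ⟨rfl, h5⟩ := Sigma.mk.inj h1
    have h6 := eq_of_heq h5
    subst h6
    exact ⟨c, rfl, h2⟩
  · rintro ⟨s, rfl, h⟩
    exact ⟨_, rfl, h⟩

private theorem onY_cong_KPt {L : Type} [Field L] [Algebra k L] {D D' : Cmp k L} (h : D = D')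
    {K : Type} [Field K] [Algebra k K] (s : Bp k L K) (u : ℕ → Option K) :
    (OnY D.F s fun j => u j) ↔ OnY D'.F s fun j => u j := by
  rw [h]

private theorem onY_congC_KPt {i : ι} {D D' : Cmp k (C i).L} (h : D = D')
    {K : Type} [Field K] [Algebra k K] (s : Bp k (C i).L K) (u : ℕ → Option K) :
    (OnY D.F s fun j => u j) ↔ OnY D'.F s fun j => u j := by
  rw [h]

private theorem val_one_KPt {L : Type} [Field L] [Algebra k L] (c : Place k L) :
    val c (1 : L) = 1 := by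
  refine val_eq ?_
  have h := Place.at_const (v := c) (1 : k)
  rwa [map_one] at h

private theorem onY_triv_KPt {L : Type} [Field L] [Algebra k L] {K : Type} [Field K]
    [Algebra k K] (s : Bp k L K) (u : Fin 0 → Option K) : OnY (Cmp.triv : Cmp k L).F s u := by
  have h1 : sv (Cmp.triv : Cmp k L).F.S (Cmp.triv : Cmp k L).F.A s = 1 := by
    have hS : (Cmp.triv : Cmp k L).F.S = 0 := rfl
    rw [hS]
    cases s with
    | inl σ => exact map_one σ
    | inr c =>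
      show algebraMap k K (val c ((1 : L) * unif c ^ ((0 : Place k L →₀ ℤ) c))) = 1
      rw [Finsupp.coe_zero, Pi.zero_apply, zpow_zero, mul_one, val_one_KPt, map_one]
  unfold OnY
  rw [h1, one_mul]
  rfl

private theorem onY_of_triv_KPt {L : Type} [Field L] [Algebra k L] {D : Cmp k L}
    (h : D = Cmp.triv) {K : Type} [Field K] [Algebra k K] (s : Bp k L K) (u : ℕ → Option K) :
    OnY D.F s fun j => u j := (onY_cong_KPt h s u).2 (onY_triv_KPt s _)

private theorem onY_of_trivC_KPt {i : ι} {D : Cmp k (C i).L}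
    (h : D = Cmp.triv) {K : Type} [Field K] [Algebra k K] (s : Bp k (C i).L K)
    (u : ℕ → Option K) : OnY D.F s fun j => u j := onY_of_triv_KPt h s u

private theorem onY_res_KPt {Z : Hyp C} {T : Set ℕ} {K : Type} [Field K] [Algebra k K]
    (s : Bp k (C Z.i).L K) (u : ℕ → Option K) (q : ℕ) :
    (OnY ((Z.res T).D q).F s fun j => u j) ↔ (q ∈ T → OnY (Z.D q).F s fun j => u j) := by
  by_cases h : q ∈ T
  · have h1 : (Z.res T).D q = Z.D q := if_pos h
    have h2 := onY_congC_KPt (i := Z.i) h1 s u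
    exact ⟨fun h3 _ => h2.1 h3, fun h3 => h2.2 (h3 h)⟩
  · have h1 : (Z.res T).D q = Cmp.triv := if_neg h
    exact ⟨fun _ h3 => absurd h3 h, fun _ => onY_of_trivC_KPt (i := Z.i) h1 s u⟩

private theorem res_m_KPt (Z : Hyp C) (T : Set ℕ) (q : ℕ) :
    (Z.res T).m q = if q ∈ T then Z.m q else 0 := by
  by_cases h : q ∈ T
  · have h1 : (Z.res T).D q = Z.D q := if_pos h
    rw [if_pos h]
    exact congrArg (fun D : Cmp k (C Z.i).L => D.m) h1
  · have h1 : (Z.res T).D q = Cmp.triv := if_neg h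
    rw [if_neg h]
    exact congrArg (fun D : Cmp k (C Z.i).L => D.m) h1

theorem Pt.res_res (p : Pt C) (T T' : Set ℕ) : (p.res T).res T' = p.res (T ∩ T') := by
  refine Prod.ext rfl (funext fun q => funext fun j => ?_)
  simp only [Pt.res, Set.mem_inter_iff]
  by_cases h : q ∈ T <;> by_cases h' : q ∈ T' <;> simp [h, h']

theorem Pt.res_fst (p : Pt C) (T : Set ℕ) : (p.res T).1 = p.1 := rfl

theorem Hyp.res_res (Z : Hyp C) (T T' : Set ℕ) : (Z.res T).res T' = Z.res (T ∩ T') := by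
  simp only [Hyp.res, Set.mem_inter_iff]
  congr 1
  funext q
  by_cases h : q ∈ T <;> by_cases h' : q ∈ T' <;> simp [h, h'] <;> rfl

theorem Hyp.res_m (Z : Hyp C) (T : Set ℕ) (q : ℕ) :
    (Z.res T).m q = if q ∈ T then Z.m q else 0 := res_m_KPt Z T q

theorem Hyp.res_M (Z : Hyp C) {T : Set ℕ} {q : ℕ} (hq : q ∈ T) (j : ℕ) :
    (Z.res T).M q j = Z.M q j := by
  have h1 : (Z.res T).D q = Z.D q := if_pos hq
  exact congrArg (fun D : Cmp k (C Z.i).L => if h : j < D.m then D.F.M ⟨j, h⟩ else 1) h1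

theorem Hyp.res_adm {Z : Hyp C} (hZ : Z.Adm) (T : Set ℕ) : (Z.res T).Adm := by
  obtain ⟨⟨R, hR⟩, h2⟩ := hZ
  refine ⟨⟨R, fun q hq => ?_⟩, fun q => ?_⟩
  · show (if q ∈ T then Z.D q else .triv) = Cmp.triv
    rw [hR q hq, ite_self]
  · by_cases h : q ∈ T
    · have h1 : (Z.res T).D q = Z.D q := if_pos h
      rcases h2 q with h3 | h3
      · exact Or.inl (h1.trans h3)
      · refine Or.inr ?_
        have h4 : ∀ D : Cmp k (C Z.i).L, D = Z.D q → D.F.Adm := fun D hD => by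
          rw [hD]
          exact h3
        exact h4 _ h1
    · exact Or.inl (if_neg h)

theorem Hyp.M_eq {Z : Hyp C} {q j : ℕ} (hj : j < Z.m q) : Z.M q j = (Z.D q).F.M ⟨j, hj⟩ :=
  dif_pos hj

theorem Hyp.M_of_le {Z : Hyp C} {q j : ℕ} (hj : Z.m q ≤ j) : Z.M q j = 1 :=
  dif_neg (Nat.not_lt.2 hj)

private theorem adm_of_pos_KPt {Z : Hyp C} (hZ : Z.Adm) {q : ℕ} (hq : 0 < Z.m q) :
    (Z.D q).F.Adm := by
  rcases hZ.2 q with h | h
  · have h1 : Z.m q = 0 := congrArg (fun D : Cmp k (C Z.i).L => D.m) h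
    omega
  · exact h

theorem Hyp.M_pos {Z : Hyp C} (hZ : Z.Adm) (q j : ℕ) : 0 < Z.M q j := by
  by_cases hj : j < Z.m q
  · rw [Hyp.M_eq hj]
    exact (adm_of_pos_KPt hZ (by omega)).M0 _
  · rw [Hyp.M_of_le (Nat.not_lt.1 hj)]
    exact one_pos

/-- a nontrivial component is admissible -/
theorem Hyp.adm_of_pos {Z : Hyp C} (hZ : Z.Adm) {q : ℕ} (hq : 0 < Z.m q) : (Z.D q).F.Adm :=
  adm_of_pos_KPt hZ hq

/-- the points of the fibre product of the components in `T` -/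
theorem onK_res {Z : Hyp C} {T : Set ℕ} {K : Type} [Field K] [Algebra k K] {p : PtK C K} :
    (Z.res T).OnK p ↔
      (∃ s : Bp k (C Z.i).L K, p.1 = ⟨Z.i, s⟩ ∧ ∀ q ∈ T, OnY (Z.D q).F s fun j => p.2 q j) ∧
        ∀ q j, (q ∈ T → Z.m q ≤ j) → p.2 q j = none := by
  have h1 : ∀ q j, (Z.res T).m q ≤ j ↔ (q ∈ T → Z.m q ≤ j) := by
    intro q j
    rw [res_m_KPt]
    by_cases h : q ∈ T
    · rw [if_pos h]
      exact ⟨fun h2 _ => h2, fun h2 => h2 h⟩
    · rw [if_neg h]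
      exact ⟨fun _ h2 => absurd h2 h, fun _ => Nat.zero_le _⟩
  constructor
  · rintro ⟨⟨s, h2, h3⟩, h4⟩
    exact ⟨⟨s, h2, fun q hq => (onY_res_KPt (Z := Z) (T := T) s (fun j => p.2 q j) q).1 (h3 q) hq⟩,
      fun q j h5 => h4 q j ((h1 q j).2 h5)⟩
  · rintro ⟨⟨s, h2, h3⟩, h4⟩
    exact ⟨⟨s, h2, fun q => (onY_res_KPt (Z := Z) (T := T) s (fun j => p.2 q j) q).2 (h3 q)⟩,
      fun q j h5 => h4 q j ((h1 q j).1 h5)⟩

theorem on_res {Z : Hyp C} {T : Set ℕ} {p : Pt C} :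
    (Z.res T).On p ↔
      (∃ s : Place k (C Z.i).L, p.1 = ⟨Z.i, s⟩ ∧ ∀ q ∈ T, OnY (Z.D q).F (cp k s) fun j => p.2 q j) ∧
        ∀ q j, (q ∈ T → Z.m q ≤ j) → p.2 q j = none := by
  show (Z.res T).OnK (p.cst k) ↔ _
  rw [cst_self_KPt, onK_res]
  exact and_congr_left fun _ => fst_KPt (i := Z.i) (p := p.1)
    (Q := fun s => ∀ q ∈ T, OnY (Z.D q).F s fun j => p.2 q j)

/-- the points of `Z` -/
theorem on_iff {Z : Hyp C} {p : Pt C} :
    Z.On p ↔ (∃ s : Place k (C Z.i).L, p.1 = ⟨Z.i, s⟩ ∧ ∀ q, OnY (Z.D q).F (cp k s) fun j => p.2 q j) ∧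
        ∀ q j, Z.m q ≤ j → p.2 q j = none := by
  show Z.OnK (p.cst k) ↔ _
  rw [cst_self_KPt]
  exact and_congr_left fun _ => fst_KPt (i := Z.i) (p := p.1)
    (Q := fun s => ∀ q, OnY (Z.D q).F s fun j => p.2 q j)

theorem On.fst {Z : Hyp C} {p : Pt C} (h : Z.On p) : p.1.1 = Z.i := by
  obtain ⟨⟨s, h1, -⟩, -⟩ := on_iff.1 h
  rw [h1]

theorem On.none {Z : Hyp C} {p : Pt C} (h : Z.On p) {q j : ℕ} (hj : Z.m q ≤ j) :
    p.2 q j = none := (on_iff.1 h).2 q j hj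

theorem On.res {Z : Hyp C} {p : Pt C} (h : Z.On p) (T : Set ℕ) : (Z.res T).On (p.res T) := by
  obtain ⟨⟨s, h1, h2⟩, h3⟩ := on_iff.1 h
  refine on_res.2 ⟨⟨s, h1, fun q hq => ?_⟩, fun q j hq => ?_⟩
  · have h4 : (fun j : Fin (Z.D q).m => (p.res T).2 q j) = fun j : Fin (Z.D q).m => p.2 q j :=
      funext fun j => if_pos hq
    rw [h4]
    exact h2 q
  · show (if q ∈ T then p.2 q j else Option.none) = Option.none
    by_cases h4 : q ∈ T
    · rw [if_pos h4]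
      exact h3 q j (hq h4)
    · rw [if_neg h4]

theorem On.res_self {Z : Hyp C} {T : Set ℕ} {p : Pt C} (h : (Z.res T).On p) :
    p.res T = p := by
  refine Prod.ext rfl (funext fun q => funext fun j => ?_)
  show (if q ∈ T then p.2 q j else Option.none) = p.2 q j
  by_cases h4 : q ∈ T
  · rw [if_pos h4]
  · rw [if_neg h4]
    exact ((on_res.1 h).2 q j fun h5 => absurd h5 h4).symm

/-- restriction to a set which contains all nontrivial components -/
theorem On.res_eq {Z : Hyp C} {T : Set ℕ} (hT : ∀ q, 0 < Z.m q → q ∈ T) {p : Pt C} (h : Z.On p) :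
    p.res T = p := by
  refine Prod.ext rfl (funext fun q => funext fun j => ?_)
  show (if q ∈ T then p.2 q j else Option.none) = p.2 q j
  by_cases h4 : q ∈ T
  · rw [if_pos h4]
  · rw [if_neg h4]
    refine (On.none h ?_).symm
    have h5 : ¬ 0 < Z.m q := fun h6 => h4 (hT q h6)
    omega

theorem Hyp.res_eq {Z : Hyp C} (hZ : Z.Adm) {T : Set ℕ} (hT : ∀ q, 0 < Z.m q → q ∈ T) :
    Z.res T = Z := by
  obtain ⟨i, D⟩ := Z
  show (⟨i, fun q => if q ∈ T then D q else .triv⟩ : Hyp C) = ⟨i, D⟩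
  congr 1
  funext q
  by_cases h : q ∈ T
  · rw [if_pos h]
  · rw [if_neg h]
    rcases hZ.2 q with h1 | h1
    · exact h1.symm
    · exact absurd (hT q h1.one) h

/-- the points of the curve -/
theorem on_res_empty {Z : Hyp C} {p : Pt C} :
    (Z.res ∅).On p ↔ p.1.1 = Z.i ∧ ∀ q j, p.2 q j = none := by
  rw [on_res]
  constructor
  · rintro ⟨⟨s, h1, -⟩, h2⟩
    exact ⟨by rw [h1], fun q j => h2 q j fun h => absurd h (Set.notMem_empty q)⟩
  · rintro ⟨h1, h2⟩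
    refine ⟨?_, fun q j _ => h2 q j⟩
    obtain ⟨⟨i, c⟩, u⟩ := p
    obtain ⟨i', D⟩ := Z
    obtain rfl : i = i' := h1
    exact ⟨c, rfl, fun q hq => absurd hq (Set.notMem_empty q)⟩

/-! ### Coordinates -/

/-- the point over `K` of the fibre product of the components in `T` with the coordinates `s`, `u` -/
def crdT (Z : Hyp C) (T : Finset ℕ) {K : Type} [Field K] [Algebra k K] (s : Bp k (C Z.i).L K)
    (u : Ix (fun q : T => Z.m q) → Option K) : PtK C K :=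
  (⟨Z.i, s⟩, fun q j => if h : q ∈ T ∧ j < Z.m q then u ⟨⟨q, h.1⟩, ⟨j, h.2⟩⟩ else none)

/-- the point of the fibre product of the components in `T` with the coordinates `s`, `u` -/
def ptT (Z : Hyp C) (T : Finset ℕ) (s : Place k (C Z.i).L)
    (u : Ix (fun q : T => Z.m q) → Option k) : Pt C :=
  (⟨Z.i, s⟩, fun q j => if h : q ∈ T ∧ j < Z.m q then u ⟨⟨q, h.1⟩, ⟨j, h.2⟩⟩ else none)

theorem crdT_snd (Z : Hyp C) (T : Finset ℕ) {K : Type} [Field K] [Algebra k K]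
    (s : Bp k (C Z.i).L K) (u : Ix (fun q : T => Z.m q) → Option K) (q : Ix fun q : T => Z.m q) :
    (crdT Z T s u).2 q.1 q.2 = u q :=
  dif_pos (⟨q.1.2, q.2.2⟩ : (q.1 : ℕ) ∈ T ∧ (q.2 : ℕ) < Z.m q.1)

theorem ptT_snd (Z : Hyp C) (T : Finset ℕ) (s : Place k (C Z.i).L)
    (u : Ix (fun q : T => Z.m q) → Option k) (q : Ix fun q : T => Z.m q) :
    (ptT Z T s u).2 q.1 q.2 = u q :=
  dif_pos (⟨q.1.2, q.2.2⟩ : (q.1 : ℕ) ∈ T ∧ (q.2 : ℕ) < Z.m q.1)

theorem crdT_none (Z : Hyp C) (T : Finset ℕ) {K : Type} [Field K] [Algebra k K]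
    (s : Bp k (C Z.i).L K) (u : Ix (fun q : T => Z.m q) → Option K) {q j : ℕ}
    (h : q ∈ T → Z.m q ≤ j) : (crdT Z T s u).2 q j = none :=
  dif_neg fun h1 => absurd h1.2 (Nat.not_lt.2 (h h1.1))

theorem ptT_none (Z : Hyp C) (T : Finset ℕ) (s : Place k (C Z.i).L)
    (u : Ix (fun q : T => Z.m q) → Option k) {q j : ℕ}
    (h : q ∈ T → Z.m q ≤ j) : (ptT Z T s u).2 q j = none :=
  dif_neg fun h1 => absurd h1.2 (Nat.not_lt.2 (h h1.1))

theorem ptT_cst (Z : Hyp C) (T : Finset ℕ) (s : Place k (C Z.i).L)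
    (u : Ix (fun q : T => Z.m q) → Option k) (K : Type) [Field K] [Algebra k K] :
    (ptT Z T s u).cst K = crdT Z T (cp K s) fun q => (u q).map (algebraMap k K) := by
  refine Prod.ext rfl (funext fun q => funext fun j => ?_)
  show ((ptT Z T s u).2 q j).map (algebraMap k K) = _
  by_cases h : q ∈ T ∧ j < Z.m q
  · have h1 := ptT_snd Z T s u ⟨⟨q, h.1⟩, ⟨j, h.2⟩⟩
    have h2 := crdT_snd Z T (cp K s) (fun q => (u q).map (algebraMap k K)) ⟨⟨q, h.1⟩, ⟨j, h.2⟩⟩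
    simp only at h1 h2
    rw [h1, h2]
  · have h1 : q ∈ T → Z.m q ≤ j := fun h2 => Nat.not_lt.1 fun h3 => h ⟨h2, h3⟩
    rw [ptT_none Z T _ _ h1, crdT_none Z T _ _ h1]
    rfl

theorem on_crdT (Z : Hyp C) (T : Finset ℕ) {K : Type} [Field K] [Algebra k K]
    {s : Bp k (C Z.i).L K} {u : Ix (fun q : T => Z.m q) → Option K} :
    (Z.res T).OnK (crdT Z T s u) ↔ OnX (fun q : T => (Z.D q).F) s u := by
  have h0 : ∀ q (hq : q ∈ T), (fun j : Fin (Z.D q).m => (crdT Z T s u).2 q j) =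
      cmp u ⟨q, hq⟩ := fun q hq => funext fun j => crdT_snd Z T s u ⟨⟨q, hq⟩, j⟩
  rw [onK_res]
  constructor
  · rintro ⟨⟨s', h1, h2⟩, -⟩ q
    have h4 : s = s' := by
      have h5 : (⟨Z.i, s⟩ : Σ i, Bp k (C i).L K) = ⟨Z.i, s'⟩ := h1
      exact eq_of_heq (Sigma.mk.inj h5).2
    subst h4
    have h5 := h2 q.1 q.2
    rw [h0 q.1 q.2] at h5
    exact h5
  · intro h
    refine ⟨⟨s, rfl, fun q hq => ?_⟩, fun q j hj => crdT_none Z T s u hj⟩
    rw [h0 q hq]
    exact h ⟨q, hq⟩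

theorem on_ptT (Z : Hyp C) (T : Finset ℕ) {s : Place k (C Z.i).L}
    {u : Ix (fun q : T => Z.m q) → Option k} :
    (Z.res T).On (ptT Z T s u) ↔ OnX (fun q : T => (Z.D q).F) (cp k s) u := by
  show (Z.res T).OnK ((ptT Z T s u).cst k) ↔ _
  rw [ptT_cst, on_crdT]
  simp only [map_id_KPt]

theorem crdT_of_on {Z : Hyp C} {T : Finset ℕ} {K : Type} [Field K] [Algebra k K] {p : PtK C K}
    (h : (Z.res T).OnK p) : ∃ s : Bp k (C Z.i).L K,
      p = crdT Z T s (fun q => p.2 q.1 q.2) ∧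
        OnX (fun q : T => (Z.D q).F) s fun q => p.2 q.1 q.2 := by
  obtain ⟨⟨s, h1, h2⟩, h3⟩ := onK_res.1 h
  refine ⟨s, Prod.ext h1 (funext fun q => funext fun j => ?_), fun q => h2 q.1 q.2⟩
  by_cases hq : q ∈ T ∧ j < Z.m q
  · exact (crdT_snd Z T s (fun q => p.2 q.1 q.2) ⟨⟨q, hq.1⟩, ⟨j, hq.2⟩⟩).symm
  · have h4 : q ∈ T → Z.m q ≤ j := fun h5 => Nat.not_lt.1 fun h6 => hq ⟨h5, h6⟩
    rw [crdT_none Z T _ _ h4]
    exact h3 q j h4

theorem ptT_of_on {Z : Hyp C} {T : Finset ℕ} {p : Pt C} (h : (Z.res T).On p) :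
    ∃ s : Place k (C Z.i).L, p = ptT Z T s (fun q => p.2 q.1 q.2) ∧
        OnX (fun q : T => (Z.D q).F) (cp k s) fun q => p.2 q.1 q.2 := by
  obtain ⟨⟨s, h1, h2⟩, h3⟩ := on_res.1 h
  refine ⟨s, Prod.ext h1 (funext fun q => funext fun j => ?_), fun q => h2 q.1 q.2⟩
  by_cases hq : q ∈ T ∧ j < Z.m q
  · exact (ptT_snd Z T s (fun q => p.2 q.1 q.2) ⟨⟨q, hq.1⟩, ⟨j, hq.2⟩⟩).symm
  · have h4 : q ∈ T → Z.m q ≤ j := fun h5 => Nat.not_lt.1 fun h6 => hq ⟨h5, h6⟩
    rw [ptT_none Z T _ _ h4]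
    exact h3 q j h4

theorem vlc_crdT (Z : Hyp C) (T : Finset ℕ) {K : Type} [Field K] [Algebra k K] (v : Place k K)
    (s : Bp k (C Z.i).L K) (u : Ix (fun q : T => Z.m q) → Option K) :
    vlc v (crdT Z T s u) = ptT Z T (vb v s) fun q => vlo v (u q) := by
  refine Prod.ext rfl (funext fun q => funext fun j => ?_)
  show vlo v ((crdT Z T s u).2 q j) = _
  by_cases h : q ∈ T ∧ j < Z.m q
  · have h1 := ptT_snd Z T (vb v s) (fun q => vlo v (u q)) ⟨⟨q, h.1⟩, ⟨j, h.2⟩⟩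
    have h2 := crdT_snd Z T s u ⟨⟨q, h.1⟩, ⟨j, h.2⟩⟩
    simp only at h1 h2
    rw [h1, h2]
  · have h1 : q ∈ T → Z.m q ≤ j := fun h2 => Nat.not_lt.1 fun h3 => h ⟨h2, h3⟩
    rw [ptT_none Z T _ _ h1, crdT_none Z T _ _ h1, vlo_none]

/-! ### Values -/

theorem map_id_KMor (t : Option k) : t.map (algebraMap k k) = t := map_id_KPt t

theorem vlc_cst {K : Type} [Field K] [Algebra k K] (v : Place k K) (p : Pt C) :
    vlc v (p.cst K) = p := by
  refine Prod.ext rfl (funext fun q => funext fun j => ?_)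
  exact vlo_const v (p.2 q j)

/-- constant points (`onY_const`) -/
theorem onK_cst {Z : Hyp C} {p : Pt C} (h : Z.On p) (K : Type) [Field K] [Algebra k K] :
    Z.OnK (p.cst K) := by
  obtain ⟨⟨s, h1, h2⟩, h3⟩ := on_iff.1 h
  obtain ⟨⟨i, c⟩, u⟩ := p
  obtain ⟨rfl, h5⟩ := Sigma.mk.inj h1
  have h6 := eq_of_heq h5
  subst h6
  refine ⟨⟨cp K c, rfl, fun q => ?_⟩, fun q j hj => ?_⟩
  · exact (onY_const c fun j : Fin (Z.D q).m => u q j).2 (h2 q)
  · show (u q j).map (algebraMap k K) = none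
    have h7 : u q j = none := h3 q j hj
    rw [h7]
    rfl

/-- the value of a point of the variety is a point of the variety (`onY_vlo`; for trivial components
the equation is `1 = 1`, `sv 0 1 s = 1`) -/
theorem on_vlc [IsAlgClosed k] [CharZero k] {Z : Hyp C} (hZ : Z.Adm) {K : Type} [Field K]
    [Algebra k K] [HasRes k K] [HasBelow k K] (v : Place k K) {p : PtK C K} (h : Z.OnK p) :
    Z.On (vlc v p) := by
  obtain ⟨⟨s, h1, h2⟩, h3⟩ := h
  obtain ⟨⟨i, c⟩, u⟩ := p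
  obtain ⟨rfl, h5⟩ := Sigma.mk.inj h1
  have h6 := eq_of_heq h5
  subst h6
  refine on_iff.2 ⟨⟨vb v c, rfl, fun q => ?_⟩, fun q j hj => ?_⟩
  · rcases hZ.2 q with h4 | h4
    · exact onY_of_triv_KPt (L := (C Z.i).L) h4 (cp k (vb v c)) (fun j => vlo v (u q j))
    · exact onY_vlo h4 v (h2 q)
  · show vlo v (u q j) = none
    have h7 : u q j = none := h3 q j hj
    rw [h7, vlo_none]

theorem onP_vlc [IsAlgClosed k] [CharZero k] (hX : ∀ a, (X a).Adm) {K : Type} [Field K]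
    [Algebra k K] [HasRes k K] [HasBelow k K] (v : Place k K) {x : Fin r → PtK C K} (h : OnPK X x) :
    OnP X fun a => vlc v (x a) := fun a => on_vlc (hX a) v (h a)

theorem onP_glue {N : ℕ} {e : Fin N → Fin r} (he : Function.Injective e)
    {x0 : Fin r → Pt C} (h0 : OnP X x0) {q : Fin N → Pt C} (hq : ∀ j, (X (e j)).On (q j)) :
    OnP X (glue e x0 q) := by
  intro a
  by_cases h : ∃ j, e j = a
  · obtain ⟨j, rfl⟩ := h
    rw [glue_apply he]
    exact hq j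
  · rw [glue_of _ _ fun j hj => h ⟨j, hj⟩]
    exact h0 a

/-! ### Extension of the field -/

/-- the image of a point under a homomorphism of the fields -/
def PtK.map {K K' : Type} [Field K] [Algebra k K] [Field K'] [Algebra k K'] (φ : K →ₐ[k] K')
    (p : PtK C K) : PtK C K' := (⟨p.1.1, bmap φ p.1.2⟩, fun q j => (p.2 q j).map φ)

theorem onK_map {Z : Hyp C} {K K' : Type} [Field K] [Algebra k K] [Field K'] [Algebra k K']
    (φ : K →ₐ[k] K') {p : PtK C K} (h : Z.OnK p) : Z.OnK (p.map φ) := by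
  obtain ⟨⟨s, h1, h2⟩, h3⟩ := h
  obtain ⟨⟨i, c⟩, u⟩ := p
  have h4 : (⟨i, c⟩ : Σ i, Bp k (C i).L K) = ⟨Z.i, s⟩ := h1
  obtain ⟨rfl, h5⟩ := Sigma.mk.inj h4
  have h6 := eq_of_heq h5
  subst h6
  refine ⟨⟨bmap φ c, rfl, fun q => ?_⟩, fun q j hj => ?_⟩
  · exact (onY_map φ c fun j => u q j).2 (h2 q)
  · show (u q j).map φ = none
    have h7 : u q j = none := h3 q j hj
    rw [h7]
    rfl

/-- the values at a place above `v` -/
theorem vlc_map {K K' : Type} [Field K] [Algebra k K] [Field K'] [Algebra k K'] [HasBelow k K]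
    [HasBelow k K'] {φ : K →ₐ[k] K'} {V : Place k K'} {v : Place k K}
    (h : V.ring.comap (φ : K →+* K') = v.ring) (p : PtK C K) : vlc V (p.map φ) = vlc v p := by
  obtain ⟨⟨i, c⟩, u⟩ := p
  refine Prod.ext ?_ (funext fun q => funext fun j => vlo_alg h (u q j))
  show (⟨i, vb V (bmap φ c)⟩ : Σ i, Place k (C i).L) = ⟨i, vb v c⟩
  rw [vb_bmap h]

end Pool.Agent.HGP
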