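import Pool.Agent.HGP.KRatB

/-!
# Package HGP-KRat: the properties of the filtration

Port of `Pool/Agent/HGFC/KRat.lean`. For `fil_top` the levels are `κ a = some` of the (finite) set of the
nontrivial components: `dimS X κ = ∑ dim`, `(X a).res T = X a` (`Hyp.res_eq`), `prj κ w x = x` for points of the
product (`On.res_eq`).
-/

set_option autoImplicit false
set_option linter.unusedSectionVars false

noncomputable section

namespace Pool.Agent.HGP

open Pool.Agent.ZCyc Pool.Agent.Dess Pool.Agent.GT Pool.Agent.TInc Pool.Agent.HGF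
open scoped Classical

variable {k : Type} [Field k] [IsAlgClosed k] [CharZero k] {ι : Type} {C : ι → Crv k} {r r' : ℕ}
  {X : Fin r → Hyp C} {Y : Fin r' → Hyp C}

/-- the set of the nontrivial components -/
theorem Hyp.exists_supp {Z : Hyp C} (hZ : Z.Adm) : ∃ T : Finset ℕ, (∀ q, q ∈ T ↔ 0 < Z.m q) ∧
    Z.dm T = Z.dim := by
  obtain ⟨⟨R, hR⟩, -⟩ := hZ
  have h1 : ∀ q, R ≤ q → Z.m q = 0 := fun q hq =>
    congrArg (fun D : Cmp k (C Z.i).L => D.m) (hR q hq)
  have h2 : ∀ q, q ∈ (Finset.range R).filter (fun q => 0 < Z.m q) ↔ 0 < Z.m q := by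
    intro q
    rw [Finset.mem_filter, Finset.mem_range]
    refine ⟨fun h => h.2, fun h => ⟨?_, h⟩⟩
    by_contra h3
    have h4 := h1 q (not_lt.1 h3)
    omega
  refine ⟨(Finset.range R).filter (fun q => 0 < Z.m q), h2, ?_⟩
  unfold Hyp.dm Hyp.dim
  rw [finsum_eq_sum_of_support_subset]
  intro q hq
  rw [Function.mem_support] at hq
  rw [Finset.mem_coe, h2]
  omega

/-- correspondences respect the filtration -/
theorem fil_map (hX : ∀ a, (X a).Adm) (hY : ∀ b, (Y b).Adm) (γ : Mor X Y →₀ ℚ) {ν : ℕ}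
    {z : (Fin r → Pt C) →₀ ℚ} (hz : z ∈ Fil X ν) : pushM γ z ∈ Fil Y ν := by
  refine ⟨supp_push hY γ hz.1, fun κ hκ w hw => ratP_of_evl ?_⟩
  rw [evl_map, evl_push]
  refine Finset.sum_eq_zero fun f _ => ?_
  rw [evl_low hX hY (isCFP_prj hY κ hw) f (depOn_prj _ κ w)
    (lt_of_le_of_lt (dim_lv f κ) hκ) hz, smul_zero]

/-- **a correspondence which is zero on the forms of degree `ν` is zero on `gr^ν`** -/
theorem fil_grad (hX : ∀ a, (X a).Adm) (hY : ∀ b, (Y b).Adm) {γ : Mor X Y →₀ ℚ} {ν : ℕ}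
    (hγ : KillsForms γ ν) {z : (Fin r → Pt C) →₀ ℚ} (hz : z ∈ Fil X ν) :
    pushM γ z ∈ Fil Y (ν + 1) := by
  refine ⟨supp_push hY γ hz.1, fun κ hκ w hw => ?_⟩
  rcases Nat.lt_succ_iff_lt_or_eq.1 hκ with h | h
  · exact (fil_map hX hY γ hz).2 κ h w hw
  · apply ratP_of_evl
    rw [evl_map, evl_push]
    subst h
    exact evl_top hX hY (isCFP_prj hY κ hw) (depOn_prj _ κ w) hγ hz

theorem fil_anti (ν : ℕ) : Fil X (ν + 1) ≤ Fil X ν :=
  fun _ hz => ⟨hz.1, fun κ hκ w hw => hz.2 κ (Nat.lt_succ_of_lt hκ) w hw⟩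

theorem fil_zero {z : (Fin r → Pt C) →₀ ℚ} : z ∈ Fil X 0 ↔ ∀ x ∈ z.support, OnP X x :=
  ⟨fun h => h.1, fun h => ⟨h, fun _ hκ => absurd hκ (Nat.not_lt_zero _)⟩⟩

theorem ratP_fil (hX : ∀ a, (X a).Adm) (ν : ℕ) : RatP X ℚ ≤ Fil X ν := by
  intro z hz
  refine ⟨supp_rat hX hz, fun κ _ w hw => ratP_of_evl ?_⟩
  rw [evl_map]
  exact evl_ratP (isCFP_prj hX κ hw) hz

/-- `F ^ (dim + 1) = 0` -/
theorem fil_top (hX : ∀ a, (X a).Adm) : Fil X ((∑ a, (X a).dim) + 1) = RatP X ℚ := by
  refine le_antisymm (fun z hz => ?_) (ratP_fil hX _)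
  by_cases h0 : z.support = ∅
  · rw [Finsupp.support_eq_empty.1 h0]
    exact zero_mem _
  obtain ⟨w, hw⟩ := Finset.nonempty_iff_ne_empty.2 h0
  choose T hT hd using fun a => Hyp.exists_supp (hX a)
  have h4 : dimS X (fun a => some (T a)) = ∑ a, (X a).dim :=
    Finset.sum_congr rfl fun a _ => hd a
  have h1 := hz.2 (fun a => some (T a)) (by
    rw [h4]
    exact Nat.lt_succ_self _) w (hz.1 w hw)
  have h3 : red (fun a => some (T a)) X = X := by
    funext a
    exact Hyp.res_eq (hX a) fun q hq => Finset.mem_coe.2 ((hT a q).2 hq)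
  have h2 : Finsupp.mapDomain (prj (fun a => some (T a)) w) z = z := by
    have h5 : ∀ x ∈ z.support, prj (fun a => some (T a)) w x = id x := fun x hx =>
      funext fun a => On.res_eq (fun q hq => Finset.mem_coe.2 ((hT a q).2 hq)) (hz.1 x hx a)
    rw [Finsupp.mapDomain_congr h5, Finsupp.mapDomain_id]
  rwa [h2, h3] at h1

/-- `F¹` is the part of degree zero: `dimS X κ < 1` means `κ = none` -/
theorem fil_one (hX : ∀ a, (X a).Adm) {z : (Fin r → Pt C) →₀ ℚ} :
    z ∈ Fil X 1 ↔ (∀ x ∈ z.support, OnP X x) ∧ (z.sum fun _ c => c) = 0 := by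
  have hmap : ∀ w : Fin r → Pt C, Finsupp.mapDomain (prj (fun _ => none) w) z =
      Finsupp.single w (z.sum fun _ c => c) := by
    intro w
    have h3 : prj (fun _ => none) w = fun _ => w := by
      funext x a
      rfl
    rw [h3]
    unfold Finsupp.mapDomain Finsupp.sum
    rw [Finsupp.single_finsetSum]
  constructor
  · intro hz
    refine ⟨hz.1, ?_⟩
    by_cases h0 : z.support = ∅
    · rw [Finsupp.support_eq_empty.1 h0, Finsupp.sum_zero_index]
    obtain ⟨w, hw⟩ := Finset.nonempty_iff_ne_empty.2 h0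
    have h3 := hz.2 (fun _ => none) (by
      have h5 : dimS X (fun _ => none) = 0 := Finset.sum_eq_zero fun a _ => rfl
      rw [h5]
      exact Nat.zero_lt_one) w (hz.1 w hw)
    rw [hmap] at h3
    have h4 := deg_rat h3
    rwa [Finsupp.sum_single_index rfl] at h4
  · rintro ⟨h3, h4⟩
    refine ⟨h3, fun κ hκ w _ => ?_⟩
    have h5 : κ = fun _ => none := by
      funext a
      have h6 : dimS X κ = 0 := Nat.lt_one_iff.1 hκ
      unfold dimS at h6
      have h7 := Finset.sum_eq_zero_iff.1 h6 a (Finset.mem_univ a)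
      cases h8 : κ a with
      | none => rfl
      | some T =>
        rw [h8] at h7
        have h9 : (X a).dm T = 0 := h7
        unfold Hyp.dm at h9
        omega
    rw [h5, hmap, h4, Finsupp.single_zero]
    exact zero_mem _

end Pool.Agent.HGP
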