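import Pool.Agent.HGP.KFil

/-!
# Package HGP-KRatA: the class of a point

Port of `Pool/Agent/HGFC/KRatA.lean` (the proofs are unchanged).
-/

set_option autoImplicit false
set_option linter.unusedSectionVars false

noncomputable section

namespace Pool.Agent.HGP

open Pool.Agent.ZCyc Pool.Agent.Dess Pool.Agent.GT Pool.Agent.TInc Pool.Agent.HGF
open scoped Classical

variable {k : Type} [Field k] [IsAlgClosed k] [CharZero k] {ι : Type} {C : ι → Crv k} {r r' : ℕ}
  {X : Fin r → Hyp C} {Y : Fin r' → Hyp C}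

/-- the class of a point -/
def clsP (X : Fin r → Hyp C) (x : Fin r → Pt C) : ((Fin r → Pt C) →₀ k) ⧸ RatP X k :=
  Submodule.Quotient.mk (Finsupp.single x 1)

theorem isCFP_cls : IsCFP X (clsP X) := by
  intro K _ _ hK x f hf hx
  have h : ((TInc.dv hK f).sum fun v a => Finsupp.single (fun j => vlc v (x j)) (a : k)) ∈
      RatP X k :=
    Submodule.subset_span ⟨K, _, _, hK, x, f, TInc.dv hK f, hf, hx,
      fun v => ord_hasOrd hK v hf, rfl⟩
  have h2 : (RatP X k).mkQ ((TInc.dv hK f).sum fun v a => Finsupp.single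
      (fun j => vlc v (x j)) (a : k)) = 0 := by
    rw [Submodule.mkQ_apply, Submodule.Quotient.mk_eq_zero]
    exact h
  rw [map_finsuppSum] at h2
  rw [← h2]
  refine Finsupp.sum_congr fun v _ => ?_
  unfold clsP
  rw [Submodule.mkQ_apply, ← Int.cast_smul_eq_zsmul k, ← Submodule.Quotient.mk_smul,
    Finsupp.smul_single', mul_one]

omit [IsAlgClosed k] in
private theorem exists_ret_KRatA : ∃ p : k →ₗ[ℚ] ℚ, ∀ q : ℚ, p (algebraMap ℚ k q) = q := by
  obtain ⟨p, hp⟩ := LinearMap.exists_leftInverse_of_injective (Algebra.linearMap ℚ k)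
    (LinearMap.ker_eq_bot.2 (algebraMap ℚ k).injective)
  exact ⟨p, fun q => by simpa using LinearMap.congr_fun hp q⟩

private theorem ret_mem_KRatA (p : k →ₗ[ℚ] ℚ) {z : (Fin r → Pt C) →₀ k}
    (h : z ∈ RatP X k) : ∀ c : k, Finsupp.mapRange.linearMap p (c • z) ∈ RatP X ℚ := by
  unfold RatP at h
  induction h using Submodule.span_induction with
  | mem z hz =>
    intro c
    obtain ⟨K, i1, i2, hK, x, f, D, hf, hx, hD, rfl⟩ := hz
    have h1 : Finsupp.mapRange.linearMap p (c • (D.sum fun v a => Finsupp.single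
        (fun j => vlc v (x j)) (a : k))) =
        p c • (D.sum fun v a => Finsupp.single (fun j => vlc v (x j)) (a : ℚ)) := by
      rw [Finsupp.smul_sum, Finsupp.smul_sum, map_finsuppSum]
      refine Finsupp.sum_congr fun v _ => ?_
      rw [Finsupp.smul_single', Finsupp.smul_single', Finsupp.mapRange.linearMap_apply,
        Finsupp.mapRange_single]
      congr 1
      rw [mul_comm c, ← zsmul_eq_mul, map_zsmul, zsmul_eq_mul, mul_comm]
    rw [h1]
    exact Submodule.smul_mem _ _ (Submodule.subset_span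
      ⟨K, i1, i2, hK, x, f, D, hf, hx, hD, rfl⟩)
  | zero =>
    intro c
    rw [smul_zero, map_zero]
    exact Submodule.zero_mem _
  | add x y _ _ hx hy =>
    intro c
    rw [smul_add, map_add]
    exact Submodule.add_mem _ (hx c) (hy c)
  | smul a x _ hx =>
    intro c
    rw [smul_smul]
    exact hx _

private theorem evl_cls_KRatA (z : (Fin r → Pt C) →₀ ℚ) :
    evl (k := k) (clsP X) z = (RatP X k).mkQ (z.mapRange (algebraMap ℚ k) (map_zero _)) := by
  induction z using Finsupp.induction_linear with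
  | zero => rw [map_zero, Finsupp.mapRange_zero, map_zero]
  | add f g hf hg =>
    rw [map_add, Finsupp.mapRange_add (fun a b => map_add _ a b), map_add, hf, hg]
  | single a b =>
    rw [evl_single, Finsupp.mapRange_single]
    unfold clsP
    rw [Submodule.mkQ_apply, ← Submodule.Quotient.mk_smul, Finsupp.smul_single', mul_one]
    rfl

/-- the cycle is rationally equivalent to zero if its class is zero -/
theorem ratP_of_evl {z : (Fin r → Pt C) →₀ ℚ} (h : evl (k := k) (clsP X) z = 0) :
    z ∈ RatP X ℚ := by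
  rw [evl_cls_KRatA, Submodule.mkQ_apply, Submodule.Quotient.mk_eq_zero] at h
  obtain ⟨p, hp⟩ := exists_ret_KRatA (k := k)
  have h1 := ret_mem_KRatA p h 1
  rw [one_smul, Finsupp.mapRange.linearMap_apply] at h1
  convert h1 using 1
  ext x
  rw [Finsupp.mapRange_apply, Finsupp.mapRange_apply, hp]

/-- morphisms respect rational equivalence (`ratP_of_evl`, `isCFP_comp`, `evl_ratP`) -/
theorem ratP_push (hY : ∀ b, (Y b).Adm) (f : Mor X Y) {z : (Fin r → Pt C) →₀ ℚ}
    (hz : z ∈ RatP X ℚ) : Finsupp.mapDomain f.app z ∈ RatP Y ℚ := by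
  refine ratP_of_evl ?_
  rw [evl_map]
  exact evl_ratP (isCFP_comp hY isCFP_cls f) hz

theorem supp_rat (hX : ∀ a, (X a).Adm) {z : (Fin r → Pt C) →₀ ℚ} (hz : z ∈ RatP X ℚ) :
    ∀ x ∈ z.support, OnP X x := by
  unfold RatP at hz
  induction hz using Submodule.span_induction with
  | mem z hz =>
    obtain ⟨K, i1, i2, hK, x, f, D, hf, hx, hD, rfl⟩ := hz
    intro y hy
    obtain ⟨v, -, hv⟩ := Finset.mem_biUnion.1 (Finsupp.support_finsetSum hy)
    have h1 := Finsupp.support_single_subset hv
    rw [Finset.mem_singleton] at h1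
    rw [h1]
    have : HasRes k K := hasRes_of_isCurve hK
    have : HasBelow k K := hasBelow_of_isCurve hK
    exact onP_vlc hX v hx
  | zero =>
    intro x hx
    simp at hx
  | add a b _ _ ha hb =>
    intro x hx
    rcases Finset.mem_union.1 (Finsupp.support_add hx) with h1 | h1
    · exact ha x h1
    · exact hb x h1
  | smul a x _ hx => exact fun y hy => hx y (Finsupp.support_smul hy)

theorem deg_rat {z : (Fin r → Pt C) →₀ ℚ} (hz : z ∈ RatP X ℚ) : (z.sum fun _ c => c) = 0 := by
  have hE : IsCFP X fun _ : Fin r → Pt C => (1 : k) := by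
    intro K _ _ hK x f hf _
    have h1 := TInc.deg_dv hK f
    unfold TInc.deg at h1
    have h2 := congrArg (fun n : ℤ => (n : k)) h1
    beta_reduce at h2
    rw [Int.cast_zero] at h2
    rw [← h2]
    unfold Finsupp.sum
    push_cast
    refine Finset.sum_congr rfl fun v _ => ?_
    rw [zsmul_eq_mul, mul_one]
  have h1 := evl_ratP hE hz
  rw [evl_apply] at h1
  have h2 : ((z.sum fun _ c => c : ℚ) : k) = 0 := by
    rw [← h1]
    unfold Finsupp.sum
    push_cast
    refine Finset.sum_congr rfl fun v _ => ?_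
    rw [smul_eq_mul, mul_one]
  exact_mod_cast h2

theorem evl_push {W : Type} [AddCommGroup W] [Module k W] (E : (Fin r' → Pt C) → W)
    (γ : Mor X Y →₀ ℚ) (z : (Fin r → Pt C) →₀ ℚ) : evl (k := k) E (pushM γ z) =
      ∑ f ∈ γ.support, (γ f : k) • evl (k := k) (fun x => E (f.app x)) z := by
  unfold pushM
  rw [Finsupp.sum, LinearMap.sum_apply, map_sum]
  refine Finset.sum_congr rfl fun f _ => ?_
  rw [LinearMap.smul_apply, Finsupp.lmapDomain_apply, evl_smul, evl_map]

theorem supp_push (hY : ∀ b, (Y b).Adm) (γ : Mor X Y →₀ ℚ) {z : (Fin r → Pt C) →₀ ℚ}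
    (hz : ∀ x ∈ z.support, OnP X x) : ∀ y ∈ (pushM γ z).support, OnP Y y := by
  unfold pushM
  rw [Finsupp.sum, LinearMap.sum_apply]
  intro y hy
  obtain ⟨f, -, hf⟩ := Finset.mem_biUnion.1 (Finsupp.support_finsetSum hy)
  rw [LinearMap.smul_apply, Finsupp.lmapDomain_apply] at hf
  obtain ⟨x, hx, rfl⟩ := Finset.mem_image.1 (Finsupp.mapDomain_support
    (Finsupp.support_smul hf))
  exact f.app_on hY (hz x hx)

end Pool.Agent.HGP
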