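import Pool.Agent.HGP.KRatA

/-!
# Package HGP-KRatB: the projections

Port of `Pool/Agent/HGFC/KRatB.lean`. The projection of a factor to the fibre product of the components in
`T` is a morphism: `Comp.map a Set.univ id (fun _ => 1) (fun _ _ => 1) (fun _ _ => none)` to
`(X a).res T`, if `T` contains `q`; for the trivial components `q ∉ T` of the image one can take `A = T` and
the section `none` (they are trivial, `m = 0`). So take `A = T`, `π = id`.
-/

set_option autoImplicit false
set_option linter.unusedSectionVars false

noncomputable section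

namespace Pool.Agent.HGP

open Pool.Agent.ZCyc Pool.Agent.Dess Pool.Agent.GT Pool.Agent.TInc Pool.Agent.HGF
open scoped Classical

variable {k : Type} [Field k] [IsAlgClosed k] [CharZero k] {ι : Type} {C : ι → Crv k} {r : ℕ}
  {X : Fin r → Hyp C}

private theorem exists_prjC_KRatB (a : Fin r) (T : Set ℕ) : ∃ f : Comp X ((X a).res T),
    ∀ x, f.app x = (x a).res T := by
  have ht : (((X a).res T).res Tᶜ).OnK (K := (C (X a).i).L)
      (⟨(X a).i, Sum.inl (AlgHom.id k _)⟩, fun _ _ => none) := by
    rw [Hyp.res_res, Set.inter_compl_self]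
    exact onK_res.2 ⟨⟨_, rfl, fun q hq => absurd hq (Set.notMem_empty q)⟩, fun _ _ _ => rfl⟩
  refine ⟨.map a T id (fun _ => 1) (fun _ _ => 1) (fun _ _ => none) ?_ ?_
    (fun _ => Cmp.Sym.one _) (fun _ _ => one_pow _) ht, fun x => ?_⟩
  · rw [Hyp.res_res, Set.inter_self]
    rfl
  · intro q hq
    rw [Hyp.res_m] at hq
    by_cases h : q ∈ T
    · exact ⟨h, fun _ _ h1 => h1⟩
    · rw [if_neg h] at hq
      exact absurd hq zero_ne_one
  · refine Prod.ext rfl (funext fun q => funext fun j => ?_)
    show (if q ∈ T then ((x a).2 q j).map fun w => 1 * w else evp (x a).1 (X a).i none) =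
      if q ∈ T then (x a).2 q j else none
    by_cases h : q ∈ T
    · rw [if_pos h, if_pos h]
      cases (x a).2 q j with
      | none => rfl
      | some y => exact congrArg some (one_mul y)
    · rw [if_neg h, if_neg h]
      unfold evp
      split_ifs with h3
      · exact vlo_none _
      · rfl

/-- the projection to the fibre product of the components in `T` as a morphism from the product of the
`X a` to a variety `Z` with `Z = (X a).res T` -/
theorem exists_prjC (a : Fin r) (T : Set ℕ) : ∃ f : Comp X ((X a).res T),
    ∀ x, (∀ q, (X a).m q = 0 → ∀ j, (x a).2 q j = none) → f.app x = (x a).res T := by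
  obtain ⟨f, hf⟩ := exists_prjC_KRatB (X := X) a T
  exact ⟨f, fun x _ => hf x⟩

private theorem exists_prjM_KRatB (κ : Fin r → Option (Finset ℕ)) {w : Fin r → Pt C}
    (hw : OnP X w) : ∃ f : Mor X (red κ X), ∀ x, f.app x = prj κ w x := by
  have h : ∀ b, ∃ f : Comp X (red κ X b), ∀ x, f.app x = prj κ w x b := by
    intro b
    unfold red prj
    cases κ b with
    | none => exact ⟨.const (w b) (hw b), fun _ => rfl⟩
    | some S => exact exists_prjC_KRatB b (S : Set ℕ)
  choose f hf using h
  exact ⟨f, fun x => funext fun b => hf b x⟩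

/-- the projection as a morphism to the reduced product -/
theorem exists_prjM (κ : Fin r → Option (Finset ℕ)) {w : Fin r → Pt C} (hw : OnP X w) :
    ∃ f : Mor X (red κ X), ∀ x, OnP X x → f.app x = prj κ w x := by
  obtain ⟨f, hf⟩ := exists_prjM_KRatB κ hw
  exact ⟨f, fun x _ => hf x⟩

private theorem red_adm_KRatB (hX : ∀ a, (X a).Adm) (κ : Fin r → Option (Finset ℕ)) :
    ∀ a, (red κ X a).Adm := by
  intro a
  unfold red
  cases κ a with
  | none => exact hX a
  | some S => exact Hyp.res_adm (hX a) _

/-- the class of the projection is a class function -/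
theorem isCFP_prj (hX : ∀ a, (X a).Adm) (κ : Fin r → Option (Finset ℕ)) {w : Fin r → Pt C}
    (hw : OnP X w) : IsCFP X fun x => clsP (red κ X) (prj κ w x) := by
  obtain ⟨f, hf⟩ := exists_prjM_KRatB κ hw
  have h := isCFP_comp (red_adm_KRatB hX κ) isCFP_cls f
  simp only [hf] at h
  exact h

theorem depOn_prj {V : Type} (E : (Fin r → Pt C) → V) (κ : Fin r → Option (Finset ℕ))
    (w : Fin r → Pt C) : DepOn X κ fun x => E (prj κ w x) := by
  intro x x' _ _ h
  refine congrArg E (funext fun b => ?_)
  unfold prj
  cases hb : κ b with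
  | none => rfl
  | some S => exact h b S hb

end Pool.Agent.HGP
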