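import Pool.Agent.HGP.KAlt
import Pool.Agent.HGP.KAltB
import Pool.Agent.HGP.KPatB

/-!
# Package HGP-KRel: the relations for the second fundamental theorem

`P' b = (Y (oJ b), S b, β (oJ b))` are the triples of the factors of `Y` with a level, and `P a` are other
triples (those of the factors of `X`). The `q a` are points of the fibre products of the representatives
`rf (P a)`, and `π b`, `ρ b` are isomorphisms from `rf (P' b)` to `P' b`. For a permutation `τ` which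
preserves the colours and a set `J` of `dcol c + 1` elements of the colour `c` the sum over the
permutations which fix the complement of `J` is zero.

**Proof.** `J` contains an element `b0`, `c = col (P' b0)`, `dcol c = dt (P' b0) = dt (rf (P' b0))`
(`dcol_col`, `dt_eq`, `rf_iso`), and `rf (P' b) = rf (P' b0) = rf (P (τ b))` for `b ∈ J` (`rf_eq`). If the set
`S0` of `rf (P' b0)` is empty: `alt_base` with `i = (Y (oJ b0)).i` (the sets `S b` are empty by `Iso.img`; the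
curves are equal by `Iso.i_eq`; `On.fst`). Otherwise `alt_top` with `(Z, S0, e0) = rf (P' b0)`: the components
are admissible with nontrivial exponents (`Iso.adm`, `Iso.exp_pos`, `Ntr`), and `dt + 1 = ∑ deg + g` because
the degrees are positive (`deg_S_pos`).
-/

set_option autoImplicit false
set_option linter.unusedSectionVars false

noncomputable section

namespace Pool.Agent.HGP

open Pool.Agent.ZCyc Pool.Agent.Dess Pool.Agent.GT Pool.Agent.TInc Pool.Agent.HGF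
open Pool.Agent.ZIso (fixing)
open Pool.Agent.EFC (genus)
open Pool.Agent.EFP (kos)
open scoped Classical

variable {k : Type} [Field k] [IsAlgClosed k] [CharZero k] {ι : Type} {C : ι → Crv k} {r' : ℕ}
  {Y : Fin r' → Hyp C} {W : Type} [AddCommGroup W] [Module k W]
  {T : (Fin r' → Pt C) → W} {κ : Fin r' → Option (Finset ℕ)} {β : Fin r' → ℕ → ℕ → ℕ}

theorem rel_pat (hY : ∀ b, (Y b).Adm) (hT : IsCFP Y T) (hd : DepOn Y κ T)
    (hβ : IsEigL Y κ β T) (hn : Ntr Y κ β) {w0 : Fin r' → Pt C}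
    (h0 : ∀ x, OnP Y x → (∃ b, κ b = some ∅ ∧ (x b).1 = (w0 b).1) → T x = 0)
    (hw0 : ∀ a b, (Y a).i = (Y b).i → (w0 a).1 = (w0 b).1) (hw0' : OnP Y w0) {l : ℕ}
    {oJ : Fin l → Fin r'} (hoJ : Function.Injective oJ) {S : Fin l → Finset ℕ}
    (hS : ∀ b, κ (oJ b) = some (S b)) {P : Fin l → Tri C} {π : Fin l → ℕ → ℕ}
    {ρ : Fin l → ℕ → Equiv.Perm ℕ}
    (h1 : ∀ b, Iso (rf (Y (oJ b), S b, β (oJ b))).1 (Y (oJ b))
      (rf (Y (oJ b), S b, β (oJ b))).2.1 (S b) (rf (Y (oJ b), S b, β (oJ b))).2.2 (β (oJ b))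
      (π b) (ρ b)) {q : Fin l → Pt C}
    (hq : ∀ a, ((rf (P a)).1.res ((rf (P a)).2.1 : Set ℕ)).On (q a))
    {τ : Equiv.Perm (Fin l)} (hτ : ∀ b, col (P (τ b)) = col (Y (oJ b), S b, β (oJ b)))
    {J : Finset (Fin l)} {c : Set (Tri C)} (hJ : ∀ b ∈ J, col (Y (oJ b), S b, β (oJ b)) = c)
    (hc : J.card = dcol c + 1) :
    ∑ p ∈ fixing J, ((Equiv.Perm.sign p : ℤ) : k) •
      ((kos (fun b => (Y (oJ b)).dm (S b)) (τ * p) : ℤ) : k) •
        T (glue oJ w0 fun b => plc (Y (oJ b)) (S b) (π b) (ρ b) (q ((τ * p) b))) = 0 := by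
  have hne : J.Nonempty := by
    rw [← Finset.card_pos, hc]
    exact Nat.succ_pos _
  obtain ⟨b0, hb0⟩ := hne
  obtain ⟨R, hR⟩ : ∃ R : Tri C, R = rf (Y (oJ b0), S b0, β (oJ b0)) := ⟨_, rfl⟩
  -- the representatives
  have hrf : ∀ b ∈ J, rf (Y (oJ b), S b, β (oJ b)) = R := by
    intro b hb
    rw [hR]
    exact rf_eq ((hJ b hb).trans (hJ b0 hb0).symm)
  have hrfτ : ∀ b, rf (P (τ b)) = rf (Y (oJ b), S b, β (oJ b)) := fun b => rf_eq (hτ b)
  have hq' : ∀ b, ((rf (Y (oJ b), S b, β (oJ b))).1.res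
      ((rf (Y (oJ b), S b, β (oJ b))).2.1 : Set ℕ)).On (q (τ b)) := by
    intro b
    rw [← hrfτ b]
    exact hq (τ b)
  have hqR : ∀ b ∈ J, (R.1.res (R.2.1 : Set ℕ)).On (q (τ b)) := by
    intro b hb
    rw [← hrf b hb]
    exact hq' b
  have hiso : ∀ b ∈ J, Iso R.1 (Y (oJ b)) R.2.1 (S b) R.2.2 (β (oJ b)) (π b) (ρ b) := by
    intro b hb
    rw [← hrf b hb]
    exact h1 b
  -- the point
  have hw : OnP Y (glue oJ w0 fun b => plc (Y (oJ b)) (S b) (π b) (ρ b) (q (τ b))) := by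
    intro j
    by_cases hj : ∃ a, oJ a = j
    · obtain ⟨a, rfl⟩ := hj
      rw [glue_apply hoJ]
      exact abv_on (hY _) ((h1 a).on_tr (hq' a))
    · rw [glue_of _ _ fun a ha => hj ⟨a, ha⟩]
      exact hw0' j
  -- the number of the elements of `J`
  have hcR : J.card = dt R + 1 := by
    rw [hc, ← hJ b0 hb0, dcol_col, hR, dt_eq (rf_iso _)]
  have hmul : ∀ p : Equiv.Perm (Fin l), ((Equiv.Perm.sign p : ℤ) : k) •
      ((kos (fun b => (Y (oJ b)).dm (S b)) (τ * p) : ℤ) : k) •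
        T (glue oJ w0 fun b => plc (Y (oJ b)) (S b) (π b) (ρ b) (q ((τ * p) b))) =
      (((Equiv.Perm.sign p : ℤ) : k) *
        ((kos (fun b => (Y (oJ b)).dm (S b)) (τ * p) : ℤ) : k)) •
        T (glue oJ w0 fun b => plc (Y (oJ b)) (S b) (π b) (ρ b) (q ((τ * p) b))) :=
    fun p => smul_smul _ _ _
  rw [Finset.sum_congr rfl fun p _ => hmul p]
  by_cases hS0 : R.2.1 = ∅
  · refine alt_base (X := Y) (κ := κ) hY hT hd h0 hw0 hw0' hoJ hS τ hw (i := R.1.i) (J := J)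
      (fun b hb => ⟨?_, ?_, ?_⟩) ?_
    · have h2 := (hiso b hb).img
      rw [hS0] at h2
      exact Finset.image_eq_empty.1 h2.symm
    · exact (hiso b hb).i_eq.symm
    · exact On.fst (Z := R.1.res (R.2.1 : Set ℕ)) (hqR b hb)
    · rw [hcR]
      unfold dt
      rw [if_pos hS0]
  · have hne0 : R.2.1.Nonempty := Finset.nonempty_iff_ne_empty.2 hS0
    have hadm : ∀ q ∈ R.2.1, (R.1.D q).F.Adm :=
      (hiso b0 hb0).adm fun q hq => (hn (oJ b0) (S b0) (hS b0) q hq).1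
    have hexp : ∀ q ∈ R.2.1, ∀ j < R.1.m q, 0 < R.2.2 q j ∧ R.2.2 q j < R.1.M q j :=
      (hiso b0 hb0).exp_pos fun q hq => (hn (oJ b0) (S b0) (hS b0) q hq).2
    refine alt_top (X := Y) (κ := κ) (β := β) hY hT hd hβ hoJ hS τ hw (Z := R.1)
      (S0 := R.2.1) hne0 hadm (e0 := R.2.2) hexp (J := J)
      (fun b hb => ⟨hiso b hb, hqR b hb⟩) ?_
    have h2 : 0 < ∑ q ∈ R.2.1, TInc.deg (R.1.D q).F.S :=
      Finset.sum_pos (fun q hq => deg_S_pos (hadm q hq)) hne0
    have h3 : 0 ≤ ∑ q ∈ R.2.1, TInc.deg (R.1.D q).F.S + (genus k (C R.1.i).L : ℤ) - 1 := by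
      omega
    rw [hcR, Nat.cast_add, Nat.cast_one]
    unfold dt
    rw [if_neg hS0, Int.toNat_of_nonneg h3]
    omega

end Pool.Agent.HGP
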