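import Pool.Agent.HGP.KCf

/-!
# Package HGP-KSgn: the signs (pure combinatorics)

`sg m T π ρ` is the product over the inversions `q < q'`, `π q' < π q` (`q, q' ∈ T`) of
`(-1) ^ ((m q - 1) (m q' - 1))`, and over `q ∈ T` of the signs of the permutations `ρ q` of
`0, …, m q - 1`.

1. `sg_comp`: the sign of a composition. For the first factor: let `ε(q, q') = (-1) ^ (…)` if the pair is
inverted (`(q - q') (π q - π q') < 0`) and `1` otherwise; this is symmetric in `q, q'`, and
`ε_(π ∘ π')(q, q') = ε_(π')(q, q') ε_π(π' q, π' q')`. The product over the pairs `q < q'` of a symmetric function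
`G` does not change if the pairs are mapped by an injective map: `∏_(q < q', q, q' ∈ T) G (π' q) (π' q') =
∏_(p < p', p, p' ∈ T.image π') G p p'` (map `(q, q')` to `(min (π' q) (π' q'), max …)`, or products over
`Finset.powersetCard 2` or `Sym2`). For the second factor the same with `Finset.range (m q)` and `ρ' q`.
2. `sg_aut`: the sign of an automorphism is `sign h * sign g`. Both `Equiv.Perm.sign` are products over
inversions (for permutations of a linearly ordered finite type, here `T` and the lexicographic order of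
`Ix`; for `Fin n`: `Equiv.Perm.sign_eq_prod_prod_Iio` or `EFP/` files, search `kos`). The pair `q < q'`,
inverted by `g`, gives `m q * m q'` inversions of `h` and one of `g`; the pairs `(q, j) < (q, j')` give
the sign of `ρ q`. So it remains that `∏_(q < q' inverted) (-1) ^ (m q + m q') = 1`: this is
`∏_q (-1) ^ (m q * i(q))`, where `i(q)` is the number of the `q'` such that the pair `{q, q'}` is inverted, and
`i(q) ≡ rank(g q) - rank(q)` modulo 2, where `rank(q)` is the number of the elements of `T` which are `< q`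
(if `x` is the number of `q' < q` with `g q' > g q` then `rank(q) - x` is the number of the `q' < q` with
`g q' < g q`, and the number of `q' > q` with `g q' < g q` is `rank(g q) - rank(q) + x`); and
`∏_q (-1) ^ (m q * rank(q)) = ∏_q (-1) ^ (m (g q) * rank(g q)) = ∏_q (-1) ^ (m q * rank(g q))`.
Alternative for 2: by `sg_comp` both sides are homomorphisms on the group of the automorphisms, which is
generated by transpositions of two coordinates of one component and by exchanges of two components.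
-/

set_option autoImplicit false
set_option linter.unusedSectionVars false

noncomputable section

namespace Pool.Agent.HGP

open scoped Classical

/-! ### Products over pairs -/

/-- the product of a symmetric function over the pairs of different elements of `T` -/
def pp (T : Finset ℕ) (G : ℕ → ℕ → ℤ) : ℤ := ∏ q ∈ T, ∏ q' ∈ T, if q < q' then G q q' else 1

theorem pp_congr {T : Finset ℕ} {G G' : ℕ → ℕ → ℤ}
    (h : ∀ q ∈ T, ∀ q' ∈ T, q < q' → G q q' = G' q q') : pp T G = pp T G' := by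
  unfold pp
  refine Finset.prod_congr rfl fun q hq => Finset.prod_congr rfl fun q' hq' => ?_
  split_ifs with h1
  · exact h q hq q' hq' h1
  · rfl

theorem pp_mul (T : Finset ℕ) (G G' : ℕ → ℕ → ℤ) :
    pp T (fun q q' => G q q' * G' q q') = pp T G * pp T G' := by
  unfold pp
  rw [← Finset.prod_mul_distrib]
  refine Finset.prod_congr rfl fun q hq => ?_
  rw [← Finset.prod_mul_distrib]
  refine Finset.prod_congr rfl fun q' hq' => ?_
  split_ifs with h1
  · rfl
  · simp

theorem pp_one (T : Finset ℕ) : pp T (fun _ _ => 1) = 1 := by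
  simp [pp]

theorem pp_insert {T : Finset ℕ} {a : ℕ} (ha : a ∉ T) {G : ℕ → ℕ → ℤ}
    (hG : ∀ q q', G q q' = G q' q) : pp (insert a T) G = (∏ q ∈ T, G a q) * pp T G := by
  have h1 : ∀ q ∈ T, (if q < a then G q a else 1) * (if a < q then G a q else 1) = G a q := by
    intro q hq
    have h2 : q ≠ a := fun h => ha (h ▸ hq)
    rcases lt_or_gt_of_ne h2 with h3 | h3
    · rw [if_pos h3, if_neg (not_lt.2 h3.le), mul_one, hG]
    · rw [if_neg (not_lt.2 h3.le), if_pos h3, one_mul]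
  unfold pp
  rw [Finset.prod_insert ha, Finset.prod_insert ha]
  rw [if_neg (lt_irrefl a), one_mul]
  rw [Finset.prod_congr rfl fun q (hq : q ∈ T) => Finset.prod_insert ha]
  rw [Finset.prod_mul_distrib, ← mul_assoc, ← Finset.prod_mul_distrib]
  congr 1
  refine Finset.prod_congr rfl fun q hq => ?_
  rw [mul_comm]
  exact h1 q hq

theorem pp_image {T : Finset ℕ} {π : ℕ → ℕ} (hπ : Set.InjOn π (T : Set ℕ)) {G : ℕ → ℕ → ℤ}
    (hG : ∀ q q', G q q' = G q' q) :
    pp T (fun q q' => G (π q) (π q')) = pp (T.image π) G := by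
  induction T using Finset.induction_on with
  | empty => simp [pp]
  | insert a T ha ih =>
    have h1 : Set.InjOn π (T : Set ℕ) := hπ.mono (by simp)
    have h2 : π a ∉ T.image π := by
      intro h
      obtain ⟨b, hb, hb'⟩ := Finset.mem_image.1 h
      have := hπ (by simp [hb]) (by simp) hb'
      exact ha (this ▸ hb)
    rw [pp_insert ha (G := fun q q' => G (π q) (π q')) fun q q' => hG _ _, Finset.image_insert,
      pp_insert h2 hG, ih h1, Finset.prod_image fun x hx y hy h => h1 hx hy h]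

/-- `-1` if the pair is inverted -/
def iv (π : ℕ → ℕ) (q q' : ℕ) : ℤ :=
  if (q < q' ∧ π q' < π q) ∨ (q' < q ∧ π q < π q') then -1 else 1

theorem iv_symm (π : ℕ → ℕ) (q q' : ℕ) : iv π q q' = iv π q' q := by
  unfold iv
  exact if_congr or_comm rfl rfl

theorem iv_sq (π : ℕ → ℕ) (q q' : ℕ) : iv π q q' * iv π q q' = 1 := by
  unfold iv
  split_ifs <;> simp

theorem iv_comp {π π' : ℕ → ℕ} {q q' : ℕ} (h : π' q ≠ π' q') (h' : π (π' q) ≠ π (π' q')) (hq : q ≠ q') :
    iv (fun q => π (π' q)) q q' = iv π' q q' * iv π (π' q) (π' q') := by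
  unfold iv
  dsimp only
  rcases lt_or_gt_of_ne hq with h1 | h1 <;> rcases lt_or_gt_of_ne h with h2 | h2 <;>
    rcases lt_or_gt_of_ne h' with h3 | h3 <;>
    simp [h1, h2, h3, not_lt.2 h1.le, not_lt.2 h2.le, not_lt.2 h3.le]

theorem sg_eq (m : ℕ → ℕ) (T : Finset ℕ) (π : ℕ → ℕ) (ρ : ℕ → Equiv.Perm ℕ) :
    sg m T π ρ = pp T (fun q q' => iv π q q' ^ ((m q - 1) * (m q' - 1))) *
      ∏ q ∈ T, pp (Finset.range (m q)) (iv (ρ q)) := by
  unfold sg pp
  congr 1
  · refine Finset.prod_congr rfl fun q hq => ?_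
    rw [Finset.prod_filter]
    refine Finset.prod_congr rfl fun q' hq' => ?_
    by_cases h : q < q'
    · simp only [h, true_and, if_true, iv]
      by_cases h' : π q' < π q
      · simp [h']
      · simp [h', not_lt.2 h.le]
    · simp [h]
  · refine Finset.prod_congr rfl fun q hq => ?_
    refine Finset.prod_congr rfl fun j hj => ?_
    rw [Finset.prod_filter]
    refine Finset.prod_congr rfl fun j' hj' => ?_
    by_cases h : j < j'
    · simp only [h, true_and, if_true, iv]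
      by_cases h' : ρ q j' < ρ q j
      · simp [h']
      · simp [h', not_lt.2 h.le]
    · simp [h]

theorem pp_sq {T : Finset ℕ} {G : ℕ → ℕ → ℤ} (h : ∀ q q', G q q' * G q q' = 1) :
    pp T G * pp T G = 1 := by
  rw [← pp_mul, pp_congr (G' := fun _ _ => 1) fun q _ q' _ _ => h q q', pp_one]

theorem sg_sq (m : ℕ → ℕ) (T : Finset ℕ) (π : ℕ → ℕ) (ρ : ℕ → Equiv.Perm ℕ) :
    sg m T π ρ * sg m T π ρ = 1 := by
  rw [sg_eq, mul_mul_mul_comm, pp_sq, one_mul, ← Finset.prod_mul_distrib]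
  · exact Finset.prod_eq_one fun q _ => pp_sq fun j j' => iv_sq _ _ _
  · intro q q'
    rw [← mul_pow, iv_sq, one_pow]

theorem sg_congr {m m' : ℕ → ℕ} {T : Finset ℕ} {π π' : ℕ → ℕ} {ρ ρ' : ℕ → Equiv.Perm ℕ}
    (hm : ∀ q ∈ T, m q = m' q) (hπ : ∀ q ∈ T, π q = π' q)
    (hρ : ∀ q ∈ T, ∀ j < m q, ρ q j = ρ' q j) : sg m T π ρ = sg m' T π' ρ' := by
  rw [sg_eq, sg_eq]
  congr 1
  · refine pp_congr fun q hq q' hq' _ => ?_
    unfold iv
    rw [hm q hq, hm q' hq', hπ q hq, hπ q' hq']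
  · refine Finset.prod_congr rfl fun q hq => ?_
    rw [← hm q hq]
    refine pp_congr fun j hj j' hj' _ => ?_
    unfold iv
    rw [hρ q hq j (Finset.mem_range.1 hj), hρ q hq j' (Finset.mem_range.1 hj')]

theorem pp_iv_id (T : Finset ℕ) (w : ℕ → ℕ → ℕ) : pp T (fun q q' => iv id q q' ^ w q q') = 1 := by
  rw [pp_congr (G' := fun _ _ => 1), pp_one]
  intro q _ q' _ h
  unfold iv
  simp only [id]
  rw [if_neg, one_pow]
  omega

theorem sg_one (m : ℕ → ℕ) (T : Finset ℕ) : sg m T id (fun _ => 1) = 1 := by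
  rw [sg_eq, pp_iv_id, one_mul]
  refine Finset.prod_eq_one fun q _ => ?_
  have := pp_iv_id (Finset.range (m q)) fun _ _ => 1
  simpa using this

theorem image_perm {n : ℕ} {ρ : Equiv.Perm ℕ} (h : ∀ j, n ≤ j → ρ j = j) :
    (Finset.range n).image ρ = Finset.range n := by
  have h1 : (Finset.range n).image ρ ⊆ Finset.range n := by
    intro x hx
    obtain ⟨j, hj, rfl⟩ := Finset.mem_image.1 hx
    rw [Finset.mem_range] at hj ⊢
    by_contra hc
    have h2 := h (ρ j) (not_lt.1 hc)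
    have h3 := ρ.injective h2
    omega
  exact Finset.eq_of_subset_of_card_le h1 (by rw [Finset.card_image_of_injective _ ρ.injective])

/-- the sign of a composition: first `π`, `ρ` (from `T.image π'`), then `π'`, `ρ'` -/
theorem sg_comp {m m' : ℕ → ℕ} {T : Finset ℕ} {π π' : ℕ → ℕ} {ρ ρ' : ℕ → Equiv.Perm ℕ}
    (hπ' : Set.InjOn π' (T : Set ℕ)) (hπ : Set.InjOn π (π' '' (T : Set ℕ)))
    (hm : ∀ q ∈ T, m' (π' q) = m q) (hρ' : ∀ q ∈ T, ∀ j, m q ≤ j → ρ' q j = j)
    (hρ : ∀ q ∈ T, ∀ j, m q ≤ j → ρ (π' q) j = j) :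
    sg m T (fun q => π (π' q)) (fun q => (ρ' q).trans (ρ (π' q))) =
      sg m T π' ρ' * sg m' (T.image π') π ρ := by
  rw [sg_eq, sg_eq, sg_eq, mul_mul_mul_comm]
  congr 1
  · rw [← pp_image (G := fun q q' => iv π q q' ^ ((m' q - 1) * (m' q' - 1))) hπ', ← pp_mul]
    · refine pp_congr fun q hq q' hq' h => ?_
      rw [hm q hq, hm q' hq', ← mul_pow, ← iv_comp]
      · exact fun h1 => h.ne (hπ' hq hq' h1)
      · exact fun h1 => h.ne (hπ' hq hq' (hπ ⟨q, hq, rfl⟩ ⟨q', hq', rfl⟩ h1))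
      · exact h.ne
    · intro q q'
      rw [iv_symm, mul_comm]
  · rw [Finset.prod_image fun x hx y hy h => hπ' hx hy h, ← Finset.prod_mul_distrib]
    refine Finset.prod_congr rfl fun q hq => ?_
    rw [hm q hq]
    nth_rw 3 [← image_perm (hρ' q hq)]
    rw [← pp_image (ρ' q).injective.injOn (iv_symm _), ← pp_mul]
    refine pp_congr fun j hj j' hj' h => ?_
    rw [← iv_comp]
    · rfl
    · exact fun h1 => h.ne ((ρ' q).injective h1)
    · exact fun h1 => h.ne ((ρ' q).injective ((ρ (π' q)).injective h1))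
    · exact h.ne

/-! ### `Equiv.Perm.sign` -/

theorem sign_key {α β : Type*} [Fintype α] [DecidableEq α] [LinearOrder β] (κ : α → β)
    (hκ : Function.Injective κ) (σ : Equiv.Perm α) :
    ((Equiv.Perm.sign σ : ℤˣ) : ℤ) =
      ∏ i, ∏ j, if κ i < κ j ∧ κ (σ j) < κ (σ i) then (-1 : ℤ) else 1 := by
  let L : LinearOrder α := LinearOrder.lift' κ hκ
  let e : α ≃o Fin (Fintype.card α) := (@Fintype.orderIsoFinOfCardEq α L _ _ rfl).symm
  have he : ∀ i j, e i < e j ↔ κ i < κ j := fun i j => e.lt_iff_lt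
  have h0 : Equiv.Perm.sign σ = Equiv.Perm.sign ((e.toEquiv.symm.trans σ).trans e.toEquiv) := by
    convert (Equiv.Perm.sign_symm_trans_trans σ e.toEquiv).symm
  rw [h0, Equiv.Perm.sign_eq_prod_prod_Ioi]
  push_cast
  rw [← Equiv.prod_comp e.toEquiv]
  refine Finset.prod_congr rfl fun i _ => ?_
  rw [← Finset.filter_lt_eq_Ioi, Finset.prod_filter, ← Equiv.prod_comp e.toEquiv]
  refine Finset.prod_congr rfl fun j _ => ?_
  have h1 : e i < e j ↔ κ i < κ j := he i j
  have h2 : e (σ j) < e (σ i) ↔ κ (σ j) < κ (σ i) := he _ _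
  have h4 : (e.toEquiv i < e.toEquiv j) = (κ i < κ j) := propext h1
  by_cases h : κ i < κ j
  · have h3 : e (σ i) ≠ e (σ j) := by
      intro h3
      have := σ.injective (e.injective h3)
      exact h.ne (congrArg κ this)
    simp only [h4, h, if_true, true_and]
    by_cases h' : κ (σ j) < κ (σ i)
    · have h5 : ¬ (e (σ i) < e (σ j)) := not_lt.2 (h2.2 h').le
      simp [h', h5]
    · have h5 : e (σ i) < e (σ j) := lt_of_le_of_ne (not_lt.1 fun h6 => h' (h2.1 h6)) h3
      simp [h', h5]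
  · rw [if_neg (show ¬ (e.toEquiv i < e.toEquiv j) from fun h5 => h (h1.1 h5)),
      if_neg fun h5 => h h5.1]

theorem sign_fin {T : Finset ℕ} {π : ℕ → ℕ} {g : Equiv.Perm T} (hg : ∀ q, (g q : ℕ) = π q) :
    ((Equiv.Perm.sign g : ℤˣ) : ℤ) = pp T (iv π) := by
  rw [sign_key (fun q : T => (q : ℕ)) Subtype.val_injective g]
  unfold pp
  rw [← Finset.prod_coe_sort T]
  refine Finset.prod_congr rfl fun q _ => ?_
  rw [← Finset.prod_coe_sort T]
  refine Finset.prod_congr rfl fun q' _ => ?_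
  simp only [hg, iv]
  by_cases h : (q : ℕ) < q'
  · simp [h, not_lt.2 h.le]
  · simp [h]

theorem sign_ix {m : ℕ → ℕ} {T : Finset ℕ} {π : ℕ → ℕ} {ρ : ℕ → Equiv.Perm ℕ}
    {h : Equiv.Perm (Ix fun q : T => m q)} (hπ : Set.InjOn π (T : Set ℕ))
    (hh : ∀ x, ((h x).1 : ℕ) = π x.1)
    (hh' : ∀ x, ((h x).2 : ℕ) = ρ x.1 x.2) :
    ((Equiv.Perm.sign h : ℤˣ) : ℤ) = pp T (fun q q' => iv π q q' ^ (m q * m q')) *
      ∏ q ∈ T, pp (Finset.range (m q)) (iv (ρ q)) := by
  have hinj : Function.Injective fun x : Ix (fun q : T => m q) =>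
      (toLex ((x.1 : ℕ), (x.2 : ℕ)) : ℕ ×ₗ ℕ) := by
    rintro ⟨q, j⟩ ⟨q', j'⟩ hx
    have h1 := congrArg ofLex hx
    simp only [ofLex_toLex, Prod.mk.injEq] at h1
    obtain ⟨h1, h2⟩ := h1
    obtain rfl := Subtype.ext h1
    obtain rfl := Fin.ext h2
    rfl
  rw [sign_key _ hinj h, Fintype.prod_sigma]
  unfold pp
  rw [← Finset.prod_coe_sort T, ← Finset.prod_coe_sort T, ← Finset.prod_mul_distrib]
  refine Finset.prod_congr rfl fun q _ => ?_
  simp_rw [Fintype.prod_sigma]
  rw [Finset.prod_comm, ← Finset.prod_coe_sort T]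
  have key : ∀ q' : T, (∏ j : Fin (m q), ∏ j' : Fin (m q'),
      if (toLex ((q : ℕ), (j : ℕ)) : ℕ ×ₗ ℕ) < toLex ((q' : ℕ), (j' : ℕ)) ∧
        (toLex (((h ⟨q', j'⟩).1 : ℕ), ((h ⟨q', j'⟩).2 : ℕ)) : ℕ ×ₗ ℕ) <
          toLex (((h ⟨q, j⟩).1 : ℕ), ((h ⟨q, j⟩).2 : ℕ)) then (-1 : ℤ) else 1) =
      (if (q : ℕ) < q' then iv π q q' ^ (m q * m q') else 1) *
        if q = q' then ∏ j ∈ Finset.range (m q), ∏ j' ∈ Finset.range (m q),
          (if j < j' then iv (ρ q) j j' else 1) else 1 := by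
    intro q'
    simp only [hh, hh', Prod.Lex.toLex_lt_toLex]
    by_cases hq : q = q'
    · subst hq
      rw [if_neg (lt_irrefl _), if_pos rfl, one_mul, Finset.prod_range]
      refine Finset.prod_congr rfl fun j _ => ?_
      rw [Finset.prod_range]
      refine Finset.prod_congr rfl fun j' _ => ?_
      unfold iv
      by_cases h1 : (j : ℕ) < j'
      · simp [h1, not_lt.2 h1.le]
      · simp [h1]
    · have hq' : (q : ℕ) ≠ q' := fun h1 => hq (Subtype.ext h1)
      have hq'' : π q ≠ π q' := fun h1 => hq' (hπ q.2 q'.2 h1)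
      rw [if_neg hq, mul_one]
      by_cases h1 : (q : ℕ) < q'
      · simp only [h1, hq', hq''.symm, false_and, or_false, true_and, if_true]
        unfold iv
        by_cases h2 : π q' < π q
        · simp only [h1, h2, and_self, true_or, if_true, Finset.prod_const, Finset.card_univ,
            Fintype.card_fin]
          rw [← pow_mul, mul_comm]
        · simp [h2, not_lt.2 h1.le]
      · simp [h1, hq']
  rw [Finset.prod_congr rfl fun q' _ => key q', Finset.prod_mul_distrib]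
  congr 1
  rw [Finset.prod_ite_eq Finset.univ q, if_pos (Finset.mem_univ q)]

/-! ### The sign of an automorphism -/

/-- the sign of the difference `b - a` -/
def ep (a b : ℕ) : ℤ := if b < a then -1 else 1

theorem ep_sq (a b : ℕ) : ep a b * ep a b = 1 := by
  unfold ep
  split_ifs <;> simp

theorem iv_eq_ep {π : ℕ → ℕ} {q q' : ℕ} (h : π q = π q' → q = q') :
    iv π q q' = ep q q' * ep (π q) (π q') := by
  unfold iv ep
  rcases lt_trichotomy q q' with h1 | rfl | h1
  · rcases lt_or_gt_of_ne fun h2 => h1.ne (h h2) with h2 | h2 <;> simp [h1, h2, not_lt.2 h1.le, not_lt.2 h2.le]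
  · simp
  · rcases lt_or_gt_of_ne fun h2 => h1.ne' (h h2) with h2 | h2 <;> simp [h1, h2, not_lt.2 h1.le, not_lt.2 h2.le]

theorem pp_rank {m : ℕ → ℕ} {T : Finset ℕ} {π : ℕ → ℕ} (hπ : Set.InjOn π (T : Set ℕ))
    (hT : T.image π = T) (hm : ∀ q ∈ T, m (π q) = m q) :
    pp T (fun q q' => iv π q q' ^ (m q + m q')) = 1 := by
  have h1 : pp T (fun q q' => iv π q q' ^ (m q + m q')) =
      ∏ q ∈ T, (∏ q' ∈ T, iv π q q') ^ m q := by
    rw [pp_congr (G' := fun q q' => iv π q q' ^ m q * iv π q' q ^ m q') fun q _ q' _ _ => by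
      rw [pow_add, iv_symm π q' q], pp_mul]
    unfold pp
    rw [Finset.prod_comm (f := fun q q' => if q < q' then iv π q' q ^ m q' else 1),
      ← Finset.prod_mul_distrib]
    refine Finset.prod_congr rfl fun q hq => ?_
    rw [← Finset.prod_mul_distrib, ← Finset.prod_pow]
    refine Finset.prod_congr rfl fun q' hq' => ?_
    rcases lt_trichotomy q q' with h1 | rfl | h1
    · simp [h1, not_lt.2 h1.le]
    · simp [iv]
    · simp [h1, not_lt.2 h1.le]
  have h2 : ∀ q ∈ T, ∏ q' ∈ T, iv π q q' = (∏ q' ∈ T, ep q q') * ∏ q' ∈ T, ep (π q) q' := by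
    intro q hq
    rw [Finset.prod_congr rfl fun q' (hq' : q' ∈ T) => iv_eq_ep fun h => hπ hq hq' h,
      Finset.prod_mul_distrib]
    congr 1
    nth_rw 2 [← hT]
    rw [Finset.prod_image fun x hx y hy h => hπ hx hy h]
  rw [h1, Finset.prod_congr rfl fun q hq => by rw [h2 q hq, mul_pow, ← hm q hq],
    Finset.prod_mul_distrib]
  have h3 : ∏ q ∈ T, (∏ q' ∈ T, ep q q') ^ m (π q) = ∏ q ∈ T, (∏ q' ∈ T, ep q q') ^ m q :=
    Finset.prod_congr rfl fun q hq => by rw [hm q hq]
  have h4 : ∏ q ∈ T, (∏ q' ∈ T, ep (π q) q') ^ m (π q) = ∏ q ∈ T, (∏ q' ∈ T, ep q q') ^ m q := by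
    conv_rhs => rw [← hT]
    rw [Finset.prod_image fun x hx y hy h => hπ hx hy h, hT]
  rw [h3, h4, ← Finset.prod_mul_distrib]
  refine Finset.prod_eq_one fun q _ => ?_
  rw [← mul_pow, ← Finset.prod_mul_distrib, Finset.prod_eq_one fun q' _ => ep_sq _ _, one_pow]

/-- the sign of an automorphism (false without `h0`: `m = 0` and a swap) -/
theorem sg_aut {m : ℕ → ℕ} {T : Finset ℕ} {π : ℕ → ℕ} {ρ : ℕ → Equiv.Perm ℕ}
    {h : Equiv.Perm (Ix fun q : T => m q)} {g : Equiv.Perm T} (hg : ∀ q, (g q : ℕ) = π q)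
    (hm : ∀ q ∈ T, m (π q) = m q) (hh : ∀ x, ((h x).1 : ℕ) = π x.1)
    (hh' : ∀ x, ((h x).2 : ℕ) = ρ x.1 x.2) (hρ : ∀ q ∈ T, ∀ j, m q ≤ j → ρ q j = j)
    (h0 : ∀ q ∈ T, 0 < m q) :
    sg m T π ρ = (Equiv.Perm.sign h : ℤ) * (Equiv.Perm.sign g : ℤ) := by
  have hπ : Set.InjOn π (T : Set ℕ) := by
    intro q hq q' hq' hqq
    have h1 : g ⟨q, hq⟩ = g ⟨q', hq'⟩ := Subtype.ext (by rw [hg, hg]; exact hqq)
    exact congrArg Subtype.val (g.injective h1)
  have hT : T.image π = T := by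
    refine Finset.eq_of_subset_of_card_le ?_ (by rw [Finset.card_image_of_injOn hπ])
    intro x hx
    obtain ⟨q, hq, rfl⟩ := Finset.mem_image.1 hx
    rw [← hg ⟨q, hq⟩]
    exact (g ⟨q, hq⟩).2
  rw [sg_eq, sign_ix hπ hh hh', sign_fin hg, mul_right_comm]
  congr 1
  rw [← pp_mul, ← mul_one (pp T _), ← pp_rank hπ hT hm, ← pp_mul]
  refine pp_congr fun q hq q' hq' _ => ?_
  obtain ⟨a, ha⟩ : ∃ a, m q = a + 1 := ⟨m q - 1, by have := h0 q hq; omega⟩
  obtain ⟨b, hb⟩ : ∃ b, m q' = b + 1 := ⟨m q' - 1, by have := h0 q' hq'; omega⟩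
  rw [ha, hb, Nat.add_sub_cancel, Nat.add_sub_cancel, ← pow_add, ← pow_succ]
  have h5 : (a + 1) * (b + 1) + 1 = a * b + (a + 1 + (b + 1)) := by ring
  rw [h5]

end Pool.Agent.HGP
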