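import Pool.Agent.HGP.KPatB
import Pool.Agent.HGP.KAut

/-!
# Package HGP-KVal: the value of `T` at the image of a point

The analogue of `base_KSum` in `Pool/Agent/HGFC/KSumB.lean`. `f` is a morphism with the pattern `φ` and the
permutation `τ`. The components in the level of `Y (oJ b)` are isomorphic to the reference `R b`
(`π b`, `ρ b`), and those of `X (oI a)` to the reference `R' a` (`π' a`, `ρ' a`), `R' (τ b) = R b`. Up to the
roots of unity and the signs, `T (f.app x)` is the value of `T` at the point whose factors `oJ b` are given by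
`x (oI (τ b))` and the composition of the isomorphisms.

**Proof.** (1) Let `z` be the point `glue oJ w fun b => plc (Y (oJ b)) (S b) (f (oJ b)).pi (f (oJ b)).rho (x
(oI (τ b)))`. It lies on the product (`Comp.pulls_iff` gives the `Iso`; `onK_tr`, `abv_on`), and
`T (f.app x) = rtS … • T z` by `eigL_mul` (`Comp.app_res`, `abv_res`). (2) Both `z` and the point `y` in the
statement are given by isomorphisms from `X (oI (τ b))` to `Y (oJ b)` (`Iso.trans`, `tr_tr`), which differ by an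
automorphism `α b`, `σ b` (`Iso.exists_aut`), and `T z = (∏ b, sg … (α b) (σ b)) • T y` by `auts`. (3)
`sg f = sg α * (sg π * sg π')` (`Iso.sg_trans`, `sg_congr`, `sg_sq`), and the product of the `sg (π' (τ b))` is
the product of the `sg (π' a)`.
-/

set_option autoImplicit false
set_option linter.unusedSectionVars false

noncomputable section

namespace Pool.Agent.HGP

open Pool.Agent.ZCyc Pool.Agent.Dess Pool.Agent.GT Pool.Agent.TInc Pool.Agent.HGF
open scoped Classical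

variable {k : Type} [Field k] [IsAlgClosed k] [CharZero k] {ι : Type} {C : ι → Crv k} {r r' : ℕ}
  {X : Fin r → Hyp C} {Y : Fin r' → Hyp C} {W : Type} [AddCommGroup W] [Module k W]
  {T : (Fin r' → Pt C) → W} {κ : Fin r' → Option (Finset ℕ)} {β : Fin r' → ℕ → ℕ → ℕ}
  {φ : Fin r → Option (Finset ℕ × (ℕ → ℕ → ℕ))}

omit [IsAlgClosed k] [CharZero k] in
private theorem res_mulc_KVal (ζ : ℕ → ℕ → k) (p : Pt C) (S : Set ℕ) :
    Pt.res (mulc ζ p) S = Pt.res (mulc ζ (Pt.res p S)) S := by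
  refine Prod.ext rfl (funext fun q => funext fun j => ?_)
  by_cases hq : q ∈ S
  · simp [Pt.res, mulc, hq]
  · simp [Pt.res, hq]

theorem val_pat (hX : ∀ a, (X a).Adm) (hY : ∀ b, (Y b).Adm) (hT : IsCFP Y T)
    (hd : DepOn Y κ T) (hβ : IsEigL Y κ β T) (hn : Ntr Y κ β) {f : Mor X Y}
    (hf : Pat f κ β φ) {l : ℕ} {oI : Fin l → Fin r} {oJ : Fin l → Fin r'}
    (hoJ : Function.Injective oJ) (hJ : ∀ b, κ b ≠ none → ∃ i, oJ i = b)
    {S : Fin l → Finset ℕ} (hS : ∀ b, κ (oJ b) = some (S b)) {S' : Fin l → Finset ℕ}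
    {e' : Fin l → ℕ → ℕ → ℕ} (hφ : ∀ a, φ (oI a) = some (S' a, e' a))
    {τ : Equiv.Perm (Fin l)} (hτ : ∀ b, (f (oJ b)).src = some (oI (τ b)))
    {R R' : Fin l → Tri C} (hR : ∀ b, R' (τ b) = R b) {π π' : Fin l → ℕ → ℕ}
    {ρ ρ' : Fin l → ℕ → Equiv.Perm ℕ}
    (h1 : ∀ b, Iso (R b).1 (Y (oJ b)) (R b).2.1 (S b) (R b).2.2 (β (oJ b)) (π b) (ρ b))
    (h2 : ∀ a, Iso (X (oI a)) (R' a).1 (S' a) (R' a).2.1 (e' a) (R' a).2.2 (π' a) (ρ' a))
    {x : Fin r → Pt C} (hx : OnP X x) {w : Fin r' → Pt C} (hw : OnP Y w) :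
    T (f.app x) = ((∏ b, sg (Y (oJ b)).m (S b) (f (oJ b)).pi (f (oJ b)).rho) *
      ((∏ b, sg (Y (oJ b)).m (S b) (π b) (ρ b)) *
        ∏ a, sg (R' a).1.m (R' a).2.1 (π' a) (ρ' a))) • rtS Y κ β (fun b => (f b).zet) •
      T (glue oJ w fun b => plc (Y (oJ b)) (S b) (π b) (ρ b)
        (tr ((R' (τ b)).2.1 : Set ℕ) (π' (τ b)) (ρ' (τ b)) (x (oI (τ b))))) := by
  have hB : ∀ b, (f (oJ b)).Inj (S b) ∧ Iso (X (oI (τ b))) (Y (oJ b)) (S' (τ b)) (S b) (e' (τ b))
      (β (oJ b)) (f (oJ b)).pi (f (oJ b)).rho := by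
    intro b
    obtain ⟨a, S'', e'', h3, h4⟩ := hf.1 (oJ b) (S b) (hS b)
    obtain ⟨h5, -, h6, h7, -⟩ := Comp.pulls_iff.1 h3
    rw [hτ b, Option.some.injEq] at h5
    subst h5
    rw [hφ (τ b), Option.some.injEq, Prod.mk.injEq] at h4
    obtain ⟨rfl, rfl⟩ := h4
    exact ⟨h6, h7⟩
  have h1' : ∀ b, Iso (R' (τ b)).1 (Y (oJ b)) (R' (τ b)).2.1 (S b) (R' (τ b)).2.2 (β (oJ b))
      (π b) (ρ b) := by
    intro b
    rw [hR b]
    exact h1 b
  have hG : ∀ b, Iso (X (oI (τ b))) (Y (oJ b)) (S' (τ b)) (S b) (e' (τ b)) (β (oJ b))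
      (fun q => π' (τ b) (π b q)) (fun q => (ρ b q).trans (ρ' (τ b) (π b q))) :=
    fun b => (h2 (τ b)).trans (h1' b)
  choose α σ hα hα1 hα2 using fun b => (hB b).2.exists_aut (hG b)
  obtain ⟨pF, hpF⟩ : ∃ pF : Fin l → Pt C, ∀ b, pF b =
      tr (S b : Set ℕ) (f (oJ b)).pi (f (oJ b)).rho (x (oI (τ b))) := ⟨_, fun _ => rfl⟩
  obtain ⟨pG, hpG⟩ : ∃ pG : Fin l → Pt C, ∀ b, pG b =
      tr (S b : Set ℕ) (π b) (ρ b) (tr ((R' (τ b)).2.1 : Set ℕ) (π' (τ b)) (ρ' (τ b))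
        (x (oI (τ b)))) := ⟨_, fun _ => rfl⟩
  have hpG' : ∀ b, pG b = tr (S b : Set ℕ) (fun q => π' (τ b) (π b q))
      (fun q => (ρ b q).trans (ρ' (τ b) (π b q))) (x (oI (τ b))) := by
    intro b
    rw [hpG b]
    exact tr_tr _ fun q hq => (h1' b).mem hq
  have onF : ∀ b, ((Y (oJ b)).res (S b : Set ℕ)).On (pF b) := by
    intro b
    rw [hpF b]
    exact on_tr (hB b).2.sel (hB b).2.sym (hx _)
  have onG : ∀ b, ((Y (oJ b)).res (S b : Set ℕ)).On (pG b) := by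
    intro b
    rw [hpG' b]
    exact on_tr (hG b).sel (hG b).sym (hx _)
  have key : ∀ b, pF b = tr (S b : Set ℕ) (α b) (σ b) (pG b) := by
    intro b
    rw [hpG' b, tr_tr _ fun q hq => (hα b).mem hq, hpF b]
    exact tr_congr _ (hα1 b) (hα2 b)
  obtain ⟨zz, hzz⟩ : ∃ zz : Fin r' → Pt C, zz = glue oJ w fun b =>
      abv (Y (oJ b)) (S b : Set ℕ) (pF b) := ⟨_, rfl⟩
  obtain ⟨yy, hyy⟩ : ∃ yy : Fin r' → Pt C, yy = glue oJ w fun b =>
      abv (Y (oJ b)) (S b : Set ℕ) (pG b) := ⟨_, rfl⟩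
  have hz : OnP Y zz := by
    rw [hzz]
    exact onP_glue hoJ hw fun b => abv_on (hY _) (onF b)
  have hy : OnP Y yy := by
    rw [hyy]
    exact onP_glue hoJ hw fun b => abv_on (hY _) (onG b)
  have ez : ∀ i, (zz (oJ i)).res (S i : Set ℕ) = pF i := by
    intro i
    rw [hzz, glue_apply hoJ]
    exact abv_res (hY _) (onF i)
  have ey : ∀ i, (yy (oJ i)).res (S i : Set ℕ) = pG i := by
    intro i
    rw [hyy, glue_apply hoJ]
    exact abv_res (hY _) (onG i)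
  have hgl : (glue oJ w fun b => plc (Y (oJ b)) (S b) (π b) (ρ b)
        (tr ((R' (τ b)).2.1 : Set ℕ) (π' (τ b)) (ρ' (τ b)) (x (oI (τ b))))) = yy := by
    rw [hyy]
    congr 1
    funext b
    rw [hpG b]
    rfl
  rw [hgl]
  have step1 : T (f.app x) = rtS Y κ β (fun b => (f b).zet) • T zz := by
    refine eigL_mul hβ hd (fun b q i => (f b).zet_pow q i) hz (f.app_on hY hx)
      fun b S0 hb => ?_
    obtain ⟨i, rfl⟩ := hJ b (by rw [hb]; exact Option.some_ne_none _)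
    rw [hS i, Option.some.injEq] at hb
    subst hb
    refine (Comp.app_res (hτ i) (hB i).1.1 x).trans ?_
    rw [res_mulc_KVal _ (zz (oJ i)), ez i, hpF i]
  have hex : ∀ b : Fin r', ∃ (A : ℕ → ℕ) (B : ℕ → Equiv.Perm ℕ),
      ∀ i, oJ i = b → A = α i ∧ B = σ i := by
    intro b
    by_cases h : ∃ i, oJ i = b
    · obtain ⟨i, rfl⟩ := h
      refine ⟨α i, σ i, fun j hj => ?_⟩
      rw [hoJ hj]
      exact ⟨rfl, rfl⟩
    · exact ⟨id, fun _ => 1, fun i hi => absurd ⟨i, hi⟩ h⟩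
  choose A B hAB using hex
  have hA : ∀ i, A (oJ i) = α i := fun i => (hAB _ i rfl).1
  have hB' : ∀ i, B (oJ i) = σ i := fun i => (hAB _ i rfl).2
  have step2 : T zz = (∏ b, (κ b).elim 1 fun S => sg (Y b).m S (A b) (B b)) • T yy := by
    refine auts hY hT hd hβ hn (fun b S0 hb => ?_) hy hz fun b S0 hb => ?_
    · obtain ⟨i, rfl⟩ := hJ b (by rw [hb]; exact Option.some_ne_none _)
      rw [hS i, Option.some.injEq] at hb
      subst hb
      rw [hA, hB']
      exact hα i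
    · obtain ⟨i, rfl⟩ := hJ b (by rw [hb]; exact Option.some_ne_none _)
      rw [hS i, Option.some.injEq] at hb
      subst hb
      rw [hA, hB', ez i, key i, ← ey i]
      exact tr_res _ fun q hq => (hα i).mem hq
  have hsg : ∀ i, sg (Y (oJ i)).m (S i) (α i) (σ i) =
      sg (Y (oJ i)).m (S i) (f (oJ i)).pi (f (oJ i)).rho *
        (sg (Y (oJ i)).m (S i) (π i) (ρ i) *
          sg (R' (τ i)).1.m (R' (τ i)).2.1 (π' (τ i)) (ρ' (τ i))) := by
    intro i
    have s1 := (hG i).sg_trans (hα i)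
    have s2 := (h2 (τ i)).sg_trans (h1' i)
    have s3 : sg (Y (oJ i)).m (S i) (f (oJ i)).pi (f (oJ i)).rho = _ :=
      (sg_congr (fun _ _ => rfl) (hα1 i) fun q hq j _ => by rw [hα2 i q hq]).trans s1
    rw [s2] at s3
    have q1 := sg_sq (Y (oJ i)).m (S i) (π i) (ρ i)
    have q2 := sg_sq (R' (τ i)).1.m (R' (τ i)).2.1 (π' (τ i)) (ρ' (τ i))
    rw [s3]
    generalize sg (Y (oJ i)).m (S i) (α i) (σ i) = a at *
    generalize sg (Y (oJ i)).m (S i) (π i) (ρ i) = c at *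
    generalize sg (R' (τ i)).1.m (R' (τ i)).2.1 (π' (τ i)) (ρ' (τ i)) = d at *
    calc a = a * (c * c) * (d * d) := by rw [q1, q2, mul_one, mul_one]
      _ = _ := by ring
  have hprod : (∏ b, (κ b).elim 1 fun S => sg (Y b).m S (A b) (B b)) =
      (∏ b, sg (Y (oJ b)).m (S b) (f (oJ b)).pi (f (oJ b)).rho) *
      ((∏ b, sg (Y (oJ b)).m (S b) (π b) (ρ b)) *
        ∏ a, sg (R' a).1.m (R' a).2.1 (π' a) (ρ' a)) := by
    rw [← Equiv.prod_comp τ fun a => sg (R' a).1.m (R' a).2.1 (π' a) (ρ' a),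
      ← Finset.prod_mul_distrib, ← Finset.prod_mul_distrib]
    symm
    refine Fintype.prod_of_injective oJ hoJ _ _ (fun b hb => ?_) fun i => ?_
    · have h0 : κ b = none := by
        by_contra h0
        exact hb (hJ b h0)
      rw [h0]
      rfl
    · rw [hS i, Option.elim_some, hA, hB', hsg i]
  rw [step1, step2, hprod, smul_comm]

end Pool.Agent.HGP
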