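import Pool.Agent.HGP.KRel
import Pool.Agent.HGP.KCoef
import Pool.Agent.HGP.KVal

/-!
# Package HGP-KSumC: the morphisms with the pattern `φ`

As `sum_cmp` in `Pool/Agent/HGFC/KSumC.lean`. If there is no morphism with the pattern `φ` in the support of
`γ` then the sum is empty. Otherwise take the enumerations `oI`, `oJ` (`Pat.exists_enum`), the sets and
exponents `S b`, `S' a`, `e' a`, the triples `P' b = (Y (oJ b), S b, β (oJ b))`, `P a = (X (oI a), S' a, e' a)`,
isomorphisms from `rf (P' b)` to `P' b` and from `P a` to `rf (P a)` (`rf_iso`, `IsoR.symm`), and the permutation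
`per f` for every `f` with the pattern `φ` (`exists_per`), which satisfies `col (P (per f b)) = col (P' b)`
(`Comp.pulls_iff`, `col_eq`), so `rf (P (per f b)) = rf (P' b)`. By `val_pat` the value `T (f.app x)` is a
constant sign times `(∏ sg f) * rtS` times `T (glue …)` for `τ = per f`, and `(∏ sg f) * rtS` is
`sgnF * kos (per f) * fct` (`sgnF_eq`, `fct_eq`, `kos_sq`). Apply `second_fundamental_col` with the colours
`col (P a)`, `col (P' b)`, the numbers `dcol`, the function `kos τ • T (glue …)` (relations: `rel_pat`), and the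
coefficients `∑_(f, per f = τ) γ f * sgnF * fct`. Their sums over the `τ` with `w ∘ τ = w'` are zero by
`coef_pat` (`HGP/KCoef.lean`).
-/

set_option autoImplicit false
set_option linter.unusedSectionVars false

noncomputable section

namespace Pool.Agent.HGP

open Pool.Agent.ZCyc Pool.Agent.Dess Pool.Agent.GT Pool.Agent.TInc Pool.Agent.HGF
open Pool.Agent.ZIso (fixing)
open Pool.Agent.EFC (genus)
open Pool.Agent.EFP (kos kos_sq kos_mul second_fundamental_col)
open scoped Classical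

variable {k : Type} [Field k] [IsAlgClosed k] [CharZero k] {ι : Type} {C : ι → Crv k} {r r' : ℕ}
  {X : Fin r → Hyp C} {Y : Fin r' → Hyp C} {W : Type} [AddCommGroup W] [Module k W]
  {T : (Fin r' → Pt C) → W} {κ : Fin r' → Option (Finset ℕ)} {β : Fin r' → ℕ → ℕ → ℕ}

theorem sum_pat (hX : ∀ a, (X a).Adm) (hY : ∀ b, (Y b).Adm) (hT : IsCFP Y T)
    (hd : DepOn Y κ T) (hβ : IsEigL Y κ β T) (hn : Ntr Y κ β)
    (hβ2 : ∀ b S, κ b = some S → ∀ q j, ¬ (q ∈ S ∧ j < (Y b).m q) → β b q j = 0)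
    {w0 : Fin r' → Pt C}
    (h0 : ∀ x, OnP Y x → (∃ b, κ b = some ∅ ∧ (x b).1 = (w0 b).1) → T x = 0)
    (hw0 : ∀ a b, (Y a).i = (Y b).i → (w0 a).1 = (w0 b).1) (hw0' : OnP Y w0)
    {γ : Mor X Y →₀ ℚ} (hγ : KillsForms γ (dimS Y κ))
    (φ : Fin r → Option (Finset ℕ × (ℕ → ℕ → ℕ))) {x : Fin r → Pt C} (hx : OnP X x) :
    ∑ f ∈ γ.support.filter (fun f => Pat f κ β φ), (γ f : k) • T (f.app x) = 0 := by
  by_cases hex : ∃ f : Mor X Y, Pat f κ β φ
  swap
  · rw [Finset.filter_false_of_mem, Finset.sum_empty]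
    intro f _ hf
    exact hex ⟨f, hf⟩
  obtain ⟨f₀, hf₀⟩ := hex
  obtain ⟨l, oI, oJ, hoI, hoJ, hI, hJ⟩ := hf₀.exists_enum
  have hJ1 : ∀ b, κ (oJ b) ≠ none := fun b => (hJ _).2 ⟨b, rfl⟩
  have hI1 : ∀ a, φ (oI a) ≠ none := fun a => (hI _).2 ⟨a, rfl⟩
  have hS0 : ∀ b, ∃ S, κ (oJ b) = some S := fun b => Option.ne_none_iff_exists'.1 (hJ1 b)
  choose S hS using hS0
  have hφ0 : ∀ a, ∃ p : Finset ℕ × (ℕ → ℕ → ℕ), φ (oI a) = some p := fun a =>
    Option.ne_none_iff_exists'.1 (hI1 a)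
  choose p hφ using hφ0
  -- the triples
  set P' : Fin l → Tri C := fun b => (Y (oJ b), S b, β (oJ b)) with hP'
  set P : Fin l → Tri C := fun a => (X (oI a), (p a).1, (p a).2) with hP
  have h1 : ∀ b, ∃ π ρ, Iso (rf (P' b)).1 (P' b).1 (rf (P' b)).2.1 (P' b).2.1 (rf (P' b)).2.2
      (P' b).2.2 π ρ := fun b => rf_iso (P' b)
  choose π ρ h1 using h1
  have h2 : ∀ a, ∃ π ρ, Iso (P a).1 (rf (P a)).1 (P a).2.1 (rf (P a)).2.1 (P a).2.2
      (rf (P a)).2.2 π ρ := fun a => (rf_iso (P a)).symm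
  choose π' ρ' h2 using h2
  -- the permutations
  have hper0 : ∀ f : Mor X Y, ∃ τ : Equiv.Perm (Fin l), Pat f κ β φ →
      ∀ b, (f (oJ b)).src = some (oI (τ b)) := by
    intro f
    by_cases hf : Pat f κ β φ
    · obtain ⟨τ, hτ⟩ := exists_per hoJ.injective (fun i hi => (hI i).1 hi) hJ1 hf
      exact ⟨τ, fun _ => hτ⟩
    · exact ⟨1, fun h => absurd h hf⟩
  choose per hper using hper0
  have hcol : ∀ f : Mor X Y, Pat f κ β φ → ∀ b, col (P (per f b)) = col (P' b) := by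
    intro f hf b
    obtain ⟨a, S', e', h3, h4⟩ := hf.1 (oJ b) (S b) (hS b)
    obtain ⟨h5, -, -, h6, -⟩ := Comp.pulls_iff.1 h3
    rw [hper f hf b, Option.some.injEq] at h5
    subst h5
    rw [hφ, Option.some.injEq] at h4
    refine col_eq.2 ⟨(f (oJ b)).pi, (f (oJ b)).rho, ?_⟩
    rw [hP, hP']
    simp only
    rw [h4]
    exact h6
  set n : Fin l → ℕ := fun b => (Y (oJ b)).dm (S b) with hndef
  set q : Fin l → Pt C := fun a => tr ((rf (P a)).2.1 : Set ℕ) (π' a) (ρ' a) (x (oI a)) with hq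
  have hqon : ∀ a, ((rf (P a)).1.res ((rf (P a)).2.1 : Set ℕ)).On (q a) := fun a =>
    on_tr (h2 a).sel (h2 a).sym (hx (oI a))
  set g : Equiv.Perm (Fin l) → W := fun τ => ((kos n τ : ℤ) : k) •
    T (glue oJ w0 fun b => plc (Y (oJ b)) (S b) (π b) (ρ b) (q (τ b))) with hg
  set cf : Mor X Y → k := fun f => (γ f : k) *
    (((∏ b, sg (Y (oJ b)).m (S b) (f (oJ b)).pi (f (oJ b)).rho) * kos n (per f) : ℤ) : k) *
      rtS Y κ β (fun b => (f b).zet) with hcf
  set β' : Equiv.Perm (Fin l) → k := fun τ =>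
    ∑ f ∈ γ.support, if Pat f κ β φ ∧ per f = τ then cf f else 0 with hβdef
  have key : ∑ τ, β' τ • g τ = 0 := by
    refine second_fundamental_col (fun a => col (P a)) (fun b => col (P' b)) dcol ?_ ?_ ?_
    · intro τ hτ J c hJc hc
      exact rel_pat hY hT hd hβ hn h0 hw0 hw0' hoJ.injective hS h1 hqon hτ hJc hc
    · intro τ hτ b
      rw [hβdef] at hτ
      simp only at hτ
      obtain ⟨f, -, hf⟩ := Finset.exists_ne_zero_of_sum_ne_zero hτ
      by_cases hc1 : Pat f κ β φ ∧ per f = τ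
      · rw [← hc1.2]
        exact hcol f hc1.1 b
      · rw [if_neg hc1] at hf
        exact absurd rfl hf
    · intro w w' _ hw'
      rw [hβdef]
      simp only
      rw [Finset.sum_comm]
      refine Eq.trans ?_ (coef_pat hn hβ2 hγ hoI hoJ hI hJ hS hper (w := w) hw')
      rw [Finset.sum_filter (s := γ.support)]
      refine Finset.sum_congr rfl fun f _ => ?_
      by_cases hB : Pat f κ β φ ∧ w ∘ ⇑(per f) = w'
      · rw [if_pos hB, Finset.sum_eq_single (per f)]
        · rw [if_pos ⟨hB.1, rfl⟩]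
        · intro τ _ hτ
          rw [if_neg fun h => hτ h.2.symm]
        · intro hcon
          exfalso
          apply hcon
          simp only [Finset.mem_filter, Finset.mem_univ, true_and]
          exact hB.2
      · rw [if_neg hB]
        refine Finset.sum_eq_zero fun τ hτ => ?_
        rw [if_neg]
        rintro ⟨h3, rfl⟩
        exact hB ⟨h3, by simpa using hτ⟩
  obtain ⟨c0, hc0⟩ : ∃ c0 : ℤ, c0 = (∏ b, sg (Y (oJ b)).m (S b) (π b) (ρ b)) *
    ∏ a, sg (rf (P a)).1.m (rf (P a)).2.1 (π' a) (ρ' a) := ⟨_, rfl⟩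
  have hval : ∀ f : Mor X Y, Pat f κ β φ → (γ f : k) • T (f.app x) =
      (c0 : k) • cf f • g (per f) := by
    intro f hf
    have h3 := val_pat hX hY hT hd hβ hn hf hoJ.injective (fun b hb => (hJ b).1 hb) hS
      (S' := fun a => (p a).1) (e' := fun a => (p a).2) hφ (hper f hf)
      (R := fun b => rf (P' b)) (R' := fun a => rf (P a))
      (fun b => rf_eq (hcol f hf b)) h1 h2 hx hw0'
    rw [h3, ← hc0, hg, hcf]
    simp only
    rw [← Int.cast_smul_eq_zsmul k, smul_smul, smul_smul, smul_smul, smul_smul]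
    congr 1
    have h4 : ((kos n (per f) : ℤ) : k) * ((kos n (per f) : ℤ) : k) = 1 := by
      rw [← Int.cast_mul, kos_sq, Int.cast_one]
    push_cast
    linear_combination -((c0 : k) * (γ f : k) *
      (∏ b, (sg (Y (oJ b)).m (S b) (f (oJ b)).pi (f (oJ b)).rho : k)) *
      rtS Y κ β (fun b => (f b).zet)) * h4
  have hsum : ∑ f ∈ γ.support.filter (fun f => Pat f κ β φ), (γ f : k) • T (f.app x) =
      (c0 : k) • ∑ τ, β' τ • g τ := by
    rw [hβdef]
    simp only [Finset.sum_smul]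
    rw [Finset.sum_comm, Finset.sum_filter, Finset.smul_sum]
    refine Finset.sum_congr rfl fun f _ => ?_
    by_cases hB : Pat f κ β φ
    · rw [if_pos hB, Finset.sum_eq_single (per f)]
      · rw [if_pos ⟨hB, rfl⟩, hval f hB]
      · intro τ _ hτ
        rw [if_neg fun h => hτ h.2.symm, zero_smul]
      · intro hcon
        exact absurd (Finset.mem_univ _) hcon
    · rw [if_neg hB]
      symm
      rw [Finset.sum_eq_zero, smul_zero]
      intro τ _
      rw [if_neg fun h => hB h.1, zero_smul]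
  rw [hsum, key, smul_zero]

/-- **The combination of the morphisms in `InjL`**: they are sorted by the patterns
(`InjL.exists_pat`, `Pat.injL`), as in `HGFC/KSum.lean`. -/
theorem sum_inj (hX : ∀ a, (X a).Adm) (hY : ∀ b, (Y b).Adm) (hT : IsCFP Y T)
    (hd : DepOn Y κ T) (hβ : IsEigL Y κ β T) (hn : Ntr Y κ β)
    (hβ2 : ∀ b S, κ b = some S → ∀ q j, ¬ (q ∈ S ∧ j < (Y b).m q) → β b q j = 0)
    {w0 : Fin r' → Pt C}
    (h0 : ∀ x, OnP Y x → (∃ b, κ b = some ∅ ∧ (x b).1 = (w0 b).1) → T x = 0)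
    (hw0 : ∀ a b, (Y a).i = (Y b).i → (w0 a).1 = (w0 b).1) (hw0' : OnP Y w0)
    {γ : Mor X Y →₀ ℚ} (hγ : KillsForms γ (dimS Y κ)) {x : Fin r → Pt C} (hx : OnP X x) :
    ∑ f ∈ γ.support.filter (fun f => InjL f κ), (γ f : k) • T (f.app x) = 0 := by
  have hpat : ∀ f : Mor X Y, ∃ φ : Fin r → Option (Finset ℕ × (ℕ → ℕ → ℕ)), InjL f κ →
      ∀ φ', Pat f κ β φ' ↔ φ' = φ := by
    intro f
    by_cases hf : InjL f κ
    · obtain ⟨φ, h1, h2⟩ := hf.exists_pat β
      refine ⟨φ, fun _ φ' => ⟨h2 φ', fun h => h ▸ h1⟩⟩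
    · exact ⟨fun _ => none, fun h => absurd h hf⟩
  choose pat hp using hpat
  rw [← Finset.sum_fiberwise_of_maps_to (s := γ.support.filter fun f => InjL f κ)
    (t := (γ.support.filter fun f => InjL f κ).image pat) (g := pat)
    (fun f hf => Finset.mem_image_of_mem _ hf)]
  refine Finset.sum_eq_zero fun φ _ => ?_
  rw [← sum_pat hX hY hT hd hβ hn hβ2 h0 hw0 hw0' hγ φ hx]
  refine Finset.sum_congr ?_ fun _ _ => rfl
  ext f
  simp only [Finset.mem_filter]
  constructor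
  · rintro ⟨⟨h1, h2⟩, h3⟩
    exact ⟨h1, (hp f h2 φ).2 h3.symm⟩
  · rintro ⟨h1, h2⟩
    have h3 := h2.injL
    exact ⟨⟨h1, h3⟩, ((hp f h3 φ).1 h2).symm⟩

end Pool.Agent.HGP
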