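import Pool.Agent.HGP.KRat

/-!
# Package HGP-KTwo: `F²` is the kernel of the Albanese map

As `Pool/Agent/HGFC/KTwo.lean`. `dimS X κ < 2` means that `κ = none` everywhere, or that there is exactly one
`a` with `κ a = some T`, and all components in `T` have `m ≤ 1`. In the second case `prj κ w` factors through
`toCrv X a` (the coordinates of trivial components are `none`): it is the composition with the morphism
from the one-factor product of `(X a).res (X a).T1` to the reduced product which is the projection to the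
components in `T` (compare `exists_prjC`) and the constants `w b` for `b ≠ a`. Conversely the map
`x ↦ (x a).res (X a).T1` is the projection of the level `κ a = some` of the finite set of the components
with `m = 1`, followed by the projection of the reduced product to the factor `a` (`ratP_push`).
-/

set_option autoImplicit false
set_option linter.unusedSectionVars false

noncomputable section

namespace Pool.Agent.HGP

open Pool.Agent.ZCyc Pool.Agent.Dess Pool.Agent.GT Pool.Agent.TInc Pool.Agent.HGF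
open scoped Classical

variable {k : Type} [Field k] [IsAlgClosed k] [CharZero k] {ι : Type} {C : ι → Crv k} {r : ℕ}
  {X : Fin r → Hyp C}

private theorem resT_KTwo {Z : Hyp C} (hZ : Z.Adm) {T : Set ℕ} (hT : ∀ q ∈ T, Z.m q ≤ 1) :
    (Z.res Z.T1).res T = Z.res T := by
  rw [Hyp.res_res]
  unfold Hyp.res
  congr 1
  funext q
  by_cases h : q ∈ T
  · by_cases h1 : Z.m q = 1
    · rw [if_pos ⟨h1, h⟩, if_pos h]
    · rw [if_neg (fun h2 => h1 h2.1), if_pos h]
      rcases hZ.2 q with h3 | h3
      · exact h3.symm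
      · have h4 := h3.one
        have h5 := hT q h
        exfalso
        change 0 < Z.m q at h4
        omega
  · rw [if_neg (fun h2 => h h2.2), if_neg h]

private theorem ptT_KTwo {Z : Hyp C} {p : Pt C} (hp : Z.On p) {T : Set ℕ}
    (hT : ∀ q ∈ T, Z.m q ≤ 1) : (p.res Z.T1).res T = p.res T := by
  rw [Pt.res_res]
  refine Prod.ext rfl (funext fun q => funext fun j => ?_)
  unfold Pt.res
  dsimp only
  by_cases h : q ∈ T
  · by_cases h1 : Z.m q = 1
    · rw [if_pos ⟨h1, h⟩, if_pos h]
    · rw [if_neg (fun h2 => h1 h2.1), if_pos h]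
      have h2 := hT q h
      exact (On.none hp (by omega)).symm
  · rw [if_neg (fun h2 => h h2.2), if_neg h]

private theorem cast_KTwo {r' : ℕ} {W : Fin r' → Hyp C} {Z Z' : Hyp C} (h : Z = Z')
    (f : Comp W Z) : ∃ f' : Comp W Z', ∀ x, f'.app x = f.app x := by
  subst h
  exact ⟨f, fun _ => rfl⟩

private theorem redS_KTwo {κ : Fin r → Option (Finset ℕ)} {a : Fin r} {T : Finset ℕ}
    (h : κ a = some T) : red κ X a = (X a).res T := by
  unfold red
  rw [h]
  rfl

private theorem prjS_KTwo {κ : Fin r → Option (Finset ℕ)} {a : Fin r} {T : Finset ℕ}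
    (h : κ a = some T) (w x : Fin r → Pt C) : prj κ w x a = (x a).res T := by
  unfold prj
  rw [h]
  rfl

private theorem toCrv_mem_KTwo (hX : ∀ a, (X a).Adm) {z : (Fin r → Pt C) →₀ ℚ}
    (hz : z ∈ Fil X 2) (a : Fin r) :
    toCrv X a z ∈ RatP (fun _ : Fin 1 => (X a).res (X a).T1) ℚ := by
  by_cases h0 : z.support = ∅
  · rw [Finsupp.support_eq_empty.1 h0, map_zero]
    exact zero_mem _
  obtain ⟨w, hw⟩ := Finset.nonempty_iff_ne_empty.2 h0
  obtain ⟨S, hS, -⟩ := Hyp.exists_supp (hX a)
  obtain ⟨T, hTm⟩ : ∃ T : Finset ℕ, ∀ q, q ∈ T ↔ (X a).m q = 1 := by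
    refine ⟨S.filter fun q => (X a).m q = 1, fun q => ?_⟩
    rw [Finset.mem_filter, hS]
    constructor
    · exact fun h => h.2
    · exact fun h => ⟨by omega, h⟩
  have hT : (T : Set ℕ) = (X a).T1 := by
    ext q
    exact hTm q
  obtain ⟨κ, hκa, hκb⟩ : ∃ κ : Fin r → Option (Finset ℕ), κ a = some T ∧
      ∀ b, b ≠ a → κ b = none :=
    ⟨fun b => if b = a then some T else none, if_pos rfl, fun b hb => if_neg hb⟩
  have hκ : dimS X κ < 2 := by
    have h1 : dimS X κ = 1 := by
      unfold dimS
      rw [Finset.sum_eq_single a]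
      · rw [hκa]
        show (X a).dm T = 1
        unfold Hyp.dm
        have h1 : ∑ q ∈ T, ((X a).m q - 1) = 0 := Finset.sum_eq_zero fun q hq => by
          have h2 := (hTm q).1 hq
          omega
        omega
      · intro b _ hb
        rw [hκb b hb]
        rfl
      · intro h
        exact absurd (Finset.mem_univ a) h
    omega
  have h2 := hz.2 _ hκ w (hz.1 w hw)
  have hra : red κ X a = (X a).res T := redS_KTwo hκa
  have hZ : (red κ X a).res (X a).T1 = (X a).res (X a).T1 := by
    rw [hra, Hyp.res_res, hT, Set.inter_self]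
  have hadm : (red κ X a).Adm := by
    rw [hra]
    exact Hyp.res_adm (hX a) _
  obtain ⟨f, hf⟩ := exists_prjC (X := red κ X) a (X a).T1
  have h4 := ratP_push (Y := fun _ : Fin 1 => (red κ X a).res (X a).T1)
    (fun _ => Hyp.res_adm hadm _) (fun _ => f) h2
  have h5 : Finsupp.mapDomain (Mor.app (X := red κ X)
      (Y := fun _ : Fin 1 => (red κ X a).res (X a).T1) fun _ => f)
      (Finsupp.mapDomain (prj κ w) z) = toCrv X a z := by
    rw [← Finsupp.mapDomain_comp]
    show _ = Finsupp.mapDomain (fun (x : Fin r → Pt C) (_ : Fin 1) => (x a).res (X a).T1) z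
    refine Finsupp.mapDomain_congr fun x hx => ?_
    funext b
    show f.app (prj κ w x) = (x a).res (X a).T1
    have h6 : prj κ w x a = (x a).res T := prjS_KTwo hκa w x
    rw [hf, h6, Pt.res_res, hT, Set.inter_self]
    intro q hq j
    rw [h6]
    rw [hra] at hq
    exact On.none (On.res (hz.1 x hx a) (T : Set ℕ)) (by omega)
  rw [h5, hZ] at h4
  exact h4

private theorem prj_mem_KTwo (hX : ∀ a, (X a).Adm) {z : (Fin r → Pt C) →₀ ℚ}
    (h1 : ∀ x ∈ z.support, OnP X x) (κ : Fin r → Option (Finset ℕ)) (a : Fin r)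
    (hb : ∀ b, b ≠ a → κ b = none) {T : Finset ℕ} (ha : κ a = some T)
    (hT : ∀ q ∈ T, (X a).m q ≤ 1) {w : Fin r → Pt C} (hw : OnP X w)
    (hz : toCrv X a z ∈ RatP (fun _ : Fin 1 => (X a).res (X a).T1) ℚ) :
    Finsupp.mapDomain (prj κ w) z ∈ RatP (red κ X) ℚ := by
  have hra : red κ X a = (X a).res T := redS_KTwo ha
  have hrb : ∀ b, b ≠ a → red κ X b = X b := by
    intro b h
    unfold red
    rw [hb b h]
    rfl
  have hadm : ∀ b, (red κ X b).Adm := by
    intro b
    by_cases h : b = a
    · subst h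
      rw [hra]
      exact Hyp.res_adm (hX b) _
    · rw [hrb b h]
      exact hX b
  obtain ⟨f, hf⟩ := exists_prjC (X := fun _ : Fin 1 => (X a).res (X a).T1) 0 (T : Set ℕ)
  have hZ : ((X a).res (X a).T1).res T = red κ X a := by
    rw [hra]
    exact resT_KTwo (hX a) (T := (T : Set ℕ)) hT
  obtain ⟨f', hf'⟩ := cast_KTwo hZ f
  have hex : ∀ b, ∃ g : Comp (fun _ : Fin 1 => (X a).res (X a).T1) (red κ X b),
      ∀ x, OnP X x → g.app (fun _ => (x a).res (X a).T1) = prj κ w x b := by
    intro b
    by_cases h : b = a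
    · subst h
      refine ⟨f', fun x hx => ?_⟩
      rw [hf', hf, prjS_KTwo ha w x]
      · exact ptT_KTwo (hx b) (T := (T : Set ℕ)) hT
      · intro q hq j
        exact On.none (On.res (hx b) (X b).T1) (by omega)
    · have h4 : (red κ X b).On (w b) := by
        rw [hrb b h]
        exact hw b
      refine ⟨.const (w b) h4, fun x _ => ?_⟩
      show w b = prj κ w x b
      unfold prj
      rw [hb b h]
      rfl
  choose g hg using hex
  have h5 := ratP_push hadm g hz
  have h6 : toCrv X a z = Finsupp.mapDomain (fun (x : Fin r → Pt C) (_ : Fin 1) =>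
      (x a).res (X a).T1) z := rfl
  rw [h6, ← Finsupp.mapDomain_comp] at h5
  have h7 : Finsupp.mapDomain (prj κ w) z = Finsupp.mapDomain (Mor.app (Y := red κ X) g ∘
      fun (x : Fin r → Pt C) (_ : Fin 1) => (x a).res (X a).T1) z := by
    refine Finsupp.mapDomain_congr fun x hx => ?_
    funext b
    exact (hg b x (h1 x hx)).symm
  rw [h7]
  exact h5

/-- `F²` is the kernel of the Albanese map -/
theorem fil_two (hX : ∀ a, (X a).Adm) {z : (Fin r → Pt C) →₀ ℚ} :
    z ∈ Fil X 2 ↔ z ∈ Fil X 1 ∧
      ∀ a, toCrv X a z ∈ RatP (fun _ : Fin 1 => (X a).res (X a).T1) ℚ := by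
  constructor
  · intro hz
    exact ⟨fil_anti 1 hz, toCrv_mem_KTwo hX hz⟩
  · rintro ⟨hz, h2⟩
    refine ⟨hz.1, fun κ hκ w hw => ?_⟩
    by_cases h3 : dimS X κ < 1
    · exact hz.2 κ h3 w hw
    have h4 : ∃ a, κ a ≠ none := by
      by_contra hcon
      push Not at hcon
      apply h3
      unfold dimS
      rw [Finset.sum_eq_zero fun a _ => by rw [hcon a]; rfl]
      exact Nat.one_pos
    obtain ⟨a, ha0⟩ := h4
    obtain ⟨T, ha⟩ := Option.ne_none_iff_exists'.1 ha0
    have hd : ∀ b, κ b ≠ none → 1 ≤ (κ b).elim 0 (X b).dm := by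
      intro b hb
      obtain ⟨S, hS⟩ := Option.ne_none_iff_exists'.1 hb
      rw [hS]
      show 1 ≤ (X b).dm S
      unfold Hyp.dm
      omega
    have hb : ∀ b, b ≠ a → κ b = none := by
      intro b hba
      by_contra hb
      have h5 : (κ b).elim 0 (X b).dm + (κ a).elim 0 (X a).dm ≤ dimS X κ := by
        have h8 := Finset.sum_le_sum_of_subset (f := fun a => (κ a).elim 0 (X a).dm)
          (Finset.subset_univ ({b, a} : Finset (Fin r)))
        rw [Finset.sum_pair hba] at h8
        exact h8
      have h6 := hd a ha0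
      have h7 := hd b hb
      omega
    refine prj_mem_KTwo hX hz.1 κ a hb ha ?_ hw (h2 a)
    intro q hq
    have h7 : (κ a).elim 0 (X a).dm ≤ dimS X κ := by
      unfold dimS
      exact Finset.single_le_sum (f := fun a => (κ a).elim 0 (X a).dm)
        (fun _ _ => Nat.zero_le _) (Finset.mem_univ a)
    rw [ha] at h7
    have h8 : (X a).dm T < 2 := lt_of_le_of_lt h7 hκ
    have h9 : (X a).m q - 1 ≤ ∑ r ∈ T, ((X a).m r - 1) :=
      Finset.single_le_sum (f := fun r => (X a).m r - 1) (fun _ _ => Nat.zero_le _) hq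
    unfold Hyp.dm at h8
    omega

end Pool.Agent.HGP
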