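import Pool.Agent.HGP.StC
import Pool.Agent.TInc.EmbC

/-!
# A curve on the fibre product from a given point to a point with given rows

`exists_line`: `f` is a function on the base curve which is regular at `s0`, `σ : L → Om k` is an
embedding with `σ f = f(s0) + t (c - f(s0))` above `s0` (`exists_emb_over`). For generic `c` the value
`s1` of this point at the place `v1` above `t = 1` is good for all components, because `f(s1) = c`.
For one component (`line1`) the powers `μ_i = V_i ^ M_i` are linear in `t` for `i ≠ i1`, and `μ_i1` is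
given by the equation of the component.
-/

set_option autoImplicit false
set_option linter.unusedSectionVars false

noncomputable section

namespace Pool.Agent.HGP

open Finset Pool.Agent.ZCyc Pool.Agent.Dess Pool.Agent.GT Pool.Agent.TInc Pool.Agent.HGF
open Pool.Agent.VFP (Om tt)
open Pool.Agent.EFC (unif genus sections)
open scoped Classical

variable {k : Type} [Field k] [IsAlgClosed k] [CharZero k] {L : Type} [Field L] [Algebra k L]
  [hL : Fact (IsCurve k L)] {m N : ℕ} {F : Fam k L m}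

/-- the bad places of the curve -/
theorem exists_bad (hF : F.Adm) (T : Finset k) : ∃ U : Finset (Place k L), ∀ c, c ∉ U →
    Bas F c ∧ lam F (Sum.inr c : Bp k L k) ∉ T := by
  let G : L → Finset (Place k L) := fun f => (finite_ord hL.out f).toFinset
  have hG : ∀ f c, c ∉ G f → ord c f = 0 := by
    intro f c hc
    by_contra h
    exact hc ((Set.Finite.mem_toFinset _).2 h)
  refine ⟨(univ.biUnion fun i => (F.E i).support) ∪ (univ.biUnion fun i => G (F.B i)) ∪
    (univ.biUnion fun i => G (F.C i)) ∪ G F.A ∪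
    T.biUnion fun a => G (F.A - a • ∏ i, F.B i), fun c hc => ?_⟩
  simp only [mem_union, mem_biUnion, mem_univ, true_and, not_or, not_exists] at hc
  obtain ⟨⟨⟨⟨h1, h2⟩, h3⟩, h4⟩, h5⟩ := hc
  have hb : Bas F c := ⟨fun i => by
    have := h1 i
    rwa [Finsupp.mem_support_iff, not_not] at this, fun i => hG _ _ (h2 i), fun i => hG _ _ (h3 i),
    hG _ _ h4⟩
  refine ⟨hb, fun h => ?_⟩
  have hB : ∀ i, c.At (F.B i) (val c (F.B i)) ∧ val c (F.B i) ≠ 0 := fun i =>
    val_unit hL.out (hF.B0 i) (hb.B i)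
  have hA := val_unit hL.out hF.A0 hb.A
  have hPn : ∏ i, val c (F.B i) ≠ 0 := prod_ne_zero_iff.2 fun i _ => (hB i).2
  set a : k := lam F (Sum.inr c : Bp k L k) with ha
  have ha' : a * ∏ i, val c (F.B i) = val c F.A := by
    have h6 : a = val c F.A / ∏ i, val c (F.B i) := rfl
    rw [h6, div_mul_cancel₀ _ hPn]
  have h6 : c.At (F.A - a • ∏ i, F.B i) 0 := by
    have h7 := hA.1.sub ((Place.at_const (v := c) a).mul
      (Place.At.prod (s := univ) fun i _ => (hB i).1))
    rw [ha', sub_self] at h7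
    rw [Algebra.smul_def]
    exact h7
  have h7 : F.A - a • ∏ i, F.B i ≠ 0 := sub_ne_zero.2 (hF.indep a)
  have h8 := (vanishes_iff_ord hL.out h7).1 (Place.at_zero_iff.1 h6)
  have h9 := hG _ _ fun h10 => h5 a ⟨h, h10⟩
  omega

private lemma ne_of_at {K : Type} [Field K] [Algebra k K] {v : Place k K} {f : K} {c : k}
    (h : v.At f c) (hc : c ≠ 0) : f ≠ 0 := by
  intro h0
  rw [h0] at h
  exact hc (h.unique (at_zero v))

private lemma solve_at {K : Type} [Field K] [Algebra k K] {v : Place k K} {i1 : Fin m}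
    {β γ mid : Fin m → K} {α : K} {b c μ : Fin m → k} {a : k} (hβ : ∀ i, v.At (β i) (b i))
    (hγ : ∀ i, v.At (γ i) (c i)) (hα : v.At α a) (hmid : ∀ i, v.At (mid i) (μ i))
    (h : ∏ i, (b i - c i * μ i) = a) (hc : c i1 ≠ 0)
    (h3 : (∏ i ∈ univ.erase i1, (b i - c i * μ i)) ≠ 0) :
    (∏ i ∈ univ.erase i1, (β i - γ i * mid i)) ≠ 0 ∧ γ i1 ≠ 0 ∧
    v.At ((β i1 - α / ∏ i ∈ univ.erase i1, (β i - γ i * mid i)) / γ i1) (μ i1) := by
  have h1 : ∀ i, v.At (β i - γ i * mid i) (b i - c i * μ i) := fun i =>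
    (hβ i).sub ((hγ i).mul (hmid i))
  have h2 : v.At (∏ i ∈ univ.erase i1, (β i - γ i * mid i))
      (∏ i ∈ univ.erase i1, (b i - c i * μ i)) := Place.At.prod fun i _ => h1 i
  rw [← mul_prod_erase univ _ (mem_univ i1)] at h
  refine ⟨ne_of_at h2 h3, ne_of_at (hγ i1) hc, ?_⟩
  have h4 := ((hβ i1).sub (hα.div h2 h3)).div (hγ i1) hc
  have h5 : (b i1 - a / ∏ i ∈ univ.erase i1, (b i - c i * μ i)) / c i1 = μ i1 := by
    rw [← h, mul_div_cancel_right₀ _ h3, sub_sub_cancel, mul_div_cancel_left₀ _ hc]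
  rwa [h5] at h4

/-- the product over the other coordinates is different from zero -/
private lemma erase_ne {i1 : Fin m} {g : Fin m → k} {a : k} (h : ∏ i, g i = a)
    (ha : 2 ≤ m → a ≠ 0) : (∏ i ∈ univ.erase i1, g i) ≠ 0 := by
  by_cases hm : 2 ≤ m
  · rw [← mul_prod_erase univ _ (mem_univ i1)] at h
    intro h4
    rw [h4, mul_zero] at h
    exact ha hm h.symm
  · have h1 : (univ.erase i1 : Finset (Fin m)) = ∅ := by
      refine eq_empty_of_forall_notMem fun i hi => ?_
      refine ne_of_mem_erase hi (Fin.ext ?_)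
      have h2 := i.2
      have h3 := i1.2
      omega
    rw [h1, prod_empty]
    exact one_ne_zero

/-- the coordinate `i1` does not depend on the trivialisations of the line bundles -/
private lemma solve_scale {K : Type} [Field K] {i1 : Fin m} {β γ mid l : Fin m → K} {α : K}
    (hl : ∀ i, l i ≠ 0) : (l i1 * β i1 - (∏ i, l i) * α /
      ∏ i ∈ univ.erase i1, (l i * β i - l i * γ i * mid i)) / (l i1 * γ i1) =
    (β i1 - α / ∏ i ∈ univ.erase i1, (β i - γ i * mid i)) / γ i1 := by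
  have h1 : ∏ i ∈ univ.erase i1, (l i * β i - l i * γ i * mid i) =
      (∏ i ∈ univ.erase i1, l i) * ∏ i ∈ univ.erase i1, (β i - γ i * mid i) := by
    rw [← prod_mul_distrib]
    refine prod_congr rfl fun i _ => ?_
    ring
  have h2 : ∏ i ∈ univ.erase i1, l i ≠ 0 := prod_ne_zero_iff.2 fun i _ => hl i
  rw [h1, ← mul_prod_erase univ l (mem_univ i1), mul_right_comm, mul_comm (∏ i ∈ univ.erase i1, l i),
    mul_div_mul_right _ _ h2, mul_div_assoc, ← mul_sub, mul_div_mul_left _ _ (hl i1)]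

/-- a transcendental function which is regular at a place -/
private lemma exists_reg (hL : IsCurve k L) (c : Place k L) :
    ∃ f : L, Transcendental k f ∧ f ∈ c.ring := by
  obtain ⟨x, hx, -⟩ := hL
  rcases c.ring.mem_or_inv_mem x with h | h
  · exact ⟨x, hx, h⟩
  · exact ⟨x⁻¹, fun h1 => hx (by simpa using h1.inv), h⟩

/-- the construction for one component -/
private lemma line1 (hF : F.Adm) {v0 v1 : Place k (Om k)} (hv0 : v0.At (tt k) 0)
    (hv1 : v1.At (tt k) 1) {s0 s1 : Place k L} {σ : L →ₐ[k] Om k}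
    (hO0 : Ovr v0 (Sum.inl σ : Bp k L (Om k)) s0) (hO1 : Ovr v1 (Sum.inl σ : Bp k L (Om k)) s1)
    (hb1 : Bas F s1) {u : Fin m → k} (h0 : OnY F (Sum.inr s0 : Bp k L k) fun i => some (u i))
    (hC0 : ∀ i, sv (F.E i) (F.C i) (Sum.inr s0 : Bp k L k) ≠ 0)
    (hA0 : 2 ≤ m → sv F.S F.A (Sum.inr s0 : Bp k L k) ≠ 0) {ρ : ℕ → k} (hρ : Good m ρ)
    (hmu : mu m ρ = lam F (Sum.inr s1 : Bp k L k)) :
    ∃ V : Fin m → Om k, Int F (Sum.inl σ : Bp k L (Om k)) V ∧ (∀ i, v0.At (V i) (u i)) ∧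
      ∀ i : Fin m, v1.At (V i ^ F.M i) (ev (F.B i) (Sum.inr s1 : Bp k L k) /
        ev (F.C i) (Sum.inr s1 : Bp k L k) * (1 - ρ i)) := by
  have hm : 0 < m := hF.one
  have hU1 := hb1.un hF
  set i1 : Fin m := ⟨0, hm⟩ with hi1
  set μ1 : Fin m → k := fun i => ev (F.B i) (Sum.inr s1 : Bp k L k) /
    ev (F.C i) (Sum.inr s1 : Bp k L k) * (1 - ρ i) with hμ1
  set mid : Fin m → Om k := fun i => algebraMap k (Om k) (u i ^ F.M i) +
    tt k * algebraMap k (Om k) (μ1 i - u i ^ F.M i) with hmid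
  set D : Om k := ∏ i ∈ univ.erase i1, (σ (F.B i) - σ (F.C i) * mid i) with hD
  set top : Om k := (σ (F.B i1) - σ F.A / D) / σ (F.C i1) with htop
  have hmid0 : ∀ i, v0.At (mid i) (u i ^ F.M i) := fun i => by
    have h := (Place.at_const (v := v0) (u i ^ F.M i)).add
      (hv0.mul (Place.at_const (v := v0) (μ1 i - u i ^ F.M i)))
    rwa [zero_mul, add_zero] at h
  have hmid1 : ∀ i, v1.At (mid i) (μ1 i) := fun i => by
    have h := (Place.at_const (v := v1) (u i ^ F.M i)).add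
      (hv1.mul (Place.at_const (v := v1) (μ1 i - u i ^ F.M i)))
    rwa [one_mul, add_sub_cancel] at h
  have hPB : ∏ i, ev (F.B i) (Sum.inr s1 : Bp k L k) ≠ 0 := prod_ne_zero_iff.2 fun i _ => hU1.B i
  have heq1 : ∏ i, (ev (F.B i) (Sum.inr s1 : Bp k L k) -
      ev (F.C i) (Sum.inr s1 : Bp k L k) * μ1 i) = ev F.A (Sum.inr s1 : Bp k L k) := by
    have h2 : ∀ i : Fin m, ev (F.B i) (Sum.inr s1 : Bp k L k) -
        ev (F.C i) (Sum.inr s1 : Bp k L k) * μ1 i = ρ i * ev (F.B i) (Sum.inr s1 : Bp k L k) := by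
      intro i
      rw [hμ1]
      have := hU1.C i
      field_simp
      ring
    have h3 : ∏ i : Fin m, ρ i = lam F (Sum.inr s1 : Bp k L k) := by
      rw [← hmu]
      unfold mu
      exact Fin.prod_univ_eq_prod_range ρ m
    rw [prod_congr rfl fun i _ => h2 i, prod_mul_distrib, h3]
    unfold lam
    rw [div_mul_cancel₀ _ hPB]
  -- the value at `v0`
  obtain ⟨l, hl, hlat⟩ := exists_mulc hL.out hO0
  have hlE : ∀ i, l ^ F.E i s0 ≠ 0 := fun i => zpow_ne_zero _ hl
  have heq0 : ∏ i, (sv (F.E i) (F.B i) (Sum.inr s0 : Bp k L k) -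
      sv (F.E i) (F.C i) (Sum.inr s0 : Bp k L k) * u i ^ F.M i) =
      sv F.S F.A (Sum.inr s0 : Bp k L k) := by
    have h1 := h0
    unfold OnY at h1
    simp only [snd_some, fst_some, one_pow, mul_one, prod_const_one] at h1
    exact h1
  have htop0 : v0.At top (u i1 ^ F.M i1) := by
    obtain ⟨-, -, h1⟩ := solve_at (v := v0) (i1 := i1)
      (β := fun i => l ^ F.E i s0 * σ (F.B i)) (γ := fun i => l ^ F.E i s0 * σ (F.C i))
      (α := (∏ i, l ^ F.E i s0) * σ F.A) (mid := mid) (μ := fun i => u i ^ F.M i)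
      (fun i => hlat _ _ (hF.secB i)) (fun i => hlat _ _ (hF.secC i))
      (by
        rw [← zpow_S hl]
        exact hlat _ _ hF.secA) hmid0 heq0 (hC0 i1) (erase_ne heq0 hA0)
    have h2 := solve_scale (i1 := i1) (β := fun i => σ (F.B i)) (γ := fun i => σ (F.C i))
      (mid := mid) (l := fun i => l ^ F.E i s0) (α := σ F.A) hlE
    beta_reduce at h1 h2
    rw [h2] at h1
    exact h1
  obtain ⟨hDne, hCne, htop1⟩ := solve_at (v := v1) (i1 := i1) (β := fun i => σ (F.B i))
    (γ := fun i => σ (F.C i)) (α := σ F.A) (mid := mid) (μ := μ1)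
    (fun i => evB_at hF hO1 hb1 i) (fun i => evC_at hF hO1 hb1 i) (evA_at hF hO1 hb1) hmid1
    heq1 (hU1.C i1) (erase_ne heq1 fun _ => hU1.A)
  set μ : Fin m → Om k := fun i => if i = i1 then top else mid i with hμ
  have hμ0 : ∀ i, v0.At (μ i) (u i ^ F.M i) := by
    intro i
    rw [hμ]
    show v0.At (if i = i1 then top else mid i) _
    split_ifs with h
    · rw [h]
      exact htop0
    · exact hmid0 i
  have hμv1 : ∀ i, v1.At (μ i) (μ1 i) := by
    intro i
    rw [hμ]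
    show v1.At (if i = i1 then top else mid i) _
    split_ifs with h
    · rw [h]
      exact htop1
    · exact hmid1 i
  have hroot : ∀ i, ∃ V : Om k, V ^ F.M i = μ i ∧ v0.At V (u i) := by
    intro i
    have hM := hF.M0 i
    obtain ⟨r, hr⟩ := HYG.exists_root_om hM (μ i)
    have h2 := hμ0 i
    rw [← hr] at h2
    obtain ⟨ζ, hζ, h3⟩ := HYG.root_limit hM h2
    have hζ0 : ζ ≠ 0 := by
      intro h
      rw [h, zero_pow hM.ne'] at hζ
      exact zero_ne_one hζ
    refine ⟨algebraMap k (Om k) ζ⁻¹ * r, ?_, ?_⟩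
    · rw [mul_pow, hr, ← map_pow, inv_pow, hζ, inv_one, map_one, one_mul]
    · have h4 := (Place.at_const (v := v0) ζ⁻¹).mul h3
      rwa [inv_mul_cancel_left₀ hζ0] at h4
  choose V hVM hV0 using hroot
  have hμ1ne : ∀ i, μ1 i ≠ 0 := fun i =>
    mul_ne_zero (div_ne_zero (hU1.B i) (hU1.C i)) (sub_ne_zero.2 (hρ.ne1 i).symm)
  refine ⟨V, ⟨?_, base_inl σ, fun i => ?_⟩, hV0, fun i => ?_⟩
  · show ∏ i, (σ (F.B i) - σ (F.C i) * V i ^ F.M i) = σ F.A
    simp only [hVM]
    rw [← mul_prod_erase univ _ (mem_univ i1)]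
    have h2 : ∏ i ∈ univ.erase i1, (σ (F.B i) - σ (F.C i) * μ i) = D := by
      refine prod_congr rfl fun i hi => ?_
      rw [hμ]
      show _ - _ * (if i = i1 then top else mid i) = _
      rw [if_neg (ne_of_mem_erase hi)]
    have h3 : μ i1 = top := if_pos rfl
    have hDne' : D ≠ 0 := hDne
    have hCne' : σ (F.C i1) ≠ 0 := hCne
    rw [h2, h3, htop]
    field_simp
    ring
  · intro h
    have h2 := ne_of_at (hμv1 i) (hμ1ne i)
    rw [← hVM, h, zero_pow (hF.M0 i).ne'] at h2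
    exact h2 rfl
  · rw [hVM]
    exact hμv1 i

/-- the curve from the point `(s0, u)` to a point over `s1` with arbitrary good rows `ρ r` -/
theorem exists_line {κ : Type} [Fintype κ] {m : κ → ℕ} {F : ∀ r, Fam k L (m r)}
    (hF : ∀ r, (F r).Adm) {v0 v1 : Place k (Om k)} (hv0 : v0.At (tt k) 0)
    (hv1 : v1.At (tt k) 1) {s0 : Place k L} {u : Ix m → k}
    (h0 : OnX F (Sum.inr s0 : Bp k L k) fun q => some (u q))
    (hC0 : ∀ r i, sv ((F r).E i) ((F r).C i) (Sum.inr s0 : Bp k L k) ≠ 0)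
    (hA0 : ∀ r, 2 ≤ m r → sv (F r).S (F r).A (Sum.inr s0 : Bp k L k) ≠ 0) (T : κ → Finset k) :
    ∃ (s1 : Place k L) (S : Bp k L (Om k)), (∀ r, Bas (F r) s1) ∧
      (∀ r, lam (F r) (Sum.inr s1 : Bp k L k) ∉ T r) ∧ (∀ r, Base (F r) S) ∧
      Ovr v0 S s0 ∧ Ovr v1 S s1 ∧
      ∀ ρ : κ → ℕ → k, (∀ r, Good (m r) (ρ r)) →
        (∀ r, mu (m r) (ρ r) = lam (F r) (Sum.inr s1 : Bp k L k)) →
        ∃ V : Ix m → Om k, (∀ r, Int (F r) S (cmp V r)) ∧ (∀ q, v0.At (V q) (u q)) ∧
          ∀ (r : κ) (i : Fin (m r)), v1.At (V ⟨r, i⟩ ^ (F r).M i)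
            (ev ((F r).B i) (Sum.inr s1 : Bp k L k) /
              ev ((F r).C i) (Sum.inr s1 : Bp k L k) * (1 - ρ r i)) := by
  have hinf : Infinite k := IsAlgClosed.instInfinite
  obtain ⟨f, hf, hfr⟩ := exists_reg hL.out s0
  choose U hU using fun r => exists_bad (hF r) (T r)
  obtain ⟨c, hc⟩ := Infinite.exists_notMem_finset
    (insert (val s0 f) ((univ.biUnion U).image fun q => val q f))
  rw [mem_insert, not_or, mem_image] at hc
  obtain ⟨hc0, hcU⟩ := hc
  -- the embedding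
  set a0 : k := val s0 f with ha0
  have hs0 : s0.At f a0 := TInc.at_val hL.out hfr
  set ψ : Om k := algebraMap k (Om k) a0 + tt k * algebraMap k (Om k) (c - a0) with hψ
  have hca : c - a0 ≠ 0 := sub_ne_zero.2 hc0
  have hψt : Transcendental k ψ := by
    intro h
    apply VFP.tt_transc (k := k)
    have h1 : tt k = (ψ - algebraMap k (Om k) a0) * algebraMap k (Om k) (c - a0)⁻¹ := by
      rw [hψ, add_sub_cancel_left, mul_assoc, ← map_mul, mul_inv_cancel₀ hca, map_one, mul_one]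
    rw [h1]
    exact (h.sub (isAlgebraic_algebraMap _)).mul (isAlgebraic_algebraMap _)
  have hψ0 : v0.At ψ a0 := by
    have h := (Place.at_const (v := v0) a0).add (hv0.mul (Place.at_const (v := v0) (c - a0)))
    rwa [zero_mul, add_zero] at h
  have hψ1 : v1.At ψ c := by
    have h := (Place.at_const (v := v1) a0).add (hv1.mul (Place.at_const (v := v1) (c - a0)))
    rwa [one_mul, add_sub_cancel] at h
  obtain ⟨σ, hσf, hσ⟩ := exists_emb_over hL.out hf hψt hψ0 hs0
  obtain ⟨s1, hs1⟩ := exists_below hL.out v1 σ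
  have hO0 : Ovr v0 (Sum.inl σ : Bp k L (Om k)) s0 := hσ
  have hO1 : Ovr v1 (Sum.inl σ : Bp k L (Om k)) s1 := hs1
  have hs1f : s1.At f c := by
    have h1 := hψ1
    rw [← hσf] at h1
    unfold Place.At at h1 ⊢
    rw [Place.vanishes_iff_or] at h1 ⊢
    have h2 : σ f - algebraMap k (Om k) c = σ (f - algebraMap k L c) := by
      rw [map_sub, AlgHom.commutes]
    rw [h2] at h1
    rcases h1 with h1 | h1
    · left
      exact (map_eq_zero_iff σ (σ : L →+* Om k).injective).1 h1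
    · right
      rw [← hs1, ValuationSubring.mem_comap]
      intro h3
      apply h1
      rw [← map_inv₀]
      exact h3
  have hs1U : ∀ r, s1 ∉ U r := fun r h =>
    hcU ⟨s1, mem_biUnion.2 ⟨r, mem_univ _, h⟩, TInc.val_eq hs1f⟩
  refine ⟨s1, Sum.inl σ, fun r => (hU r s1 (hs1U r)).1, fun r => (hU r s1 (hs1U r)).2,
    fun r => base_inl σ, hO0, hO1, fun ρ hρ hmu => ?_⟩
  choose V hV1 hV2 hV3 using fun r => line1 (hF r) hv0 hv1 hO0 hO1 (hU r s1 (hs1U r)).1 (h0 r)
    (hC0 r) (hA0 r) (hρ r) (hmu r)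
  exact ⟨fun q => V q.1 q.2, fun r => hV1 r, fun q => hV2 q.1 q.2, fun r i => hV3 r i⟩

end Pool.Agent.HGP
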