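import Pool.Agent.HGP.PathA
import Pool.Agent.HGF.PathB
import Pool.Agent.HGF.VanD

/-!
# Package HGP-PathB: from good states to all points

Port of `Pool/Agent/HGFC/PathB.lean` to fibre products. Good states: all factorisations exist and
neighbours are generic, for all components. Suppose that `AE E` vanishes at all good states. Given
points `(s0 j, u j)` of the fibre product at which the sections `C_(r, i)`, and `A_r` for `m r ≥ 2`, do not
vanish, with finite `u j q`, we connect them by curves (`exists_line`) with a generic constant state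
(`exists_lines`, induction over the number of the points as before; the finite sets `T r` for all
components; put `1` into `T r`, take for `η r` a root of order `m r` of the parameter, and the constant rows
`ρ r = fun _ => η r` in `exists_line`). The factorisations of the constant state can be lifted (`Ords.lift`, for every component
`r`), so almost all points of the curve are good states, and `AE E` vanishes at all points of the curve
(`moving`). The genericity is `Gen (m r)`; `openGen : OpenGen m (Gen m)` and `gn_const` are in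
`HGF/VanD.lean` resp. its imports (see `HGFC/Van.lean`; please add the import).
-/

set_option autoImplicit false
set_option linter.unusedSectionVars false

noncomputable section

namespace Pool.Agent.HGP

open Finset Pool.Agent.ZCyc Pool.Agent.Dess Pool.Agent.GT Pool.Agent.TInc Pool.Agent.HGF
open Pool.Agent.VFP (Om tt)
open scoped Classical

variable {k : Type} [Field k] [IsAlgClosed k] [CharZero k] {L : Type} [Field L] [Algebra k L]
  [hL : Fact (IsCurve k L)] {κ : Type} [Fintype κ] {m : κ → ℕ} {N : ℕ} {F : ∀ r, Fam k L (m r)}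
  {W : Type} [AddCommGroup W] [Module k W]
  {E : (Fin N → Place k L) → (Fin N → Ix m → Option k) → W}

/-- `AE E` vanishes at the good states -/
def GoodZero (F : ∀ r, Fam k L (m r)) (hm : ∀ r, 0 < m r)
    (E : (Fin N → Place k L) → (Fin N → Ix m → Option k) → W) : Prop :=
  ∀ (s : Fin N → Place k L) (X : ∀ _ : κ, Fin N → ℕ → k)
    (O : ∀ _ : κ, Equiv.Perm (Fin N) → Fin N → ℕ → k)
    (p : Ix m → k) (w : Fin N → Ix m → k), IsSt F hm (cb s) X p w →
    (∀ r, Function.Injective fun j => lam (F r) (cb s j)) →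
    (∀ r, Ords (m r) (X r) (O r)) → (∀ r (σ : Equiv.Perm (Fin N)) (j j' : Fin N),
      (j' : ℕ) = j + 1 → Gen (m r) (O r σ j) (O r σ j')) → AE m E s (som w) = 0

omit hL in
/-- a finite set of nonzero elements from a finite family -/
private lemma family {ι : Type} [Finite ι] (f : ι → Om k) (hf : ∀ i, f i ≠ 0) :
    ∃ Γ : Finset (Om k), (0 : Om k) ∉ Γ ∧ ∀ i, f i ∈ Γ := by
  have : Fintype ι := Fintype.ofFinite ι
  refine ⟨univ.image f, fun h => ?_, fun i => mem_image_of_mem f (mem_univ i)⟩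
  obtain ⟨i, -, hi⟩ := mem_image.1 h
  exact hf i hi

omit hL in
private lemma families {ι : Type} [Finite ι] (Γ : ι → Finset (Om k)) (h : ∀ i, (0 : Om k) ∉ Γ i) :
    ∃ G : Finset (Om k), (0 : Om k) ∉ G ∧ ∀ i, ∀ g ∈ Γ i, g ∈ G := by
  have : Fintype ι := Fintype.ofFinite ι
  refine ⟨univ.biUnion Γ, fun h1 => ?_, fun i g hg => mem_biUnion.2 ⟨i, mem_univ i, hg⟩⟩
  obtain ⟨i, -, hi⟩ := mem_biUnion.1 h1
  exact h i hi

/-- the curves from the points `(s0 j, u j)` to a generic constant state -/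
structure IsLn (F : ∀ r, Fam k L (m r)) (v0 v1 : Place k (Om k))
    (s0 : Fin N → Place k L) (u : Fin N → Ix m → k) (s1 : Fin N → Place k L) (η : κ → Fin N → k)
    (S : Fin N → Bp k L (Om k)) (V : Fin N → Ix m → Om k) : Prop where
  bas : ∀ r j, Bas (F r) (s1 j)
  inj : ∀ r, Function.Injective fun j => lam (F r) (cb s1 j)
  ne0 : ∀ r j, η r j ≠ 0
  ne1 : ∀ r j, η r j ≠ 1
  pow : ∀ r j, η r j ^ m r = lam (F r) (cb s1 j)
  gen : ∀ r j j', j ≠ j' → Gen (m r) (fun _ => η r j) fun _ => η r j'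
  int : ∀ r j, Int (F r) (S j) (cmp (V j) r)
  ovr0 : ∀ j, Ovr v0 (S j) (s0 j)
  at0 : ∀ j q, v0.At (V j q) (u j q)
  ovr1 : ∀ j, Ovr v1 (S j) (s1 j)
  at1 : ∀ r j (i : Fin (m r)), v1.At (V j ⟨r, i⟩ ^ (F r).M i)
    (ev ((F r).B i) (cb s1 j) / ev ((F r).C i) (cb s1 j) * (1 - η r j))

theorem exists_lines (hF : ∀ r, (F r).Adm) {v0 v1 : Place k (Om k)}
    (hv0 : v0.At (tt k) 0) (hv1 : v1.At (tt k) 1) {s0 : Fin N → Place k L}
    {u : Fin N → Ix m → k}
    (h0 : ∀ j, OnX F (Sum.inr (s0 j) : Bp k L k) fun q => some (u j q))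
    (hC : ∀ j r i, sv ((F r).E i) ((F r).C i) (Sum.inr (s0 j) : Bp k L k) ≠ 0)
    (hA : ∀ j r, 2 ≤ m r → sv (F r).S (F r).A (Sum.inr (s0 j) : Bp k L k) ≠ 0) :
    ∃ s1 η S V, IsLn F v0 v1 s0 u s1 η S V := by
  induction N with
  | zero =>
    exact ⟨fun j => j.elim0, fun _ j => j.elim0, fun j => j.elim0, fun j => j.elim0,
      ⟨fun _ j => j.elim0, fun _ j => j.elim0, fun _ j => j.elim0, fun _ j => j.elim0,
      fun _ j => j.elim0, fun _ j => j.elim0, fun _ j => j.elim0, fun j => j.elim0,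
      fun j => j.elim0, fun j => j.elim0, fun _ j => j.elim0⟩⟩
  | succ N ih =>
    obtain ⟨s1, η, S, V, h⟩ := ih (s0 := fun j => s0 j.succ) (u := fun j => u j.succ)
      (fun j => h0 _) (fun j => hC _) (fun j => hA _)
    have hbad : ∀ r j, ∃ T : Finset k, ∀ b, b ∉ T → Gen (m r) (fun _ => η r j) (fun _ => b) ∧
        Gen (m r) (fun _ => b) fun _ => η r j := by
      intro r j
      obtain ⟨hf1, hf2⟩ := gn_const (m := m r) (h.ne0 r j) (h.ne1 r j)
      refine ⟨hf1.toFinset ∪ hf2.toFinset, fun b hb => ?_⟩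
      rw [mem_union, not_or, Set.Finite.mem_toFinset, Set.Finite.mem_toFinset] at hb
      exact ⟨not_not.1 hb.1, not_not.1 hb.2⟩
    choose T hT using hbad
    obtain ⟨s', S', g1, g2, -, g4, g6, hV⟩ := exists_line hF hv0 hv1 (h0 0) (hC 0) (hA 0)
      (fun r => insert 1 ((univ.image fun j => lam (F r) (cb s1 j)) ∪
        (univ.biUnion fun j => (T r j).image fun b => b ^ m r)))
    have g2' : ∀ r, lam (F r) (Sum.inr s' : Bp k L k) ≠ 1 ∧
        (lam (F r) (Sum.inr s' : Bp k L k) ∉ univ.image fun j => lam (F r) (cb s1 j)) ∧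
        lam (F r) (Sum.inr s' : Bp k L k) ∉
          univ.biUnion fun j => (T r j).image fun b => b ^ m r := by
      intro r
      have h1 := g2 r
      rw [mem_insert, not_or, mem_union, not_or] at h1
      exact h1
    have hroot : ∀ r, ∃ e : k, e ^ m r = lam (F r) (Sum.inr s' : Bp k L k) := fun r =>
      IsAlgClosed.exists_pow_nat_eq _ (hF r).one
    choose e he using hroot
    have hlam0 : ∀ r, lam (F r) (Sum.inr s' : Bp k L k) ≠ 0 := fun r =>
      div_ne_zero ((g1 r).un (hF r)).A (prod_ne_zero_iff.2 fun i _ => ((g1 r).un (hF r)).B i)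
    have he0 : ∀ r, e r ≠ 0 := by
      intro r h1
      apply hlam0 r
      rw [← he r, h1, zero_pow (hF r).one.ne']
    have he1 : ∀ r, e r ≠ 1 := by
      intro r h1
      apply (g2' r).1
      rw [← he r, h1, one_pow]
    obtain ⟨V', g3, g5, g7⟩ := hV (fun r _ => e r) (fun r => good_const (he0 r) (he1 r))
      (fun r => by rw [mu_const, he r])
    have heT : ∀ r j, e r ∉ T r j := by
      intro r j h1
      apply (g2' r).2.2
      rw [mem_biUnion]
      exact ⟨j, mem_univ _, mem_image.2 ⟨e r, h1, he r⟩⟩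
    have hls : ∀ r j, lam (F r) (cb s1 j) ≠ lam (F r) (Sum.inr s' : Bp k L k) := fun r j h1 =>
      (g2' r).2.1 (mem_image.2 ⟨j, mem_univ _, h1⟩)
    refine ⟨Fin.cons s' s1, fun r => Fin.cons (e r) (η r), Fin.cons S' S, Fin.cons V' V,
      ⟨fun r j => ?_, fun r i j hij => ?_, fun r j => ?_, fun r j => ?_, fun r j => ?_,
      fun r i j hij => ?_, fun r j => ?_, fun j => ?_, fun j => ?_, fun j => ?_,
      fun r j => ?_⟩⟩
    · refine Fin.cases ?_ (fun j => ?_) j
      · exact g1 r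
      · exact h.bas r j
    · revert hij
      refine Fin.cases ?_ (fun i => ?_) i <;> refine Fin.cases ?_ (fun j => ?_) j
      · exact fun _ => rfl
      · intro h1
        exact absurd h1.symm (hls r j)
      · intro h1
        exact absurd h1 (hls r i)
      · intro h1
        exact congrArg Fin.succ (h.inj r h1)
    · refine Fin.cases ?_ (fun j => ?_) j
      · exact he0 r
      · exact h.ne0 r j
    · refine Fin.cases ?_ (fun j => ?_) j
      · exact he1 r
      · exact h.ne1 r j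
    · refine Fin.cases ?_ (fun j => ?_) j
      · exact he r
      · exact h.pow r j
    · revert hij
      refine Fin.cases ?_ (fun i => ?_) i <;> refine Fin.cases ?_ (fun j => ?_) j
      · exact fun h => absurd rfl h
      · exact fun _ => (hT r j (e r) (heT r j)).2
      · exact fun _ => (hT r i (e r) (heT r i)).1
      · intro h1
        exact h.gen r i j fun h' => h1 (congrArg Fin.succ h')
    · refine Fin.cases ?_ (fun j => ?_) j
      · exact g3 r
      · exact h.int r j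
    · refine Fin.cases ?_ (fun j => ?_) j
      · exact g4
      · exact h.ovr0 j
    · refine Fin.cases ?_ (fun j => ?_) j
      · exact g5
      · exact h.at0 j
    · refine Fin.cases ?_ (fun j => ?_) j
      · exact g6
      · exact h.ovr1 j
    · refine Fin.cases ?_ (fun j => ?_) j
      · exact g7 r
      · exact h.at1 r j

theorem vanish_int (hF : ∀ r, (F r).Adm) (hm : ∀ r, 0 < m r)
    (hgood : GoodZero F hm E) (hE : IsCF F E) {s0 : Fin N → Place k L}
    {u : Fin N → Ix m → k}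
    (h0 : ∀ j, OnX F (Sum.inr (s0 j) : Bp k L k) fun q => some (u j q))
    (hC : ∀ j r i, sv ((F r).E i) ((F r).C i) (Sum.inr (s0 j) : Bp k L k) ≠ 0)
    (hA : ∀ j r, 2 ≤ m r → sv (F r).S (F r).A (Sum.inr (s0 j) : Bp k L k) ≠ 0) :
    AE m E s0 (som u) = 0 := by
  obtain ⟨v0, hv0⟩ := HYG.exists_place_tt (0 : k)
  obtain ⟨v1, hv1⟩ := HYG.exists_place_tt (1 : k)
  obtain ⟨s1, η, S, V, hl⟩ := exists_lines hF hv0 hv1 h0 hC hA
  have hInt := hl.int
  have hUS : ∀ r j, Un (F r) (S j) := fun r j => (hInt r j).un (hF r)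
  have hU1 : ∀ r j, Un (F r) (cb s1 j) := fun r j => (hl.bas r j).un (hF r)
  set Z : ∀ _ : κ, Fin N → ℕ → Om k := fun r j => row (F r) (hm r) (S j) (cmp (V j) r) with hZ
  have hZG : ∀ r j, Good (m r) (Z r j) := fun r j => (hInt r j).good (hF r) (hm r)
  have hZ1 : ∀ r j i, v1.At (Z r j i) (η r j) := by
    intro r j i
    have h1 := xx_at (hF r) (hl.ovr1 j) (hl.bas r j) (V := cmp (V j) r)
      (i := ⟨i % m r, Nat.mod_lt i (hm r)⟩) (hl.at1 r j _)
    have h2 : 1 - ev ((F r).C ⟨i % m r, Nat.mod_lt i (hm r)⟩) (cb s1 j) *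
        (ev ((F r).B ⟨i % m r, Nat.mod_lt i (hm r)⟩) (cb s1 j) / ev
        ((F r).C ⟨i % m r, Nat.mod_lt i (hm r)⟩) (cb s1 j) * (1 - η r j)) /
        ev ((F r).B ⟨i % m r, Nat.mod_lt i (hm r)⟩) (cb s1 j) = η r j := by
      have h3 := (hU1 r j).B ⟨i % m r, Nat.mod_lt i (hm r)⟩
      have h4 := (hU1 r j).C ⟨i % m r, Nat.mod_lt i (hm r)⟩
      field_simp
      ring
    rw [h2] at h1
    exact h1
  have hinjc : ∀ r, Function.Injective fun j => mu (m r) fun _ : ℕ => η r j :=
    fun r i j hij => hl.inj r (by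
      have h1 : mu (m r) (fun _ : ℕ => η r i) = mu (m r) fun _ : ℕ => η r j := hij
      rw [mu_const, mu_const, hl.pow, hl.pow] at h1
      exact h1)
  choose O hO hO1 using fun r => Ords.lift v1 (hm r) (X := Z r) (X' := fun j _ => η r j)
    (fun j => (hZG r j).per) (fun j => good_const (hl.ne0 r j) (hl.ne1 r j)) (hZ1 r) (hinjc r)
    (ords_const (hl.ne0 r) (hl.ne1 r))
  -- genericity along the curve
  have hΓ1 : ∀ q : κ × Equiv.Perm (Fin N) × Fin N × Fin N, ∃ Γ : Finset (Om k),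
      (0 : Om k) ∉ Γ ∧
      (((q.2.2.2 : ℕ) = q.2.2.1 + 1) → ∀ (w : Place k (Om k)) (x'' y'' : ℕ → k),
      (∀ g ∈ Γ, g ∈ w.ring ∧ g⁻¹ ∈ w.ring) → Good (m q.1) x'' → Good (m q.1) y'' →
      mu (m q.1) x'' ≠ mu (m q.1) y'' →
      (∀ i, w.At (O q.1 q.2.1 q.2.2.1 i) (x'' i)) →
      (∀ i, w.At (O q.1 q.2.1 q.2.2.2 i) (y'' i)) → Gen (m q.1) x'' y'') := by
    rintro ⟨r, σ, j, j'⟩
    by_cases hj : (j' : ℕ) = j + 1
    · have hne : j ≠ j' := by
        intro h
        rw [h] at hj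
        omega
      obtain ⟨Γ, h1, h2⟩ := openGen (m := m r) (O r σ j) (O r σ j') v1 (fun _ => η r (σ j))
        (fun _ => η r (σ j'))
        (good_const (hl.ne0 _ _) (hl.ne1 _ _)) (good_const (hl.ne0 _ _) (hl.ne1 _ _))
        (fun h => hne (σ.injective (hinjc r h))) (hO1 r σ j) (hO1 r σ j')
        (hl.gen r _ _ fun h => hne (σ.injective h))
      exact ⟨Γ, h1, fun _ => h2⟩
    · exact ⟨∅, by simp, fun h => absurd h hj⟩
  choose Γ1 hΓ10 hΓ1 using hΓ1
  obtain ⟨G1, hG10, hG1⟩ := families Γ1 hΓ10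
  obtain ⟨G2, hG20, hG2⟩ := family (fun q : Σ r : κ, Equiv.Perm (Fin N) × Fin N × Fin (m r) =>
    O q.1 q.2.1 q.2.2.1 q.2.2.2) fun q => ((hO q.1).good _ _).ne0 _
  obtain ⟨G3, hG30, hG3⟩ := family (fun q : Σ r : κ, Equiv.Perm (Fin N) × Fin N × Fin (m r) =>
    1 - O q.1 q.2.1 q.2.2.1 q.2.2.2) fun q => sub_ne_zero.2 (((hO q.1).good _ _).ne1 _).symm
  obtain ⟨G7, hG70, hG7⟩ := family (fun q : Fin N × Ix m => V q.1 q.2)
    fun q => (hInt q.2.1 q.1).w q.2.2
  have hlinj : ∀ r j j', j ≠ j' → lam (F r) (S j) - lam (F r) (S j') ≠ 0 := by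
    intro r j j' hne h0
    have h1 := (lam_at (hF r) (hl.ovr1 j) (hl.bas r j)).sub
      (lam_at (hF r) (hl.ovr1 j') (hl.bas r j'))
    rw [h0] at h1
    exact hne (hl.inj r (sub_eq_zero.1 (h1.unique (at_zero v1))))
  obtain ⟨G8, hG80, hG8⟩ := family (fun q : κ × {q : Fin N × Fin N // q.1 ≠ q.2} =>
    lam (F q.1) (S q.2.1.1) - lam (F q.1) (S q.2.1.2)) fun q => hlinj _ _ _ q.2.2
  -- the places with bad values of the points of the curve
  have hΓ9 : ∀ j : Fin N, ∃ Γ : Finset (Om k), (0 : Om k) ∉ Γ ∧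
      ∀ w : Place k (Om k), (∀ g ∈ Γ, g ∈ w.ring ∧ g⁻¹ ∈ w.ring) →
        ∀ r, Bas (F r) (vb w (S j)) := by
    intro j
    rcases hj : S j with σ | c
    · choose U hU using fun r => exists_bad (hF r) (∅ : Finset k)
      obtain ⟨Γ, h1, h2⟩ := family (fun q : (univ.biUnion U : Finset (Place k L)) =>
        σ (EFC.unif q.1)) fun q => (_root_.map_ne_zero _).2 (EFC.unif_ne hL.out q.1)
      refine ⟨Γ, h1, fun w hw r => (hU r _ fun h3 => ?_).1⟩
      have h3' : vb w (Sum.inl σ : Bp k L (Om k)) ∈ univ.biUnion U :=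
        mem_biUnion.2 ⟨r, mem_univ _, h3⟩
      have h4 : Ovr w (Sum.inl σ : Bp k L (Om k)) (vb w (Sum.inl σ)) := ovr_vb w _
      set q := vb w (Sum.inl σ : Bp k L (Om k)) with hq
      have h5 := hw _ (h2 ⟨q, h3'⟩)
      have h6 : ∀ g : L, σ g ∈ w.ring → g ∈ q.ring := fun g hg => by
        have h7 : w.ring.comap (σ : L →+* Om k) = q.ring := h4
        rw [← h7]
        exact ValuationSubring.mem_comap.2 hg
      have h8 : EFC.unif q ∈ q.ring ∧ (EFC.unif q)⁻¹ ∈ q.ring :=
        ⟨h6 _ h5.1, h6 _ (by rw [map_inv₀]; exact h5.2)⟩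
      have h9 := (ord_eq_zero_iff hL.out (EFC.unif_ne hL.out q)).2 h8
      rw [EFC.ord_unif' hL.out] at h9
      exact one_ne_zero h9
    · refine ⟨∅, by simp, fun w _ r => ?_⟩
      exact (hInt r j).base c hj
  choose Γ9 hΓ90 hΓ9 using hΓ9
  obtain ⟨G9, hG90, hG9⟩ := families Γ9 hΓ90
  have htt : tt k ≠ 0 := by
    intro h
    have h1 := hv1
    rw [h] at h1
    exact one_ne_zero (h1.unique (at_zero v1))
  set Γ : Finset (Om k) := {tt k} ∪ (G1 ∪ (G2 ∪ (G3 ∪ (G7 ∪ (G8 ∪ G9))))) with hΓ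
  have hΓ0 : (0 : Om k) ∉ Γ := by
    simp only [hΓ, mem_union, mem_singleton, not_or]
    exact ⟨htt.symm, hG10, hG20, hG30, hG70, hG80, hG90⟩
  have key : ∀ w : Place k (Om k), (∀ g ∈ Γ, g ∈ w.ring ∧ g⁻¹ ∈ w.ring) →
      AE m E (fun j => vb w (S j)) (fun j q => vlo w (some (V j q))) = 0 := by
    intro w hw
    simp only [hΓ, mem_union, mem_singleton] at hw
    set sw : Fin N → Place k L := fun j => vb w (S j) with hsw0
    have hsw : ∀ j, Ovr w (S j) (sw j) := fun j => ovr_vb w (S j)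
    have hbw : ∀ r j, Bas (F r) (sw j) := fun r j => hΓ9 j w (fun g hg =>
      hw _ (Or.inr (Or.inr (Or.inr (Or.inr (Or.inr (Or.inr (hG9 j g hg)))))))) r
    have hUw : ∀ r j, Un (F r) (cb sw j) := fun r j => (hbw r j).un (hF r)
    have hVw : ∀ j q, ∃ c, c ≠ 0 ∧ w.At (V j q) c := fun j q => by
      have h1 := hw _ (Or.inr (Or.inr (Or.inr (Or.inr (Or.inl (hG7 (j, q)))))))
      exact unit_at ((hInt q.1 j).w q.2) h1.1 h1.2
    choose ww hww0 hww using hVw
    have hIw : ∀ r j, Int (F r) (cb sw j) (cmp (ww j) r) := fun r j => by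
      refine ⟨?_, base_inr.2 (hbw r j), fun i => hww0 j ⟨r, i⟩⟩
      have h1 : w.At (∏ i, (ev ((F r).B i) (S j) - ev ((F r).C i) (S j) *
          V j ⟨r, i⟩ ^ (F r).M i))
          (∏ i, (ev ((F r).B i) (cb sw j) - ev ((F r).C i) (cb sw j) *
          ww j ⟨r, i⟩ ^ (F r).M i)) :=
        Place.At.prod fun i _ => (evB_at (hF r) (hsw j) (hbw r j) i).sub
          ((evC_at (hF r) (hsw j) (hbw r j) i).mul ((hww j ⟨r, i⟩).pow _))
      rw [(hInt r j).onY] at h1
      exact h1.unique (evA_at (hF r) (hsw j) (hbw r j))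
    have hlamw : ∀ r j, w.At (lam (F r) (S j)) (lam (F r) (cb sw j)) := fun r j =>
      lam_at (hF r) (hsw j) (hbw r j)
    have hinjw : ∀ r, Function.Injective fun j => lam (F r) (cb sw j) := by
      intro r j j' hjj
      by_contra hne
      have h1 := hw _ (Or.inr (Or.inr (Or.inr (Or.inr (Or.inr (Or.inl
        (hG8 (r, ⟨(j, j'), hne⟩))))))))
      obtain ⟨c, hc0, hc⟩ := unit_at (hlinj r j j' hne) h1.1 h1.2
      apply hc0
      rw [hc.unique ((hlamw r j).sub (hlamw r j'))]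
      exact sub_eq_zero.2 hjj
    have hrow : ∀ r j i, w.At (Z r j i) (row (F r) (hm r) (cb sw j) (cmp (ww j) r) i) := by
      intro r j i
      exact xx_at (hF r) (hsw j) (hbw r j) ((hww j _).pow _)
    -- the values of the factorisations
    have hOw : ∀ r σ j i, ∃ c, (c ≠ 0 ∧ c ≠ 1) ∧ w.At (O r σ j i) c := by
      intro r σ j i
      have h1 : O r σ j i = O r σ j ((⟨i % m r, Nat.mod_lt i (hm r)⟩ : Fin (m r)) : ℕ) := by
        have h2 := per_eq ((hO r).good σ j).per (hm r)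
        exact (congrFun h2 i).symm
      rw [h1]
      have h2 := hw _ (Or.inr (Or.inr (Or.inl
        (hG2 ⟨r, σ, j, ⟨i % m r, Nat.mod_lt i (hm r)⟩⟩))))
      have h3 := hw _ (Or.inr (Or.inr (Or.inr (Or.inl
        (hG3 ⟨r, σ, j, ⟨i % m r, Nat.mod_lt i (hm r)⟩⟩)))))
      obtain ⟨c, hc0, hc⟩ := unit_at (((hO r).good σ j).ne0 _) h2.1 h2.2
      obtain ⟨c', hc0', hc'⟩ := unit_at (sub_ne_zero.2 (((hO r).good σ j).ne1 _).symm)
        h3.1 h3.2
      refine ⟨c, ⟨hc0, fun h4 => hc0' ?_⟩, hc⟩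
      rw [hc'.unique ((at_one w).sub hc), h4, sub_self]
    choose Ow hOw01 hOw using hOw
    have hXw1 : ∀ r j i, row (F r) (hm r) (cb sw j) (cmp (ww j) r) i ≠ 1 :=
      fun r j => ((hIw r j).good (hF r) (hm r)).ne1
    have hOrd : ∀ r, Ords (m r) (fun j => row (F r) (hm r) (cb sw j) (cmp (ww j) r)) (Ow r) :=
      fun r => (hO r).at (hrow r) (hXw1 r) (hOw r) (fun σ j i => (hOw01 r σ j i).1)
        fun σ j i => (hOw01 r σ j i).2
    have h1 : AE m E sw (som ww) = 0 := by
      refine hgood sw (fun r j => row (F r) (hm r) (cb sw j) (cmp (ww j) r)) Ow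
        (fun q => ∏ j, ww j q) ww (fun r => ⟨hIw r, fun _ => rfl, fun _ => rfl⟩) hinjw hOrd
        fun r σ j j' hj => ?_
      refine hΓ1 (r, σ, j, j') hj w _ _ (fun g hg => hw _ (Or.inr (Or.inl (hG1 _ g hg))))
        ((hOrd r).good σ j) ((hOrd r).good σ j') (fun h2 => ?_) (hOw r σ j) (hOw r σ j')
      rw [(hOrd r).mu, (hOrd r).mu, (hIw r _).mu (hF r) (hm r),
        (hIw r _).mu (hF r) (hm r)] at h2
      have h3 := σ.injective (hinjw r h2)
      rw [h3] at hj
      omega
    have h3 : (fun j q => vlo w (some (V j q))) = som ww := by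
      funext j q
      exact vlo_at (hww j q)
    rw [h3]
    exact h1
  have hmov := moving (isCF_AE hE) (s := S) (u := fun j q => some (V j q))
    (fun j r => (hInt r j).onY_some) Γ hΓ0 key v0
  have h2 : (fun j => vb v0 (S j)) = s0 := by
    funext j
    exact vb_eq (hl.ovr0 j)
  have h3 : (fun j q => vlo v0 (some (V j q))) = som u := by
    funext j q
    exact vlo_at (hl.at0 j q)
  rw [h2, h3] at hmov
  exact hmov

end Pool.Agent.HGP
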