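import Pool.Agent.HGP.StA
import Pool.Agent.HGF.StB
import Pool.Agent.HGF.CoE
import Pool.Agent.HGF.CoF

/-!
# Package HGP-StB: all factorisations of the operators give the same value

The port of `Pool/Agent/HGFC/StB.lean` to fibre products: there are operators for every component `r`,
and all of them are reordered by the same permutation.

Proof of `ae_swap`: for every component `r` the new points `w1 r : Fin N → Fin (m r) → k` are
constructed as in `HGFC.ae_swap` (this part is about one component only; please make it a lemma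
`swap1`). Then exchange the components one after the other (induction over a finite set `T` of
components: the coordinates of the components in `T` are the new ones), `hcore r` gives the sign
`(-1) ^ (m r + 1)` in each step; the product of the signs is `(-1) ^ (∑ r, (m r + 1))`, and it is
cancelled by the sign of the transposition in `AE` (`ae_comp`). `orders` is then the same induction over
the permutations as in `HGFC.orders`, with `O r` for all `r` at the same time (`hO`, `hgen` for all
`r`; `hinj` for all `r`).
-/

set_option autoImplicit false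
set_option linter.unusedSectionVars false

noncomputable section

namespace Pool.Agent.HGP

open Finset Pool.Agent.ZCyc Pool.Agent.Dess Pool.Agent.TInc Pool.Agent.HGF
open scoped Classical

variable {k : Type} [Field k] [IsAlgClosed k] [CharZero k] {L : Type} [Field L] [Algebra k L]
  [hL : Fact (IsCurve k L)] {κ : Type} [Fintype κ] {m : κ → ℕ} {N : ℕ} {F : ∀ r, Fam k L (m r)}
  {W : Type} [AddCommGroup W]

/-- `E` depends only on the `M`-th powers and on the products of the coordinates -/
def ProdInv (F : ∀ r, Fam k L (m r))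
    (E : (Fin N → Place k L) → (Fin N → Ix m → Option k) → W) : Prop :=
  ∀ (s : Fin N → Place k L) (w w' : Fin N → Ix m → k),
    (∀ r j, Int (F r) (cb s j) (cmp (w j) r)) → (∀ r j, Int (F r) (cb s j) (cmp (w' j) r)) →
    (∀ j q, w' j q ^ MX F q = w j q ^ MX F q) →
    (∀ q, ∏ j, w' j q = ∏ j, w j q) → E s (som w') = E s (som w)

/-- the core relation for the component `r` and two points -/
def CoreRel (F : ∀ r, Fam k L (m r)) (hm : ∀ r, 0 < m r) (r : κ)
    (E : (Fin N → Place k L) → (Fin N → Ix m → Option k) → W) : Prop :=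
  ∀ (s : Fin N → Place k L) (w w' : Fin N → Ix m → k) (a b : Fin N), a ≠ b →
    (∀ r j, Int (F r) (cb s j) (cmp (w j) r)) → (∀ r j, Int (F r) (cb s j) (cmp (w' j) r)) →
    (∀ j (q : Ix m), q.1 ≠ r → w' j q = w j q) →
    (∀ l, l ≠ a → l ≠ b → w' l = w l) → (∀ q, w' a q * w' b q = w a q * w b q) →
    lam (F r) (cb s a) ≠ lam (F r) (cb s b) →
    Gen (m r) (row (F r) (hm r) (cb s a) (cmp (w a) r)) (row (F r) (hm r) (cb s b) (cmp (w b) r)) →
    row (F r) (hm r) (cb s a) (cmp (w' a) r) =
      rX (m r) (row (F r) (hm r) (cb s a) (cmp (w a) r)) (row (F r) (hm r) (cb s b) (cmp (w b) r)) →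
    row (F r) (hm r) (cb s b) (cmp (w' b) r) =
      rY (m r) (row (F r) (hm r) (cb s a) (cmp (w a) r)) (row (F r) (hm r) (cb s b) (cmp (w b) r)) →
    E s (som w) = ((-1 : ℤ) ^ (m r + 1)) • E s (som w')

lemma ae_comp (E : (Fin N → Place k L) → (Fin N → Ix m → Option k) → W) (s : Fin N → Place k L)
    (u : Fin N → Ix m → Option k) (τ : Equiv.Perm (Fin N)) :
    AE m E (fun j => s (τ j)) (fun j => u (τ j)) =
      ((Equiv.Perm.sign τ : ℤ) ^ (∑ r, (m r + 1))) • AE m E s u := by
  unfold AE
  rw [smul_sum, ← Equiv.sum_comp (Equiv.mulLeft τ)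
    fun π => ((Equiv.Perm.sign τ : ℤ) ^ (∑ r, (m r + 1))) •
      (((Equiv.Perm.sign π : ℤ) ^ (∑ r, (m r + 1))) • E (fun j => s (π j)) fun j => u (π j))]
  refine sum_congr rfl fun π _ => ?_
  show _ = ((Equiv.Perm.sign τ : ℤ) ^ (∑ r, (m r + 1))) •
    (((Equiv.Perm.sign (τ * π) : ℤ) ^ (∑ r, (m r + 1))) •
      E (fun j => s (τ (π j))) fun j => u (τ (π j)))
  have h1 : (Equiv.Perm.sign τ : ℤ) * (Equiv.Perm.sign τ : ℤ) = 1 := by
    rcases Int.units_eq_one_or (Equiv.Perm.sign τ) with h | h <;> rw [h] <;> rfl
  rw [smul_smul, Equiv.Perm.sign_mul, Units.val_mul, ← mul_pow, ← mul_assoc, h1, one_mul]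

lemma ae_congr {E : (Fin N → Place k L) → (Fin N → Ix m → Option k) → W}
    {s s' : Fin N → Place k L} {u u' : Fin N → Ix m → Option k} (c : ℤ)
    (h : ∀ π : Equiv.Perm (Fin N), E (fun j => s (π j)) (fun j => u (π j)) =
      c • E (fun j => s' (π j)) fun j => u' (π j)) : AE m E s u = c • AE m E s' u' := by
  unfold AE
  rw [smul_sum]
  refine sum_congr rfl fun π _ => ?_
  rw [h π, smul_comm]

/-- the value of `AE` for a state does not depend on the choice of the roots -/
lemma ae_st (hF : ∀ r, (F r).Adm) (hm : ∀ r, 0 < m r)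
    {E : (Fin N → Place k L) → (Fin N → Ix m → Option k) → W}
    (heq : ProdInv F E) {s : Fin N → Place k L} {X : ∀ _ : κ, Fin N → ℕ → k} {p : Ix m → k}
    {w w' : Fin N → Ix m → k} (h : IsSt F hm (cb s) X p w) (h' : IsSt F hm (cb s) X p w') :
    AE m E s (som w') = AE m E s (som w) := by
  rw [ae_congr (E := E) (s := s) (s' := s) (u := som w') (u' := som w) 1, one_smul]
  intro π
  rw [one_smul]
  refine heq (fun j => s (π j)) (fun j => w (π j)) (fun j => w' (π j))
    (fun r j => (h r).int _) (fun r j => (h' r).int _) (fun j q => ?_) fun q => ?_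
  · have h1 := pow_of_row (hm q.1) (((h q.1).int (π j)).un (hF q.1)) ((h q.1).row (π j)) q.2
    have h2 := pow_of_row (hm q.1) (((h' q.1).int (π j)).un (hF q.1)) ((h' q.1).row (π j)) q.2
    exact h2.trans h1.symm
  · have h1 := (h q.1).prod q.2
    have h2 := (h' q.1).prod q.2
    rw [Equiv.prod_comp π fun j => w' j q, Equiv.prod_comp π fun j => w j q]
    exact h2.trans h1.symm

/-- the new points of one component -/
private lemma swap1 {n : ℕ} {G : Fam k L n} (hG : G.Adm) (hn : 0 < n) {s : Fin N → Place k L}
    {X : Fin N → ℕ → k} {p : Fin n → k} {w : Fin N → Fin n → k}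
    (h : IsSt1 G hn (cb s) X p w) {a b : Fin N} (hab : a ≠ b)
    (hlam : lam G (cb s a) ≠ lam G (cb s b)) (hgen : Gen n (X a) (X b)) :
    ∃ w1 : Fin N → Fin n → k, (∀ j, Int G (cb s j) (w1 j)) ∧
      (∀ l, l ≠ a → l ≠ b → w1 l = w l) ∧ (∀ i, w1 a i * w1 b i = w a i * w b i) ∧
      row G hn (cb s a) (w1 a) = rX n (X a) (X b) ∧
      row G hn (cb s b) (w1 b) = rY n (X a) (X b) ∧
      IsSt1 G hn (cb fun j => s (Equiv.swap a b j))
        (Function.update (Function.update X a (rY n (X a) (X b))) b (rX n (X a) (X b))) p
        fun j => w1 (Equiv.swap a b j) := by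
  set x := X a with hx
  set y := X b with hy
  have hgx : Good n x := by
    rw [hx, ← h.row]
    exact (h.int a).good hG hn
  have hgy : Good n y := by
    rw [hy, ← h.row]
    exact (h.int b).good hG hn
  have hmx : mu n x = lam G (cb s a) := by
    rw [hx, ← h.row]
    exact (h.int a).mu hG hn
  have hmy : mu n y = lam G (cb s b) := by
    rw [hy, ← h.row]
    exact (h.int b).mu hG hn
  obtain ⟨g1, g2, g3, g4, g5⟩ := rProp hn x y hgx hgy (by rwa [hmx, hmy]) hgen
  -- the new roots at `a`
  have hprod : ∀ i, (1 - rX n x y i) * (1 - rY n x y i) = (1 - x i) * (1 - y i) := by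
    intro i
    have h1 := prod_one_sub (N := 2) (X := ![x, y]) (Y := ![rY n x y, rX n x y]) (by
      funext ψ
      exact g5 ψ) i
    rw [Fin.prod_univ_two, Fin.prod_univ_two] at h1
    rw [mul_comm]
    exact h1
  have hBa : ∀ i, ev (G.B i) (cb s a) / ev (G.C i) (cb s a) ≠ 0 := fun i =>
    div_ne_zero (((h.int a).un hG).B i) (((h.int a).un hG).C i)
  have h0 : ∀ i : Fin n, ∃ r : k,
      r ^ G.M i = ev (G.B i) (cb s a) / ev (G.C i) (cb s a) * (1 - rX n x y i) := fun i =>
    IsAlgClosed.exists_pow_nat_eq _ (hG.M0 i)
  choose r hrr using h0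
  have hr0 : ∀ i, r i ≠ 0 := by
    intro i hi
    have h1 := hrr i
    rw [hi, zero_pow (hG.M0 i).ne'] at h1
    exact mul_ne_zero (hBa i) (sub_ne_zero.2 (g1.ne1 i).symm) h1.symm
  set w1 : Fin N → Fin n → k := Function.update (Function.update w a r) b
    fun i => w a i * w b i / r i with hw1
  have hw1a : w1 a = r := by
    rw [hw1, Function.update_of_ne hab, Function.update_self]
  have hw1b : w1 b = fun i => w a i * w b i / r i := by
    rw [hw1, Function.update_self]
  have hw1l : ∀ l, l ≠ a → l ≠ b → w1 l = w l := by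
    intro l hla hlb
    rw [hw1, Function.update_of_ne hlb, Function.update_of_ne hla]
  have hrow1a : row G hn (cb s a) (w1 a) = rX n x y := by
    rw [hw1a]
    exact row_of_pow hn ((h.int a).un hG) g1.per hrr
  have hrow1b : row G hn (cb s b) (w1 b) = rY n x y := by
    rw [hw1b]
    refine row_of_pow hn ((h.int b).un hG) g2.per fun i => ?_
    rw [div_pow, mul_pow, hrr, pow_of_row hn ((h.int a).un hG) (h.row a) i,
      pow_of_row hn ((h.int b).un hG) (h.row b) i, ← hx, ← hy]
    have h1 := hBa i
    have h2 : 1 - rX n x y i ≠ 0 := sub_ne_zero.2 (g1.ne1 i).symm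
    rw [div_eq_iff (mul_ne_zero h1 h2)]
    linear_combination (ev (G.B i) (cb s a) / ev (G.C i) (cb s a)) *
      (ev (G.B i) (cb s b) / ev (G.C i) (cb s b)) * (-hprod i)
  have hint1 : ∀ j, Int G (cb s j) (w1 j) := by
    intro j
    by_cases hja : j = a
    · subst hja
      refine int_of_row hG hn (h.int j).base ?_ ?_
      · rw [hrow1a]
        exact g1
      · rw [hrow1a, g3, hmx]
    · by_cases hjb : j = b
      · subst hjb
        refine int_of_row hG hn (h.int j).base ?_ ?_
        · rw [hrow1b]
          exact g2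
        · rw [hrow1b, g4, hmy]
      · rw [hw1l j hja hjb]
        exact h.int j
  have hpair : ∀ i, w1 a i * w1 b i = w a i * w b i := by
    intro i
    rw [hw1a, hw1b]
    exact mul_div_cancel₀ _ (hr0 i)
  refine ⟨w1, hint1, hw1l, hpair, hrow1a, hrow1b, fun j => hint1 _, fun j => ?_, fun i => ?_⟩
  · show row G hn (cb s (Equiv.swap a b j)) (w1 (Equiv.swap a b j)) = _
    by_cases hjb : j = b
    · subst hjb
      rw [Equiv.swap_apply_right, Function.update_self]
      exact hrow1a
    · rw [Function.update_of_ne hjb]
      by_cases hja : j = a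
      · subst hja
        rw [Equiv.swap_apply_left, Function.update_self]
        exact hrow1b
      · rw [Function.update_of_ne hja, Equiv.swap_apply_of_ne_of_ne hja hjb, hw1l j hja hjb]
        exact h.row j
  · rw [Equiv.prod_comp (Equiv.swap a b) fun j => w1 j i, ← h.prod]
    have h1 : ∀ u : Fin N → Fin n → k, ∏ j, u j i = u a i * (u b i *
        ∏ j ∈ (univ.erase a).erase b, u j i) := by
      intro u
      rw [← mul_prod_erase univ _ (mem_univ a), ← mul_prod_erase (univ.erase a) _
        (mem_erase.2 ⟨hab.symm, mem_univ b⟩)]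
    rw [h1, h1, ← mul_assoc, ← mul_assoc, hpair]
    congr 1
    refine prod_congr rfl fun j hj => ?_
    rw [mem_erase, mem_erase] at hj
    rw [hw1l j hj.2.1 hj.1]

/-- the coordinates of the components in `T` are replaced by the new ones -/
private def mixT (T : Finset κ) (w : Fin N → Ix m → k) (v : ∀ r, Fin N → Fin (m r) → k) :
    Fin N → Ix m → k := fun j q => if q.1 ∈ T then v q.1 j q.2 else w j q

omit [Fintype κ] [IsAlgClosed k] [CharZero k] in
private lemma cmp_mixT_in {T : Finset κ} {r : κ} (hr : r ∈ T) (w : Fin N → Ix m → k)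
    (v : ∀ r, Fin N → Fin (m r) → k) (j : Fin N) : cmp (mixT T w v j) r = v r j := by
  funext i
  show (if r ∈ T then v r j i else w j ⟨r, i⟩) = v r j i
  rw [if_pos hr]

omit [Fintype κ] [IsAlgClosed k] [CharZero k] in
private lemma cmp_mixT_out {T : Finset κ} {r : κ} (hr : r ∉ T) (w : Fin N → Ix m → k)
    (v : ∀ r, Fin N → Fin (m r) → k) (j : Fin N) : cmp (mixT T w v j) r = cmp (w j) r := by
  funext i
  show (if r ∈ T then v r j i else w j ⟨r, i⟩) = w j ⟨r, i⟩
  rw [if_neg hr]

/-- exchange of two neighbours -/
theorem ae_swap (hF : ∀ r, (F r).Adm) (hm : ∀ r, 0 < m r)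
    {E : (Fin N → Place k L) → (Fin N → Ix m → Option k) → W}
    (hcore : ∀ r, CoreRel F hm r E) {s : Fin N → Place k L}
    {X : ∀ _ : κ, Fin N → ℕ → k} {p : Ix m → k} {w : Fin N → Ix m → k}
    (h : IsSt F hm (cb s) X p w) {a b : Fin N} (hab : a ≠ b)
    (hlam : ∀ r, lam (F r) (cb s a) ≠ lam (F r) (cb s b))
    (hgen : ∀ r, Gen (m r) (X r a) (X r b)) :
    ∃ w', IsSt F hm (cb fun j => s (Equiv.swap a b j))
      (fun r => Function.update (Function.update (X r) a (rY (m r) (X r a) (X r b))) b
        (rX (m r) (X r a) (X r b))) p w' ∧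
      AE m E (fun j => s (Equiv.swap a b j)) (som w') = AE m E s (som w) := by
  choose v hv1 hv2 hv3 hv4 hv5 hv6 using fun r => swap1 (hF r) (hm r) (h r) hab (hlam r) (hgen r)
  have hintT : ∀ (T : Finset κ) r j, Int (F r) (cb s j) (cmp (mixT T w v j) r) := by
    intro T r j
    by_cases hr : r ∈ T
    · rw [cmp_mixT_in hr]
      exact hv1 r j
    · rw [cmp_mixT_out hr]
      exact (h r).int j
  have hlT : ∀ (T : Finset κ) l, l ≠ a → l ≠ b → mixT T w v l = w l := by
    intro T l hla hlb
    funext q
    show (if q.1 ∈ T then v q.1 l q.2 else w l q) = w l q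
    split_ifs with hq
    · exact congrFun (hv2 q.1 l hla hlb) q.2
    · rfl
  have hpT : ∀ (T : Finset κ) q, mixT T w v a q * mixT T w v b q = w a q * w b q := by
    intro T q
    show (if q.1 ∈ T then v q.1 a q.2 else w a q) * (if q.1 ∈ T then v q.1 b q.2 else w b q) = _
    split_ifs with hq
    · exact hv3 q.1 q.2
    · rfl
  have hcb : ∀ (π : Equiv.Perm (Fin N)) l, cb (fun j => s (π j)) (π.symm l) = cb s l := by
    intro π l
    show (Sum.inr (s (π (π.symm l))) : Bp k L k) = Sum.inr (s l)
    rw [Equiv.apply_symm_apply]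
  have hstep : ∀ T : Finset κ, AE m E s (som w) =
      ((-1 : ℤ) ^ (∑ r ∈ T, (m r + 1))) • AE m E s (som (mixT T w v)) := by
    intro T
    induction T using Finset.induction_on with
    | empty =>
      have h1 : mixT ∅ w v = w := by
        funext j q
        show (if q.1 ∈ (∅ : Finset κ) then v q.1 j q.2 else w j q) = w j q
        rw [if_neg (notMem_empty _)]
      rw [h1, sum_empty, pow_zero, one_smul]
    | insert r T hr ih =>
      rw [ih, sum_insert hr, pow_add, mul_comm, mul_smul]
      congr 1
      refine ae_congr _ fun π => ?_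
      refine hcore r (fun j => s (π j)) (fun j => mixT T w v (π j))
        (fun j => mixT (insert r T) w v (π j)) (π.symm a) (π.symm b)
        (fun h1 => hab (π.symm.injective h1)) (fun r' j => hintT T r' _)
        (fun r' j => hintT _ r' _) (fun j q hq => ?_)
        (fun l hla hlb => ?_) (fun q => ?_) ?_ ?_ ?_ ?_
      · show (if q.1 ∈ insert r T then v q.1 (π j) q.2 else w (π j) q) =
          if q.1 ∈ T then v q.1 (π j) q.2 else w (π j) q
        have h1 : (q.1 ∈ insert r T) = (q.1 ∈ T) := by
          rw [mem_insert, eq_iff_iff, or_iff_right hq]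
        simp only [h1]
      · have h1 : π l ≠ a := fun h1 => hla (by rw [← h1, Equiv.symm_apply_apply])
        have h2 : π l ≠ b := fun h1 => hlb (by rw [← h1, Equiv.symm_apply_apply])
        show mixT (insert r T) w v (π l) = mixT T w v (π l)
        rw [hlT _ _ h1 h2, hlT _ _ h1 h2]
      · rw [Equiv.apply_symm_apply, Equiv.apply_symm_apply, hpT, hpT]
      · rw [hcb π, hcb π]
        exact hlam r
      · rw [hcb π, hcb π, Equiv.apply_symm_apply, Equiv.apply_symm_apply, cmp_mixT_out hr,
          cmp_mixT_out hr, (h r).row, (h r).row]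
        exact hgen r
      · rw [hcb π, hcb π, Equiv.apply_symm_apply, Equiv.apply_symm_apply, cmp_mixT_out hr,
          cmp_mixT_out hr, (h r).row, (h r).row, cmp_mixT_in (mem_insert_self r T)]
        exact hv4 r
      · rw [hcb π, hcb π, Equiv.apply_symm_apply, Equiv.apply_symm_apply, cmp_mixT_out hr,
          cmp_mixT_out hr, (h r).row, (h r).row, cmp_mixT_in (mem_insert_self r T)]
        exact hv5 r
  refine ⟨fun j => mixT univ w v (Equiv.swap a b j), fun r => ?_, ?_⟩
  · have h1 : (fun j => cmp (mixT univ w v (Equiv.swap a b j)) r) =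
        fun j => v r (Equiv.swap a b j) := by
      funext j
      exact cmp_mixT_in (mem_univ r) w v _
    rw [h1]
    exact hv6 r
  · have h1 := ae_comp E s (som (mixT univ w v)) (Equiv.swap a b)
    have h2 : AE m E (fun j => s (Equiv.swap a b j))
        (som fun j => mixT univ w v (Equiv.swap a b j)) =
        AE m E (fun j => s (Equiv.swap a b j))
          fun j => som (mixT univ w v) (Equiv.swap a b j) := rfl
    rw [h2, h1, hstep univ, Equiv.Perm.sign_swap hab, Units.val_neg, Units.val_one]

/-- **All factorisations of the operators give the same value.** -/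
theorem orders (hF : ∀ r, (F r).Adm) (hm : ∀ r, 0 < m r)
    {E : (Fin N → Place k L) → (Fin N → Ix m → Option k) → W} (heq : ProdInv F E)
    (hcore : ∀ r, CoreRel F hm r E) {s : Fin N → Place k L}
    (hinj : ∀ r, Function.Injective fun j => lam (F r) (cb s j)) {X : ∀ _ : κ, Fin N → ℕ → k}
    {O : ∀ _ : κ, Equiv.Perm (Fin N) → Fin N → ℕ → k} (hO : ∀ r, Ords (m r) (X r) (O r))
    (hgen : ∀ r (σ : Equiv.Perm (Fin N)) (j j' : Fin N), (j' : ℕ) = j + 1 →
      Gen (m r) (O r σ j) (O r σ j')) {p : Ix m → k} {w : Fin N → Ix m → k}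
    (hw : IsSt F hm (cb s) X p w) (σ : Equiv.Perm (Fin N)) {w' : Fin N → Ix m → k}
    (hw' : IsSt F hm (cb fun j => s (σ j)) (fun r => O r σ) p w') :
    AE m E (fun j => s (σ j)) (som w') = AE m E s (som w) := by
  have hX : ∀ r j, Good (m r) (X r j) := fun r j => by
    rw [← (hw r).row]
    exact ((hw r).int j).good (hF r) (hm r)
  have hmu : ∀ r j, mu (m r) (X r j) = lam (F r) (cb s j) := fun r j => by
    rw [← (hw r).row]
    exact ((hw r).int j).mu (hF r) (hm r)
  have hinjX : ∀ r, Function.Injective fun j => mu (m r) (X r j) := fun r i j hij => hinj r (by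
    have h1 : mu (m r) (X r i) = mu (m r) (X r j) := hij
    rw [hmu, hmu] at h1
    exact h1)
  cases N with
  | zero =>
    have h1 : σ = 1 := Subsingleton.elim _ _
    subst h1
    have h2 : w' = w := Subsingleton.elim _ _
    rw [h2]
    rfl
  | succ n =>
    have hσ : σ ∈ Submonoid.closure
        (Set.range fun i : Fin n => Equiv.swap i.castSucc i.succ) := by
      rw [Equiv.Perm.mclosure_swap_castSucc_succ]
      trivial
    induction hσ using Submonoid.closure_induction_right generalizing w' with
    | one =>
      have h1 : (fun r => O r 1) = X := by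
        funext r
        exact (hO r).one (hX r) (hinjX r)
      rw [h1] at hw'
      exact ae_st hF hm heq hw hw'
    | mul_right σ _ τ hτ ih =>
      obtain ⟨i, rfl⟩ := hτ
      set a : Fin (n + 1) := i.castSucc with ha
      set b : Fin (n + 1) := i.succ with hb
      have hab : a ≠ b := by
        intro h1
        have h2 := congrArg Fin.val h1
        simp [ha, hb] at h2
      have hbv : (b : ℕ) = a + 1 := by simp [ha, hb]
      obtain ⟨w0, hw0⟩ := exists_ws (F := F) hF hm (Nat.succ_pos n)
        (s := cb fun j => s (σ j)) (X := fun r => O r σ) (p := p)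
        (fun r j => ((hw r).int _).base) (fun r => (hO r).good σ)
        (fun r j => by rw [(hO r).mu, hmu])
        (fun r => ((hw r).pcond (hF r)).perm σ ((hO r).opr σ))
      have h0 := ih hw0
      obtain ⟨w1, hw1, h1⟩ := ae_swap hF hm hcore hw0 hab
        (fun r h2 => hab (σ.injective (hinj r h2))) (fun r => hgen r σ a b hbv)
      have hX' : (fun r => Function.update (Function.update (O r σ) a
          (rY (m r) (O r σ a) (O r σ b))) b (rX (m r) (O r σ a) (O r σ b))) =
          fun r => O r (σ * Equiv.swap a b) := by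
        funext r
        have hgx := (hO r).good σ a
        have hgy := (hO r).good σ b
        obtain ⟨g1, g2, g3, g4, g5⟩ := rProp (hm r) (O r σ a) (O r σ b) hgx hgy (by
          rw [(hO r).mu, (hO r).mu]
          exact fun h2 => hab (σ.injective (hinjX r h2))) (hgen r σ a b hbv)
        refine (hO r).eq (hinjX r) (fun j => ?_) (fun j => ?_) ?_
        · by_cases hjb : j = b
          · subst hjb
            rw [Function.update_self]
            exact g1
          · rw [Function.update_of_ne hjb]
            by_cases hja : j = a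
            · subst hja
              rw [Function.update_self]
              exact g2
            · rw [Function.update_of_ne hja]
              exact (hO r).good σ j
        · by_cases hjb : j = b
          · subst hjb
            rw [Function.update_self, g3, (hO r).mu, Equiv.Perm.mul_apply,
              Equiv.swap_apply_right]
          · rw [Function.update_of_ne hjb]
            by_cases hja : j = a
            · subst hja
              rw [Function.update_self, g4, (hO r).mu, Equiv.Perm.mul_apply,
                Equiv.swap_apply_left]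
            · rw [Function.update_of_ne hja, (hO r).mu, Equiv.Perm.mul_apply,
                Equiv.swap_apply_of_ne_of_ne hja hjb]
        · rw [← (hO r).opr σ]
          refine opr_congr_pair hbv (fun l h1 h2 => ?_) fun ψ => ?_
          · rw [Function.update_of_ne h2, Function.update_of_ne h1]
          · rw [Function.update_self, Function.update_of_ne hab, Function.update_self]
            exact g5 ψ
      rw [hX'] at hw1
      have h2 : IsSt F hm (cb fun j => s ((σ * Equiv.swap a b) j))
        (fun r => O r (σ * Equiv.swap a b)) p w1 := hw1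
      rw [ae_st hF hm heq h2 hw', ← h0]
      exact h1

end Pool.Agent.HGP
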