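import Pool.Agent.HGP.CoD
import Pool.Agent.HGP.StB

/-!
# Restriction to one component, the core relation for one component

`upc r v u`: the coordinates `u`, with the coordinates of the component `r` replaced by `v`. For fixed
points `s j` of the curve and fixed coordinates of the other components a class function is a class
function of the coordinates of the component `r` (`isCFs_rst`): in `IsCF F E` the constant points
`Sum.inr (s j)` and the constant coordinates `Option.map (algebraMap k K)` for the other components
are taken (`onY_const`, `vlo_const`), as in `isCF_glue` (`HGP/Slot.lean`). `coreRel`: `coreRels`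
(`HGP/CoD.lean`) for the function `v ↦ E s (upc r v (som w))`, and
`upc r (som (cmp (w' j) r)) (som w) = som w'`.
-/

set_option autoImplicit false
set_option linter.unusedSectionVars false

noncomputable section

namespace Pool.Agent.HGP

open Finset Pool.Agent.ZCyc Pool.Agent.Dess Pool.Agent.TInc Pool.Agent.HGF
open scoped Classical

variable {k : Type} [Field k] {L : Type} [Field L] [Algebra k L] {κ : Type} {m : κ → ℕ} {N : ℕ}
  {F : ∀ r, Fam k L (m r)} {W : Type} [AddCommGroup W]

/-- replace the coordinates of the component `r` -/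
def upc {α : Type} (r : κ) (v : Fin N → Fin (m r) → α) (u : Fin N → Ix m → α) :
    Fin N → Ix m → α := fun j q => if h : q.1 = r then v j (h ▸ q.2) else u j q

theorem upc_self {α : Type} (r : κ) (v : Fin N → Fin (m r) → α) (u : Fin N → Ix m → α) (j : Fin N)
    (i : Fin (m r)) : upc r v u j ⟨r, i⟩ = v j i := by
  unfold upc
  rw [dif_pos rfl]

theorem upc_of_ne {α : Type} {r : κ} (v : Fin N → Fin (m r) → α) (u : Fin N → Ix m → α) (j : Fin N)
    {q : Ix m} (h : q.1 ≠ r) : upc r v u j q = u j q := by
  unfold upc
  rw [dif_neg h]

/-- two functions of the coordinates are equal if they are equal for the component `r` and for the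
other components -/
private theorem ext_ix {α : Type} (r : κ) {u u' : Fin N → Ix m → α}
    (h1 : ∀ j (i : Fin (m r)), u j ⟨r, i⟩ = u' j ⟨r, i⟩)
    (h2 : ∀ j (q : Ix m), q.1 ≠ r → u j q = u' j q) : u = u' := by
  funext j q
  by_cases h : q.1 = r
  · obtain ⟨r', i⟩ := q
    have h' : r' = r := h
    subst h'
    exact h1 j i
  · exact h2 j q h

theorem isCFs_rst [Fintype κ] [IsAlgClosed k] [CharZero k] [Fact (IsCurve k L)]
    {E : (Fin N → Place k L) → (Fin N → Ix m → Option k) → W} (hE : IsCF F E) (r : κ)
    (s : Fin N → Place k L) (u : Fin N → Ix m → Option k)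
    (hu : ∀ r', r' ≠ r → ∀ j, OnY (F r') (Sum.inr (s j) : Bp k L k) (cmp (u j) r')) :
    IsCFs (F r) s fun v => E s (upc r v u) := by
  intro K _ _ hK v f hf hv
  have key := hE K hK (fun j => cp K (s j))
    (upc r v fun j q => (u j q).map (algebraMap k K)) f hf ?_
  · have e1 : ∀ w : Place k K,
        (fun j q => vlo w (upc r v (fun j q => (u j q).map (algebraMap k K)) j q)) =
          upc r (fun j i => vlo w (v j i)) u := by
      intro w
      refine ext_ix r (fun j i => ?_) fun j q h => ?_
      · rw [upc_self, upc_self]
      · rw [upc_of_ne _ _ _ h, upc_of_ne _ _ _ h, vlo_const]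
    have e2 : ∀ w : Place k K, (fun j => vb w (cp K (s j))) = s := fun w => rfl
    simp only [e1, e2] at key
    exact key
  · intro j r'
    by_cases h : r' = r
    · subst h
      have h1 : cmp (upc r' v (fun j q => (u j q).map (algebraMap k K)) j) r' = v j := by
        funext i
        exact upc_self _ _ _ _ _
      rw [h1]
      exact hv j
    · have h1 : cmp (upc r v (fun j q => (u j q).map (algebraMap k K)) j) r' =
          fun i => (cmp (u j) r' i).map (algebraMap k K) := by
        funext i
        exact upc_of_ne _ _ _ h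
      rw [h1]
      exact (onY_const _ _).2 (hu r' h j)

private theorem rot_self {Q : Type} (j : Fin N) (q : Q) (ζ : k) (u : Fin N → Q → Option k) :
    rot j q ζ u j q = (u j q).map fun w => ζ * w := by
  unfold rot
  rw [Function.update_self, Function.update_self]

private theorem rot_of_ne {Q : Type} (j : Fin N) {q q' : Q} (h : q' ≠ q) (ζ : k)
    (u : Fin N → Q → Option k) (l : Fin N) : rot j q ζ u l q' = u l q' := by
  unfold rot
  by_cases hl : l = j
  · subst hl
    rw [Function.update_self, Function.update_of_ne h]
  · rw [Function.update_of_ne hl]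

private theorem rot_of_ne' {Q : Type} {j l : Fin N} (h : l ≠ j) (q q' : Q) (ζ : k)
    (u : Fin N → Q → Option k) : rot j q ζ u l q' = u l q' := by
  unfold rot
  rw [Function.update_of_ne h]

theorem isEigs_rst [Module k W]
    {E : (Fin N → Place k L) → (Fin N → Ix m → Option k) → W} {b : Ix m → ℕ}
    (hE : IsEig (MX F) b E) (r : κ) (s : Fin N → Place k L) (u : Fin N → Ix m → Option k) :
    IsEigs (F r).M (fun i => b ⟨r, i⟩) fun v => E s (upc r v u) := by
  intro v j i ζ hζ
  have key := hE s (upc r v u) j ⟨r, i⟩ ζ hζ
  have e1 : rot j (⟨r, i⟩ : Ix m) ζ (upc r v u) = upc r (rot j i ζ v) u := by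
    refine ext_ix r (fun l i' => ?_) fun l q h => ?_
    · rw [upc_self]
      by_cases hl : l = j
      · subst hl
        by_cases hi : i' = i
        · subst hi
          rw [rot_self, rot_self, upc_self]
        · have h1 : (⟨r, i'⟩ : Ix m) ≠ ⟨r, i⟩ := by
            intro h
            exact hi (by simpa using h)
          rw [rot_of_ne _ h1, rot_of_ne _ hi, upc_self]
      · rw [rot_of_ne' hl, rot_of_ne' hl, upc_self]
    · have h1 : q ≠ ⟨r, i⟩ := by
        intro h2
        exact h (by rw [h2])
      rw [upc_of_ne _ _ _ h, rot_of_ne _ h1, upc_of_ne _ _ _ h]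
  rw [e1] at key
  exact key

/-- **The core relation for one component.** -/
theorem coreRel [Fintype κ] [IsAlgClosed k] [CharZero k] [Fact (IsCurve k L)] [Module k W]
    (hF : ∀ r, (F r).Adm) (hm : ∀ r, 0 < m r) {b : Ix m → ℕ} (hb : ∀ q, 0 < b q ∧ b q < MX F q)
    {E : (Fin N → Place k L) → (Fin N → Ix m → Option k) → W} (hE : IsCF F E)
    (hEig : IsEig (MX F) b E) (r : κ) : CoreRel F hm r E := by
  intro s w w' a c hac hw hw' h1 h2 h3 _ hG h4 _
  have key := coreRels (hF r) (fun i => hb ⟨r, i⟩)
    (isCFs_rst hE r s (som w) fun r' _ j => (hw r' j).onY_some)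
    (isEigs_rst hEig r s (som w)) (hm r) (w := fun j => cmp (w j) r)
    (w' := fun j => cmp (w' j) r) hac (hw r) (hw' r)
    (fun l hl hl' => by rw [h2 l hl hl']) (fun i => h3 ⟨r, i⟩) hG h4
  have e1 : upc r (som fun j => cmp (w j) r) (som w) = som w := by
    refine ext_ix r (fun j i => ?_) fun j q h => ?_
    · rw [upc_self]
      rfl
    · rw [upc_of_ne _ _ _ h]
  have e2 : upc r (som fun j => cmp (w' j) r) (som w) = som w' := by
    refine ext_ix r (fun j i => ?_) fun j q h => ?_
    · rw [upc_self]
      rfl
    · rw [upc_of_ne _ _ _ h]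
      show some (w j q) = some (w' j q)
      rw [h1 j q h]
  rw [e1, e2] at key
  exact key

end Pool.Agent.HGP
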