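import Pool.Agent.HGP.Rst
import Pool.Agent.HGP.Bdry
import Pool.Agent.HGP.PathA
import Pool.Agent.HGP.Ind

/-!
# Two points of the same fibre (the exchange of two equal components)

`E` is a class function of one point of the fibre product, and `r1 ≠ r2` are components with the
same data and the same exponents. The exchange of the coordinates of the two components multiplies
`E` by `(-1) ^ (m r1 + 1)` (`swap_cmp`).

(1) `Sam_two`: two interior points of one component over the same point of the curve, with the rows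
`x`, `y` (`mu x = mu y`). The chain of `HGP/CoD.lean` down to the level `1` needs the conditions
`gn` for the levels `l ≥ 1` only (`Sam1`, `Sam_step`, `Sam_chain`). For the last step one has
`al x y 0 m = 1`, and the fixed point of the level `0` is infinite: the curve `cX`, `cY` with
`l = 0` and the parameter `1 / t` leads from the state of the level `1` to the exchanged rows
`(y, x)` at `t = 0`, if `be x y 1 (m - 1) + 1 - x 0 ≠ 0` (`Sam_last`). General position: `SamG`. It
holds for the sequences `c / a ^ (m - 1), a, …, a` and `c / b ^ (m - 1), b, …, b` with general `a`,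
`b` (`Sam_spec`).

(2) `Samu h r1 v u`: the coordinates of the components `r1` and `r2` are replaced by `v 0`, `v 1`.
For a fixed point of the curve `E` is a class function of `v` (`Samu_isCFs`), so the statement holds
for interior points with rows in general position (`Samu_int`).

(3) `swap_cmp`: at the degenerate points both sides are zero. The other points are connected with a
point with rows in general position by a curve (`exists_line`); the difference of both sides is a
class function which vanishes at almost all places of the curve, so it vanishes (`moving`).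
-/

set_option autoImplicit false
set_option linter.unusedSectionVars false

noncomputable section

namespace Pool.Agent.HGP

open Finset Pool.Agent.ZCyc Pool.Agent.Dess Pool.Agent.GT Pool.Agent.TInc Pool.Agent.HGF
open Pool.Agent.VFP (Om tt)
open scoped Classical

/-! ### Algebra: general position for the levels `l ≥ 1` -/

section SamAlg

variable {K : Type*} [Field K] {n : ℕ}

/-- general position for the levels `l ≥ 1` -/
private def Sam1 (n : ℕ) (x y : ℕ → K) : Prop :=
  ∀ q : Fin 3 × Fin n × Fin (n + 1), 0 < (q.2.1 : ℕ) → gn n x y q ≠ 0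

private theorem Sam_al {x y : ℕ → K} (h : Sam1 n x y) {l : ℕ} (h0 : 0 < l) (hl : l < n) :
    al x y l (n - l) ≠ 1 := by
  have h1 := h (0, ⟨l, hl⟩, ⟨0, by omega⟩) h0
  unfold gn at h1
  rw [if_pos (show l + 0 ≤ n by omega), if_pos rfl] at h1
  intro h2
  apply h1
  show 1 - al x y l (n - l) = 0
  rw [h2, sub_self]

private theorem Sam_fx {x y : ℕ → K} (h : Sam1 n x y) {l : ℕ} (h0 : 0 < l) (hl : l < n) :
    fl x y l (n - l) (fx n x y l) = fx n x y l := by
  have h1 : 1 - al x y l (n - l) ≠ 0 := sub_ne_zero.2 (Sam_al h h0 hl).symm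
  rw [fl_eq]
  unfold fx
  field_simp
  ring

private theorem Sam_fl_fx_eq {x y : ℕ → K} {l i : ℕ} (h1 : 1 - al x y l (n - l) ≠ 0) :
    fl x y l i (fx n x y l) = nmr n x y l i / (1 - al x y l (n - l)) := by
  rw [fl_eq]
  unfold fx nmr
  field_simp

private theorem Sam_ne {x y : ℕ → K} (h : Sam1 n x y) {l i : ℕ} (h0 : 0 < l) (hl : l < n)
    (hi : l + i ≤ n) : fl x y l i (fx n x y l) ≠ 0 := by
  have h1 : 1 - al x y l (n - l) ≠ 0 := sub_ne_zero.2 (Sam_al h h0 hl).symm
  rw [Sam_fl_fx_eq h1]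
  have h2 := h (1, ⟨l, hl⟩, ⟨i, by omega⟩) h0
  unfold gn at h2
  rw [if_pos hi, if_neg (show ¬ (1 : Fin 3) = 0 by decide), if_pos rfl] at h2
  exact div_ne_zero h2 h1

private theorem Sam_ne' {x y : ℕ → K} (h : Sam1 n x y) {l i : ℕ} (h0 : 0 < l) (hl : l < n)
    (hi : l + i ≤ n) : fl x y l i (fx n x y l) + 1 ≠ 0 := by
  have h1 : 1 - al x y l (n - l) ≠ 0 := sub_ne_zero.2 (Sam_al h h0 hl).symm
  rw [Sam_fl_fx_eq h1]
  have h2 := h (2, ⟨l, hl⟩, ⟨i, by omega⟩) h0
  unfold gn at h2
  rw [if_pos hi, if_neg (show ¬ (2 : Fin 3) = 0 by decide),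
    if_neg (show ¬ (2 : Fin 3) = 1 by decide)] at h2
  have h3 : nmr n x y l i / (1 - al x y l (n - l)) + 1 =
      (nmr n x y l i + (1 - al x y l (n - l))) / (1 - al x y l (n - l)) := by
    rw [add_div, div_self h1]
  rw [h3]
  exact div_ne_zero h2 h1

private theorem Sam_shift (x y : ℕ → K) (l i : ℕ) (w : K) :
    fl x y (l + 1) i (fl x y l 1 w) = fl x y l (i + 1) w := by
  rw [← fl_add, add_comm 1 i]

private theorem Sam_cX_one {x y : ℕ → K} {l : ℕ} (hl : l + 1 < n) (h : Sam1 n x y) {i : ℕ} :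
    cX n x y l (fx n x y (l + 1)) i = st x y (l + 1) (fx n x y (l + 1)) i := by
  unfold cX st
  have h1 := Sam_fx h (Nat.succ_pos l) (show l + 1 < n from hl)
  rw [show n - (l + 1) = n - 1 - l by omega] at h1
  rcases lt_trichotomy i l with h2 | h2 | h2
  · rw [if_pos h2, if_pos (by omega)]
  · subst h2
    rw [if_neg (lt_irrefl i), if_pos rfl, if_pos (by omega), h1]
    have h3 := Sam_ne' h (l := i + 1) (i := 0) (Nat.succ_pos i) hl (by omega)
    exact mul_div_cancel_right₀ _ h3
  · rw [if_neg (by omega), if_neg (by omega), if_neg (by omega),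
      show i + 1 - (l + 1) = i - l by omega, show i - (l + 1) = i - l - 1 by omega]

private theorem Sam_cX_two {x y : ℕ → K} {l : ℕ} (h0 : 0 < l) (hl : l + 1 < n)
    (h : Sam1 n x y) {i : ℕ} :
    cX n x y l (fl x y l 1 (fx n x y l)) i = st x y l (fx n x y l) i := by
  unfold cX st
  have h1 := Sam_fx h h0 (show l < n by omega)
  rcases lt_trichotomy i l with h2 | h2 | h2
  · rw [if_pos h2, if_pos h2]
  · subst h2
    rw [if_neg (lt_irrefl i), if_pos rfl, if_neg (lt_irrefl i), Sam_shift,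
      show n - 1 - i + 1 = n - i by omega, h1, show i + 1 - i = 1 by omega, Nat.sub_self]
    rfl
  · rw [if_neg (by omega), if_neg (by omega), if_neg (by omega), Sam_shift, Sam_shift,
      show i - l + 1 = i + 1 - l by omega, show i - l - 1 + 1 = i - l by omega]

private theorem Sam_st_ne {x y : ℕ → K} (hx : Good n x) (hy : Good n y) {l : ℕ} (h0 : 0 < l)
    (hl : l < n) (h : Sam1 n x y) {i : ℕ} (hi : i < n) : st x y l (fx n x y l) i ≠ 1 := by
  unfold st
  by_cases h1 : i < l
  · rw [if_pos h1]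
    exact hx.ne1 i
  · rw [if_neg h1]
    obtain ⟨p, hp⟩ : ∃ p, i = l + p := ⟨i - l, by omega⟩
    subst hp
    rw [show l + p + 1 - l = p + 1 by omega, Nat.add_sub_cancel_left]
    have h2 := Sam_ne h (l := l) (i := p + 1) h0 hl (by omega)
    have h3 := Sam_ne' h (l := l) (i := p) h0 hl (by omega)
    have h4 : fl x y l (p + 1) (fx n x y l) =
      y (l + p) / x (l + p) * (fl x y l p (fx n x y l) + 1 - x (l + p)) := rfl
    intro h5
    rw [div_eq_one_iff_eq h3] at h5
    have h6 : x (l + p) * fl x y l (p + 1) (fx n x y l) =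
        y (l + p) * (fl x y l p (fx n x y l) + 1 - x (l + p)) := by
      rw [h4, ← mul_assoc, mul_div_cancel₀ _ (hx.ne0 _)]
    have h7 : x (l + p) * fl x y l (p + 1) (fx n x y l) * (1 - y (l + p)) = 0 := by
      linear_combination h6 - y (l + p) * h5
    rcases mul_eq_zero.1 h7 with h8 | h8
    · exact mul_ne_zero (hx.ne0 _) h2 h8
    · exact hy.ne1 _ (sub_eq_zero.1 h8).symm

/-- the state of the level `n - 1` is `x` -/
private theorem Sam_st_last {x y : ℕ → K} (hn : 1 < n) (h : Sam1 n x y) {i : ℕ} (hi : i < n) :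
    st x y (n - 1) (fx n x y (n - 1)) i = x i := by
  unfold st
  by_cases h1 : i < n - 1
  · rw [if_pos h1]
  · rw [if_neg h1]
    have h2 : i = n - 1 := by omega
    subst h2
    have h3 := Sam_fx h (l := n - 1) (by omega) (by omega)
    have h4 := Sam_ne' h (l := n - 1) (i := 0) (by omega) (by omega) (by omega)
    rw [show n - 1 + 1 - (n - 1) = n - (n - 1) by omega, h3, Nat.sub_self]
    exact mul_div_cancel_right₀ _ h4

private theorem Sam_one_ne {x y : ℕ → K} {l : ℕ} (hl : l + 1 < n) (h : Sam1 n x y) {i : ℕ}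
    (hi : i ≤ n - 1 - l) : fl x y (l + 1) i (fx n x y (l + 1)) ≠ 0 ∧
      fl x y (l + 1) i (fx n x y (l + 1)) + 1 ≠ 0 :=
  ⟨Sam_ne h (Nat.succ_pos l) hl (by omega), Sam_ne' h (Nat.succ_pos l) hl (by omega)⟩

private theorem Sam_two_ne {x y : ℕ → K} {l : ℕ} (h0 : 0 < l) (hl : l + 1 < n)
    (h : Sam1 n x y) {i : ℕ} (hi : i ≤ n - 1 - l) :
    fl x y (l + 1) i (fl x y l 1 (fx n x y l)) ≠ 0 ∧
      fl x y (l + 1) i (fl x y l 1 (fx n x y l)) + 1 ≠ 0 := by
  rw [Sam_shift]
  exact ⟨Sam_ne h h0 (by omega) (by omega), Sam_ne' h h0 (by omega) (by omega)⟩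

/-! The last step: the level `0` for equal multipliers. -/

/-- the conditions for general position -/
private def Samg (n : ℕ) (x y : ℕ → K) (q : Option (Fin 3 × Fin n × Fin (n + 1))) : K :=
  q.elim (if 2 ≤ n then be x y 1 (n - 1) + 1 - x 0 else 1)
    fun q => if 0 < (q.2.1 : ℕ) then gn n x y q else 1

/-- general position -/
private def SamG (n : ℕ) (x y : ℕ → K) : Prop := ∀ q, Samg n x y q ≠ 0

private theorem SamG.one {x y : ℕ → K} (h : SamG n x y) : Sam1 n x y := by
  intro q hq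
  have h1 := h (some q)
  unfold Samg at h1
  rw [Option.elim_some, if_pos hq] at h1
  exact h1

private theorem SamG.last {x y : ℕ → K} (h : SamG n x y) (hn : 2 ≤ n) :
    be x y 1 (n - 1) + 1 - x 0 ≠ 0 := by
  have h1 := h none
  unfold Samg at h1
  rw [Option.elim_none, if_pos hn] at h1
  exact h1

/-- the multiplier of the whole period -/
private theorem Sam_mul {x y : ℕ → K} (hx : ∀ i, x i ≠ 0) (hn : 0 < n)
    (hxy : mu n x = mu n y) : y 0 * al x y 1 (n - 1) = x 0 := by
  have h1 : al x y 0 n = 1 := by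
    unfold al
    rw [prod_div_distrib]
    simp only [Nat.zero_add]
    have h2 : ∏ i ∈ range n, y i = ∏ i ∈ range n, x i := hxy.symm
    rw [h2, div_self (prod_ne_zero_iff.2 fun i _ => hx i)]
  obtain ⟨p, rfl⟩ : ∃ p, n = p + 1 := ⟨n - 1, by omega⟩
  rw [al_succ_left] at h1
  rw [Nat.add_sub_cancel]
  have h3 := hx 0
  field_simp at h1
  exact h1

/-- the product of the coordinates `0` on the last curve -/
private theorem Sam_cXY {x y : ℕ → K} (hx : ∀ i, x i ≠ 0) (hn : 2 ≤ n)
    (hxy : mu n x = mu n y) (h : al x y 1 (n - 1) ≠ 1) {t : K} (ht : t ≠ 0)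
    (hg : fl x y 1 (n - 1) t + 1 ≠ 0) :
    (1 - cX n x y 0 t 0) * (1 - cY n x y 0 t 0) = (1 - x 0) * (1 - y 0) +
      y 0 * (be x y 1 (n - 1) + 1 - x 0) * (1 - al x y 1 (n - 1)) * (t - fx n x y 1) /
        (t * (fl x y 1 (n - 1) t + 1)) := by
  have ha : 1 - al x y 1 (n - 1) ≠ 0 := sub_ne_zero.2 h.symm
  have hX : cX n x y 0 t 0 = x 0 * (t + 1) / (fl x y 1 (n - 1) t + 1) := by
    unfold cX
    rw [if_neg (lt_irrefl 0), if_pos rfl, Nat.sub_zero]
  have hY : cY n x y 0 t 0 = y 0 * fl x y 1 (n - 1) t / t := by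
    unfold cY
    rw [if_neg (lt_irrefl 0), if_pos rfl, Nat.sub_zero]
  have e0 : (1 - al x y 1 (n - 1)) * fx n x y 1 = be x y 1 (n - 1) := by
    unfold fx
    rw [mul_div_cancel₀ _ ha]
  have e1 := Sam_mul hx (by omega) hxy
  rw [hX, hY]
  rw [fl_eq] at hg ⊢
  generalize al x y 1 (n - 1) = a at *
  generalize be x y 1 (n - 1) = b at *
  generalize fx n x y 1 = t1 at *
  generalize x 0 = p at *
  generalize y 0 = q at *
  have h0 : t * (a * t + b + 1) ≠ 0 := mul_ne_zero ht hg
  have e6 : (1 - p * (t + 1) / (a * t + b + 1)) * (1 - q * (a * t + b) / t) =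
      (a * t + b + 1 - p * (t + 1)) * (t - q * (a * t + b)) / (t * (a * t + b + 1)) := by
    have e7 : 1 - p * (t + 1) / (a * t + b + 1) =
        (a * t + b + 1 - p * (t + 1)) / (a * t + b + 1) := by
      rw [sub_div, div_self hg]
    have e8 : 1 - q * (a * t + b) / t = (t - q * (a * t + b)) / t := by
      rw [sub_div, div_self ht]
    rw [e7, e8, div_mul_div_comm, mul_comm t]
  rw [e6, div_eq_iff h0, add_mul, div_mul_cancel₀ _ h0]
  subst e1
  linear_combination (q * (b + 1 - q * a)) * e0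

/-- the numbers for sequences which are constant for `0 < i < n` -/
private theorem Sam_const {x y : ℕ → K} {a b : K} (ha : a ≠ 0) (hb : b ≠ 0) (ha1 : a ≠ 1)
    (hb1 : b ≠ 1) (hx : ∀ i, 0 < i → i < n → x i = a) (hy : ∀ i, 0 < i → i < n → y i = b)
    (h : ∀ j, 1 ≤ j → j < n → b ^ j ≠ a ^ j) : Sam1 n x y ∧
      (2 ≤ n → be x y 1 (n - 1) = (1 - (b / a) ^ (n - 1)) * (b * (1 - a) / (a - b))) := by
  have hal : ∀ l i, 0 < l → l + i ≤ n → al x y l i = (b / a) ^ i := by
    intro l i hl hi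
    unfold al
    rw [prod_congr rfl (g := fun _ => b / a), prod_const, card_range]
    intro p hp
    have hp' := mem_range.1 hp
    rw [hx _ (by omega) (by omega), hy _ (by omega) (by omega)]
  have hab : 2 ≤ n → a - b ≠ 0 := by
    intro hn h1
    apply h 1 le_rfl (by omega)
    rw [pow_one, pow_one, sub_eq_zero.1 h1]
  have hfl : ∀ l i, 0 < l → l + i ≤ n → 2 ≤ n → fl x y l i (b * (1 - a) / (a - b)) =
      b * (1 - a) / (a - b) := by
    intro l i hl hi hn
    have hab' := hab hn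
    induction i with
    | zero => rfl
    | succ i ih =>
      show y (l + i) / x (l + i) * (fl x y l i (b * (1 - a) / (a - b)) + 1 - x (l + i)) = _
      rw [ih (by omega), hx _ (by omega) (by omega), hy _ (by omega) (by omega)]
      field_simp
      ring
  have hbe : ∀ l i, 0 < l → l + i ≤ n → 2 ≤ n → be x y l i =
      (1 - (b / a) ^ i) * (b * (1 - a) / (a - b)) := by
    intro l i hl hi hn
    have h1 := fl_eq x y l i (b * (1 - a) / (a - b))
    rw [hfl l i hl hi hn, hal l i hl hi] at h1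
    linear_combination -h1
  refine ⟨?_, fun hn => hbe 1 (n - 1) Nat.one_pos (by omega) hn⟩
  intro q hq
  have hqn := q.2.1.isLt
  have hn : 2 ≤ n := by omega
  have hab' := hab hn
  unfold gn
  have hnmr : ∀ l i, 0 < l → l ≤ n → l + i ≤ n → nmr n x y l i =
      (1 - (b / a) ^ (n - l)) * (b * (1 - a) / (a - b)) := by
    intro l i hl hln hi
    unfold nmr
    rw [hal l i hl hi, hal l (n - l) hl (by omega), hbe l i hl hi hn,
      hbe l (n - l) hl (by omega) hn]
    ring
  have hne : 1 - (b / a) ^ (n - (q.2.1 : ℕ)) ≠ 0 := by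
    intro h1
    apply h (n - q.2.1) (by omega) (by omega)
    rw [div_pow] at h1
    have h2 : a ^ (n - (q.2.1 : ℕ)) ≠ 0 := pow_ne_zero _ ha
    have h3 := sub_eq_zero.1 h1
    rw [eq_comm, div_eq_one_iff_eq h2] at h3
    exact h3
  split_ifs with h1 h2 h3
  · rw [hal _ _ hq (by omega)]
    exact hne
  · rw [hnmr _ _ hq (by omega) h1]
    exact mul_ne_zero hne (div_ne_zero (mul_ne_zero hb (sub_ne_zero.2 ha1.symm)) hab')
  · rw [hnmr _ _ hq (by omega) h1, hal _ _ hq (by omega)]
    have h4 : (1 - (b / a) ^ (n - (q.2.1 : ℕ))) * (b * (1 - a) / (a - b)) +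
        (1 - (b / a) ^ (n - (q.2.1 : ℕ))) =
        (1 - (b / a) ^ (n - (q.2.1 : ℕ))) * (a * (1 - b) / (a - b)) := by
      have h5 : b * (1 - a) / (a - b) + 1 = a * (1 - b) / (a - b) := by
        field_simp
        ring
      rw [← h5]
      ring
    rw [h4]
    exact mul_ne_zero hne (div_ne_zero (mul_ne_zero ha (sub_ne_zero.2 hb1.symm)) hab')
  · exact one_ne_zero

/-- the sequence with the values `c / a ^ (n - 1), a, …, a` in one period -/
private def Samx (n : ℕ) (c a : K) (i : ℕ) : K := if i % n = 0 then c / a ^ (n - 1) else a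

private theorem Samx_good {c a : K} (hc0 : c ≠ 0) (ha : a ≠ 0) (ha1 : a ≠ 1)
    (hca : c ≠ a ^ (n - 1)) : Good n (Samx n c a) where
  per := fun i => by
    unfold Samx
    rw [Nat.add_mod_right]
  ne0 := fun i => by
    unfold Samx
    split_ifs
    · exact div_ne_zero hc0 (pow_ne_zero _ ha)
    · exact ha
  ne1 := fun i => by
    unfold Samx
    split_ifs
    · intro h1
      rw [div_eq_one_iff_eq (pow_ne_zero _ ha)] at h1
      exact hca h1
    · exact ha1

private theorem Samx_mu (hn : 0 < n) {c a : K} (ha : a ≠ 0) : mu n (Samx n c a) = c := by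
  obtain ⟨p, rfl⟩ : ∃ p, n = p + 1 := ⟨n - 1, by omega⟩
  unfold mu
  rw [prod_range_succ', prod_congr rfl (g := fun _ => a), prod_const, card_range]
  · unfold Samx
    rw [Nat.zero_mod, if_pos rfl, Nat.add_sub_cancel, mul_div_cancel₀ _ (pow_ne_zero _ ha)]
  · intro i hi
    have hi' := mem_range.1 hi
    unfold Samx
    rw [Nat.mod_eq_of_lt (by omega), if_neg (by omega)]

/-- special sequences in general position -/
private theorem Sam_spec [Infinite K] (hn : 0 < n) {c : K} (hc0 : c ≠ 0) (hc1 : c ≠ 1) :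
    ∃ x y : ℕ → K, Good n x ∧ Good n y ∧ mu n x = c ∧ mu n y = c ∧ SamG n x y := by
  classical
  -- the first constant
  obtain ⟨a, ha⟩ := Infinite.exists_notMem_finset ((Polynomial.nthRoots (n - 1) c).toFinset ∪
    {0, 1} : Finset K)
  simp only [mem_union, mem_insert, mem_singleton, not_or, Multiset.mem_toFinset] at ha
  obtain ⟨ha2, ha0, ha1⟩ := ha
  have hca : c ≠ a ^ (n - 1) := by
    intro h1
    rcases Nat.eq_zero_or_pos (n - 1) with h2 | h2
    · rw [h2, pow_zero] at h1
      exact hc1 h1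
    · exact ha2 ((Polynomial.mem_nthRoots h2).2 h1.symm)
  -- the second constant
  set P : Polynomial K := Polynomial.C (1 - a) * Polynomial.X *
    (Polynomial.C (a ^ (n - 1)) - Polynomial.X ^ (n - 1)) +
    Polynomial.C (a ^ (n - 1) - c) * (Polynomial.C a - Polynomial.X) with hP
  have hP0 : P ≠ 0 := by
    intro h1
    have h2 : P.eval 0 = (a ^ (n - 1) - c) * a := by
      rw [hP]
      simp
    rw [h1, Polynomial.eval_zero] at h2
    exact mul_ne_zero (sub_ne_zero.2 hca.symm) ha0 h2.symm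
  obtain ⟨b, hb⟩ := Infinite.exists_notMem_finset ((Polynomial.nthRoots (n - 1) c).toFinset ∪
    ((range n).biUnion fun j => (Polynomial.nthRoots j (a ^ j)).toFinset) ∪ P.roots.toFinset ∪
    {0, 1} : Finset K)
  simp only [mem_union, mem_insert, mem_singleton, not_or, Multiset.mem_toFinset, mem_biUnion,
    mem_range, not_exists, not_and] at hb
  obtain ⟨⟨⟨hb2, hb3⟩, hb4⟩, hb0, hb1⟩ := hb
  have hcb : c ≠ b ^ (n - 1) := by
    intro h1
    rcases Nat.eq_zero_or_pos (n - 1) with h2 | h2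
    · rw [h2, pow_zero] at h1
      exact hc1 h1
    · exact hb2 ((Polynomial.mem_nthRoots h2).2 h1.symm)
  have hab : ∀ j, 1 ≤ j → j < n → b ^ j ≠ a ^ j := fun j h1 h2 h3 =>
    hb3 j h2 ((Polynomial.mem_nthRoots h1).2 h3)
  have hxa : ∀ (d : K) (i : ℕ), 0 < i → i < n → Samx n c d i = d := by
    intro d i h1 h2
    unfold Samx
    rw [Nat.mod_eq_of_lt h2, if_neg h1.ne']
  obtain ⟨h1, h2⟩ := Sam_const (n := n) ha0 hb0 ha1 hb1 (hxa a) (hxa b) hab
  refine ⟨Samx n c a, Samx n c b, Samx_good hc0 ha0 ha1 hca, Samx_good hc0 hb0 hb1 hcb,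
    Samx_mu hn ha0, Samx_mu hn hb0, fun q => ?_⟩
  unfold Samg
  rcases q with _ | q
  · rw [Option.elim_none]
    split_ifs with h3
    · rw [h2 h3]
      have hab' : a - b ≠ 0 := by
        intro h4
        apply hab 1 le_rfl (by omega)
        rw [pow_one, pow_one, sub_eq_zero.1 h4]
      have h4 : Samx n c a 0 = c / a ^ (n - 1) := by
        unfold Samx
        rw [Nat.zero_mod, if_pos rfl]
      rw [h4, div_pow]
      have h5 : a ^ (n - 1) ≠ 0 := pow_ne_zero _ ha0
      have h6 : ((1 - b ^ (n - 1) / a ^ (n - 1)) * (b * (1 - a) / (a - b)) + 1 -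
          c / a ^ (n - 1)) * (a ^ (n - 1) * (a - b)) = P.eval b := by
        rw [hP]
        simp only [Polynomial.eval_add, Polynomial.eval_mul, Polynomial.eval_sub,
          Polynomial.eval_C, Polynomial.eval_X, Polynomial.eval_pow]
        generalize a ^ (n - 1) = A at *
        generalize b ^ (n - 1) = B at *
        field_simp
        ring
      intro h7
      rw [h7, zero_mul] at h6
      exact hb4 ((Polynomial.mem_roots hP0).2 h6.symm)
    · exact one_ne_zero
  · rw [Option.elim_some]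
    split_ifs with h3
    · exact h1 q h3
    · exact one_ne_zero

end SamAlg

/-! ### The chain for two points with equal parameters -/

section SamChain

variable {k : Type} [Field k] [IsAlgClosed k] [CharZero k] {L : Type} [Field L] [Algebra k L]
  [hL : Fact (IsCurve k L)] {n : ℕ} {F : Fam k L n} {N : ℕ} {W : Type} [AddCommGroup W]
  [Module k W] {E : (Fin N → Fin n → Option k) → W} {b : Fin n → ℕ}
  {s : Fin N → Place k L}

omit [IsAlgClosed k] [CharZero k] hL in
private theorem Sam_step_ne {T : RatFunc k} (hT : Transcendental k T) {x y : ℕ → k} {l i : ℕ}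
    {t0 : k} (h : fl x y l i t0 ≠ 0) :
    fl (fun i => algebraMap k (RatFunc k) (x i)) (fun i => algebraMap k (RatFunc k) (y i)) l i T ≠
      0 := by
  intro h0
  obtain ⟨v, hv⟩ := exists_place hT t0
  have h1 := fl_at x y l i hv
  rw [h0] at h1
  have h2 := Place.at_const (v := v) (0 : k)
  rw [map_zero] at h2
  exact h (h1.unique h2)

omit [IsAlgClosed k] [CharZero k] hL in
private theorem Sam_step_ne' {T : RatFunc k} (hT : Transcendental k T) {x y : ℕ → k} {l i : ℕ}
    {t0 : k} (h : fl x y l i t0 + 1 ≠ 0) :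
    fl (fun i => algebraMap k (RatFunc k) (x i)) (fun i => algebraMap k (RatFunc k) (y i)) l i T +
      1 ≠ 0 := by
  intro h0
  obtain ⟨v, hv⟩ := exists_place hT t0
  have h3 := Place.at_const (v := v) (1 : k)
  rw [map_one] at h3
  have h1 := (fl_at x y l i hv).add h3
  rw [h0] at h1
  have h2 := Place.at_const (v := v) (0 : k)
  rw [map_zero] at h2
  exact h (h1.unique h2)

omit [IsAlgClosed k] hL in
/-- the value at infinity -/
private theorem Sam_step_inf {v : Place k (RatFunc k)} {T G : RatFunc k} (hT : T ∉ v.ring)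
    {t1 t2 a b lead p : k} (ha : a ≠ 0) (hl : lead ≠ 0) (hp : p ≠ 0)
    (hG : G = algebraMap k (RatFunc k) a * T + algebraMap k (RatFunc k) b) :
    ¬ v.At (1 + (T - algebraMap k (RatFunc k) t1) * (T - algebraMap k (RatFunc k) t2) *
      (algebraMap k (RatFunc k) lead / (algebraMap k (RatFunc k) p * T * (G + 1)))) 1 := by
  intro hat
  have hT0 : T ≠ 0 := fun h0 => hT (h0 ▸ zero_mem v.ring)
  have h0 : v.At T⁻¹ 0 := by
    rw [Place.at_zero_iff]
    exact (v.vanishes_iff_or _).2 (Or.inr (by rwa [inv_inv]))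
  have h1 : v.At (1 : RatFunc k) (1 : k) := by
    have := Place.at_const (v := v) (1 : k)
    rwa [map_one] at this
  have h2 : ∀ c : k, v.At (1 - algebraMap k (RatFunc k) c * T⁻¹) 1 := by
    intro c
    have h3 := h1.sub ((Place.at_const (v := v) c).mul h0)
    rwa [mul_zero, sub_zero] at h3
  have h3 : v.At (algebraMap k (RatFunc k) a + (algebraMap k (RatFunc k) b + 1) * T⁻¹) a := by
    have h4 := (Place.at_const (v := v) a).add (((Place.at_const (v := v) b).add h1).mul h0)
    rwa [mul_zero, add_zero] at h4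
  have h4 := (((Place.at_const (v := v) lead).mul (h2 t1)).mul (h2 t2)).div
    ((Place.at_const (v := v) p).mul h3) (mul_ne_zero hp ha)
  have hp' : algebraMap k (RatFunc k) p ≠ 0 := by
    rw [Ne, map_eq_zero]
    exact hp
  have h5 : G + 1 = T * (algebraMap k (RatFunc k) a +
      (algebraMap k (RatFunc k) b + 1) * T⁻¹) := by
    rw [hG]
    field_simp
    ring
  have h6 : algebraMap k (RatFunc k) a + (algebraMap k (RatFunc k) b + 1) * T⁻¹ ≠ 0 := by
    intro h7
    rw [h7] at h3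
    have h8 := Place.at_const (v := v) (0 : k)
    rw [map_zero] at h8
    exact ha (h3.unique h8)
  have h7 : (T - algebraMap k (RatFunc k) t1) * (T - algebraMap k (RatFunc k) t2) *
      (algebraMap k (RatFunc k) lead / (algebraMap k (RatFunc k) p * T * (G + 1))) =
      algebraMap k (RatFunc k) lead * (1 - algebraMap k (RatFunc k) t1 * T⁻¹) *
        (1 - algebraMap k (RatFunc k) t2 * T⁻¹) / (algebraMap k (RatFunc k) p *
          (algebraMap k (RatFunc k) a + (algebraMap k (RatFunc k) b + 1) * T⁻¹)) := by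
    have e : ∀ c : k, T - algebraMap k (RatFunc k) c =
        T * (1 - algebraMap k (RatFunc k) c * T⁻¹) := by
      intro c
      field_simp
    rw [h5, e t1, e t2]
    generalize algebraMap k (RatFunc k) a + (algebraMap k (RatFunc k) b + 1) * T⁻¹ = D at *
    generalize 1 - algebraMap k (RatFunc k) t1 * T⁻¹ = D1
    generalize 1 - algebraMap k (RatFunc k) t2 * T⁻¹ = D2
    field_simp
  rw [h7] at hat
  have h8 := (h1.add h4).unique hat
  rw [mul_one, mul_one] at h8
  have h9 : lead / (p * a) = 0 := by linear_combination h8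
  exact div_ne_zero hl (mul_ne_zero hp ha) h9

/-- one step of the chain, for `l ≥ 1` -/
private theorem Sam_step (hF : F.Adm) (hb : ∀ i, 0 < b i ∧ b i < F.M i) (hE : IsCFs F s E)
    (hEig : IsEigs F.M b E) {j j' : Fin N} (hj : j ≠ j') (hs : Bas F (s j))
    (hs' : Bas F (s j')) {w0 : Fin N → Fin n → k} (h0 : ∀ l, l ≠ j → l ≠ j' → Int F (cb s l) (w0 l))
    {x y : ℕ → k} (hx : Good n x) (hy : Good n y) (hmx : mu n x = lam F (cb s j))
    (hmy : mu n y = lam F (cb s j')) (hG : Sam1 n x y) {l : ℕ} (hl0 : 0 < l) (hl : l + 1 < n)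
    {c : Fin n → k} (hc : ∀ i, c i ≠ 0)
    (hP : ∀ i : Fin n, c i ^ F.M i = ev (F.B i) (cb s j) / ev (F.C i) (cb s j) *
      (ev (F.B i) (cb s j') / ev (F.C i) (cb s j')) * ((1 - x i) * (1 - y i)))
    {w1 w2 : Fin N → Fin n → k} (hw1 : ∀ l, l ≠ j → l ≠ j' → w1 l = w0 l)
    (hw1a : ∀ i : Fin n, w1 j i ^ F.M i = ev (F.B i) (cb s j) / ev (F.C i) (cb s j) *
      (1 - st x y (l + 1) (fx n x y (l + 1)) i))
    (hw1p : ∀ i, w1 j i * w1 j' i = c i)
    (hw2 : ∀ l, l ≠ j → l ≠ j' → w2 l = w0 l)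
    (hw2a : ∀ i : Fin n, w2 j i ^ F.M i = ev (F.B i) (cb s j) / ev (F.C i) (cb s j) *
      (1 - st x y l (fx n x y l) i))
    (hw2p : ∀ i, w2 j i * w2 j' i = c i) :
    E (som w1) + E (som w2) = 0 := by
  have hTt : Transcendental k (RatFunc.X : RatFunc k) := RatFunc.transcendental_X
  have hl' : l < n := by omega
  have hinj : Function.Injective (algebraMap k (RatFunc k)) := (algebraMap k (RatFunc k)).injective
  set X' : ℕ → RatFunc k := fun i => algebraMap k (RatFunc k) (x i) with hX'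
  set Y' : ℕ → RatFunc k := fun i => algebraMap k (RatFunc k) (y i) with hY'
  set T : RatFunc k := RatFunc.X with hT
  set t1 : k := fx n x y (l + 1) with ht1
  set t2 : k := fl x y l 1 (fx n x y l) with ht2
  have hX0 : ∀ i, X' i ≠ 0 := fun i => by
    rw [hX', Ne, map_eq_zero]
    exact hx.ne0 i
  have hY0 : ∀ i, Y' i ≠ 0 := fun i => by
    rw [hY', Ne, map_eq_zero]
    exact hy.ne0 i
  have hne : ∀ i, i ≤ n - 1 - l → fl X' Y' (l + 1) i T ≠ 0 := fun i hi =>
    Sam_step_ne hTt (Sam_one_ne hl hG hi).1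
  have hne' : ∀ i, i ≤ n - 1 - l → fl X' Y' (l + 1) i T + 1 ≠ 0 := fun i hi =>
    Sam_step_ne' hTt (Sam_one_ne hl hG hi).2
  have hT0 : T ≠ 0 := hne 0 (Nat.zero_le _)
  have hg := hne' _ le_rfl
  set g : RatFunc k := fl X' Y' (l + 1) (n - 1 - l) T with hg0
  set a : k := al x y (l + 1) (n - 1 - l) with ha0
  set be0 : k := be x y (l + 1) (n - 1 - l) with hbe0
  have ha : a ≠ 0 := al_ne hx.ne0 hy.ne0 _ _
  have hgT : g = algebraMap k (RatFunc k) a * T + algebraMap k (RatFunc k) be0 := by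
    have h1 := fl_alg (K := RatFunc k) x y (l + 1) (n - 1 - l) 0
    rw [fl_eq, fl_eq, map_zero, mul_zero, mul_zero, zero_add, zero_add] at h1
    rw [hg0, fl_eq, h1, al_alg]
  set lead : k := (x l - y l * a) * (a - 1) with hlead
  have hlead0 : lead ≠ 0 := lead_ne hx.ne0 hy.ne0 hl (Sam_al hG hl0 hl')
    (Sam_al hG (Nat.succ_pos l) hl)
  set P : Fin n → k := fun i => (1 - x i) * (1 - y i) with hP0
  have hPne : ∀ i, P i ≠ 0 := fun i =>
    mul_ne_zero (sub_ne_zero.2 (hx.ne1 _).symm) (sub_ne_zero.2 (hy.ne1 _).symm)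
  set p : k := P ⟨l, hl'⟩ with hp0
  have hp : p ≠ 0 := hPne _
  have hpA : algebraMap k (RatFunc k) p ≠ 0 := by
    rw [Ne, map_eq_zero]
    exact hp
  have hleadA : algebraMap k (RatFunc k) lead ≠ 0 := by
    rw [Ne, map_eq_zero]
    exact hlead0
  set u : RatFunc k := algebraMap k (RatFunc k) lead /
    (algebraMap k (RatFunc k) p * T * (g + 1)) with hu0
  -- the value of `u`
  have huv : ∀ (t0 : k) (v : Place k (RatFunc k)), v.At T t0 → t0 ≠ 0 →
      fl x y (l + 1) (n - 1 - l) t0 + 1 ≠ 0 → ∃ d, d ≠ 0 ∧ v.At u d := by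
    intro t0 v hv h1 h2
    have h3 := Place.at_const (v := v) (1 : k)
    rw [map_one] at h3
    refine ⟨lead / (p * t0 * (fl x y (l + 1) (n - 1 - l) t0 + 1)),
      div_ne_zero hlead0 (mul_ne_zero (mul_ne_zero hp h1) h2), ?_⟩
    exact (Place.at_const lead).div (((Place.at_const p).mul hv).mul ((fl_at x y _ _ hv).add h3))
      (mul_ne_zero (mul_ne_zero hp h1) h2)
  refine pair_line (t1 := t1) (t2 := t2) (u := u) (P := P) (i0 := ⟨l, hl'⟩)
    (X := fun i => cX n X' Y' l T i) (Y := fun i => cY n X' Y' l T i) hF hb hE hEig hj hs hs' h0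
    hc hP ?_ ?_ ?_ ?_ ?_ ?_ ?_ ?_ (x1 := fun i => st x y (l + 1) t1 i)
    (x2 := fun i => st x y l (fx n x y l) i) ?_ ?_ ?_ ?_ hw1 hw1a hw1p hw2 hw2a hw2p
  · rw [Fin.prod_univ_eq_prod_range (fun i => cX n X' Y' l T i) n, prod_cX hl hne', ← hmx]
    exact (map_prod (algebraMap k (RatFunc k)) _ _).symm
  · rw [Fin.prod_univ_eq_prod_range (fun i => cY n X' Y' l T i) n, prod_cY hl hne, ← hmy]
    exact (map_prod (algebraMap k (RatFunc k)) _ _).symm
  · intro i hi
    have hil : (i : ℕ) ≠ l := fun h => hi (Fin.ext h)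
    show (1 - cX n X' Y' l T i) * (1 - cY n X' Y' l T i) = _
    rw [cXY hX0 hY0 hne hne' i.isLt hil, hX', hY', hP0]
    beta_reduce
    rw [map_mul, map_sub, map_sub, map_one]
  · show (1 - cX n X' Y' l T l) * (1 - cY n X' Y' l T l) = _
    have q1 : al X' Y' l (n - l) ≠ 1 := by
      rw [hX', hY', al_alg, ← map_one (algebraMap k (RatFunc k))]
      exact fun h => Sam_al hG hl0 hl' (hinj h)
    have q2 : al X' Y' (l + 1) (n - (l + 1)) ≠ 1 := by
      rw [hX', hY', al_alg, ← map_one (algebraMap k (RatFunc k))]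
      exact fun h => Sam_al hG (Nat.succ_pos l) hl (hinj h)
    rw [cXY_l hX0 hY0 hl q1 q2 hT0 hg]
    have q3 : fx n X' Y' (l + 1) = algebraMap k (RatFunc k) t1 := fx_alg x y _
    have q4 : fl X' Y' l 1 (fx n X' Y' l) = algebraMap k (RatFunc k) t2 := by
      have q5 : fx n X' Y' l = algebraMap k (RatFunc k) (fx n x y l) := fx_alg x y _
      rw [q5]
      exact fl_alg x y _ _ _
    have q6 : al X' Y' (l + 1) (n - 1 - l) = algebraMap k (RatFunc k) a := al_alg x y _ _
    have q7 : (X' l - Y' l * algebraMap k (RatFunc k) a) * (algebraMap k (RatFunc k) a - 1) =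
        algebraMap k (RatFunc k) lead := by
      rw [hlead, map_mul, map_sub, map_sub, map_mul, map_one]
    have q8 : (1 - X' l) * (1 - Y' l) = algebraMap k (RatFunc k) p := by
      rw [hp0, hP0]
      beta_reduce
      rw [map_mul, map_sub, map_sub, map_one]
    rw [q3, q4, q6, q7, q8, hu0]
    change _ = algebraMap k (RatFunc k) p * _
    have hg' : g + 1 ≠ 0 := hg
    rw [← hg0]
    generalize algebraMap k (RatFunc k) lead = L at *
    generalize algebraMap k (RatFunc k) p = p' at *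
    generalize g + 1 = g' at *
    generalize T - algebraMap k (RatFunc k) t1 = D1 at *
    generalize T - algebraMap k (RatFunc k) t2 = D2 at *
    field_simp
  · intro v hv
    exact huv t1 v hv (Sam_one_ne hl hG (Nat.zero_le _)).1 (Sam_one_ne hl hG le_rfl).2
  · intro v hv
    exact huv t2 v hv (Sam_two_ne hl0 hl hG (Nat.zero_le _)).1 (Sam_two_ne hl0 hl hG le_rfl).2
  · intro v hv
    rw [hu0, inv_div, div_eq_mul_inv, ← map_inv₀]
    refine mul_mem (mul_mem (mul_mem (v.const_mem _) hv) (add_mem ?_ (one_mem _)))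
      (v.const_mem _)
    rw [hgT]
    exact add_mem (mul_mem (v.const_mem _) hv) (v.const_mem _)
  · intro v hv
    exact Sam_step_inf hv ha hlead0 hp hgT
  · intro i v hv
    have h1 := cX_at (m := n) x y (l := l) hv (fun i hi => (Sam_one_ne hl hG hi).2) i.isLt
    rw [Sam_cX_one hl hG] at h1
    exact h1
  · intro i
    exact Sam_st_ne hx hy (Nat.succ_pos l) hl hG i.isLt
  · intro i v hv
    have h1 := cX_at (m := n) x y (l := l) hv (fun i hi => (Sam_two_ne hl0 hl hG hi).2) i.isLt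
    rw [Sam_cX_two hl0 hl hG] at h1
    exact h1
  · intro i
    exact Sam_st_ne hx hy hl0 hl' hG i.isLt

omit [IsAlgClosed k] [CharZero k] hL in
/-- the product over all slots -/
private theorem Sam_prod {f g : Fin N → k} {j j' : Fin N} (hj : j ≠ j')
    (h : ∀ l, l ≠ j → l ≠ j' → f l = g l) (hp : f j * f j' = g j * g j') :
    ∏ l, f l = ∏ l, g l := by
  have h1 : ∀ e : Fin N → k, ∏ l, e l =
      e j * e j' * ∏ l ∈ (Finset.univ.erase j).erase j', e l := by
    intro e
    rw [← Finset.mul_prod_erase Finset.univ e (Finset.mem_univ j),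
      ← Finset.mul_prod_erase (Finset.univ.erase j) e
        (Finset.mem_erase.2 ⟨hj.symm, Finset.mem_univ j'⟩), mul_assoc]
  rw [h1 f, h1 g, hp]
  congr 1
  refine Finset.prod_congr rfl fun l hl => ?_
  rw [Finset.mem_erase, Finset.mem_erase] at hl
  exact h l hl.2.1 hl.1

/-- the chain down to the level `1` -/
private theorem Sam_chain (hF : F.Adm) (hb : ∀ i, 0 < b i ∧ b i < F.M i) (hE : IsCFs F s E)
    (hEig : IsEigs F.M b E) {j j' : Fin N} (hj : j ≠ j')
    {w : Fin N → Fin n → k} (hw : ∀ l, Int F (cb s l) (w l))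
    {x y : ℕ → k} (hx : Good n x) (hy : Good n y) (hmx : mu n x = lam F (cb s j))
    (hmy : mu n y = lam F (cb s j')) (hG : Sam1 n x y)
    (hwx : ∀ i : Fin n, w j i ^ F.M i = ev (F.B i) (cb s j) / ev (F.C i) (cb s j) * (1 - x i))
    (hwy : ∀ i : Fin n, w j' i ^ F.M i =
      ev (F.B i) (cb s j') / ev (F.C i) (cb s j') * (1 - y i)) (d : ℕ) :
    d + 1 < n → ∀ w' : Fin N → Fin n → k, (∀ l, l ≠ j → l ≠ j' → w' l = w l) →
      (∀ i, w' j i * w' j' i = w j i * w j' i) →
      (∀ i : Fin n, w' j i ^ F.M i = ev (F.B i) (cb s j) / ev (F.C i) (cb s j) *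
        (1 - st x y (n - 1 - d) (fx n x y (n - 1 - d)) i)) →
      E (som w) = ((-1 : ℤ) ^ d) • E (som w') := by
  have hM := hF.M0
  induction d with
  | zero =>
    intro hn w' h1 h2 h3
    rw [pow_zero, one_smul]
    have h4 : ∀ i, w' j i ^ F.M i = w j i ^ F.M i := by
      intro i
      rw [h3 i, hwx i, Nat.sub_zero, Sam_st_last (by omega) hG i.isLt]
    refine (eq_of_prods s hEig (w := w) (w' := w') (fun l i => (hw l).w i) ?_ ?_).symm
    · intro l i
      by_cases hlj : l = j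
      · subst hlj
        exact (h4 i).symm
      by_cases hlj' : l = j'
      · subst hlj'
        have h5 := congrArg (· ^ F.M i) (h2 i)
        beta_reduce at h5
        rw [mul_pow, mul_pow, h4 i] at h5
        exact (mul_left_cancel₀ (pow_ne_zero _ ((hw j).w i)) h5).symm
      · rw [h1 l hlj hlj']
    · intro i
      exact Sam_prod hj (fun l hl hl' => by rw [h1 l hl hl']) (h2 i).symm
  | succ d ih =>
    intro hn w' h1 h2 h3
    have hl0 : 0 < n - 1 - (d + 1) := by omega
    have hl : n - 1 - (d + 1) + 1 < n := by omega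
    have e : n - 1 - (d + 1) + 1 = n - 1 - d := by omega
    have hr0 : ∀ i : Fin n, ∃ r : k, r ^ F.M i = ev (F.B i) (cb s j) / ev (F.C i) (cb s j) *
        (1 - st x y (n - 1 - (d + 1) + 1) (fx n x y (n - 1 - (d + 1) + 1)) i) := fun i =>
      IsAlgClosed.exists_pow_nat_eq _ (hM i)
    choose r hr using hr0
    have hrn : ∀ i, r i ≠ 0 := by
      intro i hi
      have h5 := hr i
      rw [hi, zero_pow (hM i).ne'] at h5
      exact mul_ne_zero (div_ne_zero (((hw j).un hF).B i) (((hw j).un hF).C i))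
        (sub_ne_zero.2 (Sam_st_ne hx hy (Nat.succ_pos _) hl hG i.isLt).symm) h5.symm
    set w1 : Fin N → Fin n → k := fun l i =>
      if l = j then r i else if l = j' then w j i * w j' i / r i else w l i with hw1
    have hw1j : w1 j = r := by
      funext i
      exact if_pos rfl
    have hw1j' : w1 j' = fun i => w j i * w j' i / r i := by
      funext i
      rw [hw1]
      beta_reduce
      rw [if_neg hj.symm, if_pos rfl]
    have hw1l : ∀ l, l ≠ j → l ≠ j' → w1 l = w l := by
      intro l hlj hlj'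
      funext i
      rw [hw1]
      beta_reduce
      rw [if_neg hlj, if_neg hlj']
    have hp1 : ∀ i, w1 j i * w1 j' i = w j i * w j' i := by
      intro i
      rw [hw1j, hw1j']
      exact mul_div_cancel₀ _ (hrn i)
    have h5 := ih (by omega) w1 hw1l hp1 fun i => by
      rw [hw1j, hr i, e]
    have h6 := Sam_step hF hb hE hEig hj (base_inr.1 (hw j).base) (base_inr.1 (hw j').base)
      (w0 := w) (fun l _ _ => hw l) hx hy hmx hmy hG hl0 hl (c := fun i => w j i * w j' i)
      (fun i => mul_ne_zero ((hw j).w i) ((hw j').w i)) (fun i => by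
        rw [mul_pow, hwx, hwy]
        ring) (w1 := w1) (w2 := w') hw1l (fun i => by rw [hw1j, hr i]) hp1 h1 h3 h2
    rw [h5, eq_neg_of_add_eq_zero_left h6, pow_succ, mul_smul, neg_one_smul]


/-! ### The last step -/

omit [IsAlgClosed k] [CharZero k] hL in
/-- the value at infinity -/
private theorem Sam_last_inf {v : Place k (RatFunc k)} {T : RatFunc k} (hT : T ∉ v.ring)
    {t1 a b lead p : k} (ha : a ≠ 0) (hl : lead ≠ 0) (hp : p ≠ 0) :
    ¬ v.At (1 + (T - algebraMap k (RatFunc k) t1) * (T - algebraMap k (RatFunc k) 0) *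
      (algebraMap k (RatFunc k) lead / (algebraMap k (RatFunc k) p *
        (algebraMap k (RatFunc k) a + (algebraMap k (RatFunc k) b + 1) * T)))) 1 := by
  intro hat
  have hT0 : T ≠ 0 := fun h0 => hT (h0 ▸ zero_mem v.ring)
  have h0 : v.At T⁻¹ 0 := by
    rw [Place.at_zero_iff]
    exact (v.vanishes_iff_or _).2 (Or.inr (by rwa [inv_inv]))
  have h1 : v.At (1 : RatFunc k) (1 : k) := by
    have := Place.at_const (v := v) (1 : k)
    rwa [map_one] at this
  have hp' : algebraMap k (RatFunc k) p ≠ 0 := by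
    rw [Ne, map_eq_zero]
    exact hp
  have h2 := hat.sub h1
  rw [add_sub_cancel_left, sub_self] at h2
  -- the denominator is not zero
  set D : RatFunc k := algebraMap k (RatFunc k) a + (algebraMap k (RatFunc k) b + 1) * T with hD
  have hD0 : D ≠ 0 := by
    intro h3
    have h4 : algebraMap k (RatFunc k) a * T⁻¹ = -(algebraMap k (RatFunc k) (b + 1)) := by
      rw [map_add, map_one]
      field_simp
      linear_combination h3
    have h5 := (Place.at_const (v := v) a).mul h0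
    rw [h4, mul_zero] at h5
    have h6 : v.At (-(algebraMap k (RatFunc k) (b + 1))) (-(b + 1)) := by
      have h7 := Place.at_const (v := v) (-(b + 1))
      rwa [map_neg] at h7
    have h7 := h6.unique h5
    have h8 : b + 1 = 0 := by linear_combination -h7
    rw [h8, map_zero, neg_zero, mul_eq_zero, map_eq_zero] at h4
    rcases h4 with h4 | h4
    · exact ha h4
    · exact inv_ne_zero hT0 h4
  have h3 : (algebraMap k (RatFunc k) a * T⁻¹ + (algebraMap k (RatFunc k) b + 1)) * T⁻¹ *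
      ((T - algebraMap k (RatFunc k) t1) * (T - algebraMap k (RatFunc k) 0) *
        (algebraMap k (RatFunc k) lead / (algebraMap k (RatFunc k) p * D))) =
      algebraMap k (RatFunc k) lead / algebraMap k (RatFunc k) p *
        (1 - algebraMap k (RatFunc k) t1 * T⁻¹) := by
    have h4 : algebraMap k (RatFunc k) a * T⁻¹ + (algebraMap k (RatFunc k) b + 1) =
        D * T⁻¹ := by
      rw [hD]
      field_simp
    rw [h4, map_zero, sub_zero]
    generalize algebraMap k (RatFunc k) lead = l'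
    generalize algebraMap k (RatFunc k) t1 = t'
    clear_value D
    field_simp
  have h4 := ((((Place.at_const (v := v) a).mul h0).add
    ((Place.at_const (v := v) b).add h1)).mul h0).mul h2
  rw [h3] at h4
  have h5 := ((Place.at_const (v := v) lead).div (Place.at_const (v := v) p) hp).mul
    (h1.sub ((Place.at_const (v := v) t1).mul h0))
  have h6 := h4.unique h5
  rw [mul_zero, mul_zero, sub_zero, mul_one] at h6
  exact div_ne_zero hl hp h6.symm

/-- the last step: from the level `1` to the exchanged rows -/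
private theorem Sam_last (hF : F.Adm) (hb : ∀ i, 0 < b i ∧ b i < F.M i) (hE : IsCFs F s E)
    (hEig : IsEigs F.M b E) {j j' : Fin N} (hj : j ≠ j') (hs : Bas F (s j))
    (hs' : Bas F (s j')) {w0 : Fin N → Fin n → k} (h0 : ∀ l, l ≠ j → l ≠ j' → Int F (cb s l) (w0 l))
    {x y : ℕ → k} (hx : Good n x) (hy : Good n y) (hmx : mu n x = lam F (cb s j))
    (hmy : mu n y = lam F (cb s j')) (hxy : mu n x = mu n y) (hG : Sam1 n x y) (hn : 2 ≤ n)
    (hlast : be x y 1 (n - 1) + 1 - x 0 ≠ 0) {c : Fin n → k} (hc : ∀ i, c i ≠ 0)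
    (hP : ∀ i : Fin n, c i ^ F.M i = ev (F.B i) (cb s j) / ev (F.C i) (cb s j) *
      (ev (F.B i) (cb s j') / ev (F.C i) (cb s j')) * ((1 - x i) * (1 - y i)))
    {w1 w2 : Fin N → Fin n → k} (hw1 : ∀ l, l ≠ j → l ≠ j' → w1 l = w0 l)
    (hw1a : ∀ i : Fin n, w1 j i ^ F.M i = ev (F.B i) (cb s j) / ev (F.C i) (cb s j) *
      (1 - st x y 1 (fx n x y 1) i))
    (hw1p : ∀ i, w1 j i * w1 j' i = c i)
    (hw2 : ∀ l, l ≠ j → l ≠ j' → w2 l = w0 l)
    (hw2a : ∀ i : Fin n, w2 j i ^ F.M i = ev (F.B i) (cb s j) / ev (F.C i) (cb s j) *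
      (1 - y i))
    (hw2p : ∀ i, w2 j i * w2 j' i = c i) :
    E (som w1) + E (som w2) = 0 := by
  have hTt : Transcendental k (RatFunc.X : RatFunc k) := RatFunc.transcendental_X
  have hTi : Transcendental k (RatFunc.X : RatFunc k)⁻¹ := fun h => hTt (by
    have h6 := h.inv
    rwa [inv_inv] at h6)
  have hl : 0 + 1 < n := by omega
  have hinj : Function.Injective (algebraMap k (RatFunc k)) := (algebraMap k (RatFunc k)).injective
  set X' : ℕ → RatFunc k := fun i => algebraMap k (RatFunc k) (x i) with hX'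
  set Y' : ℕ → RatFunc k := fun i => algebraMap k (RatFunc k) (y i) with hY'
  set T : RatFunc k := RatFunc.X with hT
  set t1 : k := fx n x y 1 with ht1
  have hT0 : T ≠ 0 := RatFunc.X_ne_zero
  have hX0 : ∀ i, X' i ≠ 0 := fun i => by
    rw [hX', Ne, map_eq_zero]
    exact hx.ne0 i
  have hY0 : ∀ i, Y' i ≠ 0 := fun i => by
    rw [hY', Ne, map_eq_zero]
    exact hy.ne0 i
  have hne : ∀ i, i ≤ n - 1 - 0 → fl X' Y' (0 + 1) i T⁻¹ ≠ 0 := fun i hi =>
    Sam_step_ne hTi (Sam_one_ne hl hG hi).1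
  have hne' : ∀ i, i ≤ n - 1 - 0 → fl X' Y' (0 + 1) i T⁻¹ + 1 ≠ 0 := fun i hi =>
    Sam_step_ne' hTi (Sam_one_ne hl hG hi).2
  have ht10 : t1 ≠ 0 := (Sam_one_ne hl hG (Nat.zero_le _)).1
  have ht11 : fl x y 1 (n - 1) t1 + 1 ≠ 0 := (Sam_one_ne hl hG le_rfl).2
  set a : k := al x y 1 (n - 1) with ha0
  set be0 : k := be x y 1 (n - 1) with hbe0
  have ha : a ≠ 0 := al_ne hx.ne0 hy.ne0 _ _
  have ha1 : a ≠ 1 := Sam_al hG Nat.one_pos (by omega)
  have hbe : ∀ i, be X' Y' 1 i = algebraMap k (RatFunc k) (be x y 1 i) := by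
    intro i
    have h1 := fl_alg (K := RatFunc k) x y 1 i 0
    rw [fl_eq, fl_eq, map_zero, mul_zero, mul_zero, zero_add, zero_add] at h1
    exact h1
  have hal : ∀ i, al X' Y' 1 i = algebraMap k (RatFunc k) (al x y 1 i) := fun i =>
    al_alg x y _ _
  -- the maps
  set D : ℕ → RatFunc k := fun i => algebraMap k (RatFunc k) (al x y 1 i) +
    (algebraMap k (RatFunc k) (be x y 1 i) + 1) * T with hD
  have hgD : ∀ i, fl X' Y' (0 + 1) i T⁻¹ + 1 = D i * T⁻¹ := by
    intro i
    rw [fl_eq, hbe, hal, hD]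
    field_simp
    ring
  have hD0 : ∀ i, i ≤ n - 1 → D i ≠ 0 := by
    intro i hi h1
    have h2 := hne' i (by omega)
    rw [hgD, h1, zero_mul] at h2
    exact h2 rfl
  have hDat : ∀ (v : Place k (RatFunc k)) (t0 : k) (i : ℕ), v.At T t0 →
      v.At (D i) (al x y 1 i + (be x y 1 i + 1) * t0) := by
    intro v t0 i hv
    have h3 := Place.at_const (v := v) (1 : k)
    rw [map_one] at h3
    exact (Place.at_const _).add (((Place.at_const _).add h3).mul hv)
  set P : Fin n → k := fun i => (1 - x i) * (1 - y i) with hP0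
  have hPne : ∀ i, P i ≠ 0 := fun i =>
    mul_ne_zero (sub_ne_zero.2 (hx.ne1 _).symm) (sub_ne_zero.2 (hy.ne1 _).symm)
  have hn0 : 0 < n := by omega
  set p : k := P ⟨0, hn0⟩ with hp0
  have hp : p ≠ 0 := hPne _
  have hpA : algebraMap k (RatFunc k) p ≠ 0 := by
    rw [Ne, map_eq_zero]
    exact hp
  set lead : k := y 0 * (be0 + 1 - x 0) * (a - 1) * t1 with hlead
  have hlead0 : lead ≠ 0 := mul_ne_zero (mul_ne_zero (mul_ne_zero (hy.ne0 0) hlast)
    (sub_ne_zero.2 ha1)) ht10
  have hleadA : algebraMap k (RatFunc k) lead ≠ 0 := by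
    rw [Ne, map_eq_zero]
    exact hlead0
  set u : RatFunc k := algebraMap k (RatFunc k) lead /
    (algebraMap k (RatFunc k) p * D (n - 1)) with hu0
  -- the value of `u`
  have huv : ∀ (t0 : k) (v : Place k (RatFunc k)), v.At T t0 →
      a + (be0 + 1) * t0 ≠ 0 → ∃ d, d ≠ 0 ∧ v.At u d := by
    intro t0 v hv h1
    refine ⟨lead / (p * (a + (be0 + 1) * t0)), div_ne_zero hlead0 (mul_ne_zero hp h1), ?_⟩
    exact (Place.at_const lead).div ((Place.at_const p).mul (hDat v t0 _ hv)) (mul_ne_zero hp h1)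
  have hmul := Sam_mul hx.ne0 hn0 hxy
  refine pair_line (t1 := t1⁻¹) (t2 := 0) (u := u) (P := P) (i0 := ⟨0, hn0⟩)
    (X := fun i => cX n X' Y' 0 T⁻¹ i) (Y := fun i => cY n X' Y' 0 T⁻¹ i) hF hb hE hEig hj hs
    hs' h0 hc hP ?_ ?_ ?_ ?_ ?_ ?_ ?_ ?_ (x1 := fun i => st x y 1 t1 i)
    (x2 := fun i => y i) ?_ ?_ ?_ ?_ hw1 hw1a hw1p hw2 hw2a hw2p
  · rw [Fin.prod_univ_eq_prod_range (fun i => cX n X' Y' 0 T⁻¹ i) n, prod_cX hl hne', ← hmx]
    exact (map_prod (algebraMap k (RatFunc k)) _ _).symm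
  · rw [Fin.prod_univ_eq_prod_range (fun i => cY n X' Y' 0 T⁻¹ i) n, prod_cY hl hne, ← hmy]
    exact (map_prod (algebraMap k (RatFunc k)) _ _).symm
  · intro i hi
    have hil : (i : ℕ) ≠ 0 := fun h => hi (Fin.ext h)
    show (1 - cX n X' Y' 0 T⁻¹ i) * (1 - cY n X' Y' 0 T⁻¹ i) = _
    rw [cXY hX0 hY0 hne hne' i.isLt hil, hX', hY', hP0]
    beta_reduce
    rw [map_mul, map_sub, map_sub, map_one]
  · show (1 - cX n X' Y' 0 T⁻¹ 0) * (1 - cY n X' Y' 0 T⁻¹ 0) = _
    have q1 : al X' Y' 1 (n - 1) ≠ 1 := by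
      rw [hal, ← map_one (algebraMap k (RatFunc k))]
      exact fun h => ha1 (hinj h)
    have q2 : mu n X' = mu n Y' := by
      have h1 := congrArg (algebraMap k (RatFunc k)) hxy
      unfold mu at h1 ⊢
      rwa [map_prod, map_prod] at h1
    have q0 : fl X' Y' 1 (n - 1) T⁻¹ + 1 = D (n - 1) * T⁻¹ := hgD _
    rw [Sam_cXY hX0 hn q2 q1 (inv_ne_zero hT0) (hne' _ le_rfl), q0]
    have q3 : fx n X' Y' 1 = algebraMap k (RatFunc k) t1 := fx_alg x y _
    have q8 : (1 - X' 0) * (1 - Y' 0) = algebraMap k (RatFunc k) p := by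
      rw [hp0, hP0]
      beta_reduce
      rw [map_mul, map_sub, map_sub, map_one]
    have q9 : Y' 0 * (be X' Y' 1 (n - 1) + 1 - X' 0) * (1 - al X' Y' 1 (n - 1)) *
        algebraMap k (RatFunc k) t1 = -algebraMap k (RatFunc k) lead := by
      rw [hbe, hal, hlead, map_mul, map_mul, map_mul, map_sub, map_sub, map_add, map_one]
      ring
    have q10 : algebraMap k (RatFunc k) t1 ≠ 0 := by
      rw [Ne, map_eq_zero]
      exact ht10
    have q11 : algebraMap k (RatFunc k) t1⁻¹ = (algebraMap k (RatFunc k) t1)⁻¹ := map_inv₀ _ _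
    have q12 := hD0 (n - 1) le_rfl
    rw [q3, q8, hu0, q11, map_zero, sub_zero]
    change _ = algebraMap k (RatFunc k) p * _
    generalize Y' 0 * (be X' Y' 1 (n - 1) + 1 - X' 0) * (1 - al X' Y' 1 (n - 1)) = Q at *
    generalize D (n - 1) = D' at *
    generalize algebraMap k (RatFunc k) lead = L at *
    generalize algebraMap k (RatFunc k) p = p' at *
    generalize algebraMap k (RatFunc k) t1 = τ at *
    have q13 : L = -(Q * τ) := by rw [q9, neg_neg]
    subst q13
    field_simp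
    ring
  · intro v hv
    refine huv t1⁻¹ v hv ?_
    intro h1
    apply ht11
    rw [fl_eq]
    change a * t1 + be0 + 1 = 0
    have h2 : (a + (be0 + 1) * t1⁻¹) * t1 = 0 := by rw [h1, zero_mul]
    rw [add_mul, mul_assoc, inv_mul_cancel₀ ht10] at h2
    linear_combination h2
  · intro v hv
    refine huv 0 v hv ?_
    rw [mul_zero, add_zero]
    exact ha
  · intro v hv
    rw [hu0, inv_div, div_eq_mul_inv, ← map_inv₀]
    exact mul_mem (mul_mem (v.const_mem _) (add_mem (v.const_mem _)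
      (mul_mem (add_mem (v.const_mem _) (one_mem _)) hv))) (v.const_mem _)
  · intro v hv
    exact Sam_last_inf hv ha hlead0 hp
  · intro i v hv
    have hv' := hv.inv (inv_ne_zero ht10)
    rw [inv_inv] at hv'
    have h1 := cX_at (m := n) x y (l := 0) hv' (fun i hi => (Sam_one_ne hl hG hi).2) i.isLt
    rw [Sam_cX_one hl hG] at h1
    exact h1
  · intro i
    exact Sam_st_ne hx hy Nat.one_pos hl hG i.isLt
  · intro i v hv
    have hDv : ∀ i, v.At (D i) (al x y 1 i) := by
      intro i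
      have h1 := hDat v 0 i hv
      rwa [mul_zero, add_zero] at h1
    show v.At (cX n X' Y' 0 T⁻¹ i) (y i)
    unfold cX
    rw [if_neg (Nat.not_lt_zero _)]
    by_cases hi : (i : ℕ) = 0
    · rw [if_pos hi, hi, hgD]
      have h1 : T⁻¹ + 1 = D 0 * T⁻¹ := hgD 0
      have h2 : X' 0 * (T⁻¹ + 1) / (D (n - 1 - 0) * T⁻¹) = X' 0 * D 0 / D (n - 1) := by
        rw [h1, Nat.sub_zero, ← mul_assoc, mul_div_mul_right _ _ (inv_ne_zero hT0)]
      rw [h2]
      have h3 := ((Place.at_const (v := v) (x 0)).mul (hDv 0)).div (hDv (n - 1)) ha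
      have h4 : x 0 * al x y 1 0 / al x y 1 (n - 1) = y 0 := by
        have h5 : al x y 1 0 = 1 := rfl
        rw [h5, mul_one, div_eq_iff ha]
        exact hmul.symm
      rw [h4] at h3
      exact h3
    · rw [if_neg hi, hgD, hgD]
      have hin := i.isLt
      have h2 : X' i * (D (i - 0) * T⁻¹) / (D (i - 0 - 1) * T⁻¹) = X' i * D i / D (i - 1) := by
        rw [Nat.sub_zero, ← mul_assoc, mul_div_mul_right _ _ (inv_ne_zero hT0)]
      rw [h2]
      have hai : al x y 1 ((i : ℕ) - 1) ≠ 0 := al_ne hx.ne0 hy.ne0 _ _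
      have h3 := ((Place.at_const (v := v) (x i)).mul (hDv i)).div (hDv (i - 1)) hai
      have h4 : x i * al x y 1 i / al x y 1 ((i : ℕ) - 1) = y i := by
        obtain ⟨d, hd⟩ : ∃ d, (i : ℕ) = d + 1 := ⟨i - 1, by omega⟩
        rw [hd, Nat.add_sub_cancel] at hai ⊢
        have h5 : al x y 1 (d + 1) = al x y 1 d * (y (1 + d) / x (1 + d)) :=
          prod_range_succ _ _
        have h6 := hx.ne0 (d + 1)
        rw [h5, Nat.add_comm 1 d]
        field_simp
      rw [h4] at h3
      exact h3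
  · intro i
    exact hy.ne1 i


/-- **The exchange of two points of one component over the same point of the curve.** -/
private theorem Sam_two (hF : F.Adm) (hb : ∀ i, 0 < b i ∧ b i < F.M i) (hE : IsCFs F s E)
    (hEig : IsEigs F.M b E) (hn : 0 < n) {j j' : Fin N} (hj : j ≠ j') (hs : s j = s j')
    {w : Fin N → Fin n → k} (hw : ∀ l, Int F (cb s l) (w l))
    (hG : SamG n (row F hn (cb s j) (w j)) (row F hn (cb s j') (w j'))) :
    E (som fun l => w (Equiv.swap j j' l)) = ((-1 : ℤ) ^ (n + 1)) • E (som w) := by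
  have hM := hF.M0
  have hsb : cb s j' = cb s j := congrArg Sum.inr hs.symm
  set x := row F hn (cb s j) (w j) with hx
  set y := row F hn (cb s j') (w j') with hy
  have hgx : Good n x := (hw j).good hF hn
  have hgy : Good n y := (hw j').good hF hn
  have hmx : mu n x = lam F (cb s j) := (hw j).mu hF hn
  have hmy : mu n y = lam F (cb s j') := (hw j').mu hF hn
  have hxy : mu n x = mu n y := by rw [hmx, hmy, hsb]
  have hwx : ∀ i : Fin n, w j i ^ F.M i =
      ev (F.B i) (cb s j) / ev (F.C i) (cb s j) * (1 - x i) :=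
    pow_of_row hn ((hw j).un hF) hx.symm
  have hwy : ∀ i : Fin n, w j' i ^ F.M i =
      ev (F.B i) (cb s j') / ev (F.C i) (cb s j') * (1 - y i) :=
    pow_of_row hn ((hw j').un hF) hy.symm
  have hsl : ∀ l, l ≠ j → l ≠ j' → w (Equiv.swap j j' l) = w l := fun l h1 h2 => by
    rw [Equiv.swap_apply_of_ne_of_ne h1 h2]
  have hsj : w (Equiv.swap j j' j) = w j' := by
    rw [Equiv.swap_apply_left]
  have hsj' : w (Equiv.swap j j' j') = w j := by
    rw [Equiv.swap_apply_right]
  rcases Nat.lt_or_ge 1 n with hn2 | hn1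
  · obtain ⟨d, rfl⟩ : ∃ d, n = d + 2 := ⟨n - 2, by omega⟩
    have hr0 : ∀ i : Fin (d + 2), ∃ r : k, r ^ F.M i = ev (F.B i) (cb s j) /
        ev (F.C i) (cb s j) * (1 - st x y 1 (fx (d + 2) x y 1) i) := fun i =>
      IsAlgClosed.exists_pow_nat_eq _ (hM i)
    choose r hr using hr0
    have hrn : ∀ i, r i ≠ 0 := by
      intro i hi
      have h5 := hr i
      rw [hi, zero_pow (hM i).ne'] at h5
      exact mul_ne_zero (div_ne_zero (((hw j).un hF).B i) (((hw j).un hF).C i))
        (sub_ne_zero.2 (Sam_st_ne hgx hgy Nat.one_pos hn2 hG.one i.isLt).symm) h5.symm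
    set w1 : Fin N → Fin (d + 2) → k := fun l i =>
      if l = j then r i else if l = j' then w j i * w j' i / r i else w l i with hw1
    have hw1j : w1 j = r := by
      funext i
      exact if_pos rfl
    have hw1j' : w1 j' = fun i => w j i * w j' i / r i := by
      funext i
      rw [hw1]
      beta_reduce
      rw [if_neg hj.symm, if_pos rfl]
    have hw1l : ∀ l, l ≠ j → l ≠ j' → w1 l = w l := by
      intro l hlj hlj'
      funext i
      rw [hw1]
      beta_reduce
      rw [if_neg hlj, if_neg hlj']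
    have hp1 : ∀ i, w1 j i * w1 j' i = w j i * w j' i := by
      intro i
      rw [hw1j, hw1j']
      exact mul_div_cancel₀ _ (hrn i)
    have h5 := Sam_chain hF hb hE hEig hj hw hgx hgy hmx hmy hG.one hwx hwy d (by omega) w1 hw1l
      hp1 fun i => by
        rw [hw1j, hr i, show d + 2 - 1 - d = 1 by omega]
    have h6 := Sam_last hF hb hE hEig hj (base_inr.1 (hw j).base) (base_inr.1 (hw j').base)
      (w0 := w) (fun l _ _ => hw l) hgx hgy hmx hmy hxy hG.one (by omega)
      (hG.last (by omega)) (c := fun i => w j i * w j' i)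
      (fun i => mul_ne_zero ((hw j).w i) ((hw j').w i)) (fun i => by
        rw [mul_pow, hwx, hwy]
        ring) (w1 := w1) (w2 := fun l => w (Equiv.swap j j' l)) hw1l
      (fun i => by rw [hw1j, hr i]) hp1 hsl (fun i => by
        rw [hsj, hwy i, hsb]) (fun i => by
        rw [hsj, hsj', mul_comm])
    rw [h5, eq_neg_of_add_eq_zero_left h6, smul_neg, smul_neg, smul_smul, ← pow_add,
      show d + 2 + 1 + d = 2 * (d + 1) + 1 by ring, pow_succ, pow_mul]
    norm_num
  · obtain rfl : n = 1 := by omega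
    have hxy0 : x 0 = y 0 := by
      have h1 := hxy
      unfold mu at h1
      rwa [prod_range_one, prod_range_one] at h1
    have hpow : ∀ i : Fin 1, w j i ^ F.M i = w j' i ^ F.M i := by
      intro i
      have hi : (i : ℕ) = 0 := by omega
      rw [hwx i, hwy i, hi, hxy0, hsb]
    rw [show (1 + 1 : ℕ) = 2 from rfl, neg_one_sq, one_smul]
    refine eq_of_prods s hEig (w := w) (fun l i => (hw l).w i) ?_ ?_
    · intro l i
      by_cases hlj : l = j
      · subst hlj
        rw [hsj]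
        exact hpow i
      by_cases hlj' : l = j'
      · subst hlj'
        rw [hsj']
        exact (hpow i).symm
      · rw [hsl l hlj hlj']
    · intro i
      exact Sam_prod hj (fun l hl hl' => by rw [hsl l hl hl']) (by
        rw [hsj, hsj', mul_comm])


end SamChain

variable {k : Type} [Field k] {L : Type} [Field L] [Algebra k L] {κ : Type} {m : κ → ℕ}

/-- The permutation `h` of the coordinates maps the components to components (by `g`) and preserves
the data and the exponents `b`. -/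
structure IsSym (F : ∀ r, Fam k L (m r)) (b : Ix m → ℕ) (h : Equiv.Perm (Ix m))
    (g : Equiv.Perm κ) : Prop where
  fst : ∀ q, (h q).1 = g q.1
  E : ∀ q, (F (h q).1).E (h q).2 = (F q.1).E q.2
  B : ∀ q, (F (h q).1).B (h q).2 = (F q.1).B q.2
  C : ∀ q, (F (h q).1).C (h q).2 = (F q.1).C q.2
  M : ∀ q, MX F (h q) = MX F q
  A : ∀ r, (F (g r)).A = (F r).A
  b : ∀ q, b (h q) = b q

/-- the permutation of the coordinates maps the component `r` to the component `g r` -/
private theorem Sam_idx {F : ∀ r, Fam k L (m r)} {b : Ix m → ℕ} {h : Equiv.Perm (Ix m)}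
    {g : Equiv.Perm κ} (hs : IsSym F b h g) (r : κ) :
    ∃ e : Fin (m r) ≃ Fin (m (g r)), ∀ i, h ⟨r, i⟩ = ⟨g r, e i⟩ := by
  have h1 : ∀ i : Fin (m r), ∃ i' : Fin (m (g r)), h ⟨r, i⟩ = ⟨g r, i'⟩ := by
    intro i
    have h2 := hs.fst ⟨r, i⟩
    generalize h ⟨r, i⟩ = q at h2
    obtain ⟨r', i'⟩ := q
    obtain rfl : r' = g r := h2
    exact ⟨i', rfl⟩
  choose e he using h1
  refine ⟨Equiv.ofBijective e ⟨fun i j hij => ?_, fun i' => ?_⟩, he⟩
  · have h2 : h ⟨r, i⟩ = h ⟨r, j⟩ := by rw [he, he, hij]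
    have h3 := h.injective h2
    simpa using h3
  · have h2 := hs.fst (h.symm ⟨g r, i'⟩)
    rw [Equiv.apply_symm_apply] at h2
    have h3 : (h.symm ⟨g r, i'⟩).1 = r := g.injective h2.symm
    obtain ⟨i, hi⟩ : ∃ i, h.symm ⟨g r, i'⟩ = ⟨r, i⟩ := by
      generalize h.symm ⟨g r, i'⟩ = q at h3
      obtain ⟨r', i⟩ := q
      obtain rfl : r' = r := h3
      exact ⟨i, rfl⟩
    refine ⟨i, ?_⟩
    have h4 : h ⟨r, i⟩ = ⟨g r, i'⟩ := by rw [← hi, Equiv.apply_symm_apply]
    rw [he i] at h4
    simpa using h4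

private theorem Sam_S {F : ∀ r, Fam k L (m r)} {b : Ix m → ℕ} {h : Equiv.Perm (Ix m)}
    {g : Equiv.Perm κ} (hs : IsSym F b h g) (r : κ) : (F (g r)).S = (F r).S := by
  obtain ⟨e, he⟩ := Sam_idx hs r
  unfold Fam.S
  rw [← Equiv.sum_comp e]
  refine Finset.sum_congr rfl fun i _ => ?_
  have h1 := hs.E ⟨r, i⟩
  rw [he i] at h1
  exact h1

/-- one component of a permuted point -/
private theorem Sam_onY {F : ∀ r, Fam k L (m r)} {b : Ix m → ℕ} {h : Equiv.Perm (Ix m)}
    {g : Equiv.Perm κ} (hs : IsSym F b h g) {K : Type} [Field K] [Algebra k K] {s : Bp k L K}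
    {u : Ix m → Option K} {r : κ} (hu : OnY (F (g r)) s (cmp u (g r))) :
    OnY (F r) s (cmp (fun q => u (h q)) r) := by
  obtain ⟨e, he⟩ := Sam_idx hs r
  unfold OnY at hu ⊢
  have hB : ∀ i, (F (g r)).B (e i) = (F r).B i := fun i => by
    have h1 := hs.B ⟨r, i⟩
    rw [he i] at h1
    exact h1
  have hC : ∀ i, (F (g r)).C (e i) = (F r).C i := fun i => by
    have h1 := hs.C ⟨r, i⟩
    rw [he i] at h1
    exact h1
  have hE : ∀ i, (F (g r)).E (e i) = (F r).E i := fun i => by
    have h1 := hs.E ⟨r, i⟩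
    rw [he i] at h1
    exact h1
  have hM : ∀ i, (F (g r)).M (e i) = (F r).M i := fun i => by
    have h1 := hs.M ⟨r, i⟩
    rw [he i] at h1
    exact h1
  have hU : ∀ i, cmp (fun q => u (h q)) r i = u ⟨g r, e i⟩ := fun i => by
    show u (h ⟨r, i⟩) = _
    rw [he i]
  rw [← Equiv.prod_comp e, ← Equiv.prod_comp e, Sam_S hs, hs.A] at hu
  simp only [hU]
  have h1 : ∏ i, snd (u ⟨g r, e i⟩) ^ (F r).M i =
      ∏ i, snd (cmp u (g r) (e i)) ^ (F (g r)).M (e i) :=
    Finset.prod_congr rfl fun i _ => by rw [hM]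
  rw [h1, ← hu]
  refine Finset.prod_congr rfl fun i _ => ?_
  rw [hB, hC, hE, hM]

private theorem Sam_bas {F : ∀ r, Fam k L (m r)} {b : Ix m → ℕ} {h : Equiv.Perm (Ix m)}
    {g : Equiv.Perm κ} (hs : IsSym F b h g) {r : κ} {c : Place k L} (hc : Bas (F (g r)) c) :
    Bas (F r) c := by
  obtain ⟨e, he⟩ := Sam_idx hs r
  refine ⟨fun i => ?_, fun i => ?_, fun i => ?_, ?_⟩
  · have h1 := hs.E ⟨r, i⟩
    rw [he i] at h1
    rw [← h1]
    exact hc.E _
  · have h1 := hs.B ⟨r, i⟩
    rw [he i] at h1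
    rw [← h1]
    exact hc.B _
  · have h1 := hs.C ⟨r, i⟩
    rw [he i] at h1
    rw [← h1]
    exact hc.C _
  · rw [← hs.A r]
    exact hc.A

/-- interior points of the component `g r` give interior points of the component `r` -/
private theorem Sam_Int {F : ∀ r, Fam k L (m r)} {b : Ix m → ℕ} {h : Equiv.Perm (Ix m)}
    {g : Equiv.Perm κ} (hs : IsSym F b h g) {K : Type} [Field K] [Algebra k K] {s : Bp k L K}
    {w : Ix m → K} {r : κ} (hw : Int (F (g r)) s (cmp w (g r))) :
    Int (F r) s (cmp (fun q => w (h q)) r) := by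
  obtain ⟨e, he⟩ := Sam_idx hs r
  refine ⟨?_, fun c hc => Sam_bas hs (hw.base c hc), fun i => ?_⟩
  · have hU : ∀ i, cmp (fun q => w (h q)) r i = w ⟨g r, e i⟩ := fun i => by
      show w (h ⟨r, i⟩) = _
      rw [he i]
    have h1 := hw.onY
    rw [← Equiv.prod_comp e, hs.A] at h1
    rw [← h1]
    refine Finset.prod_congr rfl fun i _ => ?_
    have hB := hs.B ⟨r, i⟩
    have hC := hs.C ⟨r, i⟩
    have hM : (F (h ⟨r, i⟩).1).M (h ⟨r, i⟩).2 = (F r).M i := hs.M ⟨r, i⟩
    rw [he i] at hB hC hM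
    rw [hU, hB, hC, hM]
  · show w (h ⟨r, i⟩) ≠ 0
    rw [he i]
    exact hw.w _

private theorem Sam_lam {F : ∀ r, Fam k L (m r)} {b : Ix m → ℕ} {h : Equiv.Perm (Ix m)}
    {g : Equiv.Perm κ} (hs : IsSym F b h g) {K : Type} [Field K] [Algebra k K] (s : Bp k L K)
    (r : κ) : lam (F (g r)) s = lam (F r) s := by
  obtain ⟨e, he⟩ := Sam_idx hs r
  unfold lam
  rw [hs.A, ← Equiv.prod_comp e]
  congr 1
  refine Finset.prod_congr rfl fun i _ => ?_
  have hB := hs.B ⟨r, i⟩
  rw [he i] at hB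
  rw [hB]


/-- permuted coordinates are points -/
theorem IsSym.onX {F : ∀ r, Fam k L (m r)} {b : Ix m → ℕ} {h : Equiv.Perm (Ix m)}
    {g : Equiv.Perm κ} (hs : IsSym F b h g) {K : Type} [Field K] [Algebra k K] {s : Bp k L K}
    {u : Ix m → Option K} (hu : OnX F s u) : OnX F s fun q => u (h q) := by
  intro r
  exact Sam_onY hs (hu (g r))

/-! ### Two points of the component `r1` over the same point of the curve -/

/-- the coordinates of the components `r1` and `r2` are replaced -/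
private def Samu {α : Type} (h : Equiv.Perm (Ix m)) (r1 : κ) (v : Fin 2 → Fin (m r1) → α)
    (u : Ix m → α) : Ix m → α := fun q =>
  if H : q.1 = r1 then v 0 (H ▸ q.2) else if H : (h q).1 = r1 then v 1 (H ▸ (h q).2) else u q

section Samu

variable {F : ∀ r, Fam k L (m r)} {b : Ix m → ℕ} {h : Equiv.Perm (Ix m)} {r1 r2 : κ}

private theorem Samu_zero {α : Type} (v : Fin 2 → Fin (m r1) → α) (u : Ix m → α)
    (i : Fin (m r1)) : Samu h r1 v u ⟨r1, i⟩ = v 0 i := by
  unfold Samu
  rw [dif_pos rfl]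

private theorem Sam_fst (hs : IsSym F b h (Equiv.swap r1 r2)) (i : Fin (m r1)) :
    (h ⟨r1, i⟩).1 = r2 := by
  rw [hs.fst, Equiv.swap_apply_left]

private theorem Samu_one (hr : r1 ≠ r2) (hs : IsSym F b h (Equiv.swap r1 r2))
    (hh : ∀ q, h (h q) = q) {α : Type} (v : Fin 2 → Fin (m r1) → α) (u : Ix m → α)
    (i : Fin (m r1)) : Samu h r1 v u (h ⟨r1, i⟩) = v 1 i := by
  unfold Samu
  rw [dif_neg (by rw [Sam_fst hs]; exact hr.symm)]
  have h1 := hh ⟨r1, i⟩
  generalize h (h ⟨r1, i⟩) = q at h1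
  subst h1
  rw [dif_pos rfl]

private theorem Samu_ne (hs : IsSym F b h (Equiv.swap r1 r2)) {α : Type}
    (v : Fin 2 → Fin (m r1) → α) (u : Ix m → α) {q : Ix m} (h1 : q.1 ≠ r1) (h2 : q.1 ≠ r2) :
    Samu h r1 v u q = u q := by
  unfold Samu
  rw [dif_neg h1, dif_neg (by rw [hs.fst, Equiv.swap_apply_of_ne_of_ne h1 h2]; exact h1)]

private theorem Samu_cases (hs : IsSym F b h (Equiv.swap r1 r2)) (hh : ∀ q, h (h q) = q)
    {P : Ix m → Prop} (h0 : ∀ i, P ⟨r1, i⟩) (h1 : ∀ i, P (h ⟨r1, i⟩))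
    (h2 : ∀ q : Ix m, q.1 ≠ r1 → q.1 ≠ r2 → P q) (q : Ix m) : P q := by
  by_cases e1 : q.1 = r1
  · obtain ⟨r, i⟩ := q
    obtain rfl : r = r1 := e1
    exact h0 i
  by_cases e2 : q.1 = r2
  · have e3 : (h q).1 = r1 := by rw [hs.fst, e2, Equiv.swap_apply_right]
    have e4 := hh q
    generalize h q = q' at e3 e4
    obtain ⟨r, i⟩ := q'
    obtain rfl : r = r1 := e3
    rw [← e4]
    exact h1 i
  · exact h2 q e1 e2

private theorem Samu_onX [Fintype κ] (hr : r1 ≠ r2) (hs : IsSym F b h (Equiv.swap r1 r2))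
    (hh : ∀ q, h (h q) = q) {K : Type} [Field K] [Algebra k K] {s : Bp k L K}
    {v : Fin 2 → Fin (m r1) → Option K} {u : Ix m → Option K}
    (hv : ∀ j, OnY (F r1) s (v j)) (hu : ∀ r, r ≠ r1 → r ≠ r2 → OnY (F r) s (cmp u r)) :
    OnX F s (Samu h r1 v u) := by
  intro r
  by_cases e1 : r = r1
  · subst e1
    have e : cmp (Samu h r v u) r = v 0 := funext fun i => Samu_zero v u i
    rw [e]
    exact hv 0
  by_cases e2 : r = r2
  · subst e2
    have e3 : cmp (fun q => Samu h r1 v u (h q)) r1 = v 1 :=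
      funext fun i => Samu_one hr hs hh v u i
    have e4 : OnY (F (Equiv.swap r1 r r)) s
        (cmp (fun q => Samu h r1 v u (h q)) (Equiv.swap r1 r r)) := by
      rw [Equiv.swap_apply_right, e3]
      exact hv 1
    have e5 := Sam_onY hs e4
    simp only [hh] at e5
    exact e5
  · have e : cmp (Samu h r1 v u) r = cmp u r := funext fun i =>
      Samu_ne hs v u (q := ⟨r, i⟩) e1 e2
    rw [e]
    exact hu r e1 e2

variable [Fintype κ] {W : Type} [AddCommGroup W]
  {E : (Fin 1 → Place k L) → (Fin 1 → Ix m → Option k) → W}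

private theorem Samu_isCFs [IsAlgClosed k] [CharZero k] [hL : Fact (IsCurve k L)]
    (hE : IsCF F E) (hr : r1 ≠ r2) (hs : IsSym F b h (Equiv.swap r1 r2))
    (hh : ∀ q, h (h q) = q) (s : Fin 1 → Place k L) {u : Ix m → Option k}
    (hu : ∀ r, r ≠ r1 → r ≠ r2 → OnY (F r) (Sum.inr (s 0) : Bp k L k) (cmp u r)) :
    IsCFs (F r1) (fun _ : Fin 2 => s 0)
      fun v : Fin 2 → Fin (m r1) → Option k => E s fun _ => Samu h r1 v u := by
  intro K _ _ hK v f hf hv
  have h1 := hE K hK (fun _ => Sum.inr (s 0))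
    (fun _ => Samu h r1 v fun q => (u q).map (algebraMap k K)) f hf fun _ =>
      Samu_onX hr hs hh hv fun r e1 e2 => (onY_const (K := K) (s 0) (cmp u r)).2 (hu r e1 e2)
  have e1 : ∀ w : Place k K, (fun j : Fin 1 => vb w (Sum.inr (s 0) : Bp k L K)) = s := by
    intro w
    funext j
    rw [Subsingleton.elim j 0]
    exact vb_inr w (s 0)
  have e2 : ∀ w : Place k K, (fun (_ : Fin 1) (q : Ix m) =>
      vlo w (Samu h r1 v (fun q => (u q).map (algebraMap k K)) q)) =
      fun _ => Samu h r1 (fun j i => vlo w (v j i)) u := by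
    intro w
    funext _ q
    refine Samu_cases hs hh (P := fun q =>
      vlo w (Samu h r1 v (fun q => (u q).map (algebraMap k K)) q) =
      Samu h r1 (fun j i => vlo w (v j i)) u q) (fun i => ?_) (fun i => ?_) (fun q h1 h2 => ?_) q
    · rw [Samu_zero, Samu_zero]
    · rw [Samu_one hr hs hh, Samu_one hr hs hh]
    · rw [Samu_ne hs _ _ h1 h2, Samu_ne hs _ _ h1 h2]
      exact vlo_const w _
  simp only [e1, e2] at h1
  exact h1

private theorem Samr_self {N : ℕ} {Q : Type} (j : Fin N) (q : Q) (ζ : k)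
    (u : Fin N → Q → Option k) : rot j q ζ u j q = (u j q).map fun w => ζ * w := by
  unfold rot
  rw [Function.update_self, Function.update_self]

private theorem Samr_ne {N : ℕ} {Q : Type} {j j' : Fin N} {q q' : Q} (ζ : k)
    (u : Fin N → Q → Option k) (h : j' ≠ j ∨ q' ≠ q) : rot j q ζ u j' q' = u j' q' := by
  unfold rot
  by_cases hj : j' = j
  · subst hj
    rw [Function.update_self, Function.update_of_ne (h.resolve_left fun h => h rfl)]
  · rw [Function.update_of_ne hj]

private theorem Samu_isEigs [Module k W] (hEig : IsEig (MX F) b E) (hr : r1 ≠ r2)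
    (hs : IsSym F b h (Equiv.swap r1 r2)) (hh : ∀ q, h (h q) = q) (s : Fin 1 → Place k L)
    (u : Ix m → Option k) : IsEigs (F r1).M (fun i => b ⟨r1, i⟩)
      fun v : Fin 2 → Fin (m r1) → Option k => E s fun _ => Samu h r1 v u := by
  intro v j i ζ hζ
  have key : ∀ q0 : Ix m, MX F q0 = (F r1).M i → b q0 = b ⟨r1, i⟩ →
      (Samu h r1 (rot j i ζ v) u q0 = (Samu h r1 v u q0).map fun w => ζ * w) →
      (∀ q, q ≠ q0 → Samu h r1 (rot j i ζ v) u q = Samu h r1 v u q) →
      E s (fun _ => Samu h r1 (rot j i ζ v) u) = ζ ^ b ⟨r1, i⟩ • E s fun _ => Samu h r1 v u := by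
    intro q0 hM hb' he he'
    have h1 := hEig s (fun _ => Samu h r1 v u) 0 q0 ζ (by rw [hM, hζ])
    rw [hb'] at h1
    rw [← h1]
    congr 1
    funext i' q
    rw [Subsingleton.elim i' 0]
    by_cases hq : q = q0
    · subst hq
      rw [Samr_self, he]
    · rw [Samr_ne _ _ (Or.inr hq), he' q hq]
  have hj : j = 0 ∨ j = 1 := by omega
  rcases hj with rfl | rfl
  · refine key ⟨r1, i⟩ rfl rfl ?_ fun q hq => ?_
    · rw [Samu_zero, Samu_zero, Samr_self]
    · revert hq
      refine Samu_cases hs hh (P := fun q => q ≠ ⟨r1, i⟩ → Samu h r1 (rot 0 i ζ v) u q =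
        Samu h r1 v u q) (fun i' hi => ?_) (fun i' hi => ?_) (fun q h1 h2 hi => ?_) q
      · rw [Samu_zero, Samu_zero, Samr_ne _ _ (Or.inr fun h3 => hi (by rw [h3]))]
      · rw [Samu_one hr hs hh, Samu_one hr hs hh, Samr_ne _ _ (Or.inl (by decide))]
      · rw [Samu_ne hs _ _ h1 h2, Samu_ne hs _ _ h1 h2]
  · refine key (h ⟨r1, i⟩) (hs.M _) (hs.b _) ?_ fun q hq => ?_
    · rw [Samu_one hr hs hh, Samu_one hr hs hh, Samr_self]
    · revert hq
      refine Samu_cases hs hh (P := fun q => q ≠ h ⟨r1, i⟩ → Samu h r1 (rot 1 i ζ v) u q =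
        Samu h r1 v u q) (fun i' hi => ?_) (fun i' hi => ?_) (fun q h1 h2 hi => ?_) q
      · rw [Samu_zero, Samu_zero, Samr_ne _ _ (Or.inl (by decide))]
      · rw [Samu_one hr hs hh, Samu_one hr hs hh,
          Samr_ne _ _ (Or.inr fun h3 => hi (by rw [h3]))]
      · rw [Samu_ne hs _ _ h1 h2, Samu_ne hs _ _ h1 h2]

/-- the exchange for interior points with generic rows -/
private theorem Samu_int [IsAlgClosed k] [CharZero k] [hL : Fact (IsCurve k L)] [Module k W]
    (hF : ∀ r, (F r).Adm) (hb : ∀ q, 0 < b q ∧ b q < MX F q)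
    (hE : IsCF F E) (hEig : IsEig (MX F) b E) (hr : r1 ≠ r2)
    (hs : IsSym F b h (Equiv.swap r1 r2)) (hh : ∀ q, h (h q) = q)
    (h1 : ∀ q : Ix m, q.1 ≠ r1 → q.1 ≠ r2 → h q = q) (s : Fin 1 → Place k L) {w : Ix m → k}
    (hw : ∀ r, Int (F r) (Sum.inr (s 0) : Bp k L k) (cmp w r))
    (hG : SamG (m r1) (row (F r1) (hF r1).one (Sum.inr (s 0) : Bp k L k) (cmp w r1))
      (row (F r1) (hF r1).one (Sum.inr (s 0) : Bp k L k) (cmp (fun q => w (h q)) r1))) :
    E s (fun _ q => some (w (h q))) = ((-1 : ℤ) ^ (m r1 + 1)) • E s fun _ q => some (w q) := by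
  have hw' : Int (F r1) (Sum.inr (s 0) : Bp k L k) (cmp (fun q => w (h q)) r1) := by
    refine Sam_Int hs ?_
    rw [Equiv.swap_apply_left]
    exact hw r2
  set w2 : Fin 2 → Fin (m r1) → k := fun l => if l = 0 then cmp w r1 else
    cmp (fun q => w (h q)) r1 with hw2
  have e0 : w2 0 = cmp w r1 := if_pos rfl
  have e1 : w2 1 = cmp (fun q => w (h q)) r1 := if_neg (by decide)
  have hI : ∀ l, Int (F r1) (cb (fun _ : Fin 2 => s 0) l) (w2 l) := by
    intro l
    rw [hw2]
    beta_reduce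
    split_ifs
    · exact hw r1
    · exact hw'
  have key := Sam_two (F := F r1) (N := 2) (b := fun i => b ⟨r1, i⟩) (s := fun _ => s 0)
    (E := fun v : Fin 2 → Fin (m r1) → Option k => E s fun _ => Samu h r1 v fun q => some (w q))
    (hF r1) (fun i => hb ⟨r1, i⟩)
    (Samu_isCFs hE hr hs hh s fun r _ _ => (hw r).onY_some)
    (Samu_isEigs hEig hr hs hh s _) (hF r1).one (j := 0) (j' := 1) (by decide) rfl hI
    (by rw [e0, e1]; exact hG)
  have e2 : Samu h r1 (som w2) (fun q => some (w q)) = fun q => some (w q) := by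
    funext q
    refine Samu_cases hs hh (P := fun q => Samu h r1 (som w2) (fun q => some (w q)) q =
      some (w q)) (fun i => ?_) (fun i => ?_) (fun q h1 h2 => ?_) q
    · rw [Samu_zero]
      show some (w2 0 i) = _
      rw [e0]
    · rw [Samu_one hr hs hh]
      show some (w2 1 i) = _
      rw [e1]
    · rw [Samu_ne hs _ _ h1 h2]
  have e3 : Samu h r1 (som fun l => w2 (Equiv.swap 0 1 l)) (fun q => some (w q)) =
      fun q => some (w (h q)) := by
    funext q
    refine Samu_cases hs hh (P := fun q => Samu h r1 (som fun l => w2 (Equiv.swap 0 1 l))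
      (fun q => some (w q)) q = some (w (h q))) (fun i => ?_) (fun i => ?_)
      (fun q h2 h3 => ?_) q
    · rw [Samu_zero]
      show some (w2 (Equiv.swap 0 1 0) i) = _
      rw [Equiv.swap_apply_left, e1]
    · rw [Samu_one hr hs hh]
      show some (w2 (Equiv.swap 0 1 1) i) = _
      rw [Equiv.swap_apply_right, e0, hh]
    · rw [Samu_ne hs _ _ h2 h3, h1 q h2 h3]
  beta_reduce at key
  rw [e2, e3] at key
  exact key

end Samu


/-! ### Values at places -/

private theorem Samg_at {K : Type} [Field K] [Algebra k K] {n : ℕ} {v : Place k K} {x y : ℕ → K}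
    {x' y' : ℕ → k} (hx : ∀ i, v.At (x i) (x' i)) (hy : ∀ i, v.At (y i) (y' i))
    (h0 : ∀ i, x' i ≠ 0) (q : Option (Fin 3 × Fin n × Fin (n + 1))) :
    v.At (Samg n x y q) (Samg n x' y' q) := by
  have hbe : ∀ l i, v.At (be x y l i) (be x' y' l i) := by
    intro l i
    induction i with
    | zero => exact at_zero v
    | succ i ih => exact ((hy _).div (hx _) (h0 _)).mul ((ih.add (at_one v)).sub (hx _))
  rcases q with _ | q
  · unfold Samg
    rw [Option.elim_none, Option.elim_none]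
    split_ifs
    · exact ((hbe _ _).add (at_one v)).sub (hx 0)
    · exact at_one v
  · unfold Samg
    rw [Option.elim_some, Option.elim_some]
    split_ifs
    · exact gn_at hx hy h0 q
    · exact at_one v

private theorem Sam_row_at [IsAlgClosed k] [CharZero k] [hL : Fact (IsCurve k L)] {K : Type}
    [Field K] [Algebra k K] {n : ℕ} {F : Fam k L n} (hF : F.Adm)
    (hn : 0 < n) {v : Place k K} {S : Bp k L K} {c : Place k L} (h : Ovr v S c) (hc : Bas F c)
    {V : Fin n → K} {ρ : ℕ → k} (hρ : Per n ρ)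
    (hV : ∀ i : Fin n, v.At (V i ^ F.M i) (ev (F.B i) (Sum.inr c : Bp k L k) /
      ev (F.C i) (Sum.inr c : Bp k L k) * (1 - ρ i))) (i : ℕ) :
    v.At (row F hn S V i) (ρ i) := by
  have h1 := xx_at hF h hc (V := V) (i := ⟨i % n, Nat.mod_lt i hn⟩) (hV _)
  have h2 : 1 - ev (F.C ⟨i % n, Nat.mod_lt i hn⟩) (Sum.inr c : Bp k L k) *
      (ev (F.B ⟨i % n, Nat.mod_lt i hn⟩) (Sum.inr c : Bp k L k) / ev
      (F.C ⟨i % n, Nat.mod_lt i hn⟩) (Sum.inr c : Bp k L k) * (1 - ρ (i % n))) /
      ev (F.B ⟨i % n, Nat.mod_lt i hn⟩) (Sum.inr c : Bp k L k) = ρ i := by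
    have h3 := (hc.un hF).B ⟨i % n, Nat.mod_lt i hn⟩
    have h4 := (hc.un hF).C ⟨i % n, Nat.mod_lt i hn⟩
    have h5 : ρ (i % n) = ρ i := congrFun (per_eq hρ hn) i
    rw [h5]
    field_simp
    ring
  rw [h2] at h1
  exact h1

private theorem Sam_family {ι : Type} [Finite ι] (f : ι → Om k) (hf : ∀ i, f i ≠ 0) :
    ∃ Γ : Finset (Om k), (0 : Om k) ∉ Γ ∧ ∀ i, f i ∈ Γ := by
  have : Fintype ι := Fintype.ofFinite ι
  refine ⟨univ.image f, fun h => ?_, fun i => mem_image_of_mem f (mem_univ i)⟩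
  obtain ⟨i, -, hi⟩ := mem_image.1 h
  exact hf i hi

/-- the places with bad values of a point of the curve -/
private theorem Sam_places [IsAlgClosed k] [CharZero k] [hL : Fact (IsCurve k L)] {n : ℕ}
    {F : Fam k L n} (hF : F.Adm) {S : Bp k L (Om k)} (hS : Base F S) :
    ∃ Γ : Finset (Om k), (0 : Om k) ∉ Γ ∧
      ∀ w : Place k (Om k), (∀ g ∈ Γ, g ∈ w.ring ∧ g⁻¹ ∈ w.ring) → Bas F (vb w S) := by
  rcases hj : S with σ | c
  · obtain ⟨U, hU⟩ := exists_bad hF ∅
    obtain ⟨Γ, h1, h2⟩ := Sam_family (fun q : U => σ (EFC.unif q.1)) fun q =>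
      (_root_.map_ne_zero _).2 (EFC.unif_ne hL.out q.1)
    refine ⟨Γ, h1, fun w hw => (hU _ fun h3 => ?_).1⟩
    have h4 : Ovr w (Sum.inl σ : Bp k L (Om k)) (vb w (Sum.inl σ)) := ovr_vb w _
    set q := vb w (Sum.inl σ : Bp k L (Om k)) with hq
    have h5 := hw _ (h2 ⟨q, h3⟩)
    have h6 : ∀ g : L, σ g ∈ w.ring → g ∈ q.ring := fun g hg => by
      have h7 : w.ring.comap (σ : L →+* Om k) = q.ring := h4
      rw [← h7]
      exact ValuationSubring.mem_comap.2 hg
    have h8 : EFC.unif q ∈ q.ring ∧ (EFC.unif q)⁻¹ ∈ q.ring :=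
      ⟨h6 _ h5.1, h6 _ (by rw [map_inv₀]; exact h5.2)⟩
    have h9 := (ord_eq_zero_iff hL.out (EFC.unif_ne hL.out q)).2 h8
    rw [EFC.ord_unif' hL.out] at h9
    exact one_ne_zero h9
  · refine ⟨∅, by simp, fun w _ => ?_⟩
    exact hS c hj


/-- **The exchange of two equal components.** -/
theorem swap_cmp [Fintype κ] [IsAlgClosed k] [CharZero k] [hL : Fact (IsCurve k L)] {W : Type}
    [AddCommGroup W] [Module k W] {F : ∀ r, Fam k L (m r)} (hF : ∀ r, (F r).Adm)
    {b : Ix m → ℕ} (hb : ∀ q, 0 < b q ∧ b q < MX F q)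
    {E : (Fin 1 → Place k L) → (Fin 1 → Ix m → Option k) → W} (hE : IsCF F E)
    (hEig : IsEig (MX F) b E) {r1 r2 : κ} (hr : r1 ≠ r2) {h : Equiv.Perm (Ix m)}
    (hs : IsSym F b h (Equiv.swap r1 r2)) (hh : ∀ q, h (h q) = q)
    (h1 : ∀ q : Ix m, q.1 ≠ r1 → q.1 ≠ r2 → h q = q)
    {s : Fin 1 → Place k L} {u : Fin 1 → Ix m → Option k}
    (hu : ∀ j, OnX F (Sum.inr (s j) : Bp k L k) (u j)) :
    E s (fun j q => u j (h q)) = ((-1 : ℤ) ^ (m r1 + 1)) • E s u := by
  set c : ℤ := (-1 : ℤ) ^ (m r1 + 1) with hc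
  have hon : ∀ {s : Fin 1 → Place k L} {u : Fin 1 → Ix m → Option k},
      (∀ j, OnX F (Sum.inr (s j) : Bp k L k) (u j)) →
      ∀ j, OnX F (Sum.inr (s j) : Bp k L k) (fun q => u j (h q)) := fun hu j => hs.onX (hu j)
  -- the degenerate points
  by_cases hnone : ∃ q, u 0 q = none
  · obtain ⟨q, hq⟩ := hnone
    rw [zero_of hEig hb (s := s) (u := u) (j := 0) (i := q) (Or.inl hq), smul_zero]
    refine zero_of hEig hb (s := s) (j := 0) (i := h q) (Or.inl ?_)
    rw [hh, hq]
  by_cases hC : ∃ r, ∃ i : Fin (m r), sv ((F r).E i) ((F r).C i) (Sum.inr (s 0) : Bp k L k) = 0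
  · obtain ⟨r, i, hC⟩ := hC
    rw [zero_of_C hb hE hEig hu (j := 0) hC, smul_zero]
    exact zero_of_C hb hE hEig (hon hu) (j := 0) hC
  by_cases hA : ∃ r, 2 ≤ m r ∧ sv (F r).S (F r).A (Sum.inr (s 0) : Bp k L k) = 0
  · obtain ⟨r, hr2, hA⟩ := hA
    rw [zero_of_A hb hE hEig hu (j := 0) hr2 hA, smul_zero]
    exact zero_of_A hb hE hEig (hon hu) (j := 0) hr2 hA
  push Not at hnone hC hA
  have hsome : ∀ q, ∃ a, u 0 q = some a := fun q => Option.ne_none_iff_exists'.1 (hnone q)
  choose u' hu' using hsome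
  have hu0 : OnX F (Sum.inr (s 0) : Bp k L k) fun q => some (u' q) := by
    have e : (fun q => some (u' q)) = u 0 := funext fun q => (hu' q).symm
    rw [e]
    exact hu 0
  -- the curve
  obtain ⟨v0, hv0⟩ := HYG.exists_place_tt (0 : k)
  obtain ⟨v1, hv1⟩ := HYG.exists_place_tt (1 : k)
  obtain ⟨s1, S, hbas, hlam, hbase, hov0, hov1, hρ⟩ := exists_line hF hv0 hv1 (s0 := s 0)
    (u := u') hu0 hC hA (fun _ => {1})
  have hm := fun r => (hF r).one
  have hlam0 : ∀ r, lam (F r) (Sum.inr s1 : Bp k L k) ≠ 0 := fun r =>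
    div_ne_zero ((hbas r).un (hF r)).A (prod_ne_zero_iff.2 fun i _ => ((hbas r).un (hF r)).B i)
  have hlam1 : ∀ r, lam (F r) (Sum.inr s1 : Bp k L k) ≠ 1 := fun r h0 =>
    hlam r (by rw [h0]; exact mem_singleton_self 1)
  obtain ⟨x, y, hgx, hgy, hmx, hmy, hgen⟩ := Sam_spec (hm r1) (hlam0 r1) (hlam1 r1)
  obtain ⟨e, he⟩ : ∃ e : Fin (m r1) ≃ Fin (m r2), ∀ i, h ⟨r1, i⟩ = ⟨r2, e i⟩ := by
    have h2 := Sam_idx hs r1
    rw [Equiv.swap_apply_left] at h2
    exact h2
  have hη : ∀ r, ∃ η : k, η ^ m r = lam (F r) (Sum.inr s1 : Bp k L k) := fun r =>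
    IsAlgClosed.exists_pow_nat_eq _ (hm r)
  choose η hη using hη
  have hη0 : ∀ r, η r ≠ 0 := fun r h0 => by
    have h2 := hη r
    rw [h0, zero_pow (hm r).ne'] at h2
    exact hlam0 r h2.symm
  have hη1 : ∀ r, η r ≠ 1 := fun r h0 => by
    have h2 := hη r
    rw [h0, one_pow] at h2
    exact hlam1 r h2.symm
  have hl12 : lam (F r2) (Sum.inr s1 : Bp k L k) = lam (F r1) (Sum.inr s1 : Bp k L k) := by
    have h2 := Sam_lam hs (Sum.inr s1 : Bp k L k) r1
    rwa [Equiv.swap_apply_left] at h2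
  set ρ : κ → ℕ → k := fun r => if r = r1 then x else if r = r2 then
    per (fun i => y (e.symm i)) (hm r2) else fun _ => η r with hρ0
  have hρr1 : ρ r1 = x := if_pos rfl
  have hρr2 : ρ r2 = per (fun i => y (e.symm i)) (hm r2) := by
    rw [hρ0]
    beta_reduce
    rw [if_neg hr.symm, if_pos rfl]
  have hρr : ∀ r, r ≠ r1 → r ≠ r2 → ρ r = fun _ => η r := fun r e1 e2 => by
    rw [hρ0]
    beta_reduce
    rw [if_neg e1, if_neg e2]
  have hρ1 : ∀ r, Good (m r) (ρ r) := by
    intro r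
    by_cases e1 : r = r1
    · subst e1
      rw [hρr1]
      exact hgx
    by_cases e2 : r = r2
    · subst e2
      rw [hρr2]
      exact ⟨per_per _ _, fun i => hgy.ne0 _, fun i => hgy.ne1 _⟩
    · rw [hρr r e1 e2]
      exact ⟨fun _ => rfl, fun _ => hη0 r, fun _ => hη1 r⟩
  have hρ2 : ∀ r, mu (m r) (ρ r) = lam (F r) (Sum.inr s1 : Bp k L k) := by
    intro r
    by_cases e1 : r = r1
    · subst e1
      rw [hρr1]
      exact hmx
    by_cases e2 : r = r2
    · subst e2
      rw [hρr2, mu_per, hl12, ← hmy]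
      unfold mu
      rw [← Fin.prod_univ_eq_prod_range y (m r1)]
      exact Equiv.prod_comp e.symm fun i : Fin (m r1) => y i
    · rw [hρr r e1 e2, ← hη r]
      unfold mu
      rw [prod_const, card_range]
  obtain ⟨V, hVI, hV0, hV1⟩ := hρ ρ hρ1 hρ2
  have hI2 : Int (F r1) S (cmp (fun q => V (h q)) r1) := by
    refine Sam_Int hs ?_
    rw [Equiv.swap_apply_left]
    exact hVI r2
  set Z1 := row (F r1) (hm r1) S (cmp V r1) with hZ1
  set Z2 := row (F r1) (hm r1) S (cmp (fun q => V (h q)) r1) with hZ2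
  have hZ1v : ∀ i, v1.At (Z1 i) (x i) := by
    refine Sam_row_at (hF r1) (hm r1) hov1 (hbas r1) hgx.per fun i => ?_
    have h2 := hV1 r1 i
    rw [hρr1] at h2
    exact h2
  have hZ2v : ∀ i, v1.At (Z2 i) (y i) := by
    refine Sam_row_at (hF r1) (hm r1) hov1 (hbas r1) hgy.per fun i => ?_
    have h2 := hV1 r2 (e i)
    have h3 : per (fun i => y (e.symm i)) (hm r2) (e i) = y i := by
      rw [per_fin, Equiv.symm_apply_apply]
    have hB := hs.B ⟨r1, i⟩
    have hC := hs.C ⟨r1, i⟩
    have hM : (F (h ⟨r1, i⟩).1).M (h ⟨r1, i⟩).2 = (F r1).M i := hs.M ⟨r1, i⟩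
    rw [he i] at hB hC hM
    rw [hρr2, h3, hB, hC, hM, ← he i] at h2
    exact h2
  -- the finite sets
  obtain ⟨G1, hG10, hG1⟩ := Sam_family (fun q : Option (Fin 3 × Fin (m r1) × Fin (m r1 + 1)) =>
    Samg (m r1) Z1 Z2 q) fun q => by
      intro h2
      have h3 := Samg_at hZ1v hZ2v hgx.ne0 q
      rw [h2] at h3
      exact hgen q (h3.unique (at_zero v1))
  obtain ⟨G2, hG20, hG2⟩ := Sam_family V fun q => (hVI q.1).w q.2
  choose Γ3 hΓ30 hΓ3 using fun r => Sam_places (hF r) (hbase r)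
  set Γ : Finset (Om k) := G1 ∪ (G2 ∪ univ.biUnion Γ3) with hΓ
  have hΓ0 : (0 : Om k) ∉ Γ := by
    simp only [hΓ, mem_union, mem_biUnion, mem_univ, true_and, not_or, not_exists]
    exact ⟨hG10, hG20, hΓ30⟩
  -- the class function
  have hE' : IsCF F (fun s (u : Fin 1 → Ix m → Option k) =>
      E s (fun j q => u j (h q)) - c • E s u) := by
    intro K _ _ hK s u f hf hu
    have h2 := hE K hK s (fun j q => u j (h q)) f hf fun j => hs.onX (hu j)
    have h3 := hE K hK s u f hf hu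
    simp only [Finsupp.sum, smul_sub, Finset.sum_sub_distrib, smul_comm _ c,
      ← Finset.smul_sum] at h2 h3 ⊢
    rw [h2, h3, smul_zero, sub_zero]
  have key : ∀ w : Place k (Om k), (∀ g ∈ Γ, g ∈ w.ring ∧ g⁻¹ ∈ w.ring) →
      (fun s (u : Fin 1 → Ix m → Option k) => E s (fun j q => u j (h q)) - c • E s u)
        (fun _ => vb w S) (fun _ q => vlo w (some (V q))) = 0 := by
    intro w hw
    simp only [hΓ, mem_union, mem_biUnion, mem_univ, true_and] at hw
    have hsw : Ovr w S (vb w S) := ovr_vb w S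
    have hbw : ∀ r, Bas (F r) (vb w S) := fun r => hΓ3 r w fun g hg =>
      hw g (Or.inr (Or.inr ⟨r, hg⟩))
    have hVw : ∀ q, ∃ a, a ≠ 0 ∧ w.At (V q) a := fun q => by
      have h2 := hw _ (Or.inr (Or.inl (hG2 q)))
      exact unit_at ((hVI q.1).w q.2) h2.1 h2.2
    choose ww hww0 hww using hVw
    have hIw : ∀ r, Int (F r) (Sum.inr (vb w S) : Bp k L k) (cmp ww r) := fun r => by
      refine ⟨?_, base_inr.2 (hbw r), fun i => hww0 ⟨r, i⟩⟩
      have h2 : w.At (∏ i, (ev ((F r).B i) S - ev ((F r).C i) S * V ⟨r, i⟩ ^ (F r).M i))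
          (∏ i, (ev ((F r).B i) (Sum.inr (vb w S) : Bp k L k) -
            ev ((F r).C i) (Sum.inr (vb w S) : Bp k L k) * ww ⟨r, i⟩ ^ (F r).M i)) :=
        Place.At.prod fun i _ => (evB_at (hF r) hsw (hbw r) i).sub
          ((evC_at (hF r) hsw (hbw r) i).mul ((hww ⟨r, i⟩).pow _))
      rw [(hVI r).onY] at h2
      exact h2.unique (evA_at (hF r) hsw (hbw r))
    have hr1w : ∀ i, w.At (Z1 i)
        (row (F r1) (hm r1) (Sum.inr (vb w S) : Bp k L k) (cmp ww r1) i) := fun i =>
      xx_at (hF r1) hsw (hbw r1) ((hww _).pow _)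
    have hr2w : ∀ i, w.At (Z2 i) (row (F r1) (hm r1) (Sum.inr (vb w S) : Bp k L k)
        (cmp (fun q => ww (h q)) r1) i) := fun i =>
      xx_at (hF r1) hsw (hbw r1) ((hww _).pow _)
    have hGw : SamG (m r1) (row (F r1) (hm r1) (Sum.inr (vb w S) : Bp k L k) (cmp ww r1))
        (row (F r1) (hm r1) (Sum.inr (vb w S) : Bp k L k) (cmp (fun q => ww (h q)) r1)) := by
      intro q
      have h2 := hw _ (Or.inl (hG1 q))
      have h5 : Samg (m r1) Z1 Z2 q ≠ 0 := fun h3 => hG10 (by
        have h4 := hG1 q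
        beta_reduce at h4
        rwa [h3] at h4)
      obtain ⟨a, ha0, ha⟩ := unit_at h5 h2.1 h2.2
      have h3 := Samg_at hr1w hr2w ((hIw r1).good (hF r1) (hm r1)).ne0 q
      rw [← ha.unique h3]
      exact ha0
    have h2 := Samu_int hF hb hE hEig hr hs hh h1 (fun _ => vb w S) (w := ww) hIw hGw
    have h3 : ∀ q, vlo w (some (V q)) = some (ww q) := fun q => vlo_at (hww q)
    beta_reduce
    simp only [h3]
    rw [h2, sub_self]
  have hmov := moving hE' (s := fun _ => S) (u := fun _ q => some (V q))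
    (fun _ r => (hVI r).onY_some) Γ hΓ0 key v0
  have h2 : (fun _ : Fin 1 => vb v0 S) = s := by
    funext j
    rw [Subsingleton.elim j 0]
    exact vb_eq hov0
  have h3 : ∀ q, vlo v0 (some (V q)) = u 0 q := fun q => by
    rw [hu' q]
    exact vlo_at (hV0 q)
  have h4 : (fun (_ : Fin 1) (i : Ix m) => u 0 i) = u := by
    funext j i
    rw [Subsingleton.elim j 0]
  beta_reduce at hmov
  simp only [h2, h3] at hmov
  have h5 : E s (fun j q => u j (h q)) = E s (fun _ q => u 0 (h q)) := by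
    congr 1
    funext j q
    rw [Subsingleton.elim j 0]
  rw [h5, sub_eq_zero.1 hmov, h4]

end Pool.Agent.HGP
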