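import Pool.Agent.HGP.Bdry
import Pool.Agent.HGP.StB
import Pool.Agent.HGP.Rst
import Pool.Agent.HGF.PathA

/-!
# Package HGP-StC: `AE E` vanishes at the good states

Port of `Pool/Agent/HGFC/StC.lean`, `ae_good`. `CurveOut`: a curve through a good state of the fibre
product. Above the zeros of `τ` the values are the states of the factorisations `O r σ`, for which
`AE E` has the same value (`orders`; the core relation is `coreRel` of `HGP/Rst.lean`). Above the poles
of `τ` the values are degenerate, and `AE E` is zero (`zero_of_o`, `zero_of`). So `AE E` vanishes at the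
state (`bridge0`). The values `r j q` at the zeros are chosen for all `q : Ix m`; everything else is
done component by component (`exists_ws`, `pow_of_row`, `row_of_pow`, `int_of_row`).
-/

set_option autoImplicit false
set_option linter.unusedSectionVars false

noncomputable section

namespace Pool.Agent.HGP

open Finset Pool.Agent.ZCyc Pool.Agent.Dess Pool.Agent.GT Pool.Agent.TInc Pool.Agent.HGF
open Pool.Agent.VFP (Om tt)
open scoped Classical

variable {k : Type} [Field k] [IsAlgClosed k] [CharZero k] {L : Type} [Field L] [Algebra k L]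
  [hL : Fact (IsCurve k L)]

/-! ### Values of functions -/

section At

variable {m : ℕ} {F : Fam k L m} {K : Type} [Field K] [Algebra k K] {v : Place k K}

lemma evB_at (hF : F.Adm) {s : Bp k L K} {c : Place k L} (h : Ovr v s c) (hc : Bas F c)
    (i : Fin m) : v.At (ev (F.B i) s) (ev (F.B i) (Sum.inr c : Bp k L k)) :=
  ev_at hL.out h (mem_of_ord hL.out (hF.B0 i) (hc.B i))

lemma evC_at (hF : F.Adm) {s : Bp k L K} {c : Place k L} (h : Ovr v s c) (hc : Bas F c)
    (i : Fin m) : v.At (ev (F.C i) s) (ev (F.C i) (Sum.inr c : Bp k L k)) :=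
  ev_at hL.out h (mem_of_ord hL.out (hF.C0 i) (hc.C i))

lemma evA_at (hF : F.Adm) {s : Bp k L K} {c : Place k L} (h : Ovr v s c) (hc : Bas F c) :
    v.At (ev F.A s) (ev F.A (Sum.inr c : Bp k L k)) :=
  ev_at hL.out h (mem_of_ord hL.out hF.A0 hc.A)

lemma Bas.un (hF : F.Adm) {c : Place k L} (hc : Bas F c) : Un F (Sum.inr c : Bp k L k) :=
  (base_inr.2 hc).un hL.out hF

lemma lam_at (hF : F.Adm) {s : Bp k L K} {c : Place k L} (h : Ovr v s c) (hc : Bas F c) :
    v.At (lam F s) (lam F (Sum.inr c : Bp k L k)) :=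
  (evA_at hF h hc).div (Place.At.prod fun i _ => evB_at hF h hc i)
    (prod_ne_zero_iff.2 fun i _ => (hc.un hF).B i)

lemma xx_at (hF : F.Adm) {s : Bp k L K} {c : Place k L} (h : Ovr v s c) (hc : Bas F c)
    {V : Fin m → K} {i : Fin m} {a : k} (hV : v.At (V i ^ F.M i) a) :
    v.At (xx F s V i) (1 - ev (F.C i) (Sum.inr c : Bp k L k) * a /
      ev (F.B i) (Sum.inr c : Bp k L k)) :=
  (at_one v).sub (((evC_at hF h hc i).mul hV).div (evB_at hF h hc i) ((hc.un hF).B i))

end At

/-! ### Fibre products -/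

variable {κ : Type} [Fintype κ] {m : κ → ℕ} {N : ℕ} {F : ∀ r, Fam k L (m r)}
  {W : Type} [AddCommGroup W] [Module k W]
  {E : (Fin N → Place k L) → (Fin N → Ix m → Option k) → W}

/-- the curve through a state -/
def CurveOut (F : ∀ r, Fam k L (m r)) (q0 : Ix m) (o : Place k L) (s : Fin N → Place k L)
    (O : ∀ _ : κ, Equiv.Perm (Fin N) → Fin N → ℕ → k) (p : Ix m → k) : Prop :=
  ∃ (τ η : Om k) (S : Fin N → Bp k L (Om k)) (Z : ∀ _ : κ, Fin N → ℕ → Om k),
    Transcendental k τ ∧ η ≠ 0 ∧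
    (∀ r j, Base (F r) (S j)) ∧ (∀ r j, Good (m r) (Z r j)) ∧
    (∀ r j, mu (m r) (Z r j) = lam (F r) (S j)) ∧
    (∀ r, PCond (F r) S (Z r)
      (fun i => algebraMap k (Om k) (p ⟨r, i⟩) * if (⟨r, i⟩ : Ix m) = q0 then η else 1)) ∧
    (∀ v : Place k (Om k), v.At τ 0 → v.At η 1 ∧ ∃ σ : Equiv.Perm (Fin N),
      (∀ j, Ovr v (S j) (s (σ j))) ∧ ∀ r j i, v.At (Z r j i) (O r σ j i)) ∧
    ∀ v : Place k (Om k), v.At τ⁻¹ 0 → (∃ j, Ovr v (S j) o) ∨ v.At η 0 ∨ v.At η⁻¹ 0 ∨
      ∃ (j : Fin N) (q : Ix m) (c : Place k L), Ovr v (S j) c ∧ Bas (F q.1) c ∧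
        v.At (Z q.1 j q.2) 1

omit hL in
private lemma none_of_inv {v : Place k (Om k)} {f : Om k} (h0 : f ≠ 0) (h : v.At f⁻¹ 0) :
    vlo v (some f) = none := by
  rw [vlo_some, HYG.vl_none_om]
  rw [Place.at_zero_iff, Place.vanishes_iff_or, inv_inv] at h
  exact h.resolve_left (inv_ne_zero h0)

omit [IsAlgClosed k] [CharZero k] hL in
private lemma some_zero {v : Place k (Om k)} {f : Om k} (h : v.Vanishes f) :
    vlo v (some f) = some 0 := vlo_at (Place.at_zero_iff.2 h)

theorem ae_good (hF : ∀ r, (F r).Adm) (hm : ∀ r, 0 < m r) (hN : 0 < N) {b : Ix m → ℕ}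
    (hb : ∀ q, 0 < b q ∧ b q < MX F q) (hE : IsCF F E)
    (hEig : IsEig (MX F) b E) {q0 : Ix m} {o : Place k L}
    (ho : 0 < ord o ((F q0.1).C q0.2) + (F q0.1).E q0.2 o) {s : Fin N → Place k L}
    {X : ∀ _ : κ, Fin N → ℕ → k} {O : ∀ _ : κ, Equiv.Perm (Fin N) → Fin N → ℕ → k}
    {p : Ix m → k} {w : Fin N → Ix m → k} (hw : IsSt F hm (cb s) X p w)
    (hinj : ∀ r, Function.Injective fun j => lam (F r) (cb s j))
    (hO : ∀ r, Ords (m r) (X r) (O r))
    (hgen : ∀ r (σ : Equiv.Perm (Fin N)) (j j' : Fin N), (j' : ℕ) = j + 1 →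
      Gen (m r) (O r σ j) (O r σ j')) (hcurve : CurveOut F q0 o s O p) :
    AE m E s (som w) = 0 := by
  obtain ⟨τ, η, S, Z, hτ, hη, hS, hZ, hZmu, hP, h0, h1⟩ := hcurve
  obtain ⟨V, hV⟩ := exists_ws hF hm hN hS hZ hZmu
    (p := fun q => algebraMap k (Om k) (p q) * if q = q0 then η else 1) hP
  have heq : ProdInv F E := fun s w w' hi hi' hpow hprod =>
    eq_of_prod hEig (fun j q => (hi q.1 j).w q.2) (fun j q => (hpow j q).symm)
      fun q => (hprod q).symm
  have hon : ∀ j, OnX F (S j) (fun q => some (V j q)) := hV.onX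
  have hSU : ∀ r j, Un (F r) (S j) := fun r j => (hS r j).un hL.out (hF r)
  have hVr : ∀ r j, row (F r) (hm r) (S j) (cmp (V j) r) = Z r j := fun r j => (hV r).row j
  have hVp : ∀ q, ∏ j, V j q = algebraMap k (Om k) (p q) * if q = q0 then η else 1 :=
    fun q => (hV q.1).prod q.2
  have hVw : ∀ j q, V j q ≠ 0 := fun j q => (hV.int q.1 j).w q.2
  have hpow : ∀ j (q : Ix m), V j q ^ (F q.1).M q.2 =
      ev ((F q.1).B q.2) (S j) / ev ((F q.1).C q.2) (S j) * (1 - Z q.1 j q.2) := fun j q =>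
    pow_of_row (hm q.1) (hSU q.1 j) (hVr q.1 j) q.2
  refine bridge0 (isCF_AE hE) (s := S) (u := fun j q => some (V j q)) hon hτ
    (fun v hv => ?_) fun v hv => ?_
  · obtain ⟨hη1, σ, hσS, hσZ⟩ := h0 v hv
    have hbase : ∀ r j, Bas (F r) (s (σ j)) := fun r j => base_inr.1 (hw.int r (σ j)).base
    have hval : ∀ j (q : Ix m), ∃ a : k, a ^ (F q.1).M q.2 = ev ((F q.1).B q.2) (cb s (σ j)) /
        ev ((F q.1).C q.2) (cb s (σ j)) * (1 - O q.1 σ j q.2) ∧ v.At (V j q) a := by
      intro j q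
      refine HYG.at_root ((hF q.1).M0 q.2) ?_
      rw [hpow j q]
      exact ((evB_at (hF q.1) (hσS j) (hbase q.1 j) q.2).div
        (evC_at (hF q.1) (hσS j) (hbase q.1 j) q.2)
        (((hbase q.1 j).un (hF q.1)).C q.2)).mul ((at_one v).sub (hσZ q.1 j q.2))
    choose a ha1 ha2 using hval
    have hrow : ∀ r j, row (F r) (hm r) (cb s (σ j)) (cmp (a j) r) = O r σ j := fun r j =>
      row_of_pow (hm r) ((hbase r j).un (hF r)) ((hO r).good σ j).per fun i => ha1 j ⟨r, i⟩
    have hX : ∀ r j, mu (m r) (X r j) = lam (F r) (cb s j) := fun r j => by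
      rw [← (hw r).row]
      exact (hw.int r j).mu (hF r) (hm r)
    have hst : IsSt F hm (cb fun j => s (σ j)) (fun r => O r σ) p a := by
      intro r
      refine ⟨fun j => ?_, hrow r, fun i => ?_⟩
      · have h2 : row (F r) (hm r) (Sum.inr (s (σ j)) : Bp k L k) (cmp (a j) r) = O r σ j :=
          hrow r j
        refine int_of_row (hF r) (hm r) (base_inr.2 (hbase r j)) ?_ ?_
        · rw [h2]
          exact (hO r).good σ j
        · rw [h2, (hO r).mu, hX]
      · have h2 : v.At (∏ j, V j ⟨r, i⟩) (∏ j, a j ⟨r, i⟩) :=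
          Place.At.prod fun j _ => ha2 j ⟨r, i⟩
        rw [hVp ⟨r, i⟩] at h2
        have h3 : v.At (algebraMap k (Om k) (p ⟨r, i⟩) * if (⟨r, i⟩ : Ix m) = q0 then η else 1)
            (p ⟨r, i⟩ * 1) := by
          refine (Place.at_const _).mul ?_
          split_ifs
          · exact hη1
          · exact at_one v
        rw [mul_one] at h3
        exact h2.unique h3
    have h2 := orders hF hm heq (fun r => coreRel hF hm hb hE hEig r) hinj hO hgen hw σ hst
    have h3 : (fun j => vb v (S j)) = fun j => s (σ j) := by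
      funext j
      exact vb_eq (hσS j)
    have h4 : (fun j q => vlo v (some (V j q))) = som a := by
      funext j q
      exact vlo_at (ha2 j q)
    rw [h3, h4]
    exact h2
  · have honv : ∀ j, OnX F (Sum.inr (vb v (S j)) : Bp k L k)
        (fun q => vlo v (some (V j q))) := fun j => onX_vlo hF v (hon j)
    have hz : ∀ (j : Fin N) (q : Ix m), v.Vanishes (V j q) →
        AE m E (fun j => vb v (S j)) (fun j q => vlo v (some (V j q))) = 0 := fun j q h =>
      zero_of (isEig_AE hEig) hb (j := j) (i := q) (Or.inr (some_zero h))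
    rcases h1 v hv with ⟨j, hj⟩ | h2 | h2 | ⟨j, q, c, hc, hcB, h2⟩
    · exact zero_of_o hF hb (isCF_AE hE) (isEig_AE hEig) honv ho (j := j) (vb_eq hj)
    · -- the product vanishes
      have h3 : v.Vanishes (∏ j, V j q0) := by
        rw [hVp, if_pos rfl, ← Place.at_zero_iff]
        have h4 := (Place.at_const (v := v) (p q0)).mul h2
        rwa [mul_zero] at h4
      obtain ⟨j, -, h4⟩ := v.vanishes_prod h3
      exact hz j q0 h4
    · have hp0 : p q0 ≠ 0 := by
        have h5 : ∏ j, w j q0 = p q0 := (hw q0.1).prod q0.2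
        rw [← h5]
        exact prod_ne_zero_iff.2 fun j _ => (hw.int q0.1 j).w q0.2
      have h3 : v.Vanishes (∏ j, (V j q0)⁻¹) := by
        rw [prod_inv_distrib, hVp, if_pos rfl, ← Place.at_zero_iff, mul_inv]
        have h4 := ((Place.at_const (v := v) (p q0)).inv hp0).mul h2
        rwa [mul_zero] at h4
      obtain ⟨j, -, h4⟩ := v.vanishes_prod h3
      exact zero_of (isEig_AE hEig) hb (j := j) (i := q0) (Or.inl
        (none_of_inv (hVw j q0) (Place.at_zero_iff.2 h4)))
    · refine hz j q (v.vanishes_of_pow (n := (F q.1).M q.2) ?_)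
      rw [hpow j q, ← Place.at_zero_iff]
      have h3 := ((evB_at (hF q.1) hc hcB q.2).div (evC_at (hF q.1) hc hcB q.2)
        ((hcB.un (hF q.1)).C q.2)).mul ((at_one v).sub h2)
      rwa [sub_self, mul_zero] at h3

end Pool.Agent.HGP
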