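import Pool.Agent.BBU.CR

/-!
# Package HGP-UqR: idempotents for constants and products of groups (pure algebra)

`CR R` (`BBU/CR.lean`) is the monoid of the constants and rotations, for the group `R = ∏_q G q`. For every
`l : Option (Finset Q)` there is an idempotent in its monoid algebra: for `none` the average of the
constants; for `some T` the product over `q ∈ T` of `1 - average over G q` and over `q ∉ T` of the average over
`G q`, for `T = ∅` minus the average of the constants. Their sum is `1`.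

`cfT_sum`: for a rotation `∑_T ∏ = ∏_q (δ - 1/n + 1/n)` (`Finset.prod_add`). `cfT_sum_r`: the sum over the
rotations is `∏_q ∑_(G q)` (`Finset.prod_univ_sum`, `Fintype.piFinset_univ`), a factor with `q ∈ T` is `0`. `cfT_idem`: as
`cf_idem` in `BBU/CR.lean`; for rotations the convolution is the product of the convolutions on `G q`.
`cfT_chi`: for a family of functions `χ q : G q → F` with `χ q 1 = 1` into a field the sum of the coefficients
times `∏_q χ q (ζ q)` is the product of the sums over `G q`; it is zero if `(∑ over G q of χ q) = 0` for some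
`q ∉ T`, or if `χ q = 1` for some `q ∈ T`.
-/

set_option autoImplicit false

namespace Pool.Agent.HGP

open Pool.Agent.BBU
open scoped Classical

variable {Q : Type} [Fintype Q] {G : Q → Type} [∀ q, Fintype (G q)] [∀ q, Group (G q)]

/-- the coefficients of the idempotents -/
noncomputable def cfT (G : Q → Type) [∀ q, Fintype (G q)] [∀ q, Group (G q)]
    (l : Option (Finset Q)) (x : CR (∀ q, G q)) : ℚ :=
  match x, l with
  | .inl _, none => (Fintype.card (∀ q, G q) : ℚ)⁻¹
  | .inl _, some T => if T = ∅ then -(Fintype.card (∀ q, G q) : ℚ)⁻¹ else 0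
  | .inr _, none => 0
  | .inr ζ, some T => ∏ q, if q ∈ T then (if ζ q = 1 then 1 else 0) - (Fintype.card (G q) : ℚ)⁻¹
      else (Fintype.card (G q) : ℚ)⁻¹

/-- the factor of the coefficient of a rotation -/
private noncomputable def ff (G : Q → Type) [∀ q, Fintype (G q)] [∀ q, Group (G q)]
    (T : Finset Q) (q : Q) (x : G q) : ℚ :=
  if q ∈ T then (if x = 1 then 1 else 0) - (Fintype.card (G q) : ℚ)⁻¹
    else (Fintype.card (G q) : ℚ)⁻¹

private theorem c_none (ζ : ∀ q, G q) :
    cfT G none (CR.c ζ) = (Fintype.card (∀ q, G q) : ℚ)⁻¹ := rfl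

private theorem c_some (T : Finset Q) (ζ : ∀ q, G q) :
    cfT G (some T) (CR.c ζ) = if T = ∅ then -(Fintype.card (∀ q, G q) : ℚ)⁻¹ else 0 := rfl

private theorem r_none (ζ : ∀ q, G q) : cfT G none (CR.r ζ) = 0 := rfl

private theorem r_some (T : Finset Q) (ζ : ∀ q, G q) :
    cfT G (some T) (CR.r ζ) = ∏ q, ff G T q (ζ q) := rfl

private theorem pis {A : Type} [CommSemiring A] (f : ∀ q, G q → A) :
    ∑ ζ : ∀ q, G q, ∏ q, f q (ζ q) = ∏ q, ∑ x, f q x := by
  rw [Finset.prod_univ_sum, Fintype.piFinset_univ]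

private theorem ffs (q : Q) : (Fintype.card (G q) : ℚ) ≠ 0 := by
  exact_mod_cast Fintype.card_ne_zero

private theorem ff_sum (T : Finset Q) (q : Q) :
    ∑ x, ff G T q x = if q ∈ T then 0 else 1 := by
  have h := ffs (G := G) q
  unfold ff
  by_cases hq : q ∈ T
  · simp only [if_pos hq, Finset.sum_sub_distrib, Finset.sum_ite_eq', Finset.mem_univ, if_true,
      Finset.sum_const, Finset.card_univ, nsmul_eq_mul, mul_inv_cancel₀ h, sub_self]
  · simp only [if_neg hq, Finset.sum_const, Finset.card_univ, nsmul_eq_mul, mul_inv_cancel₀ h]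

private theorem ff_conv (T : Finset Q) (q : Q) (ρ : G q) :
    ∑ x, ff G T q x * ff G T q (x⁻¹ * ρ) = ff G T q ρ := by
  have h := ffs (G := G) q
  unfold ff
  by_cases hq : q ∈ T
  · simp only [if_pos hq]
    have h4 : ∀ ζ : G q, ((if ζ = 1 then (1 : ℚ) else 0) - (Fintype.card (G q) : ℚ)⁻¹) *
        ((if ζ⁻¹ * ρ = 1 then (1 : ℚ) else 0) - (Fintype.card (G q) : ℚ)⁻¹) =
        (if ζ = 1 then (if ρ = 1 then (1 : ℚ) else 0) else 0) -
          (if ζ = 1 then (Fintype.card (G q) : ℚ)⁻¹ else 0) -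
          (if ζ = ρ then (Fintype.card (G q) : ℚ)⁻¹ else 0) +
            (Fintype.card (G q) : ℚ)⁻¹ * (Fintype.card (G q) : ℚ)⁻¹ := by
      intro ζ
      have h5 : ζ⁻¹ * ρ = 1 ↔ ζ = ρ := by
        rw [inv_mul_eq_one]
      rw [if_congr h5 rfl rfl]
      by_cases h6 : ζ = 1
      · subst h6
        rw [if_pos rfl, if_pos rfl, if_pos rfl, if_congr (eq_comm (a := ρ)) rfl rfl]
        split_ifs <;> ring
      · rw [if_neg h6, if_neg h6, if_neg h6]
        split_ifs <;> ring
    rw [Finset.sum_congr rfl fun ζ _ => h4 ζ]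
    simp only [Finset.sum_add_distrib, Finset.sum_sub_distrib, Finset.sum_ite_eq',
      Finset.mem_univ, if_true, Finset.sum_const, Finset.card_univ, nsmul_eq_mul]
    field_simp
    ring
  · simp only [if_neg hq, Finset.sum_const, Finset.card_univ, nsmul_eq_mul]
    rw [← mul_assoc, mul_inv_cancel₀ h, one_mul]

private theorem sub_sum (f g : Q → ℚ) :
    ∑ T : Finset Q, ∏ q, (if q ∈ T then f q else g q) = ∏ q, (f q + g q) := by
  rw [Finset.prod_add, Finset.powerset_univ]
  refine Finset.sum_congr rfl fun T _ => ?_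
  rw [Finset.prod_ite]
  congr 1
  · refine Finset.prod_congr ?_ fun _ _ => rfl
    ext q
    simp
  · refine Finset.prod_congr ?_ fun _ _ => rfl
    ext q
    simp

theorem cfT_sum (s : CR (∀ q, G q)) : ∑ l, cfT G l s = if s = 1 then 1 else 0 := by
  rw [Fintype.sum_option]
  rcases s.cases' with ⟨ζ, rfl⟩ | ⟨ζ, rfl⟩
  · rw [c_none, if_neg (by rw [CR.one_eq]; exact CR.c_ne_r)]
    simp only [c_some, Finset.sum_ite_eq', Finset.mem_univ, if_true, add_neg_cancel]
  · rw [r_none, zero_add, CR.one_eq]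
    simp only [r_some]
    have h1 : ∀ T : Finset Q, ∏ q, ff G T q (ζ q) = ∏ q, (if q ∈ T then
        (if ζ q = 1 then (1 : ℚ) else 0) - (Fintype.card (G q) : ℚ)⁻¹
          else (Fintype.card (G q) : ℚ)⁻¹) := fun T => rfl
    rw [Finset.sum_congr rfl fun T _ => h1 T, sub_sum]
    simp only [sub_add_cancel]
    by_cases h : ζ = 1
    · rw [if_pos (by rw [h]), h]
      simp
    · rw [if_neg (fun h2 => h (CR.r_inj.1 h2))]
      obtain ⟨q, hq⟩ := Function.ne_iff.1 h
      refine Finset.prod_eq_zero (Finset.mem_univ q) ?_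
      exact if_neg fun h3 => hq (by rw [h3]; rfl)

/-- the sum of the coefficients of the rotations -/
theorem cfT_sum_r (l : Option (Finset Q)) :
    ∑ ζ : ∀ q, G q, cfT G l (CR.r ζ) = if l = some ∅ then 1 else 0 := by
  rcases l with _ | T
  · simp only [r_none, Finset.sum_const_zero]
    rw [if_neg (by simp)]
  · simp only [r_some]
    rw [pis (fun q => ff G T q)]
    simp only [ff_sum]
    by_cases h : T = ∅
    · subst h
      rw [if_pos rfl]
      simp
    · rw [if_neg (fun h2 => h (Option.some.inj h2))]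
      obtain ⟨q, hq⟩ := Finset.nonempty_iff_ne_empty.2 h
      refine Finset.prod_eq_zero (Finset.mem_univ q) ?_
      rw [if_pos hq]

/-- the sum of all coefficients -/
theorem cfT_sum_all (l : Option (Finset Q)) :
    ∑ x, cfT G l x = if l = none then 1 else 0 := by
  have hN : (Fintype.card (∀ q, G q) : ℚ) ≠ 0 := by
    exact_mod_cast Fintype.card_ne_zero
  rw [CR.sum_eq, cfT_sum_r]
  rcases l with _ | T
  · simp only [c_none, Finset.sum_const, Finset.card_univ, nsmul_eq_mul]
    rw [mul_inv_cancel₀ hN, if_neg (by simp)]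
    simp
  · rw [if_neg (c := (some T : Option (Finset Q)) = none) (by simp)]
    by_cases h : T = ∅
    · subst h
      simp only [c_some, if_true, Finset.sum_const, Finset.card_univ, nsmul_eq_mul]
      rw [mul_neg, mul_inv_cancel₀ hN]
      ring
    · simp only [c_some, if_neg h, Finset.sum_const_zero]
      rw [if_neg (fun h2 => h (Option.some.inj h2)), add_zero]

/-- they are idempotents -/
theorem cfT_idem (l : Option (Finset Q)) (s : CR (∀ q, G q)) :
    ∑ x, ∑ y, (if x * y = s then cfT G l x * cfT G l y else 0) = cfT G l s := by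
  rw [CR.sum_eq]
  have h1 : ∀ ζ, ∑ y, (if CR.c ζ * y = s then cfT G l (CR.c ζ) * cfT G l y else 0) =
      (if CR.c ζ = s then cfT G l (CR.c ζ) else 0) * ∑ y, cfT G l y := by
    intro ζ
    rw [Finset.mul_sum]
    refine Finset.sum_congr rfl fun y _ => ?_
    by_cases h : CR.c ζ = s
    · rw [if_pos h, if_pos (by rw [CR.c_mul]; exact h)]
    · rw [if_neg h, if_neg (by rw [CR.c_mul]; exact h), zero_mul]
  have h2 : ∀ ζ, ∑ y, (if CR.r ζ * y = s then cfT G l (CR.r ζ) * cfT G l y else 0) =
      cfT G l (CR.r ζ) * cfT G l (CR.r ζ⁻¹ * s) := by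
    intro ζ
    rw [Finset.sum_eq_single (CR.r ζ⁻¹ * s)]
    · rw [if_pos]
      rcases s.cases' with ⟨ρ, rfl⟩ | ⟨ρ, rfl⟩
      · rw [CR.r_mul_c, CR.r_mul_c, mul_inv_cancel_left]
      · rw [CR.r_mul_r, CR.r_mul_r, mul_inv_cancel_left]
    · intro y _ hy
      rw [if_neg]
      rintro rfl
      apply hy
      rcases y.cases' with ⟨ρ, rfl⟩ | ⟨ρ, rfl⟩
      · rw [CR.r_mul_c, CR.r_mul_c, inv_mul_cancel_left]
      · rw [CR.r_mul_r, CR.r_mul_r, inv_mul_cancel_left]
    · intro h
      exact absurd (Finset.mem_univ _) h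
  rw [Finset.sum_congr rfl fun ζ _ => h1 ζ, Finset.sum_congr rfl fun ζ _ => h2 ζ, cfT_sum_all,
    ← Finset.sum_mul]
  rcases s.cases' with ⟨ρ, rfl⟩ | ⟨ρ, rfl⟩
  · have h3 : ∀ ζ, cfT G l (CR.r ζ⁻¹ * CR.c ρ) = cfT G l (CR.c ρ) := by
      intro ζ
      rcases l with _ | T
      · rfl
      · rfl
    simp only [h3, CR.c_inj, Finset.sum_ite_eq', Finset.mem_univ, if_true]
    rw [← Finset.sum_mul, cfT_sum_r]
    rcases l with _ | T
    · rw [if_pos rfl, if_neg (by simp)]
      ring
    · rw [if_neg (c := (some T : Option (Finset Q)) = none) (by simp), c_some]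
      by_cases h : T = ∅
      · rw [if_pos h, if_pos (by rw [h])]
        ring
      · rw [if_neg h]
        ring
  · have h3 : ∀ ζ : (∀ q, G q), (CR.c ζ = CR.r ρ) = False := fun ζ => eq_false CR.c_ne_r
    simp only [h3, if_false, Finset.sum_const_zero, zero_mul, zero_add, CR.r_mul_r]
    rcases l with _ | T
    · simp only [r_none, zero_mul, Finset.sum_const_zero]
    · simp only [r_some, ← Finset.prod_mul_distrib]
      have h4 := pis (fun q x => ff G T q x * ff G T q (x⁻¹ * ρ q))
      refine h4.trans ?_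
      exact Finset.prod_congr rfl fun q _ => ff_conv T q (ρ q)

/-- orthogonality -/
theorem cfT_chi {F : Type} [Field F] [CharZero F] (T : Finset Q) (χ : ∀ q, G q → F)
    (h : (∃ q ∈ T, ∀ ζ, χ q ζ = 1) ∨ ∃ q, q ∉ T ∧ ∑ ζ, χ q ζ = 0) (h1 : ∀ q, χ q 1 = 1) :
    ∑ ζ : ∀ q, G q, ((cfT G (some T) (CR.r ζ) : ℚ) : F) * ∏ q, χ q (ζ q) = 0 := by
  simp only [r_some, Rat.cast_prod, ← Finset.prod_mul_distrib]
  rw [pis (fun q x => ((ff G T q x : ℚ) : F) * χ q x)]
  rcases h with ⟨q, hq, h⟩ | ⟨q, hq, h⟩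
  · refine Finset.prod_eq_zero (Finset.mem_univ q) ?_
    simp only [h, mul_one]
    rw [← Rat.cast_sum, ff_sum, if_pos hq, Rat.cast_zero]
  · refine Finset.prod_eq_zero (Finset.mem_univ q) ?_
    unfold ff
    simp only [if_neg hq]
    rw [← Finset.mul_sum, h, mul_zero]

end Pool.Agent.HGP
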