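import Pool.Agent.HGP.KMor
import Pool.Agent.HGP.UqR

/-!
# Package HGP-UqA: projectors in the algebra of the morphisms

As `Pool/Agent/HGFC/UqA.lean`, with the idempotents `cfT` of `HGP/UqR.lean`: for every factor the levels are
`none` and `some T`, `T` a set of the components `q < R` (all components `q ≥ R` are trivial). The rotation is
the morphism `Comp.map a Set.univ id (fun _ => 1) (zt ρ) (fun _ _ => none)`, on points `mulc (zt ρ)`.
-/

set_option autoImplicit false
set_option linter.unusedSectionVars false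

noncomputable section

namespace Pool.Agent.HGP

open Pool.Agent.ZCyc Pool.Agent.Dess Pool.Agent.GT Pool.Agent.TInc Pool.Agent.HGF Pool.Agent.BBU
open scoped Classical

variable {k : Type} [Field k] {ι : Type} {C : ι → Crv k} {r R : ℕ}

/-- the rotations of a component -/
abbrev Rq (Z : Hyp C) (q : ℕ) : Type := ∀ j : Fin (Z.m q), rootsOfUnity ((Z.D q).F.M j) k

/-- the rotations of the components `q < R` -/
abbrev Rt (R : ℕ) (Z : Hyp C) : Type := ∀ q : Fin R, Rq Z q

/-- the factors of a rotation -/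
def zt {Z : Hyp C} (ρ : Rt R Z) (q j : ℕ) : k :=
  if h : q < R ∧ j < Z.m q then ((ρ ⟨q, h.1⟩ ⟨j, h.2⟩ : kˣ) : k) else 1

theorem zt_pow {Z : Hyp C} (ρ : Rt R Z) (q j : ℕ) : zt ρ q j ^ Z.M q j = 1 := by
  unfold zt
  by_cases h : q < R ∧ j < Z.m q
  · rw [dif_pos h]
    unfold Hyp.M
    rw [dif_pos h.2]
    have h1 := congrArg Units.val ((mem_rootsOfUnity ((Z.D q).F.M ⟨j, h.2⟩)
      (ρ ⟨q, h.1⟩ ⟨j, h.2⟩ : kˣ)).1 (ρ ⟨q, h.1⟩ ⟨j, h.2⟩).2)
    simpa using h1
  · rw [dif_neg h, one_pow]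

theorem zt_mul {Z : Hyp C} (ρ ρ' : Rt R Z) (q j : ℕ) :
    zt (ρ * ρ') q j = zt ρ q j * zt ρ' q j := by
  unfold zt
  by_cases h : q < R ∧ j < Z.m q
  · rw [dif_pos h, dif_pos h, dif_pos h]
    simp
  · rw [dif_neg h, dif_neg h, dif_neg h, one_mul]

theorem zt_one {Z : Hyp C} (q j : ℕ) : zt (1 : Rt R Z) q j = 1 := by
  unfold zt
  by_cases h : q < R ∧ j < Z.m q
  · rw [dif_pos h]
    simp
  · rw [dif_neg h]

theorem mulc_zt {Z : Hyp C} (ρ ρ' : Rt R Z) (p : Pt C) :
    mulc (zt (ρ * ρ')) p = mulc (zt ρ) (mulc (zt ρ') p) := by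
  unfold mulc
  refine Prod.ext rfl (funext fun q => funext fun j => ?_)
  change (p.2 q j).map (fun t => zt (ρ * ρ') q j * t) =
    ((p.2 q j).map fun t => zt ρ' q j * t).map fun t => zt ρ q j * t
  rw [Option.map_map]
  congr 1
  funext t
  simp only [Function.comp_apply]
  rw [zt_mul, mul_assoc]

/-- the rotation as a morphism -/
def rtC {X : Fin r → Hyp C} (a : Fin r) (ρ : Rt R (X a)) : Comp X (X a) :=
  .map a Set.univ id (fun _ => 1) (zt ρ) (fun _ _ => none) rfl
    (fun q _ => ⟨trivial, fun q' _ h => h⟩) (fun q => Cmp.Sym.one _) (zt_pow ρ) (by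
      refine onK_res.2 ⟨⟨_, rfl, fun q hq => (hq trivial).elim⟩, fun _ _ _ => rfl⟩)

theorem rtC_app {X : Fin r → Hyp C} (a : Fin r) (ρ : Rt R (X a)) (x : Fin r → Pt C) :
    (rtC a ρ).app x = mulc (zt ρ) (x a) := by
  refine Prod.ext rfl (funext fun q => funext fun j => ?_)
  exact if_pos trivial

private theorem mulc_zt_one_UqA {Z : Hyp C} (p : Pt C) : mulc (zt (1 : Rt R Z)) p = p := by
  have h1 : zt (1 : Rt R Z) = fun _ _ => 1 := funext fun q => funext fun j => zt_one q j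
  rw [h1]
  exact mulc_one p

variable {X : Fin r → Hyp C} {w : Fin r → Pt C}

/-- the morphisms which are given by constants and rotations -/
def el (R : ℕ) (hw : OnP X w) (t : ∀ a, CR (Rt R (X a))) : Mor X X := fun a =>
  Sum.elim (fun ρ => Comp.const (mulc (zt ρ) (w a)) (on_mulc (zt_pow ρ) (hw a)))
    (fun ρ => rtC a ρ) (t a)

theorem el_c (hw : OnP X w) {t : ∀ a, CR (Rt R (X a))} {a : Fin r} {ρ : Rt R (X a)}
    (h : t a = CR.c ρ) : el R hw t a =
      Comp.const (mulc (zt ρ) (w a)) (on_mulc (zt_pow ρ) (hw a)) := by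
  unfold el
  rw [h]
  rfl

theorem el_r (hw : OnP X w) {t : ∀ a, CR (Rt R (X a))} {a : Fin r} {ρ : Rt R (X a)}
    (h : t a = CR.r ρ) : el R hw t a = rtC a ρ := by
  unfold el
  rw [h]
  rfl

theorem el_mul (hw : OnP X w) (t t' : ∀ a, CR (Rt R (X a))) (x : Fin r → Pt C) :
    (el R hw (t * t')).app x = (el R hw t).app ((el R hw t').app x) := by
  funext a
  unfold Mor.app
  rcases (t a).cases' with ⟨ρ, h⟩ | ⟨ρ, h⟩
  · have h1 : (t * t') a = CR.c ρ := by
      rw [Pi.mul_apply, h, CR.c_mul]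
    rw [el_c hw h1, el_c hw h]
    rfl
  · rcases (t' a).cases' with ⟨ρ', h'⟩ | ⟨ρ', h'⟩
    · have h1 : (t * t') a = CR.c (ρ * ρ') := by
        rw [Pi.mul_apply, h, h', CR.r_mul_c]
      rw [el_c hw h1, el_r hw h, rtC_app]
      change mulc (zt (ρ * ρ')) (w a) = mulc (zt ρ) ((el R hw t' a).app x)
      rw [el_c hw h', mulc_zt]
      rfl
    · have h1 : (t * t') a = CR.r (ρ * ρ') := by
        rw [Pi.mul_apply, h, h', CR.r_mul_r]
      rw [el_r hw h1, el_r hw h, rtC_app, rtC_app]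
      change mulc (zt (ρ * ρ')) (x a) = mulc (zt ρ) ((el R hw t' a).app x)
      rw [el_r hw h', rtC_app, mulc_zt]

theorem el_one (hw : OnP X w) (x : Fin r → Pt C) : (el R hw 1).app x = x := by
  funext a
  unfold Mor.app
  have h1 : (1 : ∀ a, CR (Rt R (X a))) a = CR.r 1 := rfl
  rw [el_r hw h1, rtC_app]
  exact mulc_zt_one_UqA (x a)

variable [∀ a q, Fintype (Rq (X a) q)]

/-- the coefficients of the projectors -/
def cfP (R : ℕ) (X : Fin r → Hyp C) [∀ a q, Fintype (Rq (X a) q)]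
    (κ : Fin r → Option (Finset (Fin R))) (t : ∀ a, CR (Rt R (X a))) : ℚ :=
  ∏ a, cfT (fun q : Fin R => Rq (X a) q) (κ a) (t a)

/-- the projectors -/
def ga (R : ℕ) (hw : OnP X w) (κ : Fin r → Option (Finset (Fin R))) : Mor X X →₀ ℚ :=
  ∑ t : ∀ a, CR (Rt R (X a)), Finsupp.single (el R hw t) (cfP R X κ t)

omit [∀ a q, Fintype (Rq (X a) q)] in
private theorem pushM_eq_UqA {r' : ℕ} {Y : Fin r' → Hyp C} (γ : Mor X Y →₀ ℚ)
    (z : (Fin r → Pt C) →₀ ℚ) : pushM γ z = γ.sum fun f c => c • z.mapDomain f.app := by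
  unfold pushM
  rw [Finsupp.sum, LinearMap.sum_apply]
  rfl

theorem push_ga (hw : OnP X w) (κ : Fin r → Option (Finset (Fin R)))
    (z : (Fin r → Pt C) →₀ ℚ) : pushM (ga R hw κ) z =
      ∑ t : ∀ a, CR (Rt R (X a)), cfP R X κ t • z.mapDomain (el R hw t).app := by
  rw [pushM_eq_UqA]
  unfold ga
  rw [← Finsupp.sum_finsetSum_index (fun f => by simp) (fun f a c => by rw [add_smul])]
  exact Finset.sum_congr rfl fun U _ => Finsupp.sum_single_index (by simp)

theorem ga_idem (hw : OnP X w) (κ : Fin r → Option (Finset (Fin R)))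
    (z : (Fin r → Pt C) →₀ ℚ) :
    pushM (ga R hw κ) (pushM (ga R hw κ) z) = pushM (ga R hw κ) z := by
  rw [push_ga hw κ z, push_ga]
  have h1 : ∀ t : ∀ a, CR (Rt R (X a)), cfP R X κ t • Finsupp.mapDomain (el R hw t).app
      (∑ t' : ∀ a, CR (Rt R (X a)), cfP R X κ t' • z.mapDomain (el R hw t').app) =
      ∑ t' : ∀ a, CR (Rt R (X a)), (cfP R X κ t * cfP R X κ t') •
        z.mapDomain (el R hw (t * t')).app := by
    intro t
    rw [Finsupp.mapDomain_finsetSum, Finset.smul_sum]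
    refine Finset.sum_congr rfl fun t' _ => ?_
    rw [Finsupp.mapDomain_smul, smul_smul, ← Finsupp.mapDomain_comp]
    congr 2
    funext x
    exact (el_mul hw t t' x).symm
  rw [Finset.sum_congr rfl fun t _ => h1 t]
  have key : ∀ (a : Fin r) (s : CR (Rt R (X a))),
      ∑ x : CR (Rt R (X a)), ∑ y : CR (Rt R (X a)),
        (if x * y = s then cfT (fun q : Fin R => Rq (X a) q) (κ a) x *
          cfT (fun q : Fin R => Rq (X a) q) (κ a) y else 0) =
      cfT (fun q : Fin R => Rq (X a) q) (κ a) s := by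
    intro a s
    have h5 := cfT_idem (G := fun q : Fin R => Rq (X a) q) (κ a) s
    refine Eq.trans (Finset.sum_congr (Finset.ext fun _ => by simp only [Finset.mem_univ]) fun x _ =>
      Finset.sum_congr (Finset.ext fun _ => by simp only [Finset.mem_univ]) fun y _ => ?_) h5
    split_ifs <;> rfl
  exact conv_idem (M := fun a => CR (Rt R (X a)))
    (fun a => cfT (fun q : Fin R => Rq (X a) q) (κ a)) key fun t => z.mapDomain (el R hw t).app

theorem ga_sum (hw : OnP X w) (z : (Fin r → Pt C) →₀ ℚ) :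
    ∑ κ, pushM (ga R hw κ) z = z := by
  simp only [push_ga]
  have h1 := conv_sum (fun a => cfT (fun q : Fin R => Rq (X a) q)) (fun a s => cfT_sum s)
    fun t => z.mapDomain (el R hw t).app
  have h2 : (el R hw 1).app = id := funext fun x => el_one hw x
  rw [h2, Finsupp.mapDomain_id] at h1
  exact h1

end Pool.Agent.HGP
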