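import Pool.Agent.HGP.UqA

/-!
# Package HGP-UqB: the projectors kill the forms of all other degrees

As `Pool/Agent/HGFC/UqB.lean`. `sum_phi`: for the constant function `1` (`Lab.zero`):
`cfT_sum_all`; for the form `(T', j, e)` and the level `some T`: `cfT_chi` with
`χ q ζ = ∏_l ζ_l ^ e q l` for `q ∈ T'` and `χ q = 1` otherwise; if `T ≠ T'` (as sets of natural
numbers) there is a `q` in one of the two sets and not in the other; for `q ∈ T'` the sum of the
character over the group is zero (`m q > 0` and `0 < e q l < M q l`, see `sum_chi`); if `T = T'` then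
the degrees are equal.
-/

set_option autoImplicit false
set_option linter.unusedSectionVars false

noncomputable section

namespace Pool.Agent.HGP

open Pool.Agent.ZCyc Pool.Agent.Dess Pool.Agent.GT Pool.Agent.TInc Pool.Agent.HGF Pool.Agent.BBU
open scoped Classical

variable {k : Type} [Field k] {ι : Type} {C : ι → Crv k} {r R : ℕ}

/-- the weight of a level -/
def wt (Z : Hyp C) (l : Option (Finset (Fin R))) : ℕ :=
  l.elim 0 fun T => Z.dm (T.map Fin.valEmbedding)

/-- the factor in the pull-back of a form -/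
def phi (Z : Hyp C) (c : Lab) (x : CR (Rt R Z)) : k :=
  Sum.elim (fun _ => if c = .zero then 1 else 0)
    (fun ρ => match c with
      | .zero => 1
      | .form T _ e => ∏ q ∈ T, ∏ l ∈ Finset.range (Z.m q), zt ρ q l ^ e q l) x

private theorem phi_c (Z : Hyp C) (c : Lab) (ρ : Rt R Z) :
    phi Z c (CR.c ρ) = if c = .zero then 1 else 0 :=
  rfl

private theorem phi_r_zero (Z : Hyp C) (ρ : Rt R Z) : phi Z .zero (CR.r ρ) = 1 := rfl

private theorem phi_r_form (Z : Hyp C) (T : Finset ℕ) (j : ℕ) (e : ℕ → ℕ → ℕ) (ρ : Rt R Z) :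
    phi Z (.form T j e) (CR.r ρ) =
      ∏ q ∈ T, ∏ l ∈ Finset.range (Z.m q), zt ρ q l ^ e q l := rfl

private theorem form_ne (T : Finset ℕ) (j : ℕ) (e : ℕ → ℕ → ℕ) : Lab.form T j e ≠ .zero := by
  intro h
  cases h

/-! ### Orthogonality -/

private theorem sum_chi [IsAlgClosed k] [CharZero k] (Z : Hyp C) (q : ℕ) [Fintype (Rq Z q)]
    (e : ℕ → ℕ) (hm : 0 < Z.m q) (he : ∀ l < Z.m q, 0 < e l ∧ e l < Z.M q l) :
    ∑ ρ : Rq Z q, ∏ l : Fin (Z.m q), ((ρ l : kˣ) : k) ^ e l = 0 := by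
  have hM : Z.M q 0 = (Z.D q).F.M ⟨0, hm⟩ := by
    unfold Hyp.M
    rw [dif_pos hm]
  have h0 := he 0 hm
  have hM0 : NeZero ((Z.D q).F.M ⟨0, hm⟩) := ⟨by omega⟩
  have hM1 : NeZero (((Z.D q).F.M ⟨0, hm⟩ : ℕ) : k) := NeZero.charZero
  obtain ⟨ξ, hξ⟩ := HasEnoughRootsOfUnity.exists_primitiveRoot k ((Z.D q).F.M ⟨0, hm⟩)
  have hξ1 : ξ ^ e 0 ≠ 1 := by
    intro h
    have h1 := (hξ.pow_eq_one_iff_dvd (e 0)).1 h
    have h2 := Nat.le_of_dvd h0.1 h1
    omega
  let ρ₀ : Rq Z q := Pi.mulSingle ⟨0, hm⟩ hξ.toRootsOfUnity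
  have hρ₀ : ∏ l : Fin (Z.m q), ((ρ₀ l : kˣ) : k) ^ e l = ξ ^ e 0 := by
    rw [Finset.prod_eq_single (⟨0, hm⟩ : Fin (Z.m q))]
    · congr 1
    · intro l _ hl0
      change ((((Pi.mulSingle (⟨0, hm⟩ : Fin (Z.m q)) hξ.toRootsOfUnity : Rq Z q) l : kˣ)) :
        k) ^ e l = 1
      rw [Pi.mulSingle_eq_of_ne hl0]
      simp
    · intro h
      exact absurd (Finset.mem_univ _) h
  have h1 : ∑ ρ : Rq Z q, ∏ l : Fin (Z.m q), ((ρ l : kˣ) : k) ^ e l =
      ξ ^ e 0 * ∑ ρ : Rq Z q, ∏ l : Fin (Z.m q), ((ρ l : kˣ) : k) ^ e l := by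
    conv_lhs => rw [← Equiv.sum_comp (Equiv.mulLeft ρ₀)]
    rw [Finset.mul_sum]
    refine Finset.sum_congr rfl fun ρ _ => ?_
    rw [← hρ₀, ← Finset.prod_mul_distrib]
    refine Finset.prod_congr rfl fun l _ => ?_
    rw [← mul_pow]
    congr 1
  have h2 : (1 - ξ ^ e 0) * ∑ ρ : Rq Z q, ∏ l : Fin (Z.m q), ((ρ l : kˣ) : k) ^ e l = 0 := by
    rw [sub_mul, one_mul, ← h1, sub_self]
  rcases mul_eq_zero.1 h2 with h3 | h3
  · exact absurd (sub_eq_zero.1 h3).symm hξ1
  · exact h3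

private theorem zt_mk {Z : Hyp C} (ρ : Rt R Z) (q : Fin R) (l : Fin (Z.m q)) :
    zt ρ q l = ((ρ q l : kˣ) : k) := by
  unfold zt
  rw [dif_pos ⟨q.2, l.2⟩]

private theorem sum_inst_UqB {α β : Type} [AddCommMonoid β] (i₁ i₂ : Fintype α) (f : α → β) :
    (@Finset.univ α i₁).sum f = (@Finset.univ α i₂).sum f := by
  rw [Subsingleton.elim i₁ i₂]

/-- the projector of the level `l` kills the forms of other degrees on one factor -/
theorem sum_phi [IsAlgClosed k] [CharZero k] (Z : Hyp C) [∀ q, Fintype (Rq Z q)]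
    (hR : ∀ q, R ≤ q → Z.m q = 0) (l : Option (Finset (Fin R))) (c : Lab) (hc : AdmLab Z c)
    (h : c.deg Z ≠ wt Z l) :
    ∑ x, ((cfT (fun q : Fin R => Rq Z q) l x : ℚ) : k) * phi Z c x = 0 := by
  rw [CR.sum_eq]
  simp only [phi_c]
  rcases c with _ | ⟨T', j, e⟩
  · have hl : l ≠ none := by
      rintro rfl
      exact h rfl
    have h1 : ∑ x, cfT (fun q : Fin R => Rq Z q) l x = 0 := by
      have h0 := cfT_sum_all (G := fun q : Fin R => Rq Z q) l
      rw [if_neg hl] at h0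
      exact (sum_inst_UqB _ _ _).trans h0
    rw [CR.sum_eq] at h1
    simp only [phi_r_zero, if_true, mul_one]
    rw [← Rat.cast_sum, ← Rat.cast_sum, ← Rat.cast_add, h1, Rat.cast_zero]
  · simp only [if_neg (form_ne T' j e), mul_zero, Finset.sum_const_zero, zero_add, phi_r_form]
    obtain ⟨hm, -, -, he⟩ := hc
    rcases l with _ | T
    · have h0 : ∀ ρ : Rt R Z, cfT (fun q : Fin R => Rq Z q) none (CR.r ρ) = 0 := fun _ => rfl
      simp only [h0, Rat.cast_zero, zero_mul, Finset.sum_const_zero]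
    · have hlt : ∀ q ∈ T', q < R := by
        intro q hq
        by_contra hcon
        have h1 := hm q hq
        rw [hR q (not_lt.1 hcon)] at h1
        exact absurd h1 (lt_irrefl 0)
      let χ : ∀ q : Fin R, Rq Z q → k := fun q ζ =>
        if (q : ℕ) ∈ T' then ∏ l : Fin (Z.m q), ((ζ l : kˣ) : k) ^ e q l else 1
      have hprod : ∀ ρ : Rt R Z, ∏ q ∈ T', ∏ l ∈ Finset.range (Z.m q), zt ρ q l ^ e q l =
          ∏ q : Fin R, χ q (ρ q) := by
        intro ρ
        have h1 : ∏ q : Fin R, χ q (ρ q) = ∏ q : Fin R,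
            (fun q : ℕ => if q ∈ T' then
              ∏ l ∈ Finset.range (Z.m q), zt ρ q l ^ e q l else 1) q := by
          refine Finset.prod_congr rfl fun q _ => ?_
          show (if (q : ℕ) ∈ T' then ∏ l : Fin (Z.m q), ((ρ q l : kˣ) : k) ^ e q l else 1) =
            if (q : ℕ) ∈ T' then ∏ l ∈ Finset.range (Z.m q), zt ρ q l ^ e q l else 1
          split_ifs with hq
          · rw [← Fin.prod_univ_eq_prod_range (fun l => zt ρ q l ^ e q l) (Z.m q)]
            refine Finset.prod_congr rfl fun l _ => ?_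
            rw [zt_mk]
          · rfl
        rw [h1, Fin.prod_univ_eq_prod_range (fun q : ℕ => if q ∈ T' then
          ∏ l ∈ Finset.range (Z.m q), zt ρ q l ^ e q l else 1) R, ← Finset.prod_filter]
        refine Finset.prod_congr ?_ fun _ _ => rfl
        ext q
        rw [Finset.mem_filter, Finset.mem_range]
        exact ⟨fun hq => ⟨hlt q hq, hq⟩, fun hq => hq.2⟩
      simp only [hprod]
      have hfin : ((∃ q ∈ T, ∀ ζ, χ q ζ = 1) ∨ ∃ q, q ∉ T ∧ ∑ ζ, χ q ζ = 0) →
          (∀ q, χ q 1 = 1) → ∑ ρ : Rt R Z, ((cfT (fun q : Fin R => Rq Z q) (some T) (CR.r ρ) : ℚ) :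
            k) * ∏ q : Fin R, χ q (ρ q) = 0 := by
        intro h1 h2
        have h3 := cfT_chi T χ h1 h2
        exact (sum_inst_UqB _ _ _).trans h3
      refine hfin ?_ ?_
      · by_contra hcon
        push Not at hcon
        obtain ⟨h1, h2⟩ := hcon
        apply h
        show Z.dm T' = Z.dm (T.map Fin.valEmbedding)
        congr 1
        ext q
        rw [Finset.mem_map]
        constructor
        · intro hq
          refine ⟨⟨q, hlt q hq⟩, ?_, rfl⟩
          by_contra hqT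
          apply h2 ⟨q, hlt q hq⟩ hqT
          have h3 : ∀ ζ : Rq Z q, χ ⟨q, hlt q hq⟩ ζ =
              ∏ l : Fin (Z.m q), ((ζ l : kˣ) : k) ^ e q l := fun ζ => if_pos hq
          refine (Finset.sum_congr rfl fun ζ _ => h3 ζ).trans ?_
          exact sum_chi Z q (e q) (hm q hq) fun l hl => (he q l).1 ⟨hq, hl⟩
        · rintro ⟨p, hp, rfl⟩
          by_contra hqT
          obtain ⟨ζ, hζ⟩ := h1 p hp
          exact hζ (if_neg hqT)
      · intro q
        show (if (q : ℕ) ∈ T' then ∏ l : Fin (Z.m q), (((1 : Rq Z q) l : kˣ) : k) ^ e q l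
          else 1) = 1
        split_ifs with hq
        · refine Finset.prod_eq_one fun l _ => ?_
          show (((1 : rootsOfUnity ((Z.D q).F.M l) k) : kˣ) : k) ^ e q l = 1
          simp
        · rfl

/-! ### Products -/

variable {X : Fin r → Hyp C} {w : Fin r → Pt C}

private theorem cases_CR {G : Type} (x : CR G) : (∃ ρ, x = CR.c ρ) ∨ ∃ ρ, x = CR.r ρ := x.cases'

private theorem pulls_rt {a b : Fin r} (ρ : Rt R (X b)) {c₀ c₁ : Lab}
    (hc : AdmLab (X b) c₀) :
    (rtC (X := X) b ρ).Pulls c₀ a c₁ ↔ c₀ ≠ .zero ∧ a = b ∧ c₁ = c₀ := by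
  rcases c₀ with _ | ⟨T, j, e⟩
  · constructor
    · intro h
      exact False.elim h
    · intro h
      exact absurd rfl h.1
  · rcases c₁ with _ | ⟨T', j', e'⟩
    · constructor
      · intro h
        exact False.elim h
      · intro h
        exact absurd h.2.2.symm (form_ne T j e)
    · obtain ⟨-, -, -, he⟩ := hc
      constructor
      · rintro ⟨h1, -, -, h2, h3, h4, h5⟩
        refine ⟨form_ne T j e, h1.symm, ?_⟩
        rw [Finset.image_id] at h2
        subst h2 h3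
        congr 1
        funext q l
        by_cases hq : q ∈ T'
        · exact h4 q hq l
        · rw [h5 q hq l, (he q l).2 fun h6 => hq h6.1]
      · rintro ⟨-, h1, h2⟩
        cases h2
        exact ⟨h1.symm, fun _ _ => trivial, Set.injOn_id _, Finset.image_id.symm, rfl,
          fun _ _ _ => rfl, fun q hq l => (he q l).2 fun h6 => hq h6.1⟩

private theorem src_c (hw : OnP X w) {t : ∀ a, CR (Rt R (X a))} {a : Fin r} {ρ : Rt R (X a)}
    (h : t a = CR.c ρ) : (el R hw t a).src = none := by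
  rw [el_c hw h]
  rfl

private theorem src_r (hw : OnP X w) {t : ∀ a, CR (Rt R (X a))} {a : Fin r} {ρ : Rt R (X a)}
    (h : t a = CR.r ρ) : (el R hw t a).src = some a := by
  rw [el_r hw h]
  rfl

private theorem src_eq (hw : OnP X w) {t : ∀ a, CR (Rt R (X a))} {a b : Fin r}
    (h : (el R hw t a).src = some b) : b = a ∧ ∃ ρ, t a = CR.r ρ := by
  rcases cases_CR (t a) with ⟨ρ, h1⟩ | ⟨ρ, h1⟩
  · rw [src_c hw h1] at h
    cases h
  · rw [src_r hw h1] at h
    exact ⟨(Option.some_injective _ h).symm, ρ, h1⟩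

theorem isPull_el (hw : OnP X w) (t : ∀ a, CR (Rt R (X a))) {c c' : Fin r → Lab}
    (hc : ∀ a, AdmLab (X a) (c a)) :
    IsPull (el R hw t) c c' ↔ c' = c ∧ ∀ a, c a ≠ .zero → ∃ ρ, t a = CR.r ρ := by
  have key : ∀ b a, (el R hw t b).Pulls (c b) a (c' a) → a = b ∧ c' a = c b ∧
      ∃ ρ, t b = CR.r ρ := by
    intro b a h
    rcases cases_CR (t b) with ⟨ρ, h1⟩ | ⟨ρ, h1⟩
    · rw [el_c hw h1] at h
      exact False.elim h
    · rw [el_r hw h1, pulls_rt ρ (hc b)] at h
      exact ⟨h.2.1, h.2.2, ρ, h1⟩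
  constructor
  · rintro ⟨h1, h2⟩
    have h3 : ∀ a, c a ≠ .zero → ∃ ρ, t a = CR.r ρ := by
      intro a ha
      obtain ⟨b, hb⟩ := h1 a ha
      exact (key a b hb).2.2
    refine ⟨?_, h3⟩
    funext a
    by_cases ha : c a = .zero
    · by_contra hne
      have h4 : c' a ≠ .zero := by
        intro h5
        exact hne (h5.trans ha.symm)
      obtain ⟨b, ⟨hb, hb'⟩, -⟩ := h2 a h4
      have h5 := (src_eq hw hb').1
      rw [← h5] at hb
      exact hb ha
    · obtain ⟨b, hb⟩ := h1 a ha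
      obtain ⟨h4, h5, -⟩ := key a b hb
      rw [h4] at h5
      exact h5
  · rintro ⟨rfl, h3⟩
    refine ⟨fun b hb => ⟨b, ?_⟩, fun a ha => ⟨a, ⟨ha, ?_⟩, ?_⟩⟩
    · obtain ⟨ρ, hρ⟩ := h3 b hb
      rw [el_r hw hρ, pulls_rt ρ (hc b)]
      exact ⟨hb, rfl, rfl⟩
    · obtain ⟨ρ, hρ⟩ := h3 a ha
      exact src_r hw hρ
    · rintro b ⟨-, hb⟩
      exact ((src_eq hw hb).1).symm

private theorem sgn_rt {b : Fin r} (ρ : Rt R (X b)) (c₀ : Lab) :
    (rtC (X := X) b ρ).sgn c₀ = 1 := by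
  rcases c₀ with _ | ⟨T, j, e⟩
  · rfl
  · have h1 : (∏ q ∈ T, ∏ q' ∈ T with q < q' ∧ id q' < id q,
        (-1 : ℤ) ^ (((X b).m q - 1) * ((X b).m q' - 1))) = 1 := by
      refine Finset.prod_eq_one fun q _ => Finset.prod_eq_one fun q' hq' => ?_
      obtain ⟨-, h2, h3⟩ := Finset.mem_filter.1 hq'
      exact absurd h2 (not_lt.2 (le_of_lt h3))
    have h2 : (∏ q ∈ T, ∏ j ∈ Finset.range ((X b).m q),
        ∏ j' ∈ Finset.range ((X b).m q) with j < j' ∧ (1 : Equiv.Perm ℕ) j' <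
          (1 : Equiv.Perm ℕ) j, (-1 : ℤ)) = 1 := by
      refine Finset.prod_eq_one fun q _ => Finset.prod_eq_one fun j _ =>
        Finset.prod_eq_one fun j' hj' => ?_
      obtain ⟨-, h2, h3⟩ := Finset.mem_filter.1 hj'
      exact absurd h2 (not_lt.2 (le_of_lt h3))
    exact (congrArg₂ (· * ·) h1 h2).trans (mul_one 1)

theorem sgnF_el (hw : OnP X w) (t : ∀ a, CR (Rt R (X a))) (c : Fin r → Lab) :
    sgnF (el R hw t) c = 1 := by
  unfold sgnF
  have h1 : ∏ b, (el R hw t b).sgn (c b) = 1 := by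
    refine Finset.prod_eq_one fun b _ => ?_
    rcases cases_CR (t b) with ⟨ρ, h1⟩ | ⟨ρ, h1⟩
    · rw [el_c hw h1]
      rfl
    · rw [el_r hw h1, sgn_rt]
  rw [h1, one_mul]
  refine Finset.prod_eq_one fun b _ => Finset.prod_eq_one fun b' hb' => ?_
  exfalso
  obtain ⟨-, h1, -, -, a, a', h2, h3, h4⟩ := Finset.mem_filter.1 hb'
  have h5 := (src_eq hw h2).1
  have h6 := (src_eq hw h3).1
  subst h5 h6
  exact absurd h1 (not_lt.2 h4.le)

theorem term_el [CharZero k] (hw : OnP X w) (t : ∀ a, CR (Rt R (X a))) {c c' : Fin r → Lab}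
    (hc : ∀ a, AdmLab (X a) (c a)) (q : ℚ) :
    (if IsPull (el R hw t) c c' then
      (q : k) * (sgnF (el R hw t) c : k) * fct (el R hw t) c else 0) =
      if c' = c then (q : k) * ∏ a, phi (X a) (c a) (t a) else 0 := by
  by_cases h : IsPull (el R hw t) c c'
  · obtain ⟨h1, h2⟩ := (isPull_el hw t hc).1 h
    rw [if_pos h, if_pos h1, sgnF_el, Int.cast_one, mul_one]
    congr 1
    unfold fct
    refine Finset.prod_congr rfl fun a _ => ?_
    by_cases ha : c a = .zero
    · rw [ha]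
      rcases cases_CR (t a) with ⟨ρ, h4⟩ | ⟨ρ, h4⟩
      · rw [h4, phi_c, if_pos rfl, el_c hw h4]
        rfl
      · rw [h4, phi_r_zero, el_r hw h4]
        rfl
    · obtain ⟨ρ, h4⟩ := h2 a ha
      rw [el_r hw h4, h4]
      cases hca : c a with
      | zero => exact absurd hca ha
      | form T j e =>
        rw [phi_r_form]
        rfl
  · rw [if_neg h]
    by_cases h1 : c' = c
    · rw [if_pos h1]
      have h2 : ∃ a, c a ≠ .zero ∧ ¬ ∃ ρ, t a = CR.r ρ := by
        by_contra hcon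
        push Not at hcon
        exact h ((isPull_el hw t hc).2 ⟨h1, hcon⟩)
      obtain ⟨a, ha, h3⟩ := h2
      rcases cases_CR (t a) with ⟨ρ, h4⟩ | ⟨ρ, h4⟩
      · rw [Finset.prod_eq_zero (Finset.mem_univ a), mul_zero]
        rw [h4, phi_c, if_neg ha]
      · exact absurd ⟨ρ, h4⟩ h3
    · rw [if_neg h1]

/-- the projector `ga κ` kills the forms of all degrees different from the weight of `κ` -/
theorem ga_kills [IsAlgClosed k] [CharZero k] [∀ a q, Fintype (Rq (X a) q)] (hw : OnP X w)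
    (hR : ∀ a q, R ≤ q → (X a).m q = 0) (κ : Fin r → Option (Finset (Fin R))) {ν : ℕ}
    (hν : ν ≠ ∑ a, wt (X a) (κ a)) : KillsForms (ga R hw κ) ν := by
  intro c hc hdeg c'
  have h1 : ∑ f ∈ (ga R hw κ).support.filter (fun f => IsPull f c c'),
      (ga R hw κ f : k) * (sgnF f c : k) * fct f c =
      (ga R hw κ).sum fun f q => if IsPull f c c' then (q : k) * (sgnF f c : k) * fct f c
        else 0 := by
    rw [Finset.sum_filter]
    rfl
  rw [h1]
  unfold ga
  rw [← Finsupp.sum_finsetSum_index (fun f => by simp) (fun f a b => by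
    split_ifs
    · push_cast
      ring
    · simp)]
  have h2 : ∀ t : ∀ a, CR (Rt R (X a)), (Finsupp.single (el R hw t) (cfP R X κ t)).sum
      (fun f q => if IsPull f c c' then (q : k) * (sgnF f c : k) * fct f c else 0) =
      if c' = c then ∏ a, ((cfT (fun q : Fin R => Rq (X a) q) (κ a) (t a) : ℚ) : k) *
        phi (X a) (c a) (t a) else 0 := by
    intro t
    rw [Finsupp.sum_single_index (by simp), term_el hw t hc]
    unfold cfP
    rw [Rat.cast_prod, Finset.prod_mul_distrib]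
  rw [Finset.sum_congr rfl fun t _ => h2 t]
  by_cases hcc : c' = c
  · simp only [if_pos hcc]
    have h3 := Finset.prod_univ_sum (fun a => (Finset.univ : Finset (CR (Rt R (X a)))))
      (fun a x => ((cfT (fun q : Fin R => Rq (X a) q) (κ a) x : ℚ) : k) * phi (X a) (c a) x)
    rw [Fintype.piFinset_univ] at h3
    rw [← h3]
    obtain ⟨a, ha⟩ : ∃ a, (c a).deg (X a) ≠ wt (X a) (κ a) := by
      by_contra hcon
      push Not at hcon
      apply hν
      rw [← hdeg]
      exact Finset.sum_congr rfl fun a _ => hcon a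
    exact Finset.prod_eq_zero (Finset.mem_univ a) (sum_phi (X a) (hR a) (κ a) (c a) (hc a) ha)
  · simp only [if_neg hcc, Finset.sum_const_zero]

end Pool.Agent.HGP
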