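import Pool.Agent.HGP.UqB
import Pool.Agent.BBU.Abs

/-!
# Uniqueness of the filtration

As `Pool/Agent/HGFC/UqC.lean`; `R` is a bound for the nontrivial components of all factors, and the
groups `Rq (X a) q` are finite (`M > 0` for nontrivial components; for trivial components the index type is
empty).
-/

set_option autoImplicit false
set_option linter.unusedSectionVars false

noncomputable section

namespace Pool.Agent.HGP

open Pool.Agent.ZCyc Pool.Agent.Dess Pool.Agent.GT Pool.Agent.TInc Pool.Agent.HGF Pool.Agent.BBU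
open scoped Classical

variable {k : Type} [Field k] [IsAlgClosed k] [CharZero k] {ι : Type} {C : ι → Crv k}

/-- two filtrations with the properties are equal -/
theorem uniq {Φ Ψ : ∀ r : ℕ, (Fin r → Hyp C) → ℕ → Submodule ℚ ((Fin r → Pt C) →₀ ℚ)}
    (h : Conds C Φ) (h' : Conds C Ψ) (r : ℕ) (X : Fin r → Hyp C) (hX : ∀ a, (X a).Adm) (ν : ℕ) :
    Φ r X ν = Ψ r X ν := by
  have hzero : ∀ {Φ : ∀ r : ℕ, (Fin r → Hyp C) → ℕ → Submodule ℚ ((Fin r → Pt C) →₀ ℚ)},
      Conds C Φ → Φ r X 0 = Finsupp.supported ℚ ℚ {x | OnP X x} := by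
    intro Φ h
    ext z
    rw [h.zero r X z hX, Finsupp.mem_supported]
    exact Iff.rfl
  have hle : ∀ {Φ : ∀ r : ℕ, (Fin r → Hyp C) → ℕ → Submodule ℚ ((Fin r → Pt C) →₀ ℚ)},
      Conds C Φ → ∀ ν, Φ r X ν ≤ Φ r X 0 := by
    intro Φ h ν
    induction ν with
    | zero => exact le_rfl
    | succ ν ih => exact (h.anti r X ν hX).trans ih
  by_cases hne : ∃ w : Fin r → Pt C, OnP X w
  · obtain ⟨w, hw⟩ := hne
    obtain ⟨R, hR⟩ : ∃ R : ℕ, ∀ a q, R ≤ q → (X a).m q = 0 := by
      choose N hN using fun a => (hX a).1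
      refine ⟨Finset.univ.sup N, fun a q hq => ?_⟩
      have h1 := hN a q ((Finset.le_sup (Finset.mem_univ a)).trans hq)
      exact congrArg Cmp.m h1
    have hM : ∀ a q (j : Fin ((X a).m q)), NeZero (((X a).D q).F.M j) := by
      intro a q j
      rcases (hX a).2 q with h1 | h1
      · have h2 : ((X a).D q).m = 0 := congrArg Cmp.m h1
        exact absurd j.2 (by
          have h3 : (X a).m q = 0 := h2
          omega)
      · exact ⟨(h1.M0 j).ne'⟩
    have hF : ∀ a q, Fintype (Rq (X a) q) := by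
      intro a q
      have h2 : ∀ j : Fin ((X a).m q), Finite (rootsOfUnity (((X a).D q).F.M j) k) := fun j => by
        have := hM a q j
        infer_instance
      exact Fintype.ofFinite _
    have hS : ∀ {Φ : ∀ r : ℕ, (Fin r → Hyp C) → ℕ → Submodule ℚ ((Fin r → Pt C) →₀ ℚ)},
        Conds C Φ → Split (RatP X ℚ) (Finsupp.supported ℚ ℚ {x | OnP X x}) (Φ r X)
          (fun κ : Fin r → Option (Finset (Fin R)) => ∑ a, wt (X a) (κ a)) (∑ a, (X a).dim)
          (fun κ => pushM (ga R hw κ)) := by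
      intro Φ h
      refine ⟨fun ν => h.rat r X ν hX, fun ν => h.anti r X ν hX, hzero h, (h.top r X hX).le,
        fun z _ => ?_, fun κ z _ => ?_, fun κ ν z hz => ?_, fun κ ν hν z hz => ?_⟩
      · rw [ga_sum, sub_self]
        exact zero_mem _
      · rw [ga_idem, sub_self]
        exact zero_mem _
      · exact h.map r r X X ν (ga R hw κ) hX hX (Submodule.mem_map_of_mem hz)
      · exact h.grad r r X X ν (ga R hw κ) hX hX (ga_kills hw hR κ hν)
          (Submodule.mem_map_of_mem hz)
    exact (hS h).unique (hS h') ν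
  · have h1 : ∀ {Φ : ∀ r : ℕ, (Fin r → Hyp C) → ℕ → Submodule ℚ ((Fin r → Pt C) →₀ ℚ)},
        Conds C Φ → Φ r X ν = ⊥ := by
      intro Φ h
      rw [eq_bot_iff]
      refine (hle h ν).trans ?_
      rw [hzero h]
      intro z hz
      rw [Finsupp.mem_supported] at hz
      rw [Submodule.mem_bot, ← Finsupp.support_eq_empty, Finset.eq_empty_iff_forall_notMem]
      intro x hx
      exact hne ⟨x, hz hx⟩
    rw [h1 h, h1 h']

end Pool.Agent.HGP
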